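import Pool.Agent.V11206.Blk

/-! The main theorem for blocks of triple points. -/

set_option autoImplicit false

namespace Pool.Agent.V11206

open Pool.Agent.Y468.SR
open Pool.Agent.Y874.TP hiding InvM InvC CM CReid CStep SMovie Inv3 S_REID S_REN S_THREE
open Pool.Agent.Y874.TP2
open Pool.Agent.Y874.TP2.T4

set_option linter.unusedSimpArgs false
set_option linter.unusedVariables false

theorem nmT_zf (T : Tri) (i : Ix) : nmT (T.rename zf) i = zf (nmT T i) := by cases i <;> rfl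

theorem blk_zf {Ts : List Tri} {m β : ℕ → ℕ} (h : BlkM Ts m β) :
    BlkM (Ts.map (Tri.rename zf)) (fun c => zf (m (zg c))) (fun c => β (zg c)) := by
  have hz : ∀ {a b : ℕ}, zf a = zf b ↔ a = b := ⟨zf_inj, fun h => by rw [h]⟩
  refine ⟨?_, ?_, ?_⟩
  · intro T' hT' i j
    obtain ⟨T, hT, rfl⟩ := List.mem_map.1 hT'
    simp only [nmT_zf, zg_zf]
    exact h.blk T hT i j
  · intro c c' h1 h2 h3 h4 h5 h6 h7
    obtain ⟨c, g1, rfl⟩ := names_zf.1 h1
    obtain ⟨c', g2, rfl⟩ := names_zf.1 h2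
    simp only [zg_zf] at h3 h4 h5 h6 h7
    obtain ⟨d, h3, e3⟩ := names_zf.1 h3
    obtain ⟨d', h4, e4⟩ := names_zf.1 h4
    rw [← zf_inj e3] at h3
    rw [← zf_inj e4] at h4
    rw [h.tree c c' g1 g2 h3 h4 h5 h6 h7]
  · intro n
    rcases h.thin n with h1 | h1
    · left
      intro T' hT' T'' hT'' i j k1 k2
      obtain ⟨T₁, g1, rfl⟩ := List.mem_map.1 hT'
      obtain ⟨T₂, g2, rfl⟩ := List.mem_map.1 hT''
      simp only [nmT_zf, zg_zf] at k1 k2
      funext l
      rw [nmT_zf, nmT_zf, h1 T₁ g1 T₂ g2 i j k1 k2]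
    · right
      refine ⟨?_, ?_, ?_, ?_⟩
      · intro T' hT' i j k1 k2
        obtain ⟨T, hT, rfl⟩ := List.mem_map.1 hT'
        simp only [nmT_zf, zg_zf, hz] at k1 k2 ⊢
        exact h1.loop T hT i j k1 k2
      · intro T₁' hT₁ T₂' hT₂ i₁ j₁ i₂ j₂ k1 k2 k3 k4 k5 k6
        obtain ⟨T₁, g₁, rfl⟩ := List.mem_map.1 hT₁
        obtain ⟨T₂, g₂, rfl⟩ := List.mem_map.1 hT₂
        simp only [nmT_zf, zg_zf, hz, ne_eq] at k1 k2 k3 k4 k5 k6
        exact h1.pair T₁ g₁ T₂ g₂ i₁ j₁ i₂ j₂ k1 k2 k3 k4 k5 k6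
      · intro T₁' hT₁ T₂' hT₂ T₃' hT₃ i₁ j₁ i₂ j₂ i₃ j₃ k1 k2 k2' k3 k4 k4' k5 k6 k7
        obtain ⟨T₁, g₁, rfl⟩ := List.mem_map.1 hT₁
        obtain ⟨T₂, g₂, rfl⟩ := List.mem_map.1 hT₂
        obtain ⟨T₃, g₃, rfl⟩ := List.mem_map.1 hT₃
        simp only [nmT_zf, zg_zf, hz, ne_eq] at k1 k2 k2' k3 k4 k4' k5 k6 k7
        exact h1.tri T₁ g₁ T₂ g₂ T₃ g₃ i₁ j₁ i₂ j₂ i₃ j₃ k1 k2 k2' k3 k4 k4' k5 k6 k7
      · intro T' hT' i j k k1 k2 k3 k4 k5
        obtain ⟨T, hT, rfl⟩ := List.mem_map.1 hT'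
        simp only [nmT_zf, zg_zf, hz] at k1 k5
        refine h1.free T hT i j k k1 k2 k3 k4 fun l hl => ?_
        rcases k5 l hl with k6 | ⟨k6, k7⟩
        · exact Or.inl k6
        · obtain ⟨d, g, e⟩ := names_zf.1 k6
          rw [← zf_inj e] at g
          exact Or.inr ⟨g, k7⟩

/-- position of a name -/
noncomputable def posT (Ts : List Tri) (c : ℕ) : ℕ :=
  open Classical in if H : ∃ n T, Ts[n]? = some T ∧ Nam T c then H.choose else 0

theorem dj_pos {Ts : List Tri} : Dj Ts → ∀ {n n' : ℕ} {T T' : Tri} {c : ℕ}, Ts[n]? = some T →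
    Ts[n']? = some T' → Nam T c → Nam T' c → n = n' := by
  induction Ts with
  | nil => intro _ n n' T T' c h; simp at h
  | cons S Ts ih =>
    intro hd n n' T T' c h1 h2 h3 h4
    rcases n with _ | n <;> rcases n' with _ | n'
    · rfl
    · exfalso
      simp only [List.getElem?_cons_zero, Option.some.injEq, List.getElem?_cons_succ] at h1 h2
      subst h1
      exact hd.2.2 c h3 ⟨T', List.mem_of_getElem? h2, h4⟩
    · exfalso
      simp only [List.getElem?_cons_zero, Option.some.injEq, List.getElem?_cons_succ] at h1 h2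
      subst h2
      exact hd.2.2 c h4 ⟨T, List.mem_of_getElem? h1, h3⟩
    · simp only [List.getElem?_cons_succ] at h1 h2
      rw [ih hd.1 h1 h2 h3 h4]

theorem posT_eq {Ts : List Tri} (hd : Dj Ts) {n : ℕ} {T : Tri} (h : Ts[n]? = some T) (i : Ix) :
    posT Ts (nmT T i) = n := by
  have H : ∃ n T', Ts[n]? = some T' ∧ Nam T' (nmT T i) := ⟨n, T, h, nam_ix.2 ⟨i, rfl⟩⟩
  unfold posT
  rw [dif_pos H]
  obtain ⟨T', h1, h2⟩ := H.choose_spec
  exact dj_pos hd h1 h h2 (nam_ix.2 ⟨i, rfl⟩)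

/-- the number of the double curve -/
def tn (i : Ix) : ℕ := match i with | .a1 => 0 | .a2 => 0 | .b1 => 1 | .b2 => 1 | .c1 => 2 | .c2 => 2

/-- the place in the list of the names -/
def ni (i : Ix) : ℕ := match i with | .a1 => 0 | .b1 => 1 | .c1 => 2 | .a2 => 3 | .b2 => 4 | .c2 => 5

theorem tn_ty {i j : Ix} : tn i = tn j ↔ ty i = ty j := by cases i <;> cases j <;> simp [tn, ty]

theorem tn_lt (i : Ix) : tn i < 3 := by cases i <;> simp [tn]

theorem ni_inj {i j : Ix} (h : ni i = ni j) : i = j := by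
  cases i <;> cases j <;> first | rfl | (simp [ni] at h)

theorem ends_ni (T : Tri) (i : Ix) : (ends (sigA T))[ni i]? = some (colour (nmT T i)) := by
  cases i <;> rfl

theorem mem_ends (T : Tri) (i : Ix) : colour (nmT T i) ∈ ends (sigA T) :=
  List.mem_of_getElem? (ends_ni T i)

theorem mem_pl (T : Tri) (i : Ix) : colour (nmT T i) ∈ pl (sigA T) (tn i) := by
  cases i <;> simp [pl, tn, sigA, nmT]

theorem names_at {Ts : List Tri} {c : ℕ} (h : Names Ts c) :
    ∃ (n : ℕ) (T : Tri) (i : Ix), Ts[n]? = some T ∧ c = nmT T i := by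
  obtain ⟨T, hT, hc⟩ := h
  obtain ⟨n, hn⟩ := List.getElem?_of_mem hT
  obtain ⟨i, hi⟩ := nam_ix.1 hc
  exact ⟨n, T, i, hn, hi⟩

theorem blk_of {Ts : List Tri} {m b : ℕ → ℕ} (hd : Dj Ts)
    (hc : ∀ c, Names Ts c → colour (m c) = colour c)
    (hev : ∀ c, Names Ts c → m c = c → colour c % 2 = 0) (h : Blocks (Ts.map sigA) b) :
    BlkM Ts m (fun c => b (posT Ts c)) := by
  have hR : ∀ {n : ℕ} {T : Tri}, Ts[n]? = some T → (Ts.map sigA)[n]? = some (sigA T) := by
    intro n T h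
    rw [List.getElem?_map, h]; rfl
  have hb : ∀ {n : ℕ} {T : Tri}, Ts[n]? = some T → ∀ i, b (posT Ts (nmT T i)) = b n :=
    fun h i => by rw [posT_eq hd h i]
  have hin : ∀ {n : ℕ} {T : Tri}, Ts[n]? = some T → ∀ i, Names Ts (nmT T i) :=
    fun h i => names_ix (List.mem_of_getElem? h) i
  refine ⟨?_, ?_, ?_⟩
  · intro T hT i j
    obtain ⟨n, hn⟩ := List.getElem?_of_mem hT
    simp only [hb hn]
  · intro c c' h1 h2 h3 h4 h5 h6 h7
    obtain ⟨p, T, i, g1, rfl⟩ := names_at h1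
    obtain ⟨p', T', i', g2, rfl⟩ := names_at h2
    obtain ⟨q, S, j, g3, e3⟩ := names_at h3
    obtain ⟨q', S', j', g4, e4⟩ := names_at h4
    rw [e3] at h6
    rw [e4] at h7
    rw [hb g1, hb g3] at h6
    rw [hb g2, hb g4] at h7
    rw [hb g1, hb g2] at h5
    have c1 := hc _ h1
    have c2 := hc _ h2
    rw [e3] at c1
    rw [e4] at c2
    obtain ⟨rfl, k⟩ := h.tree p p' _ _ (hR g1) (hR g2) h5 (ni i) (ni i') _ _ (ends_ni T i)
      (ends_ni T' i') ⟨q, _, hR g3, h6, by rw [← c1]; exact mem_ends S j⟩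
      ⟨q', _, hR g4, h7, by rw [← c2]; exact mem_ends S' j'⟩
    rw [g1] at g2
    obtain rfl := Option.some_injective _ g2
    rw [ni_inj k]
  · intro n
    rcases h.thin n with h1 | h1
    · left
      intro T hT T' hT' i j k1 k2
      obtain ⟨p, g1⟩ := List.getElem?_of_mem hT
      obtain ⟨q, g2⟩ := List.getElem?_of_mem hT'
      simp only [hb g1] at k1
      simp only [hb g2] at k2
      have l1 : ∀ {n : ℕ} {T : Tri}, Ts[n]? = some T → n < (Ts.map sigA).length := by
        intro n T h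
        rw [List.length_map]
        exact (List.getElem?_eq_some_iff.1 h).1
      have := h1 p q (l1 g1) (l1 g2) k1 k2
      subst this
      rw [g1] at g2
      obtain rfl := Option.some_injective _ g2
      rfl
    · right
      have loop : ∀ {p : ℕ} {T : Tri}, Ts[p]? = some T → b p = n → ∀ i j,
          m (nmT T i) = nmT T j → i = j := by
        intro p T g1 k1 i j k2
        have c1 := hc _ (hin g1 i)
        rw [k2] at c1
        have hnd := h1.loop p _ (hR g1) k1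
        have e1 := ends_ni T i
        have e2 := ends_ni T j
        rw [c1] at e2
        exact ni_inj ((List.getElem?_inj (List.getElem?_eq_some_iff.1 e1).1 hnd).1
          (e1.trans e2.symm))
      have nej : ∀ {p q : ℕ} {T T' : Tri}, Ts[p]? = some T → Ts[q]? = some T' → b p = n → ∀ i j,
          m (nmT T i) = nmT T' j → nmT T i ≠ nmT T' j → p ≠ q := by
        rintro p q T T' g1 g2 k1 i j k2 k3 rfl
        rw [g1] at g2
        obtain rfl := Option.some_injective _ g2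
        exact k3 (by rw [loop g1 k1 i j k2])
      refine ⟨?_, ?_, ?_, ?_⟩
      · intro T hT i j k1 k2
        obtain ⟨p, g1⟩ := List.getElem?_of_mem hT
        simp only [hb g1] at k1
        rw [loop g1 k1 i j k2]
      · intro T₁ hT₁ T₂ hT₂ i₁ j₁ i₂ j₂ k1 k2 k3 k4 k5 k6
        obtain ⟨p, g1⟩ := List.getElem?_of_mem hT₁
        obtain ⟨q, g2⟩ := List.getElem?_of_mem hT₂
        simp only [hb g1] at k1
        simp only [hb g2] at k2
        have c1 := hc _ (hin g1 i₁)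
        have c2 := hc _ (hin g2 i₂)
        rw [k3] at c1
        rw [k4] at c2
        have := h1.pair p q _ _ (hR g1) (hR g2) k1 k2 (nej g1 g2 k1 _ _ k3 k5) (tn j₁) (tn i₁)
          (tn j₂) (tn i₂) _ _ (mem_pl T₁ i₁) (by rw [← c1]; exact mem_pl T₂ j₂) (mem_pl T₂ i₂)
          (by rw [← c2]; exact mem_pl T₁ j₁)
        exact this.imp (fun k => (tn_ty.1 k).symm) fun k => (tn_ty.1 k).symm
      · intro T₁ hT₁ T₂ hT₂ T₃ hT₃ i₁ j₁ i₂ j₂ i₃ j₃ k1 k2 k2' k3 k4 k4' k5 k6 k7
        obtain ⟨p, g1⟩ := List.getElem?_of_mem hT₁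
        obtain ⟨q, g2⟩ := List.getElem?_of_mem hT₂
        obtain ⟨r, g3⟩ := List.getElem?_of_mem hT₃
        simp only [hb g1] at k1
        simp only [hb g2] at k2
        simp only [hb g3] at k2'
        have c1 := hc _ (hin g1 i₁)
        have c2 := hc _ (hin g2 i₂)
        have c3 := hc _ (hin g3 i₃)
        rw [k3] at c1
        rw [k4] at c2
        rw [k4'] at c3
        have := h1.tri p q r _ _ _ (hR g1) (hR g2) (hR g3) k1 k2 k2' (nej g1 g2 k1 _ _ k3 k5)
          (nej g2 g3 k2 _ _ k4 k6) (nej g3 g1 k2' _ _ k4' k7) (tn j₁) (tn i₁)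
          (tn j₂) (tn i₂) (tn j₃) (tn i₃) _ _ _ (mem_pl T₁ i₁) (by rw [← c1]; exact mem_pl T₂ j₂)
          (mem_pl T₂ i₂) (by rw [← c2]; exact mem_pl T₃ j₃) (mem_pl T₃ i₃)
          (by rw [← c3]; exact mem_pl T₁ j₁)
        rcases this with k | k | k
        · exact Or.inl (tn_ty.1 k).symm
        · exact Or.inr (Or.inl (tn_ty.1 k).symm)
        · exact Or.inr (Or.inr (tn_ty.1 k).symm)
      · intro T hT i j k k1 k2 k3 k4 k5
        obtain ⟨p, g1⟩ := List.getElem?_of_mem hT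
        simp only [hb g1] at k1
        have hfr : ∀ l, l = i ∨ l = j ∨ l = k → Fr (Ts.map sigA) b n (colour (nmT T l)) := by
          intro l hl
          rcases k5 l hl with k6 | ⟨k6, k7⟩
          · exact Or.inl (hev _ (hin g1 l) k6)
          · obtain ⟨q, S, r, g2, e2⟩ := names_at k6
            have c1 := hc _ (hin g1 l)
            rw [e2] at k7 c1
            simp only [hb g2] at k7
            exact Or.inr ⟨q, _, hR g2, k7, by rw [← c1]; exact mem_ends S r⟩
        have hex : ∀ s < 3, ∃ l, (l = i ∨ l = j ∨ l = k) ∧ tn l = s := by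
          intro s hs
          have t1 := tn_lt i
          have t2 := tn_lt j
          have t3 := tn_lt k
          have n1 : tn i ≠ tn j := fun h => k2 (tn_ty.1 h)
          have n2 : tn j ≠ tn k := fun h => k3 (tn_ty.1 h)
          have n3 : tn i ≠ tn k := fun h => k4 (tn_ty.1 h)
          rcases (by omega : tn i = s ∨ tn j = s ∨ tn k = s) with h | h | h
          · exact ⟨i, by simp, h⟩
          · exact ⟨j, by simp, h⟩
          · exact ⟨k, by simp, h⟩
        obtain ⟨l0, a0, b0⟩ := hex 0 (by norm_num)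
        obtain ⟨l1, a1, b1⟩ := hex 1 (by norm_num)
        obtain ⟨l2, a2, b2⟩ := hex 2 (by norm_num)
        exact h1.free p _ (hR g1) k1 _ (by rw [← b0]; exact mem_pl T l0) _
          (by rw [← b1]; exact mem_pl T l1) _ (by rw [← b2]; exact mem_pl T l2)
          ⟨hfr l0 a0, hfr l1 a1, hfr l2 a2⟩

/-- the reduction of movies whose triple points form blocks -/
theorem movie_of_blocks {Z : ℕ → Prop} {hd : Bool} {D : Code} {R : List Trp} {b : ℕ → ℕ}
    (h : AMovie hd Z D R) (hR : Blocks R b) (hZ : ∀ p ∈ passes D, ¬Z (colour p.crossing))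
    (hn : (D.map Prod.snd).Nodup) : Movie true false D [] := by
  obtain ⟨Ts, h1, h2⟩ := amovie_inv RD.reid RN.ren h
  rw [del_eq hZ] at h1
  obtain ⟨m, hM, hC, hN⟩ := h1.inv
  subst h2
  have hcol : ∀ c, Names Ts c → colour (m c) = colour c ∧ (m c = c → colour c % 2 = 0) := by
    intro c hc
    obtain ⟨p, hp, rfl⟩ := names_pass hc
    have := hC p (by rw [passes_append']; exact List.mem_append_right _ hp)
    refine ⟨this.1, fun h => ?_⟩
    by_contra h5
    exact this.2 h5 h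
  refine movie_zero pb_cls (amovie_classical h) hn h1.wf h1.ok hM hN ⟨?_, _,
    blk_zf (blk_of (dj_of h1.wf) (fun c hc => (hcol c hc).1) (fun c hc => (hcol c hc).2) hR)⟩
  intro T' hT' c hc
  obtain ⟨T, hT, rfl⟩ := List.mem_map.1 hT'
  obtain ⟨c₀, -, rfl⟩ := nam_zf.1 hc
  exact colour_zf c₀

end Pool.Agent.V11206
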