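import Pool.Agent.Y874.TP2.Defs

/-!
# Movies with a list of the double arcs at the triple points

Every crossing belongs to a double arc of the projection, i.e. to a component of the set of double
points which are not triple points. The arc is named by the colour of the crossing (several arcs may
have one colour).
-/

set_option autoImplicit false

namespace Pool.Agent.V11206

open Pool.Agent.Y468.SR
open Pool.Agent.Y874.TP (colour TriAt)
open Pool.Agent.Y874.TP2 (CStep)

/-- `AMovie handles Z D R`: the classical link `D` bounds disjoint connected surfaces, one for each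
label, by a movie ending with the empty diagram, in which births are allowed. At each triple point of
the projection (move of type III) either at least two of the three double curves have colours in `Z`
(`inner`), or the three crossings get new names (and colours) and all six double arcs ending at this
triple point have colours outside `Z` (`three`). The list `R` gives these six colours for the triple
points of the second kind: of the crossings of top and middle, top and bottom, middle and bottom
strands before the move, and of the same crossings after it. If `handles = false`, the surfaces are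
planar. If `handles = true`, a component may be cut into two components of the boundary of the same
piece of surface, one of which passes only through crossings with colours in `Z`. -/
inductive AMovie (handles : Bool) (Z : ℕ → Prop) :
    Code → List ((ℕ × ℕ × ℕ) × (ℕ × ℕ × ℕ)) → Prop
  | nil : AMovie handles Z [] []
  | step {D D' : Code} {R : List ((ℕ × ℕ × ℕ) × (ℕ × ℕ × ℕ))} (h : Classical D) (hs : CStep D D')
      (hm : AMovie handles Z D' R) : AMovie handles Z D R
  | three {D D' : Code} {R : List ((ℕ × ℕ × ℕ) × (ℕ × ℕ × ℕ))} (h : Classical D)
      (A B C E : List (Pass ⊕ ℕ)) (X Y W t m b : Pass × Pass) (x y z : ℕ) (hT : TriAt x y z t m b)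
      (hP : List.Perm [X, Y, W] [t, m, b])
      (hD : enc D = A ++ two X.1 X.2 ++ B ++ two Y.1 Y.2 ++ C ++ two W.1 W.2 ++ E)
      (hD' : enc D' = A ++ two X.2 X.1 ++ B ++ two Y.2 Y.1 ++ C ++ two W.2 W.1 ++ E)
      (f : ℕ → ℕ) (hf : ∀ p ∈ passes D', ∀ q ∈ passes D',
        f p.crossing = f q.crossing → p.crossing = q.crossing)
      (hc : ∀ p ∈ passes D', p.crossing ≠ x → p.crossing ≠ y → p.crossing ≠ z →
        colour (f p.crossing) = colour p.crossing)
      (hZ : ∀ c ∈ [x, y, z], ¬Z (colour c) ∧ ¬Z (colour (f c)))
      (hm : AMovie handles Z (renamed f D') R) :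
      AMovie handles Z D
        (((colour x, colour y, colour z), (colour (f x), colour (f y), colour (f z))) :: R)
  | inner {D D' : Code} {R : List ((ℕ × ℕ × ℕ) × (ℕ × ℕ × ℕ))} (h : Classical D)
      (A B C E : List (Pass ⊕ ℕ)) (X Y W t m b : Pass × Pass) (x y z : ℕ) (hT : TriAt x y z t m b)
      (hP : List.Perm [X, Y, W] [t, m, b])
      (hD : enc D = A ++ two X.1 X.2 ++ B ++ two Y.1 Y.2 ++ C ++ two W.1 W.2 ++ E)
      (hD' : enc D' = A ++ two X.2 X.1 ++ B ++ two Y.2 Y.1 ++ C ++ two W.2 W.1 ++ E)
      (hZ : Z (colour x) ∧ Z (colour y) ∨ Z (colour x) ∧ Z (colour z) ∨ Z (colour y) ∧ Z (colour z))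
      (hm : AMovie handles Z D' R) : AMovie handles Z D R
  | handle {S : Code} {R : List ((ℕ × ℕ × ℕ) × (ℕ × ℕ × ℕ))} (x y : List Pass) (b : ℕ)
      (hh : handles = true) (h : Classical ((x ++ y, b) :: S))
      (hy : ∀ p ∈ y, Z (colour p.crossing))
      (hm : AMovie handles Z ((x, b) :: (y, b) :: S) R) : AMovie handles Z ((x ++ y, b) :: S) R

/-- the colours of the six double arcs ending at a triple point -/
def ends (e : (ℕ × ℕ × ℕ) × (ℕ × ℕ × ℕ)) : List ℕ :=
  [e.1.1, e.1.2.1, e.1.2.2, e.2.1, e.2.2.1, e.2.2.2]

/-- At each triple point of the list `R`, at most one of the six double arcs ending there has a colour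
which occurs at the triple points further on in the list. -/
def Forest : List ((ℕ × ℕ × ℕ) × (ℕ × ℕ × ℕ)) → Prop
  | [] => True
  | e :: R => (∀ i j k l : ℕ, (ends e)[i]? = some k → (ends e)[j]? = some l →
      k ∈ R.flatMap ends → l ∈ R.flatMap ends → i = j) ∧ Forest R

end Pool.Agent.V11206
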