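import Pool.Agent.V11206.ALift

/-! The main theorem for forests of triple points. -/

set_option autoImplicit false

namespace Pool.Agent.V11206

open Pool.Agent.Y468.SR
open Pool.Agent.Y874.TP hiding InvM InvC CM CReid CStep SMovie Inv3 S_REID S_REN S_THREE
open Pool.Agent.Y874.TP2
open Pool.Agent.Y874.TP2.T4

variable {Z : ℕ → Prop}

theorem amovie_classical {hd : Bool} {D : Code} {R : List ((ℕ × ℕ × ℕ) × (ℕ × ℕ × ℕ))}
    (h : AMovie hd Z D R) : Classical D := by
  cases h with
  | nil => exact classical_empty rfl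
  | step h _ _ => exact h
  | three h => exact h
  | inner h => exact h
  | handle _ _ _ _ h => exact h

theorem del_renamed {f : ℕ → ℕ} {D : Code}
    (h : ∀ p ∈ passes D, (Z (colour (f p.crossing)) ↔ Z (colour p.crossing))) :
    del Z (renamed f D) = renamed f (del Z D) := by
  unfold del renamed
  rw [List.map_map, List.map_map]
  refine List.map_congr_left fun C hC => ?_
  simp only [Function.comp, Prod.mk.injEq, and_true]
  have hw : ∀ r ∈ C.1, r ∈ passes D := fun r hr => mem_passes.2 ⟨C, hC, hr⟩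
  revert hw
  generalize C.1 = w
  intro hw
  induction w with
  | nil => rfl
  | cons r w ih =>
    have ih' := ih fun r' hr' => hw r' (by simp [hr'])
    have hr := h r (hw r (by simp))
    by_cases hz : Z (colour r.crossing)
    · rw [dw_cons_pos hz, List.map_cons, dw_cons_pos (by exact hr.2 hz), ih']
    · rw [dw_cons_neg hz, List.map_cons, dw_cons_neg (by exact fun k => hz (hr.1 k)), ih',
        List.map_cons]

theorem amovie_inv (hreid : S_REID) (hren : S_REN) {hd : Bool} {D : Code}
    {R : List ((ℕ × ℕ × ℕ) × (ℕ × ℕ × ℕ))} (h : AMovie hd Z D R) :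
    ∃ Ts, InvA (del Z D) Ts ∧ Ts.map sigA = R := by
  induction h with
  | nil =>
    refine ⟨[], ⟨?_, by simp, ?_⟩, rfl⟩
    · exact ⟨by simp [TC, del], by simp [TC, del]⟩
    · refine ⟨id, fun p hp => absurd hp (by simp [TC, del]),
        fun p hp => absurd hp (by simp [TC, del]), fun G _ o u _ b => ?_⟩
      exact PC.nil
  | @step D D' R hD hs hm ih =>
    obtain ⟨Ts, h1, h2⟩ := ih
    rcases cstep_del (Z := Z) hs with h | h
    · obtain ⟨Ts', k1, k2⟩ := cstep_liftA hreid hren (wf_del hD.1)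
        (wf_del (amovie_classical hm).1) h h1
      exact ⟨Ts', k1, k2.trans h2⟩
    · exact ⟨Ts, by rw [h]; exact h1, h2⟩
  | @three D D' R hD A B C E X Y W t m b x y z hT hP hE hE' f hf hc hZ hm ih =>
    obtain ⟨Ts, h1, h2⟩ := ih
    obtain ⟨c1, c2, c3⟩ := triAt_crossing hT
    have zx := hZ x (by simp)
    have zy := hZ y (by simp)
    have zz := hZ z (by simp)
    have key : ∀ {u v : ℕ} {q : Pass × Pass}, ¬Z (colour u) → ¬Z (colour v) →
        (q.1.crossing = u ∧ q.2.crossing = v ∨ q.1.crossing = v ∧ q.2.crossing = u) →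
        ¬Z (colour q.1.crossing) ∧ ¬Z (colour q.2.crossing) := by
      intro u v q hu hv hq
      rcases hq with ⟨e1, e2⟩ | ⟨e1, e2⟩ <;> rw [e1, e2] <;> exact ⟨by assumption, by assumption⟩
    obtain ⟨⟨x1, x2⟩, ⟨y1, y2⟩, w1, w2⟩ := mem_three hP (P := fun q : Pass × Pass =>
      ¬Z (colour q.1.crossing) ∧ ¬Z (colour q.2.crossing)) (key zx.1 zy.1 c1)
      (key zx.1 zz.1 c2) (key zy.1 zz.1 c3)
    have hZf : ∀ p ∈ passes D', (Z (colour (f p.crossing)) ↔ Z (colour p.crossing)) := by
      intro p hp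
      by_cases k1 : p.crossing = x
      · rw [k1]; exact ⟨fun h => absurd h zx.2, fun h => absurd h zx.1⟩
      by_cases k2 : p.crossing = y
      · rw [k2]; exact ⟨fun h => absurd h zy.2, fun h => absurd h zy.1⟩
      by_cases k3 : p.crossing = z
      · rw [k3]; exact ⟨fun h => absurd h zz.2, fun h => absurd h zz.1⟩
      rw [hc p hp k1 k2 k3]
    rw [del_renamed hZf] at h1
    have hsub : ∀ p ∈ passes (del Z D'), p ∈ passes D' := by
      intro p hp
      rw [passes_del, mem_dw] at hp
      exact hp.1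
    obtain ⟨T', Ts', k1, k2, k3⟩ := three_liftA (D := del Z D) (D' := del Z D') (A := de Z A)
      (B := de Z B) (C := de Z C) (E := de Z E) (f := f) hren hT hP
      (by rw [enc_del, hE]; simp only [de_append, de_two_keep x1 x2, de_two_keep y1 y2,
        de_two_keep w1 w2])
      (by rw [enc_del, hE']; simp only [de_append, de_two_keep x2 x1, de_two_keep y2 y1,
        de_two_keep w2 w1])
      (fun p hp q hq => hf p (hsub p hp) q (hsub q hq))
      (fun p hp => hc p (hsub p hp)) (wf_del hD.1) h1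
    exact ⟨T' :: Ts', k1, by rw [List.map_cons, k3, k2, h2]⟩
  | @inner D D' R hD A B C E X Y W t m b x y z hT hP hE hE' hZ hm ih =>
    obtain ⟨c1, c2, c3⟩ := triAt_crossing hT
    have key : ∀ {u v : ℕ} {q : Pass × Pass}, (Z (colour u) ∨ Z (colour v)) →
        (q.1.crossing = u ∧ q.2.crossing = v ∨ q.1.crossing = v ∧ q.2.crossing = u) →
        Z (colour q.1.crossing) ∨ Z (colour q.2.crossing) := by
      intro u v q hu hq
      rcases hq with ⟨e1, e2⟩ | ⟨e1, e2⟩ <;> rw [e1, e2]
      · exact hu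
      · exact hu.symm
    obtain ⟨x1, y1, w1⟩ := mem_three hP (P := fun q : Pass × Pass =>
      Z (colour q.1.crossing) ∨ Z (colour q.2.crossing)) (key (by tauto) c1)
      (key (by tauto) c2) (key (by tauto) c3)
    have e : del Z D = del Z D' := by
      refine enc_inj ?_
      rw [enc_del, enc_del, hE, hE']
      simp only [de_append, de_two_swap x1, de_two_swap y1, de_two_swap w1]
    rw [e]
    exact ih
  | @handle S R x y b hh hD hy hm ih =>
    obtain ⟨Ts, h1, h2⟩ := ih
    rw [del_cons, del_cons, dw_eq_nil hy] at h1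
    rw [del_cons, dw_append, dw_eq_nil hy, List.append_nil]
    have hw : WF (passes ((dw Z x, b) :: ([], b) :: del Z S)) := by
      have := wf_del (Z := Z) (amovie_classical hm).1
      rwa [del_cons, del_cons, dw_eq_nil hy] at this
    have hw' : WF (passes (([], b) :: (dw Z x, b) :: del Z S)) := by
      simpa [passes] using hw
    have hw'' : WF (passes ((dw Z x, b) :: del Z S)) := by
      simpa [passes] using hw
    obtain ⟨Ts₁, k1, k2⟩ := cstep_liftA hreid hren hw' hw
      (.perm _ _ (List.Perm.swap _ _ _)) h1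
    obtain ⟨Ts₂, k3, k4⟩ := cstep_liftA hreid hren hw'' hw'
      (.birth b _ ⟨(dw Z x, b), by simp, rfl⟩) k1
    exact ⟨Ts₂, k3, (k4.trans k2).trans h2⟩

theorem perm_map {α β : Type} {g : α → β} {l : List α} {k k' : List β} (hp : k.Perm k')
    (h : l.map g = k) : ∃ l' : List α, l.Perm l' ∧ l'.map g = k' := by
  induction hp generalizing l with
  | nil => exact ⟨l, List.Perm.refl _, h⟩
  | @cons x k k' _ ih =>
    rcases l with _ | ⟨a, l⟩
    · simp at h
    · simp only [List.map_cons, List.cons.injEq] at h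
      obtain ⟨l', h1, h2⟩ := ih h.2
      exact ⟨a :: l', h1.cons a, by simp [h2, h.1]⟩
  | swap x y k =>
    rcases l with _ | ⟨a, _ | ⟨b, l⟩⟩
    · simp at h
    · simp at h
    · simp only [List.map_cons, List.cons.injEq] at h
      exact ⟨b :: a :: l, List.Perm.swap _ _ _, by simp [h.1, h.2.1, h.2.2]⟩
  | trans _ _ ih₁ ih₂ =>
    obtain ⟨l₁, h1, h2⟩ := ih₁ h
    obtain ⟨l₂, h3, h4⟩ := ih₂ h2
    exact ⟨l₂, h1.trans h3, h4⟩

theorem invA_perm {D : Code} {Ts Ts' : List Tri} (hp : Ts.Perm Ts') (h : InvA D Ts) :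
    InvA D Ts' := by
  have hp' : (D ++ TC Ts).Perm (D ++ TC Ts') := List.Perm.append_left _ (hp.flatMap_right _)
  exact ⟨WF.perm (passes_perm hp') h.wf, fun T hT => h.ok T (hp.mem_iff.2 hT),
    invC_perm hp' h.inv⟩

/-- the names at a triple point -/
def nlist (T : Tri) : List ℕ := [T.a₁, T.b₁, T.c₁, T.a₂, T.b₂, T.c₂]

theorem ends_sig (T : Tri) : ends (sigA T) = (nlist T).map colour := rfl

theorem nam_list {T : Tri} {c : ℕ} : Nam T c ↔ c ∈ nlist T := by
  unfold Nam nlist
  simp only [List.mem_cons, List.not_mem_nil, or_false]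
  tauto

theorem names_ends {Ts : List Tri} {c : ℕ} (h : Names Ts c) :
    colour c ∈ (Ts.map sigA).flatMap ends := by
  obtain ⟨T, hT, hc⟩ := h
  rw [List.mem_flatMap]
  refine ⟨sigA T, List.mem_map_of_mem hT, ?_⟩
  rw [ends_sig]
  exact List.mem_map_of_mem (nam_list.1 hc)

theorem fo_of_forest {m : ℕ → ℕ} : ∀ {Ts : List Tri},
    (∀ c, Names Ts c → colour (m c) = colour c) → Forest (Ts.map sigA) → Fo m Ts := by
  intro Ts
  induction Ts with
  | nil => intro _ _; trivial
  | cons T Ts ih =>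
    rintro hm ⟨h1, h2⟩
    refine ⟨ih (fun c h => hm c (names_cons.2 (Or.inr h))) h2, ?_⟩
    intro c c' hc hc' k1 k2
    have e1 := hm c (names_cons.2 (Or.inl hc))
    have e2 := hm c' (names_cons.2 (Or.inl hc'))
    obtain ⟨i, hi⟩ := List.getElem?_of_mem (nam_list.1 hc)
    obtain ⟨j, hj⟩ := List.getElem?_of_mem (nam_list.1 hc')
    have := h1 i j (colour c) (colour c') (by rw [ends_sig, List.getElem?_map, hi]; rfl)
      (by rw [ends_sig, List.getElem?_map, hj]; rfl) (by rw [← e1]; exact names_ends k1)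
      (by rw [← e2]; exact names_ends k2)
    rw [this, hj] at hi
    exact (Option.some_injective _ hi).symm

theorem movie_of_amovie {hd : Bool} {D : Code} {R R' : List ((ℕ × ℕ × ℕ) × (ℕ × ℕ × ℕ))}
    (h : AMovie hd Z D R) (hp : R.Perm R') (hR : Forest R')
    (hZ : ∀ p ∈ passes D, ¬Z (colour p.crossing)) (hn : (D.map Prod.snd).Nodup) :
    Movie true false D [] := by
  obtain ⟨Ts₀, h1, h2⟩ := amovie_inv RD.reid RN.ren h
  rw [del_eq hZ] at h1
  obtain ⟨Ts, h3, h4⟩ := perm_map hp h2
  have h5 := invA_perm h3 h1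
  obtain ⟨m, hM, hC, hN⟩ := h5.inv
  refine movie_zero pf_cls (amovie_classical h) hn h5.wf h5.ok hM hN ⟨?_, fo_zf ?_⟩
  · intro T' hT' c hc
    obtain ⟨T, hT, rfl⟩ := List.mem_map.1 hT'
    obtain ⟨c₀, -, rfl⟩ := nam_zf.1 hc
    exact colour_zf c₀
  · refine fo_of_forest ?_ (by rw [h4]; exact hR)
    intro c hc
    obtain ⟨p, hp, rfl⟩ := names_pass hc
    exact (hC p (by rw [passes_append']; exact List.mem_append_right _ hp)).1

end Pool.Agent.V11206
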