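import Pool.Agent.Y79.TP.WordG
import Pool.Agent.Y874.TP2.Three

/-! A move of type III is undone at the cost of three circles; version with colours of double arcs,
adapted from `Y874/TP2/Match.lean` and `Y874/TP2/Three.lean`. -/

set_option autoImplicit false

namespace Pool.Agent.V11206

open Pool.Agent.Y468.SR Pool.Agent.Y79.TP
open Pool.Agent.Y874.TP hiding InvM InvC CM
open Pool.Agent.Y874.TP2 (CM InvM InvC)
open Pool.Agent.Y874.TP2.TH

theorem match_arc {P P' N : List Pass} {x y z x₁ x₂ y₁ y₂ z₁ z₂ : ℕ} {sx sy sz : Bool} {m' κ : ℕ → ℕ}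
    (hxy : x ≠ y) (hyz : y ≠ z) (hxz : x ≠ z)
    (hP : ∀ p, p ∈ P' ↔ p ∈ P)
    (h6 : ∀ p ∈ P, (p.crossing = x → p.isPos = sx) ∧ (p.crossing = y → p.isPos = sy) ∧
      (p.crossing = z → p.isPos = sz))
    (hx : ∀ e, (⟨x, e, sx⟩ : Pass) ∈ P) (hy : ∀ e, (⟨y, e, sy⟩ : Pass) ∈ P)
    (hz : ∀ e, (⟨z, e, sz⟩ : Pass) ∈ P)
    (hnd : [x₁, x₂, y₁, y₂, z₁, z₂].Nodup)
    (hnew : ∀ c ∈ [x₁, x₂, y₁, y₂, z₁, z₂], ∀ p ∈ P, p.crossing ≠ c)
    (cx1 : colour x₁ = colour x) (cy1 : colour y₁ = colour y) (cz1 : colour z₁ = colour z)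
    (hκ : ∀ p ∈ P, colour (sb x y z x₂ y₂ z₂ p.crossing) = κ p.crossing)
    (hm : Matching P' m') (hc : ∀ p ∈ P', κ (m' p.crossing) = κ p.crossing ∧
      (κ p.crossing % 2 ≠ 0 → m' p.crossing ≠ p.crossing))
    (hN : ∀ p, p ∈ N ↔ p ∈ P ∨ (p.crossing = x₁ ∧ p.isPos = !sx) ∨ (p.crossing = x₂ ∧ p.isPos = sx) ∨
      (p.crossing = y₁ ∧ p.isPos = !sy) ∨ (p.crossing = y₂ ∧ p.isPos = sy) ∨
      (p.crossing = z₁ ∧ p.isPos = !sz) ∨ (p.crossing = z₂ ∧ p.isPos = sz)) :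
    Matching N (nm x y z x₁ y₁ z₁ x₂ y₂ z₂ m') ∧ CM N (nm x y z x₁ y₁ z₁ x₂ y₂ z₂ m') ∧
    (∀ p ∈ P, nm x y z x₁ y₁ z₁ x₂ y₂ z₂ m' (sb x y z x₂ y₂ z₂ p.crossing) =
      sb x y z x₂ y₂ z₂ (m' p.crossing)) ∧
    (∀ p ∈ P, sP x y z x₂ y₂ z₂ p ∈ N) ∧
    (∀ p ∈ P, m' p.crossing ≠ p.crossing →
      nm x y z x₁ y₁ z₁ x₂ y₂ z₂ m' (sb x y z x₂ y₂ z₂ p.crossing) ≠
        sb x y z x₂ y₂ z₂ p.crossing) ∧
    nm x y z x₁ y₁ z₁ x₂ y₂ z₂ m' x = x₁ ∧ nm x y z x₁ y₁ z₁ x₂ y₂ z₂ m' y = y₁ ∧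
    nm x y z x₁ y₁ z₁ x₂ y₂ z₂ m' z = z₁ := by
  have hxn : ∀ c ∈ [x₁, x₂, y₁, y₂, z₁, z₂], x ≠ c := fun c hc' => hnew c hc' _ (hx true)
  have hyn : ∀ c ∈ [x₁, x₂, y₁, y₂, z₁, z₂], y ≠ c := fun c hc' => hnew c hc' _ (hy true)
  have hzn : ∀ c ∈ [x₁, x₂, y₁, y₂, z₁, z₂], z ≠ c := fun c hc' => hnew c hc' _ (hz true)
  have hx1 := hxn x₁ (by simp)
  have hx2 := hxn x₂ (by simp)
  have hx3 := hxn y₁ (by simp)
  have hx4 := hxn y₂ (by simp)
  have hx5 := hxn z₁ (by simp)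
  have hx6 := hxn z₂ (by simp)
  have hy1 := hyn x₁ (by simp)
  have hy2 := hyn x₂ (by simp)
  have hy3 := hyn y₁ (by simp)
  have hy4 := hyn y₂ (by simp)
  have hy5 := hyn z₁ (by simp)
  have hy6 := hyn z₂ (by simp)
  have hz1 := hzn x₁ (by simp)
  have hz2 := hzn x₂ (by simp)
  have hz3 := hzn y₁ (by simp)
  have hz4 := hzn y₂ (by simp)
  have hz5 := hzn z₁ (by simp)
  have hz6 := hzn z₂ (by simp)
  simp only [List.nodup_cons, List.mem_cons, List.not_mem_nil, or_false, not_or, not_false_eq_true,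
    List.nodup_nil, and_true] at hnd
  obtain ⟨⟨n12, n13, n14, n15, n16⟩, ⟨n23, n24, n25, n26⟩, ⟨n34, n35, n36⟩, ⟨n45, n46⟩, n56⟩ := hnd
  obtain ⟨s, hs⟩ : ∃ s, s = sb x y z x₂ y₂ z₂ := ⟨_, rfl⟩
  obtain ⟨m, hmm⟩ : ∃ m, m = nm x y z x₁ y₁ z₁ x₂ y₂ z₂ m' := ⟨_, rfl⟩
  have sx0 : s x = x₂ := by rw [hs]; simp [sb]
  have sy0 : s y = y₂ := by rw [hs]; simp [sb, hxy.symm]
  have sz0 : s z = z₂ := by rw [hs]; simp [sb, hxz.symm, hyz.symm]
  have s0 : ∀ c, c ≠ x → c ≠ y → c ≠ z → s c = c := by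
    intro c h1 h2 h3
    rw [hs]
    simp [sb, h1, h2, h3]
  have mx : m x = x₁ := by rw [hmm]; simp [nm]
  have mx1 : m x₁ = x := by rw [hmm]; simp [nm, hx1.symm]
  have my : m y = y₁ := by rw [hmm]; simp [nm, hxy.symm, hy1]
  have my1 : m y₁ = y := by rw [hmm]; simp [nm, hx3.symm, Ne.symm n13, hy3.symm]
  have mz : m z = z₁ := by rw [hmm]; simp [nm, hxz.symm, hz1, hyz.symm, hz3]
  have mz1 : m z₁ = z := by
    rw [hmm]
    simp [nm, hx5.symm, Ne.symm n15, hy5.symm, Ne.symm n35, hz5.symm]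
  have mx2 : m x₂ = s (m' x) := by
    rw [hmm, hs]
    simp [nm, hx2.symm, Ne.symm n12, hy2.symm, n23, hz2.symm, n25]
  have my2 : m y₂ = s (m' y) := by
    rw [hmm, hs]
    simp [nm, hx4.symm, Ne.symm n14, hy4.symm, Ne.symm n34, hz4.symm, n45, Ne.symm n24]
  have mz2 : m z₂ = s (m' z) := by
    rw [hmm, hs]
    simp [nm, hx6.symm, Ne.symm n16, hy6.symm, Ne.symm n36, hz6.symm, Ne.symm n56, Ne.symm n26,
      Ne.symm n46]
  have m0 : ∀ p ∈ P, p.crossing ≠ x → p.crossing ≠ y → p.crossing ≠ z →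
      m p.crossing = s (m' p.crossing) := by
    intro p hp h1 h2 h3
    have e1 := hnew x₁ (by simp) p hp
    have e2 := hnew x₂ (by simp) p hp
    have e3 := hnew y₁ (by simp) p hp
    have e4 := hnew y₂ (by simp) p hp
    have e5 := hnew z₁ (by simp) p hp
    have e6 := hnew z₂ (by simp) p hp
    rw [hmm, hs]
    simp [nm, h1, h2, h3, e1, e2, e3, e4, e5, e6]
  -- the relation between the matchings
  have hrel : ∀ p ∈ P, m (s p.crossing) = s (m' p.crossing) := by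
    intro p hp
    by_cases h1 : p.crossing = x
    · rw [h1, sx0, mx2]
    by_cases h2 : p.crossing = y
    · rw [h2, sy0, my2]
    by_cases h3 : p.crossing = z
    · rw [h3, sz0, mz2]
    rw [s0 _ h1 h2 h3]
    exact m0 p hp h1 h2 h3
  -- injectivity
  have hinj : ∀ p ∈ P, ∀ q ∈ P, s p.crossing = s q.crossing → p.crossing = q.crossing := by
    intro p hp q hq h
    have key : ∀ r ∈ P, (r.crossing = x ∧ s r.crossing = x₂) ∨ (r.crossing = y ∧ s r.crossing = y₂) ∨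
        (r.crossing = z ∧ s r.crossing = z₂) ∨ s r.crossing = r.crossing := by
      intro r _
      by_cases h1 : r.crossing = x
      · exact Or.inl ⟨h1, by rw [h1, sx0]⟩
      by_cases h2 : r.crossing = y
      · exact Or.inr (Or.inl ⟨h2, by rw [h2, sy0]⟩)
      by_cases h3 : r.crossing = z
      · exact Or.inr (Or.inr (Or.inl ⟨h3, by rw [h3, sz0]⟩))
      exact Or.inr (Or.inr (Or.inr (s0 _ h1 h2 h3)))
    have p2 := hnew x₂ (by simp) p hp
    have p4 := hnew y₂ (by simp) p hp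
    have p6 := hnew z₂ (by simp) p hp
    have q2 := hnew x₂ (by simp) q hq
    have q4 := hnew y₂ (by simp) q hq
    have q6 := hnew z₂ (by simp) q hq
    rcases key p hp with ⟨a1, a2⟩ | ⟨a1, a2⟩ | ⟨a1, a2⟩ | a2 <;>
      rcases key q hq with ⟨b1, b2⟩ | ⟨b1, b2⟩ | ⟨b1, b2⟩ | b2 <;>
      rw [a2, b2] at h <;> omega
  have hcol : ∀ p ∈ P, colour (s p.crossing) = κ p.crossing := by
    rw [hs]; exact hκ
  -- passages after the replacement
  have hsP : ∀ p ∈ P, (⟨s p.crossing, p.isOver, p.isPos⟩ : Pass) ∈ N := by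
    intro p hp
    rw [hN]
    obtain ⟨g1, g2, g3⟩ := h6 p hp
    by_cases h1 : p.crossing = x
    · right; right; left
      exact ⟨by simp only; rw [h1, sx0], g1 h1⟩
    by_cases h2 : p.crossing = y
    · right; right; right; right; left
      exact ⟨by simp only; rw [h2, sy0], g2 h2⟩
    by_cases h3 : p.crossing = z
    · right; right; right; right; right; right
      exact ⟨by simp only; rw [h3, sz0], g3 h3⟩
    left
    have : (⟨s p.crossing, p.isOver, p.isPos⟩ : Pass) = p := by rw [s0 _ h1 h2 h3]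
    rw [this]
    exact hp
  have hPN : ∀ p ∈ P, p ∈ N := fun p hp => (hN p).2 (Or.inl hp)
  -- classification of the passages
  have hclass : ∀ p ∈ N, (∃ p0 ∈ P, p = ⟨s p0.crossing, p0.isOver, p0.isPos⟩) ∨
      (p.crossing = x ∧ p.isPos = sx) ∨ (p.crossing = y ∧ p.isPos = sy) ∨
      (p.crossing = z ∧ p.isPos = sz) ∨ (p.crossing = x₁ ∧ p.isPos = !sx) ∨
      (p.crossing = y₁ ∧ p.isPos = !sy) ∨ (p.crossing = z₁ ∧ p.isPos = !sz) := by
    intro p hp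
    rcases (hN p).1 hp with hp | hp | hp | hp | hp | hp | hp
    · obtain ⟨g1, g2, g3⟩ := h6 p hp
      by_cases h1 : p.crossing = x
      · exact Or.inr (Or.inl ⟨h1, g1 h1⟩)
      by_cases h2 : p.crossing = y
      · exact Or.inr (Or.inr (Or.inl ⟨h2, g2 h2⟩))
      by_cases h3 : p.crossing = z
      · exact Or.inr (Or.inr (Or.inr (Or.inl ⟨h3, g3 h3⟩)))
      exact Or.inl ⟨p, hp, by rw [s0 _ h1 h2 h3]⟩
    · exact Or.inr (Or.inr (Or.inr (Or.inr (Or.inl hp))))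
    · obtain ⟨c, e, σ⟩ := p
      simp only at hp
      obtain ⟨rfl, rfl⟩ := hp
      exact Or.inl ⟨_, hx e, by simp only; rw [sx0]⟩
    · exact Or.inr (Or.inr (Or.inr (Or.inr (Or.inr (Or.inl hp)))))
    · obtain ⟨c, e, σ⟩ := p
      simp only at hp
      obtain ⟨rfl, rfl⟩ := hp
      exact Or.inl ⟨_, hy e, by simp only; rw [sy0]⟩
    · exact Or.inr (Or.inr (Or.inr (Or.inr (Or.inr (Or.inr hp)))))
    · obtain ⟨c, e, σ⟩ := p
      simp only at hp
      obtain ⟨rfl, rfl⟩ := hp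
      exact Or.inl ⟨_, hz e, by simp only; rw [sz0]⟩
  have hmP : ∀ p ∈ P, ∃ q ∈ P, q.crossing = m' p.crossing ∧ m' q.crossing = p.crossing ∧
      (q.crossing ≠ p.crossing → q.isPos = !p.isPos) := by
    intro p hp
    obtain ⟨q, hq, h⟩ := hm p ((hP p).2 hp)
    exact ⟨q, (hP q).1 hq, h⟩
  have hne : ∀ p ∈ P, m' p.crossing ≠ p.crossing → m (s p.crossing) ≠ s p.crossing := by
    intro p hp h
    obtain ⟨q, hq, h1, -, -⟩ := hmP p hp
    rw [hrel p hp, ← h1]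
    intro h2
    apply h
    rw [← h1]
    exact hinj q hq p hp h2
  rw [← hmm, ← hs]
  refine ⟨?_, ?_, hrel, ?_, hne, mx, my, mz⟩
  · intro p hp
    rcases hclass p hp with ⟨p0, hp0, rfl⟩ | ⟨h1, h2⟩ | ⟨h1, h2⟩ | ⟨h1, h2⟩ | ⟨h1, h2⟩ | ⟨h1, h2⟩ |
      ⟨h1, h2⟩
    · obtain ⟨q, hq, h1, h2, h3⟩ := hmP p0 hp0
      refine ⟨⟨s q.crossing, q.isOver, q.isPos⟩, hsP q hq, ?_, ?_, ?_⟩
      · simp only
        rw [hrel p0 hp0, h1]
      · simp only
        rw [hrel q hq, h2]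
      · intro h4
        refine h3 fun h5 => h4 ?_
        simp only
        rw [h5]
    · refine ⟨⟨x₁, true, !sx⟩, (hN _).2 (by simp), ?_, ?_, ?_⟩
      · rw [h1, mx]
      · simp only; rw [mx1, h1]
      · intro _; simp only; rw [h2]
    · refine ⟨⟨y₁, true, !sy⟩, (hN _).2 (by simp), ?_, ?_, ?_⟩
      · rw [h1, my]
      · simp only; rw [my1, h1]
      · intro _; simp only; rw [h2]
    · refine ⟨⟨z₁, true, !sz⟩, (hN _).2 (by simp), ?_, ?_, ?_⟩
      · rw [h1, mz]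
      · simp only; rw [mz1, h1]
      · intro _; simp only; rw [h2]
    · refine ⟨⟨x, true, sx⟩, hPN _ (hx true), ?_, ?_, ?_⟩
      · rw [h1, mx1]
      · simp only; rw [mx, h1]
      · intro _; simp only; rw [h2, Bool.not_not]
    · refine ⟨⟨y, true, sy⟩, hPN _ (hy true), ?_, ?_, ?_⟩
      · rw [h1, my1]
      · simp only; rw [my, h1]
      · intro _; simp only; rw [h2, Bool.not_not]
    · refine ⟨⟨z, true, sz⟩, hPN _ (hz true), ?_, ?_, ?_⟩
      · rw [h1, mz1]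
      · simp only; rw [mz, h1]
      · intro _; simp only; rw [h2, Bool.not_not]
  · intro p hp
    rcases hclass p hp with ⟨p0, hp0, rfl⟩ | ⟨h1, h2⟩ | ⟨h1, h2⟩ | ⟨h1, h2⟩ | ⟨h1, h2⟩ | ⟨h1, h2⟩ |
      ⟨h1, h2⟩
    · obtain ⟨g1, g2⟩ := hc p0 ((hP p0).2 hp0)
      obtain ⟨q0, hq0, j1, -, -⟩ := hmP p0 hp0
      simp only
      rw [hrel p0 hp0, ← j1, hcol q0 hq0, hcol p0 hp0, j1]
      refine ⟨g1, fun h => ?_⟩
      have := hne p0 hp0 (g2 h)
      rwa [hrel p0 hp0] at this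
    · rw [h1, mx]
      exact ⟨cx1, fun _ => hx1.symm⟩
    · rw [h1, my]
      exact ⟨cy1, fun _ => hy3.symm⟩
    · rw [h1, mz]
      exact ⟨cz1, fun _ => hz5.symm⟩
    · rw [h1, mx1]
      exact ⟨cx1.symm, fun _ => hx1⟩
    · rw [h1, my1]
      exact ⟨cy1.symm, fun _ => hy3⟩
    · rw [h1, mz1]
      exact ⟨cz1.symm, fun _ => hz5⟩
  · intro p hp
    have : sP x y z x₂ y₂ z₂ p = ⟨s p.crossing, p.isOver, p.isPos⟩ := by rw [sP, hs]
    rw [this]
    exact hsP p hp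

theorem core_arc {D D' O : Code} {A B C E : List (Pass ⊕ ℕ)} {X Y Z t m b : Pass × Pass}
    {x y z x₁ x₂ y₁ y₂ z₁ z₂ : ℕ} {sx sy sz τ μ β : Bool} (hxy : x ≠ y) (hyz : y ≠ z) (hxz : x ≠ z)
    (h₁ : xor sx (xor τ μ) = xor sy (xor τ β)) (h₂ : xor sy (xor τ β) = xor sz (xor μ β))
    (ht : t = if τ then (⟨x, true, sx⟩, ⟨y, true, sy⟩) else (⟨y, true, sy⟩, ⟨x, true, sx⟩))
    (hm : m = if μ then (⟨x, false, sx⟩, ⟨z, true, sz⟩) else (⟨z, true, sz⟩, ⟨x, false, sx⟩))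
    (hb : b = if β then (⟨y, false, sy⟩, ⟨z, false, sz⟩) else (⟨z, false, sz⟩, ⟨y, false, sy⟩))
    (hPerm : List.Perm [X, Y, Z] [t, m, b])
    (hD : enc D = A ++ two X.1 X.2 ++ B ++ two Y.1 Y.2 ++ C ++ two Z.1 Z.2 ++ E)
    (hD' : enc D' = A ++ two X.2 X.1 ++ B ++ two Y.2 Y.1 ++ C ++ two Z.2 Z.1 ++ E)
    (hW : WF (passes (D ++ O)))
    (hnd : [x₁, x₂, y₁, y₂, z₁, z₂].Nodup)
    (hnew : ∀ c ∈ [x₁, x₂, y₁, y₂, z₁, z₂], ∀ p ∈ passes (D ++ O), p.crossing ≠ c)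
    (cx1 : colour x₁ = colour x) (cy1 : colour y₁ = colour y) (cz1 : colour z₁ = colour z)
    {m' κ : ℕ → ℕ} (hκ : ∀ p ∈ passes (D ++ O), colour (sb x y z x₂ y₂ z₂ p.crossing) = κ p.crossing)
    (hm' : Matching (passes (D' ++ O)) m')
    (hc' : ∀ p ∈ passes (D' ++ O), κ (m' p.crossing) = κ p.crossing ∧
      (κ p.crossing % 2 ≠ 0 → m' p.crossing ≠ p.crossing))
    (hV : NullV (D' ++ O) m') :
    ∃ T : Tri, T.Ok ∧ T.ta = true ∧ T.tb = true ∧ T.tc = true ∧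
    T.a₁ = x₁ ∧ T.a₂ = x₂ ∧ T.b₁ = y₁ ∧ T.b₂ = y₂ ∧ T.c₁ = z₁ ∧ T.c₂ = z₂ ∧
    InvC (D ++ (T.code ++ O)) := by
  -- labels
  obtain ⟨β₀, hβ₀⟩ : ∃ β, Sum.inr β ∈ E :=
    enc_last (D := D) (L := A ++ two X.1 X.2 ++ B ++ two Y.1 Y.2 ++ C ++ [Sum.inl Z.1]) (p := Z.2)
      (by rw [hD]; simp [two])
  obtain ⟨lZ, hZm, hZ⟩ := nl_some hβ₀
  obtain ⟨lY, hYm, hY⟩ := nl_some (R := C ++ (two Z.2 Z.1 ++ E)) (β := β₀) (by simp [hβ₀])
  obtain ⟨lX, hXm, hX⟩ := nl_some (R := B ++ (two Y.2 Y.1 ++ (C ++ (two Z.2 Z.1 ++ E)))) (β := β₀)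
    (by simp [hβ₀])
  have mZ : lZ ∈ D.map Prod.snd := inr_mem_enc (by rw [hD]; simp [hZm])
  have mY : lY ∈ D.map Prod.snd := by
    refine mem_lab hD ?_
    simp only [two, List.mem_append, List.mem_cons, reduceCtorEq, List.not_mem_nil, or_false,
      false_or] at hYm
    exact Or.inr hYm
  have mX : lX ∈ D.map Prod.snd := by
    refine mem_lab hD ?_
    simp only [two, List.mem_append, List.mem_cons, reduceCtorEq, List.not_mem_nil, or_false,
      false_or] at hXm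
    exact hXm
  obtain ⟨k', hk1, hk2⟩ := lift_perm hPerm [(X, lX), (Y, lY), (Z, lZ)] rfl
  obtain ⟨li, lj, lk, rfl⟩ : ∃ li lj lk, k' = [(t, li), (m, lj), (b, lk)] := by
    rcases k' with _ | ⟨⟨a1, l1⟩, _ | ⟨⟨a2, l2⟩, _ | ⟨⟨a3, l3⟩, _ | ⟨a4, k⟩⟩⟩⟩
    · simp at hk2
    · simp at hk2
    · simp at hk2
    · simp only [List.map_cons, List.map_nil, List.cons.injEq, and_true] at hk2
      obtain ⟨rfl, rfl, rfl⟩ := hk2
      exact ⟨_, _, _, rfl⟩
    · simp at hk2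
  have hlab : ∀ a ∈ [(X, lX), (Y, lY), (Z, lZ)], a.2 ∈ D.map Prod.snd := by
    intro a ha
    simp only [List.mem_cons, List.not_mem_nil, or_false] at ha
    rcases ha with rfl | rfl | rfl
    · exact mX
    · exact mY
    · exact mZ
  have mli : li ∈ D.map Prod.snd := hlab (t, li) (hk1.mem_iff.2 (by simp))
  have mlj : lj ∈ D.map Prod.snd := hlab (m, lj) (hk1.mem_iff.2 (by simp))
  have mlk : lk ∈ D.map Prod.snd := hlab (b, lk) (hk1.mem_iff.2 (by simp))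
  -- passages
  obtain ⟨rest, hrest⟩ : ∃ rest, rest = pl A ++ pl B ++ pl C ++ pl E ++ passes O := ⟨_, rfl⟩
  have pD : passes D = pl A ++ [X.1, X.2] ++ pl B ++ [Y.1, Y.2] ++ pl C ++ [Z.1, Z.2] ++ pl E := by
    rw [← pl_enc, hD]; simp
  have pD' : passes D' = pl A ++ [X.2, X.1] ++ pl B ++ [Y.2, Y.1] ++ pl C ++ [Z.2, Z.1] ++ pl E := by
    rw [← pl_enc, hD']; simp
  have pO : passes (D ++ O) = passes D ++ passes O := by simp [passes]
  have pO' : passes (D' ++ O) = passes D' ++ passes O := by simp [passes]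
  have hperm : (passes (D ++ O)).Perm ([X.1, X.2, Y.1, Y.2, Z.1, Z.2] ++ rest) := by
    rw [pO, pD, hrest, List.perm_iff_count]
    intro q
    simp only [List.count_append, List.count_cons, List.count_nil]
    omega
  have hkm : ∀ q, q ∈ [X.1, X.2, Y.1, Y.2, Z.1, Z.2] ↔ (q.crossing = x ∧ q.isPos = sx) ∨
      (q.crossing = y ∧ q.isPos = sy) ∨ (q.crossing = z ∧ q.isPos = sz) := by
    intro q
    have e1 : ([X.1, X.2, Y.1, Y.2, Z.1, Z.2]).Perm [t.1, t.2, m.1, m.2, b.1, b.2] := by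
      have := List.Perm.flatMap_right (fun P : Pass × Pass => [P.1, P.2]) hPerm
      simpa using this
    rw [e1.mem_iff]
    exact six_mem ht hm hb q
  have hx : ∀ e, (⟨x, e, sx⟩ : Pass) ∈ passes (D ++ O) := fun e =>
    hperm.mem_iff.2 (List.mem_append.2 (Or.inl ((hkm _).2 (Or.inl ⟨rfl, rfl⟩))))
  have hy : ∀ e, (⟨y, e, sy⟩ : Pass) ∈ passes (D ++ O) := fun e =>
    hperm.mem_iff.2 (List.mem_append.2 (Or.inl ((hkm _).2 (Or.inr (Or.inl ⟨rfl, rfl⟩)))))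
  have hz : ∀ e, (⟨z, e, sz⟩ : Pass) ∈ passes (D ++ O) := fun e =>
    hperm.mem_iff.2 (List.mem_append.2 (Or.inl ((hkm _).2 (Or.inr (Or.inr ⟨rfl, rfl⟩)))))
  have hW2 : WF ([X.1, X.2, Y.1, Y.2, Z.1, Z.2] ++ rest) := WF.perm hperm hW
  have hr : ∀ q ∈ rest, q.crossing ≠ x ∧ q.crossing ≠ y ∧ q.crossing ≠ z := by
    intro q hq
    refine ⟨?_, ?_, ?_⟩
    · exact hW2.ne_crossing (p := ⟨x, true, sx⟩) ((hkm _).2 (Or.inl ⟨rfl, rfl⟩))
        ((hkm _).2 (Or.inl ⟨rfl, rfl⟩)) hq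
    · exact hW2.ne_crossing (p := ⟨y, true, sy⟩) ((hkm _).2 (Or.inr (Or.inl ⟨rfl, rfl⟩)))
        ((hkm _).2 (Or.inr (Or.inl ⟨rfl, rfl⟩))) hq
    · exact hW2.ne_crossing (p := ⟨z, true, sz⟩) ((hkm _).2 (Or.inr (Or.inr ⟨rfl, rfl⟩)))
        ((hkm _).2 (Or.inr (Or.inr ⟨rfl, rfl⟩))) hq
  have h6 : ∀ p ∈ passes (D ++ O), (p.crossing = x → p.isPos = sx) ∧
      (p.crossing = y → p.isPos = sy) ∧ (p.crossing = z → p.isPos = sz) := by
    intro p hp
    rcases List.mem_append.1 (hperm.mem_iff.1 hp) with hp | hp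
    · rcases (hkm p).1 hp with ⟨a1, a2⟩ | ⟨a1, a2⟩ | ⟨a1, a2⟩
      · exact ⟨fun _ => a2, fun h => absurd (a1.symm.trans h) hxy,
          fun h => absurd (a1.symm.trans h) hxz⟩
      · exact ⟨fun h => absurd (h.symm.trans a1) hxy, fun _ => a2,
          fun h => absurd (a1.symm.trans h) hyz⟩
      · exact ⟨fun h => absurd (h.symm.trans a1) hxz, fun h => absurd (h.symm.trans a1) hyz,
          fun _ => a2⟩
    · obtain ⟨a1, a2, a3⟩ := hr p hp
      exact ⟨fun h => absurd h a1, fun h => absurd h a2, fun h => absurd h a3⟩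
  have hP : ∀ p, p ∈ passes (D' ++ O) ↔ p ∈ passes (D ++ O) := by
    intro p
    rw [pO, pO', pD, pD']
    exact mem_swap p
  -- the triple point
  obtain ⟨T, hTd⟩ : ∃ T : Tri, T = ⟨x₁, x₂, y₁, y₂, z₁, z₂, true, true, true, sx, sy, sz, τ, μ, β,
    li, lj, lk⟩ := ⟨_, rfl⟩
  have hN : ∀ p, p ∈ passes (D ++ (T.code ++ O)) ↔ p ∈ passes (D ++ O) ∨
      (p.crossing = x₁ ∧ p.isPos = !sx) ∨ (p.crossing = x₂ ∧ p.isPos = sx) ∨
      (p.crossing = y₁ ∧ p.isPos = !sy) ∨ (p.crossing = y₂ ∧ p.isPos = sy) ∨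
      (p.crossing = z₁ ∧ p.isPos = !sz) ∨ (p.crossing = z₂ ∧ p.isPos = sz) := by
    intro p
    have e1 : passes (D ++ (T.code ++ O)) = passes D ++ (T.wi ++ (T.wj ++ (T.wk ++ passes O))) := by
      simp [passes, Tri.code]
    rw [e1, pO]
    simp only [List.mem_append, Tri.wi, Tri.wj, Tri.wk, mem_word4, two_pass]
    rw [hTd]
    simp only [Tri.pa₁, Tri.pa₂, Tri.pb₁, Tri.pb₂, Tri.pc₁, Tri.pc₂, Pass.mate, Bool.not_true]
    exact shuf _ _ _ _ _ _ _ _ _ _ _ _ _ _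
  obtain ⟨M1, M2, M3, M4, M5, M6, M7, M8⟩ := match_arc (N := passes (D ++ (T.code ++ O)))
    hxy hyz hxz hP h6 hx hy hz hnd hnew cx1 cy1 cz1 hκ hm' hc' hN
  have nx1 : x₁ ≠ x := fun h => hnew x₁ (by simp) _ (hx true) h.symm
  have ny1 : y₁ ≠ y := fun h => hnew y₁ (by simp) _ (hy true) h.symm
  have nz1 : z₁ ≠ z := fun h => hnew z₁ (by simp) _ (hz true) h.symm
  refine ⟨T, ?_, by rw [hTd], by rw [hTd], by rw [hTd], by rw [hTd], by rw [hTd], by rw [hTd],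
    by rw [hTd], by rw [hTd], by rw [hTd], _, M1, M2, ?_⟩
  · rw [hTd]
    simp only [Tri.Ok]
    refine ⟨Or.inl trivial, ?_, ?_⟩
    · revert h₁ h₂
      cases sx <;> cases sy <;> cases sz <;> cases τ <;> cases μ <;> cases β <;> simp
    · revert h₁ h₂
      cases sx <;> cases sy <;> cases sz <;> cases τ <;> cases μ <;> cases β <;> simp
  intro G _ o u hv bb
  obtain ⟨s, hs⟩ : ∃ s, s = sb x y z x₂ y₂ z₂ := ⟨_, rfl⟩
  rw [← hs] at M3 M5
  have sx0 : s x = x₂ := by rw [hs]; simp [sb]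
  have sy0 : s y = y₂ := by rw [hs]; simp [sb, hxy.symm]
  have sz0 : s z = z₂ := by rw [hs]; simp [sb, hxz.symm, hyz.symm]
  obtain ⟨o', ho'⟩ : ∃ o' : ℕ → G, o' = fun c => o (s c) := ⟨_, rfl⟩
  obtain ⟨u', hu'⟩ : ∃ u' : ℕ → G, u' = fun c => u (s c) := ⟨_, rfl⟩
  have hv' : Valid (passes (D' ++ O)) m' o' u' := by
    intro p hp
    have hp1 := (hP p).1 hp
    have h := hv _ (M4 p hp1)
    simp only [sP] at h
    rw [← hs, M3 p hp1] at h
    rw [ho', hu']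
    refine ⟨fun h' => h.1 (by rw [h']), fun h' => h.2 ?_⟩
    have := M5 p hp1 h'
    rwa [M3 p hp1] at this
  have h0 := hV G o' u' hv' bb
  have hag : ∀ q ∈ rest, val o' u' q = val o u q := by
    intro q hq
    obtain ⟨a1, a2, a3⟩ := hr q hq
    have : s q.crossing = q.crossing := by rw [hs]; simp [sb, a1, a2, a3]
    simp only [val, ho', hu', this]
  have hagl : ∀ F : List (Pass ⊕ ℕ), (∀ q ∈ pl F, q ∈ rest) →
      F.map (Sum.map (val o' u') id) = F.map (Sum.map (val o u) id) := by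
    intro F
    induction F with
    | nil => intro _; rfl
    | cons a F ih =>
      intro h
      rcases a with q | c
      · simp only [List.map_cons, Sum.map_inl]
        rw [hag q (h q (by simp)), ih fun r hr' => h r (by simp [hr'])]
      · simp only [List.map_cons, Sum.map_inr]
        rw [ih fun r hr' => h r (by simpa using hr')]
  have hA := hagl A (fun q hq => by rw [hrest]; simp [hq])
  have hB := hagl B (fun q hq => by rw [hrest]; simp [hq])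
  have hC := hagl C (fun q hq => by rw [hrest]; simp [hq])
  have hE := hagl E (fun q hq => by rw [hrest]; simp [hq])
  have hvO : vals o' u' O = vals o u O := by
    have e1 : ∀ o u : ℕ → G, vals o u O = ev o u (enc O) 1 := fun o u => (ev_enc o u O).symm
    rw [e1, e1]
    refine ev_congr _ (fun p hp => hag p ?_) 1
    rw [pl_enc] at hp
    rw [hrest]
    simp [hp]
  have hvD : vals o u D = eg ((enc D).map (Sum.map (val o u) id)) 1 := by
    rw [← ev_eq_eg]; exact (ev_enc o u D).symm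
  have hvD' : vals o' u' D' = eg ((enc D').map (Sum.map (val o' u') id)) 1 := by
    rw [← ev_eq_eg]; exact (ev_enc o' u' D').symm
  rw [vals_append, bv_append, hvO, hvD', hD'] at h0
  simp only [List.map_append, hA, hB, hC, hE, List.append_assoc] at h0
  have htwo : ∀ (o u : ℕ → G) (p q : Pass), (two p q).map (Sum.map (val o u) id) =
      [Sum.inl (val o u p), Sum.inl (val o u q)] := by
    intro o u p q; simp [two]
  simp only [htwo] at h0
  obtain ⟨wA, ewA⟩ : ∃ w, w = A.map (Sum.map (val o u) id) := ⟨_, rfl⟩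
  obtain ⟨wB, ewB⟩ : ∃ w, w = B.map (Sum.map (val o u) id) := ⟨_, rfl⟩
  obtain ⟨wC, ewC⟩ : ∃ w, w = C.map (Sum.map (val o u) id) := ⟨_, rfl⟩
  obtain ⟨wE, ewE⟩ : ∃ w, w = E.map (Sum.map (val o u) id) := ⟨_, rfl⟩
  rw [← ewA, ← ewB, ← ewC, ← ewE] at h0
  have nE : nl wE = some lZ := by rw [ewE, nl_map]; exact hZ
  have nC : nl (wC ++ ([Sum.inl (val o' u' Z.2), Sum.inl (val o' u' Z.1)] ++ wE)) = some lY := by
    rw [← hY, ← nl_map (val o' u') (C ++ (two Z.2 Z.1 ++ E)), List.map_append, List.map_append,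
      htwo, hC, hE, ewC, ewE]
  have nB : nl (wB ++ ([Sum.inl (val o' u' Y.2), Sum.inl (val o' u' Y.1)] ++
      (wC ++ ([Sum.inl (val o' u' Z.2), Sum.inl (val o' u' Z.1)] ++ wE)))) = some lX := by
    rw [← hX, ← nl_map (val o' u') (B ++ (two Y.2 Y.1 ++ (C ++ (two Z.2 Z.1 ++ E)))),
      List.map_append, List.map_append, List.map_append, List.map_append, htwo, htwo, hB, hC, hE,
      ewB, ewC, ewE]
  have g1 := pair wA _ _ _ (val o u X.1) (val o u X.2) nB _ bb h0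
  have r1 : wA ++ ([Sum.inl (val o u X.1), Sum.inl (val o u X.2)] ++ (wB ++
      ([Sum.inl (val o' u' Y.2), Sum.inl (val o' u' Y.1)] ++
      (wC ++ ([Sum.inl (val o' u' Z.2), Sum.inl (val o' u' Z.1)] ++ wE))))) =
      (wA ++ ([Sum.inl (val o u X.1), Sum.inl (val o u X.2)] ++ wB)) ++
      ([Sum.inl (val o' u' Y.2), Sum.inl (val o' u' Y.1)] ++
      (wC ++ ([Sum.inl (val o' u' Z.2), Sum.inl (val o' u' Z.1)] ++ wE))) := by simp
  rw [r1] at g1
  have g2 := pair _ _ _ _ (val o u Y.1) (val o u Y.2) nC _ bb g1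
  have r2 : (wA ++ ([Sum.inl (val o u X.1), Sum.inl (val o u X.2)] ++ wB)) ++
      ([Sum.inl (val o u Y.1), Sum.inl (val o u Y.2)] ++
      (wC ++ ([Sum.inl (val o' u' Z.2), Sum.inl (val o' u' Z.1)] ++ wE))) =
      (wA ++ ([Sum.inl (val o u X.1), Sum.inl (val o u X.2)] ++ (wB ++
      ([Sum.inl (val o u Y.1), Sum.inl (val o u Y.2)] ++ wC)))) ++
      ([Sum.inl (val o' u' Z.2), Sum.inl (val o' u' Z.1)] ++ wE) := by simp
  rw [r2] at g2
  have g3 := pair _ _ _ _ (val o u Z.1) (val o u Z.2) nE _ bb g2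
  have r3 : (wA ++ ([Sum.inl (val o u X.1), Sum.inl (val o u X.2)] ++ (wB ++
      ([Sum.inl (val o u Y.1), Sum.inl (val o u Y.2)] ++ wC)))) ++
      ([Sum.inl (val o u Z.1), Sum.inl (val o u Z.2)] ++ wE) =
      (enc D).map (Sum.map (val o u) id) := by
    rw [hD]
    simp only [List.map_append, htwo, ← ewA, ← ewB, ← ewC, ← ewE, List.append_assoc]
  rw [r3, ← hvD] at g3
  rw [vals_append, vals_append, bv_append, bv_append]
  -- the values of the circles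
  have vx : ∀ e σ σ', val o u ⟨x₁, e, σ⟩ = (val o u ⟨x, e, σ'⟩)⁻¹ := by
    intro e σ σ'
    have h := (hv ⟨x, true, sx⟩ ((hN _).2 (Or.inl (hx true)))).2 (by simp only; rw [M6]; exact nx1)
    simp only [M6] at h
    cases e
    · simp [val, h.2]
    · simp [val, h.1]
  have vy : ∀ e σ σ', val o u ⟨y₁, e, σ⟩ = (val o u ⟨y, e, σ'⟩)⁻¹ := by
    intro e σ σ'
    have h := (hv ⟨y, true, sy⟩ ((hN _).2 (Or.inl (hy true)))).2 (by simp only; rw [M7]; exact ny1)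
    simp only [M7] at h
    cases e
    · simp [val, h.2]
    · simp [val, h.1]
  have vz : ∀ e σ σ', val o u ⟨z₁, e, σ⟩ = (val o u ⟨z, e, σ'⟩)⁻¹ := by
    intro e σ σ'
    have h := (hv ⟨z, true, sz⟩ ((hN _).2 (Or.inl (hz true)))).2 (by simp only; rw [M8]; exact nz1)
    simp only [M8] at h
    cases e
    · simp [val, h.2]
    · simp [val, h.1]
  have wx : ∀ e σ σ', val o u ⟨x₂, e, σ⟩ = val o' u' ⟨x, e, σ'⟩ := by
    intro e σ σ'
    simp [val, ho', hu', sx0]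
  have wy : ∀ e σ σ', val o u ⟨y₂, e, σ⟩ = val o' u' ⟨y, e, σ'⟩ := by
    intro e σ σ'
    simp [val, ho', hu', sy0]
  have wz : ∀ e σ σ', val o u ⟨z₂, e, σ⟩ = val o' u' ⟨z, e, σ'⟩ := by
    intro e σ σ'
    simp [val, ho', hu', sz0]
  have hcode : vals o u T.code = [(t, li), (m, lj), (b, lk)].map
      (fun a : (Pass × Pass) × ℕ => (circ o u o' u' a.1, a.2)) := by
    have c1 : wval o u T.wi = circ o u o' u' t := by
      rw [ht, hTd]
      exact word4_val o u o' u' τ _ _ _ _ _ _ (vx _ _ _) (wx _ _ _) (vy _ _ _) (wy _ _ _)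
    have c2 : wval o u T.wj = circ o u o' u' m := by
      rw [hm, hTd]
      exact word4_val o u o' u' μ _ _ _ _ _ _ (vx _ _ _) (wx _ _ _) (vz _ _ _) (wz _ _ _)
    have c3 : wval o u T.wk = circ o u o' u' b := by
      rw [hb, hTd]
      exact word4_val o u o' u' β _ _ _ _ _ _ (vy _ _ _) (wy _ _ _) (vz _ _ _) (wz _ _ _)
    have e1 : vals o u T.code = [(wval o u T.wi, T.li), (wval o u T.wj, T.lj),
      (wval o u T.wk, T.lk)] := rfl
    rw [e1, c1, c2, c3, hTd]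
    rfl
  have hfin : (bv (vals o u T.code) bb).Perm (bv [(circ o u o' u' Z, lZ)] bb ++
      (bv [(circ o u o' u' Y, lY)] bb ++ bv [(circ o u o' u' X, lX)] bb)) := by
    rw [hcode, ← bv_append, ← bv_append]
    refine bv_perm ((hk1.map _).symm.trans ?_) bb
    simp only [List.map_cons, List.map_nil, List.cons_append, List.nil_append]
    exact (List.Perm.swap _ _ _).trans (((List.Perm.swap _ _ _).cons _).trans
      (List.Perm.swap _ _ _))
  refine CN.perm ?_ g3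
  refine List.Perm.append_left _ ?_
  rw [← List.append_assoc, ← List.append_assoc]
  refine List.Perm.append_right _ ?_
  rw [List.append_assoc]
  exact hfin.symm

end Pool.Agent.V11206
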