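import Pool.Agent.V11206.Forest
import Pool.Agent.Y874.TP2.Lift

/-! All crossings get the colour `0`. -/

set_option autoImplicit false

namespace Pool.Agent.V11206

open Pool.Agent.Y468.SR
open Pool.Agent.Y874.TP hiding InvM InvC CM CReid CStep SMovie Inv3
open Pool.Agent.Y874.TP2

/-- new names with colour `0` -/
def zf (c : ℕ) : ℕ := Nat.pair 0 c

def zg (c : ℕ) : ℕ := (Nat.unpair c).2

theorem zg_zf (c : ℕ) : zg (zf c) = c := by simp [zg, zf]

theorem zf_inj {c d : ℕ} (h : zf c = zf d) : c = d := by rw [← zg_zf c, h, zg_zf]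

theorem colour_zf (c : ℕ) : colour (zf c) = 0 := by rw [zf, colour, Nat.unpair_pair]

theorem run_ren {S : Type} {f : ℕ → ℕ} {back front : Pass → S} (w : List Pass) :
    ∀ s s' : S, Run back front s (w.map (ren f)) s' ↔
      Run (fun p => back (ren f p)) (fun p => front (ren f p)) s w s' := by
  induction w with
  | nil => intro s s'; exact Iff.rfl
  | cons p w ih =>
    intro s s'
    simp only [List.map_cons, Run, ih]

theorem planar_zf {D : Code} (h : Planar D) : Planar (renamed zf D) := by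
  intro back front hC hp
  obtain ⟨u, h1, h2⟩ := h (fun p => back (ren zf p)) (fun p => front (ren zf p)) (by
      intro C hC'
      obtain ⟨s, hs⟩ := hC (C.1.map (ren zf), C.2) (by
        rw [renamed_def]; exact List.mem_map_of_mem hC')
      exact ⟨s, (run_ren _ _ _).1 hs⟩) (by
      intro p hp'
      have := hp (ren zf p) (by rw [passes_renamed]; exact List.mem_map_of_mem hp')
      exact this)
  have hu : ∀ (p : Pass) (a b : Bool),
      (fun x : ℕ × Bool × Bool => u (zg x.1, x.2)) ((ren zf p).corner a b) = u (p.corner a b) := by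
    intro p a b
    unfold Pass.corner ren
    cases p.isOver <;> simp [zg_zf]
  refine ⟨fun x => u (zg x.1, x.2), ?_, ?_⟩
  · intro C hC'
    rw [renamed_def] at hC'
    obtain ⟨C, hC, rfl⟩ := List.mem_map.1 hC'
    obtain ⟨s, hs⟩ := h1 C hC
    refine ⟨s, (run_ren _ _ _).2 ?_⟩
    simp only [hu]
    exact hs
  · intro p' hp'
    rw [passes_renamed] at hp'
    obtain ⟨p, hp, rfl⟩ := List.mem_map.1 hp'
    simp only [hu]
    exact h2 p hp

theorem classical_zf {D : Code} (h : Classical D) : Classical (renamed zf D) := by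
  refine ⟨?_, planar_zf h.2⟩
  have := WF.ren (f := zf) h.1 (fun p _ q _ he => zf_inj he)
  rw [← passes_renamed] at this
  exact this

theorem invM_zf {E : Code} {m : ℕ → ℕ} (hM : Matching (passes E) m) (hN : NullV E m) :
    InvM (renamed zf E) (fun c => zf (m (zg c))) := by
  refine ⟨?_, ?_, ?_⟩
  · intro p' hp'
    rw [passes_renamed] at hp'
    obtain ⟨p, hp, rfl⟩ := List.mem_map.1 hp'
    obtain ⟨q, hq, h1, h2, h3⟩ := hM p hp
    refine ⟨ren zf q, by rw [passes_renamed]; exact List.mem_map_of_mem hq, ?_, ?_, ?_⟩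
    · simp only [ren, zg_zf]; rw [h1]
    · simp only [ren, zg_zf]; rw [h2]
    · intro h; exact h3 fun h' => h (by simp only [ren]; rw [h'])
  · intro p' hp'
    rw [passes_renamed] at hp'
    obtain ⟨p, hp, rfl⟩ := List.mem_map.1 hp'
    simp only [ren, colour_zf, true_and]
    intro h
    simp at h
  · intro G _ o u hv b
    have e : vals o u (renamed zf E) = vals (fun c => o (zf c)) (fun c => u (zf c)) E := by
      unfold vals renamed
      rw [List.map_map]
      refine List.map_congr_left fun C hC => ?_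
      simp only [Function.comp, Prod.mk.injEq, and_true]
      generalize C.1 = w
      induction w with
      | nil => rfl
      | cons r w ih =>
        rw [List.map_cons, wval_cons, wval_cons, ih]
        simp only [val]
    rw [e]
    refine hN G _ _ (fun p hp => ?_) b
    have h := hv (ren zf p) (by rw [passes_renamed]; exact List.mem_map_of_mem hp)
    simp only [ren, zg_zf] at h
    exact ⟨fun h' => h.1 (by rw [h']), fun h' => h.2 fun h'' => h' (zf_inj h'')⟩

theorem nam_zf {T : Tri} {c : ℕ} : Nam (T.rename zf) c ↔ ∃ c₀, Nam T c₀ ∧ c = zf c₀ := by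
  unfold Nam Tri.rename
  simp only
  constructor
  · rintro (h | h | h | h | h | h) <;> exact ⟨_, by simp, h⟩
  · rintro ⟨c₀, (h | h | h | h | h | h), rfl⟩ <;> simp [h]

theorem names_zf {Ts : List Tri} {c : ℕ} :
    Names (Ts.map (Tri.rename zf)) c ↔ ∃ c₀, Names Ts c₀ ∧ c = zf c₀ := by
  unfold Names
  simp only [List.mem_map]
  constructor
  · rintro ⟨T', ⟨T, hT, rfl⟩, h⟩
    obtain ⟨c₀, h1, h2⟩ := nam_zf.1 h
    exact ⟨c₀, ⟨T, hT, h1⟩, h2⟩
  · rintro ⟨c₀, ⟨T, hT, h1⟩, h2⟩
    exact ⟨_, ⟨T, hT, rfl⟩, nam_zf.2 ⟨c₀, h1, h2⟩⟩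

theorem fo_zf {Ts : List Tri} {m : ℕ → ℕ} (h : Fo m Ts) :
    Fo (fun c => zf (m (zg c))) (Ts.map (Tri.rename zf)) := by
  induction Ts with
  | nil => trivial
  | cons T Ts ih =>
    obtain ⟨h1, h2⟩ := h
    refine ⟨ih h1, ?_⟩
    intro c c' hc hc' k1 k2
    obtain ⟨c₀, g1, rfl⟩ := nam_zf.1 hc
    obtain ⟨c₁, g2, rfl⟩ := nam_zf.1 hc'
    simp only [zg_zf] at k1 k2
    obtain ⟨d, k1, e1⟩ := names_zf.1 k1
    obtain ⟨d', k2, e2⟩ := names_zf.1 k2
    rw [h2 c₀ c₁ g1 g2 (by rw [zf_inj e1]; exact k1) (by rw [zf_inj e2]; exact k2)]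

theorem movie_zero {P : List Tri → (ℕ → ℕ) → Prop} (hcl : Cls P) {D : Code} {Ts : List Tri}
    {m : ℕ → ℕ} (hD : Classical D) (hn : (D.map Prod.snd).Nodup)
    (hw : WF (passes (D ++ TC Ts))) (hok : ∀ T ∈ Ts, T.Ok) (hM : Matching (passes (D ++ TC Ts)) m)
    (hN : NullV (D ++ TC Ts) m) (hP : P (Ts.map (Tri.rename zf)) (fun c => zf (m (zg c)))) :
    Movie true false D [] := by
  have e : renamed zf (D ++ TC Ts) = renamed zf D ++ TC (Ts.map (Tri.rename zf)) := by
    rw [renamed_append, TC_rename]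
  have hw' : WF (passes (renamed zf D ++ TC (Ts.map (Tri.rename zf)))) := by
    rw [← e, passes_renamed]
    exact hw.ren (fun p _ q _ he => zf_inj he)
  have hI : InvM (renamed zf D ++ TC (Ts.map (Tri.rename zf))) (fun c => zf (m (zg c))) := by
    rw [← e]
    exact invM_zf hM hN
  have hn' : ((renamed zf D).map Prod.snd).Nodup := by
    have : (renamed zf D).map Prod.snd = D.map Prod.snd := by
      rw [renamed_def, List.map_map]; rfl
    rw [this]; exact hn
  refine Movie.head hD (classical_zf hD) (Step.rename zf D fun p _ q _ he => zf_inj he)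
    (movie_of_invP hcl _ _ _ _ rfl rfl (classical_zf hD) hn' ⟨hw', ?_, _, hI, hP⟩)
  intro T' hT'
  obtain ⟨T, hT, rfl⟩ := List.mem_map.1 hT'
  refine ⟨hok T hT, ?_⟩
  unfold Tri.Col Tri.rename
  simp only [colour_zf, and_self]

end Pool.Agent.V11206
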