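import Pool.Agent.V11206.ADefs

/-!
# Blocks of triple points

The triple points of the list `R` (of the colours of the double arcs ending there, see `AMovie`) are
divided into blocks; the `p`-th one belongs to the block with number `b p`.
-/

set_option autoImplicit false

namespace Pool.Agent.V11206

/-- the colours of the double arcs ending at a triple point: for the crossings of top and middle, top
and bottom, middle and bottom strands before it, and for the same crossings after it -/
abbrev Trp := (ℕ × ℕ × ℕ) × (ℕ × ℕ × ℕ)

/-- The three double curves through a triple point have the numbers 0, 1, 2; the `s`-th one consists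
there of the ends of two double arcs, with the following colours. -/
def pl (e : Trp) : ℕ → List ℕ
  | 0 => [e.1.1, e.2.1]
  | 1 => [e.1.2.1, e.2.2.1]
  | 2 => [e.1.2.2, e.2.2.2]
  | _ => []

/-- the colour `k` occurs at a triple point of a block with number greater than `n` -/
def Later (R : List Trp) (b : ℕ → ℕ) (n k : ℕ) : Prop :=
  ∃ q e, R[q]? = some e ∧ n < b q ∧ k ∈ ends e

/-- the colour `k` is even (branch points are allowed at even colours only) or occurs at a triple
point outside the block with number `n` -/
def Fr (R : List Trp) (b : ℕ → ℕ) (n k : ℕ) : Prop :=
  k % 2 = 0 ∨ ∃ q e, R[q]? = some e ∧ b q ≠ n ∧ k ∈ ends e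

/-- The block with number `n` is thin: no colour occurs twice at one of its triple points, there are
no closed chains of two or three different triple points of the block, in which neighbours are joined
by a colour and which change the double curve at each of their triple points, and it is impossible to
choose one end of each of the three double curves through a triple point of the block, with `Fr`
satisfied for all three. -/
structure Thin (R : List Trp) (b : ℕ → ℕ) (n : ℕ) : Prop where
  loop : ∀ p e, R[p]? = some e → b p = n → (ends e).Nodup
  pair : ∀ p q e e', R[p]? = some e → R[q]? = some e' → b p = n → b q = n → p ≠ q →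
    ∀ s t s' t' k l, k ∈ pl e t → k ∈ pl e' s' → l ∈ pl e' t' → l ∈ pl e s → s = t ∨ s' = t'
  tri : ∀ p q r e e' e'', R[p]? = some e → R[q]? = some e' → R[r]? = some e'' → b p = n →
    b q = n → b r = n → p ≠ q → q ≠ r → r ≠ p → ∀ s t s' t' s'' t'' k l j, k ∈ pl e t →
    k ∈ pl e' s' → l ∈ pl e' t' → l ∈ pl e'' s'' → j ∈ pl e'' t'' → j ∈ pl e s →
    s = t ∨ s' = t' ∨ s'' = t''
  free : ∀ p e, R[p]? = some e → b p = n → ∀ k₀ ∈ pl e 0, ∀ k₁ ∈ pl e 1, ∀ k₂ ∈ pl e 2,
    ¬(Fr R b n k₀ ∧ Fr R b n k₁ ∧ Fr R b n k₂)

/-- Each block is joined with the blocks with greater numbers by at most one double arc (that is, at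
most one end of a double arc at the triple points of this block has a colour which occurs in blocks
with greater numbers), and each block consists of one triple point or is thin. -/
structure Blocks (R : List Trp) (b : ℕ → ℕ) : Prop where
  tree : ∀ p q e e', R[p]? = some e → R[q]? = some e' → b p = b q → ∀ i j k l : ℕ,
    (ends e)[i]? = some k → (ends e')[j]? = some l → Later R b (b p) k → Later R b (b q) l →
    p = q ∧ i = j
  thin : ∀ n, (∀ p q, p < R.length → q < R.length → b p = n → b q = n → p = q) ∨ Thin R b n

end Pool.Agent.V11206
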