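import Pool.Agent.V11206.Few
import Pool.Agent.V11206.AFin
import Pool.Agent.V11206.BDefs

/-! Blocks of triple points. -/

set_option autoImplicit false

namespace Pool.Agent.V11206

open Pool.Agent.Y468.SR
open Pool.Agent.Y874.TP hiding InvM InvC CM CReid CStep SMovie Inv3
open Pool.Agent.Y874.TP2
open Pool.Agent.Y761.TP2 (uniq side part_mem)

set_option linter.unusedSimpArgs false
set_option linter.unusedVariables false

theorem nam_ix {T : Tri} {c : ℕ} : Nam T c ↔ ∃ i, c = nmT T i := by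
  constructor
  · rintro (h | h | h | h | h | h)
    · exact ⟨.a1, h⟩
    · exact ⟨.a2, h⟩
    · exact ⟨.b1, h⟩
    · exact ⟨.b2, h⟩
    · exact ⟨.c1, h⟩
    · exact ⟨.c2, h⟩
  · rintro ⟨i, h⟩
    unfold Nam
    cases i <;> simp [h, nmT]

/-- thin blocks -/
structure ThinM (Ts : List Tri) (m β : ℕ → ℕ) (n : ℕ) : Prop where
  loop : ∀ T ∈ Ts, ∀ i j, β (nmT T i) = n → m (nmT T i) = nmT T j → nmT T i = nmT T j
  pair : ∀ T₁ ∈ Ts, ∀ T₂ ∈ Ts, ∀ i₁ j₁ i₂ j₂, β (nmT T₁ i₁) = n → β (nmT T₂ i₂) = n →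
    m (nmT T₁ i₁) = nmT T₂ j₂ → m (nmT T₂ i₂) = nmT T₁ j₁ → nmT T₁ i₁ ≠ nmT T₂ j₂ →
    nmT T₂ i₂ ≠ nmT T₁ j₁ → ty i₁ = ty j₁ ∨ ty i₂ = ty j₂
  tri : ∀ T₁ ∈ Ts, ∀ T₂ ∈ Ts, ∀ T₃ ∈ Ts, ∀ i₁ j₁ i₂ j₂ i₃ j₃, β (nmT T₁ i₁) = n →
    β (nmT T₂ i₂) = n → β (nmT T₃ i₃) = n → m (nmT T₁ i₁) = nmT T₂ j₂ →
    m (nmT T₂ i₂) = nmT T₃ j₃ → m (nmT T₃ i₃) = nmT T₁ j₁ → nmT T₁ i₁ ≠ nmT T₂ j₂ →
    nmT T₂ i₂ ≠ nmT T₃ j₃ → nmT T₃ i₃ ≠ nmT T₁ j₁ → ty i₁ = ty j₁ ∨ ty i₂ = ty j₂ ∨ ty i₃ = ty j₃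
  free : ∀ T ∈ Ts, ∀ i j k, β (nmT T i) = n → ty i ≠ ty j → ty j ≠ ty k → ty i ≠ ty k →
    (∀ l, l = i ∨ l = j ∨ l = k → m (nmT T l) = nmT T l ∨
      (Names Ts (m (nmT T l)) ∧ β (m (nmT T l)) ≠ n)) → False

/-- blocks -/
structure BlkM (Ts : List Tri) (m β : ℕ → ℕ) : Prop where
  blk : ∀ T ∈ Ts, ∀ i j, β (nmT T i) = β (nmT T j)
  tree : ∀ c c', Names Ts c → Names Ts c' → Names Ts (m c) → Names Ts (m c') → β c = β c' →
    β c < β (m c) → β c' < β (m c') → c = c'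
  thin : ∀ n, (∀ T ∈ Ts, ∀ T' ∈ Ts, ∀ i j, β (nmT T i) = n → β (nmT T' j) = n → nmT T = nmT T') ∨
    ThinM Ts m β n

theorem names_ix {Ts : List Tri} {T : Tri} (h : T ∈ Ts) (i : Ix) : Names Ts (nmT T i) :=
  ⟨T, h, nam_ix.2 ⟨i, rfl⟩⟩

/-- restriction to fewer triple points -/
theorem BlkM.sub {Ts Ts' : List Tri} {m m' β : ℕ → ℕ} (h : BlkM Ts m β)
    (hs : ∀ T' ∈ Ts', ∃ T ∈ Ts, nmT T' = nmT T)
    (hm : ∀ c c', Names Ts' c → Names Ts' c' → (m' c = c' ↔ m c = c')) : BlkM Ts' m' β := by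
  have up : ∀ {c}, Names Ts' c → Names Ts c := by
    rintro c ⟨T', hT', hc⟩
    obtain ⟨T, hT, e⟩ := hs T' hT'
    obtain ⟨i, rfl⟩ := nam_ix.1 hc
    rw [e]; exact names_ix hT i
  have hm' : ∀ c, Names Ts' c → Names Ts' (m' c) → m c = m' c := fun c h1 h2 =>
    (hm c _ h1 h2).1 rfl
  refine ⟨?_, ?_, ?_⟩
  · intro T' hT' i j
    obtain ⟨T, hT, e⟩ := hs T' hT'
    rw [e]; exact h.blk T hT i j
  · intro c c' h1 h2 h3 h4 h5 h6 h7
    have e1 := hm' c h1 h3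
    have e2 := hm' c' h2 h4
    refine h.tree c c' (up h1) (up h2) ?_ ?_ h5 ?_ ?_
    · rw [e1]; exact up h3
    · rw [e2]; exact up h4
    · rw [e1]; exact h6
    · rw [e2]; exact h7
  · intro n
    rcases h.thin n with h1 | h1
    · left
      intro T' hT' T'' hT'' i j k1 k2
      obtain ⟨T₁, hT₁, e₁⟩ := hs T' hT'
      obtain ⟨T₂, hT₂, e₂⟩ := hs T'' hT''
      rw [e₁, e₂]
      exact h1 T₁ hT₁ T₂ hT₂ i j (by rw [← e₁]; exact k1) (by rw [← e₂]; exact k2)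
    · right
      refine ⟨?_, ?_, ?_, ?_⟩
      · intro T' hT' i j k1 k2
        have k3 := (hm _ _ (names_ix hT' i) (names_ix hT' j)).1 k2
        obtain ⟨T, hT, e⟩ := hs T' hT'
        rw [e] at k1 k3 ⊢
        exact h1.loop T hT i j k1 k3
      · intro T₁' hT₁ T₂' hT₂ i₁ j₁ i₂ j₂ k1 k2 k3 k4 k5 k6
        have g1 := (hm _ _ (names_ix hT₁ i₁) (names_ix hT₂ j₂)).1 k3
        have g2 := (hm _ _ (names_ix hT₂ i₂) (names_ix hT₁ j₁)).1 k4
        obtain ⟨T₁, h₁, e₁⟩ := hs T₁' hT₁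
        obtain ⟨T₂, h₂, e₂⟩ := hs T₂' hT₂
        simp only [e₁, e₂] at k1 k2 g1 g2 k5 k6
        exact h1.pair T₁ h₁ T₂ h₂ i₁ j₁ i₂ j₂ k1 k2 g1 g2 k5 k6
      · intro T₁' hT₁ T₂' hT₂ T₃' hT₃ i₁ j₁ i₂ j₂ i₃ j₃ k1 k2 k2' k3 k4 k4' k5 k6 k7
        have g1 := (hm _ _ (names_ix hT₁ i₁) (names_ix hT₂ j₂)).1 k3
        have g2 := (hm _ _ (names_ix hT₂ i₂) (names_ix hT₃ j₃)).1 k4
        have g3 := (hm _ _ (names_ix hT₃ i₃) (names_ix hT₁ j₁)).1 k4'
        obtain ⟨T₁, h₁, e₁⟩ := hs T₁' hT₁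
        obtain ⟨T₂, h₂, e₂⟩ := hs T₂' hT₂
        obtain ⟨T₃, h₃, e₃⟩ := hs T₃' hT₃
        simp only [e₁, e₂, e₃] at k1 k2 k2' g1 g2 g3 k5 k6 k7
        exact h1.tri T₁ h₁ T₂ h₂ T₃ h₃ i₁ j₁ i₂ j₂ i₃ j₃ k1 k2 k2' g1 g2 g3 k5 k6 k7
      · intro T' hT' i j k k1 k2 k3 k4 k5
        obtain ⟨T, hT, e⟩ := hs T' hT'
        refine h1.free T hT i j k (by rw [← e]; exact k1) k2 k3 k4 fun l hl => ?_
        have hl' := k5 l hl
        rw [← e]
        rcases hl' with k6 | ⟨k6, k7⟩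
        · exact Or.inl ((hm _ _ (names_ix hT' l) (names_ix hT' l)).1 k6)
        · have e1 := hm' _ (names_ix hT' l) k6
          exact Or.inr ⟨by rw [e1]; exact up k6, by rw [e1]; exact k7⟩

/-- the class -/
def PB (Ts : List Tri) (m : ℕ → ℕ) : Prop :=
  (∀ T ∈ Ts, ∀ c, Nam T c → colour c = 0) ∧ ∃ β, BlkM Ts m β

theorem pb_cls0 : Cls0 PB where
  same := by
    rintro Ts' Ts m h ⟨h1, β, h2⟩
    refine ⟨fun T' hT' c hc => ?_, β, h2.sub ?_ fun _ _ _ _ => Iff.rfl⟩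
    · obtain ⟨T, hT, k⟩ := (names_same h c).1 ⟨T', hT', hc⟩
      exact h1 T hT c k
    · clear h1 h2
      induction h with
      | nil => intro T' hT'; exact absurd hT' (by simp)
      | @cons T' T Ts' Ts h _ ih =>
        intro T'' hT''
        rcases List.mem_cons.1 hT'' with rfl | hT''
        · refine ⟨T, by simp, ?_⟩
          obtain ⟨i, j, k, rfl⟩ := h
          rfl
        · obtain ⟨T₁, k1, k2⟩ := ih T'' hT''
          exact ⟨T₁, List.mem_cons_of_mem _ k1, k2⟩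
  del := by
    rintro l₁ T l₂ m m' ⟨h1, β, h2⟩ h3
    have hs : ∀ T' ∈ l₁ ++ l₂, T' ∈ l₁ ++ T :: l₂ := by
      intro T' hT'
      simp only [List.mem_append, List.mem_cons] at hT' ⊢; tauto
    refine ⟨fun T' hT' => h1 T' (hs T' hT'), β, h2.sub (fun T' hT' => ⟨T', hs T' hT', rfl⟩) ?_⟩
    intro c c' hc hc'
    obtain ⟨p, hp, rfl⟩ := names_pass hc
    obtain ⟨q, hq, rfl⟩ := names_pass hc'
    exact h3 p hp q hq

/-! ### corners -/

/-- three consecutive corners at one triple point -/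
def tyB (ta tb tc ei ej ek : Bool) (i : Ix) (l : Bool) : Bool :=
  let x := nxt ta tb tc ei ej ek i l
  let z := nxt ta tb tc ei ej ek x.1 (!x.2)
  !ixb (ty i) (ty x.1) && !ixb (ty x.1) (ty z.1) && !ixb (ty i) (ty z.1)

theorem tyB_all : (allB fun ta => allB fun tb => allB fun tc => allB fun ei => allB fun ej =>
    allB fun ek => allI fun i => allB fun l => tyB ta tb tc ei ej ek i l) = true := by
  decide +kernel

theorem ty_corner (T : Tri) (i : Ix) (l : Bool) : ty i ≠ ty (nT T i l).1 ∧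
    ty (nT T i l).1 ≠ ty (nT T (nT T i l).1 (!(nT T i l).2)).1 ∧
    ty i ≠ ty (nT T (nT T i l).1 (!(nT T i l).2)).1 := by
  have h := allB_iff (allI_iff (allB_iff (allB_iff (allB_iff (allB_iff (allB_iff (allB_iff tyB_all
    T.ta) T.tb) T.tc) T.ei) T.ej) T.ek) i) l
  unfold tyB at h
  simp only [Bool.and_eq_true, Bool.not_eq_true'] at h
  obtain ⟨⟨h1, h2⟩, h3⟩ := h
  have key : ∀ {x y : Ix}, ixb x y = false → x ≠ y := fun h e => by
    rw [ixb_iff.2 e] at h; simp at h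
  exact ⟨key h1, key h2, key h3⟩

theorem nx_ty {T : Tri} {x y : Pass} (h : Nx T x y) : ∃ i j l n, x = ps T i l ∧ y = ps T j n ∧
    ty i ≠ ty j := by
  obtain ⟨i, l, e1, e2⟩ := nx_nxt h
  exact ⟨i, _, l, _, e1, e2, (ty_corner T i l).1⟩

/-- a corner followed by a corner at a branch point -/
theorem nx_ty3 {T : Tri} (hn : [T.a₁, T.a₂, T.b₁, T.b₂, T.c₁, T.c₂].Nodup) {x y z : Pass}
    (h : Nx T x y) (h' : Nx T y.mate z) : ∃ i j k l n r, x = ps T i l ∧ y = ps T j n ∧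
    z = ps T k r ∧ ty i ≠ ty j ∧ ty j ≠ ty k ∧ ty i ≠ ty k := by
  obtain ⟨i, l, e1, e2⟩ := nx_nxt h
  obtain ⟨j, n, e3, e4⟩ := nx_nxt h'
  have e5 : y.mate = ps T (nT T i l).1 (!(nT T i l).2) := by rw [e2]; rfl
  obtain ⟨rfl, rfl⟩ := ps_inj hn (e3.symm.trans e5)
  obtain ⟨h1, h2, h3⟩ := ty_corner T i l
  exact ⟨i, _, _, l, _, _, e1, e2, e4, h1, h2, h3⟩

/-! ### the elimination of a triple point forming a block -/

theorem blk_tr {l₁ l₂ : List Tri} {T : Tri} {m m' β : ℕ → ℕ} (h : BlkM (l₁ ++ T :: l₂) m β)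
    (hne : ∀ c, Names (l₁ ++ l₂) c → ∀ i, β c ≠ β (nmT T i))
    (hinv : ∀ c, Names (l₁ ++ T :: l₂) c → m (m c) = c)
    (htr : ∀ c, Names (l₁ ++ l₂) c → m' c = m c ∨
      (Nam T (m c) ∧ (m' c = c ∨ ∃ y, Nam T y ∧ m' c = m y))) : BlkM (l₁ ++ l₂) m' β := by
  have hs : ∀ T' ∈ l₁ ++ l₂, T' ∈ l₁ ++ T :: l₂ := by
    intro T' hT'
    simp only [List.mem_append, List.mem_cons] at hT' ⊢; tauto
  have hT : T ∈ l₁ ++ T :: l₂ := by simp
  have up : ∀ {c}, Names (l₁ ++ l₂) c → Names (l₁ ++ T :: l₂) c := by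
    rintro c ⟨T', hT', hc⟩
    exact ⟨T', hs T' hT', hc⟩
  have upT : ∀ {c}, Nam T c → Names (l₁ ++ T :: l₂) c := fun hc => ⟨T, hT, hc⟩
  have ht : ∀ {c}, Nam T c → β c = β (nmT T .a1) := by
    intro c hc
    obtain ⟨i, rfl⟩ := nam_ix.1 hc
    exact h.blk T hT i .a1
  have K2 : ∀ c, Names (l₁ ++ l₂) c → Names (l₁ ++ l₂) (m' c) → β c < β (m' c) →
      Names (l₁ ++ T :: l₂) (m c) ∧ β c < β (m c) := by
    intro c h1 h2 h3
    rcases htr c h1 with h4 | ⟨h4, h5⟩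
    · rw [h4] at h2 h3
      exact ⟨up h2, h3⟩
    · refine ⟨upT h4, ?_⟩
      rcases h5 with h5 | ⟨y, hy, h5⟩
      · rw [h5] at h3; omega
      · by_contra h6
        have h7 : β (nmT T .a1) < β c := by
          have h8 := hne c h1 .a1
          rw [ht h4] at h6
          omega
        have h8 := h.tree (m c) y (upT h4) (upT hy) (by rw [hinv c (up h1)]; exact up h1)
          (by rw [← h5]; exact up h2) (by rw [ht h4, ht hy]) (by rw [hinv c (up h1), ht h4]; exact h7)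
          (by rw [ht hy, ← h5]; omega)
        rw [h5, ← h8, hinv c (up h1)] at h3
        omega
  have K3 : ∀ c c', Names (l₁ ++ l₂) c → Names (l₁ ++ l₂) c' → β c = β c' → m' c = c' → c ≠ c' →
      m c = c' := by
    intro c c' h1 h2 h3 h4 h5
    rcases htr c h1 with h6 | ⟨h6, h7⟩
    · rw [← h6]; exact h4
    · exfalso
      rcases h7 with h7 | ⟨y, hy, h7⟩
      · exact h5 (h7.symm.trans h4)
      · have e1 : y = m c' := by rw [← h4, h7, hinv y (upT hy)]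
        subst e1
        rcases lt_or_gt_of_ne (hne c h1 .a1) with h8 | h8
        · exact h5 (h.tree c c' (up h1) (up h2) (upT h6) (upT hy) h3 (by rw [ht h6]; exact h8)
            (by rw [ht hy, ← h3]; exact h8))
        · have h9 := h.tree (m c) (m c') (upT h6) (upT hy) (by rw [hinv c (up h1)]; exact up h1)
            (by rw [hinv c' (up h2)]; exact up h2) (by rw [ht h6, ht hy])
            (by rw [hinv c (up h1), ht h6]; exact h8)
            (by rw [hinv c' (up h2), ht hy, ← h3]; exact h8)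
          exact h5 (by rw [← hinv c (up h1), h9, hinv c' (up h2)])
  refine ⟨fun T' hT' => h.blk T' (hs T' hT'), ?_, ?_⟩
  · intro c c' h1 h2 h3 h4 h5 h6 h7
    obtain ⟨g1, g2⟩ := K2 c h1 h3 h6
    obtain ⟨g3, g4⟩ := K2 c' h2 h4 h7
    exact h.tree c c' (up h1) (up h2) g1 g3 h5 g2 g4
  · intro n
    rcases h.thin n with h1 | h1
    · exact Or.inl fun T₁ g1 T₂ g2 => h1 T₁ (hs T₁ g1) T₂ (hs T₂ g2)
    · right
      have nb : ∀ {T'}, T' ∈ l₁ ++ l₂ → ∀ {i j}, β (nmT T' i) = n → β (nmT T' j) = n := by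
        intro T' hT' i j k
        rw [h.blk T' (hs T' hT') j i]; exact k
      refine ⟨?_, ?_, ?_, ?_⟩
      · intro T' hT' i j k1 k2
        by_contra k3
        refine k3 (h1.loop T' (hs T' hT') i j k1 ?_)
        exact K3 _ _ (names_ix hT' i) (names_ix hT' j) (k1.trans (nb hT' k1).symm) k2 k3
      · intro T₁ hT₁ T₂ hT₂ i₁ j₁ i₂ j₂ k1 k2 k3 k4 k5 k6
        exact h1.pair T₁ (hs _ hT₁) T₂ (hs _ hT₂) i₁ j₁ i₂ j₂ k1 k2
          (K3 _ _ (names_ix hT₁ _) (names_ix hT₂ _) (k1.trans (nb hT₂ k2).symm) k3 k5)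
          (K3 _ _ (names_ix hT₂ _) (names_ix hT₁ _) (k2.trans (nb hT₁ k1).symm) k4 k6) k5 k6
      · intro T₁ hT₁ T₂ hT₂ T₃ hT₃ i₁ j₁ i₂ j₂ i₃ j₃ k1 k2 k2' k3 k4 k4' k5 k6 k7
        exact h1.tri T₁ (hs _ hT₁) T₂ (hs _ hT₂) T₃ (hs _ hT₃) i₁ j₁ i₂ j₂ i₃ j₃ k1 k2 k2'
          (K3 _ _ (names_ix hT₁ _) (names_ix hT₂ _) (k1.trans (nb hT₂ k2).symm) k3 k5)
          (K3 _ _ (names_ix hT₂ _) (names_ix hT₃ _) (k2.trans (nb hT₃ k2').symm) k4 k6)
          (K3 _ _ (names_ix hT₃ _) (names_ix hT₁ _) (k2'.trans (nb hT₁ k1).symm) k4' k7) k5 k6 k7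
      · intro T' hT' i j k k1 k2 k3 k4 k5
        refine h1.free T' (hs T' hT') i j k k1 k2 k3 k4 fun l hl => ?_
        rcases htr _ (names_ix hT' l) with h6 | ⟨h6, -⟩
        · rcases k5 l hl with h7 | ⟨h7, h8⟩
          · exact Or.inl (h6.symm.trans h7)
          · exact Or.inr ⟨by rw [← h6]; exact up h7, by rw [← h6]; exact h8⟩
        · refine Or.inr ⟨upT h6, ?_⟩
          rw [ht h6]
          intro h7
          exact hne _ (names_ix hT' i) .a1 (k1.trans h7.symm)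

/-! ### small faces -/

section small
variable {D : Code} {Ts : List Tri} {m β : ℕ → ℕ}

theorem six_of (hw : WF (passes (D ++ TC Ts))) {T : Tri} (hT : T ∈ Ts) :
    [T.a₁, T.a₂, T.b₁, T.b₂, T.c₁, T.c₂].Nodup := by
  obtain ⟨l₁, l₂, rfl⟩ := List.append_of_mem hT
  have hperm := (tc_mid l₁ T l₂).append_left D
  exact six_ne (WF.perm (code_perm0 D (TC (l₁ ++ l₂)) T) (WF.perm (passes_perm hperm) hw))

theorem nm_eq (hw : WF (passes (D ++ TC Ts))) {T₁ T₂ : Tri} (h₁ : T₁ ∈ Ts) (h₂ : T₂ ∈ Ts) {i j : Ix}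
    (e : nmT T₁ i = nmT T₂ j) : T₁ = T₂ := by
  have m1 : ps T₁ i true ∈ passes (D ++ TC Ts) := by
    rw [passes_append']; exact List.mem_append_right _ (mem_TC.2 ⟨T₁, h₁, ps_mem _ _ _⟩)
  have m2 : ps T₂ j true ∈ passes (D ++ TC Ts) := by
    rw [passes_append']; exact List.mem_append_right _ (mem_TC.2 ⟨T₂, h₂, ps_mem _ _ _⟩)
  have h := uniq hw m1 m2 e rfl
  exact same_tri hw h₁ h₂ (x := ps T₁ i true) (ps_mem _ _ _) (by rw [h]; exact ps_mem _ _ _)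

/-- a closed path of three corners -/
def F3 (Ts : List Tri) (m : ℕ → ℕ) (T₁ T₂ T₃ : Tri) (p y z : Pass) : Prop :=
  (T₁ ∈ Ts ∧ T₂ ∈ Ts ∧ T₃ ∈ Ts) ∧ Nx T₁ p y ∧ Nx T₂ (part m y) z ∧ Nx T₃ (part m z) (part m p)

theorem F3.rot {T₁ T₂ T₃ : Tri} {p y z : Pass} (h : F3 Ts m T₁ T₂ T₃ p y z)
    (hp : part m (part m p) = p) (hy : part m (part m y) = y) :
    F3 Ts m T₂ T₃ T₁ (part m y) z (part m p) := by
  obtain ⟨⟨h1, h2, h3⟩, h4, h5, h6⟩ := h
  exact ⟨⟨h2, h3, h1⟩, h5, h6, by rw [hp, hy]; exact h4⟩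

/-- the data -/
structure Dt (D : Code) (Ts : List Tri) (m β : ℕ → ℕ) : Prop where
  wf : WF (passes (D ++ TC Ts))
  mt : Matching (passes (D ++ TC Ts)) m
  bk : BlkM Ts m β

theorem Dt.names {T : Tri} (hT : T ∈ Ts) {x : Pass} (h : x ∈ passes T.code) :
    Names Ts x.crossing := ⟨T, hT, nam_of h⟩

theorem Dt.inv (h : Dt D Ts m β) {c : ℕ} (hc : Names Ts c) : m (m c) = c := by
  obtain ⟨q, hq, rfl⟩ := names_pass hc
  exact matching_invol h.mt (by rw [passes_append']; exact List.mem_append_right _ hq)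

theorem Dt.pp (h : Dt D Ts m β) {T : Tri} (hT : T ∈ Ts) {x : Pass} (hx : x ∈ passes T.code) :
    part m (part m x) = x :=
  part_part h.mt (by rw [passes_append']; exact List.mem_append_right _ (mem_TC.2 ⟨T, hT, hx⟩))

theorem Dt.ne (h : Dt D Ts m β) {T : Tri} (hT : T ∈ Ts) {x y : Pass} (hn : Nx T x y) :
    x.crossing ≠ y.crossing := dj_nx (dj_of h.wf) T hT x y hn

theorem Dt.blk (h : Dt D Ts m β) {T : Tri} (hT : T ∈ Ts) {x y : Pass} (hx : x ∈ passes T.code)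
    (hy : y ∈ passes T.code) : β x.crossing = β y.crossing := by
  obtain ⟨i, e1⟩ := nam_ix.1 (nam_of hx)
  obtain ⟨j, e2⟩ := nam_ix.1 (nam_of hy)
  rw [e1, e2]
  exact h.bk.blk T hT i j

/-- the two corners of a bigon are in one block -/
theorem Dt.two (h : Dt D Ts m β) {T₁ T₂ : Tri} (h₁ : T₁ ∈ Ts) (h₂ : T₂ ∈ Ts) {p y : Pass}
    (n1 : Nx T₁ p y) (n2 : Nx T₂ (part m y) (part m p)) : β y.crossing = β (m y.crossing) := by
  obtain ⟨a1, a2⟩ := nx_mem n1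
  obtain ⟨b1, b2⟩ := nx_mem n2
  have Np := Dt.names h₁ a1
  have Ny := Dt.names h₁ a2
  have Mp := Dt.names h₂ b2
  have My := Dt.names h₂ b1
  have e1 := h.blk h₁ a1 a2
  have e2 := h.blk h₂ b1 b2
  have ip := h.inv Np
  have iy := h.inv Ny
  have x1 := h.ne h₁ n1
  rw [part_cross] at Mp My
  rw [part_cross, part_cross] at e2
  rcases lt_trichotomy (β y.crossing) (β (m y.crossing)) with h3 | h3 | h3
  · exact absurd (h.bk.tree _ _ Np Ny Mp My e1 (by omega) h3) x1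
  · exact h3
  · have h4 := h.bk.tree _ _ Mp My (by rw [ip]; exact Np) (by rw [iy]; exact Ny) e2.symm
      (by rw [ip]; omega) (by rw [iy]; omega)
    exact absurd (by rw [← ip, h4, iy]) x1

/-- the three corners of a triangle are in one block -/
theorem Dt.three (h : Dt D Ts m β) {T₁ T₂ T₃ : Tri} {p y z : Pass}
    (hF : F3 Ts m T₁ T₂ T₃ p y z) : β y.crossing = β (m y.crossing) ∧
      β z.crossing = β (m z.crossing) := by
  obtain ⟨⟨h₁, h₂, h₃⟩, n1, n2, n3⟩ := hF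
  obtain ⟨a1, a2⟩ := nx_mem n1
  obtain ⟨b1, b2⟩ := nx_mem n2
  obtain ⟨c1, c2⟩ := nx_mem n3
  have Np := Dt.names h₁ a1
  have Ny := Dt.names h₁ a2
  have My := Dt.names h₂ b1
  have Nz := Dt.names h₂ b2
  have Mz := Dt.names h₃ c1
  have Mp := Dt.names h₃ c2
  have e1 := h.blk h₁ a1 a2
  have e2 := h.blk h₂ b1 b2
  have e3 := h.blk h₃ c1 c2
  have ip := h.inv Np
  have iy := h.inv Ny
  have iz := h.inv Nz
  have x1 := h.ne h₁ n1
  have x2 := h.ne h₂ n2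
  have x3 := h.ne h₃ n3
  rw [part_cross] at Mp My Mz e2 x2
  rw [part_cross, part_cross] at e3 x3
  have U : ∀ {c c'}, Names Ts c → Names Ts c' → Names Ts (m c) → Names Ts (m c') → c ≠ c' →
      β c = β c' → β c < β (m c) → β c' < β (m c') → False :=
    fun k1 k2 k3 k4 k5 k6 k7 k8 => k5 (h.bk.tree _ _ k1 k2 k3 k4 k6 k7 k8)
  by_contra hcon
  rcases lt_trichotomy (β p.crossing) (β z.crossing) with q1 | q1 | q1
  · rcases lt_trichotomy (β p.crossing) (β (m p.crossing)) with q2 | q2 | q2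
    · exact U Np Ny Mp My x1 e1 q2 (by omega)
    · exact U Ny Mz My (by rw [iz]; exact Nz) (fun k => x2 (by rw [k, iz])) (by omega) (by omega)
        (by rw [iz]; omega)
    · exact U Mz Mp (by rw [iz]; exact Nz) (by rw [ip]; exact Np) x3 e3 (by rw [iz]; omega)
        (by rw [ip]; omega)
  · rcases lt_trichotomy (β p.crossing) (β (m p.crossing)) with q2 | q2 | q2
    · exact U Nz Np Mz Mp (fun k => x3 (by rw [k])) (by omega) (by omega) (by omega)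
    · exact hcon ⟨by omega, by omega⟩
    · exact U Mz Mp (by rw [iz]; exact Nz) (by rw [ip]; exact Np) x3 e3 (by rw [iz]; omega)
        (by rw [ip]; omega)
  · rcases lt_trichotomy (β z.crossing) (β (m p.crossing)) with q2 | q2 | q2
    · exact U My Nz (by rw [iy]; exact Ny) Mz x2 e2 (by rw [iy]; omega) (by omega)
    · exact U My Mp (by rw [iy]; exact Ny) (by rw [ip]; exact Np)
        (fun k => x1 (by rw [← ip, ← iy, k])) (by omega) (by rw [iy]; omega) (by rw [ip]; omega)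
    · exact U Mz Mp (by rw [iz]; exact Nz) (by rw [ip]; exact Np) x3 e3 (by rw [iz]; omega)
        (by rw [ip]; omega)

/-- in a thin block there are no bigons -/
theorem Dt.bigon (h : Dt D Ts m β) {T₁ T₂ : Tri} (h₁ : T₁ ∈ Ts) (h₂ : T₂ ∈ Ts) {p y : Pass}
    (n1 : Nx T₁ p y) (n2 : Nx T₂ (part m y) (part m p)) (ht : ThinM Ts m β (β y.crossing)) :
    False := by
  have hb := h.two h₁ h₂ n1 n2
  obtain ⟨i1, j1, l1, r1, e1, e2, t1⟩ := nx_ty n1
  obtain ⟨j2, i2, l2, r2, e3, e4, t2⟩ := nx_ty n2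
  have c1 : p.crossing = nmT T₁ i1 := by rw [e1]; rfl
  have c2 : y.crossing = nmT T₁ j1 := by rw [e2]; rfl
  have c3 : m y.crossing = nmT T₂ j2 := by rw [← part_cross m, e3]; rfl
  have c4 : m p.crossing = nmT T₂ i2 := by rw [← part_cross m, e4]; rfl
  have b1 := h.bk.blk T₁ h₁ i1 j1
  have b2 := h.bk.blk T₂ h₂ i2 j2
  have ip := h.inv (Dt.names h₁ (nx_mem n1).1)
  have iy := h.inv (Dt.names h₁ (nx_mem n1).2)
  rw [c1] at ip
  rw [c2] at iy ht hb
  rw [c1] at c4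
  rw [c2] at c3
  by_cases hf : nmT T₁ j1 = nmT T₂ j2 ∨ nmT T₁ i1 = nmT T₂ i2
  · have hT : T₁ = T₂ := by
      rcases hf with hf | hf
      · exact nm_eq h.wf h₁ h₂ hf
      · exact nm_eq h.wf h₁ h₂ hf
    subst hT
    have f1 := ht.loop T₁ h₁ j1 j2 rfl c3
    have f2 := ht.loop T₁ h₁ i1 i2 b1 c4
    have hy : part m y = y.mate := by
      unfold part; rw [if_pos]; rw [c2, c3, ← f1]
    have hp : part m p = p.mate := by
      unfold part; rw [if_pos]; rw [c1, c4, ← f2]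
    rw [hy, hp] at n2
    obtain ⟨i, j, k, l, n, r, g1, g2, g3, -, -, g4⟩ := nx_ty3 (six_of h.wf h₁) n1 n2
    have : i = k := by
      refine nm_inj (six_of h.wf h₁) ?_
      have k1 := congrArg Pass.crossing g1
      have k2 := congrArg Pass.crossing g3
      exact k1.symm.trans k2
    exact g4 (by rw [this])
  · push Not at hf
    rcases ht.pair T₁ h₁ T₂ h₂ j1 i1 i2 j2 rfl (by rw [b2, ← c3]; exact hb.symm) c3
        (by rw [← c4]; exact ip) hf.1 (Ne.symm hf.2) with k | k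
    · exact t1 k.symm
    · exact t2 k.symm

/-- in a thin block there are no triangles with a branch point -/
theorem Dt.tri1 (h : Dt D Ts m β) {T₁ T₂ T₃ : Tri} {p y z : Pass}
    (hF : F3 Ts m T₁ T₂ T₃ p y z) (ht : ThinM Ts m β (β y.crossing))
    (hy : m y.crossing = y.crossing) : False := by
  obtain ⟨b1, b2⟩ := h.three hF
  obtain ⟨⟨h₁, h₂, h₃⟩, n1, n2, n3⟩ := hF
  have py : part m y = y.mate := by unfold part; rw [if_pos hy]
  rw [py] at n2
  have hT : T₁ = T₂ := by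
    obtain ⟨i, e1⟩ := nam_ix.1 (nam_of (nx_mem n1).2)
    obtain ⟨j, e2⟩ := nam_ix.1 (nam_of (nx_mem n2).1)
    exact nm_eq h.wf h₁ h₂ (i := i) (j := j) (by rw [← e1, ← e2]; rfl)
  subst hT
  obtain ⟨i, j, k, l, n, r, e1, e2, e3, t1, t2, t3⟩ := nx_ty3 (six_of h.wf h₁) n1 n2
  obtain ⟨k', i', l', r', e4, e5, t4⟩ := nx_ty n3
  have c1 : p.crossing = nmT T₁ i := by rw [e1]; rfl
  have c2 : y.crossing = nmT T₁ j := by rw [e2]; rfl
  have c3 : z.crossing = nmT T₁ k := by rw [e3]; rfl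
  have c4 : m z.crossing = nmT T₃ k' := by rw [← part_cross m, e4]; rfl
  have c5 : m p.crossing = nmT T₃ i' := by rw [← part_cross m, e5]; rfl
  have ip := h.inv (Dt.names h₁ (nx_mem n1).1)
  have bi := h.bk.blk T₁ h₁ i j
  have bk := h.bk.blk T₁ h₁ k j
  have bi' := h.bk.blk T₃ h₃ i' k'
  rw [c1] at ip c5
  rw [c2] at ht hy
  rw [c3] at c4 b2
  by_cases hf : nmT T₁ k = nmT T₃ k' ∨ nmT T₁ i = nmT T₃ i'
  · have hT : T₁ = T₃ := by
      rcases hf with hf | hf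
      · exact nm_eq h.wf h₁ h₃ hf
      · exact nm_eq h.wf h₁ h₃ hf
    subst hT
    have f1 := ht.loop T₁ h₁ k k' bk c4
    have f2 := ht.loop T₁ h₁ i i' bi c5
    refine ht.free T₁ h₁ i j k bi t1 t2 t3 ?_
    rintro l (rfl | rfl | rfl)
    · exact Or.inl (by rw [c5, ← f2])
    · exact Or.inl hy
    · exact Or.inl (by rw [c4, ← f1])
  · push Not at hf
    rcases ht.pair T₁ h₁ T₃ h₃ k i i' k' bk (by rw [bi', ← c4, ← b2]; exact bk) c4
        (by rw [← c5]; exact ip) hf.1 (Ne.symm hf.2) with k0 | k0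
    · exact t3 k0.symm
    · exact t4 k0.symm

/-- in a thin block there are no triangles -/
theorem Dt.triangle (h : Dt D Ts m β) {T₁ T₂ T₃ : Tri} {p y z : Pass}
    (hF : F3 Ts m T₁ T₂ T₃ p y z) (ht : ThinM Ts m β (β y.crossing)) : False := by
  obtain ⟨b1, b2⟩ := h.three hF
  have hpp := h.pp hF.1.1 (nx_mem hF.2.1).1
  have hyy := h.pp hF.1.1 (nx_mem hF.2.1).2
  have hzz := h.pp hF.1.2.1 (nx_mem hF.2.2.1).2
  have by' : β z.crossing = β (m y.crossing) := by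
    rw [← part_cross m]
    exact h.blk hF.1.2.1 (nx_mem hF.2.2.1).2 (nx_mem hF.2.2.1).1
  by_cases hy : m y.crossing = y.crossing
  · exact h.tri1 hF ht hy
  by_cases hz : m z.crossing = z.crossing
  · exact h.tri1 (hF.rot hpp hyy) (by rw [by', ← b1]; exact ht) hz
  by_cases hp : m p.crossing = p.crossing
  · have hF2 := (hF.rot hpp hyy).rot (by rw [hyy]) hzz
    refine h.tri1 hF2 ?_ ?_
    · have : β (part m p).crossing = β (m z.crossing) := by
        rw [← part_cross m z]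
        exact h.blk hF.1.2.2 (nx_mem hF.2.2.2).2 (nx_mem hF.2.2.2).1
      rw [this, ← b2, by', ← b1]; exact ht
    · rw [part_cross, hp, hp]
  obtain ⟨⟨h₁, h₂, h₃⟩, n1, n2, n3⟩ := hF
  obtain ⟨i1, j1, l1, r1, e1, e2, t1⟩ := nx_ty n1
  obtain ⟨j2, i2, l2, r2, e3, e4, t2⟩ := nx_ty n2
  obtain ⟨j3, i3, l3, r3, e5, e6, t3⟩ := nx_ty n3
  have c1 : p.crossing = nmT T₁ i1 := by rw [e1]; rfl
  have c2 : y.crossing = nmT T₁ j1 := by rw [e2]; rfl
  have c3 : m y.crossing = nmT T₂ j2 := by rw [← part_cross m, e3]; rfl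
  have c4 : z.crossing = nmT T₂ i2 := by rw [e4]; rfl
  have c5 : m z.crossing = nmT T₃ j3 := by rw [← part_cross m, e5]; rfl
  have c6 : m p.crossing = nmT T₃ i3 := by rw [← part_cross m, e6]; rfl
  have ip := h.inv (Dt.names h₁ (nx_mem n1).1)
  have bb3 := h.bk.blk T₃ h₃ i3 j3
  rcases ht.tri T₁ h₁ T₂ h₂ T₃ h₃ j1 i1 i2 j2 i3 j3 (by rw [c2]) (by rw [← c4, by', ← b1])
      (by rw [bb3, ← c5, ← b2, by', ← b1]) (by rw [← c2, c3]) (by rw [← c4, c5])
      (by rw [← c6, ip, c1]) (by rw [← c2, ← c3]; exact Ne.symm hy)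
      (by rw [← c4, ← c5]; exact Ne.symm hz) (by rw [← c6, ← c1]; exact hp) with k | k | k
  · exact t1 k.symm
  · exact t2 k.symm
  · exact t3 k.symm

end small

theorem pb_cls : Cls PB where
  toCls0 := pb_cls0
  small := by
    rintro D Ts m - hw hok hm ⟨h1, β, h2⟩ hs
    have hd : Dt D Ts m β := ⟨hw, hm.1, h2⟩
    -- the block of a small face
    have hone : ∃ T ∈ Ts, (∀ T' ∈ Ts, ∀ i j, β (nmT T' i) = β (nmT T j) → T' = T) ∧
        ((∃ p, Nx T p (part m p)) ∨ (∃ p y, Nx T p y ∧ Nx T (part m y) (part m p)) ∨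
        ∃ p y z, Nx T p y ∧ Nx T (part m y) z ∧ Nx T (part m z) (part m p)) := by
      have one : ∀ T ∈ Ts, ∀ T' ∈ Ts, ∀ i j, ¬ThinM Ts m β (β (nmT T j)) →
          β (nmT T' i) = β (nmT T j) → T' = T := by
        intro T hT T' hT' i j hn he
        rcases h2.thin (β (nmT T j)) with h3 | h3
        · exact nm_eq hw hT' hT (i := .a1) (j := .a1) (by
            rw [h3 T' hT' T hT i j he rfl])
        · exact absurd h3 hn
      rcases hs with ⟨p, k1⟩ | ⟨p, y, k1, k2⟩ | ⟨p, y, z, k1, k2, k3⟩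
      · obtain ⟨T, hT, n1⟩ := cor_TC k1
        refine ⟨T, hT, ?_, Or.inl ⟨p, n1⟩⟩
        intro T' hT' i j he
        refine one T hT T' hT' i j (fun ht => ?_) he
        obtain ⟨i1, j1, l1, r1, e1, e2, t1⟩ := nx_ty n1
        have c1 : m (nmT T i1) = nmT T j1 := by
          have := congrArg Pass.crossing e2
          rw [part_cross, e1] at this
          exact this
        have := ht.loop T hT i1 j1 (h2.blk T hT _ _) c1
        exact t1 (by rw [nm_inj (six_of hw hT) this])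
      · obtain ⟨T₁, h₁, n1⟩ := cor_TC k1
        obtain ⟨T₂, h₂, n2⟩ := cor_TC k2
        have hb := hd.two h₁ h₂ n1 n2
        obtain ⟨j, ej⟩ := nam_ix.1 (nam_of (nx_mem n1).2)
        obtain ⟨j', ej'⟩ := nam_ix.1 (nam_of (nx_mem n2).1)
        rw [part_cross] at ej'
        have hn : ¬ThinM Ts m β (β y.crossing) := fun ht => hd.bigon h₁ h₂ n1 n2 ht
        have o1 : ∀ T' ∈ Ts, ∀ i j, β (nmT T' i) = β (nmT T₁ j) → T' = T₁ := by
          intro T' hT' i j₀ he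
          refine one T₁ h₁ T' hT' i j₀ ?_ he
          rw [h2.blk T₁ h₁ j₀ j, ← ej]; exact hn
        have e2 : T₂ = T₁ := o1 T₂ h₂ j' j (by rw [← ej', ← ej, hb])
        subst e2
        exact ⟨T₂, h₂, o1, Or.inr (Or.inl ⟨p, y, n1, n2⟩)⟩
      · obtain ⟨T₁, h₁, n1⟩ := cor_TC k1
        obtain ⟨T₂, h₂, n2⟩ := cor_TC k2
        obtain ⟨T₃, h₃, n3⟩ := cor_TC k3
        have hF : F3 Ts m T₁ T₂ T₃ p y z := ⟨⟨h₁, h₂, h₃⟩, n1, n2, n3⟩
        obtain ⟨b1, b2⟩ := hd.three hF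
        obtain ⟨j, ej⟩ := nam_ix.1 (nam_of (nx_mem n1).2)
        obtain ⟨j', ej'⟩ := nam_ix.1 (nam_of (nx_mem n2).1)
        obtain ⟨i', ei'⟩ := nam_ix.1 (nam_of (nx_mem n2).2)
        obtain ⟨j'', ej''⟩ := nam_ix.1 (nam_of (nx_mem n3).1)
        rw [part_cross] at ej' ej''
        have hn : ¬ThinM Ts m β (β y.crossing) := fun ht => hd.triangle hF ht
        have o1 : ∀ T' ∈ Ts, ∀ i j, β (nmT T' i) = β (nmT T₁ j) → T' = T₁ := by
          intro T' hT' i j₀ he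
          refine one T₁ h₁ T' hT' i j₀ ?_ he
          rw [h2.blk T₁ h₁ j₀ j, ← ej]; exact hn
        have e2 : T₂ = T₁ := o1 T₂ h₂ j' j (by rw [← ej', ← ej, b1])
        have e3 : T₃ = T₁ := o1 T₃ h₃ j'' j (by
          rw [← ej'', ← ej, ← b2, ei', h2.blk T₂ h₂ i' j', ← ej', ← b1])
        subst e2
        rw [e3] at n3
        exact ⟨T₂, h₂, o1, Or.inr (Or.inr ⟨p, y, z, n1, n2, n3⟩)⟩
    obtain ⟨T, hT, huniq, hface⟩ := hone
    obtain ⟨l₁, l₂, rfl⟩ := List.append_of_mem hT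
    have hperm : (D ++ TC (l₁ ++ T :: l₂)).Perm (D ++ (T.code ++ TC (l₁ ++ l₂))) :=
      (tc_mid l₁ T l₂).append_left D
    have hS : Sit D (TC (l₁ ++ l₂)) T m :=
      ⟨WF.perm (passes_perm hperm) hw, Pool.Agent.Y874.TP2.invM_perm hperm hm, (hok T hT).1,
        h1 T hT⟩
    have hmem : ∀ T' ∈ l₁ ++ l₂, T' ∈ l₁ ++ T :: l₂ := by
      intro T' hT'
      simp only [List.mem_append, List.mem_cons] at hT' ⊢; tauto
    obtain ⟨g1, m', g2, g3⟩ := single_red hS hface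
    refine ⟨l₁ ++ l₂, by simp, g1, fun T' hT' => hok T' (hmem T' hT'), m', g2,
      fun T' hT' => h1 T' (hmem T' hT'), β, blk_tr h2 ?_ (fun c hc => hd.inv hc) ?_⟩
    · rintro c ⟨T', hT', hc⟩ i he
      obtain ⟨j, rfl⟩ := nam_ix.1 hc
      have e := huniq T' (hmem T' hT') j i he
      subst e
      -- the triple point would occur twice
      have hnd := WF.nodup hw
      have hp := passes_perm hperm
      have hnd2 := hp.nodup_iff.1 hnd
      rw [passes_append', passes_append'] at hnd2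
      exact (List.nodup_append.1 (List.nodup_append.1 hnd2).2.1).2.2 _ (ps_mem T' j true) _
        (mem_TC.2 ⟨T', hT', ps_mem T' j true⟩) rfl
    · intro c hc
      obtain ⟨q, hq, rfl⟩ := names_pass hc
      exact g3 _ ⟨q, by rw [passes_append']; exact List.mem_append_right _ hq, rfl⟩

end Pool.Agent.V11206
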