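import Pool.Agent.V11206.Canon

/-! Irreducible systems of few triple points. -/

set_option autoImplicit false

namespace Pool.Agent.V11206

open Pool.Agent.Y468.SR
open Pool.Agent.Y874.TP hiding InvM InvC CM CReid CStep SMovie Inv3
open Pool.Agent.Y874.TP2

set_option linter.unusedSimpArgs false
set_option linter.unusedVariables false

/-- at most `N` triple points -/
def PN (N : ℕ) (Ts : List Tri) (_ : ℕ → ℕ) : Prop :=
  Ts.length ≤ N ∧ ∀ T ∈ Ts, ∀ c, Nam T c → colour c = 0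

theorem pn_cls (N : ℕ) : Cls0 (PN N) where
  same := by
    rintro Ts' Ts m h ⟨h1, h2⟩
    refine ⟨by rw [h.length_eq]; exact h1, fun T' hT' c hc => ?_⟩
    obtain ⟨T, hT, k⟩ := (names_same h c).1 ⟨T', hT', hc⟩
    exact h2 T hT c k
  del := by
    rintro l₁ T l₂ m m' ⟨h1, h2⟩ h3
    refine ⟨?_, fun T' hT' => h2 T' ?_⟩
    · simp only [List.length_append, List.length_cons] at h1 ⊢; omega
    · simp only [List.mem_append, List.mem_cons] at hT' ⊢; tauto

theorem tc_mid (l₁ : List Tri) (T : Tri) (l₂ : List Tri) :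
    (TC (l₁ ++ T :: l₂)).Perm (T.code ++ TC (l₁ ++ l₂)) := by
  simp only [TC, List.flatMap_append, List.flatMap_cons]
  rw [← List.append_assoc, ← List.append_assoc]
  exact List.Perm.append_right _ List.perm_append_comm

theorem sit_of {D : Code} {Ts l₁ l₂ : List Tri} {T : Tri} {m : ℕ → ℕ} (hs : Sf D Ts m)
    (e : Ts = l₁ ++ T :: l₂) : Sit D (TC (l₁ ++ l₂)) T m := by
  subst e
  have hperm := (tc_mid l₁ T l₂).append_left D
  exact ⟨WF.perm (passes_perm hperm) hs.wf, Pool.Agent.Y874.TP2.invM_perm hperm hs.inv,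
    (hs.ok T (by simp)).1, hs.zero T (by simp)⟩

/-- the boundary and the triple points cannot be reduced -/
structure Irr (D : Code) (Ts : List Tri) (m : ℕ → ℕ) : Prop where
  res : ∀ l₁ T l₂, Ts = l₁ ++ T :: l₂ → ¬Res D (TC (l₁ ++ l₂)) T m
  ann : ∀ l T T', Ts.Perm (T :: T' :: l) → ∀ T₁ T₁', Sy T T₁ → Sy T' T₁' → Mir T₁ T₁' →
    m T₁.a₁ = T₁'.a₁ → m T₁.b₁ ≠ T₁'.b₁
  canc : ∀ C ∈ D, ∀ p q, CAdj C.1 p q → ¬Canc m p q
  rem : ∀ C ∈ D, ∀ p r, CAdj C.1 p r → ∀ T ∈ Ts, ¬Nx T (part m r) (part m p)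

theorem irr_of {N : ℕ} {D : Code} {Ts₀ Ts : List Tri} {m : ℕ → ℕ} (hD : Classical D)
    (hn : (D.map Prod.snd).Nodup) (hs : Sf D Ts m) (hl : Ts.length = Ts₀.length)
    (hN : Ts₀.length ≤ N) (hr : ¬RedP (PN N) D Ts₀) : Irr D Ts m := by
  have toRed : RedP (PN N) D Ts → RedP (PN N) D Ts₀ := by
    rintro ⟨D', Ts', r1, r2⟩
    rw [hl] at r1
    exact ⟨D', Ts', r1, r2⟩
  have hP : PN N Ts m := ⟨by omega, hs.zero⟩
  refine ⟨?_, ?_, ?_, ?_⟩
  · rintro l₁ T l₂ rfl ⟨w, m', i, -⟩
    refine hr (toRed ⟨D, l₁ ++ l₂, Or.inl ?_, hD, hn, ⟨w, fun T' hT' => hs.ok T' ?_, m', i, ?_, ?_⟩,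
      Relation.ReflTransGen.refl⟩)
    · simp only [List.length_append, List.length_cons]; omega
    · simp only [List.mem_append, List.mem_cons] at hT' ⊢; tauto
    · simp only [List.length_append, List.length_cons] at hl ⊢; omega
    · intro T' hT'
      refine hs.zero T' ?_
      simp only [List.mem_append, List.mem_cons] at hT' ⊢; tauto
  · intro l T T' hp T₁ T₁' s1 s2 hmir ha hb
    have hs' := hs.perm hp
    have w1 : WF (passes (D ++ (T₁.code ++ (T₁'.code ++ TC l)))) := by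
      have w := hs'.wf
      rw [tc_cons, tc_cons] at w
      have w2 := wf_ceq s1.ceq w
      rw [← List.append_assoc] at w2 ⊢
      exact wf_ceq s2.ceq w2
    have i1 : InvM (D ++ (T₁.code ++ (T₁'.code ++ TC l))) m := by
      have w := hs'.inv
      rw [tc_cons, tc_cons] at w
      have w2 := Pool.Agent.Y874.TP2.invM_ceq s1.ceq w
      rw [← List.append_assoc] at w2 ⊢
      exact Pool.Agent.Y874.TP2.invM_ceq s2.ceq w2
    have z : ∀ c, Nam T₁ c → colour c = 0 := fun c hc =>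
      hs'.zero T (by simp) c ((nam_sy s1 c).1 hc)
    have z' : ∀ c, Nam T₁' c → colour c = 0 := fun c hc =>
      hs'.zero T' (by simp) c ((nam_sy s2 c).1 hc)
    obtain ⟨w2, m', i2⟩ := annih hmir w1 i1 ha hb (by
      intro x hx
      simp only [pairs, List.mem_cons, List.not_mem_nil, or_false] at hx
      rcases hx with rfl | rfl | rfl | rfl | rfl | rfl <;> simp only <;>
        rw [z _ (by unfold Nam; simp), z' _ (by unfold Nam; simp)])
    have hlen := hp.length_eq
    simp only [List.length_cons] at hlen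
    refine hr (toRed ⟨D, l, Or.inl ?_, hD, hn, ⟨w2, fun T' hT' => hs'.ok T' (by simp [hT']), m', i2,
      ?_, fun T' hT' => hs'.zero T' (by simp [hT'])⟩, Relation.ReflTransGen.refl⟩)
    · omega
    · omega
  · intro C hC p q h hc
    exact hr (toRed (canc_cyc (pn_cls N) hD hn hs.wf hs.ok hs.inv hP hC h hc))
  · intro C hC p r h T hT hN'
    exact hr (toRed (remT_cyc (pn_cls N) hD hn hs.wf hs.ok hs.inv hP hC h hT hN'))

/-- there are no irreducible systems of at most `N` triple points -/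
def NoIrr (N : ℕ) : Prop := ∀ (D : Code) (Ts₁ Ts₂ : List Tri) (m : ℕ → ℕ), Classical D →
  (D.map Prod.snd).Nodup → passes D ≠ [] → Ts₁.length + Ts₂.length ≤ N →
  (∀ T ∈ Ts₁, T.ei = true) → (∀ T ∈ Ts₂, T.ei = false) → Sf D (Ts₁ ++ Ts₂) m →
  Irr D (Ts₁ ++ Ts₂) m → False

theorem reduceN {N : ℕ} (hN : NoIrr N) {D : Code} {Ts : List Tri} (hD : Classical D)
    (hn : (D.map Prod.snd).Nodup) (h3 : InvP (PN N) D Ts) (h : passes D ≠ []) :
    RedP (PN N) D Ts := by
  by_contra hr
  obtain ⟨m, hm, hP1, hP2⟩ := h3.inv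
  obtain ⟨Ts₁, Ts₂, e1, e2, e3, hs⟩ := sf_exists h3.wf hm h3.ok hP2
  exact hN D Ts₁ Ts₂ m hD hn h (by omega) e2 e3 hs
    (irr_of hD hn hs (by rw [List.length_append]; exact e1) hP1 hr)

theorem movie_of_few {N : ℕ} (hN : NoIrr N) (n : ℕ) : ∀ (l : ℕ) (D : Code)
    (Ts : List Tri), Ts.length = n → (passes D).length = l → Classical D →
    (D.map Prod.snd).Nodup → InvP (PN N) D Ts → Movie true false D [] := by
  induction n using Nat.strong_induction_on with
  | _ n ihn =>
    intro l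
    induction l using Nat.strong_induction_on with
    | _ l ihl =>
      intro D Ts h1 h2 hD hn h3
      by_cases h : passes D = []
      · exact movie_mono (deaths hn h)
      · obtain ⟨D', Ts', r1, r2, r3, r4, r5⟩ := reduceN hN hD hn h3 h
        refine r5.trans ?_
        rcases r1 with r1 | ⟨r1, r1'⟩
        · exact ihn Ts'.length (by omega) _ D' Ts' rfl rfl r2 r3 r4
        · exact ihl (passes D').length (by omega) D' Ts' (by omega) rfl r2 r3 r4

end Pool.Agent.V11206
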