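import Pool.Agent.V11206.Chn
import Pool.Agent.V11206.Drive

/-! The words of the boundary and of the triple points as a system of words. -/

set_option autoImplicit false

namespace Pool.Agent.V11206

open Pool.Agent.Y468.SR
open Pool.Agent.Y874.TP hiding InvM InvC CM CReid CStep SMovie Inv3
open Pool.Agent.Y874.TP2
open Pool.Agent.Y761.TP2 (uniq side part_mem)

set_option linter.unusedSimpArgs false
set_option linter.unusedVariables false

theorem pnull2 {D Q₁ Q₂ : Code} {C : List Pass × ℕ} {m : ℕ → ℕ}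
    (hwf : WF (passes (D ++ (Q₁ ++ C :: Q₂))))
    (hm : Matching (passes (D ++ (Q₁ ++ C :: Q₂))) m) (hN : NullV (D ++ (Q₁ ++ C :: Q₂)) m)
    (G : Type) [Group G] (F : Pass → G)
    (hF : ∀ p ∈ passes (D ++ (Q₁ ++ C :: Q₂)), F (part m p) = (F p)⁻¹)
    (hQ : ∀ C' ∈ D ++ (Q₁ ++ Q₂), (C'.1.map F).prod = 1) : (C.1.map F).prod = 1 := by
  set P := passes (D ++ (Q₁ ++ C :: Q₂)) with hP
  have hw : ∀ C' ∈ D ++ (Q₁ ++ C :: Q₂), wval (lbl P F true) (lbl P F false) C'.1 =
      (C'.1.map F).prod := fun C' hC' => wval_lbl hwf F C'.1 fun p hp => mem_passes.2 ⟨C', hC', hp⟩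
  have h := hN G _ _ (valid_lbl hwf hm hF) C.2
  have hperm : (D ++ (Q₁ ++ C :: Q₂)).Perm (C :: (D ++ (Q₁ ++ Q₂))) := by
    rw [← List.append_assoc, ← List.append_assoc]
    exact List.perm_middle
  have h2 := CN.perm (bv_perm (hperm.map fun C' : List Pass × ℕ =>
    (wval (lbl P F true) (lbl P F false) C'.1, C'.2)) C.2) h
  rw [List.map_cons, bv_cons, if_pos rfl] at h2
  rw [← hw C (by simp)]
  refine Pool.Agent.Y874.TP.cn_ones (fun y hy => ?_) h2
  simp only [bv, List.mem_map, List.mem_filter] at hy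
  obtain ⟨x, ⟨⟨C', hC', rfl⟩, -⟩, rfl⟩ := hy
  have hC'' : C' ∈ D ++ (Q₁ ++ C :: Q₂) := by
    simp only [List.mem_append, List.mem_cons] at hC' ⊢; tauto
  simp only
  rw [hw C' hC'']
  exact hQ C' hC'

theorem flat_filter (L : List (List Pass)) : (L.filter (fun W => decide (W ≠ []))).flatten =
    L.flatten := by
  induction L with
  | nil => rfl
  | cons W L ih =>
    by_cases h : W = []
    · subst h; simp only [List.filter_cons, ne_eq, not_true_eq_false, decide_false,
        Bool.false_eq_true, if_false, List.flatten_cons, List.nil_append]; exact ih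
    · rw [List.filter_cons, if_pos (by simp [h]), List.flatten_cons, List.flatten_cons, ih]

/-- the nonempty words of the boundary -/
def BW (D : Code) : List (List Pass) := (D.map Prod.fst).filter (fun W => decide (W ≠ []))

theorem sys_of {D Q : Code} {m : ℕ → ℕ} (ω : Pass → ℕ) (hnd : (D.map Prod.snd).Nodup)
    (hwf : WF (passes (D ++ Q))) (hm : Matching (passes (D ++ Q)) m) (hN : NullV (D ++ Q) m)
    (h4 : ∀ C ∈ Q, ∃ x0 x1 x2 x3, C.1 = [x0, x1, x2, x3]) :
    Sys (part m) (fun p q => ∃ C ∈ D ++ Q, CAdj C.1 p q) ω (passes (D ++ Q)) (BW D)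
      (Q.map Prod.fst) := by
  have e : (BW D).flatten ++ (Q.map Prod.fst).flatten = passes (D ++ Q) := by
    unfold BW
    rw [flat_filter, flatten_fst, flatten_fst, passes_append']
  refine ⟨?_, ?_, ?_, ?_, ?_⟩
  · rw [e]; exact WF.nodup hwf
  · rw [e]; exact fun p hp => hp
  · intro W hW
    obtain ⟨C, hC, rfl⟩ := List.mem_map.1 hW
    obtain ⟨x0, x1, x2, x3, h⟩ := h4 C hC
    have hC' : C ∈ D ++ Q := List.mem_append_right _ hC
    refine ⟨x0, x1, x2, x3, h, ⟨C, hC', ?_⟩, ⟨C, hC', ?_⟩, ⟨C, hC', ?_⟩, ⟨C, hC', ?_⟩⟩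
    · rw [h]; exact Or.inl ⟨[], [x2, x3], rfl⟩
    · rw [h]; exact Or.inl ⟨[x0], [x3], rfl⟩
    · rw [h]; exact Or.inl ⟨[x0, x1], [], rfl⟩
    · rw [h]; exact Or.inr ⟨[x1, x2], rfl⟩
  · intro W hW G _ F hF hQ
    unfold BW at hW
    obtain ⟨hW, -⟩ := List.mem_filter.1 hW
    obtain ⟨C, hC, rfl⟩ := List.mem_map.1 hW
    exact pnull hnd hwf hm hN G F hF (fun C' hC' => hQ C'.1 (List.mem_map_of_mem hC')) C hC
  · intro R₁ W R₂ e' G _ F hF hR
    obtain ⟨Q₁, Q', rfl, rfl, e3⟩ := List.map_eq_append_iff.1 e'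
    obtain ⟨C, Q₂, rfl, rfl, rfl⟩ := List.map_eq_cons_iff.1 e3
    refine pnull2 hwf hm hN G F hF fun C' hC' => ?_
    rcases List.mem_append.1 hC' with hC' | hC'
    · by_cases h : C'.1 = []
      · rw [h]; rfl
      · refine hR C'.1 (List.mem_append_left _ ?_)
        unfold BW
        exact List.mem_filter.2 ⟨List.mem_map_of_mem hC', by simp [h]⟩
    · refine hR C'.1 (List.mem_append_right _ ?_)
      rw [← List.map_append]
      exact List.mem_map_of_mem hC'

/-- the words of the boundary have even length -/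
theorem even_words {D Q : Code} {m : ℕ → ℕ} (hnd : (D.map Prod.snd).Nodup)
    (hwf : WF (passes (D ++ Q))) (hm : Matching (passes (D ++ Q)) m) (hN : NullV (D ++ Q) m)
    (h4 : ∀ C ∈ Q, ∃ x0 x1 x2 x3, C.1 = [x0, x1, x2, x3]) {C : List Pass × ℕ} (hC : C ∈ D) :
    C.1.length ≠ 1 := by
  intro h1
  have h := pnull hnd hwf hm hN (Multiplicative (ZMod 2)) (fun _ => Multiplicative.ofAdd 1)
    (fun p _ => by decide) (fun C' hC' => by
      obtain ⟨x0, x1, x2, x3, h⟩ := h4 C' hC'
      rw [h]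
      simp only [List.map_cons, List.map_nil]
      decide) C hC
  obtain ⟨a, ha⟩ := List.length_eq_one_iff.1 h1
  rw [ha] at h
  simp only [List.map_cons, List.map_nil] at h
  revert h
  decide

end Pool.Agent.V11206
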