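import Pool.Agent.V11206.Link

/-! The count of the faces and gaps of an irreducible system. -/

set_option autoImplicit false

namespace Pool.Agent.V11206

open Pool.Agent.Y468.SR
open Pool.Agent.Y874.TP hiding InvM InvC CM CReid CStep SMovie Inv3
open Pool.Agent.Y874.TP2
open Pool.Agent.Y761.TP2 (uniq side part_mem)

set_option linter.unusedSimpArgs false
set_option linter.unusedVariables false

variable {D : Code} {Ts : List Tri} {t : ℕ} {m : ℕ → ℕ}

/-- the corners -/
def Cn (D : Code) (Ts : List Tri) (p q : Pass) : Prop := ∃ C ∈ D ++ TC Ts, CAdj C.1 p q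

open Classical in
/-- the number of a passage -/
noncomputable def num (Ts : List Tri) (p : Pass) : ℕ :=
  if H : ∃ d, d < 12 * Ts.length ∧ pz Ts d = p then H.choose else 0

theorem Stp.num_pz (h : Stp D Ts t m) {d : ℕ} (hd : d < 12 * Ts.length) :
    num Ts (pz Ts d) = d := by
  have H : ∃ d', d' < 12 * Ts.length ∧ pz Ts d' = pz Ts d := ⟨d, hd, rfl⟩
  unfold num
  rw [dif_pos H]
  exact pz_inj h.nodup H.choose_spec.1 hd H.choose_spec.2

open Classical in
/-- the weights of the corners -/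
noncomputable def wt (D : Code) (Ts : List Tri) (t : ℕ) (m : ℕ → ℕ) (Hd : List ℕ) (p : Pass) : ℕ :=
  if p ∈ passes D then 2 else (if num Ts p ∈ Hd then 4 else 0) +
    (if CF.Lf (cz Ts m) (num Ts p) ∧ ¬CF.Lf (cz Ts m) (CF.nx t (num Ts p)) then 2 else 0)

theorem wt_D {Hd : List ℕ} {p : Pass} (hp : p ∈ passes D) : wt D Ts t m Hd p = 2 := by
  unfold wt; rw [if_pos hp]

open Classical in
theorem Stp.wt_pz (h : Stp D Ts t m) {Hd : List ℕ} {d : ℕ} (hd : d < 12 * Ts.length) :
    wt D Ts t m Hd (pz Ts d) = (if d ∈ Hd then 4 else 0) +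
      (if CF.Lf (cz Ts m) d ∧ ¬CF.Lf (cz Ts m) (CF.nx t d) then 2 else 0) := by
  unfold wt
  rw [if_neg (fun hp => h.dj hp (pz_mem hd)), h.num_pz hd]

theorem Stp.cnD (h : Stp D Ts t m) {p q : Pass} (hp : p ∈ passes D) (hc : Cn D Ts p q) :
    q ∈ passes D ∧ ∃ C ∈ D, CAdj C.1 p q := by
  obtain ⟨C, hC, hc⟩ := hc
  obtain ⟨h1, h2⟩ := cadj_mem hc
  rcases List.mem_append.1 hC with hC | hC
  · exact ⟨mem_passes.2 ⟨C, hC, h2⟩, C, hC, hc⟩
  · exact (h.dj hp (mem_passes.2 ⟨C, hC, h1⟩)).elim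

theorem Stp.cnT (h : Stp D Ts t m) {d : ℕ} (hd : d < 12 * Ts.length) {q : Pass}
    (hc : Cn D Ts (pz Ts d) q) : (∃ T ∈ Ts, Nx T (pz Ts d) q) ∧ q = pz Ts (CF.nx t d) := by
  obtain ⟨C, hC, hc⟩ := hc
  obtain ⟨h1, h2⟩ := cadj_mem hc
  rcases List.mem_append.1 hC with hC | hC
  · exact (h.dj (mem_passes.2 ⟨C, hC, h1⟩) (pz_mem hd)).elim
  · obtain ⟨T, hT, hN⟩ := cor_TC ⟨C, hC, hc⟩
    exact ⟨⟨T, hT, hN⟩, h.nx hT hd hN⟩

theorem Stp.nx_lt (h : Stp D Ts t m) {d : ℕ} (hd : d < 12 * Ts.length) :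
    CF.nx t d < 12 * Ts.length := CF.nx_lt h.K3 (le_trans h.tK h.K3) hd

theorem Stp.cn_mem {p q : Pass} (hc : Cn D Ts p q) : p ∈ passes (D ++ TC Ts) ∧
    q ∈ passes (D ++ TC Ts) := by
  obtain ⟨C, hC, hc⟩ := hc
  obtain ⟨h1, h2⟩ := cadj_mem hc
  exact ⟨mem_passes.2 ⟨C, hC, h1⟩, mem_passes.2 ⟨C, hC, h2⟩⟩

theorem Stp.pp (h : Stp D Ts t m) {p : Pass} (hp : p ∈ passes (D ++ TC Ts)) :
    part m (part m p) = p := part_part h.sf.inv.1 hp

theorem lp_mem {L : List Pass} {s : Pass} (h : LP (part m) (Cn D Ts) L s) :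
    (∀ x ∈ L, x ∈ passes (D ++ TC Ts)) ∧ s ∈ passes (D ++ TC Ts) := by
  induction h with
  | one h =>
    obtain ⟨h1, h2⟩ := Stp.cn_mem h
    exact ⟨fun x hx => by simp only [List.mem_cons, List.not_mem_nil, or_false] at hx; rw [hx]; exact h1, h2⟩
  | cons h _ ih =>
    obtain ⟨h1, h2⟩ := Stp.cn_mem h
    refine ⟨fun x hx => ?_, ih.2⟩
    rcases List.mem_cons.1 hx with rfl | hx
    · exact h1
    · exact ih.1 x hx

/-- a closed path of corners starting in the boundary -/
theorem Stp.loopD (h : Stp D Ts t m) {Hd : List ℕ} {x : Pass} {w : List Pass}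
    (hx : x ∈ passes D) (hw : ∀ y ∈ w, y ∈ passes (TC Ts))
    (hL : LP (part m) (Cn D Ts) (x :: w) (part m x)) :
    4 ≤ ((x :: w).map (wt D Ts t m Hd)).sum := by
  rcases w with _ | ⟨p1, _ | ⟨p2, rest⟩⟩
  · exfalso
    cases hL with
    | one hc =>
      obtain ⟨-, C, hC, hc⟩ := h.cnD hx hc
      exact h.ir.canc C hC _ _ hc canc_part
  · exfalso
    cases hL with
    | @cons _ q0 _ _ hc h' =>
      obtain ⟨hq, C, hC, hc⟩ := h.cnD hx hc
      have hp1 := hw (part m q0) (by simp)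
      obtain ⟨d, hd, e⟩ := mem_pz hp1
      cases h' with
      | one hc2 =>
        rw [← e] at hc2
        obtain ⟨⟨T, hT, hN⟩, -⟩ := h.cnT hd hc2
        rw [e] at hN
        exact h.ir.rem C hC x q0 hc T hT hN
  · cases hL with
    | @cons _ q0 _ _ hc h' =>
      obtain ⟨hq, -⟩ := h.cnD hx hc
      have hp1 := hw (part m q0) (by simp)
      obtain ⟨d, hd, e⟩ := mem_pz hp1
      generalize hy : part m q0 = y at *
      cases h' with
      | @cons _ q1 _ _ hc2 h'' =>
        have hp2 := hw (part m q1) (by simp)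
        rw [← e] at hc2
        obtain ⟨-, e1⟩ := h.cnT hd hc2
        have hq0 : part m (pz Ts d) = q0 := by
          rw [e, ← hy]; exact h.pp (memD hq)
        have l1 : CF.Lf (cz Ts m) d := (h.lf hd).2 (by rw [hq0]; exact hq)
        have l2 : ¬CF.Lf (cz Ts m) (CF.nx t d) := h.nonlf (h.nx_lt hd) (by rw [← e1]; exact hp2)
        have w1 : 2 ≤ wt D Ts t m Hd y := by
          have hl : CF.Lf (cz Ts m) d ∧ ¬CF.Lf (cz Ts m) (CF.nx t d) := ⟨l1, l2⟩
          rw [← e, h.wt_pz hd, if_pos hl]; omega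
        have w0 : wt D Ts t m Hd x = 2 := wt_D hx
        simp only [List.map_cons, List.sum_cons]
        omega

theorem Stp.succ (h : Stp D Ts t m) {p : Pass} {l : List Pass}
    (hL : LP (part m) (Cn D Ts) (p :: l) (part m p)) {x : Pass} (hx : x ∈ p :: l) :
    ∃ q, Cn D Ts x q ∧ part m q ∈ p :: l := by
  obtain ⟨q, h1, h2⟩ := hL.next hx
  refine ⟨q, h1, ?_⟩
  rcases h2 with h2 | h2
  · exact h2
  · rw [h2, h.pp ((lp_mem hL).1 p (by simp))]; simp

theorem sum_two {f : Pass → ℕ} {u v : List Pass} {x y : Pass} (hy : y ∈ u ++ v) :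
    f x + f y ≤ ((u ++ x :: v).map f).sum := by
  have h1 : f y ≤ ((u ++ v).map f).sum :=
    List.le_sum_of_mem (List.mem_map_of_mem hy)
  have h2 : ((u ++ x :: v).map f).sum = f x + ((u ++ v).map f).sum := by
    simp only [List.map_append, List.map_cons, List.sum_append, List.sum_cons]; omega
  omega

theorem Stp.four (h : Stp D Ts t m) {Hd : List ℕ}
    (hcv : ∀ d < 12 * Ts.length, CF.Cv t (cz Ts m) (CF.Lf (cz Ts m)) Hd d) (p : Pass) (w : ℕ)
    (hp : PT (part m) (Cn D Ts) (wt D Ts t m Hd) w p (part m p)) : 4 ≤ w := by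
  obtain ⟨l, hL, rfl⟩ := hp.lp
  have hmem := (lp_mem hL).1
  by_cases hD : ∃ x ∈ p :: l, x ∈ passes D
  · obtain ⟨x, hx, hxD⟩ := hD
    obtain ⟨u, v, e⟩ := List.append_of_mem hx
    by_cases h2 : ∃ y ∈ u ++ v, y ∈ passes D
    · obtain ⟨y, hy, hyD⟩ := h2
      have := sum_two (f := wt D Ts t m Hd) (x := x) hy
      rw [e]
      rw [wt_D hxD, wt_D hyD] at this
      exact this
    · have huv : ∀ y ∈ v ++ u, y ∈ passes (TC Ts) := by
        intro y hy
        have hy' : y ∈ u ++ v := by simp only [List.mem_append] at hy ⊢; tauto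
        have h3 := hmem y (by rw [e]; simp only [List.mem_append, List.mem_cons] at hy' ⊢; tauto)
        rw [passes_append'] at h3
        rcases List.mem_append.1 h3 with h3 | h3
        · exact absurd ⟨y, hy', h3⟩ h2
        · exact h3
      have hsum : ((p :: l).map (wt D Ts t m Hd)).sum =
          ((x :: (v ++ u)).map (wt D Ts t m Hd)).sum := by
        rw [e]
        simp only [List.map_append, List.map_cons, List.sum_append, List.sum_cons]; omega
      rw [hsum]
      refine h.loopD hxD huv ?_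
      rcases u with _ | ⟨a, u⟩
      · simp only [List.nil_append, List.cons.injEq] at e
        obtain ⟨rfl, rfl⟩ := e
        rw [List.append_nil]
        exact hL
      · rw [e] at hL
        obtain ⟨y, g1, g2, g3⟩ := hL.split (by simp)
        have hpa : p = a := by simp only [List.cons_append, List.cons.injEq] at e; exact e.1
        subst hpa
        have hp' := h.pp (hmem p (by simp))
        have g4 : LP (part m) (Cn D Ts) (part m (part m p) :: u) y := by rw [hp']; exact g1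
        have g5 := g3.app g4
        rw [hp'] at g5
        have hy : part m x = y := by
          rw [← g2]; exact h.pp (lp_mem g1).2
        rw [hy]
        exact g5
  · have hT : ∀ x ∈ p :: l, x ∈ passes (TC Ts) := by
      intro x hx
      have h3 := hmem x hx
      rw [passes_append'] at h3
      rcases List.mem_append.1 h3 with h3 | h3
      · exact absurd ⟨x, hx, h3⟩ hD
      · exact h3
    by_contra hlt
    have hno : ∀ d < 12 * Ts.length, pz Ts d ∈ p :: l → d ∉ Hd := by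
      intro d hd hm hmem
      have h4 : wt D Ts t m Hd (pz Ts d) ≤ ((p :: l).map (wt D Ts t m Hd)).sum :=
        List.le_sum_of_mem (List.mem_map_of_mem hm)
      rw [h.wt_pz hd, if_pos hmem] at h4
      omega
    have key : ∀ d, CF.Cv t (cz Ts m) (CF.Lf (cz Ts m)) Hd d → d < 12 * Ts.length →
        pz Ts d ∈ p :: l → False := by
      intro d hc
      induction hc with
      | hd h1 => exact fun hd hm => hno _ hd hm h1
      | @ex d h1 =>
        intro hd hm
        obtain ⟨q, k1, k2⟩ := h.succ hL hm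
        obtain ⟨-, k3⟩ := h.cnT hd k1
        rw [k3] at k2
        exact h.nonlf (h.nx_lt hd) (hT _ k2) h1
      | @st d h1 _ ih =>
        intro hd hm
        obtain ⟨q, k1, k2⟩ := h.succ hL hm
        obtain ⟨-, k3⟩ := h.cnT hd k1
        rw [k3] at k2
        obtain ⟨k4, k5⟩ := h.mt (h.nx_lt hd) h1
        rw [k5] at k2
        exact ih k4 k2
    obtain ⟨d, hd, e⟩ := mem_pz (hT p (by simp))
    exact key d (hcv d hd) hd (by rw [e]; simp)

/-! ### the sums -/

theorem Stp.sysA (h : Stp D Ts t m) (ω : Pass → ℕ) :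
    Sys (part m) (Cn D Ts) ω (passes (D ++ TC Ts)) (BW D) ((TC Ts).map Prod.fst) :=
  sys_of ω h.nd h.sf.wf h.sf.inv.1 h.sf.inv.2.2 fun C hC => four_TC hC

theorem mem_BW {W : List Pass} (h : W ∈ BW D) : W ≠ [] ∧ ∃ C ∈ D, C.1 = W := by
  unfold BW at h
  obtain ⟨h1, h2⟩ := List.mem_filter.1 h
  obtain ⟨C, hC, e⟩ := List.mem_map.1 h1
  exact ⟨by simpa using h2, C, hC, e⟩

theorem Stp.bw (h : Stp D Ts t m) {Hd : List ℕ} : ∀ b ∈ BW D, b ≠ [] ∧
    PC (part m) (Cn D Ts) (wt D Ts t m Hd) (2 * b.length) b := by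
  intro b hb
  obtain ⟨h1, C, hC, rfl⟩ := mem_BW hb
  refine ⟨h1, ?_⟩
  have h2 : C.1.length ≠ 1 := even_words h.nd h.sf.wf h.sf.inv.1 h.sf.inv.2.2
    (fun C hC => four_TC hC) hC
  have h3 : 2 ≤ C.1.length := by
    have : C.1.length ≠ 0 := fun e => h1 (List.eq_nil_of_length_eq_zero e)
    omega
  have h4 := pc_word (μ := part m) (Co := Cn D Ts) (ω := wt D Ts t m Hd) h3
    fun p q hpq => ⟨C, List.mem_append_left _ hC, hpq⟩
  have h5 : (C.1.map (wt D Ts t m Hd)).sum = 2 * C.1.length := by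
    rw [List.map_congr_left (g := fun _ => 2) fun p hp => wt_D (mem_passes.2 ⟨C, hC, hp⟩)]
    simp; omega
  rwa [h5] at h4

theorem Stp.hinv (h : Stp D Ts t m) : ∀ p ∈ passes (D ++ TC Ts), part m p ∈ passes (D ++ TC Ts) ∧
    part m (part m p) = p ∧ part m p ≠ p := fun p hp =>
  ⟨h.part_mem' hp, h.pp hp, part_ne⟩

theorem len_map (Ts : List Tri) : ((TC Ts).map Prod.fst).length = 3 * Ts.length := by
  rw [List.length_map]
  induction Ts with
  | nil => rfl
  | cons T Ts ih =>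
    rw [tc_cons, List.length_append, ih, List.length_cons]
    show 3 + _ = _
    omega

open Classical in
theorem Stp.total (h : Stp D Ts t m) (Hd : List ℕ) :
    (((TC Ts).map Prod.fst).flatten.map (wt D Ts t m Hd)).sum ≤
      4 * Hd.length + CF.gaps Ts.length t (cz Ts m) := by
  rw [flatten_fst, ((pz_perm h.nodup).map _).sum_eq, List.map_map]
  have h1 : ((List.range (12 * Ts.length)).map (wt D Ts t m Hd ∘ pz Ts)).sum =
      ∑ d ∈ Finset.range (12 * Ts.length), ((if d ∈ Hd then 4 else 0) +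
      (if CF.Lf (cz Ts m) d ∧ ¬CF.Lf (cz Ts m) (CF.nx t d) then 2 else 0)) := by
    rw [← List.sum_toFinset _ List.nodup_range, List.toFinset_range]
    refine Finset.sum_congr rfl fun d hd => ?_
    exact h.wt_pz (Finset.mem_range.1 hd)
  rw [h1, Finset.sum_add_distrib]
  refine Nat.add_le_add ?_ ?_
  · rw [← Finset.sum_filter, Finset.sum_const, smul_eq_mul, Nat.mul_comm]
    refine Nat.mul_le_mul_left 4 ?_
    calc (Finset.filter (fun d => d ∈ Hd) (Finset.range (12 * Ts.length))).card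
        ≤ Hd.toFinset.card := Finset.card_le_card fun d hd => by
          rw [Finset.mem_filter] at hd
          exact List.mem_toFinset.2 hd.2
      _ ≤ Hd.length := List.toFinset_card_le Hd
  · unfold CF.gaps
    refine Finset.sum_le_sum fun d _ => ?_
    split_ifs <;> omega

theorem bw_ne (hne : passes D ≠ []) : BW D ≠ [] := by
  obtain ⟨p, hp⟩ := List.exists_mem_of_ne_nil _ hne
  obtain ⟨C, hC, hp⟩ := mem_passes.1 hp
  have : C.1 ∈ BW D := by
    unfold BW
    exact List.mem_filter.2 ⟨List.mem_map_of_mem hC, by simpa using List.ne_nil_of_mem hp⟩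
  exact List.ne_nil_of_mem this

theorem Stp.e1 (h : Stp D Ts t m) (hne : passes D ≠ []) (Hd : List ℕ)
    (hcv : ∀ d < 12 * Ts.length, CF.Cv t (cz Ts m) (CF.Lf (cz Ts m)) Hd d) :
    12 * Ts.length + 4 ≤ 4 * Hd.length + CF.gaps Ts.length t (cz Ts m) := by
  have h1 := (euler_D h.hinv (fun p w => h.four hcv p w) (h.sysA (wt D Ts t m Hd)) h.bw).1
  have h2 := h.total Hd
  rw [len_map] at h1
  have h3 : (BW D).length ≠ 0 := fun e => bw_ne hne (List.eq_nil_of_length_eq_zero e)
  omega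

open Classical in
theorem Stp.e2 (h : Stp D Ts t m) (hne : passes D ≠ []) (Hd : List ℕ)
    (hcv : ∀ d < 12 * Ts.length, CF.Cv t (cz Ts m) (CF.Lf (cz Ts m)) Hd d) (U : ℕ → Prop)
    (hU : ∃ d < 12 * Ts.length, U d)
    (hU2 : ∀ d < 12 * Ts.length, U d → ¬CF.Lf (cz Ts m) d ∧ U (CF.mt (cz Ts m) d) ∧
      U (CF.nx t d)) :
    12 * Ts.length + 12 ≤ 4 * Hd.length + CF.gaps Ts.length t (cz Ts m) := by
  -- the passages in `U`
  let V : Pass → Prop := fun p => ∃ d < 12 * Ts.length, pz Ts d = p ∧ U d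
  have hV1 : ∀ d < 12 * Ts.length, V (pz Ts d) ↔ U d := by
    intro d hd
    constructor
    · rintro ⟨d', hd', e, hu⟩
      rw [← pz_inj h.nodup hd' hd e]; exact hu
    · exact fun hu => ⟨d, hd, rfl, hu⟩
  have hVD : ∀ p ∈ passes D, ¬V p := by
    rintro p hp ⟨d, hd, rfl, -⟩
    exact h.dj hp (pz_mem hd)
  have hVμ' : ∀ p ∈ passes (D ++ TC Ts), V p → V (part m p) := by
    rintro p hp ⟨d, hd, rfl, hu⟩
    obtain ⟨k1, k2, k3⟩ := hU2 d hd hu
    obtain ⟨k4, k5⟩ := h.mt hd k1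
    rw [k5]
    exact (hV1 _ k4).2 k2
  have hVμ : ∀ p ∈ passes (D ++ TC Ts), V (part m p) ↔ V p := by
    intro p hp
    refine ⟨fun hv => ?_, hVμ' p hp⟩
    have := hVμ' _ (h.part_mem' hp) hv
    rwa [h.pp hp] at this
  -- the words
  have hco : ∀ p q, Cn D Ts p q → p ∈ passes (TC Ts) → V p → V q := by
    rintro p q hc hp hv
    obtain ⟨d, hd, e⟩ := mem_pz hp
    rw [← e] at hc hv
    obtain ⟨-, k⟩ := h.cnT hd hc
    rw [k]
    exact (hV1 _ (h.nx_lt hd)).2 (hU2 d hd ((hV1 d hd).1 hv)).2.2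
  have hword : ∀ W ∈ (TC Ts).map Prod.fst, (∃ p ∈ W, V p) → ∀ p ∈ W, V p := by
    intro W hW
    obtain ⟨C, hC, rfl⟩ := List.mem_map.1 hW
    obtain ⟨x0, x1, x2, x3, e⟩ := four_TC hC
    have hC' : C ∈ D ++ TC Ts := List.mem_append_right _ hC
    have c01 : Cn D Ts x0 x1 := ⟨C, hC', by rw [e]; exact Or.inl ⟨[], [x2, x3], rfl⟩⟩
    have c12 : Cn D Ts x1 x2 := ⟨C, hC', by rw [e]; exact Or.inl ⟨[x0], [x3], rfl⟩⟩
    have c23 : Cn D Ts x2 x3 := ⟨C, hC', by rw [e]; exact Or.inl ⟨[x0, x1], [], rfl⟩⟩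
    have c30 : Cn D Ts x3 x0 := ⟨C, hC', by rw [e]; exact Or.inr ⟨[x1, x2], rfl⟩⟩
    have m0 : ∀ x ∈ C.1, x ∈ passes (TC Ts) := fun x hx => mem_passes.2 ⟨C, hC, hx⟩
    rw [e] at m0 ⊢
    have v01 := hco _ _ c01 (m0 x0 (by simp))
    have v12 := hco _ _ c12 (m0 x1 (by simp))
    have v23 := hco _ _ c23 (m0 x2 (by simp))
    have v30 := hco _ _ c30 (m0 x3 (by simp))
    rintro ⟨p, hp, hv⟩ q hq
    simp only [List.mem_cons, List.not_mem_nil, or_false] at hp hq
    have hv0 : V x0 := by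
      rcases hp with rfl | rfl | rfl | rfl
      · exact hv
      · exact v30 (v23 (v12 hv))
      · exact v30 (v23 hv)
      · exact v30 hv
    rcases hq with rfl | rfl | rfl | rfl
    · exact hv0
    · exact v01 hv0
    · exact v12 (v01 hv0)
    · exact v23 (v12 (v01 hv0))
  set R := (TC Ts).map Prod.fst with hR
  set A := R.filter (fun W => decide (¬∃ p ∈ W, V p)) with hA
  set B := R.filter (fun W => !decide (¬∃ p ∈ W, V p)) with hB
  have hperm : R.Perm (A ++ B) := (List.filter_append_perm _ R).symm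
  have hsys := (h.sysA (wt D Ts t m Hd)).perm hperm
  obtain ⟨sA, sB⟩ := hsys.sep (U := V) hVμ (by
    intro W hW
    obtain ⟨k1, k2⟩ := List.mem_filter.1 hW
    simp only [Bool.not_eq_true', decide_eq_false_iff_not, not_not] at k2
    exact hword W k1 k2) (by
    intro W hW p hp hv
    rcases List.mem_append.1 hW with hW | hW
    · obtain ⟨-, C, hC, rfl⟩ := mem_BW hW
      exact hVD p (mem_passes.2 ⟨C, hC, hp⟩) hv
    · obtain ⟨-, k2⟩ := List.mem_filter.1 hW
      exact (of_decide_eq_true k2) ⟨p, hp, hv⟩)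
  have f := fun p w => h.four (Hd := Hd) hcv p w
  have h1 := (euler_D h.hinv f sA h.bw).1
  have hBne : B ≠ [] := by
    obtain ⟨d, hd, hu⟩ := hU
    obtain ⟨C, hC, hp⟩ := mem_passes.1 (pz_mem hd)
    have : C.1 ∈ B := by
      refine List.mem_filter.2 ⟨List.mem_map_of_mem hC, ?_⟩
      simp only [Bool.not_eq_true', decide_eq_false_iff_not, not_not]
      exact ⟨_, hp, (hV1 d hd).2 hu⟩
    exact List.ne_nil_of_mem this
  have h2 := (euler_D h.hinv f sB (fun b hb => absurd hb (by simp))).2 rfl hBne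
  have h3 := h.total Hd
  have h4 : (R.flatten.map (wt D Ts t m Hd)).sum = (A.flatten.map (wt D Ts t m Hd)).sum +
      (B.flatten.map (wt D Ts t m Hd)).sum := by
    rw [(hperm.flatten.map _).sum_eq, List.flatten_append, List.map_append, List.sum_append]
  have h5 : R.length = A.length + B.length := by
    rw [hperm.length_eq, List.length_append]
  have h6 : R.length = 3 * Ts.length := len_map Ts
  have h7 : (BW D).length ≠ 0 := fun e => bw_ne hne (List.eq_nil_of_length_eq_zero e)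
  rw [h4] at h3
  omega

theorem Stp.cfg (h : Stp D Ts t m) (hne : passes D ≠ []) : CF.Cfg Ts.length t (cz Ts m) where
  K3 := h.K3
  tK := h.tK
  rng := fun x _ => cz_rng x
  inv := fun x hx hc => h.cz_inv hx hc
  br := fun x hx hc => h.br hx hc
  ok := fun x hx hc hn => h.okk hx hc hn
  rc := h.rcc
  e1 := h.e1 hne
  e2 := h.e2 hne

end Pool.Agent.V11206
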