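import Pool.Agent.V11206.Elim
import Pool.Agent.Y874.TP2.Normal
import Pool.Agent.Y968.TP.Out

/-! Two opposite triple points annihilate. -/

set_option autoImplicit false

namespace Pool.Agent.V11206

open Pool.Agent.Y468.SR
open Pool.Agent.Y874.TP (colour NullV Tri TC Cyc passes_append' word4 mem_code)
open Pool.Agent.Y874.TP2 (part InvM CM)
open Pool.Agent.Y968.TP (Occ matching_iff VV val_VV VV_mk)

section
variable {G : Type} [Group G]

/-- the solution of an equation -/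
def sol (e : Bool) (p₂ q₁ q₂ : G) : G := if e then (q₂ * p₂ * q₁)⁻¹ else (q₁ * p₂ * q₂)⁻¹

/-- value of the word of a circle -/
def v4 (e : Bool) (p₁ p₂ q₁ q₂ : G) : G := if e then q₂ * p₂ * q₁ * p₁ else p₂ * q₂ * p₁ * q₁

theorem v4_sol (e : Bool) (p₂ q₁ q₂ : G) : v4 e (sol e p₂ q₁ q₂) p₂ q₁ q₂ = 1 := by
  cases e
  · simp only [v4, sol, Bool.false_eq_true, if_false]; group
  · simp only [v4, sol, if_true]; group

theorem v4_inv {e : Bool} {p₁ p₂ q₁ q₂ : G} (h : v4 e p₁ p₂ q₁ q₂ = 1) :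
    v4 (!e) p₁⁻¹ p₂⁻¹ q₁⁻¹ q₂⁻¹ = 1 := by
  cases e
  · simp only [v4, Bool.false_eq_true, if_false, Bool.not_false, if_true] at h ⊢
    have : q₂⁻¹ * p₂⁻¹ * q₁⁻¹ * p₁⁻¹ = (p₁ * q₁) * (p₂ * q₂ * p₁ * q₁)⁻¹ * (p₁ * q₁)⁻¹ := by group
    rw [this, h]; group
  · simp only [v4, if_true, Bool.not_true, Bool.false_eq_true, if_false] at h ⊢
    have : p₂⁻¹ * q₂⁻¹ * p₁⁻¹ * q₁⁻¹ = (q₁ * p₁) * (q₂ * p₂ * q₁ * p₁)⁻¹ * (q₁ * p₁)⁻¹ := by group
    rw [this, h]; group

theorem wval_word4 (o u : ℕ → G) (e : Bool) (p₁ p₂ q₁ q₂ : Pass) :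
    wval o u (word4 e p₁ p₂ q₁ q₂) = v4 e (val o u p₁) (val o u p₂) (val o u q₁) (val o u q₂) := by
  cases e
  · simp [word4, v4, mul_assoc]
  · simp [word4, v4, mul_assoc]

end

/-- the unattached pairs -/
def pairs (T T' : Tri) : List (ℕ × ℕ × Bool) :=
  [(T.a₁, T'.a₁, !T.sa), (T.a₂, T'.a₂, T.sa), (T.b₁, T'.b₁, !T.sb), (T.b₂, T'.b₂, T.sb),
    (T.c₁, T'.c₁, !T.sc), (T.c₂, T'.c₂, T.sc)]

/-- the second triple point is the mirror image of the first one -/
structure Mir (T T' : Tri) : Prop where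
  ta : T'.ta = T.ta
  tb : T'.tb = T.tb
  tc : T'.tc = T.tc
  sa : T'.sa = !T.sa
  sb : T'.sb = !T.sb
  sc : T'.sc = !T.sc
  ei : T'.ei = !T.ei
  ej : T'.ej = !T.ej
  ek : T'.ek = !T.ek

theorem pass_cases (c : ℕ) (l : Bool) (s : Bool) : (⟨c, l, s⟩ : Pass) = ⟨c, true, s⟩ ∨
    (⟨c, l, s⟩ : Pass) = ⟨c, false, s⟩ := by cases l <;> simp

theorem mem_pairs {T T' : Tri} (h : Mir T T') {q : Pass} :
    q ∈ PH (pairs T T') ↔ q ∈ passes T.code ∨ q ∈ passes T'.code := by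
  have key : ∀ (c : ℕ) (l s : Bool), (q = ⟨c, l, s⟩ ∨ q = (⟨c, l, s⟩ : Pass).mate) ↔
      (q = ⟨c, true, s⟩ ∨ q = ⟨c, false, s⟩) := by
    intro c l s
    cases l
    · exact or_comm
    · exact Iff.rfl
  have e1 : ∀ T : Tri, q ∈ passes T.code ↔ (q = T.pa₁ ∨ q = T.pa₁.mate) ∨
      (q = T.pa₂ ∨ q = T.pa₂.mate) ∨ (q = T.pb₁ ∨ q = T.pb₁.mate) ∨ (q = T.pb₂ ∨ q = T.pb₂.mate) ∨
      (q = T.pc₁ ∨ q = T.pc₁.mate) ∨ (q = T.pc₂ ∨ q = T.pc₂.mate) := by
    intro T
    rw [mem_code]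
    tauto
  rw [e1, e1]
  unfold Tri.pa₁ Tri.pa₂ Tri.pb₁ Tri.pb₂ Tri.pc₁ Tri.pc₂
  rw [key, key, key, key, key, key, key, key, key, key, key, key, h.sa, h.sb, h.sc]
  simp only [PH, pairs, ph, List.flatMap_cons, List.flatMap_nil, List.append_nil, List.mem_append,
    List.mem_cons, List.not_mem_nil, or_false, Bool.not_not]
  tauto

theorem code_length (T : Tri) : (passes T.code).length = 12 := by
  simp only [Tri.code, passes_cons, passes_nil, List.append_nil, List.length_append, Tri.wi, Tri.wj,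
    Tri.wk, word4]
  split_ifs <;> rfl

theorem pairs_perm {D O : Code} {T T' : Tri} (h : Mir T T')
    (hw : WF (passes (D ++ (T.code ++ (T'.code ++ O))))) :
    (passes (D ++ (T.code ++ (T'.code ++ O)))).Perm (passes (D ++ O) ++ PH (pairs T T')) := by
  have e0 : passes (D ++ (T.code ++ (T'.code ++ O))) =
      passes D ++ (passes T.code ++ (passes T'.code ++ passes O)) := by
    simp only [passes_append']
  have hn : (passes D ++ (passes T.code ++ (passes T'.code ++ passes O))).Nodup := by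
    rw [← e0]; exact WF.nodup hw
  have hn2 : (passes T.code ++ passes T'.code).Nodup := by
    have h1 := (List.nodup_append.1 hn).2.1
    rw [← List.append_assoc] at h1
    exact (List.nodup_append.1 h1).1
  have h2 : (passes T.code ++ passes T'.code).Perm (PH (pairs T T')) := by
    refine List.Subperm.perm_of_length_le (List.subperm_of_subset hn2 fun q hq => ?_) ?_
    · rw [mem_pairs h]; exact List.mem_append.1 hq
    · rw [List.length_append, code_length, code_length]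
      rfl
  rw [e0, passes_append']
  refine List.Perm.trans ?_ (List.Perm.append_left _ h2)
  rw [List.perm_iff_count]
  intro a
  simp only [List.count_append]
  omega

theorem annih {D O : Code} {T T' : Tri} {m : ℕ → ℕ} (h : Mir T T')
    (hw : WF (passes (D ++ (T.code ++ (T'.code ++ O)))))
    (hI : InvM (D ++ (T.code ++ (T'.code ++ O))) m) (ha : m T.a₁ = T'.a₁) (hb : m T.b₁ = T'.b₁)
    (hc : ∀ x ∈ pairs T T', colour x.1 = colour x.2.1) :
    WF (passes (D ++ O)) ∧ ∃ m', InvM (D ++ O) m' := by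
  have hperm := pairs_perm h hw
  have hw' : WF (passes (D ++ O) ++ PH (pairs T T')) := WF.perm hperm hw
  obtain ⟨hM, hC, hN⟩ := hI
  have hmem : ∀ r, r ∈ passes (D ++ O) ++ PH (pairs T T') ↔
      r ∈ passes (D ++ (T.code ++ (T'.code ++ O))) := fun r => hperm.symm.mem_iff
  refine elim (m := m) hw' ⟨?_, ?_, hc, ?_⟩
  · exact matching_congr (fun r => (hmem r).symm) hM
  · exact fun p hp => hC p ((hmem p).1 hp)
  intro G _ o u hv hco hcu b
  -- names
  have hocc : ∀ x ∈ pairs T T', ∀ l : Bool, (⟨x.1, l, x.2.2⟩ : Pass) ∈ PH (pairs T T') ∧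
      (⟨x.2.1, l, !x.2.2⟩ : Pass) ∈ PH (pairs T T') := by
    intro x hx l
    constructor
    · refine mem_PH hx ?_
      cases l <;> simp [ph]
    · refine mem_PH hx ?_
      cases l <;> simp [ph]
  have hnod : [T.a₁, T'.a₁, T.a₂, T'.a₂, T.b₁, T'.b₁, T.b₂, T'.b₂, T.c₁, T'.c₁, T.c₂, T'.c₂].Nodup := by
    have h1 := (List.nodup_append.1 (by simpa using hw'.2 : ((passes (D ++ O)).map
      (fun p => (p.crossing, p.isOver)) ++ (PH (pairs T T')).map
      (fun p => (p.crossing, p.isOver))).Nodup)).2.1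
    have h2 : ([(T.a₁, true), (T'.a₁, true), (T.a₂, true), (T'.a₂, true), (T.b₁, true),
        (T'.b₁, true), (T.b₂, true), (T'.b₂, true), (T.c₁, true), (T'.c₁, true), (T.c₂, true),
        (T'.c₂, true)]).Sublist ((PH (pairs T T')).map (fun p => (p.crossing, p.isOver))) := by
      simp only [PH, pairs, ph, List.flatMap_cons, List.flatMap_nil, List.append_nil,
        List.cons_append, List.nil_append, List.map_cons, List.map_nil]
      repeat (first | exact List.Sublist.slnil | apply List.Sublist.cons_cons |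
        apply List.Sublist.cons)
    have h3 := h1.sublist h2
    exact List.Nodup.of_map (fun c => (c, true)) h3
  simp only [List.nodup_cons, List.mem_cons, List.not_mem_nil, or_false, not_or, List.nodup_nil,
    and_true, not_false_eq_true] at hnod
  obtain ⟨⟨a1, a2, a3, a4, a5, a6, a7, a8, a9, a10, a11⟩, ⟨b2, b3, b4, b5, b6, b7, b8, b9, b10,
    b11⟩, ⟨c3, c4, c5, c6, c7, c8, c9, c10, c11⟩, ⟨d4, d5, d6, d7, d8, d9, d10, d11⟩, ⟨e5, e6, e7,
    e8, e9, e10, e11⟩, ⟨f6, f7, f8, f9, f10, f11⟩, -⟩ := hnod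
  -- the names do not occur elsewhere
  have hno : ∀ q ∈ passes (D ++ O), q.crossing ≠ T.a₁ ∧ q.crossing ≠ T'.a₁ ∧ q.crossing ≠ T.b₁ ∧
      q.crossing ≠ T'.b₁ := by
    intro q hq
    have hw'' : WF (PH (pairs T T') ++ passes (D ++ O)) := WF.perm List.perm_append_comm hw'
    have key : ∀ x ∈ pairs T T', q.crossing ≠ x.1 ∧ q.crossing ≠ x.2.1 := by
      intro x hx
      obtain ⟨h1, h2⟩ := hocc x hx true
      obtain ⟨h3, h4⟩ := hocc x hx false
      exact ⟨hw''.ne_crossing h1 h3 hq, hw''.ne_crossing h2 h4 hq⟩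
    obtain ⟨k1, k2⟩ := key (T.a₁, T'.a₁, !T.sa) (by simp [pairs])
    obtain ⟨k3, k4⟩ := key (T.b₁, T'.b₁, !T.sb) (by simp [pairs])
    exact ⟨k1, k2, k3, k4⟩
  have hinv : ∀ p ∈ passes (D ++ O) ++ PH (pairs T T'), m (m p.crossing) = p.crossing :=
    fun p hp => matching_invol hM ((hmem p).1 hp)
  have ha' : m T'.a₁ = T.a₁ := by
    rw [← ha]
    exact hinv ⟨T.a₁, true, !T.sa⟩ (List.mem_append_right _
      (hocc (T.a₁, T'.a₁, !T.sa) (by simp [pairs]) true).1)
  have hb' : m T'.b₁ = T.b₁ := by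
    rw [← hb]
    exact hinv ⟨T.b₁, true, !T.sb⟩ (List.mem_append_right _
      (hocc (T.b₁, T'.b₁, !T.sb) (by simp [pairs]) true).1)
  -- the new labels
  set V : ℕ → Bool → G := VV o u with hV
  set X : G := sol T.ei (V T.a₂ T.ta) 1 (V T.b₂ T.tb) with hX
  set X' : G := sol T.ej (V T.a₂ (!T.ta)) (V T.c₁ T.tc) (V T.c₂ T.tc) with hX'
  set Y' : G := sol T.ek (V T.b₂ (!T.tb)) (V T.c₁ (!T.tc)) (V T.c₂ (!T.tc)) with hY'
  set W : ℕ → Bool → G := Pool.Agent.Y968.TP.WW T.a₁ T.b₁ T'.a₁ T'.b₁ T.ta T.tb X X' 1 Y' V with hW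
  have Wo : ∀ c l, c ≠ T.a₁ → c ≠ T'.a₁ → c ≠ T.b₁ → c ≠ T'.b₁ → W c l = V c l := by
    intro c l h1 h2 h3 h4
    simp only [hW, Pool.Agent.Y968.TP.WW, if_neg h1, if_neg h2, if_neg h3, if_neg h4]
  have Wa : ∀ l, W T'.a₁ l = (W T.a₁ l)⁻¹ := by
    intro l
    simp only [hW, Pool.Agent.Y968.TP.WW, if_pos, if_neg (Ne.symm a1)]
    split_ifs <;> rfl
  have Wb : ∀ l, W T'.b₁ l = (W T.b₁ l)⁻¹ := by
    intro l
    simp only [hW, Pool.Agent.Y968.TP.WW, if_pos, if_neg (Ne.symm a4), if_neg (Ne.symm a5),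
      if_neg (Ne.symm b4), if_neg (Ne.symm b5), if_neg (Ne.symm e5)]
    split_ifs <;> rfl
  have Wa1 : W T.a₁ T.ta = X := by simp [hW, Pool.Agent.Y968.TP.WW]
  have Wa2 : W T.a₁ (!T.ta) = X' := by simp [hW, Pool.Agent.Y968.TP.WW]
  have Wb1 : W T.b₁ T.tb = 1 := by
    simp [hW, Pool.Agent.Y968.TP.WW, Ne.symm a4, Ne.symm b4]
  have Wb2 : W T.b₁ (!T.tb) = Y' := by
    simp [hW, Pool.Agent.Y968.TP.WW, Ne.symm a4, Ne.symm b4]
  have Vinv : ∀ x ∈ pairs T T', ∀ l, V x.2.1 l = (V x.1 l)⁻¹ := by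
    intro x hx l
    simp only [hV, VV]
    cases l
    · exact hcu x hx
    · exact hco x hx
  have hval : Valid (passes (D ++ (T.code ++ (T'.code ++ O)))) m (fun c => W c true)
      (fun c => W c false) := by
    intro p hp
    by_cases k1 : p.crossing = T.a₁
    · rw [k1, ha]
      exact ⟨fun h => absurd h.symm a1, fun _ => ⟨Wa _, Wa _⟩⟩
    by_cases k2 : p.crossing = T'.a₁
    · rw [k2, ha']
      refine ⟨fun h => absurd h a1, fun _ => ?_⟩
      simp only [Wa, inv_inv, and_self]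
    by_cases k3 : p.crossing = T.b₁
    · rw [k3, hb]
      exact ⟨fun h => absurd h.symm e5, fun _ => ⟨Wb _, Wb _⟩⟩
    by_cases k4 : p.crossing = T'.b₁
    · rw [k4, hb']
      refine ⟨fun h => absurd h e5, fun _ => ?_⟩
      simp only [Wb, inv_inv, and_self]
    have hi := hinv p ((hmem p).2 hp)
    have j1 : m p.crossing ≠ T.a₁ := fun h => k2 (by rw [← hi, h, ha])
    have j2 : m p.crossing ≠ T'.a₁ := fun h => k1 (by rw [← hi, h, ha'])
    have j3 : m p.crossing ≠ T.b₁ := fun h => k4 (by rw [← hi, h, hb])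
    have j4 : m p.crossing ≠ T'.b₁ := fun h => k3 (by rw [← hi, h, hb'])
    obtain ⟨v1, v2⟩ := hv p ((hmem p).2 hp)
    simp only [Wo _ _ k1 k2 k3 k4, Wo _ _ j1 j2 j3 j4]
    simpa [hV, VV] using And.intro v1 v2
  have h1 := hN G _ _ hval b
  have hE : ∀ C ∈ D ++ O, wval (fun c => W c true) (fun c => W c false) C.1 = wval o u C.1 := by
    intro C hC
    unfold wval
    congr 1
    refine List.map_congr_left fun q hq => ?_
    obtain ⟨k1, k2, k3, k4⟩ := hno q (mem_passes.2 ⟨C, hC, hq⟩)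
    rw [val_VV, VV_mk, Wo _ _ k1 k2 k3 k4, hV, val_VV]
  have hvD : vals (fun c => W c true) (fun c => W c false) D = vals o u D := by
    unfold vals
    exact List.map_congr_left fun C hC => by rw [hE C (by simp [hC])]
  have hvO : vals (fun c => W c true) (fun c => W c false) O = vals o u O := by
    unfold vals
    exact List.map_congr_left fun C hC => by rw [hE C (by simp [hC])]
  -- the circles
  have wT : wval (fun c => W c true) (fun c => W c false) T.wi = 1 ∧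
      wval (fun c => W c true) (fun c => W c false) T.wj = 1 ∧
      wval (fun c => W c true) (fun c => W c false) T.wk = 1 := by
    unfold Tri.wi Tri.wj Tri.wk
    simp only [wval_word4, val_VV, VV_mk, Tri.pa₁, Tri.pa₂, Tri.pb₁, Tri.pb₂, Tri.pc₁, Tri.pc₂,
      Pass.mate, Wa1, Wa2, Wb1, Wb2, Wo T.a₂ _ (Ne.symm a2) (Ne.symm b2) c4 c5,
      Wo T.b₂ _ (Ne.symm a6) (Ne.symm b6) (Ne.symm e6) (Ne.symm f6),
      Wo T.c₁ _ (Ne.symm a8) (Ne.symm b8) (Ne.symm e8) (Ne.symm f8),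
      Wo T.c₂ _ (Ne.symm a10) (Ne.symm b10) (Ne.symm e10) (Ne.symm f10)]
    exact ⟨v4_sol _ _ _ _, v4_sol _ _ _ _, v4_sol _ _ _ _⟩
  have wT' : wval (fun c => W c true) (fun c => W c false) T'.wi = 1 ∧
      wval (fun c => W c true) (fun c => W c false) T'.wj = 1 ∧
      wval (fun c => W c true) (fun c => W c false) T'.wk = 1 := by
    have i2 := fun l => Vinv (T.a₂, T'.a₂, T.sa) (by simp [pairs]) l
    have i4 := fun l => Vinv (T.b₂, T'.b₂, T.sb) (by simp [pairs]) l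
    have i5 := fun l => Vinv (T.c₁, T'.c₁, !T.sc) (by simp [pairs]) l
    have i6 := fun l => Vinv (T.c₂, T'.c₂, T.sc) (by simp [pairs]) l
    simp only at i2 i4 i5 i6
    unfold Tri.wi Tri.wj Tri.wk
    simp only [wval_word4, val_VV, VV_mk, Tri.pa₁, Tri.pa₂, Tri.pb₁, Tri.pb₂, Tri.pc₁, Tri.pc₂,
      Pass.mate, h.ta, h.tb, h.tc, h.ei, h.ej, h.ek, Wa, Wb, Wa1, Wa2, Wb1, Wb2,
      Wo T'.a₂ _ (Ne.symm a3) (Ne.symm b3) d4 d5,
      Wo T'.b₂ _ (Ne.symm a7) (Ne.symm b7) (Ne.symm e7) (Ne.symm f7),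
      Wo T'.c₁ _ (Ne.symm a9) (Ne.symm b9) (Ne.symm e9) (Ne.symm f9),
      Wo T'.c₂ _ (Ne.symm a11) (Ne.symm b11) (Ne.symm e11) (Ne.symm f11), i2, i4, i5, i6]
    exact ⟨v4_inv (v4_sol _ _ _ _), v4_inv (v4_sol _ _ _ _), v4_inv (v4_sol _ _ _ _)⟩
  have ones : ∀ T : Tri, (wval (fun c => W c true) (fun c => W c false) T.wi = 1 ∧
      wval (fun c => W c true) (fun c => W c false) T.wj = 1 ∧
      wval (fun c => W c true) (fun c => W c false) T.wk = 1) →
      ∀ g ∈ bv (vals (fun c => W c true) (fun c => W c false) T.code) b, g = 1 := by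
    rintro T ⟨t1, t2, t3⟩ g hg
    simp only [Tri.code, vals, List.map_cons, List.map_nil, t1, t2, t3, bv, List.mem_map,
      List.mem_filter, List.mem_cons, List.not_mem_nil, or_false] at hg
    obtain ⟨⟨g', b'⟩, ⟨h2, -⟩, rfl⟩ := hg
    rcases h2 with h2 | h2 | h2 <;> exact congrArg Prod.fst h2
  rw [vals_append, vals_append, vals_append, bv_append, bv_append, bv_append, hvD, hvO] at h1
  rw [vals_append, bv_append]
  have h2 := Pool.Agent.Y968.TP.cn_ones (ones T wT) h1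
  exact Pool.Agent.Y968.TP.cn_ones (ones T' wT') h2

end Pool.Agent.V11206
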