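import Pool.Agent.V11206.Node

/-! The root of the search. -/

set_option autoImplicit false

namespace Pool.Agent.V11206.CF

set_option linter.unusedVariables false
set_option linter.unusedSimpArgs false

variable {K t : ℕ} {c : ℕ → ℕ}

/-- the state `a` does not occur -/
def NR (K t : ℕ) (c : ℕ → ℕ) (a : Sta) : Prop :=
  ¬Rl K t c a.1 a.2.1 a.2.2.1 a.2.2.2.1 a.2.2.2.2.1 a.2.2.2.2.2.1 a.2.2.2.2.2.2

/-- the search from the state `a` -/
noncomputable def chk (K t : ℕ) (A : List Sta) (fuel : ℕ) (a : Sta) (cs : CS) : Bool :=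
  ok (srC K t (12 * K + 4) A fuel a.1 a.2.1 a.2.2.1 a.2.2.2.1 a.2.2.2.2.1 a.2.2.2.2.2.1
    a.2.2.2.2.2.2 cs)

theorem chk_sound {A : List Sta} {fuel : ℕ} {a : Sta} {cs : CS} (hC : Cfg K t c)
    (hA : ∀ b ∈ A, NR K t c b) (h : chk K t A fuel a cs = true) : NR K t c a := by
  intro R
  refine srC_sound hC rfl hA fuel _ _ _ _ _ _ _ cs ?_ R
  intro h2
  unfold chk ok at h
  rw [h2] at h
  exact absurd h (by simp)

/-- the test for the root -/
def rootOk (K t : ℕ) (a : Sta) : Bool :=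
  Nat.beq a.1 (2 ^ (6 * K) - 1) && Nat.beq a.2.1 0 && Nat.beq a.2.2.1 0 && Nat.beq a.2.2.2.1 0 &&
  (List.range (12 * K)).all (fun d => Nat.beq (enF a.2.2.2.2.1 d) (nx t d) &&
    Nat.beq (glF a.2.2.2.2.1 d) 1 &&
    Nat.beq (pvF a.2.2.2.2.1 d) (ptv false false 1 d (nx t d)) &&
    Nat.beq (g6 a.2.2.2.2.2.1 (nx t d)) d && Nat.ble (g6 a.2.2.2.2.2.1 d + 1) (12 * K) &&
    Nat.beq (nx t (g6 a.2.2.2.2.2.1 d)) d) &&
  Nat.ble (((List.range (12 * K)).map (pvF a.2.2.2.2.1)).sum) a.2.2.2.2.2.2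

theorem root_rl {a : Sta} (hC : Cfg K t c) (h : rootOk K t a = true) :
    Rl K t c a.1 a.2.1 a.2.2.1 a.2.2.2.1 a.2.2.2.2.1 a.2.2.2.2.2.1 a.2.2.2.2.2.2 := by
  obtain ⟨UD, LF, CM, RC, F, ST, W⟩ := a
  unfold rootOk at h
  simp only [Bool.and_eq_true, List.all_eq_true, List.mem_range] at h
  obtain ⟨⟨⟨⟨⟨h1, h2⟩, h3⟩, h4⟩, h5⟩, h6⟩ := h
  have e1 := Nat.eq_of_beq_eq_true h1
  have e2 := Nat.eq_of_beq_eq_true h2
  have e3 := Nat.eq_of_beq_eq_true h3
  have e4 := Nat.eq_of_beq_eq_true h4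
  have e6 := Nat.le_of_ble_eq_true h6
  subst e1 e2 e3 e4
  have hF : ∀ d < 12 * K, enF F d = nx t d ∧ glF F d = 1 ∧
      pvF F d = ptv false false 1 d (nx t d) ∧ g6 ST (nx t d) = d ∧ g6 ST d < 12 * K ∧
      nx t (g6 ST d) = d := by
    intro d hd
    obtain ⟨⟨⟨⟨⟨k1, k2⟩, k3⟩, k4⟩, k5⟩, k6⟩ := h5 d hd
    exact ⟨Nat.eq_of_beq_eq_true k1, Nat.eq_of_beq_eq_true k2, Nat.eq_of_beq_eq_true k3,
      Nat.eq_of_beq_eq_true k4, Nat.le_of_ble_eq_true k5, Nat.eq_of_beq_eq_true k6⟩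
  have hK := hC.K3
  have ht : t ≤ 3 := le_trans hC.tK hK
  have hac : ac K c (2 ^ (6 * K) - 1) = fun s => s < 12 * K := by
    funext s
    unfold ac
    rw [Nat.testBit_two_pow_sub_one]
    refine propext ⟨fun a => a.1, fun a => ⟨a, Or.inl ?_⟩⟩
    simp only [decide_eq_true_eq]; omega
  refine ⟨?_, ?_, ?_, ?_, ?_, ?_⟩
  · intro h hh
    rw [Nat.testBit_two_pow_sub_one] at hh
    simpa using hh
  · intro h hh h1
    rw [Nat.testBit_two_pow_sub_one] at h1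
    simp at h1; omega
  · intro h hh h1
    rw [Nat.testBit_two_pow_sub_one] at h1
    simp at h1; omega
  · intro h _
    show (0 >>> (6 * h)) &&& 63 = 0
    rw [Nat.zero_shiftRight, Nat.zero_and]
  · intro k hk
    simp at hk
  · rw [hac]
    refine ⟨[], ⟨?_, ?_, ?_, ?_, ?_, ?_, ?_, ?_⟩, ?_⟩
    · intro s hs
      rw [(hF s hs).1]
      exact ⟨hs, nx_lt hK ht hs, (hF s hs).2.2.2.1⟩
    · intro e he
      obtain ⟨-, -, -, -, k5, k6⟩ := hF e he
      refine ⟨he, k5, ?_⟩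
      rw [(hF _ k5).1]; exact k6
    · intro s hs
      rw [(hF s hs).1, (hF s hs).2.1]
      exact ⟨Pth.one s, Or.inl rfl, fun _ => rfl, fun h => absurd h (by norm_num)⟩
    · intro s hs
      rw [(hF s hs).1, (hF s hs).2.1, (hF s hs).2.2.1]
      simp
    · intro d hd
      simp at hd
    · intro x hx hl
      exact ⟨fun _ => (clo_eq hC hx hl).2.1, fun _ => hx⟩
    · exact fun x hx _ => ⟨hx, hx⟩
    · intro d hd
      exact Cv.ex (nx_lt hK ht hd)
    · have : sm K (fun s => s < 12 * K) (pvF F) =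
          ((List.range (12 * K)).map (pvF F)).sum := by
        unfold sm
        rw [← List.sum_toFinset _ List.nodup_range]
        rw [List.toFinset_range]
        refine Finset.sum_congr rfl fun x hx => ?_
        rw [if_pos (Finset.mem_range.1 hx)]
      rw [this]
      simpa using e6

theorem no_cfg {A : List Sta} {fuel : ℕ} {a : Sta} {cs : CS}
    (hA : ∀ c, Cfg K t c → ∀ b ∈ A, NR K t c b) (hr : rootOk K t a = true)
    (h : chk K t A fuel a cs = true) (c : ℕ → ℕ) : ¬Cfg K t c := fun hC =>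
  chk_sound hC (hA c hC) h (root_rl hC hr)

end Pool.Agent.V11206.CF
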