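import Pool.Agent.V11206.Single

/-! The double arcs joining different triple points form a forest. -/

set_option autoImplicit false

namespace Pool.Agent.V11206

open Pool.Agent.Y468.SR
open Pool.Agent.Y874.TP hiding InvM InvC CM CReid CStep SMovie Inv3
open Pool.Agent.Y874.TP2

/-- the names at some triple points -/
def Names (Ts : List Tri) (c : ℕ) : Prop := ∃ T ∈ Ts, Nam T c

/-- each triple point is joined by at most one arc to the later ones -/
def Fo (m : ℕ → ℕ) : List Tri → Prop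
  | [] => True
  | T :: Ts => Fo m Ts ∧
      ∀ c c', Nam T c → Nam T c' → Names Ts (m c) → Names Ts (m c') → c = c'

/-- the class -/
def PF (Ts : List Tri) (m : ℕ → ℕ) : Prop := (∀ T ∈ Ts, ∀ c, Nam T c → colour c = 0) ∧ Fo m Ts

/-- the names are different -/
def Dj : List Tri → Prop
  | [] => True
  | T :: Ts => Dj Ts ∧ (∀ x y, Nx T x y → x.crossing ≠ y.crossing) ∧ ∀ c, Nam T c → ¬Names Ts c

theorem names_pass {Ts : List Tri} {c : ℕ} (h : Names Ts c) : ∃ p ∈ passes (TC Ts), p.crossing = c := by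
  obtain ⟨T, hT, hc⟩ := h
  obtain ⟨p, hp, e⟩ := nam_pass hc
  obtain ⟨C, hC, hp⟩ := mem_passes.1 hp
  exact ⟨p, mem_passes.2 ⟨C, List.mem_flatMap.2 ⟨T, hT, hC⟩, hp⟩, e⟩

theorem pass_names {Ts : List Tri} {p : Pass} (h : p ∈ passes (TC Ts)) : Names Ts p.crossing := by
  obtain ⟨C, hC, hp⟩ := mem_passes.1 h
  obtain ⟨T, hT, hC⟩ := List.mem_flatMap.1 hC
  exact ⟨T, hT, nam_of (mem_passes.2 ⟨C, hC, hp⟩)⟩

theorem nx_ne {T : Tri} {P : List Pass} (hw : WF (passes T.code ++ P)) {x y : Pass} (h : Nx T x y) :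
    x.crossing ≠ y.crossing := by
  obtain ⟨T', -, e1, e2, hs⟩ := nf h
  have h1 : (passes T'.code ++ P).Perm (passes T.code ++ P) ∨ True := Or.inr trivial
  have hn := six_ne hw
  intro he
  have hN : [T'.a₁, T'.a₂, T'.b₁, T'.b₂, T'.c₁, T'.c₂].Perm [T.a₁, T.a₂, T.b₁, T.b₂, T.c₁, T.c₂] := by
    clear e1 e2 he hn h1 h
    induction hs with
    | refl => exact List.Perm.refl _
    | swapA _ ih =>
      refine List.Perm.trans ?_ ih
      exact List.Perm.swap _ _ _
    | @swapB T' _ ih =>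
      refine List.Perm.trans ?_ ih
      simp only [Tri.swapB]
      exact List.Perm.cons _ (List.Perm.cons _ (List.Perm.swap _ _ _))
    | @tij T' _ ih =>
      refine List.Perm.trans ?_ ih
      rw [List.perm_iff_count]
      intro a
      simp only [Tri.tij, List.count_cons, List.count_nil]
      omega
    | @tjk T' _ ih =>
      refine List.Perm.trans ?_ ih
      rw [List.perm_iff_count]
      intro a
      simp only [Tri.tjk, List.count_cons, List.count_nil]
      omega
  have hn' := hN.nodup_iff.2 hn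
  rw [e1, e2] at he
  have : T'.a₁ = T'.b₁ := he.symm
  rw [this] at hn'
  simp at hn'

theorem tc_cons (T : Tri) (Ts : List Tri) : TC (T :: Ts) = T.code ++ TC Ts := by
  simp [TC]

theorem dj_of {Ts : List Tri} : ∀ {D : Code}, WF (passes (D ++ TC Ts)) → Dj Ts := by
  induction Ts with
  | nil => intro D _; trivial
  | cons T Ts ih =>
    intro D hw
    rw [tc_cons] at hw
    refine ⟨ih (D := D ++ T.code) (by rw [List.append_assoc]; exact hw), ?_, ?_⟩
    · intro x y h
      exact nx_ne (WF.perm (code_perm0 D (TC Ts) T) hw) h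
    · rintro c hc hN
      obtain ⟨p, hp, rfl⟩ := nam_pass hc
      obtain ⟨q, hq, e⟩ := names_pass hN
      have hw' := WF.perm (code_perm0 D (TC Ts) T) hw
      refine hw'.ne_crossing hp (code_mate hp) (q := q) ?_ e
      rw [passes_append']
      exact List.mem_append_right _ hq

theorem names_cons {T : Tri} {Ts : List Tri} {c : ℕ} : Names (T :: Ts) c ↔ Nam T c ∨ Names Ts c := by
  unfold Names
  simp

theorem names_app {l₁ l₂ : List Tri} {c : ℕ} : Names (l₁ ++ l₂) c ↔ Names l₁ c ∨ Names l₂ c := by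
  unfold Names
  simp only [List.mem_append]
  constructor
  · rintro ⟨T, h | h, h'⟩
    · exact Or.inl ⟨T, h, h'⟩
    · exact Or.inr ⟨T, h, h'⟩
  · rintro (⟨T, h, h'⟩ | ⟨T, h, h'⟩)
    · exact ⟨T, Or.inl h, h'⟩
    · exact ⟨T, Or.inr h, h'⟩

theorem fo_congr {m m' : ℕ → ℕ} {Ts : List Tri} (h : ∀ c c', Names Ts c → Names Ts c' →
    (m' c = c' ↔ m c = c')) : Fo m Ts → Fo m' Ts := by
  induction Ts with
  | nil => intro _; trivial
  | cons T Ts ih =>
    rintro ⟨h1, h2⟩
    refine ⟨ih (fun c c' hc hc' => h c c' (names_cons.2 (Or.inr hc)) (names_cons.2 (Or.inr hc'))) h1,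
      ?_⟩
    intro c c' hc hc' k1 k2
    refine h2 c c' hc hc' ?_ ?_
    · rw [(h c _ (names_cons.2 (Or.inl hc)) (names_cons.2 (Or.inr k1))).1 rfl]; exact k1
    · rw [(h c' _ (names_cons.2 (Or.inl hc')) (names_cons.2 (Or.inr k2))).1 rfl]; exact k2

theorem fo_sub {m : ℕ → ℕ} {Ts' Ts : List Tri} (h : Ts'.Sublist Ts) : Fo m Ts → Fo m Ts' := by
  induction h with
  | slnil => exact id
  | cons T _ ih => exact fun h => ih h.1
  | @cons_cons l₁ l₂ T hs ih =>
    rintro ⟨h1, h2⟩
    refine ⟨ih h1, fun c c' hc hc' k1 k2 => h2 c c' hc hc' ?_ ?_⟩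
    · obtain ⟨T', hT', h⟩ := k1
      exact ⟨T', hs.subset hT', h⟩
    · obtain ⟨T', hT', h⟩ := k2
      exact ⟨T', hs.subset hT', h⟩

theorem part_cross (m : ℕ → ℕ) (x : Pass) : (part m x).crossing = m x.crossing := by
  unfold part
  split_ifs with h
  · exact h.symm
  · rfl

section mix
variable {T : Tri} {Ts : List Tri} {m : ℕ → ℕ}

theorem mix_head (hd : Dj (T :: Ts)) (hF : Fo m (T :: Ts)) {x y : Pass} (h : Nx T x y)
    {T₁ T₂ : Tri} (h₁ : T₁ ∈ Ts) (h₂ : T₂ ∈ Ts) (hx : part m x ∈ passes T₁.code)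
    (hy : part m y ∈ passes T₂.code) : False := by
  have k1 : Names Ts (m x.crossing) := by
    rw [← part_cross m]; exact ⟨T₁, h₁, nam_of hx⟩
  have k2 : Names Ts (m y.crossing) := by
    rw [← part_cross m]; exact ⟨T₂, h₂, nam_of hy⟩
  exact hd.2.1 x y h (hF.2 _ _ (nam_of (nx_mem h).1) (nam_of (nx_mem h).2) k1 k2)

theorem mix_tail (hd : Dj (T :: Ts)) (hd' : ∀ T₁ ∈ Ts, ∀ x y, Nx T₁ x y → x.crossing ≠ y.crossing)
    (hF : Fo m (T :: Ts)) (hinv : ∀ c, Names Ts c → m (m c) = c) {T₁ : Tri} (h₁ : T₁ ∈ Ts)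
    {x y : Pass} (h : Nx T₁ x y) (hx : part m x ∈ passes T.code) (hy : part m y ∈ passes T.code) :
    False := by
  have nx : Names Ts x.crossing := ⟨T₁, h₁, nam_of (nx_mem h).1⟩
  have ny : Names Ts y.crossing := ⟨T₁, h₁, nam_of (nx_mem h).2⟩
  have e1 := nam_of hx
  have e2 := nam_of hy
  rw [part_cross] at e1 e2
  have h3 := hF.2 _ _ e1 e2 (by rw [hinv _ nx]; exact nx) (by rw [hinv _ ny]; exact ny)
  refine hd' T₁ h₁ x y h ?_
  rw [← hinv _ nx, ← hinv _ ny, h3]

end mix

theorem dj_nx {Ts : List Tri} (hd : Dj Ts) : ∀ T ∈ Ts, ∀ x y, Nx T x y → x.crossing ≠ y.crossing := by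
  induction Ts with
  | nil => intro T hT; exact absurd hT (by simp)
  | cons T Ts ih =>
    intro T₁ hT₁
    rcases List.mem_cons.1 hT₁ with rfl | hT₁
    · exact hd.2.1
    · exact ih hd.1 T₁ hT₁

theorem bigon_one {Ts : List Tri} {m : ℕ → ℕ} (hd : Dj Ts) (hF : Fo m Ts)
    (hpp : ∀ x, Names Ts x.crossing → part m (part m x) = x)
    (hinv : ∀ c, Names Ts c → m (m c) = c) {p y : Pass}
    (h1 : ∃ T ∈ Ts, Nx T p y) (h2 : ∃ T ∈ Ts, Nx T (part m y) (part m p)) :
    ∃ T ∈ Ts, Nx T p y ∧ Nx T (part m y) (part m p) := by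
  induction Ts with
  | nil => obtain ⟨T, hT, -⟩ := h1; exact absurd hT (by simp)
  | cons T Ts ih =>
    obtain ⟨T₁, g1, n1⟩ := h1
    obtain ⟨T₂, g2, n2⟩ := h2
    have up : ∀ {c}, Names Ts c → Names (T :: Ts) c := fun h => names_cons.2 (Or.inr h)
    have q1 := hpp p (names_cons.2 (by
      rcases List.mem_cons.1 g1 with rfl | g1
      · exact Or.inl (nam_of (nx_mem n1).1)
      · exact Or.inr ⟨T₁, g1, nam_of (nx_mem n1).1⟩))
    have q2 := hpp y (names_cons.2 (by
      rcases List.mem_cons.1 g1 with rfl | g1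
      · exact Or.inl (nam_of (nx_mem n1).2)
      · exact Or.inr ⟨T₁, g1, nam_of (nx_mem n1).2⟩))
    rcases List.mem_cons.1 g1 with rfl | f1
    · rcases List.mem_cons.1 g2 with rfl | f2
      · exact ⟨_, by simp, n1, n2⟩
      · exact (mix_head hd hF n1 f2 f2 (nx_mem n2).2 (nx_mem n2).1).elim
    · rcases List.mem_cons.1 g2 with rfl | f2
      · exact (mix_tail hd (dj_nx hd.1) hF (fun c h => hinv c (up h)) f1 n1 (nx_mem n2).2
          (nx_mem n2).1).elim
      · obtain ⟨T', hT', h⟩ := ih hd.1 hF.1 (fun x h => hpp x (up h)) (fun c h => hinv c (up h))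
          ⟨T₁, f1, n1⟩ ⟨T₂, f2, n2⟩
        exact ⟨T', List.mem_cons_of_mem _ hT', h⟩

theorem tri_one {Ts : List Tri} {m : ℕ → ℕ} (hd : Dj Ts) (hF : Fo m Ts)
    (hpp : ∀ x, Names Ts x.crossing → part m (part m x) = x)
    (hinv : ∀ c, Names Ts c → m (m c) = c) {p y z : Pass}
    (h1 : ∃ T ∈ Ts, Nx T p y) (h2 : ∃ T ∈ Ts, Nx T (part m y) z)
    (h3 : ∃ T ∈ Ts, Nx T (part m z) (part m p)) :
    ∃ T ∈ Ts, Nx T p y ∧ Nx T (part m y) z ∧ Nx T (part m z) (part m p) := by
  induction Ts with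
  | nil => obtain ⟨T, hT, -⟩ := h1; exact absurd hT (by simp)
  | cons T Ts ih =>
    obtain ⟨T₁, g1, n1⟩ := h1
    obtain ⟨T₂, g2, n2⟩ := h2
    obtain ⟨T₃, g3, n3⟩ := h3
    have up : ∀ {c}, Names Ts c → Names (T :: Ts) c := fun h => names_cons.2 (Or.inr h)
    have nm : ∀ {T₁ : Tri} {x : Pass}, T₁ ∈ T :: Ts → x ∈ passes T₁.code →
        part m (part m x) = x := by
      intro T₁ x g h
      refine hpp x ?_
      rcases List.mem_cons.1 g with rfl | g
      · exact names_cons.2 (Or.inl (nam_of h))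
      · exact names_cons.2 (Or.inr ⟨T₁, g, nam_of h⟩)
    have q1 := nm g1 (nx_mem n1).1
    have q2 := nm g1 (nx_mem n1).2
    have q3 := nm g2 (nx_mem n2).2
    have i1 : ∀ c, Names Ts c → m (m c) = c := fun c h => hinv c (up h)
    have d1 := dj_nx hd.1
    rcases List.mem_cons.1 g1 with rfl | f1 <;> rcases List.mem_cons.1 g2 with rfl | f2 <;>
      rcases List.mem_cons.1 g3 with rfl | f3
    · exact ⟨_, by simp, n1, n2, n3⟩
    · exact (mix_tail hd d1 hF i1 f3 n3 (by rw [q3]; exact (nx_mem n2).2)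
        (by rw [q1]; exact (nx_mem n1).1)).elim
    · exact (mix_tail hd d1 hF i1 f2 n2 (by rw [q2]; exact (nx_mem n1).2) (nx_mem n3).1).elim
    · exact (mix_head hd hF n1 f3 f2 (nx_mem n3).2 (nx_mem n2).1).elim
    · exact (mix_tail hd d1 hF i1 f1 n1 (nx_mem n3).2 (nx_mem n2).1).elim
    · exact (mix_head hd hF n2 f1 f3 (by rw [q2]; exact (nx_mem n1).2) (nx_mem n3).1).elim
    · exact (mix_head hd hF n3 f2 f1 (by rw [q3]; exact (nx_mem n2).2)
        (by rw [q1]; exact (nx_mem n1).1)).elim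
    · obtain ⟨T', hT', h⟩ := ih hd.1 hF.1 (fun x h => hpp x (up h)) i1
          ⟨T₁, f1, n1⟩ ⟨T₂, f2, n2⟩ ⟨T₃, f3, n3⟩
      exact ⟨T', List.mem_cons_of_mem _ hT', h⟩

/-- the class is closed under the elimination of a triple point -/
theorem fo_tr {T : Tri} {l₂ : List Tri} {m m' : ℕ → ℕ} : ∀ {l₁ : List Tri},
    Dj (l₁ ++ T :: l₂) → Fo m (l₁ ++ T :: l₂) → (∀ c, Names (l₁ ++ T :: l₂) c → m (m c) = c) →
    (∀ c, Names (l₁ ++ l₂) c → m' c = m c ∨
      (Nam T (m c) ∧ (m' c = c ∨ ∃ y, Nam T y ∧ m' c = m y))) → Fo m' (l₁ ++ l₂) := by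
  intro l₁
  induction l₁ with
  | nil =>
    intro hd hF hinv htr
    simp only [List.nil_append] at hd hF hinv htr ⊢
    obtain ⟨hF1, hF2⟩ := hF
    -- arcs to later triple points do not change
    have key : ∀ c, Names l₂ c → Names l₂ (m' c) → m' c = m c ∨ m' c = c := by
      intro c hc hc'
      rcases htr c hc with h | ⟨h, h' | ⟨y, hy, h'⟩⟩
      · exact Or.inl h
      · exact Or.inr h'
      · right
        have h1 : Names l₂ (m (m c)) := by
          rw [hinv c (names_cons.2 (Or.inr hc))]; exact hc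
        have h2 := hF2 (m c) y h hy h1 (by rw [← h']; exact hc')
        rw [h', ← h2, hinv c (names_cons.2 (Or.inr hc))]
    have main : ∀ l, l.Sublist l₂ → Dj l → Fo m l → Fo m' l := by
      intro l
      induction l with
      | nil => intro _ _ _; trivial
      | cons T' l ih =>
        intro hs hdl hFl
        have hs' : l.Sublist l₂ := (List.sublist_cons_self T' l).trans hs
        refine ⟨ih hs' hdl.1 hFl.1, ?_⟩
        have k : ∀ c, Nam T' c → Names l (m' c) → Names l (m c) := by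
          intro c hc h
          have h1 : Names l₂ c := ⟨T', hs.subset (by simp), hc⟩
          have h2 : Names l₂ (m' c) := by
            obtain ⟨T₃, g, g'⟩ := h
            exact ⟨T₃, hs'.subset g, g'⟩
          rcases key c h1 h2 with h3 | h3
          · rw [← h3]; exact h
          · rw [h3] at h
            exact absurd h (hdl.2.2 c hc)
        intro c c' hc hc' k1 k2
        exact hFl.2 c c' hc hc' (k c hc k1) (k c' hc' k2)
    exact main l₂ (List.Sublist.refl _) hd.1 hF1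
  | cons T' l₁ ih =>
    intro hd hF hinv htr
    simp only [List.cons_append] at hd hF hinv htr ⊢
    have up : ∀ {c}, Names (l₁ ++ T :: l₂) c → Names (T' :: (l₁ ++ T :: l₂)) c :=
      fun h => names_cons.2 (Or.inr h)
    refine ⟨ih hd.1 hF.1 (fun c h => hinv c (up h))
      (fun c h => htr c (names_cons.2 (Or.inr h))), ?_⟩
    have k : ∀ c, Nam T' c → Names (l₁ ++ l₂) (m' c) → Names (l₁ ++ T :: l₂) (m c) := by
      intro c hc h
      rcases htr c (names_cons.2 (Or.inl hc)) with h1 | ⟨h1, -⟩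
      · rw [← h1]
        rw [names_app] at h ⊢
        rcases h with h | h
        · exact Or.inl h
        · exact Or.inr (names_cons.2 (Or.inr h))
      · rw [names_app]
        exact Or.inr (names_cons.2 (Or.inl h1))
    intro c c' hc hc' k1 k2
    exact hF.2 c c' hc hc' (k c hc k1) (k c' hc' k2)

theorem sameTri_nam {T' T : Tri} (h : SameTri T' T) (c : ℕ) : Nam T' c ↔ Nam T c := by
  obtain ⟨i, j, k, rfl⟩ := h
  rfl

theorem names_same {Ts' Ts : List Tri} (h : List.Forall₂ SameTri Ts' Ts) (c : ℕ) :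
    Names Ts' c ↔ Names Ts c := by
  induction h with
  | nil => exact Iff.rfl
  | cons h _ ih => rw [names_cons, names_cons, ih, sameTri_nam h]

theorem fo_same {Ts' Ts : List Tri} {m : ℕ → ℕ} (h : List.Forall₂ SameTri Ts' Ts) :
    Fo m Ts → Fo m Ts' := by
  induction h with
  | nil => exact id
  | @cons T' T Ts' Ts h hs ih =>
    rintro ⟨h1, h2⟩
    refine ⟨ih h1, fun c c' hc hc' k1 k2 => h2 c c' ((sameTri_nam h c).1 hc)
      ((sameTri_nam h c').1 hc') ((names_same hs _).1 k1) ((names_same hs _).1 k2)⟩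

theorem pf_cls : Cls PF where
  same := by
    rintro Ts' Ts m h ⟨h1, h2⟩
    refine ⟨fun T' hT' c hc => ?_, fo_same h h2⟩
    obtain ⟨T, hT, k⟩ := (names_same h c).1 ⟨T', hT', hc⟩
    exact h1 T hT c k
  del := by
    rintro l₁ T l₂ m m' ⟨h1, h2⟩ h3
    have hs : (l₁ ++ l₂).Sublist (l₁ ++ T :: l₂) :=
      List.Sublist.append (List.Sublist.refl _) (List.sublist_cons_self T l₂)
    refine ⟨fun T' hT' => h1 T' (hs.subset hT'), fo_congr ?_ (fo_sub hs h2)⟩
    intro c c' hc hc'
    obtain ⟨p, hp, rfl⟩ := names_pass hc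
    obtain ⟨q, hq, rfl⟩ := names_pass hc'
    exact h3 p hp q hq
  small := by
    rintro D Ts m - hw hok hm ⟨h1, h2⟩ hs
    have hd := dj_of hw
    have hin : ∀ x : Pass, Names Ts x.crossing → ∃ q ∈ passes (D ++ TC Ts), q.crossing = x.crossing := by
      intro x h
      obtain ⟨q, hq, e⟩ := names_pass h
      exact ⟨q, by rw [passes_append']; exact List.mem_append_right _ hq, e⟩
    have hinv : ∀ c, Names Ts c → m (m c) = c := by
      intro c h
      obtain ⟨q, hq, rfl⟩ := names_pass h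
      exact matching_invol hm.1 (by rw [passes_append']; exact List.mem_append_right _ hq)
    have hpp : ∀ x, Names Ts x.crossing → part m (part m x) = x := by
      intro x h
      have h3 := hinv _ h
      by_cases h4 : m x.crossing = x.crossing
      · have e : part m x = x.mate := by unfold part; rw [if_pos h4]
        rw [e]
        unfold part
        rw [if_pos (by exact h4)]
        simp
      · have e : part m x = ⟨m x.crossing, x.isOver, !x.isPos⟩ := by unfold part; rw [if_neg h4]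
        rw [e]
        unfold part
        rw [if_neg (by simp only; rw [h3]; exact fun h' => h4 h'.symm)]
        simp only [h3, Bool.not_not]
    have hone : ∃ T ∈ Ts, (∃ p, Nx T p (part m p)) ∨
        (∃ p y, Nx T p y ∧ Nx T (part m y) (part m p)) ∨
        ∃ p y z, Nx T p y ∧ Nx T (part m y) z ∧ Nx T (part m z) (part m p) := by
      rcases hs with ⟨p, k1⟩ | ⟨p, y, k1, k2⟩ | ⟨p, y, z, k1, k2, k3⟩
      · obtain ⟨T, hT, h⟩ := cor_TC k1
        exact ⟨T, hT, Or.inl ⟨p, h⟩⟩
      · obtain ⟨T, hT, h⟩ := bigon_one hd h2 hpp hinv (cor_TC k1) (cor_TC k2)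
        exact ⟨T, hT, Or.inr (Or.inl ⟨p, y, h⟩)⟩
      · obtain ⟨T, hT, h⟩ := tri_one hd h2 hpp hinv (cor_TC k1) (cor_TC k2) (cor_TC k3)
        exact ⟨T, hT, Or.inr (Or.inr ⟨p, y, z, h⟩)⟩
    obtain ⟨T, hT, hface⟩ := hone
    obtain ⟨l₁, l₂, rfl⟩ := List.append_of_mem hT
    have hperm : (D ++ TC (l₁ ++ T :: l₂)).Perm (D ++ (T.code ++ TC (l₁ ++ l₂))) := by
      refine List.Perm.append_left _ ?_
      simp only [TC, List.flatMap_append, List.flatMap_cons]
      rw [← List.append_assoc, ← List.append_assoc]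
      exact List.Perm.append_right _ List.perm_append_comm
    have hS : Sit D (TC (l₁ ++ l₂)) T m :=
      ⟨WF.perm (passes_perm hperm) hw, Pool.Agent.Y874.TP2.invM_perm hperm hm, (hok T hT).1,
        h1 T hT⟩
    obtain ⟨g1, m', g2, g3⟩ := single_red hS hface
    refine ⟨l₁ ++ l₂, by simp, g1, ?_, m', g2, ?_, ?_⟩
    · intro T' hT'
      refine hok T' ?_
      simp only [List.mem_append, List.mem_cons] at hT' ⊢
      tauto
    · intro T' hT'
      refine h1 T' ?_
      simp only [List.mem_append, List.mem_cons] at hT' ⊢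
      tauto
    · refine fo_tr hd h2 hinv ?_
      intro c hc
      obtain ⟨q, hq, rfl⟩ := names_pass hc
      exact g3 _ ⟨q, by rw [passes_append']; exact List.mem_append_right _ hq, rfl⟩

end Pool.Agent.V11206
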