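import Pool.Agent.V11206.Moves
import Mathlib.GroupTheory.SpecificGroups.Dihedral

/-! The two ends of a double curve at a triple point are not joined with one another. -/

set_option autoImplicit false

namespace Pool.Agent.V11206

open Pool.Agent.Y468.SR
open Pool.Agent.Y874.TP (colour NullV Tri TC Cyc passes_append' word4 mem_code exists_bound wf_ceq)
open Pool.Agent.Y874.TP2 (part InvM CM)
open Pool.Agent.Y761.TP2 (uniq side part_mem)

def X4 : DihedralGroup 4 := .sr 0
def Y4 : DihedralGroup 4 := .sr 1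

theorem x4_inv : X4⁻¹ = X4 := by decide
theorem y4_inv : Y4⁻¹ = Y4 := by decide
theorem y4_sq : Y4 * Y4 = 1 := by decide
theorem z4_val (e : Bool) : v4 e X4 X4 Y4 Y4 = .r 2 := by cases e <;> decide
theorem z4_conj : ∀ g : DihedralGroup 4, (.r 2 : DihedralGroup 4) * (g * 1 * g⁻¹ * 1) ≠ 1 ∧
    (.r 2 : DihedralGroup 4) * (g * Y4 * g⁻¹ * 1) ≠ 1 := by decide

theorem y4_pow (n : ℕ) : Y4 ^ n = 1 ∨ Y4 ^ n = Y4 := by
  induction n with
  | zero => left; simp
  | succ n ih =>
    rw [pow_succ]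
    rcases ih with h | h <;> rw [h]
    · right; simp
    · left; exact y4_sq

theorem parity_a {D O : Code} {T : Tri} {m : ℕ → ℕ} (hn : (D.map Prod.snd).Nodup)
    (hw : WF (passes (D ++ (T.code ++ O)))) (hM : Matching (passes (D ++ (T.code ++ O))) m)
    (hN : NullV (D ++ (T.code ++ O)) m) (h4 : ∀ C ∈ O, C.1.length = 4) : m T.a₁ ≠ T.a₂ := by
  classical
  intro ha
  have hnod := six_ne (WF.perm (code_perm0 D O T) hw)
  simp only [List.nodup_cons, List.mem_cons, List.not_mem_nil, or_false, not_or, List.nodup_nil,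
    and_true, not_false_eq_true] at hnod
  obtain ⟨⟨n12, n13, n14, n15, n16⟩, ⟨n23, n24, n25, n26⟩, ⟨n34, n35, n36⟩, ⟨n45, n46⟩, n56⟩ := hnod
  set P := passes (D ++ (T.code ++ O)) with hP
  have memT : ∀ p ∈ passes T.code, p ∈ P := fun p hp =>
    (code_perm0 D O T).symm.subset (List.mem_append_left _ hp)
  have m1 : T.pa₁ ∈ passes T.code := by rw [mem_code]; simp
  have m2 : T.pa₂ ∈ passes T.code := by rw [mem_code]; simp
  have e1 : part m T.pa₁ = T.pa₂ := by
    unfold part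
    rw [if_neg (by show m T.a₁ ≠ T.a₁; rw [ha]; exact Ne.symm n12)]
    unfold Tri.pa₁ Tri.pa₂
    simp only [ha, Bool.not_not]
  have e2 : part m T.pa₂ = T.pa₁ := by
    rw [← e1, part_part hM (memT _ m1)]
  obtain ⟨F, hF⟩ : ∃ F : Pass → DihedralGroup 4, F = fun p => if p = T.pa₁ ∨ p = T.pa₂ then X4 else Y4 :=
    ⟨_, rfl⟩
  have hFv : ∀ p ∈ P, F (part m p) = (F p)⁻¹ := by
    intro p hp
    rw [hF]
    simp only
    by_cases h : p = T.pa₁ ∨ p = T.pa₂
    · have h' : part m p = T.pa₁ ∨ part m p = T.pa₂ := by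
        rcases h with rfl | rfl
        · exact Or.inr e1
        · exact Or.inl e2
      rw [if_pos h, if_pos h', x4_inv]
    · have h' : ¬(part m p = T.pa₁ ∨ part m p = T.pa₂) := by
        rintro (h1 | h1)
        · exact h (Or.inr (by rw [← part_part hM hp, h1, e1]))
        · exact h (Or.inl (by rw [← part_part hM hp, h1, e2]))
      rw [if_neg h, if_neg h', y4_inv]
  have hval := hN _ _ _ (valid_lbl hw hM hFv) T.li
  have hwv : ∀ C ∈ D ++ (T.code ++ O), wval (lbl P F true) (lbl P F false) C.1 = (C.1.map F).prod :=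
    fun C hC => wval_lbl hw F C.1 fun p hp => mem_passes.2 ⟨C, hC, hp⟩
  have hY : ∀ W : List Pass, (∀ p ∈ W, p ≠ T.pa₁ ∧ p ≠ T.pa₂) → (W.map F).prod = Y4 ^ W.length := by
    intro W hW
    have : W.map F = List.replicate W.length Y4 := by
      rw [List.eq_replicate_iff]
      refine ⟨by simp, fun y hy => ?_⟩
      obtain ⟨p, hp, rfl⟩ := List.mem_map.1 hy
      rw [hF]
      simp only
      rw [if_neg]
      rintro (h | h)
      · exact (hW p hp).1 h
      · exact (hW p hp).2 h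
    rw [this, List.prod_replicate]
  have hsep : ∀ p ∈ passes (D ++ O), p ≠ T.pa₁ ∧ p ≠ T.pa₂ := by
    intro p hp
    have hw' := WF.perm (code_perm0 D O T) hw
    constructor
    · rintro rfl
      exact hw'.ne_crossing m1 (code_mate m1) hp rfl
    · rintro rfl
      exact hw'.ne_crossing m2 (code_mate m2) hp rfl
  -- values of the other words
  have hO : ∀ g ∈ bv (vals (lbl P F true) (lbl P F false) O) T.li, g = 1 := by
    intro g hg
    simp only [bv, vals, List.mem_map, List.mem_filter] at hg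
    obtain ⟨x, ⟨⟨C, hC, rfl⟩, -⟩, rfl⟩ := hg
    simp only
    rw [hwv C (by simp [hC]), hY C.1 (fun p hp => hsep p (mem_passes.2 ⟨C, by simp [hC], hp⟩)), h4 C hC]
    decide
  have hD : ∀ g ∈ bv (vals (lbl P F true) (lbl P F false) D) T.li, g = 1 ∨ g = Y4 := by
    intro g hg
    simp only [bv, vals, List.mem_map, List.mem_filter] at hg
    obtain ⟨x, ⟨⟨C, hC, rfl⟩, -⟩, rfl⟩ := hg
    simp only
    rw [hwv C (by simp [hC]), hY C.1 (fun p hp => hsep p (mem_passes.2 ⟨C, by simp [hC], hp⟩))]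
    exact y4_pow _
  have hDl : (bv (vals (lbl P F true) (lbl P F false) D) T.li).length ≤ 1 := by
    by_cases h : ∃ C ∈ D, C.2 = T.li
    · obtain ⟨C, hC, h⟩ := h
      rw [← h, bv_vals_singleton hn hC]
      simp
    · push Not at h
      rw [bv_vals_nil h]
      simp
  -- the circles of the triple point
  have wI : (T.wi.map F).prod = .r 2 := by
    rw [← wval_lbl hw F T.wi (fun p hp => mem_passes.2 ⟨(T.wi, T.li), by simp [Tri.code], hp⟩)]
    unfold Tri.wi
    rw [wval_word4, val_lbl hw F (memT _ m1), val_lbl hw F (memT _ m2),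
      val_lbl hw F (memT T.pb₁ (by rw [mem_code]; simp)),
      val_lbl hw F (memT T.pb₂ (by rw [mem_code]; simp))]
    have f1 : F T.pa₁ = X4 := by rw [hF]; simp
    have f2 : F T.pa₂ = X4 := by rw [hF]; simp
    have g1 : T.pb₁ ≠ T.pa₁ ∧ T.pb₁ ≠ T.pa₂ :=
      ⟨fun h => n13 (congrArg Pass.crossing h).symm, fun h => n23 (congrArg Pass.crossing h).symm⟩
    have g2 : T.pb₂ ≠ T.pa₁ ∧ T.pb₂ ≠ T.pa₂ :=
      ⟨fun h => n14 (congrArg Pass.crossing h).symm, fun h => n24 (congrArg Pass.crossing h).symm⟩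
    have f3 : F T.pb₁ = Y4 := by rw [hF]; simp [g1.1, g1.2]
    have f4 : F T.pb₂ = Y4 := by rw [hF]; simp [g2.1, g2.2]
    rw [f1, f2, f3, f4]
    exact z4_val _
  have k1 : T.pa₁.mate ≠ T.pa₁ ∧ T.pa₁.mate ≠ T.pa₂ :=
    ⟨fun h => by simpa using congrArg Pass.isOver h, fun h => n12 (congrArg Pass.crossing h)⟩
  have k2 : T.pa₂.mate ≠ T.pa₁ ∧ T.pa₂.mate ≠ T.pa₂ :=
    ⟨fun h => n12 (congrArg Pass.crossing h).symm, fun h => by simpa using congrArg Pass.isOver h⟩
  have kn : ∀ p : Pass, p.crossing ≠ T.a₁ → p.crossing ≠ T.a₂ → p ≠ T.pa₁ ∧ p ≠ T.pa₂ :=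
    fun p h1 h2 => ⟨fun h => h1 (congrArg Pass.crossing h), fun h => h2 (congrArg Pass.crossing h)⟩
  have wlen : ∀ (e : Bool) (p₁ p₂ q₁ q₂ : Pass), (word4 e p₁ p₂ q₁ q₂).length = 4 := by
    intro e p₁ p₂ q₁ q₂; cases e <;> rfl
  have wmem : ∀ (e : Bool) (p₁ p₂ q₁ q₂ p : Pass), p ∈ word4 e p₁ p₂ q₁ q₂ →
      p = p₁ ∨ p = p₂ ∨ p = q₁ ∨ p = q₂ := by
    intro e p₁ p₂ q₁ q₂ p h
    cases e <;> simp [word4] at h <;> tauto
  have y44 : Y4 ^ 4 = 1 := by decide
  have wJ : (T.wj.map F).prod = 1 := by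
    rw [hY T.wj]
    · unfold Tri.wj; rw [wlen, y44]
    · intro p hp
      rcases wmem _ _ _ _ _ _ hp with rfl | rfl | rfl | rfl
      · exact k1
      · exact k2
      · exact kn _ (Ne.symm n15) (Ne.symm n25)
      · exact kn _ (Ne.symm n16) (Ne.symm n26)
  have wK : (T.wk.map F).prod = 1 := by
    rw [hY T.wk]
    · unfold Tri.wk; rw [wlen, y44]
    · intro p hp
      rcases wmem _ _ _ _ _ _ hp with rfl | rfl | rfl | rfl
      · exact kn _ (Ne.symm n13) (Ne.symm n23)
      · exact kn _ (Ne.symm n14) (Ne.symm n24)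
      · exact kn _ (Ne.symm n15) (Ne.symm n25)
      · exact kn _ (Ne.symm n16) (Ne.symm n26)
  have hT : ∃ L, bv (vals (lbl P F true) (lbl P F false) T.code) T.li = .r 2 :: L ∧
      ∀ g ∈ L, g = 1 := by
    have v1 := hwv (T.wi, T.li) (by simp [Tri.code])
    have v2 := hwv (T.wj, T.lj) (by simp [Tri.code])
    have v3 := hwv (T.wk, T.lk) (by simp [Tri.code])
    simp only at v1 v2 v3
    refine ⟨bv [((1 : DihedralGroup 4), T.lj), (1, T.lk)] T.li, ?_, ?_⟩
    · unfold Tri.code vals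
      simp only [List.map_cons, List.map_nil, v1, v2, v3, wI, wJ, wK]
      rw [bv_cons, if_pos rfl]
    · intro g hg
      simp only [bv, List.mem_map, List.mem_filter, List.mem_cons, List.not_mem_nil, or_false] at hg
      obtain ⟨x, ⟨h | h, -⟩, rfl⟩ := hg <;> rw [h]
  obtain ⟨L, hL, hL1⟩ := hT
  rw [vals_append, vals_append, bv_append, bv_append, hL] at hval
  -- the product
  have key : ∀ (A B : List (DihedralGroup 4)), A.length ≤ 1 → (∀ g ∈ A, g = 1 ∨ g = Y4) →
      (∀ g ∈ B, g = 1) → ¬CN (.r 2 :: (A ++ B)) := by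
    intro A B hA hA1 hB h
    rcases A with _ | ⟨a, _ | ⟨a', A⟩⟩
    · have := Pool.Agent.Y874.TP.cn_ones hB h
      revert this; decide
    · have h1 : CN (.r 2 :: a :: B) := h
      have h2 : CN ([.r 2, a] : List (DihedralGroup 4)) := by
        clear h hA
        induction B with
        | nil => exact h1
        | cons y B ih =>
          have hy := hB y (by simp)
          subst hy
          refine ih (fun z hz => hB z (by simp [hz])) (CN.one_cons.1 (h1.perm ?_))
          exact (List.Perm.cons _ (List.Perm.swap _ _ _)).trans (List.Perm.swap _ _ _)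
      obtain ⟨r, h3, h4⟩ := h2.head
      cases h3 with
      | cons _ g r _ h5 =>
        cases h5
        rcases hA1 a (by simp) with rfl | rfl
        · exact (z4_conj g).1 h4
        · exact (z4_conj g).2 h4
    · simp at hA
  refine key _ (L ++ bv (vals (lbl P F true) (lbl P F false) O) T.li) hDl hD (fun g hg => ?_)
    (CN.perm ?_ hval)
  · rcases List.mem_append.1 hg with h | h
    · exact hL1 g h
    · exact hO g h
  · exact List.perm_middle

/-- the six pairs -/
theorem parity_all {D O : Code} {T : Tri} {m : ℕ → ℕ} (hn : (D.map Prod.snd).Nodup)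
    (hw : WF (passes (D ++ (T.code ++ O)))) (hI : InvM (D ++ (T.code ++ O)) m)
    (h4 : ∀ C ∈ O, C.1.length = 4) : m T.a₁ ≠ T.a₂ ∧ m T.b₁ ≠ T.b₂ ∧ m T.c₁ ≠ T.c₂ := by
  have key : ∀ T' : Tri, Sy T T' → m T'.a₁ ≠ T'.a₂ := by
    intro T' hs
    have hI' := Pool.Agent.Y874.TP2.invM_ceq (D := D) (O := O) hs.ceq hI
    exact parity_a hn (wf_ceq hs.ceq hw) hI'.1 hI'.2.2 h4
  exact ⟨key T Sy.refl, key _ (Sy.tjk Sy.refl), key _ (Sy.tjk (Sy.tij Sy.refl))⟩

end Pool.Agent.V11206
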