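import Pool.Agent.V11206.Moves

/-! Small faces with corners at one triple point only. -/

set_option autoImplicit false

namespace Pool.Agent.V11206

open Pool.Agent.Y468.SR
open Pool.Agent.Y874.TP (colour NullV Tri TC Cyc passes_append' word4 mem_code)
open Pool.Agent.Y874.TP2 (part InvM CM)

set_option linter.unusedSimpArgs false
set_option linter.unusedVariables false

inductive Ix
  | a1 | a2 | b1 | b2 | c1 | c2
  deriving DecidableEq

def nmT (T : Tri) : Ix → ℕ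
  | .a1 => T.a₁ | .a2 => T.a₂ | .b1 => T.b₁ | .b2 => T.b₂ | .c1 => T.c₁ | .c2 => T.c₂

def sgv (sa sb sc : Bool) : Ix → Bool
  | .a1 => !sa | .a2 => sa | .b1 => !sb | .b2 => sb | .c1 => !sc | .c2 => sc

/-- the passages of the circles -/
def ps (T : Tri) (i : Ix) (l : Bool) : Pass := ⟨nmT T i, l, sgv T.sa T.sb T.sc i⟩

/-- the next passage of the circle -/
def nxt (ta tb tc ei ej ek : Bool) (i : Ix) (l : Bool) : Ix × Bool :=
  match i with
  | .a1 => if l == ta then (if ei then .b2 else .b1, tb) else (if ej then .c2 else .c1, tc)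
  | .a2 => if l == ta then (if ei then .b1 else .b2, tb) else (if ej then .c1 else .c2, tc)
  | .b1 => if l == tb then (if ei then .a1 else .a2, ta) else (if ek then .c2 else .c1, !tc)
  | .b2 => if l == tb then (if ei then .a2 else .a1, ta) else (if ek then .c1 else .c2, !tc)
  | .c1 => if l == tc then (if ej then .a1 else .a2, !ta) else (if ek then .b1 else .b2, !tb)
  | .c2 => if l == tc then (if ej then .a2 else .a1, !ta) else (if ek then .b2 else .b1, !tb)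

def nT (T : Tri) (i : Ix) (l : Bool) : Ix × Bool := nxt T.ta T.tb T.tc T.ei T.ej T.ek i l

theorem nx_nxt {T : Tri} {x y : Pass} (h : Nx T x y) :
    ∃ i l, x = ps T i l ∧ y = ps T (nT T i l).1 (nT T i l).2 := by
  obtain ⟨W, hW, h⟩ := h
  have h : Cyc x y W := h
  simp only [List.mem_cons, List.not_mem_nil, or_false] at hW
  rcases hW with rfl | rfl | rfl
  · unfold Tri.wi word4 at h
    split_ifs at h with he <;> rcases Tri.cyc4 h with ⟨rfl, rfl⟩ | ⟨rfl, rfl⟩ | ⟨rfl, rfl⟩ | ⟨rfl, rfl⟩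
    · exact ⟨.b2, T.tb, rfl, by simp [nT, nxt, he, ps, nmT, sgv, Tri.pa₂]⟩
    · exact ⟨.a2, T.ta, rfl, by simp [nT, nxt, he, ps, nmT, sgv, Tri.pb₁]⟩
    · exact ⟨.b1, T.tb, rfl, by simp [nT, nxt, he, ps, nmT, sgv, Tri.pa₁]⟩
    · exact ⟨.a1, T.ta, rfl, by simp [nT, nxt, he, ps, nmT, sgv, Tri.pb₂]⟩
    · exact ⟨.a2, T.ta, rfl, by simp [nT, nxt, he, ps, nmT, sgv, Tri.pb₂]⟩
    · exact ⟨.b2, T.tb, rfl, by simp [nT, nxt, he, ps, nmT, sgv, Tri.pa₁]⟩
    · exact ⟨.a1, T.ta, rfl, by simp [nT, nxt, he, ps, nmT, sgv, Tri.pb₁]⟩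
    · exact ⟨.b1, T.tb, rfl, by simp [nT, nxt, he, ps, nmT, sgv, Tri.pa₂]⟩
  · unfold Tri.wj word4 at h
    split_ifs at h with he <;> rcases Tri.cyc4 h with ⟨rfl, rfl⟩ | ⟨rfl, rfl⟩ | ⟨rfl, rfl⟩ | ⟨rfl, rfl⟩
    · exact ⟨.c2, T.tc, rfl, by simp [nT, nxt, he, ps, nmT, sgv, Tri.pa₂, Pass.mate]⟩
    · exact ⟨.a2, !T.ta, rfl, by simp [nT, nxt, he, ps, nmT, sgv, Tri.pc₁]⟩
    · exact ⟨.c1, T.tc, rfl, by simp [nT, nxt, he, ps, nmT, sgv, Tri.pa₁, Pass.mate]⟩
    · exact ⟨.a1, !T.ta, rfl, by simp [nT, nxt, he, ps, nmT, sgv, Tri.pc₂]⟩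
    · exact ⟨.a2, !T.ta, rfl, by simp [nT, nxt, he, ps, nmT, sgv, Tri.pc₂]⟩
    · exact ⟨.c2, T.tc, rfl, by simp [nT, nxt, he, ps, nmT, sgv, Tri.pa₁, Pass.mate]⟩
    · exact ⟨.a1, !T.ta, rfl, by simp [nT, nxt, he, ps, nmT, sgv, Tri.pc₁]⟩
    · exact ⟨.c1, T.tc, rfl, by simp [nT, nxt, he, ps, nmT, sgv, Tri.pa₂, Pass.mate]⟩
  · unfold Tri.wk word4 at h
    split_ifs at h with he <;> rcases Tri.cyc4 h with ⟨rfl, rfl⟩ | ⟨rfl, rfl⟩ | ⟨rfl, rfl⟩ | ⟨rfl, rfl⟩
    · exact ⟨.c2, !T.tc, rfl, by simp [nT, nxt, he, ps, nmT, sgv, Tri.pb₂, Pass.mate]⟩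
    · exact ⟨.b2, !T.tb, rfl, by simp [nT, nxt, he, ps, nmT, sgv, Tri.pc₁, Pass.mate]⟩
    · exact ⟨.c1, !T.tc, rfl, by simp [nT, nxt, he, ps, nmT, sgv, Tri.pb₁, Pass.mate]⟩
    · exact ⟨.b1, !T.tb, rfl, by simp [nT, nxt, he, ps, nmT, sgv, Tri.pc₂, Pass.mate]⟩
    · exact ⟨.b2, !T.tb, rfl, by simp [nT, nxt, he, ps, nmT, sgv, Tri.pc₂, Pass.mate]⟩
    · exact ⟨.c2, !T.tc, rfl, by simp [nT, nxt, he, ps, nmT, sgv, Tri.pb₁, Pass.mate]⟩
    · exact ⟨.b1, !T.tb, rfl, by simp [nT, nxt, he, ps, nmT, sgv, Tri.pc₁, Pass.mate]⟩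
    · exact ⟨.c1, !T.tc, rfl, by simp [nT, nxt, he, ps, nmT, sgv, Tri.pb₂, Pass.mate]⟩

theorem cadj_w4 (e : Bool) (p₁ p₂ q₁ q₂ : Pass) :
    CAdj (word4 e p₁ p₂ q₁ q₂) p₁ (if e then q₂ else q₁) ∧
    CAdj (word4 e p₁ p₂ q₁ q₂) p₂ (if e then q₁ else q₂) ∧
    CAdj (word4 e p₁ p₂ q₁ q₂) q₁ (if e then p₁ else p₂) ∧
    CAdj (word4 e p₁ p₂ q₁ q₂) q₂ (if e then p₂ else p₁) := by
  cases e
  · simp only [word4, Bool.false_eq_true, if_false]
    exact ⟨.inl ⟨[p₂, q₂], [], rfl⟩, .inl ⟨[], [p₁, q₁], rfl⟩, .inr ⟨[q₂, p₁], rfl⟩,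
      .inl ⟨[p₂], [q₁], rfl⟩⟩
  · simp only [word4, if_true]
    exact ⟨.inr ⟨[p₂, q₁], rfl⟩, .inl ⟨[q₂], [p₁], rfl⟩, .inl ⟨[q₂, p₂], [], rfl⟩,
      .inl ⟨[], [q₁, p₁], rfl⟩⟩

theorem nxt_nx (T : Tri) (i : Ix) (l : Bool) : Nx T (ps T i l) (ps T (nT T i l).1 (nT T i l).2) := by
  have hl : ∀ t : Bool, l = t ∨ l = !t := by
    intro t; cases l <;> cases t <;> simp
  have hn : ∀ t : Bool, ((!t) == t) = false := by intro t; cases t <;> rfl
  obtain ⟨i1, i2, i3, i4⟩ := cadj_w4 T.ei T.pa₁ T.pa₂ T.pb₁ T.pb₂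
  obtain ⟨j1, j2, j3, j4⟩ := cadj_w4 T.ej T.pa₁.mate T.pa₂.mate T.pc₁ T.pc₂
  obtain ⟨k1, k2, k3, k4⟩ := cadj_w4 T.ek T.pb₁.mate T.pb₂.mate T.pc₁.mate T.pc₂.mate
  cases i
  · have e1 : ps T (nT T .a1 T.ta).1 (nT T .a1 T.ta).2 = (if T.ei then T.pb₂ else T.pb₁) := by
      cases h : T.ei <;> simp [nT, nxt, ps, nmT, sgv, h, Tri.pa₁, Tri.pa₂, Tri.pb₁, Tri.pb₂,
        Tri.pc₁, Tri.pc₂, Pass.mate]
    have e2 : ps T (nT T .a1 (!T.ta)).1 (nT T .a1 (!T.ta)).2 = (if T.ej then T.pc₂ else T.pc₁) := by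
      cases h : T.ej <;> simp [nT, nxt, ps, nmT, sgv, h, Tri.pa₁, Tri.pa₂, Tri.pb₁, Tri.pb₂,
        Tri.pc₁, Tri.pc₂, Pass.mate]
    rcases hl T.ta with rfl | rfl
    · rw [e1]
      exact ⟨T.wi, by simp, i1⟩
    · rw [e2]
      exact ⟨T.wj, by simp, j1⟩
  · have e1 : ps T (nT T .a2 T.ta).1 (nT T .a2 T.ta).2 = (if T.ei then T.pb₁ else T.pb₂) := by
      cases h : T.ei <;> simp [nT, nxt, ps, nmT, sgv, h, Tri.pa₁, Tri.pa₂, Tri.pb₁, Tri.pb₂,
        Tri.pc₁, Tri.pc₂, Pass.mate]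
    have e2 : ps T (nT T .a2 (!T.ta)).1 (nT T .a2 (!T.ta)).2 = (if T.ej then T.pc₁ else T.pc₂) := by
      cases h : T.ej <;> simp [nT, nxt, ps, nmT, sgv, h, Tri.pa₁, Tri.pa₂, Tri.pb₁, Tri.pb₂,
        Tri.pc₁, Tri.pc₂, Pass.mate]
    rcases hl T.ta with rfl | rfl
    · rw [e1]
      exact ⟨T.wi, by simp, i2⟩
    · rw [e2]
      exact ⟨T.wj, by simp, j2⟩
  · have e1 : ps T (nT T .b1 T.tb).1 (nT T .b1 T.tb).2 = (if T.ei then T.pa₁ else T.pa₂) := by
      cases h : T.ei <;> simp [nT, nxt, ps, nmT, sgv, h, Tri.pa₁, Tri.pa₂, Tri.pb₁, Tri.pb₂,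
        Tri.pc₁, Tri.pc₂, Pass.mate]
    have e2 : ps T (nT T .b1 (!T.tb)).1 (nT T .b1 (!T.tb)).2 = (if T.ek then T.pc₂.mate else T.pc₁.mate) := by
      cases h : T.ek <;> simp [nT, nxt, ps, nmT, sgv, h, Tri.pa₁, Tri.pa₂, Tri.pb₁, Tri.pb₂,
        Tri.pc₁, Tri.pc₂, Pass.mate]
    rcases hl T.tb with rfl | rfl
    · rw [e1]
      exact ⟨T.wi, by simp, i3⟩
    · rw [e2]
      exact ⟨T.wk, by simp, k1⟩
  · have e1 : ps T (nT T .b2 T.tb).1 (nT T .b2 T.tb).2 = (if T.ei then T.pa₂ else T.pa₁) := by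
      cases h : T.ei <;> simp [nT, nxt, ps, nmT, sgv, h, Tri.pa₁, Tri.pa₂, Tri.pb₁, Tri.pb₂,
        Tri.pc₁, Tri.pc₂, Pass.mate]
    have e2 : ps T (nT T .b2 (!T.tb)).1 (nT T .b2 (!T.tb)).2 = (if T.ek then T.pc₁.mate else T.pc₂.mate) := by
      cases h : T.ek <;> simp [nT, nxt, ps, nmT, sgv, h, Tri.pa₁, Tri.pa₂, Tri.pb₁, Tri.pb₂,
        Tri.pc₁, Tri.pc₂, Pass.mate]
    rcases hl T.tb with rfl | rfl
    · rw [e1]
      exact ⟨T.wi, by simp, i4⟩
    · rw [e2]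
      exact ⟨T.wk, by simp, k2⟩
  · have e1 : ps T (nT T .c1 T.tc).1 (nT T .c1 T.tc).2 = (if T.ej then T.pa₁.mate else T.pa₂.mate) := by
      cases h : T.ej <;> simp [nT, nxt, ps, nmT, sgv, h, Tri.pa₁, Tri.pa₂, Tri.pb₁, Tri.pb₂,
        Tri.pc₁, Tri.pc₂, Pass.mate]
    have e2 : ps T (nT T .c1 (!T.tc)).1 (nT T .c1 (!T.tc)).2 = (if T.ek then T.pb₁.mate else T.pb₂.mate) := by
      cases h : T.ek <;> simp [nT, nxt, ps, nmT, sgv, h, Tri.pa₁, Tri.pa₂, Tri.pb₁, Tri.pb₂,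
        Tri.pc₁, Tri.pc₂, Pass.mate]
    rcases hl T.tc with rfl | rfl
    · rw [e1]
      exact ⟨T.wj, by simp, j3⟩
    · rw [e2]
      exact ⟨T.wk, by simp, k3⟩
  · have e1 : ps T (nT T .c2 T.tc).1 (nT T .c2 T.tc).2 = (if T.ej then T.pa₂.mate else T.pa₁.mate) := by
      cases h : T.ej <;> simp [nT, nxt, ps, nmT, sgv, h, Tri.pa₁, Tri.pa₂, Tri.pb₁, Tri.pb₂,
        Tri.pc₁, Tri.pc₂, Pass.mate]
    have e2 : ps T (nT T .c2 (!T.tc)).1 (nT T .c2 (!T.tc)).2 = (if T.ek then T.pb₂.mate else T.pb₁.mate) := by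
      cases h : T.ek <;> simp [nT, nxt, ps, nmT, sgv, h, Tri.pa₁, Tri.pa₂, Tri.pb₁, Tri.pb₂,
        Tri.pc₁, Tri.pc₂, Pass.mate]
    rcases hl T.tc with rfl | rfl
    · rw [e1]
      exact ⟨T.wj, by simp, j4⟩
    · rw [e2]
      exact ⟨T.wk, by simp, k4⟩

/-! ### the finite check -/

def allB (f : Bool → Bool) : Bool := f true && f false
def allI (f : Ix → Bool) : Bool := f .a1 && f .a2 && f .b1 && f .b2 && f .c1 && f .c2

theorem allB_iff {f : Bool → Bool} (h : allB f = true) (b : Bool) : f b = true := by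
  unfold allB at h
  rw [Bool.and_eq_true] at h
  cases b
  · exact h.2
  · exact h.1

theorem allI_iff {f : Ix → Bool} (h : allI f = true) (i : Ix) : f i = true := by
  unfold allI at h
  simp only [Bool.and_eq_true] at h
  obtain ⟨⟨⟨⟨⟨h1, h2⟩, h3⟩, h4⟩, h5⟩, h6⟩ := h
  cases i <;> assumption

def ixb (i j : Ix) : Bool :=
  match i, j with
  | .a1, .a1 => true | .a2, .a2 => true | .b1, .b1 => true | .b2, .b2 => true
  | .c1, .c1 => true | .c2, .c2 => true | _, _ => false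

theorem ixb_iff {i j : Ix} : ixb i j = true ↔ i = j := by
  cases i <;> cases j <;> simp [ixb]

/-- type of an end -/
def ty : Ix → Ix
  | .a1 => .a1 | .a2 => .a1 | .b1 => .b1 | .b2 => .b1 | .c1 => .c1 | .c2 => .c1

/-- the other end of the edge starting at `(i, l)`, if `i` is joined with `j` -/
def pt (i : Ix) (l : Bool) (j : Ix) : Bool := if ixb i j then !l else l

/-- the joined ends have opposite signs -/
def sgok (sa sb sc : Bool) (i j : Ix) : Bool := ixb i j || (sgv sa sb sc i != sgv sa sb sc j)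

/-- consistency of two pairs -/
def cst (e e' : Ix × Ix) : Bool :=
  (if ixb e.1 e'.1 then ixb e.2 e'.2 else true) && (if ixb e.1 e'.2 then ixb e.2 e'.1 else true) &&
  (if ixb e.2 e'.1 then ixb e.1 e'.2 else true) && (if ixb e.2 e'.2 then ixb e.1 e'.1 else true)

def raOK (ta tb tc : Bool) (i : Ix) : Bool :=
  match ty i with
  | .a1 => tb == tc
  | .b1 => ta != tc
  | _ => ta == tb

/-- a reduction RA is possible -/
def raB (ta tb tc : Bool) (A : List (Ix × Ix)) : Bool := A.any fun e => ixb e.1 e.2 && raOK ta tb tc e.1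

def mono (ta tb tc ei ej ek : Bool) (i j : Ix) (l : Bool) : Bool :=
  ixb (nxt ta tb tc ei ej ek i l).1 j && ((nxt ta tb tc ei ej ek i l).2 == l)

/-- a reduction RB is possible -/
def rbB (ta tb tc ei ej ek : Bool) (A : List (Ix × Ix)) : Bool :=
  A.any fun e => !ixb e.1 e.2 && (mono ta tb tc ei ej ek e.1 e.2 true ||
    mono ta tb tc ei ej ek e.1 e.2 false || mono ta tb tc ei ej ek e.2 e.1 true ||
    mono ta tb tc ei ej ek e.2 e.1 false)

/-- `i` is joined with an end of type other than `k` -/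
def cl (A : List (Ix × Ix)) (k i : Ix) : Bool :=
  A.any fun e => (ixb e.1 i && !ixb (ty e.2) k) || (ixb e.2 i && !ixb (ty e.1) k)

/-- a reduction RD is possible -/
def rdB (A : List (Ix × Ix)) : Bool :=
  (cl A .b1 .a1 && cl A .b1 .a2 && cl A .b1 .c1 && cl A .b1 .c2) ||
  (cl A .c1 .a1 && cl A .c1 .a2 && cl A .c1 .b1 && cl A .c1 .b2) ||
  (cl A .a1 .b1 && cl A .a1 .b2 && cl A .a1 .c1 && cl A .a1 .c2)

def concl (ta tb tc ei ej ek : Bool) (A : List (Ix × Ix)) : Bool :=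
  raB ta tb tc A || rbB ta tb tc ei ej ek A || rdB A

def okB (ta tb tc sa sb sc ei ej ek : Bool) : Bool :=
  ((tc == tb) || (ta == tb)) &&
  (xor (xor sa (xor ei ej)) (ta == tb && ta != tc) == xor (xor sb (xor (!ei) ek)) (ta == tc)) &&
  (xor (xor sb (xor (!ei) ek)) (ta == tc) == xor (xor sc (xor ej ek)) (ta != tb))

def peq (x y : Ix × Bool) : Bool := ixb x.1 y.1 && (x.2 == y.2)

/-- bigons: the corner `(i₁, l₁)`, `(k₁, n₁)`, then `k₁` is joined with `i₂` -/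
def chk2 (ta tb tc sa sb sc ej ek : Bool) (i₂ k₂ : Ix) : Bool :=
  let ei := true
  let l₂ := pt .a1 ta i₂
  let x₂ := nxt ta tb tc ei ej ek i₂ l₂
  -- `b1` is joined with `k₂`
  if okB ta tb tc sa sb sc ei ej ek && sgok sa sb sc .a1 i₂ && sgok sa sb sc .b1 k₂ &&
      peq x₂ (k₂, pt .b1 tb k₂) && cst (.a1, i₂) (.b1, k₂) then
    concl ta tb tc ei ej ek [(.a1, i₂), (.b1, k₂)] else true

def chk3 (ta tb tc sa sb sc ej ek : Bool) (i₂ i₃ k₃ : Ix) : Bool :=
  let ei := true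
  if okB ta tb tc sa sb sc ei ej ek && sgok sa sb sc .a1 i₂ then
    let l₂ := pt .a1 ta i₂
    let x₂ := nxt ta tb tc ei ej ek i₂ l₂
    if sgok sa sb sc x₂.1 i₃ && cst (.a1, i₂) (x₂.1, i₃) then
      let l₃ := pt x₂.1 x₂.2 i₃
      let x₃ := nxt ta tb tc ei ej ek i₃ l₃
      if sgok sa sb sc .b1 k₃ && peq x₃ (k₃, pt .b1 tb k₃) && cst (.a1, i₂) (.b1, k₃) &&
          cst (x₂.1, i₃) (.b1, k₃) then
        concl ta tb tc ei ej ek [(.a1, i₂), (x₂.1, i₃), (.b1, k₃)] else true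
    else true
  else true

theorem chk2_all : (allB fun ta => allB fun tb => allB fun tc => allB fun sa => allB fun sb =>
    allB fun sc => allB fun ej => allB fun ek => allI fun i₂ => allI fun k₂ =>
    chk2 ta tb tc sa sb sc ej ek i₂ k₂) = true := by
  decide +kernel

theorem chk3_all : (allB fun ta => allB fun tb => allB fun tc => allB fun sa => allB fun sb =>
    allB fun sc => allB fun ej => allB fun ek => allI fun i₂ => allI fun i₃ => allI fun k₃ =>
    chk3 ta tb tc sa sb sc ej ek i₂ i₃ k₃) = true := by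
  decide +kernel

/-! ### from the check to the reductions -/

/-- two ends are joined -/
def Mt (T : Tri) (m : ℕ → ℕ) (i j : Ix) : Prop := m (nmT T i) = nmT T j

theorem nm_inj {T : Tri} (h : [T.a₁, T.a₂, T.b₁, T.b₂, T.c₁, T.c₂].Nodup) {i j : Ix}
    (e : nmT T i = nmT T j) : i = j := by
  simp only [List.nodup_cons, List.mem_cons, List.not_mem_nil, or_false, not_or, List.nodup_nil,
    and_true, not_false_eq_true] at h
  obtain ⟨⟨n12, n13, n14, n15, n16⟩, ⟨n23, n24, n25, n26⟩, ⟨n34, n35, n36⟩, ⟨n45, n46⟩, n56⟩ := h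
  cases i <;> cases j <;> first | rfl | (exfalso; simp only [nmT] at e; first | exact absurd e (by assumption) | exact absurd e.symm (by assumption))

theorem ps_mem (T : Tri) (i : Ix) (l : Bool) : ps T i l ∈ passes T.code := by
  rw [code_mem]
  cases i <;> simp [ps, nmT, sgv]

theorem ps_inj {T : Tri} (h : [T.a₁, T.a₂, T.b₁, T.b₂, T.c₁, T.c₂].Nodup) {i j : Ix} {l n : Bool}
    (e : ps T i l = ps T j n) : i = j ∧ l = n := by
  have h1 := congrArg Pass.crossing e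
  have h2 := congrArg Pass.isOver e
  exact ⟨nm_inj h h1, h2⟩

/-- the edge starting at a passage of a triple point and ending at the same triple point -/
theorem part_ps {T : Tri} (h : [T.a₁, T.a₂, T.b₁, T.b₂, T.c₁, T.c₂].Nodup) {m : ℕ → ℕ} {i j : Ix}
    {l n : Bool} (e : part m (ps T i l) = ps T j n) :
    Mt T m i j ∧ n = pt i l j ∧ sgok T.sa T.sb T.sc i j = true := by
  unfold part at e
  split_ifs at e with h1
  · have h2 := congrArg Pass.crossing e
    have h3 := congrArg Pass.isOver e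
    obtain rfl := nm_inj h h2
    refine ⟨h1, ?_, ?_⟩
    · unfold pt
      rw [if_pos (ixb_iff.2 rfl)]
      exact h3.symm
    · unfold sgok
      rw [ixb_iff.2 rfl]; rfl
  · have h2 : m (nmT T i) = nmT T j := congrArg Pass.crossing e
    have h3 : l = n := congrArg Pass.isOver e
    have h4 : (!sgv T.sa T.sb T.sc i) = sgv T.sa T.sb T.sc j := congrArg Pass.isPos e
    have h5 : i ≠ j := by rintro rfl; exact h1 h2
    have h6 : ixb i j = false := by
      cases h7 : ixb i j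
      · rfl
      · exact absurd (ixb_iff.1 h7) h5
    refine ⟨h2, ?_, ?_⟩
    · unfold pt
      rw [h6]
      exact h3.symm
    · unfold sgok
      rw [h6, ← h4]
      cases sgv T.sa T.sb T.sc i <;> rfl

/-- conversely -/
theorem part_of {T : Tri} (h : [T.a₁, T.a₂, T.b₁, T.b₂, T.c₁, T.c₂].Nodup) {m : ℕ → ℕ} {i j : Ix}
    {l : Bool} (hij : i ≠ j) (hm : Mt T m i j) (hs : sgok T.sa T.sb T.sc i j = true) :
    part m (ps T i l) = ps T j l := by
  have h6 : ixb i j = false := by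
    cases h7 : ixb i j
    · rfl
    · exact absurd (ixb_iff.1 h7) hij
  unfold part
  rw [if_neg]
  · unfold ps
    simp only
    rw [show m (nmT T i) = nmT T j from hm]
    congr 1
    unfold sgok at hs
    rw [h6] at hs
    revert hs
    cases sgv T.sa T.sb T.sc i <;> cases sgv T.sa T.sb T.sc j <;> simp
  · intro h7
    have h8 : m (nmT T i) = nmT T j := hm
    rw [show m (ps T i l).crossing = nmT T j from h8] at h7
    exact hij (nm_inj h h7).symm

theorem cst_of {T : Tri} (h : [T.a₁, T.a₂, T.b₁, T.b₂, T.c₁, T.c₂].Nodup) {m : ℕ → ℕ}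
    (hi : ∀ i j, Mt T m i j → Mt T m j i) {e e' : Ix × Ix} (h1 : Mt T m e.1 e.2)
    (h2 : Mt T m e'.1 e'.2) : cst e e' = true := by
  have fn : ∀ i j k, Mt T m i j → Mt T m i k → j = k := fun i j k h3 h4 =>
    nm_inj h (h3.symm.trans h4)
  unfold cst
  simp only [Bool.and_eq_true]
  refine ⟨⟨⟨?_, ?_⟩, ?_⟩, ?_⟩
  · split_ifs with h3
    · rw [ixb_iff] at h3 ⊢
      rw [h3] at h1
      exact fn _ _ _ h1 h2
    · rfl
  · split_ifs with h3
    · rw [ixb_iff] at h3 ⊢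
      rw [h3] at h1
      exact fn _ _ _ h1 (hi _ _ h2)
    · rfl
  · split_ifs with h3
    · rw [ixb_iff] at h3 ⊢
      have h4 := hi _ _ h1
      rw [h3] at h4
      exact fn _ _ _ h4 h2
    · rfl
  · split_ifs with h3
    · rw [ixb_iff] at h3 ⊢
      have h4 := hi _ _ h1
      rw [h3] at h4
      exact fn _ _ _ h4 (hi _ _ h2)
    · rfl

theorem mono_red {D O : Code} {T : Tri} {m : ℕ → ℕ} (h : Sit D O T m) {x : Pass}
    (hx : Nx T x (part m x)) : Res D O T m := by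
  obtain ⟨T', he, e1, e2, hs⟩ := nf hx
  have h' := h.sy hs
  have hnod := six_ne (WF.perm (code_perm0 D O T') h'.wf)
  have n13 : T'.a₁ ≠ T'.b₁ := by
    intro he
    rw [he] at hnod
    simp at hnod
  subst e2
  unfold part at e1
  split_ifs at e1 with h1
  · exact absurd (congrArg Pass.crossing e1).symm n13
  · have h2 : m T'.b₁ = T'.a₁ := congrArg Pass.crossing e1
    have h3 : T'.tb = T'.ta := congrArg Pass.isOver e1
    have h4 : (!!T'.sb) = !T'.sa := congrArg Pass.isPos e1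
    have h5 : m T'.a₁ = T'.b₁ := by
      rw [← h2]
      refine matching_invol h'.inv.1 (p := T'.pb₁) ?_
      exact (code_perm0 D O T').symm.subset (List.mem_append_left _ (by rw [mem_code]; simp))
    exact Res.sy hs (rb_red h' h5 h3.symm (by rw [Bool.not_not] at h4; exact h4))

theorem ra_ix {D O : Code} {T : Tri} {m : ℕ → ℕ} (h : Sit D O T m) {i : Ix} (hi : Mt T m i i)
    (hr : raOK T.ta T.tb T.tc i = true) : Res D O T m := by
  cases i
  · exact ra_red h hi (by simpa [raOK, ty] using hr)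
  · have hs : Sy T T.swapA := Sy.swapA Sy.refl
    have hr' : T.tb = T.tc := by simpa [raOK, ty] using hr
    exact Res.sy hs (ra_red (h.sy hs) hi hr')
  · have hs : Sy T T.tjk := Sy.tjk Sy.refl
    refine Res.sy hs (ra_red (h.sy hs) hi ?_)
    simp only [raOK, ty] at hr
    simp only [Tri.tjk]
    revert hr
    cases T.ta <;> cases T.tc <;> simp
  · have hs : Sy T T.swapB.tjk := Sy.tjk (Sy.swapB Sy.refl)
    refine Res.sy hs (ra_red (h.sy hs) hi ?_)
    simp only [raOK, ty] at hr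
    simp only [Tri.tjk, Tri.swapB]
    revert hr
    cases T.ta <;> cases T.tc <;> simp
  · have hs : Sy T T.tij.tjk := Sy.tjk (Sy.tij Sy.refl)
    refine Res.sy hs (ra_red (h.sy hs) hi ?_)
    simp only [raOK, ty] at hr
    simp only [Tri.tjk, Tri.tij]
    revert hr
    cases T.ta <;> cases T.tb <;> simp
  · have hs : Sy T T.tij.swapB.tjk := Sy.tjk (Sy.swapB (Sy.tij Sy.refl))
    refine Res.sy hs (ra_red (h.sy hs) hi ?_)
    simp only [raOK, ty] at hr
    simp only [Tri.tjk, Tri.tij, Tri.swapB]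
    revert hr
    cases T.ta <;> cases T.tb <;> simp

theorem rd_all {D O : Code} {T : Tri} {m : ℕ → ℕ} (h : Sit D O T m) {A : List (Ix × Ix)}
    (hA : ∀ e ∈ A, Mt T m e.1 e.2) (hi : ∀ i j, Mt T m i j → Mt T m j i) (hr : rdB A = true) :
    Res D O T m := by
  have key : ∀ k i, cl A k i = true → ∃ j, ty j ≠ k ∧ m (nmT T i) = nmT T j := by
    intro k i hk
    unfold cl at hk
    rw [List.any_eq_true] at hk
    obtain ⟨e, he, h1⟩ := hk
    simp only [Bool.or_eq_true, Bool.and_eq_true, Bool.not_eq_true'] at h1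
    have hf : ∀ {x y : Ix}, ixb x y = false → x ≠ y := by
      intro x y h2 h3
      rw [ixb_iff.2 h3] at h2
      simp at h2
    rcases h1 with ⟨h1, h2⟩ | ⟨h1, h2⟩
    · refine ⟨e.2, hf h2, ?_⟩
      rw [← ixb_iff.1 h1]
      exact hA e he
    · refine ⟨e.1, hf h2, ?_⟩
      rw [← ixb_iff.1 h1]
      exact hi _ _ (hA e he)
  unfold rdB at hr
  simp only [Bool.or_eq_true, Bool.and_eq_true] at hr
  rcases hr with (⟨⟨⟨g1, g2⟩, g3⟩, g4⟩ | ⟨⟨⟨g1, g2⟩, g3⟩, g4⟩) | ⟨⟨⟨g1, g2⟩, g3⟩, g4⟩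
  · -- types a and c
    refine rd_red h ?_
    have k : ∀ i, (∃ j, ty j ≠ .b1 ∧ m (nmT T i) = nmT T j) →
        (m (nmT T i) = T.a₁ ∨ m (nmT T i) = T.a₂ ∨ m (nmT T i) = T.c₁ ∨ m (nmT T i) = T.c₂) := by
      rintro i ⟨j, h1, h2⟩
      rw [h2]
      cases j <;> simp [nmT, ty] at h1 ⊢
    rintro c (rfl | rfl | rfl | rfl)
    · exact k .a1 (key _ _ g1)
    · exact k .a2 (key _ _ g2)
    · exact k .c1 (key _ _ g3)
    · exact k .c2 (key _ _ g4)
  · -- types a and b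
    have hs : Sy T T.tij := Sy.tij Sy.refl
    refine Res.sy hs (rd_red (h.sy hs) ?_)
    have k : ∀ i, (∃ j, ty j ≠ .c1 ∧ m (nmT T i) = nmT T j) →
        (m (nmT T i) = T.a₁ ∨ m (nmT T i) = T.a₂ ∨ m (nmT T i) = T.b₁ ∨ m (nmT T i) = T.b₂) := by
      rintro i ⟨j, h1, h2⟩
      rw [h2]
      cases j <;> simp [nmT, ty] at h1 ⊢
    simp only [Tri.tij]
    rintro c (rfl | rfl | rfl | rfl)
    · exact k .a1 (key _ _ g1)
    · exact k .a2 (key _ _ g2)
    · exact k .b1 (key _ _ g3)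
    · exact k .b2 (key _ _ g4)
  · -- types b and c
    have hs : Sy T T.tjk := Sy.tjk Sy.refl
    refine Res.sy hs (rd_red (h.sy hs) ?_)
    have k : ∀ i, (∃ j, ty j ≠ .a1 ∧ m (nmT T i) = nmT T j) →
        (m (nmT T i) = T.b₁ ∨ m (nmT T i) = T.b₂ ∨ m (nmT T i) = T.c₁ ∨ m (nmT T i) = T.c₂) := by
      rintro i ⟨j, h1, h2⟩
      rw [h2]
      cases j <;> simp [nmT, ty] at h1 ⊢
    simp only [Tri.tjk]
    rintro c (rfl | rfl | rfl | rfl)
    · exact k .b1 (key _ _ g1)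
    · exact k .b2 (key _ _ g2)
    · exact k .c1 (key _ _ g3)
    · exact k .c2 (key _ _ g4)

theorem concl_red {D O : Code} {T : Tri} {m : ℕ → ℕ} (h : Sit D O T m) {A : List (Ix × Ix)}
    (hA : ∀ e ∈ A, Mt T m e.1 e.2) (hA' : ∀ e ∈ A, sgok T.sa T.sb T.sc e.1 e.2 = true)
    (hi : ∀ i j, Mt T m i j → Mt T m j i)
    (hr : concl T.ta T.tb T.tc T.ei T.ej T.ek A = true) : Res D O T m := by
  have hnod := six_ne (WF.perm (code_perm0 D O T) h.wf)
  unfold concl at hr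
  simp only [Bool.or_eq_true] at hr
  rcases hr with (hr | hr) | hr
  · unfold raB at hr
    rw [List.any_eq_true] at hr
    obtain ⟨e, he, h1⟩ := hr
    rw [Bool.and_eq_true] at h1
    have h2 := hA e he
    rw [← ixb_iff.1 h1.1] at h2
    exact ra_ix h h2 h1.2
  · unfold rbB at hr
    rw [List.any_eq_true] at hr
    obtain ⟨e, he, h1⟩ := hr
    simp only [Bool.and_eq_true, Bool.or_eq_true, Bool.not_eq_true'] at h1
    obtain ⟨h2, h3⟩ := h1
    have hne : e.1 ≠ e.2 := by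
      intro h4
      rw [ixb_iff.2 h4] at h2
      simp at h2
    have key : ∀ i j l, mono T.ta T.tb T.tc T.ei T.ej T.ek i j l = true →
        Nx T (ps T i l) (ps T j l) := by
      intro i j l hk
      unfold mono at hk
      rw [Bool.and_eq_true, ixb_iff, beq_iff_eq] at hk
      have h4 := nxt_nx T i l
      unfold nT at h4
      rw [hk.1, hk.2] at h4
      exact h4
    have s1 := hA' e he
    have s2 : sgok T.sa T.sb T.sc e.2 e.1 = true := by
      unfold sgok at s1 ⊢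
      revert s1
      have : ixb e.2 e.1 = ixb e.1 e.2 := by
        rw [Bool.eq_iff_iff, ixb_iff, ixb_iff]; exact eq_comm
      rw [this]
      cases ixb e.1 e.2 <;> cases sgv T.sa T.sb T.sc e.1 <;> cases sgv T.sa T.sb T.sc e.2 <;> simp
    rcases h3 with ((h3 | h3) | h3) | h3
    · have h4 := key _ _ _ h3
      rw [← part_of hnod hne (hA e he) s1] at h4
      exact mono_red h h4
    · have h4 := key _ _ _ h3
      rw [← part_of hnod hne (hA e he) s1] at h4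
      exact mono_red h h4
    · have h4 := key _ _ _ h3
      rw [← part_of hnod hne.symm (hi _ _ (hA e he)) s2] at h4
      exact mono_red h h4
    · have h4 := key _ _ _ h3
      rw [← part_of hnod hne.symm (hi _ _ (hA e he)) s2] at h4
      exact mono_red h h4
  · exact rd_all h hA hi hr

theorem ok_okB {T : Tri} (h : T.Ok) : okB T.ta T.tb T.tc T.sa T.sb T.sc T.ei T.ej T.ek = true := by
  obtain ⟨h1, h2, h3⟩ := h
  unfold okB
  rw [Bool.and_eq_true, Bool.and_eq_true, Bool.or_eq_true]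
  simp only [beq_iff_eq]
  exact ⟨⟨h1, h2⟩, h3⟩

theorem single_red {D O : Code} {T : Tri} {m : ℕ → ℕ} (h : Sit D O T m)
    (hs : (∃ p, Nx T p (part m p)) ∨ (∃ p y, Nx T p y ∧ Nx T (part m y) (part m p)) ∨
      ∃ p y z, Nx T p y ∧ Nx T (part m y) z ∧ Nx T (part m z) (part m p)) : Res D O T m := by
  -- normal form of the first corner
  have nrm : ∀ {p y : Pass}, Nx T p y → ∃ T', Sy T T' ∧ T'.ei = true ∧ p = ps T' .b1 T'.tb ∧
      y = ps T' .a1 T'.ta := by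
    intro p y h1
    obtain ⟨T', he, rfl, rfl, h2⟩ := nf h1
    exact ⟨T', h2, he, rfl, rfl⟩
  have inv : ∀ T', Sy T T' → ∀ i j, Mt T' m i j → Mt T' m j i := by
    intro T' hT i j hm
    have h' := h.sy hT
    unfold Mt at hm ⊢
    rw [← hm]
    exact matching_invol h'.inv.1 (p := ps T' i true)
      ((code_perm0 D O T').symm.subset (List.mem_append_left _ (ps_mem T' i true)))
  rcases hs with ⟨p, h1⟩ | ⟨p, y, h1, h2⟩ | ⟨p, y, z, h1, h2, h3⟩
  · exact mono_red h h1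
  · obtain ⟨T', hT, he, rfl, rfl⟩ := nrm h1
    have h' := h.sy hT
    have hnod := six_ne (WF.perm (code_perm0 D O T') h'.wf)
    obtain ⟨i₂, l₂, e1, e2⟩ := nx_nxt (hT.nx h2)
    obtain ⟨m1, p1, s1⟩ := part_ps hnod e1
    obtain ⟨m2, p2, s2⟩ := part_ps hnod e2
    have h3 := chk2_all
    have h4 := allI_iff (allI_iff (allB_iff (allB_iff (allB_iff (allB_iff (allB_iff (allB_iff
      (allB_iff (allB_iff h3 T'.ta) T'.tb) T'.tc) T'.sa) T'.sb) T'.sc) T'.ej) T'.ek) i₂)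
      (nT T' i₂ l₂).1
    unfold chk2 at h4
    have c1 : peq (nxt T'.ta T'.tb T'.tc true T'.ej T'.ek i₂ (pt .a1 T'.ta i₂))
        ((nT T' i₂ l₂).1, pt .b1 T'.tb (nT T' i₂ l₂).1) = true := by
      unfold peq
      rw [Bool.and_eq_true, ixb_iff, beq_iff_eq]
      rw [p1] at p2 ⊢
      unfold nT at p2 ⊢
      rw [he] at p2 ⊢
      exact ⟨rfl, p2⟩
    have c2 := ok_okB h'.ok
    rw [he] at c2
    have c3 : cst (.a1, i₂) (.b1, (nT T' i₂ l₂).1) = true := cst_of hnod (inv T' hT) m1 m2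
    simp only [c1, c2, c3, s1, s2, Bool.and_self, if_true] at h4
    refine Res.sy hT (concl_red h' (A := [(.a1, i₂), (.b1, (nT T' i₂ l₂).1)]) ?_ ?_ (inv T' hT)
      (by rw [he]; exact h4))
    · intro e he'
      simp only [List.mem_cons, List.not_mem_nil, or_false] at he'
      rcases he' with rfl | rfl
      · exact m1
      · exact m2
    · intro e he'
      simp only [List.mem_cons, List.not_mem_nil, or_false] at he'
      rcases he' with rfl | rfl
      · exact s1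
      · exact s2
  · obtain ⟨T', hT, he, rfl, rfl⟩ := nrm h1
    have h' := h.sy hT
    have hnod := six_ne (WF.perm (code_perm0 D O T') h'.wf)
    obtain ⟨i₂, l₂, e1, rfl⟩ := nx_nxt (hT.nx h2)
    obtain ⟨i₃, l₃, e3, e4⟩ := nx_nxt (hT.nx h3)
    obtain ⟨m1, p1, s1⟩ := part_ps hnod e1
    obtain ⟨m2, p2, s2⟩ := part_ps hnod e3
    obtain ⟨m3, p3, s3⟩ := part_ps hnod e4
    have h3 := chk3_all
    have h4 := allI_iff (allI_iff (allI_iff (allB_iff (allB_iff (allB_iff (allB_iff (allB_iff (allB_iff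
      (allB_iff (allB_iff h3 T'.ta) T'.tb) T'.tc) T'.sa) T'.sb) T'.sc) T'.ej) T'.ek) i₂)
      i₃) (nT T' i₃ l₃).1
    unfold chk3 at h4
    have en : nxt T'.ta T'.tb T'.tc true T'.ej T'.ek i₂ (pt .a1 T'.ta i₂) = nT T' i₂ l₂ := by
      rw [p1]; unfold nT; rw [he]
    have en3 : nxt T'.ta T'.tb T'.tc true T'.ej T'.ek i₃
        (pt (nT T' i₂ l₂).1 (nT T' i₂ l₂).2 i₃) = nT T' i₃ l₃ := by
      rw [p2]; unfold nT; rw [he]
    have c2 := ok_okB h'.ok
    rw [he] at c2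
    have c3 : cst (.a1, i₂) ((nT T' i₂ l₂).1, i₃) = true := cst_of hnod (inv T' hT) m1 m2
    have c4 : cst (.a1, i₂) (.b1, (nT T' i₃ l₃).1) = true := cst_of hnod (inv T' hT) m1 m3
    have c5 : cst ((nT T' i₂ l₂).1, i₃) (.b1, (nT T' i₃ l₃).1) = true :=
      cst_of hnod (inv T' hT) m2 m3
    have c6 : peq (nT T' i₃ l₃) ((nT T' i₃ l₃).1, pt .b1 T'.tb (nT T' i₃ l₃).1) = true := by
      unfold peq
      rw [Bool.and_eq_true, ixb_iff, beq_iff_eq]
      exact ⟨rfl, p3⟩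
    simp only [en, en3, c2, c3, c4, c5, c6, s1, s2, s3, Bool.and_self, if_true] at h4
    refine Res.sy hT (concl_red h' (A := [(.a1, i₂), ((nT T' i₂ l₂).1, i₃),
      (.b1, (nT T' i₃ l₃).1)]) ?_ ?_ (inv T' hT) (by rw [he]; exact h4))
    · intro e he'
      simp only [List.mem_cons, List.not_mem_nil, or_false] at he'
      rcases he' with rfl | rfl | rfl
      · exact m1
      · exact m2
      · exact m3
    · intro e he'
      simp only [List.mem_cons, List.not_mem_nil, or_false] at he'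
      rcases he' with rfl | rfl | rfl
      · exact s1
      · exact s2
      · exact s3

end Pool.Agent.V11206
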