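import Pool.Agent.V11206.Cyc
import Pool.Agent.V11206.Parity
import Pool.Agent.V11206.Single
import Pool.Agent.V11206.Forest

/-! Canonical descriptions of the triple points. -/

set_option autoImplicit false

namespace Pool.Agent.V11206

open Pool.Agent.Y468.SR
open Pool.Agent.Y874.TP hiding InvM InvC CM CReid CStep SMovie Inv3
open Pool.Agent.Y874.TP2

set_option linter.unusedSimpArgs false
set_option linter.unusedVariables false

/-- the sheets `i`, `j`, `k` are the top, middle and bottom sheet, and `a₁`, `b₁`, `c₁` are positive -/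
structure Can (T : Tri) : Prop where
  ta : T.ta = true
  tb : T.tb = true
  tc : T.tc = true
  sa : T.sa = false
  sb : T.sb = false
  sc : T.sc = false
  ej : T.ej = T.ei
  ek : T.ek = T.ei

theorem canon_t (T : Tri) (h : T.Ok) : ∃ T', Sy T T' ∧ T'.ta = true ∧ T'.tb = true ∧ T'.tc = true := by
  have h1 := h.1
  cases ha : T.ta <;> cases hb : T.tb <;> cases hc : T.tc
  · exact ⟨T.tij.tjk.tij, ((Sy.refl.tij).tjk).tij, by simp [Tri.tij, Tri.tjk, ha, hb, hc]⟩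
  · exact ⟨T.tij.tjk, (Sy.refl.tij).tjk, by simp [Tri.tij, Tri.tjk, ha, hb, hc]⟩
  · rw [ha, hb, hc] at h1; simp at h1
  · exact ⟨T.tij, Sy.refl.tij, by simp [Tri.tij, Tri.tjk, ha, hb, hc]⟩
  · exact ⟨T.tjk.tij, (Sy.refl.tjk).tij, by simp [Tri.tij, Tri.tjk, ha, hb, hc]⟩
  · rw [ha, hb, hc] at h1; simp at h1
  · exact ⟨T.tjk, Sy.refl.tjk, by simp [Tri.tij, Tri.tjk, ha, hb, hc]⟩
  · exact ⟨T, Sy.refl, ha, hb, hc⟩

theorem canon (T : Tri) (h : T.Ok) : ∃ T', Sy T T' ∧ Can T' := by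
  obtain ⟨T₁, s1, a1, b1, c1⟩ := canon_t T h
  obtain ⟨T₂, s2, a2, b2, c2, x2⟩ : ∃ T₂, Sy T₁ T₂ ∧ T₂.ta = true ∧ T₂.tb = true ∧ T₂.tc = true ∧
      T₂.sa = false := by
    cases hs : T₁.sa
    · exact ⟨T₁, Sy.refl, a1, b1, c1, hs⟩
    · exact ⟨T₁.swapA, Sy.refl.swapA, a1, b1, c1, by simp [Tri.swapA, hs]⟩
  obtain ⟨T₃, s3, a3, b3, c3, x3, y3⟩ : ∃ T₃, Sy T₂ T₃ ∧ T₃.ta = true ∧ T₃.tb = true ∧
      T₃.tc = true ∧ T₃.sa = false ∧ T₃.sb = false := by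
    cases hs : T₂.sb
    · exact ⟨T₂, Sy.refl, a2, b2, c2, x2, hs⟩
    · exact ⟨T₂.swapB, Sy.refl.swapB, a2, b2, c2, x2, by simp [Tri.swapB, hs]⟩
  obtain ⟨T₄, s4, a4, b4, c4, x4, y4, z4⟩ : ∃ T₄, Sy T₃ T₄ ∧ T₄.ta = true ∧ T₄.tb = true ∧
      T₄.tc = true ∧ T₄.sa = false ∧ T₄.sb = false ∧ T₄.sc = false := by
    cases hs : T₃.sc
    · exact ⟨T₃, Sy.refl, a3, b3, c3, x3, y3, hs⟩
    · exact ⟨_, Sy.swapC Sy.refl, a3, b3, c3, x3, y3, by simp [hs]⟩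
  have hs := s1.trans (s2.trans (s3.trans s4))
  have hok := hs.ok h
  obtain ⟨-, o2, o3⟩ := hok
  rw [a4, b4, c4, x4, y4] at o2
  rw [a4, b4, c4, y4, z4] at o3
  have e1 : T₄.ej = T₄.ei ∧ T₄.ek = T₄.ei := by
    revert o2 o3
    cases T₄.ei <;> cases T₄.ej <;> cases T₄.ek <;> simp
  exact ⟨T₄, hs, ⟨a4, b4, c4, x4, y4, z4, e1.1, e1.2⟩⟩

/-- the system of triple points in canonical form -/
structure Sf (D : Code) (Ts : List Tri) (m : ℕ → ℕ) : Prop where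
  wf : WF (passes (D ++ TC Ts))
  inv : InvM (D ++ TC Ts) m
  ok : ∀ T ∈ Ts, T.Ok ∧ T.Col
  zero : ∀ T ∈ Ts, ∀ c, Nam T c → colour c = 0
  can : ∀ T ∈ Ts, Can T

theorem canon_list (m : ℕ → ℕ) : ∀ (Ts : List Tri) (E : Code), WF (passes (E ++ TC Ts)) →
    InvM (E ++ TC Ts) m → (∀ T ∈ Ts, T.Ok) →
    ∃ Ts', List.Forall₂ (fun T T' => Sy T T' ∧ Can T') Ts Ts' ∧ WF (passes (E ++ TC Ts')) ∧
      InvM (E ++ TC Ts') m := by
  intro Ts
  induction Ts with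
  | nil => intro E h1 h2 _; exact ⟨[], List.Forall₂.nil, h1, h2⟩
  | cons T Ts ih =>
    intro E h1 h2 h3
    obtain ⟨T', hs, hc⟩ := canon T (h3 T (by simp))
    rw [tc_cons] at h1 h2
    have w1 := wf_ceq hs.ceq h1
    have i1 := Pool.Agent.Y874.TP2.invM_ceq hs.ceq h2
    rw [← List.append_assoc] at w1 i1
    obtain ⟨Ts', k1, k2, k3⟩ := ih (E ++ T'.code) w1 i1 fun T hT => h3 T (by simp [hT])
    refine ⟨T' :: Ts', List.Forall₂.cons ⟨hs, hc⟩ k1, ?_, ?_⟩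
    · rw [tc_cons, ← List.append_assoc]; exact k2
    · rw [tc_cons, ← List.append_assoc]; exact k3

theorem tc_perm {Ts Ts' : List Tri} (h : Ts.Perm Ts') : (TC Ts).Perm (TC Ts') := by
  unfold TC
  exact List.Perm.flatMap_right _ h

theorem Sf.perm {D : Code} {Ts Ts' : List Tri} {m : ℕ → ℕ} (h : Ts.Perm Ts') (hs : Sf D Ts m) :
    Sf D Ts' m where
  wf := WF.perm (passes_perm ((tc_perm h).append_left D)) hs.wf
  inv := Pool.Agent.Y874.TP2.invM_perm ((tc_perm h).append_left D) hs.inv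
  ok := fun T hT => hs.ok T (h.mem_iff.2 hT)
  zero := fun T hT => hs.zero T (h.mem_iff.2 hT)
  can := fun T hT => hs.can T (h.mem_iff.2 hT)

theorem sf_exists {D : Code} {Ts : List Tri} {m : ℕ → ℕ} (hw : WF (passes (D ++ TC Ts)))
    (hI : InvM (D ++ TC Ts) m) (hok : ∀ T ∈ Ts, T.Ok ∧ T.Col)
    (hz : ∀ T ∈ Ts, ∀ c, Nam T c → colour c = 0) :
    ∃ Ts₁ Ts₂, Ts₁.length + Ts₂.length = Ts.length ∧ (∀ T ∈ Ts₁, T.ei = true) ∧
      (∀ T ∈ Ts₂, T.ei = false) ∧ Sf D (Ts₁ ++ Ts₂) m := by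
  obtain ⟨Ts', k1, k2, k3⟩ := canon_list m Ts D hw hI fun T hT => (hok T hT).1
  have hmem : ∀ T' ∈ Ts', ∃ T ∈ Ts, Sy T T' ∧ Can T' := by
    clear k2 k3 hw hI hok hz
    induction k1 with
    | nil => intro T' h; simp at h
    | cons h _ ih =>
      intro T' hT'
      rcases List.mem_cons.1 hT' with rfl | hT'
      · exact ⟨_, by simp, h⟩
      · obtain ⟨T, hT, h⟩ := ih T' hT'
        exact ⟨T, by simp [hT], h⟩
  have hs : Sf D Ts' m := by
    refine ⟨k2, k3, fun T' hT' => ?_, fun T' hT' c hc => ?_, fun T' hT' => ?_⟩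
    · obtain ⟨T, hT, h, -⟩ := hmem T' hT'
      exact ⟨h.ok (hok T hT).1, h.col (hok T hT).2⟩
    · obtain ⟨T, hT, h, -⟩ := hmem T' hT'
      exact hz T hT c ((nam_sy h c).1 hc)
    · obtain ⟨T, hT, h, hc⟩ := hmem T' hT'
      exact hc
  have hp := List.filter_append_perm (fun T : Tri => T.ei) Ts'
  refine ⟨Ts'.filter (fun T => T.ei), Ts'.filter (fun T => !T.ei), ?_, ?_, ?_, hs.perm hp.symm⟩
  · rw [← List.length_append, hp.length_eq, k1.length_eq]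
  · intro T hT
    exact (List.mem_filter.1 hT).2
  · intro T hT
    have := (List.mem_filter.1 hT).2
    simpa using this

end Pool.Agent.V11206
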