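import Pool.Agent.V11206.Blk
import Pool.Agent.V11206.Eul

/-! Corners at triple points and their charges. -/

set_option autoImplicit false

namespace Pool.Agent.V11206

open Pool.Agent.Y468.SR
open Pool.Agent.Y874.TP hiding InvM InvC CM CReid CStep SMovie Inv3
open Pool.Agent.Y874.TP2
open Pool.Agent.Y761.TP2 (uniq side part_mem)

set_option linter.unusedSimpArgs false
set_option linter.unusedVariables false

/-- the level of the end `i` in the sheet that contains the double curve of `j`, too -/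
def up (i j : Ix) : Bool := match ty i, ty j with
  | .a1, .b1 => true | .b1, .a1 => true | .c1, .a1 => true | _, _ => false

/-- the twelve corners -/
def crn : List (Ix × Ix) := [(.a1, .b1), (.a1, .b2), (.a2, .b1), (.a2, .b2), (.a1, .c1), (.a1, .c2),
  (.a2, .c1), (.a2, .c2), (.b1, .c1), (.b1, .c2), (.b2, .c1), (.b2, .c2)]

/-- the levels of the ends are those of top, middle and bottom sheets -/
structure Lvl (T : Tri) : Prop where
  ta : T.ta = true
  tb : T.tb = true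
  tc : T.tc = true

def upB (ei ej ek : Bool) (i : Ix) (l : Bool) : Bool :=
  let x := nxt true true true ei ej ek i l
  !ixb (ty i) (ty x.1) && (l == up i x.1) && (x.2 == up x.1 i)

theorem upB_all : (allB fun ei => allB fun ej =>
    allB fun ek => allI fun i => allB fun l => upB ei ej ek i l) = true := by
  decide +kernel

theorem Lvl.nT {T : Tri} (h : Lvl T) (i : Ix) (l : Bool) : ty i ≠ ty (nT T i l).1 ∧
    l = up i (nT T i l).1 ∧ (nT T i l).2 = up (nT T i l).1 i := by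
  have h1 := allB_iff (allI_iff (allB_iff (allB_iff (allB_iff upB_all T.ei) T.ej) T.ek) i) l
  unfold upB at h1
  simp only [Bool.and_eq_true, Bool.not_eq_true', beq_iff_eq] at h1
  obtain ⟨⟨h1, h2⟩, h3⟩ := h1
  have e : V11206.nT T i l = nxt true true true T.ei T.ej T.ek i l := by
    unfold V11206.nT; rw [h.ta, h.tb, h.tc]
  rw [e]
  refine ⟨fun e => ?_, h2, h3⟩
  rw [ixb_iff.2 e] at h1; simp at h1

/-- a corner -/
theorem Lvl.nx {T : Tri} (h : Lvl T) {x y : Pass} (hn : Nx T x y) : ∃ i j,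
    x = ps T i (up i j) ∧ y = ps T j (up j i) ∧ ty i ≠ ty j := by
  obtain ⟨i, l, e1, e2⟩ := nx_nxt hn
  obtain ⟨h1, h2, h3⟩ := h.nT i l
  refine ⟨i, (V11206.nT T i l).1, ?_, ?_, h1⟩
  · rw [e1, ← h2]
  · rw [e2, ← h3]

/-- the corner `(T', k, l)` follows the corner `(T, i, j)` -/
def LkM (m : ℕ → ℕ) (T : Tri) (i j : Ix) (T' : Tri) (k l : Ix) : Prop :=
  ty i ≠ ty j ∧ ty k ≠ ty l ∧ m (nmT T j) = nmT T' k ∧ (nmT T j = nmT T' k ↔ up j i ≠ up k l)

theorem lkM_of {m : ℕ → ℕ} {T T' : Tri} {i j k l : Ix} {y : Pass} (h1 : y = ps T j (up j i))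
    (h2 : part m y = ps T' k (up k l)) (t1 : ty i ≠ ty j) (t2 : ty k ≠ ty l) :
    LkM m T i j T' k l := by
  have c : m (nmT T j) = nmT T' k := by
    have := congrArg Pass.crossing h2
    rw [part_cross, h1] at this
    exact this
  refine ⟨t1, t2, c, ?_⟩
  have ho := congrArg Pass.isOver h2
  rcases part_over (m := m) (x := y) with ⟨k1, k2⟩ | ⟨k1, k2⟩
  · rw [k2, h1] at ho
    have ho : up j i = up k l := ho
    rw [h1] at k1
    have k1 : m (nmT T j) ≠ nmT T j := k1
    constructor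
    · intro e; exact absurd (c.trans e.symm) k1
    · intro e; exact absurd ho e
  · rw [k2, h1] at ho
    have ho : (!up j i) = up k l := ho
    rw [h1] at k1
    have k1 : m (nmT T j) = nmT T j := k1
    constructor
    · intro _ e
      rw [← ho] at e
      cases h : up j i <;> rw [h] at e <;> simp at e
    · intro _
      rw [← k1, c]

/-- the end with this name is joined with the boundary -/
def Leg (Ts : List Tri) (m : ℕ → ℕ) (c : ℕ) : Prop := ¬Names Ts (m c)

/-- the charge of the corners of a triple point -/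
def cs (x : ℕ → ℕ → ℕ) (T : Tri) : ℕ := (crn.map fun c => x (nmT T c.1) (nmT T c.2)).sum

open Classical in
/-- the number of free corners -/
noncomputable def fc (Ts : List Tri) (m : ℕ → ℕ) (T : Tri) : ℕ :=
  (crn.map fun c => if Leg Ts m (nmT T c.1) ∧ Leg Ts m (nmT T c.2) then 1 else 0).sum

/-- no end is joined with another triple point -/
def Iso (Ts : List Tri) (m : ℕ → ℕ) (T : Tri) : Prop :=
  ∀ i, Names Ts (m (nmT T i)) → Nam T (m (nmT T i))

/-- charges -/
structure ChM (Ts : List Tri) (m : ℕ → ℕ) (x : ℕ → ℕ → ℕ) : Prop where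
  lev : ∀ T ∈ Ts, Lvl T
  symm : ∀ c c', x c c' = x c' c
  one : ∀ T ∈ Ts, ¬Iso Ts m T → ∀ i j, LkM m T i j T i j → 3 ≤ x (nmT T i) (nmT T j)
  two : ∀ T ∈ Ts, ∀ T' ∈ Ts, ¬Iso Ts m T → ∀ i j k l, LkM m T i j T' k l → LkM m T' k l T i j →
    2 ≤ x (nmT T i) (nmT T j) + x (nmT T' k) (nmT T' l)
  three : ∀ T ∈ Ts, ∀ T' ∈ Ts, ∀ T'' ∈ Ts, ¬Iso Ts m T → ∀ i j k l n r, LkM m T i j T' k l →
    LkM m T' k l T'' n r → LkM m T'' n r T i j →
    1 ≤ x (nmT T i) (nmT T j) + x (nmT T' k) (nmT T' l) + x (nmT T'' n) (nmT T'' r)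
  sum : (Ts.map fun T => cs x T - fc Ts m T).sum ≤ 3

/-- the class -/
def PX (Ts : List Tri) (m : ℕ → ℕ) : Prop :=
  (∀ T ∈ Ts, ∀ c, Nam T c → colour c = 0) ∧ ∃ x, ChM Ts m x

theorem lkM_congr {m m' : ℕ → ℕ} {T T' : Tri} {i j k l : Ix}
    (h : m' (nmT T j) = nmT T' k → m (nmT T j) = nmT T' k) (hl : LkM m' T i j T' k l) :
    LkM m T i j T' k l := ⟨hl.1, hl.2.1, h hl.2.2.1, hl.2.2.2⟩

theorem fc_mono {Ts Ts' : List Tri} {m m' : ℕ → ℕ} {T : Tri}
    (h : ∀ i, Leg Ts m (nmT T i) → Leg Ts' m' (nmT T i)) : fc Ts m T ≤ fc Ts' m' T := by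
  classical
  unfold fc
  refine List.sum_le_sum fun c _ => ?_
  by_cases h1 : Leg Ts m (nmT T c.1) ∧ Leg Ts m (nmT T c.2)
  · rw [if_pos h1, if_pos ⟨h _ h1.1, h _ h1.2⟩]
  · rw [if_neg h1]; exact Nat.zero_le _

/-- fewer triple points -/
theorem ChM.sub {Ts Ts' : List Tri} {m m' : ℕ → ℕ} {x : ℕ → ℕ → ℕ} (h : ChM Ts m x)
    (hs : Ts'.Sublist Ts) (hm : ∀ c c', Names Ts' c → Names Ts' c' → (m' c = c' ↔ m c = c')) :
    ChM Ts' m' x := by
  have hmem : ∀ {T}, T ∈ Ts' → T ∈ Ts := fun hT => hs.subset hT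
  have up' : ∀ {c}, Names Ts' c → Names Ts c := fun ⟨T, hT, hc⟩ => ⟨T, hmem hT, hc⟩
  have iso : ∀ T ∈ Ts', ¬Iso Ts' m' T → ¬Iso Ts m T := by
    intro T hT h1 h2
    refine h1 fun i hi => ?_
    have e := (hm _ _ (names_ix hT i) hi).1 rfl
    rw [← e] at hi ⊢
    exact h2 i (up' hi)
  have lk : ∀ {T T' i j k l}, T ∈ Ts' → T' ∈ Ts' → LkM m' T i j T' k l → LkM m T i j T' k l :=
    fun hT hT' => lkM_congr (hm _ _ (names_ix hT _) (names_ix hT' _)).1
  refine ⟨fun T hT => h.lev T (hmem hT), h.symm, ?_, ?_, ?_, ?_⟩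
  · intro T hT hi i j hl
    exact h.one T (hmem hT) (iso T hT hi) i j (lk hT hT hl)
  · intro T hT T' hT' hi i j k l h1 h2
    exact h.two T (hmem hT) T' (hmem hT') (iso T hT hi) i j k l (lk hT hT' h1) (lk hT' hT h2)
  · intro T hT T' hT' T'' hT'' hi i j k l n r h1 h2 h3
    exact h.three T (hmem hT) T' (hmem hT') T'' (hmem hT'') (iso T hT hi) i j k l n r
      (lk hT hT' h1) (lk hT' hT'' h2) (lk hT'' hT h3)
  · refine le_trans ?_ h.sum
    have h1 : (Ts'.map fun T => cs x T - fc Ts' m' T).sum ≤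
        (Ts'.map fun T => cs x T - fc Ts m T).sum := by
      refine List.sum_le_sum fun T hT => ?_
      have := fc_mono (Ts := Ts) (Ts' := Ts') (m := m) (m' := m') (T := T) (by
        intro i hl hN
        refine hl ?_
        rw [(hm _ _ (names_ix hT i) hN).1 rfl]
        exact up' hN)
      omega
    exact h1.trans ((hs.map _).sum_le_sum fun _ _ => Nat.zero_le _)

end Pool.Agent.V11206
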