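import Pool.Agent.V11206.ChA

/-! The closure properties of the class; uniqueness of the corners. -/

set_option autoImplicit false

namespace Pool.Agent.V11206

open Pool.Agent.Y468.SR
open Pool.Agent.Y874.TP hiding InvM InvC CM CReid CStep SMovie Inv3
open Pool.Agent.Y874.TP2
open Pool.Agent.Y761.TP2 (uniq side part_mem)

set_option linter.unusedSimpArgs false
set_option linter.unusedVariables false

theorem same_nm {T' T : Tri} (h : SameTri T' T) : nmT T' = nmT T ∧ (Lvl T → Lvl T') := by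
  obtain ⟨i, j, k, rfl⟩ := h
  exact ⟨rfl, fun h => ⟨h.ta, h.tb, h.tc⟩⟩

theorem forall2_left {α β : Type} {r : α → β → Prop} {l : List α} {l' : List β}
    (h : List.Forall₂ r l l') : ∀ a ∈ l, ∃ b ∈ l', r a b := by
  induction h with
  | nil => intro a ha; exact absurd ha (by simp)
  | cons h _ ih =>
    intro a ha
    rcases List.mem_cons.1 ha with rfl | ha
    · exact ⟨_, by simp, h⟩
    · obtain ⟨b, hb, hr⟩ := ih a ha
      exact ⟨b, List.mem_cons_of_mem _ hb, hr⟩

theorem forall2_sum {α β : Type} {r : α → β → Prop} {f : α → ℕ} {g : β → ℕ} {l : List α}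
    {l' : List β} (h : List.Forall₂ r l l') (hr : ∀ a b, r a b → f a = g b) :
    (l.map f).sum = (l'.map g).sum := by
  induction h with
  | nil => rfl
  | cons h _ ih => rw [List.map_cons, List.map_cons, List.sum_cons, List.sum_cons, ih, hr _ _ h]

theorem px_cls : Cls0 PX where
  same := by
    rintro Ts' Ts m h ⟨h1, x, h2⟩
    have hN : ∀ c, Names Ts' c ↔ Names Ts c := names_same h
    have F : ∀ T' ∈ Ts', ∃ T ∈ Ts, nmT T' = nmT T ∧ (Lvl T → Lvl T') := by
      intro T' hT'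
      obtain ⟨T, hT, hs⟩ := forall2_left h T' hT'
      exact ⟨T, hT, same_nm hs⟩
    have hnam : ∀ {T' T : Tri}, nmT T' = nmT T → ∀ c, Nam T' c ↔ Nam T c := by
      intro T' T e c
      rw [nam_ix, nam_ix, e]
    have iso : ∀ {T' T : Tri}, nmT T' = nmT T → (¬Iso Ts' m T' → ¬Iso Ts m T) := by
      intro T' T e h1 h2
      refine h1 fun i hi => ?_
      rw [hnam e, e]
      rw [e, hN] at hi
      exact h2 i hi
    have lk : ∀ {T₁' T₁ T₂' T₂ : Tri} {i j k l : Ix}, nmT T₁' = nmT T₁ → nmT T₂' = nmT T₂ →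
        LkM m T₁' i j T₂' k l → LkM m T₁ i j T₂ k l := by
      intro T₁' T₁ T₂' T₂ i j k l e1 e2 hl
      unfold LkM at hl ⊢
      rw [e1, e2] at hl
      exact hl
    refine ⟨fun T' hT' c hc => ?_, x, ?_, h2.symm, ?_, ?_, ?_, ?_⟩
    · obtain ⟨T, hT, k⟩ := (names_same h c).1 ⟨T', hT', hc⟩
      exact h1 T hT c k
    · intro T' hT'
      obtain ⟨T, hT, -, hl⟩ := F T' hT'
      exact hl (h2.lev T hT)
    · intro T' hT' hi i j hl
      obtain ⟨T, hT, e, -⟩ := F T' hT'
      rw [e]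
      exact h2.one T hT (iso e hi) i j (lk e e hl)
    · intro T₁' hT₁' T₂' hT₂' hi i j k l l1 l2
      obtain ⟨T₁, hT₁, e₁, -⟩ := F T₁' hT₁'
      obtain ⟨T₂, hT₂, e₂, -⟩ := F T₂' hT₂'
      rw [e₁, e₂]
      exact h2.two T₁ hT₁ T₂ hT₂ (iso e₁ hi) i j k l (lk e₁ e₂ l1) (lk e₂ e₁ l2)
    · intro T₁' hT₁' T₂' hT₂' T₃' hT₃' hi i j k l n r l1 l2 l3
      obtain ⟨T₁, hT₁, e₁, -⟩ := F T₁' hT₁'
      obtain ⟨T₂, hT₂, e₂, -⟩ := F T₂' hT₂'
      obtain ⟨T₃, hT₃, e₃, -⟩ := F T₃' hT₃'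
      rw [e₁, e₂, e₃]
      exact h2.three T₁ hT₁ T₂ hT₂ T₃ hT₃ (iso e₁ hi) i j k l n r (lk e₁ e₂ l1) (lk e₂ e₃ l2)
        (lk e₃ e₁ l3)
    · rw [forall2_sum (g := fun T => cs x T - fc Ts m T) h fun T' T hs => ?_]
      · exact h2.sum
      · obtain ⟨e, -⟩ := same_nm hs
        have e1 : cs x T' = cs x T := by unfold cs; rw [e]
        have e2 : fc Ts' m T' = fc Ts m T := by
          have hL : ∀ i, Leg Ts' m (nmT T' i) ↔ Leg Ts m (nmT T i) := by
            intro i
            unfold Leg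
            rw [e, hN]
          classical
          unfold fc
          refine congrArg List.sum (List.map_congr_left fun c _ => ?_)
          exact if_congr (and_congr (hL _) (hL _)) rfl rfl
        rw [e1, e2]
  del := by
    rintro l₁ T l₂ m m' ⟨h1, x, h2⟩ h3
    have hs : (l₁ ++ l₂).Sublist (l₁ ++ T :: l₂) :=
      List.Sublist.append (List.Sublist.refl _) (List.sublist_cons_self _ _)
    refine ⟨fun T' hT' => h1 T' (hs.subset hT'), x, h2.sub hs ?_⟩
    intro c c' hc hc'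
    obtain ⟨p, hp, rfl⟩ := names_pass hc
    obtain ⟨q, hq, rfl⟩ := names_pass hc'
    exact h3 p hp q hq

/-- the elimination of an isolated triple point -/
theorem px_iso {l₁ l₂ : List Tri} {T : Tri} {m m' : ℕ → ℕ} (h : PX (l₁ ++ T :: l₂) m)
    (hinv : ∀ c, Names (l₁ ++ T :: l₂) c → m (m c) = c)
    (hd : ∀ c, Names (l₁ ++ l₂) c → ¬Nam T c)
    (hi : Iso (l₁ ++ T :: l₂) m T)
    (htr : ∀ c, Names (l₁ ++ l₂) c → m' c = m c ∨
      (Nam T (m c) ∧ (m' c = c ∨ ∃ y, Nam T y ∧ m' c = m y))) : PX (l₁ ++ l₂) m' := by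
  obtain ⟨h1, x, h2⟩ := h
  have hs : (l₁ ++ l₂).Sublist (l₁ ++ T :: l₂) :=
    List.Sublist.append (List.Sublist.refl _) (List.sublist_cons_self _ _)
  have e : ∀ c, Names (l₁ ++ l₂) c → m' c = m c := by
    intro c hc
    rcases htr c hc with h3 | ⟨h3, -⟩
    · exact h3
    · exfalso
      obtain ⟨T', hT', k⟩ := hc
      have hN : Names (l₁ ++ T :: l₂) c := ⟨T', hs.subset hT', k⟩
      obtain ⟨i, hi'⟩ := nam_ix.1 h3
      have := hi i (by rw [← hi', hinv c hN]; exact hN)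
      rw [← hi', hinv c hN] at this
      exact hd c ⟨T', hT', k⟩ this
  refine ⟨fun T' hT' => h1 T' (hs.subset hT'), x, h2.sub hs ?_⟩
  intro c c' hc hc'
  rw [e c hc]

/-! ### corners -/

section cor
variable {D : Code} {Ts : List Tri} {m : ℕ → ℕ}

theorem cor_uniq (hw : WF (passes (D ++ TC Ts))) {p q q' : Pass} (h : Cor (TC Ts) p q)
    (h' : Cor (TC Ts) p q') : q = q' := by
  obtain ⟨T, hT, n1⟩ := cor_TC h
  obtain ⟨T', hT', n2⟩ := cor_TC h'
  have := same_tri hw hT hT' (nx_mem n1).1 (nx_mem n2).1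
  subst this
  obtain ⟨i, l, e1, e2⟩ := nx_nxt n1
  obtain ⟨i', l', e3, e4⟩ := nx_nxt n2
  obtain ⟨rfl, rfl⟩ := ps_inj (six_of hw hT) (e1.symm.trans e3)
  rw [e2, e4]

open Classical in
/-- the weights of the corners -/
noncomputable def wq (D : Code) (Ts : List Tri) (m : ℕ → ℕ) (x : ℕ → ℕ → ℕ) (p : Pass) : ℕ :=
  if p ∈ passes D then 2 else if H : ∃ q, Cor (TC Ts) p q then
    (if Leg Ts m p.crossing ∧ Leg Ts m H.choose.crossing then 0 else 1) +
      x p.crossing H.choose.crossing else 0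

open Classical in
theorem wq_cor {x : ℕ → ℕ → ℕ} (hD : WF (passes D)) (hw : WF (passes (D ++ TC Ts))) {p q : Pass}
    (h : Cor (TC Ts) p q) : wq D Ts m x p =
      (if Leg Ts m p.crossing ∧ Leg Ts m q.crossing then 0 else 1) +
      x p.crossing q.crossing := by
  have hp : p ∉ passes D := by
    intro hp
    obtain ⟨C, hC, hc⟩ := h
    exact sep hD hw hp (mem_passes.2 ⟨C, hC, (cadj_mem hc).1⟩) rfl
  have H : ∃ q, Cor (TC Ts) p q := ⟨q, h⟩
  unfold wq
  rw [if_neg hp, dif_pos H, cor_uniq hw H.choose_spec h]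

theorem wq_D {x : ℕ → ℕ → ℕ} {p : Pass} (hp : p ∈ passes D) : wq D Ts m x p = 2 := by
  unfold wq; rw [if_pos hp]

/-- the sum over the passages of a triple point -/
theorem sum_code {T : Tri} (h : Lvl T) {f : Pass → ℕ} {W : Ix → Ix → ℕ} (hW : ∀ i j, W i j = W j i)
    (hf : ∀ i l, f (ps T i l) = W i (nT T i l).1) :
    ((passes T.code).map f).sum = (crn.map fun c => W c.1 c.2).sum := by
  have g : ∀ i l, f (ps T i l) = W i (nxt true true true T.ei T.ej T.ek i l).1 := by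
    intro i l
    rw [hf]
    unfold nT
    rw [h.ta, h.tb, h.tc]
  have e : ∀ i, ps T i true = ⟨nmT T i, true, sgv T.sa T.sb T.sc i⟩ ∧
      ps T i false = ⟨nmT T i, false, sgv T.sa T.sb T.sc i⟩ := fun i => ⟨rfl, rfl⟩
  have a1 := g .a1 true
  have a1' := g .a1 false
  have a2 := g .a2 true
  have a2' := g .a2 false
  have b1 := g .b1 true
  have b1' := g .b1 false
  have b2 := g .b2 true
  have b2' := g .b2 false
  have c1 := g .c1 true
  have c1' := g .c1 false
  have c2 := g .c2 true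
  have c2' := g .c2 false
  have s1 := hW .b1 .a1
  have s2 := hW .b2 .a1
  have s3 := hW .b1 .a2
  have s4 := hW .b2 .a2
  have s5 := hW .c1 .a1
  have s6 := hW .c2 .a1
  have s7 := hW .c1 .a2
  have s8 := hW .c2 .a2
  have s9 := hW .c1 .b1
  have s10 := hW .c2 .b1
  have s11 := hW .c1 .b2
  have s12 := hW .c2 .b2
  have p1 : T.pa₁ = ps T .a1 true := by simp [Tri.pa₁, ps, nmT, sgv, h.ta]
  have p2 : T.pa₂ = ps T .a2 true := by simp [Tri.pa₂, ps, nmT, sgv, h.ta]
  have p3 : T.pb₁ = ps T .b1 true := by simp [Tri.pb₁, ps, nmT, sgv, h.tb]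
  have p4 : T.pb₂ = ps T .b2 true := by simp [Tri.pb₂, ps, nmT, sgv, h.tb]
  have p5 : T.pc₁ = ps T .c1 true := by simp [Tri.pc₁, ps, nmT, sgv, h.tc]
  have p6 : T.pc₂ = ps T .c2 true := by simp [Tri.pc₂, ps, nmT, sgv, h.tc]
  have q : ∀ i, (ps T i true).mate = ps T i false := fun i => rfl
  unfold Tri.code
  simp only [passes_cons, passes_nil, List.append_nil, Tri.wi, Tri.wj, Tri.wk, p1, p2, p3, p4, p5, p6,
    q, word4, crn]
  cases hi : T.ei <;> cases hj : T.ej <;> cases hk : T.ek <;>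
    simp only [hi, hj, hk, nxt, beq_self_eq_true, if_true, Bool.false_eq_true, if_false, beq_iff_eq,
      Bool.not_true] at a1 a1' a2 a2' b1 b1' b2 b2' c1 c1' c2 c2' <;>
    simp only [if_true, Bool.false_eq_true, if_false, List.map_append, List.map_cons, List.map_nil,
      List.sum_append, List.sum_cons, List.sum_nil, a1, a1', a2, a2', b1, b1', b2, b2', c1, c1', c2,
      c2'] <;> omega

end cor

end Pool.Agent.V11206
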