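import Pool.Agent.V11206.ChC
import Pool.Agent.V11206.Zero

/-! The reduction of systems with charges. -/

set_option autoImplicit false

namespace Pool.Agent.V11206

open Pool.Agent.Y468.SR
open Pool.Agent.Y874.TP hiding InvM InvC CM CReid CStep SMovie Inv3
open Pool.Agent.Y874.TP2
open Pool.Agent.Y761.TP2 (uniq side part_mem)

set_option linter.unusedSimpArgs false
set_option linter.unusedVariables false

theorem reduceX {D : Code} {Ts : List Tri} (hD : Classical D)
    (hn : (D.map Prod.snd).Nodup) (h3 : InvP PX D Ts) (h : passes D ≠ []) : RedP PX D Ts := by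
  by_contra hr
  obtain ⟨m, hm, hP⟩ := h3.inv
  obtain ⟨h1, x, h2⟩ := id hP
  refine Env.false (D := D) (Ts := Ts) (m := m) (x := x) ⟨hD, hn, h3.wf, hm.1, hm.2.2, h2, ?_, ?_, ?_⟩ h
  · intro C hC p q hc hcc
    exact hr (canc_cyc px_cls hD hn h3.wf h3.ok hm hP hC hc hcc)
  · intro C hC p r hc T hT hN
    exact hr (remT_cyc px_cls hD hn h3.wf h3.ok hm hP hC hc hT hN)
  · intro T hT hi hface
    obtain ⟨l₁, l₂, rfl⟩ := List.append_of_mem hT
    have hperm : (D ++ TC (l₁ ++ T :: l₂)).Perm (D ++ (T.code ++ TC (l₁ ++ l₂))) :=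
      (tc_mid l₁ T l₂).append_left D
    have hS : Sit D (TC (l₁ ++ l₂)) T m :=
      ⟨WF.perm (passes_perm hperm) h3.wf, Pool.Agent.Y874.TP2.invM_perm hperm hm, (h3.ok T hT).1,
        h1 T hT⟩
    have hmem : ∀ T' ∈ l₁ ++ l₂, T' ∈ l₁ ++ T :: l₂ := by
      intro T' hT'
      simp only [List.mem_append, List.mem_cons] at hT' ⊢; tauto
    obtain ⟨g1, m', g2, g3⟩ := single_red hS hface
    refine hr ⟨D, l₁ ++ l₂, Or.inl (by simp), hD, hn, ⟨g1, fun T' hT' => h3.ok T' (hmem T' hT'), m', g2,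
      px_iso hP ?_ ?_ hi ?_⟩, Relation.ReflTransGen.refl⟩
    · intro c hc
      obtain ⟨q, hq, rfl⟩ := names_pass hc
      exact matching_invol hm.1 (by rw [passes_append']; exact List.mem_append_right _ hq)
    · rintro c ⟨T', hT', hc⟩ hc'
      obtain ⟨i, rfl⟩ := nam_ix.1 hc
      obtain ⟨j, hj⟩ := nam_ix.1 hc'
      have e := nm_eq h3.wf (hmem T' hT') hT hj
      subst e
      have hnd := WF.nodup h3.wf
      have hp := passes_perm hperm
      have hnd2 := hp.nodup_iff.1 hnd
      rw [passes_append', passes_append'] at hnd2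
      exact (List.nodup_append.1 (List.nodup_append.1 hnd2).2.1).2.2 _ (ps_mem T' i true) _
        (mem_TC.2 ⟨T', hT', ps_mem T' i true⟩) rfl
    · intro c hc
      obtain ⟨q, hq, rfl⟩ := names_pass hc
      exact g3 _ ⟨q, by rw [passes_append']; exact List.mem_append_right _ hq, rfl⟩

theorem movie_of_x (n : ℕ) : ∀ (l : ℕ) (D : Code)
    (Ts : List Tri), Ts.length = n → (passes D).length = l → Classical D →
    (D.map Prod.snd).Nodup → InvP PX D Ts → Movie true false D [] := by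
  induction n using Nat.strong_induction_on with
  | _ n ihn =>
    intro l
    induction l using Nat.strong_induction_on with
    | _ l ihl =>
      intro D Ts h1 h2 hD hn h3
      by_cases h : passes D = []
      · exact movie_mono (deaths hn h)
      · obtain ⟨D', Ts', r1, r2, r3, r4, r5⟩ := reduceX hD hn h3 h
        refine r5.trans ?_
        rcases r1 with r1 | ⟨r1, r1'⟩
        · exact ihn Ts'.length (by omega) _ D' Ts' rfl rfl r2 r3 r4
        · exact ihl (passes D').length (by omega) D' Ts' (by omega) rfl r2 r3 r4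

theorem movie_zeroX {D : Code} {Ts : List Tri}
    {m : ℕ → ℕ} (hD : Classical D) (hn : (D.map Prod.snd).Nodup)
    (hw : WF (passes (D ++ TC Ts))) (hok : ∀ T ∈ Ts, T.Ok) (hM : Matching (passes (D ++ TC Ts)) m)
    (hN : NullV (D ++ TC Ts) m) (hP : PX (Ts.map (Tri.rename zf)) (fun c => zf (m (zg c)))) :
    Movie true false D [] := by
  have e : renamed zf (D ++ TC Ts) = renamed zf D ++ TC (Ts.map (Tri.rename zf)) := by
    rw [renamed_append, TC_rename]
  have hw' : WF (passes (renamed zf D ++ TC (Ts.map (Tri.rename zf)))) := by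
    rw [← e, passes_renamed]
    exact hw.ren (fun p _ q _ he => zf_inj he)
  have hI : InvM (renamed zf D ++ TC (Ts.map (Tri.rename zf))) (fun c => zf (m (zg c))) := by
    rw [← e]
    exact invM_zf hM hN
  have hn' : ((renamed zf D).map Prod.snd).Nodup := by
    have : (renamed zf D).map Prod.snd = D.map Prod.snd := by
      rw [renamed_def, List.map_map]; rfl
    rw [this]; exact hn
  refine Movie.head hD (classical_zf hD) (Step.rename zf D fun p _ q _ he => zf_inj he)
    (movie_of_x _ _ _ _ rfl rfl (classical_zf hD) hn' ⟨hw', ?_, _, hI, hP⟩)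
  intro T' hT'
  obtain ⟨T, hT, rfl⟩ := List.mem_map.1 hT'
  refine ⟨hok T hT, ?_⟩
  unfold Tri.Col Tri.rename
  simp only [colour_zf, and_self]

/-! ### new names -/

theorem nmT_zf' (T : Tri) (i : Ix) : nmT (T.rename zf) i = zf (nmT T i) := by cases i <;> rfl

theorem chM_zf {Ts : List Tri} {m : ℕ → ℕ} {x : ℕ → ℕ → ℕ} (h : ChM Ts m x) :
    PX (Ts.map (Tri.rename zf)) (fun c => zf (m (zg c))) := by
  have hz : ∀ {a b : ℕ}, zf a = zf b ↔ a = b := ⟨zf_inj, fun h => by rw [h]⟩
  have iso : ∀ T ∈ Ts, ¬Iso (Ts.map (Tri.rename zf)) (fun c => zf (m (zg c))) (T.rename zf) →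
      ¬Iso Ts m T := by
    intro T hT h1 h2
    refine h1 fun i hi => ?_
    simp only [nmT_zf', zg_zf] at hi ⊢
    obtain ⟨c, hc, e⟩ := names_zf.1 hi
    rw [← zf_inj e] at hc
    exact nam_zf.2 ⟨_, h2 i hc, rfl⟩
  have lk : ∀ {T T' : Tri} {i j k l : Ix}, LkM (fun c => zf (m (zg c))) (T.rename zf) i j
      (T'.rename zf) k l → LkM m T i j T' k l := by
    intro T T' i j k l hl
    unfold LkM at hl ⊢
    simp only [nmT_zf', zg_zf, hz] at hl
    exact hl
  have leg : ∀ c, Leg (Ts.map (Tri.rename zf)) (fun c => zf (m (zg c))) (zf c) ↔ Leg Ts m c := by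
    intro c
    unfold Leg
    rw [not_iff_not, names_zf]
    simp only [zg_zf]
    constructor
    · rintro ⟨c₀, h1, h2⟩
      rw [zf_inj h2]; exact h1
    · intro h1; exact ⟨_, h1, rfl⟩
  refine ⟨?_, fun c c' => x (zg c) (zg c'), ?_, fun c c' => h.symm _ _, ?_, ?_, ?_, ?_⟩
  · intro T' hT' c hc
    obtain ⟨T, hT, rfl⟩ := List.mem_map.1 hT'
    obtain ⟨c₀, -, rfl⟩ := nam_zf.1 hc
    exact colour_zf c₀
  · intro T' hT'
    obtain ⟨T, hT, rfl⟩ := List.mem_map.1 hT'
    have := h.lev T hT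
    exact ⟨this.ta, this.tb, this.tc⟩
  · intro T' hT' hi i j hl
    obtain ⟨T, hT, rfl⟩ := List.mem_map.1 hT'
    simp only [nmT_zf', zg_zf]
    exact h.one T hT (iso T hT hi) i j (lk hl)
  · intro T₁' hT₁' T₂' hT₂' hi i j k l l1 l2
    obtain ⟨T₁, hT₁, rfl⟩ := List.mem_map.1 hT₁'
    obtain ⟨T₂, hT₂, rfl⟩ := List.mem_map.1 hT₂'
    simp only [nmT_zf', zg_zf]
    exact h.two T₁ hT₁ T₂ hT₂ (iso T₁ hT₁ hi) i j k l (lk l1) (lk l2)
  · intro T₁' hT₁' T₂' hT₂' T₃' hT₃' hi i j k l n r l1 l2 l3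
    obtain ⟨T₁, hT₁, rfl⟩ := List.mem_map.1 hT₁'
    obtain ⟨T₂, hT₂, rfl⟩ := List.mem_map.1 hT₂'
    obtain ⟨T₃, hT₃, rfl⟩ := List.mem_map.1 hT₃'
    simp only [nmT_zf', zg_zf]
    exact h.three T₁ hT₁ T₂ hT₂ T₃ hT₃ (iso T₁ hT₁ hi) i j k l n r (lk l1) (lk l2) (lk l3)
  · refine le_trans (le_of_eq ?_) h.sum
    rw [List.map_map]
    refine congrArg List.sum (List.map_congr_left fun T hT => ?_)
    classical
    have e1 : cs (fun c c' => x (zg c) (zg c')) (T.rename zf) = cs x T := by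
      unfold cs
      simp only [nmT_zf', zg_zf]
    have e2 : fc (Ts.map (Tri.rename zf)) (fun c => zf (m (zg c))) (T.rename zf) = fc Ts m T := by
      unfold fc
      refine congrArg List.sum (List.map_congr_left fun c _ => ?_)
      refine if_congr ?_ rfl rfl
      rw [nmT_zf', nmT_zf', leg, leg]
    simp only [Function.comp, e1, e2]

end Pool.Agent.V11206
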