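import Pool.Agent.V11206.BDefs
import Mathlib.Algebra.BigOperators.Group.Finset.Basic

/-!
# Charges of corners

At each triple point of the list `R` (of the colours of the double arcs ending there, see `AMovie`)
there are six ends of double arcs with the numbers `0, …, 5` (their places in the list `ends`): the
ends `0, 3` belong to the double curve number `0` (of the top and middle sheets), the ends `1, 4` to
the double curve number `1` (of the top and bottom sheets), the ends `2, 5` to the double curve number
`2` (of the middle and bottom sheets). A corner of a triple point consists of two ends of different
double curves; it lies in the sheet containing both of them, and each sheet has four corners.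
-/

set_option autoImplicit false

namespace Pool.Agent.V11206

/-- the end number `i` at the `p`-th triple point has the colour `k` -/
def EndCol (R : List Trp) (p i k : ℕ) : Prop := ∃ e, R[p]? = some e ∧ (ends e)[i]? = some k

/-- The end number `i` at the `p`-th triple point is free: its colour is odd (branch points are
allowed at even colours only) and occurs at no other end. Then the double arc leads from the triple
point to the link. -/
def Free (R : List Trp) (p i : ℕ) : Prop :=
  ∃ k, EndCol R p i k ∧ k % 2 = 1 ∧ ∀ q j, EndCol R q j k → q = p ∧ j = i

/-- the lift of the double curve number `s` in the sheet which contains the double curves with the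
numbers `s` and `t` (`s ≠ t`) is its upper lift -/
def Upper (s t : ℕ) : Prop := s + t = 1 ∨ t = 0

/-- The corner `(i, j)` of the `p`-th triple point may be followed by the corner `(k, l)` of the
`q`-th one: the ends `j` and `k` have the same colour and belong to the same lift of a double arc
(so that `Upper` is the same for both), or they are the same end, its colour is even, and the
lifts in the two sheets are different (they may meet in a branch point). -/
def Follows (R : List Trp) (p i j q k l : ℕ) : Prop :=
  i % 3 ≠ j % 3 ∧ k % 3 ≠ l % 3 ∧ ∃ c, EndCol R p j c ∧ EndCol R q k c ∧
    (¬(p = q ∧ j = k) ∧ (Upper (j % 3) (i % 3) ↔ Upper (k % 3) (l % 3)) ∨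
      (p = q ∧ j = k) ∧ c % 2 = 0 ∧ ¬(Upper (j % 3) (i % 3) ↔ Upper (k % 3) (l % 3)))

/-- a colour at the `p`-th triple point occurs at another triple point, too -/
def Linked (R : List Trp) (p : ℕ) : Prop :=
  ∃ i k q j, EndCol R p i k ∧ EndCol R q j k ∧ q ≠ p

/-- the twelve corners of a triple point -/
def corners : List (ℕ × ℕ) :=
  [(0, 1), (0, 4), (3, 1), (3, 4), (0, 2), (0, 5), (3, 2), (3, 5), (1, 2), (1, 5), (4, 2), (4, 5)]

open Classical in
/-- the number of the corners of the `p`-th triple point both whose ends are free -/
noncomputable def freeCorners (R : List Trp) (p : ℕ) : ℕ :=
  (corners.filter fun c => decide (Free R p c.1 ∧ Free R p c.2)).length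

/-- The natural number `x p i j` is the charge of the corner `(i, j)` of the `p`-th triple point.
Each closed chain of `n ≤ 3` corners, in which each corner is followed by the next one and which does
not lie at a triple point with no colours in common with the other ones, has charge at least `4 - n`.
The sum, over the triple points, of the excess of the charge of their corners over the number of
their free corners (if it is positive) is at most three. -/
structure Charge (R : List Trp) (x : ℕ → ℕ → ℕ → ℕ) : Prop where
  symm : ∀ p i j, x p i j = x p j i
  one : ∀ p i j, Linked R p → Follows R p i j p i j → 3 ≤ x p i j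
  two : ∀ p i j q k l, Linked R p → Follows R p i j q k l → Follows R q k l p i j →
    2 ≤ x p i j + x q k l
  three : ∀ p i j q k l r m n, Linked R p → Follows R p i j q k l → Follows R q k l r m n →
    Follows R r m n p i j → 1 ≤ x p i j + x q k l + x r m n
  sum : ∑ p ∈ Finset.range R.length,
    ((corners.map fun c => x p c.1 c.2).sum - freeCorners R p) ≤ 3

end Pool.Agent.V11206
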