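import Pool.Agent.V11206.AFin
import Pool.Agent.V11206.ChD

/-! Movies with coloured double arcs yield systems of triple points with the levels of top, middle
and bottom sheets; adapted from `ALift`. -/

set_option autoImplicit false

namespace Pool.Agent.V11206

open Pool.Agent.Y468.SR
open Pool.Agent.Y874.TP hiding InvM InvC CM CReid CStep SMovie Inv3 S_REID S_REN S_THREE
open Pool.Agent.Y874.TP2
open Pool.Agent.Y874.TP2.T3 (TC_append)
open Pool.Agent.Y874.TP2.T4

/-- the invariant -/
structure InvL (D : Code) (Ts : List Tri) : Prop where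
  wf : WF (passes (D ++ TC Ts))
  ok : ∀ T ∈ Ts, T.Ok ∧ Lvl T
  inv : InvC (D ++ TC Ts)

theorem freshL (hren : S_REN) {D : Code} {Ts : List Tri} (hD : WF (passes D)) (h : InvL D Ts)
    (F : List Pass) : ∃ Ts', InvL D Ts' ∧ Ts'.map sigA = Ts.map sigA ∧
      ∀ p ∈ F, ∀ q ∈ passes (TC Ts'), q.crossing ≠ p.crossing := by
  classical
  obtain ⟨K, hK⟩ := exists_bound (passes D ++ F)
  set f : ℕ → ℕ := fun c => if ∃ p ∈ passes D, p.crossing = c then c else
    Nat.pair (colour c) (K + c) with hf
  have f1 : ∀ p ∈ passes D, f p.crossing = p.crossing := by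
    intro p hp; rw [hf]; simp only; rw [if_pos ⟨p, hp, rfl⟩]
  have f2 : ∀ p ∈ passes (TC Ts), f p.crossing = Nat.pair (colour p.crossing) (K + p.crossing) := by
    intro p hp
    rw [hf]; simp only
    rw [if_neg]
    rintro ⟨q, hq, h1⟩
    exact sep hD h.wf hq hp h1.symm
  have f3 : ∀ p ∈ passes (TC Ts), ∀ q ∈ passes D ++ F, f p.crossing ≠ q.crossing := by
    intro p hp q hq he
    have := hK q hq
    rw [← he, f2 p hp, Nat.unpair_pair] at this
    simp only at this
    omega
  have hinj : ∀ p ∈ passes (D ++ TC Ts), ∀ q ∈ passes (D ++ TC Ts),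
      f p.crossing = f q.crossing → p.crossing = q.crossing := by
    intro p hp q hq he
    rw [passes_append', List.mem_append] at hp hq
    rcases hp with hp | hp <;> rcases hq with hq | hq
    · rwa [f1 p hp, f1 q hq] at he
    · rw [f1 p hp] at he
      exact absurd he.symm (f3 q hq p (by simp [hp]))
    · rw [f1 q hq] at he
      exact absurd he (f3 p hp q (by simp [hq]))
    · rw [f2 p hp, f2 q hq, Nat.pair_eq_pair] at he
      omega
  have hcol : ∀ p ∈ passes (D ++ TC Ts), colour (f p.crossing) = colour p.crossing := by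
    intro p hp
    rw [passes_append', List.mem_append] at hp
    rcases hp with hp | hp
    · rw [f1 p hp]
    · rw [f2 p hp, colour, Nat.unpair_pair]
  have hcolT : ∀ T ∈ Ts, ∀ c ∈ T.names, colour (f c) = colour c := by
    intro T hT c hc
    obtain ⟨p, hp, rfl⟩ := exists_pass hT hc
    exact hcol p (by rw [passes_append']; simp [hp])
  have hDren : renamed f D = D := by
    unfold renamed
    conv_rhs => rw [← List.map_id D]
    refine List.map_congr_left fun C hC => ?_
    have : (C.1.map fun p => (⟨f p.crossing, p.isOver, p.isPos⟩ : Pass)) = C.1 := by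
      conv_rhs => rw [← List.map_id C.1]
      refine List.map_congr_left fun p hp => ?_
      rw [f1 p (mem_passes.2 ⟨C, hC, hp⟩)]; rfl
    rw [this]; rfl
  have hE : renamed f (D ++ TC Ts) = D ++ TC (Ts.map (Tri.rename f)) := by
    rw [renamed_append, hDren, TC_rename]
  refine ⟨Ts.map (Tri.rename f), ⟨?_, ?_, ?_⟩, ?_, ?_⟩
  · rw [← hE, passes_renamed]
    exact h.wf.ren hinj
  · intro T' hT'
    obtain ⟨T, hT, rfl⟩ := List.mem_map.1 hT'
    have hl := (h.ok T hT).2
    exact ⟨(h.ok T hT).1, hl.ta, hl.tb, hl.tc⟩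
  · rw [← hE]
    exact (hren f _ hinj hcol).1 h.inv
  · rw [List.map_map]
    refine List.map_congr_left fun T hT => ?_
    have := hcolT T hT
    simp only [Tri.names, List.mem_cons, List.not_mem_nil, or_false, forall_eq_or_imp,
      forall_eq] at this
    obtain ⟨k1, k2, k3, k4, k5, k6⟩ := this
    simp only [Function.comp, sigA, Tri.rename, k1, k2, k3, k4, k5, k6]
  · intro p hp q hq
    rw [TC_rename] at hq
    obtain ⟨q', hq', rfl⟩ := mem_renamed.1 hq
    exact f3 q' hq' p (by simp [hp])

theorem invL_mk {D D' : Code} {Ts : List Tri} (hD : WF (passes D)) (hD' : WF (passes D'))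
    (h : InvL D' Ts) (hf : ∀ p ∈ passes D, ∀ q ∈ passes (TC Ts), q.crossing ≠ p.crossing)
    (hi : InvC (D ++ TC Ts)) : InvL D Ts where
  wf := by
    rw [passes_append']
    exact WF.append hD (wf_right hD' h.wf) fun p hp q hq he => hf p hp q hq he.symm
  ok := h.ok
  inv := hi

theorem cstep_liftL (hreid : S_REID) (hren : S_REN) {D D' : Code} {Ts : List Tri}
    (hD : WF (passes D)) (hD' : WF (passes D')) (hs : CStep D D') (h : InvL D' Ts) :
    ∃ Ts', InvL D Ts' ∧ Ts'.map sigA = Ts.map sigA := by
  obtain ⟨Ts₁, h₁, hc, hf⟩ := freshL hren hD' h (passes D)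
  rw [← hc]
  clear h hc Ts
  rename' Ts₁ => Ts, h₁ => h
  have hW : WF (passes (D ++ TC Ts)) := by
    rw [passes_append']
    exact WF.append hD (wf_right hD' h.wf) fun p hp q hq he => hf p hp q hq he.symm
  have hi := h.inv
  cases hs with
  | perm _ _ hp =>
    refine ⟨Ts, invL_mk hD hD' h hf ?_, rfl⟩
    exact invC_perm (hp.symm.append_right _) hi
  | rename f _ hfi hfc =>
    refine ⟨Ts, invL_mk hD hD' h hf ?_, rfl⟩
    classical
    set g : ℕ → ℕ := fun c => if ∃ p ∈ passes D, p.crossing = c then f c else c with hg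
    have g1 : ∀ p ∈ passes D, g p.crossing = f p.crossing := by
      intro p hp; rw [hg]; simp only; rw [if_pos ⟨p, hp, rfl⟩]
    have g2 : ∀ p ∈ passes (TC Ts), g p.crossing = p.crossing := by
      intro p hp
      rw [hg]; simp only
      rw [if_neg]
      rintro ⟨q, hq, h1⟩
      exact hf q hq p hp h1.symm
    have g3 : ∀ p ∈ passes D, ∀ q ∈ passes (TC Ts), f p.crossing ≠ q.crossing := by
      intro p hp q hq he
      have h1 : (⟨f p.crossing, p.isOver, p.isPos⟩ : Pass) ∈ passes (renamed f D) :=
        mem_renamed.2 ⟨p, hp, rfl⟩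
      exact sep hD' h.wf h1 hq he.symm
    have e : renamed g (D ++ TC Ts) = renamed f D ++ TC Ts := by
      rw [renamed_append]
      congr 1
      · unfold renamed
        refine List.map_congr_left fun C hC => ?_
        have : (C.1.map fun p => (⟨g p.crossing, p.isOver, p.isPos⟩ : Pass)) =
            C.1.map fun p => (⟨f p.crossing, p.isOver, p.isPos⟩ : Pass) :=
          List.map_congr_left fun p hp => by rw [g1 p (mem_passes.2 ⟨C, hC, hp⟩)]
        rw [this]
      · unfold renamed
        conv_rhs => rw [← List.map_id (TC Ts)]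
        refine List.map_congr_left fun C hC => ?_
        have : (C.1.map fun p => (⟨g p.crossing, p.isOver, p.isPos⟩ : Pass)) = C.1 := by
          conv_rhs => rw [← List.map_id C.1]
          exact List.map_congr_left fun p hp => by
            rw [g2 p (mem_passes.2 ⟨C, hC, hp⟩)]; rfl
        rw [this]; rfl
    refine (hren g _ ?_ ?_).2 (by rw [e]; exact hi)
    · intro p hp q hq he
      rw [passes_append', List.mem_append] at hp hq
      rcases hp with hp | hp <;> rcases hq with hq | hq
      · rw [g1 p hp, g1 q hq] at he; exact hfi p hp q hq he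
      · rw [g1 p hp, g2 q hq] at he; exact absurd he (g3 p hp q hq)
      · rw [g2 p hp, g1 q hq] at he; exact absurd he.symm (g3 q hq p hp)
      · rwa [g2 p hp, g2 q hq] at he
    · intro p hp
      rw [passes_append', List.mem_append] at hp
      rcases hp with hp | hp
      · rw [g1 p hp]; exact hfc p hp
      · rw [g2 p hp]
  | rotate x y b R =>
    refine ⟨Ts, invL_mk hD hD' h hf ?_, rfl⟩
    obtain ⟨m, hm⟩ := hi
    exact ⟨m, by simpa using invM_rotate (R := R ++ TC Ts) (by simpa using hm)⟩
  | reid _ _ hr =>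
    refine ⟨Ts, invL_mk hD hD' h hf ?_, rfl⟩
    refine (hreid _ _ hW ?_).2 hi
    rw [enc_append, enc_append]
    exact creid_append hr _
  | reidInv _ _ hr =>
    refine ⟨Ts, invL_mk hD hD' h hf ?_, rfl⟩
    refine (hreid _ _ h.wf ?_).1 hi
    rw [enc_append, enc_append]
    exact creid_append hr _
  | death b R hb =>
    refine ⟨Ts, invL_mk hD hD' h hf ?_, rfl⟩
    obtain ⟨m, hm⟩ := hi
    refine ⟨m, invM_of (fun r => ?_) (fun G _ o u hn a => ?_) hm⟩
    · simp
    · have := hn a
      simp only [vals, List.map_cons, List.cons_append, bv_cons, wval_nil] at this ⊢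
      split_ifs
      · exact CN.one_cons.2 this
      · exact this
  | birth b R hb =>
    refine ⟨Ts, invL_mk hD hD' h hf ?_, rfl⟩
    obtain ⟨m, hm⟩ := hi
    refine ⟨m, invM_of (fun r => ?_) (fun G _ o u hn a => ?_) hm⟩
    · simp
    · have := hn a
      simp only [vals, List.map_cons, List.cons_append, bv_cons, wval_nil] at this ⊢
      split_ifs at this
      · exact CN.one_cons.1 this
      · exact this
  | split x y b b' R hb =>
    obtain ⟨m, hm⟩ := hi
    have h2 := split_inv (S := R ++ TC Ts) hb hm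
    rw [List.map_append, ← TC_relabel (fun t => if t = b' then b else t) Ts] at h2
    refine ⟨Ts.map (Tri.relabel fun t => if t = b' then b else t), ?_, sigA_relabel _ Ts⟩
    refine ⟨?_, fun T hT => ?_, m, h2⟩
    · rw [passes_append'] at hW ⊢
      rw [TC_relabel, passes_relabel (TC Ts) fun t => if t = b' then b else t]
      exact hW
    · obtain ⟨T', hT', rfl⟩ := List.mem_map.1 hT
      have hl := (h.ok T' hT').2
      exact ⟨(h.ok T' hT').1, hl.ta, hl.tb, hl.tc⟩
  | merge x y b R =>
    refine ⟨Ts, invL_mk hD hD' h hf ?_, rfl⟩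
    obtain ⟨m, hm⟩ := hi
    refine ⟨m, invM_of (fun r => ?_) (fun G _ o u hn a => ?_) hm⟩
    · simp
    · have := hn a
      simp only [vals, List.map_cons, List.cons_append, bv_cons, wval_append] at this ⊢
      split_ifs at this ⊢ with h
      · exact this.cut
      · exact this

theorem three_liftL (hren : S_REN) {D D' : Code} {Ts : List Tri} {A B C E : List (Pass ⊕ ℕ)}
    {X Y W t m b : Pass × Pass} {x y z : ℕ} (hT : TriAt x y z t m b)
    (hP : List.Perm [X, Y, W] [t, m, b])
    (hE : enc D = A ++ two X.1 X.2 ++ B ++ two Y.1 Y.2 ++ C ++ two W.1 W.2 ++ E)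
    (hE' : enc D' = A ++ two X.2 X.1 ++ B ++ two Y.2 Y.1 ++ C ++ two W.2 W.1 ++ E)
    {f : ℕ → ℕ} (hf : ∀ p ∈ passes D', ∀ q ∈ passes D',
      f p.crossing = f q.crossing → p.crossing = q.crossing)
    (hfc : ∀ p ∈ passes D', p.crossing ≠ x → p.crossing ≠ y → p.crossing ≠ z →
      colour (f p.crossing) = colour p.crossing)
    (hD : WF (passes D)) (h0 : InvL (renamed f D') Ts) : ∃ (T : Tri) (Ts' : List Tri),
      InvL D (T :: Ts') ∧ Ts'.map sigA = Ts.map sigA ∧
      sigA T = ((colour x, colour y, colour z), (colour (f x), colour (f y), colour (f z))) := by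
  classical
  have hperm : (passes D).Perm (passes D') := by
    rw [← pl_enc, ← pl_enc, hE, hE', List.perm_iff_count]
    intro a
    simp only [pl_append, pl_two, List.count_append, List.count_cons, List.count_nil]
    omega
  have hW' : WF (passes D') := WF.perm hperm hD
  have hWf : WF (passes (renamed f D')) := by
    rw [passes_renamed]
    exact hW'.ren hf
  obtain ⟨Ts₁, h1, hsig, hfresh⟩ := freshL hren hWf h0 (passes D)
  have hfr' : ∀ p ∈ passes D', ∀ q ∈ passes (TC Ts₁), q.crossing ≠ p.crossing :=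
    fun p hp => hfresh p (hperm.mem_iff.2 hp)
  have hW : WF (passes (D ++ TC Ts₁)) := by
    rw [passes_append']
    exact WF.append hD (wf_right hWf h1.wf) fun p hp q hq he => hfresh p hp q hq he.symm
  set g : ℕ → ℕ := fun c => if ∃ p ∈ passes D', p.crossing = c then f c else c with hg
  have g1 : ∀ p ∈ passes D', g p.crossing = f p.crossing := by
    intro p hp; rw [hg]; simp only; rw [if_pos ⟨p, hp, rfl⟩]
  have g2 : ∀ p ∈ passes (TC Ts₁), g p.crossing = p.crossing := by
    intro p hp
    rw [hg]; simp only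
    rw [if_neg]
    rintro ⟨q, hq, h1⟩
    exact hfr' q hq p hp h1.symm
  have g3 : ∀ p ∈ passes D', ∀ q ∈ passes (TC Ts₁), f p.crossing ≠ q.crossing := by
    intro p hp q hq he
    have h2 : (⟨f p.crossing, p.isOver, p.isPos⟩ : Pass) ∈ passes (renamed f D') :=
      mem_renamed.2 ⟨p, hp, rfl⟩
    exact sep hWf h1.wf h2 hq he.symm
  have e : renamed g (D' ++ TC Ts₁) = renamed f D' ++ TC Ts₁ := by
    rw [renamed_append]
    congr 1
    · unfold renamed
      refine List.map_congr_left fun C hC => ?_
      have : (C.1.map fun p => (⟨g p.crossing, p.isOver, p.isPos⟩ : Pass)) =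
          C.1.map fun p => (⟨f p.crossing, p.isOver, p.isPos⟩ : Pass) :=
        List.map_congr_left fun p hp => by rw [g1 p (mem_passes.2 ⟨C, hC, hp⟩)]
      rw [this]
    · unfold renamed
      conv_rhs => rw [← List.map_id (TC Ts₁)]
      refine List.map_congr_left fun C hC => ?_
      have : (C.1.map fun p => (⟨g p.crossing, p.isOver, p.isPos⟩ : Pass)) = C.1 := by
        conv_rhs => rw [← List.map_id C.1]
        exact List.map_congr_left fun p hp => by
          rw [g2 p (mem_passes.2 ⟨C, hC, hp⟩)]; rfl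
      rw [this]; rfl
  have hginj : ∀ p ∈ passes (D' ++ TC Ts₁), ∀ q ∈ passes (D' ++ TC Ts₁),
      g p.crossing = g q.crossing → p.crossing = q.crossing := by
    intro p hp q hq he
    rw [passes_append', List.mem_append] at hp hq
    rcases hp with hp | hp <;> rcases hq with hq | hq
    · rw [g1 p hp, g1 q hq] at he; exact hf p hp q hq he
    · rw [g1 p hp, g2 q hq] at he; exact absurd he (g3 p hp q hq)
    · rw [g2 p hp, g1 q hq] at he; exact absurd he.symm (g3 q hq p hp)
    · rwa [g2 p hp, g2 q hq] at he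
  obtain ⟨m', hm', hV, hc'⟩ := ren_arc (D := D' ++ TC Ts₁) hginj (by rw [e]; exact h1.inv)
  obtain ⟨K, hK⟩ := exists_bound (passes (D ++ TC Ts₁))
  have hfr : ∀ c k, ∀ p ∈ passes (D ++ TC Ts₁), p.crossing ≠ Nat.pair c (K + k) := by
    intro c k p hp he
    have := hK p hp
    rw [he, Nat.unpair_pair] at this
    simp only at this
    omega
  have hcol : ∀ c k, colour (Nat.pair c (K + k)) = c := fun c k => by
    rw [colour, Nat.unpair_pair]
  have hnd : [Nat.pair (colour x) (K + 0), Nat.pair (colour (f x)) (K + 1),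
      Nat.pair (colour y) (K + 2), Nat.pair (colour (f y)) (K + 3), Nat.pair (colour z) (K + 4),
      Nat.pair (colour (f z)) (K + 5)].Nodup := by
    simp only [List.nodup_cons, List.mem_cons, List.not_mem_nil, or_false, not_or,
      not_false_eq_true, List.nodup_nil, and_true, Nat.pair_eq_pair, not_and]
    refine ⟨⟨fun _ => by omega, fun _ => by omega, fun _ => by omega,
      fun _ => by omega, fun _ => by omega⟩, ⟨fun _ => by omega, fun _ => by omega,
      fun _ => by omega, fun _ => by omega⟩, ⟨fun _ => by omega, fun _ => by omega,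
      fun _ => by omega⟩, ⟨fun _ => by omega, fun _ => by omega⟩, fun _ => by omega⟩
  have hin : ∀ c ∈ [x, y, z], ∃ p ∈ passes D', p.crossing = c := by
    have h6 : ([X.1, X.2, Y.1, Y.2, W.1, W.2]).Perm [t.1, t.2, m.1, m.2, b.1, b.2] := by
      have := List.Perm.flatMap_right (fun P : Pass × Pass => [P.1, P.2]) hP
      simpa using this
    have h7 : ∀ q ∈ [t.1, t.2, m.1, m.2, b.1, b.2], q ∈ passes D' := by
      intro q hq
      have h8 := h6.mem_iff.2 hq
      rw [← pl_enc, hE']
      simp only [pl_append, pl_two, List.mem_append, List.mem_cons, List.not_mem_nil,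
        or_false] at h8 ⊢
      tauto
    cases hT with
    | mk sx sy sz τ μ β hxy hyz hxz h₁ h₂ =>
      intro c hc
      have key := fun q => (TH.six_mem (x := x) (y := y) (z := z) (sx := sx) (sy := sy) (sz := sz)
        (τ := τ) (μ := μ) (β := β) rfl rfl rfl q).2
      simp only [List.mem_cons, List.not_mem_nil, or_false] at hc
      rcases hc with rfl | rfl | rfl
      · exact ⟨⟨c, true, sx⟩, h7 _ (key _ (Or.inl ⟨rfl, rfl⟩)), rfl⟩
      · exact ⟨⟨c, true, sy⟩, h7 _ (key _ (Or.inr (Or.inl ⟨rfl, rfl⟩))), rfl⟩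
      · exact ⟨⟨c, true, sz⟩, h7 _ (key _ (Or.inr (Or.inr ⟨rfl, rfl⟩))), rfl⟩
  have gx : ∀ c ∈ [x, y, z], g c = f c := by
    intro c hc
    obtain ⟨p, hp, rfl⟩ := hin c hc
    exact g1 p hp
  have hκ : ∀ p ∈ passes (D ++ TC Ts₁), colour (TH.sb x y z (Nat.pair (colour (f x)) (K + 1))
      (Nat.pair (colour (f y)) (K + 3)) (Nat.pair (colour (f z)) (K + 5)) p.crossing) =
      colour (g p.crossing) := by
    intro p hp
    unfold TH.sb
    split_ifs with k1 k2 k3
    · rw [hcol, k1, gx x (by simp)]
    · rw [hcol, k2, gx y (by simp)]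
    · rw [hcol, k3, gx z (by simp)]
    · rw [passes_append', List.mem_append] at hp
      rcases hp with hp | hp
      · have hp' := hperm.mem_iff.1 hp
        rw [g1 p hp', hfc p hp' k1 k2 k3]
      · rw [g2 p hp]
  have main : ∃ T : Tri, T.Ok ∧ T.ta = true ∧ T.tb = true ∧ T.tc = true ∧
      T.a₁ = Nat.pair (colour x) (K + 0) ∧ T.a₂ = Nat.pair (colour (f x)) (K + 1) ∧
      T.b₁ = Nat.pair (colour y) (K + 2) ∧ T.b₂ = Nat.pair (colour (f y)) (K + 3) ∧
      T.c₁ = Nat.pair (colour z) (K + 4) ∧ T.c₂ = Nat.pair (colour (f z)) (K + 5) ∧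
      InvC (D ++ (T.code ++ TC Ts₁)) := by
    have hnew : ∀ c ∈ [Nat.pair (colour x) (K + 0), Nat.pair (colour (f x)) (K + 1),
        Nat.pair (colour y) (K + 2), Nat.pair (colour (f y)) (K + 3), Nat.pair (colour z) (K + 4),
        Nat.pair (colour (f z)) (K + 5)], ∀ p ∈ passes (D ++ TC Ts₁), p.crossing ≠ c := by
      intro c hc
      simp only [List.mem_cons, List.not_mem_nil, or_false] at hc
      rcases hc with rfl | rfl | rfl | rfl | rfl | rfl <;> exact hfr _ _
    clear hin
    cases hT with
    | mk sx sy sz τ μ β hxy hyz hxz h₁ h₂ =>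
      exact core_arc hxy hyz hxz h₁ h₂ rfl rfl rfl hP hE hE' hW hnd hnew (hcol _ _) (hcol _ _)
        (hcol _ _) (κ := fun c => colour (g c)) hκ hm' hc' hV
  obtain ⟨T', t1, ta, tb, tc, t2, t3, t4, t5, t6, t7, t9⟩ := main
  have hnames : T'.names = [Nat.pair (colour x) (K + 0), Nat.pair (colour (f x)) (K + 1),
      Nat.pair (colour y) (K + 2), Nat.pair (colour (f y)) (K + 3), Nat.pair (colour z) (K + 4),
      Nat.pair (colour (f z)) (K + 5)] := by
    simp only [Tri.names, t2, t3, t4, t5, t6, t7]
  have hcode : ∀ p ∈ passes T'.code, p.crossing ∈ T'.names := by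
    intro p hp
    rw [mem_code] at hp
    rcases hp with rfl | rfl | rfl | rfl | rfl | rfl | rfl | rfl | rfl | rfl | rfl | rfl <;>
      simp [Tri.names, Tri.pa₁, Tri.pa₂, Tri.pb₁, Tri.pb₂, Tri.pc₁, Tri.pc₂, Pass.mate]
  refine ⟨T', Ts₁, ⟨?_, ?_, t9⟩, hsig, ?_⟩
  · have h3 : WF (passes T'.code ++ passes (D ++ TC Ts₁)) := by
      refine WF.append (wf_code (by rw [hnames]; exact hnd)) hW fun p hp q hq he => ?_
      have := hcode p hp
      rw [hnames] at this
      simp only [List.mem_cons, List.not_mem_nil, or_false] at this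
      rw [he] at this
      rcases this with h | h | h | h | h | h <;> exact hfr _ _ q hq h
    refine WF.perm ?_ h3
    rw [TC_cons, passes_append', passes_append', passes_append', ← List.append_assoc,
      ← List.append_assoc]
    exact List.Perm.append_right _ List.perm_append_comm
  · intro T₁ hT₁
    rcases List.mem_cons.1 hT₁ with rfl | hT₁
    · exact ⟨t1, ta, tb, tc⟩
    · exact h1.ok T₁ hT₁
  · simp only [sigA, t2, t3, t4, t5, t6, t7, hcol]

end Pool.Agent.V11206
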