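import Pool.Agent.V11206.ChE
import Pool.Agent.V11206.BFin
import Pool.Agent.V11206.ChDefs

/-! The main theorem for charges of corners. -/

set_option autoImplicit false

namespace Pool.Agent.V11206

open Pool.Agent.Y468.SR
open Pool.Agent.Y874.TP hiding InvM InvC CM CReid CStep SMovie Inv3 S_REID S_REN S_THREE
open Pool.Agent.Y874.TP2
open Pool.Agent.Y874.TP2.T4

set_option linter.unusedSimpArgs false
set_option linter.unusedVariables false

variable {Z : ℕ → Prop}

theorem amovie_invL (hreid : S_REID) (hren : S_REN) {hd : Bool} {D : Code}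
    {R : List ((ℕ × ℕ × ℕ) × (ℕ × ℕ × ℕ))} (h : AMovie hd Z D R) :
    ∃ Ts, InvL (del Z D) Ts ∧ Ts.map sigA = R := by
  induction h with
  | nil =>
    refine ⟨[], ⟨?_, by simp, ?_⟩, rfl⟩
    · exact ⟨by simp [TC, del], by simp [TC, del]⟩
    · refine ⟨id, fun p hp => absurd hp (by simp [TC, del]),
        fun p hp => absurd hp (by simp [TC, del]), fun G _ o u _ b => ?_⟩
      exact PC.nil
  | @step D D' R hD hs hm ih =>
    obtain ⟨Ts, h1, h2⟩ := ih
    rcases cstep_del (Z := Z) hs with h | h
    · obtain ⟨Ts', k1, k2⟩ := cstep_liftL hreid hren (wf_del hD.1)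
        (wf_del (amovie_classical hm).1) h h1
      exact ⟨Ts', k1, k2.trans h2⟩
    · exact ⟨Ts, by rw [h]; exact h1, h2⟩
  | @three D D' R hD A B C E X Y W t m b x y z hT hP hE hE' f hf hc hZ hm ih =>
    obtain ⟨Ts, h1, h2⟩ := ih
    obtain ⟨c1, c2, c3⟩ := triAt_crossing hT
    have zx := hZ x (by simp)
    have zy := hZ y (by simp)
    have zz := hZ z (by simp)
    have key : ∀ {u v : ℕ} {q : Pass × Pass}, ¬Z (colour u) → ¬Z (colour v) →
        (q.1.crossing = u ∧ q.2.crossing = v ∨ q.1.crossing = v ∧ q.2.crossing = u) →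
        ¬Z (colour q.1.crossing) ∧ ¬Z (colour q.2.crossing) := by
      intro u v q hu hv hq
      rcases hq with ⟨e1, e2⟩ | ⟨e1, e2⟩ <;> rw [e1, e2] <;> exact ⟨by assumption, by assumption⟩
    obtain ⟨⟨x1, x2⟩, ⟨y1, y2⟩, w1, w2⟩ := mem_three hP (P := fun q : Pass × Pass =>
      ¬Z (colour q.1.crossing) ∧ ¬Z (colour q.2.crossing)) (key zx.1 zy.1 c1)
      (key zx.1 zz.1 c2) (key zy.1 zz.1 c3)
    have hZf : ∀ p ∈ passes D', (Z (colour (f p.crossing)) ↔ Z (colour p.crossing)) := by
      intro p hp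
      by_cases k1 : p.crossing = x
      · rw [k1]; exact ⟨fun h => absurd h zx.2, fun h => absurd h zx.1⟩
      by_cases k2 : p.crossing = y
      · rw [k2]; exact ⟨fun h => absurd h zy.2, fun h => absurd h zy.1⟩
      by_cases k3 : p.crossing = z
      · rw [k3]; exact ⟨fun h => absurd h zz.2, fun h => absurd h zz.1⟩
      rw [hc p hp k1 k2 k3]
    rw [del_renamed hZf] at h1
    have hsub : ∀ p ∈ passes (del Z D'), p ∈ passes D' := by
      intro p hp
      rw [passes_del, mem_dw] at hp
      exact hp.1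
    obtain ⟨T', Ts', k1, k2, k3⟩ := three_liftL (D := del Z D) (D' := del Z D') (A := de Z A)
      (B := de Z B) (C := de Z C) (E := de Z E) (f := f) hren hT hP
      (by rw [enc_del, hE]; simp only [de_append, de_two_keep x1 x2, de_two_keep y1 y2,
        de_two_keep w1 w2])
      (by rw [enc_del, hE']; simp only [de_append, de_two_keep x2 x1, de_two_keep y2 y1,
        de_two_keep w2 w1])
      (fun p hp q hq => hf p (hsub p hp) q (hsub q hq))
      (fun p hp => hc p (hsub p hp)) (wf_del hD.1) h1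
    exact ⟨T' :: Ts', k1, by rw [List.map_cons, k3, k2, h2]⟩
  | @inner D D' R hD A B C E X Y W t m b x y z hT hP hE hE' hZ hm ih =>
    obtain ⟨c1, c2, c3⟩ := triAt_crossing hT
    have key : ∀ {u v : ℕ} {q : Pass × Pass}, (Z (colour u) ∨ Z (colour v)) →
        (q.1.crossing = u ∧ q.2.crossing = v ∨ q.1.crossing = v ∧ q.2.crossing = u) →
        Z (colour q.1.crossing) ∨ Z (colour q.2.crossing) := by
      intro u v q hu hq
      rcases hq with ⟨e1, e2⟩ | ⟨e1, e2⟩ <;> rw [e1, e2]
      · exact hu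
      · exact hu.symm
    obtain ⟨x1, y1, w1⟩ := mem_three hP (P := fun q : Pass × Pass =>
      Z (colour q.1.crossing) ∨ Z (colour q.2.crossing)) (key (by tauto) c1)
      (key (by tauto) c2) (key (by tauto) c3)
    have e : del Z D = del Z D' := by
      refine enc_inj ?_
      rw [enc_del, enc_del, hE, hE']
      simp only [de_append, de_two_swap x1, de_two_swap y1, de_two_swap w1]
    rw [e]
    exact ih
  | @handle S R x y b hh hD hy hm ih =>
    obtain ⟨Ts, h1, h2⟩ := ih
    rw [del_cons, del_cons, dw_eq_nil hy] at h1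
    rw [del_cons, dw_append, dw_eq_nil hy, List.append_nil]
    have hw : WF (passes ((dw Z x, b) :: ([], b) :: del Z S)) := by
      have := wf_del (Z := Z) (amovie_classical hm).1
      rwa [del_cons, del_cons, dw_eq_nil hy] at this
    have hw' : WF (passes (([], b) :: (dw Z x, b) :: del Z S)) := by
      simpa [passes] using hw
    have hw'' : WF (passes ((dw Z x, b) :: del Z S)) := by
      simpa [passes] using hw
    obtain ⟨Ts₁, k1, k2⟩ := cstep_liftL hreid hren hw' hw
      (.perm _ _ (List.Perm.swap _ _ _)) h1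
    obtain ⟨Ts₂, k3, k4⟩ := cstep_liftL hreid hren hw'' hw'
      (.birth b _ ⟨(dw Z x, b), by simp, rfl⟩) k1
    exact ⟨Ts₂, k3, (k4.trans k2).trans h2⟩

/-! ### positions -/

open Classical in
/-- the place of a name: the number of the triple point and of the end -/
noncomputable def plc (Ts : List Tri) (c : ℕ) : ℕ × ℕ :=
  if H : ∃ z : ℕ × Ix, ∃ T, Ts[z.1]? = some T ∧ c = nmT T z.2 then (H.choose.1, ni H.choose.2)
  else (0, 0)

theorem plc_eq {D : Code} {Ts : List Tri} (hw : WF (passes (D ++ TC Ts))) {n : ℕ} {T : Tri}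
    (h : Ts[n]? = some T) (i : Ix) : plc Ts (nmT T i) = (n, ni i) := by
  have H : ∃ z : ℕ × Ix, ∃ T', Ts[z.1]? = some T' ∧ nmT T i = nmT T' z.2 := ⟨(n, i), T, h, rfl⟩
  unfold plc
  rw [dif_pos H]
  obtain ⟨T', h1, h2⟩ := H.choose_spec
  have hT := List.mem_of_getElem? h
  have hT' := List.mem_of_getElem? h1
  have e : T = T' := nm_eq hw hT hT' h2
  subst e
  have e2 := nm_inj (six_of hw hT) h2
  have e1 : n = H.choose.1 := dj_pos (dj_of hw) h h1 (nam_ix.2 ⟨i, rfl⟩) (nam_ix.2 ⟨i, rfl⟩)
  rw [← e1, ← e2]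

theorem ni_mod (i : Ix) : ni i % 3 = tn i := by cases i <;> rfl

theorem up_iff {i j : Ix} (h : ty i ≠ ty j) : up i j = true ↔ Upper (ni i % 3) (ni j % 3) := by
  unfold Upper
  cases i <;> cases j <;> simp_all [up, ty, ni]

theorem up_eq {i j k l : Ix} (h : ty i ≠ ty j) (h' : ty k ≠ ty l) :
    up i j = up k l ↔ (Upper (ni i % 3) (ni j % 3) ↔ Upper (ni k % 3) (ni l % 3)) := by
  rw [← up_iff h, ← up_iff h']
  cases up i j <;> cases up k l <;> simp

theorem sum_range_le {α : Type} {f : α → ℕ} : ∀ (l : List α) (g : ℕ → ℕ),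
    (∀ n a, l[n]? = some a → f a ≤ g n) → (l.map f).sum ≤ ∑ p ∈ Finset.range l.length, g p := by
  intro l
  induction l with
  | nil => intro g _; simp
  | cons a l ih =>
    intro g h
    rw [List.map_cons, List.sum_cons, List.length_cons, Finset.sum_range_succ']
    have h1 := h 0 a rfl
    have h2 := ih (fun n => g (n + 1)) fun n b hb => h (n + 1) b (by simpa using hb)
    omega

theorem endCol_iff {Ts : List Tri} {n : ℕ} {T : Tri} (h : Ts[n]? = some T) (i : Ix) {k : ℕ} :
    EndCol (Ts.map sigA) n (ni i) k ↔ colour (nmT T i) = k := by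
  unfold EndCol
  rw [List.getElem?_map, h]
  constructor
  · rintro ⟨e, h1, h2⟩
    simp only [Option.map_some, Option.some.injEq] at h1
    rw [← h1, ends_ni] at h2
    exact Option.some_injective _ h2
  · rintro rfl
    exact ⟨sigA T, rfl, ends_ni T i⟩

theorem ch_of {D : Code} {Ts : List Tri} {m : ℕ → ℕ} {x : ℕ → ℕ → ℕ → ℕ}
    (hw : WF (passes (D ++ TC Ts))) (hl : ∀ T ∈ Ts, Lvl T)
    (hc : ∀ c, Names Ts c → colour (m c) = colour c)
    (hev : ∀ c, Names Ts c → m c = c → colour c % 2 = 0) (h : Charge (Ts.map sigA) x) :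
    ChM Ts m (fun c c' => if (plc Ts c).1 = (plc Ts c').1 then
      x (plc Ts c).1 (plc Ts c).2 (plc Ts c').2 else 0) := by
  have hin : ∀ {n : ℕ} {T : Tri}, Ts[n]? = some T → ∀ i, Names Ts (nmT T i) :=
    fun h i => names_ix (List.mem_of_getElem? h) i
  have pos : ∀ {T}, T ∈ Ts → ∃ n, Ts[n]? = some T := fun hT => List.getElem?_of_mem hT
  have val : ∀ {n : ℕ} {T : Tri}, Ts[n]? = some T → ∀ i j,
      (if (plc Ts (nmT T i)).1 = (plc Ts (nmT T j)).1 then
      x (plc Ts (nmT T i)).1 (plc Ts (nmT T i)).2 (plc Ts (nmT T j)).2 else 0) =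
      x n (ni i) (ni j) := by
    intro n T hT i j
    rw [plc_eq hw hT, plc_eq hw hT]
    simp
  have lnk : ∀ {n : ℕ} {T : Tri}, Ts[n]? = some T → ¬Iso Ts m T → Linked (Ts.map sigA) n := by
    intro n T hn hi
    unfold Iso at hi
    push Not at hi
    obtain ⟨i, h1, h2⟩ := hi
    obtain ⟨q, T', j, g1, e⟩ := names_at h1
    refine ⟨ni i, colour (nmT T i), q, ni j, (endCol_iff hn i).2 rfl, (endCol_iff g1 j).2 ?_, ?_⟩
    · rw [← e]; exact hc _ (hin hn i)
    · rintro rfl
      rw [hn] at g1
      obtain rfl := Option.some_injective _ g1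
      exact h2 (by rw [e]; exact nam_ix.2 ⟨j, rfl⟩)
  have fol : ∀ {n n' : ℕ} {T T' : Tri} {i j k l : Ix}, Ts[n]? = some T → Ts[n']? = some T' →
      LkM m T i j T' k l → Follows (Ts.map sigA) n (ni i) (ni j) n' (ni k) (ni l) := by
    intro n n' T T' i j k l hn hn' hl
    obtain ⟨t1, t2, e, he⟩ := hl
    have tne : ∀ {i j : Ix}, ty i ≠ ty j → ni i % 3 ≠ ni j % 3 := by
      intro i j t
      rw [ni_mod, ni_mod]
      exact fun k => t (tn_ty.1 k)
    have hcol : colour (nmT T' k) = colour (nmT T j) := by rw [← e]; exact hc _ (hin hn j)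
    refine ⟨tne t1, tne t2, colour (nmT T j), (endCol_iff hn j).2 rfl,
      (endCol_iff hn' k).2 hcol, ?_⟩
    have same : nmT T j = nmT T' k ↔ n = n' ∧ ni j = ni k := by
      constructor
      · intro h1
        have h2 := plc_eq hw hn j
        rw [h1, plc_eq hw hn' k] at h2
        simp only [Prod.mk.injEq] at h2
        exact ⟨h2.1.symm, h2.2.symm⟩
      · rintro ⟨rfl, h1⟩
        rw [hn] at hn'
        obtain rfl := Option.some_injective _ hn'
        rw [ni_inj h1]
    by_cases h1 : nmT T j = nmT T' k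
    · right
      refine ⟨same.1 h1, hev _ (hin hn j) (by rw [e, ← h1]), ?_⟩
      rw [← up_eq t1.symm t2]
      exact he.1 h1
    · left
      refine ⟨fun h2 => h1 (same.2 h2), ?_⟩
      rw [← up_eq t1.symm t2]
      by_contra h2
      exact h1 (he.2 h2)
  refine ⟨hl, ?_, ?_, ?_, ?_, ?_⟩
  · intro c c'
    by_cases h1 : (plc Ts c).1 = (plc Ts c').1
    · rw [if_pos h1, if_pos h1.symm, h.symm, h1]
    · rw [if_neg h1, if_neg (Ne.symm h1)]
  · intro T hT hi i j l1
    obtain ⟨n, hn⟩ := pos hT
    simp only [val hn]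
    exact h.one n _ _ (lnk hn hi) (fol hn hn l1)
  · intro T hT T' hT' hi i j k l l1 l2
    obtain ⟨n, hn⟩ := pos hT
    obtain ⟨n', hn'⟩ := pos hT'
    simp only [val hn, val hn']
    exact h.two n _ _ n' _ _ (lnk hn hi) (fol hn hn' l1) (fol hn' hn l2)
  · intro T hT T' hT' T'' hT'' hi i j k l u v l1 l2 l3
    obtain ⟨n, hn⟩ := pos hT
    obtain ⟨n', hn'⟩ := pos hT'
    obtain ⟨n'', hn''⟩ := pos hT''
    simp only [val hn, val hn', val hn'']
    exact h.three n _ _ n' _ _ n'' _ _ (lnk hn hi) (fol hn hn' l1) (fol hn' hn'' l2)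
      (fol hn'' hn l3)
  · refine le_trans (b := ∑ p ∈ Finset.range Ts.length,
        ((corners.map fun c => x p c.1 c.2).sum - freeCorners (Ts.map sigA) p)) ?_
        (le_trans (le_of_eq ?_) h.sum)
    · refine sum_range_le Ts _ fun n T hn => ?_
      classical
      have e1 : cs (fun c c' => if (plc Ts c).1 = (plc Ts c').1 then
          x (plc Ts c).1 (plc Ts c).2 (plc Ts c').2 else 0) T =
          (corners.map fun c => x n c.1 c.2).sum := by
        unfold cs
        simp only [val hn]
        rfl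
      have hfree : ∀ i, Free (Ts.map sigA) n (ni i) → Leg Ts m (nmT T i) := by
        rintro i ⟨k, h1, h2, h3⟩ hN
        have h4 := (endCol_iff hn i).1 h1
        obtain ⟨q, T', j, g1, e⟩ := names_at hN
        obtain ⟨rfl, h6⟩ := h3 q (ni j) ((endCol_iff g1 j).2 (by
          rw [← e, hc _ (hin hn i)]; exact h4))
        rw [hn] at g1
        obtain rfl := Option.some_injective _ g1
        rw [ni_inj h6] at e
        have := hev _ (hin hn i) e
        omega
      have e2 : freeCorners (Ts.map sigA) n ≤ fc Ts m T := by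
        have e3 : freeCorners (Ts.map sigA) n = (crn.map fun c =>
            if Free (Ts.map sigA) n (ni c.1) ∧ Free (Ts.map sigA) n (ni c.2) then 1 else 0).sum := by
          have e4 : corners = crn.map fun c => (ni c.1, ni c.2) := rfl
          unfold freeCorners
          rw [e4]
          generalize crn = l
          induction l with
          | nil => rfl
          | cons a l ih =>
            rw [List.map_cons, List.filter_cons, List.map_cons, List.sum_cons, ← ih]
            by_cases h1 : Free (Ts.map sigA) n (ni a.1) ∧ Free (Ts.map sigA) n (ni a.2)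
            · simp only [h1, and_self, decide_true, if_true, List.length_cons]
              omega
            · simp only [h1, decide_false, Bool.false_eq_true, if_false]
              omega
        rw [e3]
        unfold fc
        refine List.sum_le_sum fun c _ => ?_
        by_cases h1 : Free (Ts.map sigA) n (ni c.1) ∧ Free (Ts.map sigA) n (ni c.2)
        · rw [if_pos h1, if_pos ⟨hfree _ h1.1, hfree _ h1.2⟩]
        · rw [if_neg h1]; exact Nat.zero_le _
      rw [e1]
      omega
    · rw [List.length_map]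

/-- the reduction of movies whose triple points have charges -/
theorem movie_of_charge {hd : Bool} {D : Code} {R : List Trp} {x : ℕ → ℕ → ℕ → ℕ}
    (h : AMovie hd Z D R) (hR : Charge R x) (hZ : ∀ p ∈ passes D, ¬Z (colour p.crossing))
    (hn : (D.map Prod.snd).Nodup) : Movie true false D [] := by
  obtain ⟨Ts, h1, h2⟩ := amovie_invL RD.reid RN.ren h
  rw [del_eq hZ] at h1
  obtain ⟨m, hM, hC, hN⟩ := h1.inv
  subst h2
  have hcol : ∀ c, Names Ts c → colour (m c) = colour c ∧ (m c = c → colour c % 2 = 0) := by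
    intro c hc
    obtain ⟨p, hp, rfl⟩ := names_pass hc
    have := hC p (by rw [passes_append']; exact List.mem_append_right _ hp)
    refine ⟨this.1, fun h => ?_⟩
    by_contra h5
    exact this.2 h5 h
  exact movie_zeroX (amovie_classical h) hn h1.wf (fun T hT => (h1.ok T hT).1) hM hN
    (chM_zf (ch_of h1.wf (fun T hT => (h1.ok T hT).2) (fun c hc => (hcol c hc).1)
      (fun c hc => (hcol c hc).2) hR))

end Pool.Agent.V11206
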