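import Pool.Agent.V11206.Euler

/-! Chains of corners; subsystems. -/

set_option autoImplicit false

namespace Pool.Agent.V11206

set_option linter.unusedVariables false
set_option linter.unusedSimpArgs false

variable {α : Type} {μ : α → α} {Co : α → α → Prop} {ω : α → ℕ}

/-- the list of the starts of the corners of a path with the given end -/
inductive LP (μ : α → α) (Co : α → α → Prop) : List α → α → Prop
  | one {p q : α} (h : Co p q) : LP μ Co [p] q
  | cons {p q s : α} {l : List α} (h : Co p q) (h' : LP μ Co (μ q :: l) s) :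
      LP μ Co (p :: μ q :: l) s

theorem LP.app {L l' : List α} {y s : α} (h : LP μ Co L y) (h' : LP μ Co (μ y :: l') s) :
    LP μ Co (L ++ μ y :: l') s := by
  induction h with
  | one h => exact LP.cons h h'
  | cons h _ ih => exact LP.cons h (ih h')

theorem PT.lp {w : ℕ} {p s : α} (h : PT μ Co ω w p s) :
    ∃ l, LP μ Co (p :: l) s ∧ ((p :: l).map ω).sum = w := by
  induction h with
  | @one p q h => exact ⟨[], LP.one h, by simp⟩
  | @comp w w' p y s h h' ih ih' =>
    obtain ⟨l, h1, h2⟩ := ih
    obtain ⟨l', h3, h4⟩ := ih'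
    refine ⟨l ++ μ y :: l', by simpa using h1.app h3, ?_⟩
    have : p :: (l ++ μ y :: l') = (p :: l) ++ (μ y :: l') := rfl
    rw [this, List.map_append, List.sum_append, h2, h4]

theorem LP.split {u v : List α} {x s : α} (h : LP μ Co (u ++ x :: v) s) (hu : u ≠ []) :
    ∃ y, LP μ Co u y ∧ μ y = x ∧ LP μ Co (x :: v) s := by
  induction u with
  | nil => exact absurd rfl hu
  | cons a u ih =>
    cases u with
    | nil =>
      cases h with
      | cons h h' => exact ⟨_, LP.one h, rfl, h'⟩
    | cons b u =>
      cases h with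
      | cons h h' =>
        obtain ⟨y, h1, h2, h3⟩ := ih h' (by simp)
        exact ⟨y, LP.cons h h1, h2, h3⟩

theorem LP.next {L : List α} {s : α} (h : LP μ Co L s) {x : α} (hx : x ∈ L) :
    ∃ q, Co x q ∧ (μ q ∈ L ∨ q = s) := by
  induction h with
  | @one p q h =>
    simp only [List.mem_cons, List.not_mem_nil, or_false] at hx
    subst hx
    exact ⟨q, h, Or.inr rfl⟩
  | @cons p q s l h h' ih =>
    rcases List.mem_cons.1 hx with rfl | hx
    · exact ⟨q, h, Or.inl (by simp)⟩
    · obtain ⟨r, h1, h2⟩ := ih hx
      exact ⟨r, h1, h2.imp (fun h => List.mem_cons_of_mem _ h) id⟩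

theorem pw_chain (l : List α) : ∀ x : α, (∀ u v p q, x :: l = u ++ p :: q :: v → Co p q) →
    PW μ Co ω (((x :: l).dropLast.map ω).sum) (x :: l) := by
  induction l with
  | nil => intro x _; exact PW.single x
  | cons y l ih =>
    intro x h
    have h1 := h [] l x y rfl
    have h2 := ih y fun u v p q e => h (x :: u) v p q (by rw [e]; rfl)
    exact PW.cons (PT.one h1) h2

theorem pc_word {b : List α} (hb : 2 ≤ b.length) (h : ∀ p q, CAdj b p q → Co p q) :
    PC μ Co ω ((b.map ω).sum) b := by
  rcases b with _ | ⟨a, v⟩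
  · simp at hb
  · refine ⟨a, v, rfl, ?_⟩
    have h1 := pw_chain (μ := μ) (Co := Co) (ω := ω) (v ++ [a]) a (by
      intro u w p q e
      refine h p q ?_
      rcases List.eq_nil_or_concat w with rfl | ⟨w, z, rfl⟩
      · right
        have e1 : (a :: v) ++ [a] = (u ++ [p]) ++ [q] := by
          rw [List.cons_append, e]; simp
        have e2 := List.append_inj' e1 rfl
        simp only [List.cons.injEq, and_true] at e2
        obtain ⟨e3, e4⟩ := e2
        rcases u with _ | ⟨u₀, u⟩
        · rw [e3] at hb; simp at hb
        · simp only [List.cons_append, List.cons.injEq] at e3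
          exact ⟨u, by rw [e3.1, e3.2, ← e4, ← e3.1]⟩
      · left
        have e1 : (a :: v) ++ [a] = (u ++ p :: q :: w) ++ [z] := by
          rw [List.cons_append, e]; simp
        exact ⟨u, w, (List.append_inj' e1 rfl).1⟩)
    have e : (a :: (v ++ [a])).dropLast = a :: v := by
      rw [← List.cons_append, List.dropLast_concat]
    rwa [e] at h1

theorem Sys.perm {S : List α} {L R R' : List (List α)} (h : Sys μ Co ω S L R) (hp : R.Perm R') :
    Sys μ Co ω S L R' := by
  have hf : R.flatten.Perm R'.flatten := hp.flatten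
  refine ⟨?_, ?_, fun W hW => h.four W (hp.mem_iff.2 hW), ?_, ?_⟩
  · exact (hf.append_left _).nodup_iff.1 h.nd
  · exact fun p hpp => h.sub p ((hf.append_left _).mem_iff.2 hpp)
  · exact fun W hW => nl_perm (fun V hV => hp.mem_iff.1 hV) (h.n1 W hW)
  · intro R₁ W R₂ e
    subst e
    obtain ⟨A, B, rfl⟩ := List.append_of_mem (hp.mem_iff.2 (by simp : W ∈ R₁ ++ W :: R₂))
    have h2 : (A ++ B).Perm (R₁ ++ R₂) := by
      have h3 : (W :: (A ++ B)).Perm (W :: (R₁ ++ R₂)) :=
        List.perm_middle.symm.trans (hp.trans List.perm_middle)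
      exact h3.cons_inv
    refine nl_perm (fun V hV => ?_) (h.n2 A W B rfl)
    rcases List.mem_append.1 hV with hV | hV
    · exact List.mem_append_left _ hV
    · exact List.mem_append_right _ (h2.mem_iff.1 hV)

open Classical in
/-- a system of words closed under the matching is removed -/
theorem Sys.sep {S : List α} {L A B : List (List α)} (h : Sys μ Co ω S L (A ++ B)) {U : α → Prop}
    (hU : ∀ p ∈ S, U (μ p) ↔ U p) (hB : ∀ W ∈ B, ∀ p ∈ W, U p)
    (hA : ∀ W ∈ L ++ A, ∀ p ∈ W, ¬U p) :
    Sys μ Co ω S L A ∧ Sys μ Co ω S [] B := by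
  have one : ∀ (G : Type) [Group G] (g : α → G) (W : List α), (∀ p ∈ W, g p = 1) →
      (W.map g).prod = 1 := by
    intro G _ g W hW
    refine List.prod_eq_one fun x hx => ?_
    obtain ⟨p, hp, rfl⟩ := List.mem_map.1 hx
    exact hW p hp
  have cong : ∀ (G : Type) [Group G] (g g' : α → G) (W : List α), (∀ p ∈ W, g p = g' p) →
      (W.map g).prod = (W.map g').prod := by
    intro G _ g g' W hW
    rw [List.map_congr_left hW]
  have nd := h.nd
  have hsub := h.sub
  have hfour := h.four
  simp only [List.flatten_append] at nd hsub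
  refine ⟨⟨?_, ?_, fun W hW => hfour W (List.mem_append_left _ hW), ?_, ?_⟩,
    ⟨?_, ?_, fun W hW => hfour W (List.mem_append_right _ hW), fun W hW => absurd hW (by simp), ?_⟩⟩
  · rw [← List.append_assoc] at nd
    exact (List.nodup_append.1 nd).1
  · intro p hp
    refine hsub p ?_
    simp only [List.mem_append] at hp ⊢
    tauto
  · intro W hW G _ f hf hR
    have h1 := h.n1 W hW G (fun p => if U p then 1 else f p) (by
      intro p hp
      by_cases hu : U p
      · rw [if_pos ((hU p hp).2 hu), if_pos hu, inv_one]
      · rw [if_neg (fun h => hu ((hU p hp).1 h)), if_neg hu]; exact hf p hp) (by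
      intro V hV
      rcases List.mem_append.1 hV with hV | hV
      · rw [cong G _ f V fun p hp => if_neg (hA V (List.mem_append_right _ hV) p hp)]
        exact hR V hV
      · exact one G _ V fun p hp => if_pos (hB V hV p hp))
    rw [← h1]
    exact (cong G _ f W fun p hp => if_neg (hA W (List.mem_append_left _ hW) p hp)).symm
  · intro R₁ W R₂ e G _ f hf hR
    have hWA : W ∈ A := by rw [e]; simp
    have h1 := h.n2 R₁ W (R₂ ++ B) (by rw [e]; simp) G (fun p => if U p then 1 else f p) (by
      intro p hp
      by_cases hu : U p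
      · rw [if_pos ((hU p hp).2 hu), if_pos hu, inv_one]
      · rw [if_neg (fun h => hu ((hU p hp).1 h)), if_neg hu]; exact hf p hp) (by
      intro V hV
      have hcase : V ∈ L ++ (R₁ ++ R₂) ∨ V ∈ B := by
        simp only [List.mem_append] at hV ⊢; tauto
      rcases hcase with hV | hV
      · have hV' : V ∈ L ++ A := by
          rw [e]; simp only [List.mem_append, List.mem_cons] at hV ⊢; tauto
        rw [cong G _ f V fun p hp => if_neg (hA V hV' p hp)]
        exact hR V hV
      · exact one G _ V fun p hp => if_pos (hB V hV p hp))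
    rw [← h1]
    exact (cong G _ f W fun p hp => if_neg (hA W (List.mem_append_right _ hWA) p hp)).symm
  · simp only [List.flatten_nil, List.nil_append]
    rw [← List.append_assoc] at nd
    exact (List.nodup_append.1 nd).2.1
  · intro p hp
    refine hsub p ?_
    simp only [List.flatten_nil, List.nil_append, List.mem_append] at hp ⊢
    tauto
  · intro R₁ W R₂ e G _ f hf hR
    have hWB : W ∈ B := by rw [e]; simp
    have h1 := h.n2 (A ++ R₁) W R₂ (by rw [e]; simp) G (fun p => if U p then f p else 1) (by
      intro p hp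
      by_cases hu : U p
      · rw [if_pos ((hU p hp).2 hu), if_pos hu]; exact hf p hp
      · rw [if_neg (fun h => hu ((hU p hp).1 h)), if_neg hu, inv_one]) (by
      intro V hV
      have hcase : V ∈ L ++ A ∨ V ∈ R₁ ++ R₂ := by
        simp only [List.mem_append] at hV ⊢; tauto
      rcases hcase with hV | hV
      · exact one G _ V fun p hp => if_neg (hA V hV p hp)
      · have hVB : V ∈ B := by
          rw [e]; simp only [List.mem_append, List.mem_cons] at hV ⊢; tauto
        rw [cong G _ f V fun p hp => if_pos (hB V hVB p hp)]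
        exact hR V (by simpa using hV))
    rw [← h1]
    exact (cong G _ f W fun p hp => if_pos (hB W hWB p hp)).symm

end Pool.Agent.V11206
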