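import Mathlib

/-! Configurations of at most three triple points: the combinatorics of the faces. -/

set_option autoImplicit false

namespace Pool.Agent.V11206.CF

/-- the next corner of a circle -/
def nxs (e : Bool) (s : ℕ) : ℕ :=
  if e then [6, 10, 4, 8, 0, 11, 2, 9, 1, 5, 3, 7].getD s 0
  else [4, 8, 6, 10, 2, 9, 0, 11, 3, 7, 1, 5].getD s 0

/-- the next corner; the first `t` triple points are positive -/
def nx (t d : ℕ) : ℕ := 12 * (d / 12) + nxs (decide (d / 12 < t)) (d % 12)

/-- the type of a name -/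
def ty (h : ℕ) : ℕ := h % 6 / 2

/-- two names may be joined -/
def al (h g : ℕ) : Bool :=
  (h % 2 != g % 2) && (h / 6 != g / 6 || (ty h != ty g && ty h != 1 && ty g != 1))

/-- corners in the middle sheet -/
def isM (d : ℕ) : Bool := d % 12 == 1 || d % 12 == 3 || d % 12 == 8 || d % 12 == 10

/-- two corners may be joined -/
def clo (s e : ℕ) : Bool :=
  if s % 2 = e % 2 then al (s / 2) (e / 2) else (s / 2 == e / 2 && ty (s / 2) == 1)

/-- the partner of a corner -/
def mt (c : ℕ → ℕ) (d : ℕ) : ℕ :=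
  if c (d / 2) = d / 2 then 2 * (d / 2) + (1 - d % 2) else 2 * c (d / 2) + d % 2

/-- the corner is joined with the boundary -/
def Lf (c : ℕ → ℕ) (d : ℕ) : Prop := c (d / 2) = 63

/-- a corner path leading to one of the corners in `Hd`, or to an exit -/
inductive Cv (t : ℕ) (c : ℕ → ℕ) (Ae : ℕ → Prop) (Hd : List ℕ) : ℕ → Prop
  | hd {d : ℕ} (h : d ∈ Hd) : Cv t c Ae Hd d
  | ex {d : ℕ} (h : Ae (nx t d)) : Cv t c Ae Hd d
  | st {d : ℕ} (h : ¬Lf c (nx t d)) (h' : Cv t c Ae Hd (mt c (nx t d))) : Cv t c Ae Hd d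

open Classical in
/-- the number of long gaps, counted twice -/
noncomputable def gaps (K t : ℕ) (c : ℕ → ℕ) : ℕ :=
  ∑ d ∈ Finset.range (12 * K), if Lf c d ∧ ¬Lf c (nx t d) then 2 else 0

/-- the configuration of an irreducible system of triple points -/
structure Cfg (K t : ℕ) (c : ℕ → ℕ) : Prop where
  K3 : K ≤ 3
  tK : t ≤ K
  rng : ∀ h < 6 * K, c h = 63 ∨ c h < 6 * K
  inv : ∀ h < 6 * K, c h < 6 * K → c (c h) = h
  br : ∀ h < 6 * K, c h = h → ty h = 1
  ok : ∀ h < 6 * K, c h < 6 * K → c h ≠ h → al h (c h) = true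
  rc : ∀ h g, h < 6 * K → g < 6 * K → c h < 6 * K → c g < 6 * K → h / 6 = g / 6 →
    c h / 6 = c g / 6 → decide (h / 6 < t) ≠ decide (c h / 6 < t) → ty (c h) = ty h →
    ty (c g) = ty g → ty h = ty g
  e1 : ∀ Hd : List ℕ, (∀ d < 12 * K, Cv t c (Lf c) Hd d) → 12 * K + 4 ≤ 4 * Hd.length + gaps K t c
  e2 : ∀ Hd : List ℕ, (∀ d < 12 * K, Cv t c (Lf c) Hd d) → ∀ U : ℕ → Prop, (∃ d < 12 * K, U d) →
    (∀ d < 12 * K, U d → ¬Lf c d ∧ U (mt c d) ∧ U (nx t d)) → 12 * K + 12 ≤ 4 * Hd.length + gaps K t c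

/-! ### static facts -/

theorem lt36 {P : ℕ → Prop} [DecidablePred P] (h : ∀ d ∈ List.range 36, P d) : ∀ d < 36, P d :=
  fun d hd => h d (List.mem_range.2 hd)

theorem fact_nx (t : ℕ) (ht : t ≤ 3) : ∀ d < 36, nx t d / 12 = d / 12 ∧
    (isM (nx t d) = isM d) ∧ (isM d = true → nx t d % 2 ≠ d % 2) ∧
    (isM d = false → nx t d % 2 = d % 2) ∧ clo (nx t d) d = false ∧ clo d (nx t d) = false := by
  interval_cases t <;> exact lt36 (by decide)

theorem fact_M : ∀ d < 36, isM d = true → ty (d / 2) ≠ 1 := lt36 (by decide)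

theorem nx_lt {K t d : ℕ} (hK : K ≤ 3) (ht : t ≤ 3) (hd : d < 12 * K) : nx t d < 12 * K := by
  have := (fact_nx t ht d (by omega)).1
  omega

/-- the check for `fact_mm` -/
def fmm (t y z : ℕ) : Bool :=
  !(isM y && isM z && clo (nx t y) z && clo (nx t z) y) ||
    ((y / 12 != z / 12) && (decide (y / 12 < t) != decide (z / 12 < t)) &&
      (ty (nx t y / 2) == ty (z / 2)) && (ty (nx t z / 2) == ty (y / 2)) &&
      (ty (y / 2) != ty (nx t y / 2)))

/-- a bigon in the middle sheets belongs to two opposite triple points -/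
theorem fact_mm (t : ℕ) (ht : t ≤ 3) : ∀ y < 36, ∀ z < 36, isM y = true → isM z = true →
    clo (nx t y) z = true → clo (nx t z) y = true →
    decide (y / 12 < t) ≠ decide (z / 12 < t) ∧ ty (nx t y / 2) = ty (z / 2) ∧
    ty (nx t z / 2) = ty (y / 2) ∧ ty (y / 2) ≠ ty (nx t y / 2) := by
  have key : ∀ y < 36, ∀ z < 36, fmm t y z = true := by
    interval_cases t <;> decide +kernel
  intro y hy z hz h1 h2 h3 h4
  have := key y hy z hz
  unfold fmm at this
  rw [h1, h2, h3, h4] at this
  simp [and_assoc] at this ⊢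
  exact this.2

theorem clo_eq {K t : ℕ} {c : ℕ → ℕ} (hC : Cfg K t c) {x : ℕ} (hx : x < 12 * K) (hl : ¬Lf c x) :
    clo x (mt c x) = true ∧ mt c x < 12 * K ∧ mt c (mt c x) = x ∧ ¬Lf c (mt c x) ∧
      (ty (x / 2) ≠ 1 ∨ ty (mt c x / 2) ≠ 1 → mt c x % 2 = x % 2 ∧ c (x / 2) = mt c x / 2) := by
  have hK := hC.K3
  have hx2 : x / 2 < 6 * K := by omega
  have hc : c (x / 2) < 6 * K := (hC.rng _ hx2).resolve_left hl
  by_cases h : c (x / 2) = x / 2
  · have e : mt c x = 2 * (x / 2) + (1 - x % 2) := by simp [mt, h]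
    have e2 : mt c x / 2 = x / 2 := by omega
    have e3 : mt c x % 2 = 1 - x % 2 := by omega
    have hb := hC.br _ hx2 h
    refine ⟨?_, by omega, ?_, ?_, ?_⟩
    · unfold clo
      rw [if_neg (by omega), e2, hb]; simp
    · have : mt c (mt c x) = 2 * (mt c x / 2) + (1 - mt c x % 2) := by
        unfold mt
        rw [if_pos]
        rw [← mt, e2, h]
      rw [this]; omega
    · unfold Lf; rw [e2]; exact hl
    · rw [e2, hb]; simp
  · have e : mt c x = 2 * c (x / 2) + x % 2 := by simp [mt, h]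
    have e2 : mt c x / 2 = c (x / 2) := by omega
    have e3 : mt c x % 2 = x % 2 := by omega
    have hi := hC.inv _ hx2 hc
    refine ⟨?_, by omega, ?_, ?_, ?_⟩
    · unfold clo
      rw [if_pos e3.symm, e2]
      exact hC.ok _ hx2 hc h
    · have : mt c (mt c x) = 2 * c (mt c x / 2) + mt c x % 2 := by
        conv_lhs => unfold mt
        rw [if_neg]
        · rfl
        · rw [← mt, e2, hi]; exact fun h' => h h'.symm
      rw [this, e2, hi, e3]; omega
    · unfold Lf; rw [e2, hi]; omega
    · exact fun _ => ⟨e3, e2.symm⟩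

/-! ### paths of corners -/

/-- a path of corners -/
inductive Pth (t : ℕ) (c : ℕ → ℕ) : ℕ → ℕ → Prop
  | one (s : ℕ) : Pth t c s (nx t s)
  | cons {s e : ℕ} (h : ¬Lf c (nx t s)) (h' : Pth t c (mt c (nx t s)) e) : Pth t c s e

theorem Pth.trans {t : ℕ} {c : ℕ → ℕ} {s x e : ℕ} (h : Pth t c s x) (hx : ¬Lf c x)
    (h' : Pth t c (mt c x) e) : Pth t c s e := by
  induction h with
  | one s => exact Pth.cons hx h'
  | cons h _ ih => exact Pth.cons h (ih hx h')

theorem Pth.cv {t : ℕ} {c : ℕ → ℕ} {Ae : ℕ → Prop} {Hd : List ℕ} {s e : ℕ} (h : Pth t c s e)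
    (he : Ae e) : Cv t c Ae Hd s := by
  induction h with
  | one s => exact Cv.ex he
  | cons h _ ih => exact Cv.st h (ih he)

/-- the value of a path with `g` corners -/
def ptv (a b : Bool) (g s e : ℕ) : ℕ :=
  if g = 1 then (if a && b then 0 else if a || b then 1 else if isM s then 1 else 2)
  else if a || b then 2 else if clo s e && !(g == 2 && isM s && isM e) then 4
  else if s % 2 = e % 2 then 2 else 3

/-- the path has `g` corners, or more than two -/
structure Pt (t : ℕ) (c : ℕ → ℕ) (g s e : ℕ) : Prop where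
  pp : Pth t c s e
  gg : g = 1 ∨ g = 2 ∨ g = 3
  g1 : g = 1 → e = nx t s
  g2 : g = 2 → ¬Lf c (nx t s) ∧ e = nx t (mt c (nx t s))

/-- the state of the search -/
structure IV (K t : ℕ) (c : ℕ → ℕ) (As Ae : ℕ → Prop) (lf : ℕ → Bool) (en st gl pv : ℕ → ℕ)
    (Hd : List ℕ) : Prop where
  s1 : ∀ s, As s → s < 12 * K ∧ Ae (en s) ∧ st (en s) = s
  s2 : ∀ e, Ae e → e < 12 * K ∧ As (st e) ∧ en (st e) = e
  pt : ∀ s, As s → Pt t c (gl s) s (en s)
  pvv : ∀ s, As s → pv s = ptv (lf s) (lf (en s)) (gl s) s (en s)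
  lfl : ∀ d, lf d = true → Lf c d
  aa : ∀ x < 12 * K, ¬Lf c x → (Ae x ↔ As (mt c x))
  la : ∀ x < 12 * K, Lf c x → Ae x ∧ As x
  cov : ∀ d < 12 * K, Cv t c Ae Hd d

open Classical in
/-- the sum of the values -/
noncomputable def sm (K : ℕ) (As : ℕ → Prop) (pv : ℕ → ℕ) : ℕ :=
  ∑ s ∈ Finset.range (12 * K), if As s then pv s else 0

open Classical in
theorem sm_del {K : ℕ} {As : ℕ → Prop} {pv : ℕ → ℕ} {y : ℕ} (hy : y < 12 * K) (h : As y) :
    sm K As pv = sm K (fun s => As s ∧ s ≠ y) pv + pv y := by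
  unfold sm
  rw [← Finset.sum_erase_add (Finset.range (12 * K)) (fun s => if As s then pv s else 0)
      (Finset.mem_range.2 hy), if_pos h]
  congr 1
  rw [← Finset.sum_subset (Finset.erase_subset y (Finset.range (12 * K)))]
  · refine Finset.sum_congr rfl fun x hx => ?_
    have hne := (Finset.mem_erase.1 hx).1
    by_cases hx : As x
    · rw [if_pos hx, if_pos ⟨hx, hne⟩]
    · rw [if_neg hx, if_neg fun h' => hx h'.1]
  · intro x hx hnx
    rw [if_neg]
    rintro ⟨-, hne⟩
    exact hnx (Finset.mem_erase.2 ⟨hne, hx⟩)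

open Classical in
theorem sm_upd {K : ℕ} {As : ℕ → Prop} {pv : ℕ → ℕ} {p v : ℕ} (hp : p < 12 * K) (h : As p) :
    sm K As (Function.update pv p v) + pv p = sm K As pv + v := by
  rw [sm_del hp h, sm_del (pv := pv) hp h]
  have : sm K (fun s => As s ∧ s ≠ p) (Function.update pv p v) =
      sm K (fun s => As s ∧ s ≠ p) pv := by
    unfold sm
    refine Finset.sum_congr rfl fun x _ => ?_
    by_cases hx : As x ∧ x ≠ p
    · rw [if_pos hx, if_pos hx, Function.update_of_ne hx.2]
    · rw [if_neg hx, if_neg hx]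
  rw [this, Function.update_self]
  omega

variable {K t : ℕ} {c : ℕ → ℕ} {As Ae : ℕ → Prop} {lf : ℕ → Bool} {en st gl pv : ℕ → ℕ}
  {Hd : List ℕ}

theorem ptv_one {a b : Bool} {g s e : ℕ} (h : (a && b) = false) : 1 ≤ ptv a b g s e := by
  unfold ptv
  rw [h]
  split_ifs <;> simp_all

theorem ptv_leaf {a b : Bool} {g s e : ℕ} (h : (a || b) = true) (hg : g ≠ 1) :
    ptv a b g s e = 2 := by
  unfold ptv
  rw [if_neg hg, if_pos h]

theorem ptv_eq1 {g s e : ℕ} (h : ptv false false g s e = 1) : g = 1 ∧ isM s = true := by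
  unfold ptv at h
  split_ifs at h <;> simp_all

theorem ptv_eq2 {g s e : ℕ} (h : ptv false false g s e = 2) :
    (g = 1 ∧ isM s = false) ∨ (g ≠ 1 ∧ s % 2 = e % 2) := by
  unfold ptv at h
  split_ifs at h <;> simp_all

theorem ptv_le {g s e : ℕ} (hg : g ≠ 1) : ptv false false g s e ≤ 4 := by
  unfold ptv
  rw [if_neg hg]
  simp only [Bool.or_false, Bool.false_eq_true, if_false]
  split_ifs <;> omega

theorem ptv_le3 {g s e : ℕ} (hg : g ≠ 1) (h : clo s e = false) : ptv false false g s e ≤ 3 := by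
  unfold ptv
  rw [if_neg hg, h]
  simp only [Bool.or_false, Bool.false_eq_true, if_false, Bool.false_and]
  split_ifs <;> omega

theorem ptv_le2 {s e : ℕ} (h : s % 2 = e % 2) (hs : isM s = true) (he : isM e = true) :
    ptv false false 2 s e ≤ 2 := by
  unfold ptv
  rw [hs, he]
  simp [h]

/-- the values are superadditive -/
theorem ptv_mono (hC : Cfg K t c) (h : IV K t c As Ae lf en st gl pv Hd) {x : ℕ} (hx : Ae x)
    (hl : ¬Lf c x) :
    ptv (lf (st x)) (lf (en (mt c x))) (if gl (st x) = 1 ∧ gl (mt c x) = 1 then 2 else 3) (st x)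
      (en (mt c x)) ≤ pv (st x) + pv (mt c x) := by
  obtain ⟨hx1, hp, ep⟩ := h.s2 x hx
  obtain ⟨hc1, hc2, hc3, hc4, hc5⟩ := clo_eq hC hx1 hl
  have hy := (h.aa x hx1 hl).1 hx
  have v1 := h.pvv _ hp
  have v2 := h.pvv _ hy
  have q1 := h.pt _ hp
  have q2 := h.pt _ hy
  have hpl := (h.s1 _ hp).1
  have hlx : lf x = false := by
    cases e : lf x with
    | false => rfl
    | true => exact absurd (h.lfl _ e) hl
  have hly : lf (mt c x) = false := by
    cases e : lf (mt c x) with
    | false => rfl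
    | true => exact absurd (h.lfl _ e) hc4
  have hen := (h.s2 _ (h.s1 _ hy).2.1).1
  have hK := hC.K3
  have ht : t ≤ 3 := le_trans hC.tK hC.K3
  rw [ep] at q1 v1
  rw [hlx] at v1
  rw [hly] at v2
  generalize st x = p at *
  generalize hye : mt c x = y at *
  generalize en y = e at *
  have fp := fact_nx t ht p (by omega)
  have fy := fact_nx t ht y (by omega)
  have mp := fact_M p (by omega)
  have me := fact_M e (by omega)
  have mx := fact_M x (by omega)
  have my := fact_M y (by omega)
  rw [v1, v2]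
  have hg : (if gl p = 1 ∧ gl y = 1 then 2 else 3) ≠ 1 := by split_ifs <;> omega
  have o1 : 1 ≤ ptv (lf p) false (gl p) p x := ptv_one (by simp)
  have o2 : 1 ≤ ptv false (lf e) (gl y) y e := ptv_one (by simp)
  cases hlf : (lf p || lf e) with
  | true => rw [ptv_leaf hlf hg]; omega
  | false =>
    have l1 : lf p = false := by revert hlf; cases lf p <;> simp
    have l2 : lf e = false := by revert hlf; cases lf e <;> simp
    rw [l1] at o1 ⊢
    rw [l2] at o2 ⊢
    have c1 : clo p e = true → p % 2 = e % 2 ∨ (ty (p / 2) = 1 ∧ p / 2 = e / 2) := by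
      intro hh
      unfold clo at hh
      split at hh
      · left; assumption
      · right; simp at hh; exact ⟨hh.2, hh.1⟩
    have lev1 : gl p = 1 → x = nx t p := q1.g1
    have lev2 : gl y = 1 → e = nx t y := q2.g1
    have N4 := ptv_le (s := p) (e := e) hg
    have N3 := ptv_le3 (s := p) (e := e) hg
    by_cases a4 : 4 ≤ ptv false false (gl p) p x + ptv false false (gl y) y e
    · omega
    by_cases A : ptv false false (gl p) p x = 1
    · obtain ⟨A1, A2⟩ := ptv_eq1 A
      have A3 := lev1 A1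
      have A4 := fp.2.2.1 A2
      rw [← A3] at A4
      have A5 : isM x = true := by rw [A3, fp.2.1]; exact A2
      have A6 := (hc5 (Or.inl (mx A5))).1
      by_cases B : ptv false false (gl y) y e = 1
      · obtain ⟨B1, B2⟩ := ptv_eq1 B
        have B3 := lev2 B1
        have B4 := fy.2.2.1 B2
        rw [← B3] at B4
        have B5 : isM e = true := by rw [B3, fy.2.1]; exact B2
        rw [if_pos ⟨A1, B1⟩, A, B]
        exact ptv_le2 (by omega) A2 B5
      · have hc : clo p e = false := by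
          cases hcc : clo p e with
          | false => rfl
          | true =>
            exfalso
            rcases c1 hcc with h1 | ⟨h1, -⟩
            · rcases ptv_eq2 (g := gl y) (s := y) (e := e) (by omega) with ⟨k1, k2⟩ | ⟨k1, k2⟩
              · have := fy.2.2.2.1 k2
                rw [← lev2 k1] at this
                omega
              · omega
            · exact mp A2 h1
        have := N3 hc
        omega
    · by_cases B : ptv false false (gl y) y e = 1
      · obtain ⟨B1, B2⟩ := ptv_eq1 B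
        have B3 := lev2 B1
        have B4 := fy.2.2.1 B2
        rw [← B3] at B4
        have B5 : isM e = true := by rw [B3, fy.2.1]; exact B2
        have B6 := (hc5 (Or.inr (my B2))).1
        have hc : clo p e = false := by
          cases hcc : clo p e with
          | false => rfl
          | true =>
            exfalso
            rcases c1 hcc with h1 | ⟨h1, h2⟩
            · rcases ptv_eq2 (g := gl p) (s := p) (e := x) (by omega) with ⟨k1, k2⟩ | ⟨k1, k2⟩
              · have := fp.2.2.2.1 k2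
                rw [← lev1 k1] at this
                omega
              · omega
            · exact me B5 (h2 ▸ h1)
        have := N3 hc
        omega
      · omega

/-- joining an end with a start: a face is closed -/
theorem iv_close (hC : Cfg K t c) (h : IV K t c As Ae lf en st gl pv Hd) {x : ℕ} (hx : Ae x)
    (hl : ¬Lf c x) (he : st x = mt c x) : pv (mt c x) = 4 ∧
    IV K t c (fun s => As s ∧ s ≠ mt c x) (fun e => Ae e ∧ e ≠ x) lf en st gl pv
      (mt c x :: Hd) := by
  obtain ⟨hx1, hp, ep⟩ := h.s2 x hx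
  obtain ⟨hc1, hc2, hc3, hc4, hc5⟩ := clo_eq hC hx1 hl
  have hy := (h.aa x hx1 hl).1 hx
  rw [he] at ep hp
  have hK := hC.K3
  have ht : t ≤ 3 := le_trans hC.tK hC.K3
  refine ⟨?_, ?_, ?_, ?_, ?_, ?_, ?_, ?_, ?_⟩
  · have v2 := h.pvv _ hy
    have q := h.pt _ hy
    have hlx : lf x = false := by
      cases e : lf x with
      | false => rfl
      | true => exact absurd (h.lfl _ e) hl
    have hly : lf (mt c x) = false := by
      cases e : lf (mt c x) with
      | false => rfl
      | true => exact absurd (h.lfl _ e) hc4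
    rw [ep] at v2 q
    rw [hlx, hly] at v2
    obtain ⟨d1, d2, d3, d4, d5⟩ := clo_eq hC hc2 hc4
    rw [hc3] at d1
    rw [v2]
    have g1 : gl (mt c x) ≠ 1 := by
      intro g1
      have := q.g1 g1
      have h2 := (fact_nx t ht (mt c x) (by omega)).2.2.2.2.2
      rw [← this, d1] at h2
      exact absurd h2 (by simp)
    unfold ptv
    rw [if_neg g1, if_neg (by simp), if_pos]
    rw [d1]
    cases g2 : (gl (mt c x) == 2 && isM (mt c x) && isM x) with
    | false => rfl
    | true =>
      exfalso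
      simp only [Bool.and_eq_true, beq_iff_eq] at g2
      obtain ⟨⟨g2, m1⟩, m2⟩ := g2
      obtain ⟨q1, q2⟩ := q.g2 g2
      -- the bigon
      have hn1 : nx t (mt c x) < 12 * K := nx_lt hK ht hc2
      obtain ⟨z1, z2, z3, z4, z5⟩ := clo_eq hC hn1 q1
      generalize hz : mt c (nx t (mt c x)) = z at *
      have mz : isM z = true := by
        have := (fact_nx t ht z (by omega)).2.1
        rw [← this, ← q2]; exact m2
      have mx := fact_M x (by omega)
      have hm := fact_mm t ht (mt c x) (by omega) z (by omega) m1 mz z1 (by rw [← q2]; exact hc1)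
      have mnx : isM (nx t (mt c x)) = true := by
        rw [(fact_nx t ht (mt c x) (by omega)).2.1]; exact m1
      have mn := fact_M (nx t (mt c x)) (by omega) mnx
      have z6 := (z5 (Or.inl mn)).2
      have y6 := (hc5 (Or.inl (mx m2))).2
      have i1 := (fact_nx t ht (mt c x) (by omega)).1
      have i2 := (fact_nx t ht z (by omega)).1
      have y7 : c (mt c x / 2) = x / 2 := by
        have := (d5 (Or.inl (fact_M (mt c x) (by omega) m1))).2
        rw [hc3] at this
        exact this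
      refine hm.2.2.2 (hC.rc (mt c x / 2) (nx t (mt c x) / 2) (by omega) (by omega) ?_ ?_ ?_ ?_ ?_
        ?_ ?_)
      · rw [y7]; omega
      · rw [z6]; omega
      · omega
      · rw [y7, z6]
        have : x = nx t z := q2
        omega
      · rw [y7]
        have h1 : mt c x / 2 / 6 = mt c x / 12 := by omega
        have h2 : x / 2 / 6 = z / 12 := by
          have : x = nx t z := q2
          omega
        rw [h1, h2]; exact hm.1
      · rw [y7]
        exact (congrArg (fun a => ty (a / 2)) q2).trans hm.2.2.1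
      · rw [z6]; exact hm.2.1.symm
  · rintro s ⟨h1, h2⟩
    obtain ⟨k1, k2, k3⟩ := h.s1 s h1
    refine ⟨k1, ⟨k2, ?_⟩, k3⟩
    intro e; rw [e, he] at k3; exact h2 k3.symm
  · rintro e ⟨h1, h2⟩
    obtain ⟨k1, k2, k3⟩ := h.s2 e h1
    refine ⟨k1, ⟨k2, ?_⟩, k3⟩
    intro e'; rw [e', ep] at k3; exact h2 k3.symm
  · exact fun s hs => h.pt s hs.1
  · exact fun s hs => h.pvv s hs.1
  · exact h.lfl
  · intro z hz hlz
    rw [h.aa z hz hlz]
    refine and_congr_right fun _ => not_congr ⟨fun e => by rw [e], fun e => ?_⟩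
    rw [← (clo_eq hC hz hlz).2.2.1, e, hc3]
  · intro z hz hlz
    obtain ⟨k1, k2⟩ := h.la z hz hlz
    refine ⟨⟨k1, fun e => hl (e ▸ hlz)⟩, ⟨k2, fun e => hc4 (e ▸ hlz)⟩⟩
  · intro d hd
    have := h.cov d hd
    clear hd
    induction this with
    | hd h1 => exact Cv.hd (by simp [h1])
    | @ex d h1 =>
      by_cases hdx : nx t d = x
      · refine Cv.st (by rw [hdx]; exact hl) ?_
        rw [hdx]; exact Cv.hd (by simp)
      · exact Cv.ex ⟨h1, hdx⟩
    | st h1 _ ih => exact Cv.st h1 ih

/-- joining an end with a start: two paths are joined -/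
theorem iv_join (hC : Cfg K t c) (h : IV K t c As Ae lf en st gl pv Hd) {x : ℕ} (hx : Ae x)
    (hl : ¬Lf c x) (he : st x ≠ mt c x) :
    IV K t c (fun s => As s ∧ s ≠ mt c x) (fun e => Ae e ∧ e ≠ x) lf
      (Function.update en (st x) (en (mt c x))) (Function.update st (en (mt c x)) (st x))
      (Function.update gl (st x) (if gl (st x) = 1 ∧ gl (mt c x) = 1 then 2 else 3))
      (Function.update pv (st x) (ptv (lf (st x)) (lf (en (mt c x)))
        (if gl (st x) = 1 ∧ gl (mt c x) = 1 then 2 else 3) (st x) (en (mt c x)))) Hd := by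
  obtain ⟨hx1, hp, ep⟩ := h.s2 x hx
  obtain ⟨hc1, hc2, hc3, hc4, hc5⟩ := clo_eq hC hx1 hl
  have hy := (h.aa x hx1 hl).1 hx
  obtain ⟨y1, y2, y3⟩ := h.s1 _ hy
  have hex : en (mt c x) ≠ x := by
    intro e; rw [e] at y3; exact he y3
  refine ⟨?_, ?_, ?_, ?_, ?_, ?_, ?_, ?_⟩
  · rintro s ⟨h1, h2⟩
    obtain ⟨k1, k2, k3⟩ := h.s1 s h1
    by_cases e : s = st x
    · subst e
      rw [Function.update_self, Function.update_self]
      exact ⟨k1, ⟨y2, hex⟩, rfl⟩
    · rw [Function.update_of_ne e]
      have e2 : en s ≠ en (mt c x) := by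
        intro e2; rw [e2, y3] at k3; exact h2 k3.symm
      rw [Function.update_of_ne e2]
      exact ⟨k1, ⟨k2, fun e3 => e (by rw [← e3, k3])⟩, k3⟩
  · rintro e ⟨h1, h2⟩
    obtain ⟨k1, k2, k3⟩ := h.s2 e h1
    by_cases e1 : e = en (mt c x)
    · subst e1
      rw [Function.update_self, Function.update_self]
      exact ⟨k1, ⟨hp, he⟩, rfl⟩
    · rw [Function.update_of_ne e1]
      have e2 : st e ≠ st x := by
        intro e2; rw [e2, ep] at k3; exact h2 k3.symm
      rw [Function.update_of_ne e2]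
      refine ⟨k1, ⟨k2, ?_⟩, k3⟩
      intro e3; exact e1 (by rw [← e3, k3])
  · rintro s ⟨h1, h2⟩
    by_cases e : s = st x
    · subst e
      rw [Function.update_self, Function.update_self]
      have q1 := h.pt _ hp
      have q2 := h.pt _ hy
      rw [ep] at q1
      refine ⟨q1.pp.trans hl q2.pp, by split_ifs <;> simp, ?_, ?_⟩
      · intro h3; exfalso; revert h3; split_ifs <;> simp
      · intro h3
        have : gl (st x) = 1 ∧ gl (mt c x) = 1 := by
          by_contra h4; rw [if_neg h4] at h3; omega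
        rw [← q1.g1 this.1, ← q2.g1 this.2]
        exact ⟨hl, rfl⟩
    · rw [Function.update_of_ne e, Function.update_of_ne e]
      exact h.pt s h1
  · rintro s ⟨h1, h2⟩
    by_cases e : s = st x
    · subst e
      rw [Function.update_self, Function.update_self, Function.update_self]
    · rw [Function.update_of_ne e, Function.update_of_ne e, Function.update_of_ne e]
      exact h.pvv s h1
  · exact h.lfl
  · intro z hz hlz
    rw [h.aa z hz hlz]
    refine and_congr_right fun _ => not_congr ⟨fun e => by rw [e], fun e => ?_⟩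
    rw [← (clo_eq hC hz hlz).2.2.1, e, hc3]
  · intro z hz hlz
    obtain ⟨k1, k2⟩ := h.la z hz hlz
    refine ⟨⟨k1, fun e => hl (e ▸ hlz)⟩, ⟨k2, fun e => hc4 (e ▸ hlz)⟩⟩
  · intro d hd
    have := h.cov d hd
    clear hd
    have hcy : Cv t c (fun e => Ae e ∧ e ≠ x) Hd (mt c x) := (h.pt _ hy).pp.cv ⟨y2, hex⟩
    induction this with
    | hd h1 => exact Cv.hd h1
    | @ex d h1 =>
      by_cases hdx : nx t d = x
      · refine Cv.st (by rw [hdx]; exact hl) ?_
        rw [hdx]; exact hcy
      · exact Cv.ex ⟨h1, hdx⟩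
    | st h1 _ ih => exact Cv.st h1 ih

/-- the bound for the faces and gaps -/
theorem bound (hC : Cfg K t c) (n : ℕ) : ∀ (As Ae : ℕ → Prop) (en st gl pv : ℕ → ℕ)
    (Hd : List ℕ), Nat.card {x : ℕ // Ae x ∧ ¬Lf c x} ≤ n → IV K t c As Ae lf en st gl pv Hd →
    ∃ Hd' : List ℕ, 4 * Hd'.length + gaps K t c ≤ 4 * Hd.length + sm K As pv ∧
      ∀ d < 12 * K, Cv t c (Lf c) Hd' d := by
  induction n with
  | zero =>
    intro As Ae en st gl pv Hd hn h
    have hfin : Finite {x : ℕ // Ae x ∧ ¬Lf c x} := by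
      refine Set.Finite.subset (Set.finite_lt_nat (12 * K)) ?_
      rintro x ⟨h1, -⟩
      exact (h.s2 x h1).1
    have hem : ∀ x, Ae x → Lf c x := by
      intro x hx
      by_contra hl
      have : IsEmpty {x : ℕ // Ae x ∧ ¬Lf c x} := (Finite.card_eq_zero_iff.1 (by omega))
      exact this.false ⟨x, hx, hl⟩
    refine ⟨Hd, Nat.add_le_add_left ?_ _, fun d hd => ?_⟩
    · unfold gaps sm
      refine Finset.sum_le_sum fun d hd => ?_
      have hd' := Finset.mem_range.1 hd
      by_cases hg : Lf c d ∧ ¬Lf c (nx t d)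
      · have hs := (h.la d hd' hg.1).2
        rw [if_pos hg, if_pos hs, h.pvv d hs]
        have he := hem _ (h.s1 d hs).2.1
        have hg1 : gl d ≠ 1 := by
          intro e
          have := (h.pt d hs).g1 e
          rw [this] at he
          exact hg.2 he
        unfold ptv
        rw [if_neg hg1]
        split_ifs <;> omega
      · rw [if_neg hg]; omega
    · have := h.cov d hd
      clear hd
      induction this with
      | hd h1 => exact Cv.hd h1
      | ex h1 => exact Cv.ex (hem _ h1)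
      | st h1 _ ih => exact Cv.st h1 ih
  | succ n ih =>
    intro As Ae en st gl pv Hd hn h
    have hfin : Finite {x : ℕ // Ae x ∧ ¬Lf c x} := by
      refine Set.Finite.subset (Set.finite_lt_nat (12 * K)) ?_
      rintro x ⟨h1, -⟩
      exact (h.s2 x h1).1
    by_cases hex : ∃ x, Ae x ∧ ¬Lf c x
    · obtain ⟨x, hx, hl⟩ := hex
      have hx1 := (h.s2 x hx).1
      have hy := (h.aa x hx1 hl).1 hx
      have hy1 := (h.s1 _ hy).1
      have hcard : Nat.card {z : ℕ // (Ae z ∧ z ≠ x) ∧ ¬Lf c z} ≤ n := by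
        have hlt : Set.ncard {z : ℕ | (Ae z ∧ z ≠ x) ∧ ¬Lf c z} <
            Set.ncard {z : ℕ | Ae z ∧ ¬Lf c z} := by
          refine Set.ncard_lt_ncard ?_ hfin
          refine ⟨fun z hz => ⟨hz.1.1, hz.2⟩, fun hs => ?_⟩
          exact (hs ⟨hx, hl⟩).1.2 rfl
        have e1 : Nat.card {z : ℕ // (Ae z ∧ z ≠ x) ∧ ¬Lf c z} =
          Set.ncard {z : ℕ | (Ae z ∧ z ≠ x) ∧ ¬Lf c z} := rfl
        have e2 : Nat.card {z : ℕ // Ae z ∧ ¬Lf c z} = Set.ncard {z : ℕ | Ae z ∧ ¬Lf c z} := rfl
        omega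
      by_cases he : st x = mt c x
      · obtain ⟨h4, h5⟩ := iv_close hC h hx hl he
        obtain ⟨Hd', r1, r2⟩ := ih _ _ _ _ _ _ _ hcard h5
        refine ⟨Hd', ?_, r2⟩
        have := sm_del (K := K) (pv := pv) hy1 hy
        rw [List.length_cons] at r1
        omega
      · have h5 := iv_join hC h hx hl he
        obtain ⟨Hd', r1, r2⟩ := ih _ _ _ _ _ _ _ hcard h5
        refine ⟨Hd', ?_, r2⟩
        have q1 := sm_del (K := K) (pv := pv) hy1 hy
        obtain ⟨-, hp, ep⟩ := h.s2 x hx
        have q2 := sm_upd (K := K) (As := fun s => As s ∧ s ≠ mt c x) (pv := pv) (p := st x)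
          (v := ptv (lf (st x)) (lf (en (mt c x)))
            (if gl (st x) = 1 ∧ gl (mt c x) = 1 then 2 else 3) (st x) (en (mt c x)))
          (h.s1 _ hp).1 ⟨hp, he⟩
        have q3 := ptv_mono hC h hx hl
        omega
    · refine ih As Ae en st gl pv Hd ?_ h
      have : IsEmpty {x : ℕ // Ae x ∧ ¬Lf c x} := ⟨fun x => hex ⟨x.1, x.2⟩⟩
      rw [Nat.card_of_isEmpty]
      omega

theorem iv_thr (hC : Cfg K t c) (h : IV K t c As Ae lf en st gl pv Hd) :
    12 * K + 4 ≤ 4 * Hd.length + sm K As pv := by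
  obtain ⟨Hd', h1, h2⟩ := bound hC _ As Ae en st gl pv Hd le_rfl h
  have := hC.e1 Hd' h2
  omega

theorem iv_fin (hC : Cfg K t c) (h : IV K t c As Ae lf en st gl pv Hd) {U : ℕ → Prop}
    (hU : ∃ d < 12 * K, U d)
    (hU2 : ∀ d < 12 * K, U d → ¬Lf c d ∧ U (mt c d) ∧ U (nx t d)) :
    12 * K + 12 ≤ 4 * Hd.length + sm K As pv := by
  obtain ⟨Hd', h1, h2⟩ := bound hC _ As Ae en st gl pv Hd le_rfl h
  have := hC.e2 Hd' h2 U hU hU2
  omega

/-- a corner is joined with the boundary -/
theorem iv_leaf (hC : Cfg K t c) (h : IV K t c As Ae lf en st gl pv Hd) {x : ℕ} (hx : x < 12 * K)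
    (hl : Lf c x) : IV K t c As Ae (Function.update lf x true) en st gl
      (Function.update (Function.update pv x (ptv true (Function.update lf x true (en x)) (gl x) x
        (en x))) (st x) (ptv (Function.update lf x true (st x)) true (gl (st x)) (st x) x)) Hd where
  s1 := h.s1
  s2 := h.s2
  pt := h.pt
  pvv := by
    intro s hs
    obtain ⟨h1, h2⟩ := h.la x hx hl
    obtain ⟨x1, x2, x3⟩ := h.s2 x h1
    by_cases e1 : s = st x
    · subst e1
      rw [Function.update_self, x3, Function.update_self]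
    · rw [Function.update_of_ne e1]
      by_cases e2 : s = x
      · subst e2
        rw [Function.update_self, Function.update_self]
      · have e3 : en s ≠ x := by
          intro e3; rw [← e3, (h.s1 s hs).2.2] at e1; exact e1 rfl
        rw [Function.update_of_ne e2, Function.update_of_ne e2, Function.update_of_ne e3]
        exact h.pvv s hs
  lfl := by
    intro d hd
    by_cases e : d = x
    · subst e; exact hl
    · rw [Function.update_of_ne e] at hd; exact h.lfl d hd
  aa := h.aa
  la := h.la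
  cov := h.cov

end Pool.Agent.V11206.CF
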