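import Pool.Agent.V11206.ChA

/-! Annihilation of two triple points; compatibility of the matching with static data. -/

set_option autoImplicit false

namespace Pool.Agent.V11206

open Pool.Agent.Y468.SR
open Pool.Agent.Y874.TP (colour NullV Tri TC Cyc passes_append' word4 mem_code)
open Pool.Agent.Y874.TP2 (part InvM CM)
open Pool.Agent.Y968.TP (Occ matching_iff VV val_VV VV_mk)

set_option linter.unusedSimpArgs false
set_option linter.unusedVariables false

/-- compatibility of the matching with the static data on the set `N` of names -/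
structure Cmp (fr : ℕ → Prop) (κ : ℕ → ℕ) (br : ℕ → Prop) (N : ℕ → Prop) (m : ℕ → ℕ) : Prop where
  free : ∀ c, N c → fr c → ¬N (m c)
  cls : ∀ c, N c → N (m c) → κ (m c) = κ c
  bra : ∀ c, N c → m c = c → br (κ c)

section cmp
variable {fr : ℕ → Prop} {κ : ℕ → ℕ} {br : ℕ → Prop} {N N' : ℕ → Prop} {m m' : ℕ → ℕ}

theorem Cmp.mm {y1 y2 : ℕ} (h : Cmp fr κ br N m) (h1 : N y1) (h2 : N y2)
    (hN' : ∀ c, N' c → N c) (hi : ∀ c, N c → m (m c) = c)
    (hne : y1 ≠ y2) (hk : fr y1 ∨ fr y2 ∨ κ y1 = κ y2) : Cmp fr κ br N' (mm m y1 y2) := by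
  -- both ends are joined
  have key : ∀ c, N c → ∀ z z', N z → N z' → m c = z → z ≠ z' → (fr z ∨ fr z' ∨ κ z = κ z') →
      ¬fr c ∧ (m z' = z' → br (κ c)) ∧ (m z' ≠ z' → N (m z') → κ (m z') = κ c) ∧ m z' ≠ c := by
    intro c hc z z' hz hz' hm hzz hk
    have e : m z = c := by rw [← hm]; exact hi c hc
    have nz : ¬fr z := fun hf => h.free z hz hf (by rw [e]; exact hc)
    have kz : κ z = κ c := by rw [← hm]; exact h.cls c hc (by rw [hm]; exact hz)
    refine ⟨fun hf => h.free c hc hf (by rw [hm]; exact hz), fun h3 => ?_, fun h3 h4 => ?_,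
      fun h3 => ?_⟩
    · have nz' : ¬fr z' := fun hf => h.free z' hz' hf (by rw [h3]; exact hz')
      have k : κ z = κ z' := by tauto
      rw [← kz, k]
      exact h.bra z' hz' h3
    · have nz' : ¬fr z' := fun hf => h.free z' hz' hf h4
      have k : κ z = κ z' := by tauto
      rw [h.cls z' hz' h4, ← k, kz]
    · have := hi z' hz'
      rw [h3, hm] at this
      exact hzz this
  have hk' : fr y2 ∨ fr y1 ∨ κ y2 = κ y1 := by
    rcases hk with h | h | h
    · exact Or.inr (Or.inl h)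
    · exact Or.inl h
    · exact Or.inr (Or.inr h.symm)
  refine ⟨fun c hc hf hN => ?_, fun c hc hN => ?_, fun c hc e => ?_⟩
  · have hc' := hN' c hc
    unfold V11206.mm at hN
    split_ifs at hN with g1 g2 g3 g4
    · exact (key c hc' y1 y2 h1 h2 g1 hne hk).1 hf
    · exact (key c hc' y1 y2 h1 h2 g1 hne hk).1 hf
    · exact (key c hc' y2 y1 h2 h1 g3 hne.symm hk').1 hf
    · exact (key c hc' y2 y1 h2 h1 g3 hne.symm hk').1 hf
    · exact h.free c hc' hf (hN' _ hN)
  · have hc' := hN' c hc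
    unfold V11206.mm at hN ⊢
    split_ifs at hN ⊢ with g1 g2 g3 g4
    · rfl
    · exact (key c hc' y1 y2 h1 h2 g1 hne hk).2.2.1 g2 (hN' _ hN)
    · rfl
    · exact (key c hc' y2 y1 h2 h1 g3 hne.symm hk').2.2.1 g4 (hN' _ hN)
    · exact h.cls c hc' (hN' _ hN)
  · have hc' := hN' c hc
    unfold V11206.mm at e
    split_ifs at e with g1 g2 g3 g4
    · exact (key c hc' y1 y2 h1 h2 g1 hne hk).2.1 g2
    · exact absurd e (key c hc' y1 y2 h1 h2 g1 hne hk).2.2.2
    · exact (key c hc' y2 y1 h2 h1 g3 hne.symm hk').2.1 g4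
    · exact absurd e (key c hc' y2 y1 h2 h1 g3 hne.symm hk').2.2.2
    · exact h.bra c hc' e

theorem Cmp.congr (h : Cmp fr κ br N m) (hN : ∀ c, N' c → N c)
    (hm : ∀ c, N' c → (N' (m' c) ∨ m' c = c → m' c = m c)) : Cmp fr κ br N' m' := by
  refine ⟨fun c hc hf hk => ?_, fun c hc hk => ?_, fun c hc e => ?_⟩
  · have e := hm c hc (Or.inl hk)
    exact h.free c (hN c hc) hf (by rw [← e]; exact hN _ hk)
  · have e := hm c hc (Or.inl hk)
    rw [e]
    exact h.cls c (hN c hc) (by rw [← e]; exact hN _ hk)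
  · have e' := hm c hc (Or.inr e)
    exact h.bra c (hN c hc) (by rw [← e']; exact e)

theorem elimC {E : Code} {L : List (ℕ × ℕ × Bool)} {S : ℕ → Prop} {m : ℕ → ℕ}
    (hS : ∀ c, S c → ∃ q ∈ passes E, q.crossing = c)
    (hw : WF (passes E ++ PH L)) (h : InvX E L m) (hc : Cmp fr κ br (fun c => S c ∨ NL L c) m)
    (hk : ∀ x ∈ L, fr x.1 ∨ fr x.2.1 ∨ κ x.1 = κ x.2.1) :
    WF (passes E) ∧ ∃ m', InvM E m' ∧ Cmp fr κ br S m' := by
  induction L generalizing m with
  | nil =>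
    have e : passes E ++ PH [] = passes E := by simp [PH]
    refine ⟨by rw [← e]; exact hw, m, ⟨by rw [← e]; exact h.mat, by rw [← e]; exact h.cm, ?_⟩,
      hc.congr (fun c hc => Or.inl hc) fun c _ _ => rfl⟩
    intro G _ o u hv
    exact h.nul G o u (by rw [e]; exact hv) (fun x hx => absurd hx (by simp))
      (fun x hx => absurd hx (by simp))
  | cons x L ih =>
    obtain ⟨h1, h2, -⟩ := elim_mm hw h
    have pas : ∀ y ∈ x :: L, (⟨y.1, true, y.2.2⟩ : Pass) ∈ passes E ++ PH (x :: L) ∧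
        (⟨y.2.1, true, !y.2.2⟩ : Pass) ∈ passes E ++ PH (x :: L) := fun y hy =>
      ⟨List.mem_append_right _ (mem_PH hy (by simp [ph])),
        List.mem_append_right _ (mem_PH hy (by simp [ph]))⟩
    refine ih h1 h2 ?_ fun y hy => hk y (by simp [hy])
    refine hc.mm (y1 := x.1) (y2 := x.2.1) (Or.inr ⟨x, by simp, Or.inl rfl⟩)
      (Or.inr ⟨x, by simp, Or.inr rfl⟩) ?_ ?_ ?_ (hk x (by simp))
    · rintro c (hc | ⟨y, hy, hc⟩)
      · exact Or.inl hc
      · exact Or.inr ⟨y, by simp [hy], hc⟩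
    · rintro c (hc | ⟨y, hy, hc | hc⟩)
      · obtain ⟨q, hq, rfl⟩ := hS c hc
        exact matching_invol h.mat (List.mem_append_left _ hq)
      · rw [hc]
        exact matching_invol h.mat (pas y hy).1
      · rw [hc]
        exact matching_invol h.mat (pas y hy).2
    · intro he
      have h1 := (List.nodup_append.1 (by simpa using hw.2 : ((passes E).map
        (fun p => (p.crossing, p.isOver)) ++ (PH (x :: L)).map
        (fun p => (p.crossing, p.isOver))).Nodup)).2.1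
      simp only [PH, List.flatMap_cons, ph, List.cons_append, List.map_cons, List.nodup_cons,
        List.mem_cons, he] at h1
      simp at h1

end cmp

theorem annihX {D O : Code} {T T' : Tri} {m : ℕ → ℕ} (h : Mir T T')
    (hw : WF (passes (D ++ (T.code ++ (T'.code ++ O)))))
    (hI : InvM (D ++ (T.code ++ (T'.code ++ O))) m) (ha : m T.a₁ = T'.a₁) (hb : m T.b₁ = T'.b₁)
    (hc : ∀ x ∈ pairs T T', colour x.1 = colour x.2.1) :
    WF (passes (D ++ O) ++ PH (pairs T T')) ∧ InvX (D ++ O) (pairs T T') m := by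
  have hperm := pairs_perm h hw
  have hw' : WF (passes (D ++ O) ++ PH (pairs T T')) := WF.perm hperm hw
  obtain ⟨hM, hC, hN⟩ := hI
  have hmem : ∀ r, r ∈ passes (D ++ O) ++ PH (pairs T T') ↔
      r ∈ passes (D ++ (T.code ++ (T'.code ++ O))) := fun r => hperm.symm.mem_iff
  refine ⟨hw', ?_, ?_, hc, ?_⟩
  · exact matching_congr (fun r => (hmem r).symm) hM
  · exact fun p hp => hC p ((hmem p).1 hp)
  intro G _ o u hv hco hcu b
  -- names
  have hocc : ∀ x ∈ pairs T T', ∀ l : Bool, (⟨x.1, l, x.2.2⟩ : Pass) ∈ PH (pairs T T') ∧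
      (⟨x.2.1, l, !x.2.2⟩ : Pass) ∈ PH (pairs T T') := by
    intro x hx l
    constructor
    · refine mem_PH hx ?_
      cases l <;> simp [ph]
    · refine mem_PH hx ?_
      cases l <;> simp [ph]
  have hnod : [T.a₁, T'.a₁, T.a₂, T'.a₂, T.b₁, T'.b₁, T.b₂, T'.b₂, T.c₁, T'.c₁, T.c₂, T'.c₂].Nodup := by
    have h1 := (List.nodup_append.1 (by simpa using hw'.2 : ((passes (D ++ O)).map
      (fun p => (p.crossing, p.isOver)) ++ (PH (pairs T T')).map
      (fun p => (p.crossing, p.isOver))).Nodup)).2.1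
    have h2 : ([(T.a₁, true), (T'.a₁, true), (T.a₂, true), (T'.a₂, true), (T.b₁, true),
        (T'.b₁, true), (T.b₂, true), (T'.b₂, true), (T.c₁, true), (T'.c₁, true), (T.c₂, true),
        (T'.c₂, true)]).Sublist ((PH (pairs T T')).map (fun p => (p.crossing, p.isOver))) := by
      simp only [PH, pairs, ph, List.flatMap_cons, List.flatMap_nil, List.append_nil,
        List.cons_append, List.nil_append, List.map_cons, List.map_nil]
      repeat (first | exact List.Sublist.slnil | apply List.Sublist.cons_cons |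
        apply List.Sublist.cons)
    have h3 := h1.sublist h2
    exact List.Nodup.of_map (fun c => (c, true)) h3
  simp only [List.nodup_cons, List.mem_cons, List.not_mem_nil, or_false, not_or, List.nodup_nil,
    and_true, not_false_eq_true] at hnod
  obtain ⟨⟨a1, a2, a3, a4, a5, a6, a7, a8, a9, a10, a11⟩, ⟨b2, b3, b4, b5, b6, b7, b8, b9, b10,
    b11⟩, ⟨c3, c4, c5, c6, c7, c8, c9, c10, c11⟩, ⟨d4, d5, d6, d7, d8, d9, d10, d11⟩, ⟨e5, e6, e7,
    e8, e9, e10, e11⟩, ⟨f6, f7, f8, f9, f10, f11⟩, -⟩ := hnod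
  -- the names do not occur elsewhere
  have hno : ∀ q ∈ passes (D ++ O), q.crossing ≠ T.a₁ ∧ q.crossing ≠ T'.a₁ ∧ q.crossing ≠ T.b₁ ∧
      q.crossing ≠ T'.b₁ := by
    intro q hq
    have hw'' : WF (PH (pairs T T') ++ passes (D ++ O)) := WF.perm List.perm_append_comm hw'
    have key : ∀ x ∈ pairs T T', q.crossing ≠ x.1 ∧ q.crossing ≠ x.2.1 := by
      intro x hx
      obtain ⟨h1, h2⟩ := hocc x hx true
      obtain ⟨h3, h4⟩ := hocc x hx false
      exact ⟨hw''.ne_crossing h1 h3 hq, hw''.ne_crossing h2 h4 hq⟩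
    obtain ⟨k1, k2⟩ := key (T.a₁, T'.a₁, !T.sa) (by simp [pairs])
    obtain ⟨k3, k4⟩ := key (T.b₁, T'.b₁, !T.sb) (by simp [pairs])
    exact ⟨k1, k2, k3, k4⟩
  have hinv : ∀ p ∈ passes (D ++ O) ++ PH (pairs T T'), m (m p.crossing) = p.crossing :=
    fun p hp => matching_invol hM ((hmem p).1 hp)
  have ha' : m T'.a₁ = T.a₁ := by
    rw [← ha]
    exact hinv ⟨T.a₁, true, !T.sa⟩ (List.mem_append_right _
      (hocc (T.a₁, T'.a₁, !T.sa) (by simp [pairs]) true).1)
  have hb' : m T'.b₁ = T.b₁ := by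
    rw [← hb]
    exact hinv ⟨T.b₁, true, !T.sb⟩ (List.mem_append_right _
      (hocc (T.b₁, T'.b₁, !T.sb) (by simp [pairs]) true).1)
  -- the new labels
  set V : ℕ → Bool → G := VV o u with hV
  set X : G := sol T.ei (V T.a₂ T.ta) 1 (V T.b₂ T.tb) with hX
  set X' : G := sol T.ej (V T.a₂ (!T.ta)) (V T.c₁ T.tc) (V T.c₂ T.tc) with hX'
  set Y' : G := sol T.ek (V T.b₂ (!T.tb)) (V T.c₁ (!T.tc)) (V T.c₂ (!T.tc)) with hY'
  set W : ℕ → Bool → G := Pool.Agent.Y968.TP.WW T.a₁ T.b₁ T'.a₁ T'.b₁ T.ta T.tb X X' 1 Y' V with hW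
  have Wo : ∀ c l, c ≠ T.a₁ → c ≠ T'.a₁ → c ≠ T.b₁ → c ≠ T'.b₁ → W c l = V c l := by
    intro c l h1 h2 h3 h4
    simp only [hW, Pool.Agent.Y968.TP.WW, if_neg h1, if_neg h2, if_neg h3, if_neg h4]
  have Wa : ∀ l, W T'.a₁ l = (W T.a₁ l)⁻¹ := by
    intro l
    simp only [hW, Pool.Agent.Y968.TP.WW, if_pos, if_neg (Ne.symm a1)]
    split_ifs <;> rfl
  have Wb : ∀ l, W T'.b₁ l = (W T.b₁ l)⁻¹ := by
    intro l
    simp only [hW, Pool.Agent.Y968.TP.WW, if_pos, if_neg (Ne.symm a4), if_neg (Ne.symm a5),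
      if_neg (Ne.symm b4), if_neg (Ne.symm b5), if_neg (Ne.symm e5)]
    split_ifs <;> rfl
  have Wa1 : W T.a₁ T.ta = X := by simp [hW, Pool.Agent.Y968.TP.WW]
  have Wa2 : W T.a₁ (!T.ta) = X' := by simp [hW, Pool.Agent.Y968.TP.WW]
  have Wb1 : W T.b₁ T.tb = 1 := by
    simp [hW, Pool.Agent.Y968.TP.WW, Ne.symm a4, Ne.symm b4]
  have Wb2 : W T.b₁ (!T.tb) = Y' := by
    simp [hW, Pool.Agent.Y968.TP.WW, Ne.symm a4, Ne.symm b4]
  have Vinv : ∀ x ∈ pairs T T', ∀ l, V x.2.1 l = (V x.1 l)⁻¹ := by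
    intro x hx l
    simp only [hV, VV]
    cases l
    · exact hcu x hx
    · exact hco x hx
  have hval : Valid (passes (D ++ (T.code ++ (T'.code ++ O)))) m (fun c => W c true)
      (fun c => W c false) := by
    intro p hp
    by_cases k1 : p.crossing = T.a₁
    · rw [k1, ha]
      exact ⟨fun h => absurd h.symm a1, fun _ => ⟨Wa _, Wa _⟩⟩
    by_cases k2 : p.crossing = T'.a₁
    · rw [k2, ha']
      refine ⟨fun h => absurd h a1, fun _ => ?_⟩
      simp only [Wa, inv_inv, and_self]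
    by_cases k3 : p.crossing = T.b₁
    · rw [k3, hb]
      exact ⟨fun h => absurd h.symm e5, fun _ => ⟨Wb _, Wb _⟩⟩
    by_cases k4 : p.crossing = T'.b₁
    · rw [k4, hb']
      refine ⟨fun h => absurd h e5, fun _ => ?_⟩
      simp only [Wb, inv_inv, and_self]
    have hi := hinv p ((hmem p).2 hp)
    have j1 : m p.crossing ≠ T.a₁ := fun h => k2 (by rw [← hi, h, ha])
    have j2 : m p.crossing ≠ T'.a₁ := fun h => k1 (by rw [← hi, h, ha'])
    have j3 : m p.crossing ≠ T.b₁ := fun h => k4 (by rw [← hi, h, hb])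
    have j4 : m p.crossing ≠ T'.b₁ := fun h => k3 (by rw [← hi, h, hb'])
    obtain ⟨v1, v2⟩ := hv p ((hmem p).2 hp)
    simp only [Wo _ _ k1 k2 k3 k4, Wo _ _ j1 j2 j3 j4]
    simpa [hV, VV] using And.intro v1 v2
  have h1 := hN G _ _ hval b
  have hE : ∀ C ∈ D ++ O, wval (fun c => W c true) (fun c => W c false) C.1 = wval o u C.1 := by
    intro C hC
    unfold wval
    congr 1
    refine List.map_congr_left fun q hq => ?_
    obtain ⟨k1, k2, k3, k4⟩ := hno q (mem_passes.2 ⟨C, hC, hq⟩)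
    rw [val_VV, VV_mk, Wo _ _ k1 k2 k3 k4, hV, val_VV]
  have hvD : vals (fun c => W c true) (fun c => W c false) D = vals o u D := by
    unfold vals
    exact List.map_congr_left fun C hC => by rw [hE C (by simp [hC])]
  have hvO : vals (fun c => W c true) (fun c => W c false) O = vals o u O := by
    unfold vals
    exact List.map_congr_left fun C hC => by rw [hE C (by simp [hC])]
  -- the circles
  have wT : wval (fun c => W c true) (fun c => W c false) T.wi = 1 ∧
      wval (fun c => W c true) (fun c => W c false) T.wj = 1 ∧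
      wval (fun c => W c true) (fun c => W c false) T.wk = 1 := by
    unfold Tri.wi Tri.wj Tri.wk
    simp only [wval_word4, val_VV, VV_mk, Tri.pa₁, Tri.pa₂, Tri.pb₁, Tri.pb₂, Tri.pc₁, Tri.pc₂,
      Pass.mate, Wa1, Wa2, Wb1, Wb2, Wo T.a₂ _ (Ne.symm a2) (Ne.symm b2) c4 c5,
      Wo T.b₂ _ (Ne.symm a6) (Ne.symm b6) (Ne.symm e6) (Ne.symm f6),
      Wo T.c₁ _ (Ne.symm a8) (Ne.symm b8) (Ne.symm e8) (Ne.symm f8),
      Wo T.c₂ _ (Ne.symm a10) (Ne.symm b10) (Ne.symm e10) (Ne.symm f10)]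
    exact ⟨v4_sol _ _ _ _, v4_sol _ _ _ _, v4_sol _ _ _ _⟩
  have wT' : wval (fun c => W c true) (fun c => W c false) T'.wi = 1 ∧
      wval (fun c => W c true) (fun c => W c false) T'.wj = 1 ∧
      wval (fun c => W c true) (fun c => W c false) T'.wk = 1 := by
    have i2 := fun l => Vinv (T.a₂, T'.a₂, T.sa) (by simp [pairs]) l
    have i4 := fun l => Vinv (T.b₂, T'.b₂, T.sb) (by simp [pairs]) l
    have i5 := fun l => Vinv (T.c₁, T'.c₁, !T.sc) (by simp [pairs]) l
    have i6 := fun l => Vinv (T.c₂, T'.c₂, T.sc) (by simp [pairs]) l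
    simp only at i2 i4 i5 i6
    unfold Tri.wi Tri.wj Tri.wk
    simp only [wval_word4, val_VV, VV_mk, Tri.pa₁, Tri.pa₂, Tri.pb₁, Tri.pb₂, Tri.pc₁, Tri.pc₂,
      Pass.mate, h.ta, h.tb, h.tc, h.ei, h.ej, h.ek, Wa, Wb, Wa1, Wa2, Wb1, Wb2,
      Wo T'.a₂ _ (Ne.symm a3) (Ne.symm b3) d4 d5,
      Wo T'.b₂ _ (Ne.symm a7) (Ne.symm b7) (Ne.symm e7) (Ne.symm f7),
      Wo T'.c₁ _ (Ne.symm a9) (Ne.symm b9) (Ne.symm e9) (Ne.symm f9),
      Wo T'.c₂ _ (Ne.symm a11) (Ne.symm b11) (Ne.symm e11) (Ne.symm f11), i2, i4, i5, i6]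
    exact ⟨v4_inv (v4_sol _ _ _ _), v4_inv (v4_sol _ _ _ _), v4_inv (v4_sol _ _ _ _)⟩
  have ones : ∀ T : Tri, (wval (fun c => W c true) (fun c => W c false) T.wi = 1 ∧
      wval (fun c => W c true) (fun c => W c false) T.wj = 1 ∧
      wval (fun c => W c true) (fun c => W c false) T.wk = 1) →
      ∀ g ∈ bv (vals (fun c => W c true) (fun c => W c false) T.code) b, g = 1 := by
    rintro T ⟨t1, t2, t3⟩ g hg
    simp only [Tri.code, vals, List.map_cons, List.map_nil, t1, t2, t3, bv, List.mem_map,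
      List.mem_filter, List.mem_cons, List.not_mem_nil, or_false] at hg
    obtain ⟨⟨g', b'⟩, ⟨h2, -⟩, rfl⟩ := hg
    rcases h2 with h2 | h2 | h2 <;> exact congrArg Prod.fst h2
  rw [vals_append, vals_append, vals_append, bv_append, bv_append, bv_append, hvD, hvO] at h1
  rw [vals_append, bv_append]
  have h2 := Pool.Agent.Y968.TP.cn_ones (ones T wT) h1
  exact Pool.Agent.Y968.TP.cn_ones (ones T' wT') h2

end Pool.Agent.V11206
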