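import Pool.Agent.V11206.Sym
import Pool.Agent.V11206.Annih

/-! Triple points with constant roles of the double curves. -/

set_option autoImplicit false

namespace Pool.Agent.V11206

open Pool.Agent.Y468.SR
open Pool.Agent.Y874.TP hiding InvM InvC CM CReid CStep SMovie Inv3
open Pool.Agent.Y874.TP2

/-- the number of sheets above the double curve `a` -/
def ra (T : Tri) : ℕ := (!T.tb).toNat + (!T.tc).toNat
def rb (T : Tri) : ℕ := (!T.ta).toNat + T.tc.toNat
def rc (T : Tri) : ℕ := T.ta.toNat + T.tb.toNat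

/-- the colours are given by the roles -/
structure Rol (κ : ℕ → ℕ) (T : Tri) : Prop where
  ok : T.Ok
  col : T.Col
  a : colour T.a₁ = κ (ra T)
  b : colour T.b₁ = κ (rb T)
  c : colour T.c₁ = κ (rc T)

theorem Sy.rol {κ : ℕ → ℕ} {T T' : Tri} (h : Sy T T') : Rol κ T → Rol κ T' := by
  induction h with
  | refl => exact id
  | @swapA T' _ ih =>
    intro k
    have k := ih k
    exact ⟨(Tri.tr_swapA _).ok k.ok, (Tri.tr_swapA _).col k.col, k.col.1.trans k.a, k.b, k.c⟩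
  | @swapB T' _ ih =>
    intro k
    have k := ih k
    exact ⟨(Tri.tr_swapB _).ok k.ok, (Tri.tr_swapB _).col k.col, k.a, k.col.2.1.trans k.b, k.c⟩
  | @tij T' _ ih =>
    intro k
    have k := ih k
    refine ⟨(Tri.tr_tij _).ok k.ok, (Tri.tr_tij _).col k.col, ?_, ?_, ?_⟩
    · refine k.a.trans (congrArg κ ?_)
      simp only [ra, Tri.tij]; exact add_comm _ _
    · refine k.c.trans (congrArg κ ?_)
      simp only [rc, rb, Tri.tij, Bool.not_not]
    · refine k.b.trans (congrArg κ ?_)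
      simp only [rc, rb, Tri.tij]
  | @tjk T' _ ih =>
    intro k
    have k := ih k
    refine ⟨(Tri.tr_tjk _).ok k.ok, (Tri.tr_tjk _).col k.col, ?_, ?_, ?_⟩
    · refine k.b.trans (congrArg κ ?_)
      simp only [ra, rb, Tri.tjk, Bool.not_not]
    · refine k.a.trans (congrArg κ ?_)
      simp only [ra, rb, Tri.tjk]
    · refine k.c.trans (congrArg κ ?_)
      simp only [rc, Tri.tjk]; exact add_comm _ _

/-- the height of a passage, given its role and that of a neighbour -/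
def lev (s t : ℕ) : Bool := (s == 0 && t == 1) || (s == 1 && t == 0) || (s == 2 && t == 0)

theorem lev_tab {T : Tri} (h : T.Ok) : ra T < 3 ∧ rb T < 3 ∧ rc T < 3 ∧ ra T ≠ rb T ∧
    ra T ≠ rc T ∧ rb T ≠ rc T ∧ T.ta = lev (ra T) (rb T) ∧ T.tb = lev (rb T) (ra T) := by
  have h1 := h.1
  unfold ra rb rc lev
  revert h1
  generalize T.ta = ta
  generalize T.tb = tb
  generalize T.tc = tc
  revert ta tb tc
  decide

theorem cor_lev {κ : ℕ → ℕ} {T : Tri} (h : Rol κ T) {x y : Pass} (hx : Nx T x y) :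
    ∃ s t, s < 3 ∧ t < 3 ∧ s ≠ t ∧ colour x.crossing = κ s ∧ colour y.crossing = κ t ∧
      x.isOver = lev s t ∧ y.isOver = lev t s := by
  obtain ⟨T', -, rfl, rfl, hs⟩ := nf hx
  have h' := hs.rol h
  obtain ⟨h1, h2, h3, h4, h5, h6, h7, h8⟩ := lev_tab h'.ok
  exact ⟨rb T', ra T', h2, h1, h4.symm, h'.b, h'.a, h8, h7⟩

theorem cadj_mem {α : Type} {W : List α} {x y : α} (h : CAdj W x y) : x ∈ W ∧ y ∈ W := by
  rcases h with ⟨u, v, rfl⟩ | ⟨u, rfl⟩ <;> simp

theorem nx_mem {T : Tri} {x y : Pass} (h : Nx T x y) : x ∈ passes T.code ∧ y ∈ passes T.code := by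
  obtain ⟨W, hW, h⟩ := h
  obtain ⟨h1, h2⟩ := cadj_mem h
  have : ∀ q ∈ W, q ∈ passes T.code := by
    intro q hq
    rw [Tri.code, passes_cons, passes_cons, passes_cons]
    simp only [List.mem_cons, List.not_mem_nil, or_false] at hW
    simp only [List.mem_append]
    rcases hW with rfl | rfl | rfl
    · exact Or.inl hq
    · exact Or.inr (Or.inl hq)
    · exact Or.inr (Or.inr (Or.inl hq))
  exact ⟨this _ h1, this _ h2⟩

theorem mem_all {D : Code} {Ts : List Tri} {T : Tri} (hT : T ∈ Ts) {x : Pass}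
    (hx : x ∈ passes T.code) : x ∈ passes (D ++ TC Ts) := by
  rw [passes_append']
  refine List.mem_append_right _ ?_
  obtain ⟨C, hC, hx⟩ := mem_passes.1 hx
  exact mem_passes.2 ⟨C, List.mem_flatMap.2 ⟨T, hT, hC⟩, hx⟩

theorem part_colour {D : Code} {m : ℕ → ℕ} (h : InvM D m) {x : Pass} (hx : x ∈ passes D) :
    colour (part m x).crossing = colour x.crossing := by
  unfold part
  split_ifs
  · rfl
  · exact (h.2.1 x hx).1

theorem part_of_ne {m : ℕ → ℕ} {x : Pass} (h : m x.crossing ≠ x.crossing) :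
    part m x = ⟨m x.crossing, x.isOver, !x.isPos⟩ := by
  unfold part
  rw [if_neg h]

theorem part_over {m : ℕ → ℕ} {x : Pass} : (m x.crossing ≠ x.crossing ∧ (part m x).isOver = x.isOver) ∨
    (m x.crossing = x.crossing ∧ (part m x).isOver = !x.isOver) := by
  unfold part
  split_ifs with h
  · exact Or.inr ⟨h, rfl⟩
  · exact Or.inl ⟨h, rfl⟩

/-- the two corners of a plain bigon belong to different triple points -/
theorem bigon_ne {κ : ℕ → ℕ} (hκ : ∀ s t, s < 3 → t < 3 → κ s = κ t → s = t) {T : Tri}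
    (h : Rol κ T) {m : ℕ → ℕ} {p y : Pass} (h1 : Nx T p y) (h2 : Nx T (part m y) (part m p))
    (hp : m p.crossing ≠ p.crossing) (hy : m y.crossing ≠ y.crossing)
    (cp : colour (m p.crossing) = colour p.crossing) (cy : colour (m y.crossing) = colour y.crossing) :
    False := by
  obtain ⟨T', he, rfl, rfl, hs⟩ := nf h1
  have h' := hs.rol h
  have h2' := hs.nx h2
  obtain ⟨l1, l2, l3, l4, l5, l6, -, -⟩ := lev_tab h'.ok
  have ca₁ := h'.a
  have ca₂ := h'.col.1.trans h'.a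
  have cb₁ := h'.b
  have cb₂ := h'.col.2.1.trans h'.b
  have cc₁ := h'.c
  have cc₂ := h'.col.2.2.trans h'.c
  have n1 : κ (ra T') ≠ κ (rb T') := fun h => l4 (hκ _ _ l1 l2 h)
  have n2 : κ (ra T') ≠ κ (rc T') := fun h => l5 (hκ _ _ l1 l3 h)
  have n3 : κ (rb T') ≠ κ (rc T') := fun h => l6 (hκ _ _ l2 l3 h)
  have hcol : ∀ q ∈ passes T'.code, (q.crossing = T'.a₁ ∨ q.crossing = T'.a₂) ∧
      colour q.crossing = κ (ra T') ∨ (q.crossing = T'.b₁ ∨ q.crossing = T'.b₂) ∧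
      colour q.crossing = κ (rb T') ∨ colour q.crossing = κ (rc T') := by
    intro q hq
    rw [mem_code] at hq
    rcases hq with rfl | rfl | rfl | rfl | rfl | rfl | rfl | rfl | rfl | rfl | rfl | rfl
    · exact Or.inl ⟨Or.inl rfl, ca₁⟩
    · exact Or.inl ⟨Or.inl rfl, ca₁⟩
    · exact Or.inl ⟨Or.inr rfl, ca₂⟩
    · exact Or.inl ⟨Or.inr rfl, ca₂⟩
    · exact Or.inr (Or.inl ⟨Or.inl rfl, cb₁⟩)
    · exact Or.inr (Or.inl ⟨Or.inl rfl, cb₁⟩)
    · exact Or.inr (Or.inl ⟨Or.inr rfl, cb₂⟩)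
    · exact Or.inr (Or.inl ⟨Or.inr rfl, cb₂⟩)
    · exact Or.inr (Or.inr cc₁)
    · exact Or.inr (Or.inr cc₁)
    · exact Or.inr (Or.inr cc₂)
    · exact Or.inr (Or.inr cc₂)
  obtain ⟨m1, m2⟩ := nx_mem h2'
  rw [part_of_ne hp] at m2 h2'
  rw [part_of_ne hy] at m1 h2'
  simp only [Tri.pa₁, Tri.pb₁] at hp hy cp cy m1 m2 h2'
  have ea : m T'.a₁ = T'.a₂ := by
    rcases hcol _ m1 with ⟨h3 | h3, -⟩ | ⟨-, h3⟩ | h3
    · exact absurd h3 hy
    · exact h3
    · exact absurd (h3.symm.trans (cy.trans ca₁)) n1.symm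
    · exact absurd (h3.symm.trans (cy.trans ca₁)) n2.symm
  have eb : m T'.b₁ = T'.b₂ := by
    rcases hcol _ m2 with ⟨-, h3⟩ | ⟨h3 | h3, -⟩ | h3
    · exact absurd (h3.symm.trans (cp.trans cb₁)) n1
    · exact absurd h3 hp
    · exact h3
    · exact absurd (h3.symm.trans (cp.trans cb₁)) n3.symm
  rw [ea] at hy h2'
  rw [eb] at hp h2'
  have dab : ∀ {u v : ℕ}, colour u = κ (ra T') → colour v = κ (rb T') → u ≠ v :=
    fun h3 h4 h5 => n1 (h3.symm.trans ((congrArg colour h5).trans h4))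
  have dac : ∀ {u v : ℕ}, colour u = κ (ra T') → colour v = κ (rc T') → u ≠ v :=
    fun h3 h4 h5 => n2 (h3.symm.trans ((congrArg colour h5).trans h4))
  have dbc : ∀ {u v : ℕ}, colour u = κ (rb T') → colour v = κ (rc T') → u ≠ v :=
    fun h3 h4 h5 => n3 (h3.symm.trans ((congrArg colour h5).trans h4))
  obtain ⟨W, hW, hc⟩ := h2'
  have hc' : Cyc (⟨T'.a₂, T'.ta, !!T'.sa⟩ : Pass) ⟨T'.b₂, T'.tb, !!T'.sb⟩ W := hc
  obtain ⟨k1, k2⟩ := cadj_mem hc
  simp only [List.mem_cons, List.not_mem_nil, or_false] at hW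
  rcases hW with rfl | rfl | rfl
  · unfold Tri.wi word4 at hc'
    rw [if_pos he] at hc'
    rcases Tri.cyc4 hc' with ⟨e1, e2⟩ | ⟨e1, e2⟩ | ⟨e1, e2⟩ | ⟨e1, e2⟩
    · exact dab ca₂ cb₂ (congrArg Pass.crossing e1)
    · exact hp (congrArg Pass.crossing e2)
    · exact dab ca₂ cb₁ (congrArg Pass.crossing e1)
    · exact hy (congrArg Pass.crossing e1)
  · rw [Tri.wj, Pool.Agent.Y874.TP2.TH.mem_word4] at k2
    rcases k2 with (k2 | k2) | (k2 | k2)
    · exact dab ca₁ cb₂ (congrArg Pass.crossing k2).symm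
    · exact dab ca₂ cb₂ (congrArg Pass.crossing k2).symm
    · exact dbc cb₂ cc₁ (congrArg Pass.crossing k2)
    · exact dbc cb₂ cc₂ (congrArg Pass.crossing k2)
  · rw [Tri.wk, Pool.Agent.Y874.TP2.TH.mem_word4] at k1
    rcases k1 with (k1 | k1) | (k1 | k1)
    · exact dab ca₂ cb₁ (congrArg Pass.crossing k1)
    · exact dab ca₂ cb₂ (congrArg Pass.crossing k1)
    · exact dac ca₂ cc₁ (congrArg Pass.crossing k1)
    · exact dac ca₂ cc₂ (congrArg Pass.crossing k1)

theorem tab_mir : ∀ (ta tb tc sa sb sc ei ej ek sc' ej' ek' : Bool),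
    xor (xor sa (xor ei ej)) (ta == tb && ta != tc) =
      xor (xor sb (xor (!ei) ek)) (ta == tc) →
    xor (xor sb (xor (!ei) ek)) (ta == tc) = xor (xor sc (xor ej ek)) (ta != tb) →
    xor (xor (!sa) (xor (!ei) ej')) (ta == tb && ta != tc) =
      xor (xor (!sb) (xor (!!ei) ek')) (ta == tc) →
    xor (xor (!sb) (xor (!!ei) ek')) (ta == tc) = xor (xor sc' (xor ej' ek')) (ta != tb) →
    (sc' = !sc ∧ ej' = !ej ∧ ek' = !ek) ∨ (sc' = sc ∧ ej' = ej ∧ ek' = ek) := by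
  decide

theorem toNat_inj : ∀ (a b c : Bool), a.toNat + b.toNat = a.toNat + c.toNat → b = c := by decide

/-- two triple points joined by a plain bigon annihilate -/
theorem bigon_annih {κ : ℕ → ℕ} (hκ : ∀ s t, s < 3 → t < 3 → κ s = κ t → s = t) {D O : Code}
    {T₁ T₂ : Tri} {m : ℕ → ℕ} (h₁ : Rol κ T₁) (h₂ : Rol κ T₂)
    (hw : WF (passes (D ++ (T₁.code ++ (T₂.code ++ O)))))
    (hm : InvM (D ++ (T₁.code ++ (T₂.code ++ O))) m) {p y : Pass} (hpy : Nx T₁ p y)
    (hyp : Nx T₂ (part m y) (part m p)) (hp : m p.crossing ≠ p.crossing)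
    (hy : m y.crossing ≠ y.crossing) : WF (passes (D ++ O)) ∧ ∃ m', InvM (D ++ O) m' := by
  obtain ⟨T, he, rfl, rfl, hs⟩ := nf hpy
  have hT := hs.rol h₁
  obtain ⟨T', he', e1, e2, hs'⟩ := nf hyp
  have hs'' := hs'.tjk
  have hT'' := hs''.rol h₂
  -- replace the codes
  have m1 : InvM (D ++ (T.code ++ (T₂.code ++ O))) m := Pool.Agent.Y874.TP2.invM_ceq hs.ceq hm
  have w1 : WF (passes (D ++ (T.code ++ (T₂.code ++ O)))) := wf_ceq hs.ceq hw
  have hass : ∀ E : Code, D ++ (T.code ++ (E ++ O)) = (D ++ T.code) ++ (E ++ O) := by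
    intro E; simp
  rw [part_of_ne hp] at e1
  rw [part_of_ne hy] at e2
  simp only [Tri.pa₁, Tri.pb₁] at hp hy e1 e2
  simp only [Pass.mk.injEq] at e1 e2
  obtain ⟨b1, b2, b3⟩ := e1
  obtain ⟨a1, a2, a3⟩ := e2
  have hy' : T.a₁ ∈ (passes (D ++ (T.code ++ (T₂.code ++ O)))).map Pass.crossing := by
    refine List.mem_map.2 ⟨T.pa₁, ?_, rfl⟩
    simp only [passes_append', List.mem_append, mem_code]
    simp
  -- heights
  have ta : T'.tjk.ta = T.ta := a2.symm
  have tb : T'.tjk.tb = T.tb := b2.symm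
  have hmemT : ∀ q, q ∈ passes T.code → q ∈ passes (D ++ (T.code ++ (T₂.code ++ O))) := by
    intro q hq; simp only [passes_append', List.mem_append]; exact Or.inr (Or.inl hq)
  have ca : colour T'.tjk.a₁ = colour T.a₁ := by
    have := (m1.2.1 T.pa₁ (hmemT _ (by rw [mem_code]; simp))).1
    simp only [Tri.pa₁] at this
    rw [a1] at this
    exact this
  have cb : colour T'.tjk.b₁ = colour T.b₁ := by
    have := (m1.2.1 T.pb₁ (hmemT _ (by rw [mem_code]; simp))).1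
    simp only [Tri.pb₁] at this
    rw [b1] at this
    exact this
  obtain ⟨l1, l2, l3, l4, l5, l6, -, -⟩ := lev_tab hT.ok
  obtain ⟨r1, r2, r3, r4, r5, r6, -, -⟩ := lev_tab hT''.ok
  have era : ra T'.tjk = ra T := hκ _ _ r1 l1 (by rw [← hT''.a, ← hT.a]; exact ca)
  have erb : rb T'.tjk = rb T := hκ _ _ r2 l2 (by rw [← hT''.b, ← hT.b]; exact cb)
  have tc : T'.tjk.tc = T.tc := by
    have h1 := era
    unfold ra at h1
    rw [tb] at h1
    have h2 := toNat_inj _ _ _ h1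
    exact Bool.not_inj h2
  have erc : rc T'.tjk = rc T := by unfold rc; rw [ta, tb]
  have sa : T'.tjk.sa = !T.sa := by
    have h1 : (!!T.sa) = !T'.sb := a3
    have h2 : T'.tjk.sa = T'.sb := rfl
    rw [h2]
    exact (Bool.not_inj h1).symm
  have sb : T'.tjk.sb = !T.sb := by
    have h1 : (!!T.sb) = !T'.sa := b3
    have h2 : T'.tjk.sb = T'.sa := rfl
    rw [h2]
    exact (Bool.not_inj h1).symm
  have ei : T'.tjk.ei = !T.ei := by
    have h2 : T'.tjk.ei = !T'.ei := rfl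
    rw [h2, he, he']
  have fin : ∀ T₃ : Tri, Sy T₂ T₃ → Mir T T₃ → T₃.a₁ = T'.tjk.a₁ → T₃.b₁ = T'.tjk.b₁ →
      WF (passes (D ++ O)) ∧ ∃ m', InvM (D ++ O) m' := by
    intro T₃ g1 g2 g3 g4
    have hT₃ := g1.rol h₂
    have m2 : InvM (D ++ (T.code ++ (T₃.code ++ O))) m := by
      rw [hass] at m1 ⊢
      exact Pool.Agent.Y874.TP2.invM_ceq g1.ceq m1
    have w2 : WF (passes (D ++ (T.code ++ (T₃.code ++ O)))) := by
      rw [hass] at w1 ⊢
      exact wf_ceq g1.ceq w1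
    refine annih g2 w2 m2 (a1.trans g3.symm) (b1.trans g4.symm) ?_
    have e1 : ra T₃ = ra T := by unfold ra; rw [g2.tb, g2.tc]
    have e2 : rb T₃ = rb T := by unfold rb; rw [g2.ta, g2.tc]
    have e3 : rc T₃ = rc T := by unfold rc; rw [g2.ta, g2.tb]
    intro x hx
    simp only [pairs, List.mem_cons, List.not_mem_nil, or_false] at hx
    rcases hx with rfl | rfl | rfl | rfl | rfl | rfl
    · simp only; rw [hT.a, hT₃.a, e1]
    · simp only; rw [hT.col.1, hT₃.col.1, hT.a, hT₃.a, e1]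
    · simp only; rw [hT.b, hT₃.b, e2]
    · simp only; rw [hT.col.2.1, hT₃.col.2.1, hT.b, hT₃.b, e2]
    · simp only; rw [hT.c, hT₃.c, e3]
    · simp only; rw [hT.col.2.2, hT₃.col.2.2, hT.c, hT₃.c, e3]
  obtain ⟨-, o1, o2⟩ := hT.ok
  obtain ⟨-, o3, o4⟩ := hT''.ok
  simp only [ta, tb, tc, sa, sb, ei] at o3 o4
  rcases tab_mir _ _ _ _ _ _ _ _ _ _ _ _ o1 o2 o3 o4 with ⟨k1, k2, k3⟩ | ⟨k1, k2, k3⟩
  · exact fin T'.tjk hs'' ⟨ta, tb, tc, sa, sb, k1, ei, k2, k3⟩ rfl rfl
  · refine fin _ hs''.swapC ⟨ta, tb, tc, sa, sb, ?_, ei, ?_, ?_⟩ rfl rfl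
    · simp only; rw [k1]
    · simp only; rw [k2]
    · simp only; rw [k3]

theorem role_small {κ : ℕ → ℕ} (hκ : ∀ s t, s < 3 → t < 3 → κ s = κ t → s = t)
    (hodd : ∃ r < 3, κ r % 2 = 1) {D : Code} {Ts : List Tri} {m : ℕ → ℕ}
    (hw : WF (passes (D ++ TC Ts)))
    (hm : InvM (D ++ TC Ts) m) (hP : ∀ T ∈ Ts, Rol κ T) (hs : Small (TC Ts) m) :
    ∃ Ts', Ts'.length < Ts.length ∧ InvP (fun Ts _ => ∀ T ∈ Ts, Rol κ T) D Ts' := by
  have info : ∀ x y, Cor (TC Ts) x y → ∃ s t, s < 3 ∧ t < 3 ∧ s ≠ t ∧ colour x.crossing = κ s ∧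
      colour y.crossing = κ t ∧ x.isOver = lev s t ∧ y.isOver = lev t s ∧
      x ∈ passes (D ++ TC Ts) ∧ y ∈ passes (D ++ TC Ts) := by
    intro x y h
    obtain ⟨T, hT, h⟩ := cor_TC h
    obtain ⟨s, t, h1, h2, h3, h4, h5, h6, h7⟩ := cor_lev (hP T hT) h
    obtain ⟨h8, h9⟩ := nx_mem h
    exact ⟨s, t, h1, h2, h3, h4, h5, h6, h7, mem_all hT h8, mem_all hT h9⟩
  rcases hs with ⟨p, h1⟩ | ⟨p, y, h1, h2⟩ | ⟨p, y, z, h1, h2, h3⟩
  · exfalso
    obtain ⟨s, t, k1, k2, k3, k4, k5, k6, k7, k8, k9⟩ := info _ _ h1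
    rw [part_colour hm k8, k4] at k5
    exact k3 (hκ s t k1 k2 k5)
  · obtain ⟨s, t, k1, k2, k3, k4, k5, k6, k7, k8, k9⟩ := info _ _ h1
    obtain ⟨s', t', j1, j2, j3, j4, j5, j6, j7, j8, j9⟩ := info _ _ h2
    rw [part_colour hm k9, k5] at j4
    rw [part_colour hm k8, k4] at j5
    obtain rfl := hκ _ _ k2 j1 j4
    obtain rfl := hκ _ _ k1 j2 j5
    have hp : m p.crossing ≠ p.crossing := by
      rcases part_over (m := m) (x := p) with ⟨g, -⟩ | ⟨-, g⟩
      · exact g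
      · rw [j7, k6] at g
        simp at g
    have hy : m y.crossing ≠ y.crossing := by
      rcases part_over (m := m) (x := y) with ⟨g, -⟩ | ⟨-, g⟩
      · exact g
      · rw [j6, k7] at g
        simp at g
    obtain ⟨T₁, hT₁, n1⟩ := cor_TC h1
    obtain ⟨T₂, hT₂, n2⟩ := cor_TC h2
    have hne : T₂ ≠ T₁ := by
      rintro rfl
      exact bigon_ne hκ (hP _ hT₁) n1 n2 hp hy (hm.2.1 p k8).1 (hm.2.1 y k9).1
    obtain ⟨l₁, l₂, rfl⟩ := List.append_of_mem hT₁
    have hT₂' : T₂ ∈ l₁ ++ l₂ := by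
      simp only [List.mem_append, List.mem_cons] at hT₂ ⊢
      tauto
    obtain ⟨k₁, k₂, ek⟩ := List.append_of_mem hT₂'
    have perm1 : (D ++ TC (l₁ ++ T₁ :: l₂)).Perm (D ++ (T₁.code ++ TC (l₁ ++ l₂))) := by
      refine List.Perm.append_left _ ?_
      simp only [TC, List.flatMap_append, List.flatMap_cons]
      rw [← List.append_assoc, ← List.append_assoc]
      exact List.Perm.append_right _ List.perm_append_comm
    have perm2 : (D ++ (T₁.code ++ TC (l₁ ++ l₂))).Perm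
        (D ++ (T₁.code ++ (T₂.code ++ TC (k₁ ++ k₂)))) := by
      rw [ek]
      refine List.Perm.append_left _ (List.Perm.append_left _ ?_)
      simp only [TC, List.flatMap_append, List.flatMap_cons]
      rw [← List.append_assoc, ← List.append_assoc]
      exact List.Perm.append_right _ List.perm_append_comm
    have hperm := perm1.trans perm2
    have hm' := Pool.Agent.Y874.TP2.invM_perm hperm hm
    have hw' := WF.perm (passes_perm hperm) hw
    obtain ⟨g1, m', g2⟩ := bigon_annih hκ (hP _ hT₁) (hP _ hT₂) hw' hm' n1 n2 hp hy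
    have hsub : ∀ T ∈ k₁ ++ k₂, T ∈ l₁ ++ T₁ :: l₂ := by
      intro T hT
      have : T ∈ l₁ ++ l₂ := by
        rw [ek]
        simp only [List.mem_append, List.mem_cons] at hT ⊢
        tauto
      simp only [List.mem_append, List.mem_cons] at this ⊢
      tauto
    refine ⟨k₁ ++ k₂, ?_, g1, fun T hT => ⟨(hP T (hsub T hT)).ok, (hP T (hsub T hT)).col⟩, m', g2,
      fun T hT => hP T (hsub T hT)⟩
    have := congrArg List.length ek
    simp only [List.length_append, List.length_cons] at this ⊢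
    omega
  · exfalso
    obtain ⟨s, t, k1, k2, k3, k4, k5, k6, k7, k8, k9⟩ := info _ _ h1
    obtain ⟨t', v, j1, j2, j3, j4, j5, j6, j7, j8, j9⟩ := info _ _ h2
    obtain ⟨v', s', i1, i2, i3, i4, i5, i6, i7, i8, i9⟩ := info _ _ h3
    rw [part_colour hm k9, k5] at j4
    rw [part_colour hm k8, k4] at i5
    rw [part_colour hm j9, j5] at i4
    obtain rfl := hκ _ _ k2 j1 j4
    obtain rfl := hκ _ _ k1 i2 i5
    obtain rfl := hκ _ _ j2 i1 i4
    -- all three crossings are matched with themselves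
    have levne : ∀ a b c : ℕ, a < 3 → b < 3 → c < 3 → a ≠ b → a ≠ c → b ≠ c →
        lev a b ≠ lev a c := by
      intro a b c ha hb hc
      interval_cases a <;> interval_cases b <;> interval_cases c <;> simp [lev]
    have self : ∀ {x : Pass} {a b c : ℕ}, a < 3 → b < 3 → c < 3 → a ≠ b → a ≠ c → b ≠ c →
        x.isOver = lev a b → (part m x).isOver = lev a c → m x.crossing = x.crossing := by
      intro x a b c ha hb hc h1 h2 h3 h4 h5
      rcases part_over (m := m) (x := x) with ⟨-, g⟩ | ⟨g, -⟩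
      · rw [h4, h5] at g
        exact absurd g.symm (levne a b c ha hb hc h1 h2 h3)
      · exact g
    have sp := self k1 k2 j2 k3 (Ne.symm i3) j3 k6 i7
    have sy := self k2 k1 j2 k3.symm j3 (Ne.symm i3) k7 j6
    have sz := self j2 k2 k1 j3.symm i3 k3.symm j7 i6
    obtain ⟨r, hr, ho⟩ := hodd
    have h3 : r = s ∨ r = t ∨ r = v := by omega
    rcases h3 with rfl | rfl | rfl
    · exact (hm.2.1 p k8).2 (by rw [k4]; omega) sp
    · exact (hm.2.1 y k9).2 (by rw [k5]; omega) sy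
    · exact (hm.2.1 z j9).2 (by rw [j5]; omega) sz

theorem rol_relabel {κ : ℕ → ℕ} {T : Tri} {i j k : ℕ} (h : Rol κ T) :
    Rol κ { T with li := i, lj := j, lk := k } := ⟨h.ok, h.col, h.a, h.b, h.c⟩

theorem role_cls {κ : ℕ → ℕ} (hκ : ∀ s t, s < 3 → t < 3 → κ s = κ t → s = t)
    (hodd : ∃ r < 3, κ r % 2 = 1) : Cls (fun Ts _ => ∀ T ∈ Ts, Rol κ T) where
  same := by
    intro Ts' Ts m h hP
    induction h with
    | nil => intro T hT; exact absurd hT (by simp)
    | @cons T' T Ts' Ts h _ ih =>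
      obtain ⟨i, j, k, rfl⟩ := h
      intro T₁ hT₁
      rcases List.mem_cons.1 hT₁ with rfl | hT₁
      · exact rol_relabel (hP T (by simp))
      · exact ih (fun T hT => hP T (by simp [hT])) T₁ hT₁
  del := by
    intro l₁ T l₂ m m' hP _ T₁ hT₁
    refine hP T₁ ?_
    simp only [List.mem_append, List.mem_cons] at hT₁ ⊢
    tauto
  small := fun D Ts m _ hw _ hm hP hs => role_small hκ hodd hw hm hP hs

end Pool.Agent.V11206
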