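import Pool.Agent.V11206.CvA
import Pool.Agent.V11206.BFin
import Pool.Agent.V11206.Role

/-! Annihilation of two triple points joined by a bigon at ends of the same double curves. -/

set_option autoImplicit false

namespace Pool.Agent.V11206

open Pool.Agent.Y468.SR
open Pool.Agent.Y874.TP hiding InvM InvC CM CReid CStep SMovie Inv3
open Pool.Agent.Y874.TP2

set_option linter.unusedSimpArgs false
set_option linter.unusedVariables false

/-- the roles are given by the names -/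
structure RolN (ρ : ℕ → ℕ) (T : Tri) : Prop where
  a1 : ρ T.a₁ = ra T
  a2 : ρ T.a₂ = ra T
  b1 : ρ T.b₁ = rb T
  b2 : ρ T.b₂ = rb T
  c1 : ρ T.c₁ = rc T
  c2 : ρ T.c₂ = rc T

theorem Sy.rolN {ρ : ℕ → ℕ} {T T' : Tri} (h : Sy T T') : RolN ρ T → RolN ρ T' := by
  induction h with
  | refl => exact id
  | @swapA T' _ ih =>
    intro k
    have k := ih k
    exact ⟨k.a2, k.a1, k.b1, k.b2, k.c1, k.c2⟩
  | @swapB T' _ ih =>
    intro k
    have k := ih k
    exact ⟨k.a1, k.a2, k.b2, k.b1, k.c1, k.c2⟩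
  | @tij T' _ ih =>
    intro k
    have k := ih k
    have e1 : ra T' = ra T'.tij := by simp only [ra, Tri.tij]; exact add_comm _ _
    have e2 : rc T' = rb T'.tij := by simp only [rc, rb, Tri.tij, Bool.not_not]
    have e3 : rb T' = rc T'.tij := by simp only [rc, rb, Tri.tij]
    exact ⟨k.a1.trans e1, k.a2.trans e1, k.c1.trans e2, k.c2.trans e2, k.b1.trans e3, k.b2.trans e3⟩
  | @tjk T' _ ih =>
    intro k
    have k := ih k
    have e1 : rb T' = ra T'.tjk := by simp only [ra, rb, Tri.tjk, Bool.not_not]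
    have e2 : ra T' = rb T'.tjk := by simp only [ra, rb, Tri.tjk]
    have e3 : rc T' = rc T'.tjk := by simp only [rc, Tri.tjk]; exact add_comm _ _
    exact ⟨k.b1.trans e1, k.b2.trans e1, k.a1.trans e2, k.a2.trans e2, k.c1.trans e3, k.c2.trans e3⟩

theorem rolN_of {T : Tri} (h : Lvl T) (h6 : [T.a₁, T.a₂, T.b₁, T.b₂, T.c₁, T.c₂].Nodup) :
    ∃ ρ : ℕ → ℕ, RolN ρ T ∧ ∀ i, ρ (nmT T i) = tn i := by
  let ρ : ℕ → ℕ := fun c => if c = T.a₁ ∨ c = T.a₂ then 0 else if c = T.b₁ ∨ c = T.b₂ then 1 else 2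
  have e : ∀ i, ρ (nmT T i) = tn i := by
    simp only [List.nodup_cons, List.mem_cons, List.not_mem_nil, or_false, not_or, List.nodup_nil,
      and_true, not_false_eq_true] at h6
    obtain ⟨⟨n12, n13, n14, n15, n16⟩, ⟨n23, n24, n25, n26⟩, ⟨n34, n35, n36⟩, ⟨n45, n46⟩, n56⟩ := h6
    intro i
    cases i
    · simp [ρ, nmT, tn]
    · simp [ρ, nmT, tn]
    · simp [ρ, nmT, tn, Ne.symm n13, Ne.symm n23]
    · simp [ρ, nmT, tn, Ne.symm n14, Ne.symm n24]
    · simp [ρ, nmT, tn, Ne.symm n15, Ne.symm n25, Ne.symm n35, Ne.symm n45]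
    · simp [ρ, nmT, tn, Ne.symm n16, Ne.symm n26, Ne.symm n36, Ne.symm n46]
  have e1 : ra T = 0 := by simp [ra, h.tb, h.tc]
  have e2 : rb T = 1 := by simp [rb, h.ta, h.tc]
  have e3 : rc T = 2 := by simp [rc, h.ta, h.tb]
  refine ⟨ρ, ⟨?_, ?_, ?_, ?_, ?_, ?_⟩, e⟩
  · rw [e1]; exact e .a1
  · rw [e1]; exact e .a2
  · rw [e2]; exact e .b1
  · rw [e2]; exact e .b2
  · rw [e3]; exact e .c1
  · rw [e3]; exact e .c2

/-- the ends of the same double curves may be joined -/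
def Mrg (fr : ℕ → Prop) (κ : ℕ → ℕ) (T T' : Tri) : Prop := ∀ n n', ty n = ty n' →
  fr (nmT T n) ∨ fr (nmT T' n') ∨ κ (nmT T n) = κ (nmT T' n')

theorem bigonX {fr : ℕ → Prop} {κ : ℕ → ℕ} {br S : ℕ → Prop} {D O : Code} {T₁ T₂ : Tri}
    {m : ℕ → ℕ} (hS : ∀ c, S c → ∃ q ∈ passes (D ++ O), q.crossing = c)
    (v₁ : Lvl T₁) (v₂ : Lvl T₂) (o₁ : T₁.Ok) (o₂ : T₂.Ok)
    (n₁ : [T₁.a₁, T₁.a₂, T₁.b₁, T₁.b₂, T₁.c₁, T₁.c₂].Nodup)
    (n₂ : [T₂.a₁, T₂.a₂, T₂.b₁, T₂.b₂, T₂.c₁, T₂.c₂].Nodup)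
    (z₁ : ∀ c, Nam T₁ c → colour c = 0) (z₂ : ∀ c, Nam T₂ c → colour c = 0)
    (hw : WF (passes (D ++ (T₁.code ++ (T₂.code ++ O)))))
    (hm : InvM (D ++ (T₁.code ++ (T₂.code ++ O))) m)
    (hc : Cmp fr κ br (fun c => S c ∨ Nam T₁ c ∨ Nam T₂ c) m)
    (hM : Mrg fr κ T₁ T₂) {p y : Pass} {j k : Ix} (hpy : Nx T₁ p y)
    (hyp : Nx T₂ (part m y) (part m p)) (hp : m p.crossing ≠ p.crossing)
    (hy : m y.crossing ≠ y.crossing)
    (ej : y.crossing = nmT T₁ j) (ek : m y.crossing = nmT T₂ k)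
    (t1 : ty j = ty k) : WF (passes (D ++ O)) ∧ ∃ m', InvM (D ++ O) m' ∧ Cmp fr κ br S m' := by
  obtain ⟨ρ₁, r₁, r₁'⟩ := rolN_of v₁ n₁
  obtain ⟨ρ₂, r₂, r₂'⟩ := rolN_of v₂ n₂
  obtain ⟨T, he, rfl, rfl, hs⟩ := nf hpy
  have hT := hs.rolN r₁
  have oT := hs.ok o₁
  obtain ⟨T', he', e1, e2, hs'⟩ := nf hyp
  have hs'' := hs'.tjk
  have hT'' := hs''.rolN r₂
  have oT'' := hs''.ok o₂
  -- replace the codes
  have m1 : InvM (D ++ (T.code ++ (T₂.code ++ O))) m := Pool.Agent.Y874.TP2.invM_ceq hs.ceq hm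
  have w1 : WF (passes (D ++ (T.code ++ (T₂.code ++ O)))) := wf_ceq hs.ceq hw
  have hass : ∀ E : Code, D ++ (T.code ++ (E ++ O)) = (D ++ T.code) ++ (E ++ O) := by
    intro E; simp
  rw [part_of_ne hp] at e1
  rw [part_of_ne hy] at e2
  simp only [Tri.pa₁, Tri.pb₁] at hp hy e1 e2 ej ek
  simp only [Pass.mk.injEq] at e1 e2
  obtain ⟨b1, b2, b3⟩ := e1
  obtain ⟨a1, a2, a3⟩ := e2
  -- heights
  have ta : T'.tjk.ta = T.ta := a2.symm
  have tb : T'.tjk.tb = T.tb := b2.symm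
  have era : ra T'.tjk = ra T := by
    have h1 := hT''.a1
    have h2 : T'.tjk.a₁ = nmT T₂ k := a1.symm.trans ek
    rw [h2, r₂'] at h1
    have h3 := hT.a1
    rw [ej, r₁'] at h3
    rw [← h1, ← h3]
    exact (tn_ty.2 t1).symm
  have tc : T'.tjk.tc = T.tc := by
    have h1 := era
    unfold ra at h1
    rw [tb] at h1
    have h2 := toNat_inj _ _ _ h1
    exact Bool.not_inj h2
  have sa : T'.tjk.sa = !T.sa := by
    have h1 : (!!T.sa) = !T'.sb := a3
    have h2 : T'.tjk.sa = T'.sb := rfl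
    rw [h2]
    exact (Bool.not_inj h1).symm
  have sb : T'.tjk.sb = !T.sb := by
    have h1 : (!!T.sb) = !T'.sa := b3
    have h2 : T'.tjk.sb = T'.sa := rfl
    rw [h2]
    exact (Bool.not_inj h1).symm
  have ei : T'.tjk.ei = !T.ei := by
    have h2 : T'.tjk.ei = !T'.ei := rfl
    rw [h2, he, he']
  have fin : ∀ T₃ : Tri, Sy T₂ T₃ → Mir T T₃ → T₃.a₁ = T'.tjk.a₁ → T₃.b₁ = T'.tjk.b₁ →
      WF (passes (D ++ O)) ∧ ∃ m', InvM (D ++ O) m' ∧ Cmp fr κ br S m' := by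
    intro T₃ g1 g2 g3 g4
    have hT₃ := g1.rolN r₂
    have m2 : InvM (D ++ (T.code ++ (T₃.code ++ O))) m := by
      rw [hass] at m1 ⊢
      exact Pool.Agent.Y874.TP2.invM_ceq g1.ceq m1
    have w2 : WF (passes (D ++ (T.code ++ (T₃.code ++ O)))) := by
      rw [hass] at w1 ⊢
      exact wf_ceq g1.ceq w1
    have e1 : ra T₃ = ra T := by unfold ra; rw [g2.tb, g2.tc]
    have e2 : rb T₃ = rb T := by unfold rb; rw [g2.ta, g2.tc]
    have e3 : rc T₃ = rc T := by unfold rc; rw [g2.ta, g2.tb]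
    -- the pairs
    have hpr : ∀ x ∈ pairs T T₃, Nam T₁ x.1 ∧ Nam T₂ x.2.1 ∧ ρ₁ x.1 = ρ₂ x.2.1 := by
      intro x hx
      rw [← nam_sy hs, ← nam_sy g1]
      simp only [pairs, List.mem_cons, List.not_mem_nil, or_false] at hx
      rcases hx with rfl | rfl | rfl | rfl | rfl | rfl
      · exact ⟨by simp [Nam], by simp [Nam], by simp only; rw [hT.a1, hT₃.a1, e1]⟩
      · exact ⟨by simp [Nam], by simp [Nam], by simp only; rw [hT.a2, hT₃.a2, e1]⟩
      · exact ⟨by simp [Nam], by simp [Nam], by simp only; rw [hT.b1, hT₃.b1, e2]⟩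
      · exact ⟨by simp [Nam], by simp [Nam], by simp only; rw [hT.b2, hT₃.b2, e2]⟩
      · exact ⟨by simp [Nam], by simp [Nam], by simp only; rw [hT.c1, hT₃.c1, e3]⟩
      · exact ⟨by simp [Nam], by simp [Nam], by simp only; rw [hT.c2, hT₃.c2, e3]⟩
    obtain ⟨w3, hI⟩ := annihX g2 w2 m2 (a1.trans g3.symm) (b1.trans g4.symm) fun x hx => by
      obtain ⟨h1, h2, -⟩ := hpr x hx
      rw [z₁ _ h1, z₂ _ h2]
    refine elimC hS w3 hI (hc.congr (fun c hc => ?_) fun c _ _ => rfl) fun x hx => ?_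
    · rcases hc with hc | ⟨x, hx, hc⟩
      · exact Or.inl hc
      · obtain ⟨h1, h2, -⟩ := hpr x hx
        rcases hc with rfl | rfl
        · exact Or.inr (Or.inl h1)
        · exact Or.inr (Or.inr h2)
    · obtain ⟨h1, h2, h3⟩ := hpr x hx
      obtain ⟨n, hn⟩ := nam_ix.1 h1
      obtain ⟨n', hn'⟩ := nam_ix.1 h2
      rw [hn, hn'] at h3 ⊢
      rw [r₁', r₂'] at h3
      exact hM n n' (tn_ty.1 h3)
  obtain ⟨-, o1, o2⟩ := oT
  obtain ⟨-, o3, o4⟩ := oT''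
  simp only [ta, tb, tc, sa, sb, ei] at o3 o4
  rcases tab_mir _ _ _ _ _ _ _ _ _ _ _ _ o1 o2 o3 o4 with ⟨k1, k2, k3⟩ | ⟨k1, k2, k3⟩
  · exact fin T'.tjk hs'' ⟨ta, tb, tc, sa, sb, k1, ei, k2, k3⟩ rfl rfl
  · refine fin _ hs''.swapC ⟨ta, tb, tc, sa, sb, ?_, ei, ?_, ?_⟩ rfl rfl
    · simp only; rw [k1]
    · simp only; rw [k2]
    · simp only; rw [k3]

/-! ### both corners at one triple point -/

def opx : Ix → Ix
  | .a1 => .a2 | .a2 => .a1 | .b1 => .b2 | .b2 => .b1 | .c1 => .c2 | .c2 => .c1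

theorem opx_of {i j : Ix} (h : ty i = ty j) (h' : i ≠ j) : j = opx i := by
  cases i <;> cases j <;> simp_all [ty, opx]

def opB (ei ej ek : Bool) (i : Ix) (l : Bool) : Bool :=
  let x := nxt true true true ei ej ek i l
  peq (nxt true true true ei ej ek (opx x.1) x.2) (i, l)

theorem opB_all : (allB fun ei => allB fun ej => allB fun ek => allI fun i => allB fun l =>
    opB ei ej ek i l) = true := by
  decide +kernel

theorem lvl_op {T : Tri} (h : Lvl T) (i : Ix) (l : Bool) :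
    nT T (opx (nT T i l).1) (nT T i l).2 = (i, l) := by
  have h1 := allB_iff (allI_iff (allB_iff (allB_iff (allB_iff opB_all T.ei) T.ej) T.ek) i) l
  unfold opB peq at h1
  simp only [Bool.and_eq_true, beq_iff_eq] at h1
  obtain ⟨h1, h2⟩ := h1
  have e : ∀ i l, V11206.nT T i l = nxt true true true T.ei T.ej T.ek i l := by
    intro i l
    unfold V11206.nT; rw [h.ta, h.tb, h.tc]
  simp only [e]
  exact Prod.ext (ixb_iff.1 h1) h2

/-- the corners of a bigon at ends of the same double curves belong to different triple points -/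
theorem plain_ne {T : Tri} (h : Lvl T) (h6 : [T.a₁, T.a₂, T.b₁, T.b₂, T.c₁, T.c₂].Nodup)
    {m : ℕ → ℕ} {p y : Pass} (h1 : Nx T p y) (h2 : Nx T (part m y) (part m p)) {j k : Ix}
    (hp : m p.crossing ≠ p.crossing) (hy : m y.crossing ≠ y.crossing)
    (ej : y.crossing = nmT T j) (ek : m y.crossing = nmT T k) (t : ty j = ty k) : False := by
  obtain ⟨i, l, e1, e2⟩ := nx_nxt h1
  obtain ⟨i', l', e3, e4⟩ := nx_nxt h2
  rw [part_of_ne hy] at e3
  rw [part_of_ne hp] at e4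
  have c1 : j = (nT T i l).1 := nm_inj h6 (by rw [← ej, e2]; rfl)
  have c2 : (nT T i l).2 = y.isOver := by rw [e2]; rfl
  have c3 : k = i' := nm_inj h6 (by rw [← ek]; exact congrArg Pass.crossing e3)
  have c4 : y.isOver = l' := congrArg Pass.isOver e3
  have c5 : j ≠ k := fun e => hy (by rw [ek, ej, e])
  have c6 : k = opx j := opx_of t c5
  have c7 : nT T i' l' = (i, l) := by
    rw [← c3, c6, ← c4, ← c2, c1]
    exact lvl_op h i l
  have c8 := congrArg Pass.crossing e4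
  simp only [ps, c7] at c8
  exact hp (by rw [c8, e1]; rfl)

end Pool.Agent.V11206
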