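import Pool.Agent.V11206.CvB
import Pool.Agent.V11206.ChB

/-! Charges for classes of double arcs. -/

set_option autoImplicit false

namespace Pool.Agent.V11206

open Pool.Agent.Y468.SR
open Pool.Agent.Y874.TP hiding InvM InvC CM CReid CStep SMovie Inv3
open Pool.Agent.Y874.TP2
open Pool.Agent.Y761.TP2 (uniq side part_mem)

set_option linter.unusedSimpArgs false
set_option linter.unusedVariables false

section defs
variable (fr : ℕ → Prop) (κ : ℕ → ℕ) (br : ℕ → Prop)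

/-- the ends at `T` which are not free are in one class, with branch points -/
def Mon (T : Tri) : Prop := (∀ i j, fr (nmT T i) ∨ fr (nmT T j) ∨ κ (nmT T i) = κ (nmT T j)) ∧
  ∀ i, fr (nmT T i) ∨ br (κ (nmT T i))

/-- the corner `(T', k, l)` may follow the corner `(T, i, j)` -/
def LkS (T : Tri) (i j : Ix) (T' : Tri) (k l : Ix) : Prop :=
  ty i ≠ ty j ∧ ty k ≠ ty l ∧ ¬fr (nmT T j) ∧ ¬fr (nmT T' k) ∧ κ (nmT T j) = κ (nmT T' k) ∧
    (nmT T j ≠ nmT T' k ∧ up j i = up k l ∨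
      nmT T j = nmT T' k ∧ (br (κ (nmT T j)) ∧ ¬(Mon fr κ br T ∧ ty j ≠ .b1)) ∧ up j i ≠ up k l)

/-- an end of `T` may be joined with another triple point -/
def Lkd (Ts : List Tri) (T : Tri) : Prop := ∃ T' ∈ Ts, nmT T' ≠ nmT T ∧ ∃ i j,
  ¬fr (nmT T i) ∧ ¬fr (nmT T' j) ∧ κ (nmT T i) = κ (nmT T' j)

/-- small faces with all corners at `T` are reducible -/
def Lgt (Ts : List Tri) (T : Tri) : Prop := ¬Lkd fr κ Ts T ∨ Mon fr κ br T

open Classical in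
/-- the number of free corners -/
noncomputable def fcS (T : Tri) : ℕ :=
  (crn.map fun c => if fr (nmT T c.1) ∧ fr (nmT T c.2) then 1 else 0).sum

/-- charges -/
structure ChS (x : ℕ → ℕ → ℕ) (Ts : List Tri) : Prop where
  lev : ∀ T ∈ Ts, Lvl T
  symm : ∀ c c', x c c' = x c' c
  one : ∀ T ∈ Ts, ¬Lgt fr κ br Ts T → ∀ i j, LkS fr κ br T i j T i j →
    3 ≤ x (nmT T i) (nmT T j)
  two : ∀ T ∈ Ts, ∀ T' ∈ Ts, ∀ i j k l, LkS fr κ br T i j T' k l →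
    LkS fr κ br T' k l T i j →
    (ty j = ty k ∧ ty i = ty l ∧ (nmT T = nmT T' ∨ Mrg fr κ T T')) ∨
    (nmT T = nmT T' ∧ Lgt fr κ br Ts T) ∨
    2 ≤ x (nmT T i) (nmT T j) + x (nmT T' k) (nmT T' l)
  three : ∀ T ∈ Ts, ∀ T' ∈ Ts, ∀ T'' ∈ Ts, ∀ i j k l n r,
    LkS fr κ br T i j T' k l → LkS fr κ br T' k l T'' n r → LkS fr κ br T'' n r T i j →
    (nmT T = nmT T' ∧ nmT T' = nmT T'' ∧ Lgt fr κ br Ts T) ∨
    1 ≤ x (nmT T i) (nmT T j) + x (nmT T' k) (nmT T' l) + x (nmT T'' n) (nmT T'' r)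
  sum : (Ts.map fun T => cs x T - fcS fr T).sum ≤ 3

end defs

/-- the class -/
def QX (Ts : List Tri) (m : ℕ → ℕ) : Prop :=
  (∀ T ∈ Ts, ∀ c, Nam T c → colour c = 0) ∧
    ∃ (fr : ℕ → Prop) (κ : ℕ → ℕ) (br : ℕ → Prop) (x : ℕ → ℕ → ℕ),
      ChS fr κ br x Ts ∧ Cmp fr κ br (Names Ts) m

section clo
variable {fr : ℕ → Prop} {κ : ℕ → ℕ} {br : ℕ → Prop} {x : ℕ → ℕ → ℕ}

theorem ChS.sub {Ts Ts' : List Tri} (h : ChS fr κ br x Ts) (hs : Ts'.Sublist Ts) :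
    ChS fr κ br x Ts' := by
  have hmem : ∀ {T}, T ∈ Ts' → T ∈ Ts := fun hT => hs.subset hT
  have lk : ∀ {T}, Lgt fr κ br Ts T → Lgt fr κ br Ts' T := by
    rintro T (h1 | h1)
    · exact Or.inl fun ⟨T', h2, h3⟩ => h1 ⟨T', hmem h2, h3⟩
    · exact Or.inr h1
  refine ⟨fun T hT => h.lev T (hmem hT), h.symm, ?_, ?_, ?_, ?_⟩
  · intro T hT hi i j hl
    exact h.one T (hmem hT) (fun k => hi (lk k)) i j hl
  · intro T hT T' hT' i j k l h1 h2
    rcases h.two T (hmem hT) T' (hmem hT') i j k l h1 h2 with h3 | ⟨h3, h4⟩ | h3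
    · exact Or.inl h3
    · exact Or.inr (Or.inl ⟨h3, lk h4⟩)
    · exact Or.inr (Or.inr h3)
  · intro T hT T' hT' T'' hT'' i j k l n r h1 h2 h3
    rcases h.three T (hmem hT) T' (hmem hT') T'' (hmem hT'') i j k l n r h1 h2 h3 with
      ⟨h4, h5, h6⟩ | h4
    · exact Or.inl ⟨h4, h5, lk h6⟩
    · exact Or.inr h4
  · exact le_trans ((hs.map _).sum_le_sum fun _ _ => Nat.zero_le _) h.sum

theorem ChS.same {Ts Ts' : List Tri} (h : ChS fr κ br x Ts) (hs : List.Forall₂ SameTri Ts' Ts) :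
    ChS fr κ br x Ts' := by
  have F : ∀ T' ∈ Ts', ∃ T ∈ Ts, nmT T' = nmT T ∧ (Lvl T → Lvl T') := by
    intro T' hT'
    obtain ⟨T, hT, hs⟩ := forall2_left hs T' hT'
    exact ⟨T, hT, same_nm hs⟩
  have mo : ∀ {T' T : Tri}, nmT T' = nmT T → Mon fr κ br T' = Mon fr κ br T := by
    intro T' T e
    unfold Mon
    rw [e]
  have lk : ∀ {T' T : Tri}, nmT T' = nmT T → Lgt fr κ br Ts T → Lgt fr κ br Ts' T' := by
    rintro T' T e (h1 | h1)
    · left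
      rintro ⟨T₂', h1', h2, h3⟩
      obtain ⟨T₂, h4, e2, -⟩ := F T₂' h1'
      exact h1 ⟨T₂, h4, by rw [← e2, ← e]; exact h2, by rw [← e2, ← e]; exact h3⟩
    · right; rw [mo e]; exact h1
  have ls : ∀ {T₁' T₁ T₂' T₂ : Tri} {i j k l : Ix}, nmT T₁' = nmT T₁ → nmT T₂' = nmT T₂ →
      LkS fr κ br T₁' i j T₂' k l → LkS fr κ br T₁ i j T₂ k l := by
    intro T₁' T₁ T₂' T₂ i j k l e1 e2 hl
    unfold LkS at hl ⊢
    rw [e1, e2, mo e1] at hl
    exact hl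
  refine ⟨?_, h.symm, ?_, ?_, ?_, ?_⟩
  · intro T' hT'
    obtain ⟨T, hT, -, hl⟩ := F T' hT'
    exact hl (h.lev T hT)
  · intro T' hT' hi i j hl
    obtain ⟨T, hT, e, -⟩ := F T' hT'
    rw [e]
    exact h.one T hT (fun k => hi (lk e k)) i j (ls e e hl)
  · intro T₁' hT₁' T₂' hT₂' i j k l l1 l2
    obtain ⟨T₁, hT₁, e₁, -⟩ := F T₁' hT₁'
    obtain ⟨T₂, hT₂, e₂, -⟩ := F T₂' hT₂'
    have h3 := h.two T₁ hT₁ T₂ hT₂ i j k l (ls e₁ e₂ l1) (ls e₂ e₁ l2)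
    unfold Mrg at h3 ⊢
    rw [e₁, e₂]
    rcases h3 with h3 | ⟨h3, h4⟩ | h3
    · exact Or.inl h3
    · exact Or.inr (Or.inl ⟨h3, lk e₁ h4⟩)
    · exact Or.inr (Or.inr h3)
  · intro T₁' hT₁' T₂' hT₂' T₃' hT₃' i j k l n r l1 l2 l3
    obtain ⟨T₁, hT₁, e₁, -⟩ := F T₁' hT₁'
    obtain ⟨T₂, hT₂, e₂, -⟩ := F T₂' hT₂'
    obtain ⟨T₃, hT₃, e₃, -⟩ := F T₃' hT₃'
    rw [e₁, e₂, e₃]
    rcases h.three T₁ hT₁ T₂ hT₂ T₃ hT₃ i j k l n r (ls e₁ e₂ l1) (ls e₂ e₃ l2)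
      (ls e₃ e₁ l3) with ⟨h4, h5, h6⟩ | h4
    · exact Or.inl ⟨h4, h5, lk e₁ h6⟩
    · exact Or.inr h4
  · rw [forall2_sum (g := fun T => cs x T - fcS fr T) hs fun T' T hs => ?_]
    · exact h.sum
    · obtain ⟨e, -⟩ := same_nm hs
      have e1 : cs x T' = cs x T := by unfold cs; rw [e]
      have e2 : fcS fr T' = fcS fr T := by unfold fcS; rw [e]
      rw [e1, e2]

/-- ends in one class are joined in any way -/
theorem Cmp.mono {N N' : ℕ → Prop} {T : Tri} {m m' : ℕ → ℕ} (h : Cmp fr κ br N m)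
    (hM : Mon fr κ br T) (hi : ∀ c, N c → m (m c) = c) (hN : ∀ c, N' c → N c)
    (hT : ∀ c, Nam T c → N c)
    (htr : ∀ c, N' c → m' c = m c ∨
      (Nam T (m c) ∧ (m' c = c ∨ ∃ y, Nam T y ∧ m' c = m y))) : Cmp fr κ br N' m' := by
  have key : ∀ c, N' c → Nam T (m c) → ¬fr c ∧ br (κ c) ∧
      ∀ y, Nam T y → N (m y) → κ (m y) = κ c := by
    intro c hc hz
    obtain ⟨i, e⟩ := nam_ix.1 hz
    have hz' := hT _ hz
    have nc : ¬fr c := fun hf => h.free c (hN c hc) hf hz'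
    have nz : ¬fr (nmT T i) := fun hf => h.free _ (by rw [← e]; exact hz') hf (by
      rw [← e, hi c (hN c hc)]; exact hN c hc)
    have kz : κ (nmT T i) = κ c := by rw [← e]; exact h.cls c (hN c hc) hz'
    refine ⟨nc, ?_, fun y hy hy' => ?_⟩
    · rw [← kz]
      rcases hM.2 i with h1 | h1
      · exact absurd h1 nz
      · exact h1
    · obtain ⟨j, rfl⟩ := nam_ix.1 hy
      have ny : ¬fr (nmT T j) := fun hf => h.free _ (hT _ hy) hf hy'
      rw [h.cls _ (hT _ hy) hy', ← kz]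
      rcases hM.1 i j with h1 | h1 | h1
      · exact absurd h1 nz
      · exact absurd h1 ny
      · exact h1.symm
  refine ⟨fun c hc hf hk => ?_, fun c hc hk => ?_, fun c hc e => ?_⟩
  · rcases htr c hc with e | ⟨e, -⟩
    · exact h.free c (hN c hc) hf (by rw [← e]; exact hN _ hk)
    · exact (key c hc e).1 hf
  · rcases htr c hc with e | ⟨e, e' | ⟨y, hy, e'⟩⟩
    · rw [e]
      exact h.cls c (hN c hc) (by rw [← e]; exact hN _ hk)
    · rw [e']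
    · rw [e'] at hk ⊢
      exact (key c hc e).2.2 y hy (hN _ hk)
  · rcases htr c hc with e' | ⟨e', -⟩
    · exact h.bra c (hN c hc) (by rw [← e']; exact e)
    · exact (key c hc e').2.1

end clo

theorem qx_cls : Cls0 QX where
  same := by
    rintro Ts' Ts m h ⟨h1, fr, κ, br, x, h2, h3⟩
    have hN : ∀ c, Names Ts' c ↔ Names Ts c := names_same h
    refine ⟨fun T' hT' c hc => ?_, fr, κ, br, x, h2.same h,
      h3.congr (fun c hc => (hN c).1 hc) fun c _ _ => rfl⟩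
    obtain ⟨T, hT, k⟩ := (hN c).1 ⟨T', hT', hc⟩
    exact h1 T hT c k
  del := by
    rintro l₁ T l₂ m m' ⟨h1, fr, κ, br, x, h2, h3⟩ h4
    have hs : (l₁ ++ l₂).Sublist (l₁ ++ T :: l₂) :=
      List.Sublist.append (List.Sublist.refl _) (List.sublist_cons_self _ _)
    refine ⟨fun T' hT' => h1 T' (hs.subset hT'), fr, κ, br, x, h2.sub hs, ?_⟩
    refine h3.congr (fun c ⟨T', hT', hc⟩ => ⟨T', hs.subset hT', hc⟩) fun c hc hk => ?_
    have hk' : Names (l₁ ++ l₂) (m' c) := by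
      rcases hk with hk | hk
      · exact hk
      · rw [hk]; exact hc
    obtain ⟨p, hp, e1⟩ := names_pass hc
    obtain ⟨q, hq, e2⟩ := names_pass hk'
    have := (h4 p hp q hq).1 (by rw [e1, e2])
    rw [e1, e2] at this
    exact this.symm

/-- the elimination of an isolated triple point -/
theorem qx_iso {l₁ l₂ : List Tri} {T : Tri} {m m' : ℕ → ℕ} (h : QX (l₁ ++ T :: l₂) m)
    (hinv : ∀ c, Names (l₁ ++ T :: l₂) c → m (m c) = c)
    (hd : ∀ c, Names (l₁ ++ l₂) c → ¬Nam T c)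
    (hi : Iso (l₁ ++ T :: l₂) m T)
    (htr : ∀ c, Names (l₁ ++ l₂) c → m' c = m c ∨
      (Nam T (m c) ∧ (m' c = c ∨ ∃ y, Nam T y ∧ m' c = m y))) : QX (l₁ ++ l₂) m' := by
  obtain ⟨h1, fr, κ, br, x, h2, h3⟩ := h
  have hs : (l₁ ++ l₂).Sublist (l₁ ++ T :: l₂) :=
    List.Sublist.append (List.Sublist.refl _) (List.sublist_cons_self _ _)
  have e : ∀ c, Names (l₁ ++ l₂) c → m' c = m c := by
    intro c hc
    rcases htr c hc with h3 | ⟨h3, -⟩
    · exact h3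
    · exfalso
      obtain ⟨T', hT', k⟩ := hc
      have hN : Names (l₁ ++ T :: l₂) c := ⟨T', hs.subset hT', k⟩
      obtain ⟨i, hi'⟩ := nam_ix.1 h3
      have := hi i (by rw [← hi', hinv c hN]; exact hN)
      rw [← hi', hinv c hN] at this
      exact hd c ⟨T', hT', k⟩ this
  exact ⟨fun T' hT' => h1 T' (hs.subset hT'), fr, κ, br, x, h2.sub hs,
    h3.congr (fun c ⟨T', hT', hc⟩ => ⟨T', hs.subset hT', hc⟩) fun c hc _ => e c hc⟩

/-! ### the links -/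

theorem up_ty : ∀ {i i' j j' : Ix}, ty i = ty i' → ty j = ty j' → up i j = up i' j' := by
  intro i i' j j' h h'
  unfold up
  rw [h, h']

theorem lkS_of {fr : ℕ → Prop} {κ : ℕ → ℕ} {br : ℕ → Prop} {Ts : List Tri} {m : ℕ → ℕ}
    (hc : Cmp fr κ br (Names Ts) m) (hi : ∀ c, Names Ts c → m (m c) = c)
    (hra : ∀ T ∈ Ts, Mon fr κ br T → ∀ j, ty j ≠ .b1 → m (nmT T j) ≠ nmT T j)
    {T T' : Tri} (hT : T ∈ Ts)
    (hT' : T' ∈ Ts) {i j k l : Ix} (h : LkM m T i j T' k l) : LkS fr κ br T i j T' k l := by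
  obtain ⟨t1, t2, e, he⟩ := h
  have nj := names_ix hT j
  have nk := names_ix hT' k
  have e' : m (nmT T' k) = nmT T j := by rw [← e]; exact hi _ nj
  have kk : κ (nmT T j) = κ (nmT T' k) := by
    rw [← e]; exact (hc.cls _ nj (by rw [e]; exact nk)).symm
  refine ⟨t1, t2, fun hf => hc.free _ nj hf (by rw [e]; exact nk),
    fun hf => hc.free _ nk hf (by rw [e']; exact nj), kk, ?_⟩
  by_cases h1 : nmT T j = nmT T' k
  · have e2 : m (nmT T j) = nmT T j := by rw [e, ← h1]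
    exact Or.inr ⟨h1, ⟨hc.bra _ nj e2, fun h3 => hra T hT h3.1 j h3.2 e2⟩, he.1 h1⟩
  · left
    refine ⟨h1, ?_⟩
    by_contra h2
    exact h1 (he.2 h2)

theorem lkd_of {fr : ℕ → Prop} {κ : ℕ → ℕ} {br : ℕ → Prop} {Ts : List Tri} {m : ℕ → ℕ}
    (hc : Cmp fr κ br (Names Ts) m) (hi : ∀ c, Names Ts c → m (m c) = c) {T : Tri} (hT : T ∈ Ts)
    (h : ¬Iso Ts m T) : Lkd fr κ Ts T := by
  unfold Iso at h
  push Not at h
  obtain ⟨i, h1, h2⟩ := h
  obtain ⟨T', hT', k⟩ := id h1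
  obtain ⟨j, hj⟩ := nam_ix.1 k
  have ni := names_ix hT i
  have nj := names_ix hT' j
  have e' : m (nmT T' j) = nmT T i := by rw [← hj]; exact hi _ ni
  refine ⟨T', hT', fun e => h2 ?_, i, j, fun hf => hc.free _ ni hf h1,
    fun hf => hc.free _ nj hf (by rw [e']; exact ni), ?_⟩
  · rw [hj, e]; exact nam_ix.2 ⟨j, rfl⟩
  · rw [← hj]; exact (hc.cls _ ni h1).symm

end Pool.Agent.V11206
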