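import Pool.Agent.V11206.CvC
import Pool.Agent.V11206.ChC

/-! The faces of an irreducible system with charges for classes of double arcs. -/

set_option autoImplicit false

namespace Pool.Agent.V11206

open Pool.Agent.Y468.SR
open Pool.Agent.Y874.TP hiding InvM InvC CM CReid CStep SMovie Inv3
open Pool.Agent.Y874.TP2
open Pool.Agent.Y761.TP2 (uniq side part_mem)

set_option linter.unusedSimpArgs false
set_option linter.unusedVariables false

/-- the situation -/
structure EnvS (D : Code) (Ts : List Tri) (m : ℕ → ℕ) (fr : ℕ → Prop) (κ : ℕ → ℕ) (br : ℕ → Prop)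
    (x : ℕ → ℕ → ℕ) : Prop where
  cl : Classical D
  nd : (D.map Prod.snd).Nodup
  wf : WF (passes (D ++ TC Ts))
  mt : Matching (passes (D ++ TC Ts)) m
  nl : NullV (D ++ TC Ts) m
  ch : ChS fr κ br x Ts
  cm : Cmp fr κ br (Names Ts) m
  canc : ∀ C ∈ D, ∀ p q, CAdj C.1 p q → ¬Canc m p q
  rem : ∀ C ∈ D, ∀ p r, CAdj C.1 p r → ∀ T ∈ Ts, ¬Nx T (part m r) (part m p)
  lgt : ∀ T ∈ Ts, Lgt fr κ br Ts T → ¬SmF T m
  ra : ∀ T ∈ Ts, Mon fr κ br T → ∀ j, ty j ≠ .b1 → m (nmT T j) ≠ nmT T j
  ann : ∀ T ∈ Ts, ∀ T' ∈ Ts, nmT T ≠ nmT T' → Mrg fr κ T T' → ∀ p y j k, Nx T p y →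
    Nx T' (part m y) (part m p) → m p.crossing ≠ p.crossing → m y.crossing ≠ y.crossing →
    y.crossing = nmT T j → m y.crossing = nmT T' k → ty j = ty k → False

variable {D : Code} {Ts : List Tri} {m : ℕ → ℕ} {fr : ℕ → Prop} {κ : ℕ → ℕ} {br : ℕ → Prop}
  {x : ℕ → ℕ → ℕ}

theorem EnvS.inv' (h : EnvS D Ts m fr κ br x) : ∀ c, Names Ts c → m (m c) = c := by
  intro c hc
  obtain ⟨q, hq, rfl⟩ := names_pass hc
  exact matching_invol h.mt (by rw [passes_append']; exact List.mem_append_right _ hq)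

theorem EnvS.dj (h : EnvS D Ts m fr κ br x) {q : Pass} (h1 : q ∈ passes D) (h2 : q ∈ passes (TC Ts)) :
    False := sep h.cl.1 h.wf h1 h2 rfl

theorem EnvS.pp (h : EnvS D Ts m fr κ br x) {p : Pass} (hp : p ∈ passes (D ++ TC Ts)) :
    part m (part m p) = p := part_part h.mt hp

theorem EnvS.hinv (h : EnvS D Ts m fr κ br x) : ∀ p ∈ passes (D ++ TC Ts),
    part m p ∈ passes (D ++ TC Ts) ∧ part m (part m p) = p ∧ part m p ≠ p := fun p hp =>
  ⟨part_mem h.wf h.mt hp, h.pp hp, part_ne⟩

theorem EnvS.cnD (h : EnvS D Ts m fr κ br x) {p q : Pass} (hp : p ∈ passes D) (hc : Cn D Ts p q) :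
    q ∈ passes D ∧ ∃ C ∈ D, CAdj C.1 p q := by
  obtain ⟨C, hC, hc⟩ := hc
  obtain ⟨h1, h2⟩ := cadj_mem hc
  rcases List.mem_append.1 hC with hC | hC
  · exact ⟨mem_passes.2 ⟨C, hC, h2⟩, C, hC, hc⟩
  · exact (h.dj hp (mem_passes.2 ⟨C, hC, h1⟩)).elim

theorem EnvS.cnT (h : EnvS D Ts m fr κ br x) {p q : Pass} (hp : p ∈ passes (TC Ts)) (hc : Cn D Ts p q) :
    Cor (TC Ts) p q := by
  obtain ⟨C, hC, hc⟩ := hc
  obtain ⟨h1, h2⟩ := cadj_mem hc
  rcases List.mem_append.1 hC with hC | hC
  · exact (h.dj (mem_passes.2 ⟨C, hC, h1⟩) hp).elim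
  · exact ⟨C, hC, hc⟩

theorem EnvS.nm (h : EnvS D Ts m fr κ br x) {T T' : Tri} (hT : T ∈ Ts) (hT' : T' ∈ Ts) {k : Ix}
    (e : Nam T (nmT T' k)) : T' = T := by
  obtain ⟨i, hi⟩ := nam_ix.1 e
  exact nm_eq h.wf hT' hT hi

/-- the weight of a corner which does not join two legs -/
theorem EnvS.wt1 (h : EnvS D Ts m fr κ br x) {p q : Pass} (hc : Cor (TC Ts) p q)
    (hl : ¬(Leg Ts m p.crossing ∧ Leg Ts m q.crossing)) :
    wq D Ts m x p = 1 + x p.crossing q.crossing := by
  classical
  rw [wq_cor h.cl.1 h.wf hc, if_neg hl]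

theorem EnvS.lk (h : EnvS D Ts m fr κ br x) {T T' : Tri} (hT : T ∈ Ts)
    (hT' : T' ∈ Ts) {i j k l : Ix} (hl : LkM m T i j T' k l) : LkS fr κ br T i j T' k l :=
  lkS_of h.cm h.inv' h.ra hT hT' hl

theorem EnvS.same (h : EnvS D Ts m fr κ br x) {T T' : Tri} (hT : T ∈ Ts) (hT' : T' ∈ Ts)
    (hn : nmT T = nmT T') : T' = T :=
  h.nm hT hT' (k := .a1) (nam_ix.2 ⟨.a1, by rw [hn]⟩)

theorem EnvS.face1 (h : EnvS D Ts m fr κ br x) {p : Pass} (hp : p ∈ passes (TC Ts))
    (h1 : Cn D Ts p (part m p)) : 4 ≤ wq D Ts m x p := by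
  have c1 := h.cnT hp h1
  obtain ⟨T, hT, n1⟩ := cor_TC c1
  have hpp := h.pp (memT (D := D) hp)
  have w := h.wt1 c1 (fun k => nonleg (m := m) (q := part m p) (by rw [hpp]; exact hp) k.2)
  obtain ⟨i, j, e1, e2, t1⟩ := (h.ch.lev T hT).nx n1
  have hl : LkM m T i j T i j := lkM_of (y := part m p) e2 (by rw [hpp]; exact e1) t1 t1
  by_cases hi : Lgt fr κ br Ts T
  · exact absurd (Or.inl ⟨p, n1⟩) (h.lgt T hT hi)
  · have h3 := h.ch.one T hT hi i j (h.lk hT hT hl)
    have x1 : p.crossing = nmT T i := congrArg Pass.crossing e1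
    have x2 : (part m p).crossing = nmT T j := congrArg Pass.crossing e2
    rw [w, x1, x2]; omega

theorem EnvS.face2 (h : EnvS D Ts m fr κ br x) {p y : Pass} (hp : p ∈ passes (TC Ts))
    (hy : part m y ∈ passes (TC Ts))
    (h1 : Cn D Ts p y) (h2 : Cn D Ts (part m y) (part m p)) :
    4 ≤ wq D Ts m x p + wq D Ts m x (part m y) := by
  have c1 := h.cnT hp h1
  have c2 := h.cnT hy h2
  obtain ⟨T, hT, n1⟩ := cor_TC c1
  obtain ⟨T', hT', n2⟩ := cor_TC c2
  have hpp := h.pp (memT (D := D) hp)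
  have w1 := h.wt1 c1 (fun k => nonleg (m := m) (q := y) hy k.2)
  have w2 := h.wt1 c2 (fun k => nonleg (m := m) (q := part m p) (by rw [hpp]; exact hp) k.2)
  obtain ⟨i, j, e1, e2, t1⟩ := (h.ch.lev T hT).nx n1
  obtain ⟨k, l, e3, e4, t2⟩ := (h.ch.lev T' hT').nx n2
  have l1 : LkM m T i j T' k l := lkM_of e2 e3 t1 t2
  have l2 : LkM m T' k l T i j := lkM_of (y := part m p) e4 (by rw [hpp]; exact e1) t2 t1
  have h3 := h.ch.two T hT T' hT' i j k l (h.lk hT hT' l1) (h.lk hT' hT l2)
  have x1 : p.crossing = nmT T i := congrArg Pass.crossing e1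
  have x2 : y.crossing = nmT T j := congrArg Pass.crossing e2
  have x3 : (part m y).crossing = nmT T' k := congrArg Pass.crossing e3
  have x4 : (part m p).crossing = nmT T' l := congrArg Pass.crossing e4
  rcases h3 with ⟨t3, t4, h3⟩ | ⟨h3, h4⟩ | h3
  · exfalso
    have y3 : m y.crossing = nmT T' k := by rw [← x3, part_cross]
    have y4 : m p.crossing = nmT T' l := by rw [← x4, part_cross]
    have ny : m y.crossing ≠ y.crossing := by
      intro e
      have e' : nmT T j = nmT T' k := by rw [← x2, ← y3, e]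
      exact l1.2.2.2.1 e' (up_ty t3 t4)
    have np : m p.crossing ≠ p.crossing := by
      intro e
      have e' : nmT T' l = nmT T i := by rw [← x1, ← y4, e]
      exact l2.2.2.2.1 e' (up_ty t4.symm t3.symm)
    by_cases hn : nmT T = nmT T'
    · have := h.same hT hT' hn
      subst this
      exact plain_ne (h.ch.lev _ hT) (six_of h.wf hT) n1 n2 np ny x2 y3 t3
    · rcases h3 with h3 | h3
      · exact hn h3
      · exact h.ann T hT T' hT' hn h3 p y j k n1 n2 np ny x2 y3 t3
  · exfalso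
    have := h.same hT hT' h3
    subst this
    exact h.lgt T' hT h4 (Or.inr (Or.inl ⟨p, y, n1, n2⟩))
  · rw [w1, w2, x1, x2, x3, x4]; omega

theorem EnvS.face3 (h : EnvS D Ts m fr κ br x) {p y z : Pass} (hp : p ∈ passes (TC Ts))
    (hy : part m y ∈ passes (TC Ts)) (hz : part m z ∈ passes (TC Ts))
    (h1 : Cn D Ts p y) (h2 : Cn D Ts (part m y) z) (h3 : Cn D Ts (part m z) (part m p)) :
    4 ≤ wq D Ts m x p + wq D Ts m x (part m y) + wq D Ts m x (part m z) := by
  have c1 := h.cnT hp h1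
  have c2 := h.cnT hy h2
  have c3 := h.cnT hz h3
  obtain ⟨T, hT, n1⟩ := cor_TC c1
  obtain ⟨T', hT', n2⟩ := cor_TC c2
  obtain ⟨T'', hT'', n3⟩ := cor_TC c3
  have hpp := h.pp (memT (D := D) hp)
  have w1 := h.wt1 c1 (fun k => nonleg (m := m) (q := y) hy k.2)
  have w2 := h.wt1 c2 (fun k => nonleg (m := m) (q := z) hz k.2)
  have w3 := h.wt1 c3 (fun k => nonleg (m := m) (q := part m p) (by rw [hpp]; exact hp) k.2)
  obtain ⟨i, j, e1, e2, t1⟩ := (h.ch.lev T hT).nx n1
  obtain ⟨k, l, e3, e4, t2⟩ := (h.ch.lev T' hT').nx n2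
  obtain ⟨n, r, e5, e6, t3⟩ := (h.ch.lev T'' hT'').nx n3
  have l1 : LkM m T i j T' k l := lkM_of e2 e3 t1 t2
  have l2 : LkM m T' k l T'' n r := lkM_of e4 e5 t2 t3
  have l3 : LkM m T'' n r T i j := lkM_of (y := part m p) e6 (by rw [hpp]; exact e1) t3 t1
  have h3 := h.ch.three T hT T' hT' T'' hT'' i j k l n r (h.lk hT hT' l1) (h.lk hT' hT'' l2)
    (h.lk hT'' hT l3)
  have x1 : p.crossing = nmT T i := congrArg Pass.crossing e1
  have x2 : y.crossing = nmT T j := congrArg Pass.crossing e2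
  have x3 : (part m y).crossing = nmT T' k := congrArg Pass.crossing e3
  have x4 : z.crossing = nmT T' l := congrArg Pass.crossing e4
  have x5 : (part m z).crossing = nmT T'' n := congrArg Pass.crossing e5
  have x6 : (part m p).crossing = nmT T'' r := congrArg Pass.crossing e6
  rcases h3 with ⟨h3, h4, h5⟩ | h3
  · exfalso
    have q1 := h.same hT hT' h3
    subst q1
    have q2 := h.same hT hT'' h4
    subst q2
    exact h.lgt _ hT h5 (Or.inr (Or.inr ⟨p, y, z, n1, n2, n3⟩))
  · rw [w1, w2, w3, x1, x2, x3, x4, x5, x6]; omega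

theorem EnvS.succ (h : EnvS D Ts m fr κ br x) {p : Pass} {l : List Pass}
    (hL : LP (part m) (Cn D Ts) (p :: l) (part m p)) {y : Pass} (hy : y ∈ p :: l) :
    ∃ q, Cn D Ts y q ∧ part m q ∈ p :: l := by
  obtain ⟨q, h1, h2⟩ := hL.next hy
  refine ⟨q, h1, ?_⟩
  rcases h2 with h2 | h2
  · exact h2
  · rw [h2, h.pp ((lp_mem hL).1 p (by simp))]; simp

/-- a face without corners of the boundary -/
theorem EnvS.faceT (h : EnvS D Ts m fr κ br x) {p : Pass} {l : List Pass}
    (hL : LP (part m) (Cn D Ts) (p :: l) (part m p)) (hT : ∀ y ∈ p :: l, y ∈ passes (TC Ts)) :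
    4 ≤ ((p :: l).map (wq D Ts m x)).sum := by
  have hw : ∀ y ∈ p :: l, 1 ≤ wq D Ts m x y := by
    intro y hy
    obtain ⟨q, h1, h2⟩ := h.succ hL hy
    have hq := nonleg (m := m) (hT _ h2)
    rw [h.wt1 (h.cnT (hT y hy) h1) fun k => hq k.2]
    omega
  have hlen := sum_len (p :: l) hw
  rcases l with _ | ⟨p2, _ | ⟨p3, _ | ⟨p4, l⟩⟩⟩
  · cases hL with
    | one hc =>
      have := h.face1 (hT p (by simp)) hc
      simpa using this
  · cases hL with
    | cons hc h' =>
      cases h' with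
      | one hc2 =>
        have := h.face2 (hT p (by simp)) (hT _ (by simp)) hc hc2
        simpa using this
  · cases hL with
    | cons hc h' =>
      cases h' with
      | cons hc2 h'' =>
        cases h'' with
        | one hc3 =>
          have := h.face3 (hT p (by simp)) (hT _ (by simp)) (hT _ (by simp)) hc hc2 hc3
          simpa [add_assoc] using this
  · simp only [List.length_cons] at hlen
    omega

/-- a face with one corner of the boundary -/
theorem EnvS.faceD (h : EnvS D Ts m fr κ br x) {a : Pass} {w : List Pass}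
    (hx : a ∈ passes D) (hw : ∀ y ∈ w, y ∈ passes (TC Ts))
    (hL : LP (part m) (Cn D Ts) (a :: w) (part m a)) :
    4 ≤ ((a :: w).map (wq D Ts m x)).sum := by
  rcases w with _ | ⟨p1, _ | ⟨p2, rest⟩⟩
  · exfalso
    cases hL with
    | one hc =>
      obtain ⟨-, C, hC, hc⟩ := h.cnD hx hc
      exact h.canc C hC _ _ hc canc_part
  · exfalso
    cases hL with
    | @cons _ q0 _ _ hc h' =>
      obtain ⟨hq, C, hC, hc⟩ := h.cnD hx hc
      have hp1 := hw (part m q0) (by simp)
      cases h' with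
      | one hc2 =>
        obtain ⟨T, hT, hN⟩ := cor_TC (h.cnT hp1 hc2)
        exact h.rem C hC a q0 hc T hT hN
  · -- the last corner
    have hlast : ∀ (l : List Pass) (s y : Pass), LP (part m) (Cn D Ts) (y :: l) s →
        (∀ z ∈ y :: l, z ∈ passes (TC Ts)) → l ≠ [] → ∃ z ∈ l, 1 ≤ wq D Ts m x z := by
      intro l
      induction l with
      | nil => intro s y _ _ hne; exact absurd rfl hne
      | cons b l ih =>
        intro s y hL hm _
        cases hL with
        | @cons _ q _ _ hc h' =>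
          have hb : part m q ∈ passes (TC Ts) := hm _ (by simp)
          cases h' with
          | @one _ q' hc' =>
            refine ⟨part m q, by simp, ?_⟩
            have hqT := (cor_mem (h.cnT (hm y (by simp)) hc)).2
            rw [h.wt1 (h.cnT hb hc') fun k => nonleg (m := m) (q := part m q) (by
              rw [h.pp (memT hqT)]; exact hqT) k.1]
            omega
          | @cons _ q' _ l' hc' h'' =>
            obtain ⟨z, hz, hz1⟩ := ih s (part m q) (LP.cons hc' h'')
              (fun z hz => hm z (List.mem_cons_of_mem _ hz)) (by simp)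
            exact ⟨z, List.mem_cons_of_mem _ hz, hz1⟩
    cases hL with
    | @cons _ q0 _ _ hc h' =>
      obtain ⟨hq, -⟩ := h.cnD hx hc
      have hp1 := hw (part m q0) (by simp)
      obtain ⟨z, hz, hz1⟩ := hlast _ _ _ h' hw (by simp)
      cases h' with
      | @cons _ q1 _ _ hc2 h'' =>
        have hp2 := hw (part m q1) (by simp)
        have w1 : 1 ≤ wq D Ts m x (part m q0) := by
          rw [h.wt1 (h.cnT hp1 hc2) fun k => nonleg (m := m) hp2 k.2]
          omega
        have w0 : wq D Ts m x a = 2 := wq_D hx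
        have w2 : 1 ≤ ((part m q1 :: rest).map (wq D Ts m x)).sum :=
          le_trans hz1 (List.le_sum_of_mem (List.mem_map_of_mem hz))
        rw [List.map_cons, List.map_cons, List.sum_cons, List.sum_cons, w0]
        omega

theorem EnvS.four (h : EnvS D Ts m fr κ br x) (p : Pass) (w : ℕ)
    (hp : PT (part m) (Cn D Ts) (wq D Ts m x) w p (part m p)) : 4 ≤ w := by
  obtain ⟨l, hL, rfl⟩ := hp.lp
  have hmem := (lp_mem hL).1
  by_cases hD : ∃ a ∈ p :: l, a ∈ passes D
  · obtain ⟨a, ha, haD⟩ := hD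
    obtain ⟨u, v, e⟩ := List.append_of_mem ha
    by_cases h2 : ∃ y ∈ u ++ v, y ∈ passes D
    · obtain ⟨y, hy, hyD⟩ := h2
      have := sum_two (f := wq D Ts m x) (x := a) hy
      rw [e]
      rw [wq_D haD, wq_D hyD] at this
      exact this
    · have huv : ∀ y ∈ v ++ u, y ∈ passes (TC Ts) := by
        intro y hy
        have hy' : y ∈ u ++ v := by simp only [List.mem_append] at hy ⊢; tauto
        have h3 := hmem y (by rw [e]; simp only [List.mem_append, List.mem_cons] at hy' ⊢; tauto)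
        rw [passes_append'] at h3
        rcases List.mem_append.1 h3 with h3 | h3
        · exact absurd ⟨y, hy', h3⟩ h2
        · exact h3
      have hsum : ((p :: l).map (wq D Ts m x)).sum =
          ((a :: (v ++ u)).map (wq D Ts m x)).sum := by
        rw [e]
        simp only [List.map_append, List.map_cons, List.sum_append, List.sum_cons]; omega
      rw [hsum]
      refine h.faceD haD huv ?_
      rcases u with _ | ⟨b, u⟩
      · simp only [List.nil_append, List.cons.injEq] at e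
        obtain ⟨rfl, rfl⟩ := e
        rw [List.append_nil]
        exact hL
      · rw [e] at hL
        obtain ⟨y, g1, g2, g3⟩ := hL.split (by simp)
        have hpa : p = b := by simp only [List.cons_append, List.cons.injEq] at e; exact e.1
        subst hpa
        have hp' := h.pp (hmem p (by simp))
        have g4 : LP (part m) (Cn D Ts) (part m (part m p) :: u) y := by rw [hp']; exact g1
        have g5 := g3.app g4
        rw [hp'] at g5
        have hy : part m a = y := by
          rw [← g2]; exact h.pp (lp_mem g1).2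
        rw [hy]
        exact g5
  · refine h.faceT hL fun y hy => ?_
    have h3 := hmem y hy
    rw [passes_append'] at h3
    rcases List.mem_append.1 h3 with h3 | h3
    · exact absurd ⟨y, hy, h3⟩ hD
    · exact h3

/-! ### the sums -/

theorem EnvS.sysA (h : EnvS D Ts m fr κ br x) (ω : Pass → ℕ) :
    Sys (part m) (Cn D Ts) ω (passes (D ++ TC Ts)) (BW D) ((TC Ts).map Prod.fst) :=
  sys_of ω h.nd h.wf h.mt h.nl fun C hC => four_TC hC

theorem EnvS.bw (h : EnvS D Ts m fr κ br x) : ∀ b ∈ BW D, b ≠ [] ∧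
    PC (part m) (Cn D Ts) (wq D Ts m x) (2 * b.length) b := by
  intro b hb
  obtain ⟨h1, C, hC, rfl⟩ := mem_BW hb
  refine ⟨h1, ?_⟩
  have h2 : C.1.length ≠ 1 := even_words h.nd h.wf h.mt h.nl
    (fun C hC => four_TC hC) hC
  have h3 : 2 ≤ C.1.length := by
    have : C.1.length ≠ 0 := fun e => h1 (List.eq_nil_of_length_eq_zero e)
    omega
  have h4 := pc_word (μ := part m) (Co := Cn D Ts) (ω := wq D Ts m x) h3
    fun p q hpq => ⟨C, List.mem_append_left _ hC, hpq⟩
  have h5 : (C.1.map (wq D Ts m x)).sum = 2 * C.1.length := by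
    rw [List.map_congr_left (g := fun _ => 2) fun p hp => wq_D (mem_passes.2 ⟨C, hC, hp⟩)]
    simp; omega
  rwa [h5] at h4

theorem EnvS.sumT (h : EnvS D Ts m fr κ br x) {T : Tri} (hT : T ∈ Ts) :
    ((passes T.code).map (wq D Ts m x)).sum ≤ 12 + (cs x T - fc Ts m T) := by
  classical
  have hW := sum_code (h.ch.lev T hT) (f := wq D Ts m x) (W := fun i j =>
    (if Leg Ts m (nmT T i) ∧ Leg Ts m (nmT T j) then 0 else 1) + x (nmT T i) (nmT T j))
    (fun i j => by
      simp only [h.ch.symm (nmT T i), and_comm (a := Leg Ts m (nmT T i))])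
    (fun i l => by
      have hc : Cor (TC Ts) (ps T i l) (ps T (nT T i l).1 (nT T i l).2) := by
        obtain ⟨W, hW, hc⟩ := nxt_nx T i l
        simp only [List.mem_cons, List.not_mem_nil, or_false] at hW
        rcases hW with rfl | rfl | rfl
        · exact ⟨(T.wi, T.li), List.mem_flatMap.2 ⟨T, hT, by simp [Tri.code]⟩, hc⟩
        · exact ⟨(T.wj, T.lj), List.mem_flatMap.2 ⟨T, hT, by simp [Tri.code]⟩, hc⟩
        · exact ⟨(T.wk, T.lk), List.mem_flatMap.2 ⟨T, hT, by simp [Tri.code]⟩, hc⟩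
      rw [wq_cor h.cl.1 h.wf hc]
      rfl)
  rw [hW]
  have h1 := sum_ind crn (fun c => Leg Ts m (nmT T c.1) ∧ Leg Ts m (nmT T c.2))
    (fun c => x (nmT T c.1) (nmT T c.2))
  have h2 : crn.length = 12 := rfl
  have h3 : (crn.map fun c => x (nmT T c.1) (nmT T c.2)).sum = cs x T := rfl
  have h4 : (crn.map fun c => if Leg Ts m (nmT T c.1) ∧ Leg Ts m (nmT T c.2) then 1 else 0).sum =
      fc Ts m T := by
    unfold fc
    refine congrArg List.sum (List.map_congr_left fun c _ => ?_)
    exact if_congr Iff.rfl rfl rfl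
  rw [h2, h3, h4] at h1
  omega

theorem EnvS.total (h : EnvS D Ts m fr κ br x) :
    (((TC Ts).map Prod.fst).flatten.map (wq D Ts m x)).sum ≤ 12 * Ts.length + 3 := by
  rw [flatten_fst]
  refine le_trans ?_ (Nat.add_le_add_left h.ch.sum (12 * Ts.length))
  have hf : ∀ T ∈ Ts, fcS fr T ≤ fc Ts m T := by
    classical
    intro T hT
    unfold fcS fc
    refine List.sum_le_sum fun c _ => ?_
    by_cases h1 : fr (nmT T c.1) ∧ fr (nmT T c.2)
    · rw [if_pos h1, if_pos ⟨h.cm.free _ (names_ix hT _) h1.1, h.cm.free _ (names_ix hT _) h1.2⟩]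
    · rw [if_neg h1]; exact Nat.zero_le _
  have key : ∀ l : List Tri, (∀ T ∈ l, T ∈ Ts) → ((passes (TC l)).map (wq D Ts m x)).sum ≤
      12 * l.length + (l.map fun T => cs x T - fcS fr T).sum := by
    intro l
    induction l with
    | nil => intro _; simp [TC]
    | cons T l ih =>
      intro hl
      rw [tc_cons, passes_append', List.map_append, List.sum_append, List.map_cons, List.sum_cons,
        List.length_cons]
      have h1 := h.sumT (hl T (by simp))
      have h3 := hf T (hl T (by simp))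
      have h2 := ih fun T' hT' => hl T' (by simp [hT'])
      omega
  exact key Ts fun _ h => h

/-- there are no irreducible systems with charges -/
theorem EnvS.false (h : EnvS D Ts m fr κ br x) (hne : passes D ≠ []) : False := by
  have h1 := (euler_D h.hinv (fun p w => h.four p w) (h.sysA (wq D Ts m x)) h.bw).1
  have h2 := h.total
  rw [len_map] at h1
  have h3 : (BW D).length ≠ 0 := fun e => bw_ne hne (List.eq_nil_of_length_eq_zero e)
  omega

end Pool.Agent.V11206
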