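import Pool.Agent.V11206.ChDefs

/-!
# Charges for classes of double arcs

The colours of the double arcs are divided into classes: `κ c` is the class of the colour `c`. The
ends of the double arcs at the `p`-th triple point of the list `R` have the numbers `0, …, 5`, the
ends with the numbers `s` and `s + 3` belonging to the double curve number `s` (see `ChDefs.lean`).
-/

set_option autoImplicit false

namespace Pool.Agent.V11206

/-- Two ends (or one end taken twice) which are not free and have colours of the same class. -/
def Joinable (R : List Trp) (κ : ℕ → ℕ) (p j q k : ℕ) : Prop :=
  ¬Free R p j ∧ ¬Free R q k ∧ ∃ c d, EndCol R p j c ∧ EndCol R q k d ∧ κ c = κ d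

/-- the class of the colour of the end number `j` at the `p`-th triple point contains even colours
(branch points are allowed at even colours only) -/
def Branched (R : List Trp) (κ : ℕ → ℕ) (p j : ℕ) : Prop :=
  ∃ c d, EndCol R p j c ∧ d % 2 = 0 ∧ κ d = κ c

/-- the ends at the `p`-th triple point which are not free have colours of the same class, which
contains even colours -/
def Mono (R : List Trp) (κ : ℕ → ℕ) (p : ℕ) : Prop :=
  (∀ i j c d, EndCol R p i c → EndCol R p j d → Free R p i ∨ Free R p j ∨ κ c = κ d) ∧
    ∀ i c, EndCol R p i c → Free R p i ∨ Branched R κ p i

/-- no end at the `p`-th triple point is joinable with an end at another triple point, or these ends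
are in one class; in both cases the triple point can be eliminated if it lies on a small region all
corners of which are there -/
def Light (R : List Trp) (κ : ℕ → ℕ) (p : ℕ) : Prop :=
  (¬∃ i q j, q ≠ p ∧ Joinable R κ p i q j) ∨ Mono R κ p

/-- The corner `(i, j)` of the `p`-th triple point may be followed by the corner `(k, l)` of the
`q`-th one: the ends `j` and `k` are joinable, and either they are different and belong to the same
lift of a double arc (so that `Upper` is the same for both), or they are the same end, the lifts in
the two sheets are different, and branch points are allowed there (but if all ends at the triple point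
are in one class, then only those of the double curve of the top and bottom sheets matter, since a
branch point next to the triple point on another double curve eliminates it). -/
def MayFollow (R : List Trp) (κ : ℕ → ℕ) (p i j q k l : ℕ) : Prop :=
  i % 3 ≠ j % 3 ∧ k % 3 ≠ l % 3 ∧ Joinable R κ p j q k ∧
    (¬(p = q ∧ j = k) ∧ (Upper (j % 3) (i % 3) ↔ Upper (k % 3) (l % 3)) ∨
      (p = q ∧ j = k) ∧ (Branched R κ p j ∧ ¬(Mono R κ p ∧ j % 3 ≠ 1)) ∧
        ¬(Upper (j % 3) (i % 3) ↔ Upper (k % 3) (l % 3)))

/-- At two triple points, ends of double curves with the same number have the same class of colours,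
unless one of them is free. Then these triple points annihilate along a bigon whose sides start
and end on double curves with the same numbers; this joins ends of double curves with the same
numbers. -/
def Fit (R : List Trp) (κ : ℕ → ℕ) (p q : ℕ) : Prop := ∀ i j c d, i % 3 = j % 3 →
  EndCol R p i c → EndCol R q j d → Free R p i ∨ Free R q j ∨ κ c = κ d

/-- The natural number `x p i j` is the charge of the corner `(i, j)` of the `p`-th triple point.
Each closed chain of `n ≤ 3` corners, in which each corner may be followed by the next one, has
charge at least `4 - n`. There are two exceptions: chains of corners at one triple point which is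
`Light`, and chains of two corners whose ends belong to double curves with the same numbers, if the
two triple points fit. The sum, over the triple points, of the excess of the charge of their corners
over the number of their free corners (if it is positive) is at most three. -/
structure Charges (R : List Trp) (κ : ℕ → ℕ) (x : ℕ → ℕ → ℕ → ℕ) : Prop where
  symm : ∀ p i j, x p i j = x p j i
  one : ∀ p i j, MayFollow R κ p i j p i j → Light R κ p ∨ 3 ≤ x p i j
  two : ∀ p i j q k l, MayFollow R κ p i j q k l → MayFollow R κ q k l p i j →
    (j % 3 = k % 3 ∧ i % 3 = l % 3 ∧ (p = q ∨ Fit R κ p q)) ∨ (p = q ∧ Light R κ p) ∨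
      2 ≤ x p i j + x q k l
  three : ∀ p i j q k l r m n, MayFollow R κ p i j q k l → MayFollow R κ q k l r m n →
    MayFollow R κ r m n p i j → (p = q ∧ q = r ∧ Light R κ p) ∨ 1 ≤ x p i j + x q k l + x r m n
  sum : ∑ p ∈ Finset.range R.length,
    ((corners.map fun c => x p c.1 c.2).sum - freeCorners R p) ≤ 3

open Classical in
/-- the number of the corners of the `p`-th triple point in the top and bottom sheets no end of which
is free -/
noncomputable def outerCorners (R : List Trp) (p : ℕ) : ℕ :=
  (corners.filter fun c => decide ((c.1 % 3 = 1 ∨ c.2 % 3 = 1) ∧ ¬Free R p c.1 ∧
    ¬Free R p c.2)).length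

/-- The sum, over the triple points, of the excess of `outerCorners` over `freeCorners` (if it is
positive) is at most three. -/
def Loose (R : List Trp) : Prop :=
  ∑ p ∈ Finset.range R.length, (outerCorners R p - freeCorners R p) ≤ 3

end Pool.Agent.V11206
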