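import Pool.Agent.V11206.CvD
import Pool.Agent.V11206.ChD

/-! The reduction of systems with charges for classes of double arcs. -/

set_option autoImplicit false

namespace Pool.Agent.V11206

open Pool.Agent.Y468.SR
open Pool.Agent.Y874.TP hiding InvM InvC CM CReid CStep SMovie Inv3
open Pool.Agent.Y874.TP2
open Pool.Agent.Y761.TP2 (uniq side part_mem)

set_option linter.unusedSimpArgs false
set_option linter.unusedVariables false

theorem reduceS {D : Code} {Ts : List Tri} (hD : Classical D)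
    (hn : (D.map Prod.snd).Nodup) (h3 : InvP QX D Ts) (h : passes D ≠ []) : RedP QX D Ts := by
  by_contra hr
  obtain ⟨m, hm, hP⟩ := h3.inv
  obtain ⟨h1, fr, κ, br, x, h2, h4⟩ := id hP
  have hinv : ∀ c, Names Ts c → m (m c) = c := by
    intro c hc
    obtain ⟨q, hq, rfl⟩ := names_pass hc
    exact matching_invol hm.1 (by rw [passes_append']; exact List.mem_append_right _ hq)
  have red : ∀ T ∈ Ts, (Iso Ts m T ∨ Mon fr κ br T) → (∀ O, Sit D O T m → Res D O T m) →
      False := by
    intro T hT hcase hres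
    obtain ⟨l₁, l₂, rfl⟩ := List.append_of_mem hT
    have hperm : (D ++ TC (l₁ ++ T :: l₂)).Perm (D ++ (T.code ++ TC (l₁ ++ l₂))) :=
      (tc_mid l₁ T l₂).append_left D
    have hS : Sit D (TC (l₁ ++ l₂)) T m :=
      ⟨WF.perm (passes_perm hperm) h3.wf, Pool.Agent.Y874.TP2.invM_perm hperm hm, (h3.ok T hT).1,
        h1 T hT⟩
    have hs : (l₁ ++ l₂).Sublist (l₁ ++ T :: l₂) :=
      List.Sublist.append (List.Sublist.refl _) (List.sublist_cons_self _ _)
    have up' : ∀ c, Names (l₁ ++ l₂) c → Names (l₁ ++ T :: l₂) c :=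
      fun c ⟨T', hT', hc⟩ => ⟨T', hs.subset hT', hc⟩
    obtain ⟨g1, m', g2, g3⟩ := hres _ hS
    have htr : ∀ c, Names (l₁ ++ l₂) c → m' c = m c ∨
        (Nam T (m c) ∧ (m' c = c ∨ ∃ y, Nam T y ∧ m' c = m y)) := by
      intro c hc
      obtain ⟨q, hq, rfl⟩ := names_pass hc
      exact g3 _ ⟨q, by rw [passes_append']; exact List.mem_append_right _ hq, rfl⟩
    have hC : Cmp fr κ br (Names (l₁ ++ l₂)) m' := by
      rcases hcase with hi | hM
      · refine h4.congr up' fun c hc _ => ?_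
        rcases htr c hc with h5 | ⟨h5, -⟩
        · exact h5
        · exfalso
          have hN := up' c hc
          obtain ⟨i, hi'⟩ := nam_ix.1 h5
          have h6 := hi i (by rw [← hi', hinv c hN]; exact hN)
          rw [← hi', hinv c hN] at h6
          obtain ⟨T', hT', hc'⟩ := hc
          obtain ⟨i, rfl⟩ := nam_ix.1 hc'
          obtain ⟨j, hj⟩ := nam_ix.1 h6
          have e := nm_eq h3.wf (hs.subset hT') hT hj
          subst e
          have hnd := WF.nodup h3.wf
          have hp := passes_perm hperm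
          have hnd2 := hp.nodup_iff.1 hnd
          rw [passes_append', passes_append'] at hnd2
          exact (List.nodup_append.1 (List.nodup_append.1 hnd2).2.1).2.2 _ (ps_mem T' i true) _
            (mem_TC.2 ⟨T', hT', ps_mem T' i true⟩) rfl
      · exact h4.mono hM hinv up' (fun c hc => ⟨T, hT, hc⟩) htr
    exact hr ⟨D, l₁ ++ l₂, Or.inl (by simp), hD, hn, ⟨g1, fun T' hT' => h3.ok T' (hs.subset hT'), m',
      g2, fun T₃ h5 => h1 T₃ (hs.subset h5), fr, κ, br, x, h2.sub hs, hC⟩,
      Relation.ReflTransGen.refl⟩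
  refine EnvS.false (D := D) (Ts := Ts) (m := m) (x := x)
    ⟨hD, hn, h3.wf, hm.1, hm.2.2, h2, h4, ?_, ?_, ?_, ?_, ?_⟩ h
  · intro C hC p q hc hcc
    exact hr (canc_cyc qx_cls hD hn h3.wf h3.ok hm hP hC hc hcc)
  · intro C hC p r hc T hT hN
    exact hr (remT_cyc qx_cls hD hn h3.wf h3.ok hm hP hC hc hT hN)
  · intro T hT hl hface
    refine red T hT ?_ fun O hS => single_red hS hface
    rcases hl with hl | hl
    · left
      by_contra hi
      exact hl (lkd_of h4 hinv hT hi)
    · exact Or.inr hl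
  · intro T hT hM j hj e
    refine red T hT (Or.inr hM) fun O hS => ra_ix hS e ?_
    have hv := h2.lev T hT
    rw [hv.ta, hv.tb, hv.tc]
    revert hj
    cases j <;> simp [raOK, ty]
  · intro T hT T' hT' hne hM p y j k n1 n2 np ny ej ek t
    obtain ⟨l₁, l₂, rfl⟩ := List.append_of_mem hT
    have hT'' : T' ∈ l₁ ++ l₂ := by
      simp only [List.mem_append, List.mem_cons] at hT' ⊢
      rcases hT' with h | h | h
      · exact Or.inl h
      · exact absurd (by rw [h]) hne
      · exact Or.inr h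
    obtain ⟨k₁, k₂, ek'⟩ := List.append_of_mem hT''
    have hperm : (D ++ TC (l₁ ++ T :: l₂)).Perm (D ++ (T.code ++ (T'.code ++ TC (k₁ ++ k₂)))) := by
      refine ((tc_mid l₁ T l₂).append_left D).trans ?_
      rw [ek']
      exact ((tc_mid k₁ T' k₂).append_left T.code).append_left D
    have hs : (k₁ ++ k₂).Sublist (l₁ ++ T :: l₂) := by
      refine List.Sublist.trans (l₂ := l₁ ++ l₂) ?_
        (List.Sublist.append (List.Sublist.refl _) (List.sublist_cons_self _ _))
      rw [ek']
      exact List.Sublist.append (List.Sublist.refl _) (List.sublist_cons_self _ _)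
    obtain ⟨g1, m', g2, g3⟩ := bigonX (S := Names (k₁ ++ k₂)) (D := D) (O := TC (k₁ ++ k₂))
      (fun c hc => by
        obtain ⟨q, hq, e⟩ := names_pass hc
        exact ⟨q, by rw [passes_append']; exact List.mem_append_right _ hq, e⟩)
      (h2.lev T hT) (h2.lev T' hT') (h3.ok T hT).1 (h3.ok T' hT').1 (six_of h3.wf hT)
      (six_of h3.wf hT') (h1 T hT) (h1 T' hT') (WF.perm (passes_perm hperm) h3.wf)
      (Pool.Agent.Y874.TP2.invM_perm hperm hm)
      (h4.congr (fun c hc => by
        rcases hc with ⟨T₃, h5, h6⟩ | hc | hc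
        · exact ⟨T₃, hs.subset h5, h6⟩
        · exact ⟨T, hT, hc⟩
        · exact ⟨T', hT', hc⟩) fun c _ _ => rfl)
      hM n1 n2 np ny ej ek t
    refine hr ⟨D, k₁ ++ k₂, Or.inl ?_, hD, hn, ⟨g1, fun T₃ h5 => h3.ok T₃ (hs.subset h5), m', g2,
      fun T₃ h5 => h1 T₃ (hs.subset h5), fr, κ, br, x, h2.sub hs, g3⟩, Relation.ReflTransGen.refl⟩
    have := congrArg List.length ek'
    simp only [List.length_append, List.length_cons] at this ⊢
    omega

theorem movie_of_s (n : ℕ) : ∀ (l : ℕ) (D : Code)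
    (Ts : List Tri), Ts.length = n → (passes D).length = l → Classical D →
    (D.map Prod.snd).Nodup → InvP QX D Ts → Movie true false D [] := by
  induction n using Nat.strong_induction_on with
  | _ n ihn =>
    intro l
    induction l using Nat.strong_induction_on with
    | _ l ihl =>
      intro D Ts h1 h2 hD hn h3
      by_cases h : passes D = []
      · exact movie_mono (deaths hn h)
      · obtain ⟨D', Ts', r1, r2, r3, r4, r5⟩ := reduceS hD hn h3 h
        refine r5.trans ?_
        rcases r1 with r1 | ⟨r1, r1'⟩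
        · exact ihn Ts'.length (by omega) _ D' Ts' rfl rfl r2 r3 r4
        · exact ihl (passes D').length (by omega) D' Ts' (by omega) rfl r2 r3 r4

theorem movie_zeroS {D : Code} {Ts : List Tri}
    {m : ℕ → ℕ} (hD : Classical D) (hn : (D.map Prod.snd).Nodup)
    (hw : WF (passes (D ++ TC Ts))) (hok : ∀ T ∈ Ts, T.Ok) (hM : Matching (passes (D ++ TC Ts)) m)
    (hN : NullV (D ++ TC Ts) m) (hP : QX (Ts.map (Tri.rename zf)) (fun c => zf (m (zg c)))) :
    Movie true false D [] := by
  have e : renamed zf (D ++ TC Ts) = renamed zf D ++ TC (Ts.map (Tri.rename zf)) := by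
    rw [renamed_append, TC_rename]
  have hw' : WF (passes (renamed zf D ++ TC (Ts.map (Tri.rename zf)))) := by
    rw [← e, passes_renamed]
    exact hw.ren (fun p _ q _ he => zf_inj he)
  have hI : InvM (renamed zf D ++ TC (Ts.map (Tri.rename zf))) (fun c => zf (m (zg c))) := by
    rw [← e]
    exact invM_zf hM hN
  have hn' : ((renamed zf D).map Prod.snd).Nodup := by
    have : (renamed zf D).map Prod.snd = D.map Prod.snd := by
      rw [renamed_def, List.map_map]; rfl
    rw [this]; exact hn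
  refine Movie.head hD (classical_zf hD) (Step.rename zf D fun p _ q _ he => zf_inj he)
    (movie_of_s _ _ _ _ rfl rfl (classical_zf hD) hn' ⟨hw', ?_, _, hI, hP⟩)
  intro T' hT'
  obtain ⟨T, hT, rfl⟩ := List.mem_map.1 hT'
  refine ⟨hok T hT, ?_⟩
  unfold Tri.Col Tri.rename
  simp only [colour_zf, and_self]

/-! ### new names -/

theorem nmT_zf_eq {T T' : Tri} : nmT (T.rename zf) = nmT (T'.rename zf) ↔ nmT T = nmT T' := by
  constructor
  · intro h
    funext i
    have := congrFun h i
    rw [nmT_zf', nmT_zf'] at this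
    exact zf_inj this
  · intro h
    funext i
    rw [nmT_zf', nmT_zf', h]

theorem chS_zf {Ts : List Tri} {m : ℕ → ℕ} {fr : ℕ → Prop} {κ : ℕ → ℕ} {br : ℕ → Prop}
    {x : ℕ → ℕ → ℕ} (h : ChS fr κ br x Ts) (hc : Cmp fr κ br (Names Ts) m) :
    QX (Ts.map (Tri.rename zf)) (fun c => zf (m (zg c))) := by
  have hz : ∀ {a b : ℕ}, zf a = zf b ↔ a = b := ⟨zf_inj, fun h => by rw [h]⟩
  refine ⟨?_, fun c => fr (zg c), fun c => κ (zg c), br, fun c c' => x (zg c) (zg c'), ?_, ?_⟩
  · intro T' hT' c hc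
    obtain ⟨T, hT, rfl⟩ := List.mem_map.1 hT'
    obtain ⟨c₀, -, rfl⟩ := nam_zf.1 hc
    exact colour_zf c₀
  · have mo : ∀ T, Mon (fun c => fr (zg c)) (fun c => κ (zg c)) br (T.rename zf) ↔
        Mon fr κ br T := by
      intro T
      unfold Mon
      simp only [nmT_zf', zg_zf]
    have lgt : ∀ T, Lgt fr κ br Ts T → Lgt (fun c => fr (zg c)) (fun c => κ (zg c)) br
        (Ts.map (Tri.rename zf)) (T.rename zf) := by
      rintro T (h5 | h5)
      · left
        rintro ⟨T', hT', h1, i, j, h2, h3, h4⟩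
        obtain ⟨T₀, hT₀, rfl⟩ := List.mem_map.1 hT'
        simp only [nmT_zf', zg_zf] at h2 h3 h4
        exact h5 ⟨T₀, hT₀, fun e => h1 (nmT_zf_eq.2 e), i, j, h2, h3, h4⟩
      · exact Or.inr ((mo T).2 h5)
    have lk : ∀ {T T' : Tri} {i j k l : Ix}, LkS (fun c => fr (zg c)) (fun c => κ (zg c)) br
        (T.rename zf) i j (T'.rename zf) k l → LkS fr κ br T i j T' k l := by
      intro T T' i j k l hl
      unfold LkS at hl ⊢
      rw [mo] at hl
      simp only [nmT_zf', zg_zf, hz, ne_eq] at hl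
      exact hl
    refine ⟨?_, fun c c' => h.symm _ _, ?_, ?_, ?_, ?_⟩
    · intro T' hT'
      obtain ⟨T, hT, rfl⟩ := List.mem_map.1 hT'
      have := h.lev T hT
      exact ⟨this.ta, this.tb, this.tc⟩
    · intro T' hT' hi i j hl
      obtain ⟨T, hT, rfl⟩ := List.mem_map.1 hT'
      simp only [nmT_zf', zg_zf]
      exact h.one T hT (fun k => hi (lgt T k)) i j (lk hl)
    · intro T₁' hT₁' T₂' hT₂' i j k l l1 l2
      obtain ⟨T₁, hT₁, rfl⟩ := List.mem_map.1 hT₁'
      obtain ⟨T₂, hT₂, rfl⟩ := List.mem_map.1 hT₂'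
      have h3 := h.two T₁ hT₁ T₂ hT₂ i j k l (lk l1) (lk l2)
      rw [nmT_zf_eq]
      unfold Mrg at h3 ⊢
      simp only [nmT_zf', zg_zf]
      rcases h3 with h3 | ⟨h3, h4⟩ | h3
      · exact Or.inl h3
      · exact Or.inr (Or.inl ⟨h3, lgt T₁ h4⟩)
      · exact Or.inr (Or.inr h3)
    · intro T₁' hT₁' T₂' hT₂' T₃' hT₃' i j k l n r l1 l2 l3
      obtain ⟨T₁, hT₁, rfl⟩ := List.mem_map.1 hT₁'
      obtain ⟨T₂, hT₂, rfl⟩ := List.mem_map.1 hT₂'
      obtain ⟨T₃, hT₃, rfl⟩ := List.mem_map.1 hT₃'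
      rw [nmT_zf_eq, nmT_zf_eq]
      simp only [nmT_zf', zg_zf]
      rcases h.three T₁ hT₁ T₂ hT₂ T₃ hT₃ i j k l n r (lk l1) (lk l2) (lk l3) with
        ⟨h3, h4, h5⟩ | h3
      · exact Or.inl ⟨h3, h4, lgt T₁ h5⟩
      · exact Or.inr h3
    · refine le_trans (le_of_eq ?_) h.sum
      rw [List.map_map]
      refine congrArg List.sum (List.map_congr_left fun T hT => ?_)
      have e1 : cs (fun c c' => x (zg c) (zg c')) (T.rename zf) = cs x T := by
        unfold cs
        simp only [nmT_zf', zg_zf]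
      have e2 : fcS (fun c => fr (zg c)) (T.rename zf) = fcS fr T := by
        classical
        unfold fcS
        refine congrArg List.sum (List.map_congr_left fun c _ => ?_)
        refine if_congr ?_ rfl rfl
        simp only [nmT_zf', zg_zf]
      simp only [Function.comp, e1, e2]
  · refine ⟨fun c h1 h2 h3 => ?_, fun c h1 h2 => ?_, fun c h1 h2 => ?_⟩
    · obtain ⟨c₀, h4, rfl⟩ := names_zf.1 h1
      simp only [zg_zf] at h2 h3
      obtain ⟨c₁, h5, h6⟩ := names_zf.1 h3
      rw [← zf_inj h6] at h5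
      exact hc.free _ h4 h2 h5
    · obtain ⟨c₀, h4, rfl⟩ := names_zf.1 h1
      simp only [zg_zf] at h2 ⊢
      obtain ⟨c₁, h5, h6⟩ := names_zf.1 h2
      rw [← zf_inj h6] at h5
      exact hc.cls _ h4 h5
    · obtain ⟨c₀, h4, rfl⟩ := names_zf.1 h1
      simp only [zg_zf] at h2 ⊢
      exact hc.bra _ h4 (zf_inj h2)

end Pool.Agent.V11206
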