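import Pool.Agent.V11206.CvE
import Pool.Agent.V11206.ChF
import Pool.Agent.V11206.CvDefs

/-! The main theorem for charges and classes of double arcs. -/

set_option autoImplicit false

namespace Pool.Agent.V11206

open Pool.Agent.Y468.SR
open Pool.Agent.Y874.TP hiding InvM InvC CM CReid CStep SMovie Inv3 S_REID S_REN S_THREE
open Pool.Agent.Y874.TP2
open Pool.Agent.Y874.TP2.T4

set_option linter.unusedSimpArgs false
set_option linter.unusedVariables false

variable {Z : ℕ → Prop}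

theorem end_lt {R : List Trp} {p i k : ℕ} (h : EndCol R p i k) : i < 6 := by
  obtain ⟨e, -, h2⟩ := h
  have := (List.getElem?_eq_some_iff.1 h2).1
  simpa [ends] using this

theorem ni_of {i : ℕ} (h : i < 6) : ∃ a, ni a = i := by
  have : i = 0 ∨ i = 1 ∨ i = 2 ∨ i = 3 ∨ i = 4 ∨ i = 5 := by omega
  rcases this with rfl | rfl | rfl | rfl | rfl | rfl
  · exact ⟨.a1, rfl⟩
  · exact ⟨.b1, rfl⟩
  · exact ⟨.c1, rfl⟩
  · exact ⟨.a2, rfl⟩
  · exact ⟨.b2, rfl⟩
  · exact ⟨.c2, rfl⟩

theorem ty_of_mod {i j : Ix} : ni i % 3 = ni j % 3 ↔ ty i = ty j := by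
  rw [ni_mod, ni_mod]; exact tn_ty

theorem ty_b {j : Ix} : ty j ≠ .b1 ↔ ni j % 3 ≠ 1 := by
  cases j <;> simp [ty, ni]

section conv
variable {D : Code} {Ts : List Tri} {m : ℕ → ℕ} {κ : ℕ → ℕ} {x : ℕ → ℕ → ℕ → ℕ}

theorem chs_of (hw : WF (passes (D ++ TC Ts))) (hl : ∀ T ∈ Ts, Lvl T)
    (h : Charges (Ts.map sigA) κ x) :
    ChS (fun c => Free (Ts.map sigA) (plc Ts c).1 (plc Ts c).2) (fun c => κ (colour c))
      (fun k => ∃ d, d % 2 = 0 ∧ κ d = k)
      (fun c c' => if (plc Ts c).1 = (plc Ts c').1 then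
        x (plc Ts c).1 (plc Ts c).2 (plc Ts c').2 else 0) Ts := by
  have pos : ∀ {T}, T ∈ Ts → ∃ n, Ts[n]? = some T := fun hT => List.getElem?_of_mem hT
  have val : ∀ {n : ℕ} {T : Tri}, Ts[n]? = some T → ∀ i j,
      (if (plc Ts (nmT T i)).1 = (plc Ts (nmT T j)).1 then
      x (plc Ts (nmT T i)).1 (plc Ts (nmT T i)).2 (plc Ts (nmT T j)).2 else 0) =
      x n (ni i) (ni j) := by
    intro n T hT i j
    rw [plc_eq hw hT, plc_eq hw hT]
    simp
  have uni : ∀ {n n' : ℕ} {T : Tri}, Ts[n]? = some T → Ts[n']? = some T → n = n' := by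
    intro n n' T h1 h2
    exact dj_pos (dj_of hw) h1 h2 (nam_ix.2 ⟨.a1, rfl⟩) (nam_ix.2 ⟨.a1, rfl⟩)
  have nms : ∀ {n n' : ℕ} {T T' : Tri}, Ts[n]? = some T → Ts[n']? = some T' →
      (nmT T = nmT T' ↔ n = n') := by
    intro n n' T T' h1 h2
    constructor
    · intro e
      exact dj_pos (dj_of hw) h1 h2 (nam_ix.2 ⟨.a1, rfl⟩) (nam_ix.2 ⟨.a1, by rw [e]⟩)
    · rintro rfl
      rw [h1] at h2
      rw [Option.some_injective _ h2]
  have mon : ∀ {n : ℕ} {T : Tri}, Ts[n]? = some T → Mono (Ts.map sigA) κ n →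
      Mon (fun c => Free (Ts.map sigA) (plc Ts c).1 (plc Ts c).2) (fun c => κ (colour c))
        (fun k => ∃ d, d % 2 = 0 ∧ κ d = k) T := by
    intro n T hn hM
    constructor
    · intro i j
      simp only [plc_eq hw hn]
      exact hM.1 _ _ _ _ ((endCol_iff hn i).2 rfl) ((endCol_iff hn j).2 rfl)
    · intro i
      simp only [plc_eq hw hn]
      rcases hM.2 _ _ ((endCol_iff hn i).2 rfl) with h1 | ⟨c, d, h1, h2, h3⟩
      · exact Or.inl h1
      · rw [(endCol_iff hn i)] at h1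
        exact Or.inr ⟨d, h2, by rw [h3, h1]⟩
  have lgt : ∀ {n : ℕ} {T : Tri}, Ts[n]? = some T → Light (Ts.map sigA) κ n →
      Lgt (fun c => Free (Ts.map sigA) (plc Ts c).1 (plc Ts c).2) (fun c => κ (colour c))
        (fun k => ∃ d, d % 2 = 0 ∧ κ d = k) Ts T := by
    rintro n T hn (h1 | h1)
    · left
      rintro ⟨T', hT', h2, i, j, h3, h4, h5⟩
      obtain ⟨n', hn'⟩ := pos hT'
      simp only [plc_eq hw hn] at h3
      simp only [plc_eq hw hn'] at h4
      exact h1 ⟨ni i, n', ni j, fun e => h2 ((nms hn' hn).2 e), h3, h4, _, _,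
        (endCol_iff hn i).2 rfl, (endCol_iff hn' j).2 rfl, h5⟩
    · exact Or.inr (mon hn h1)
  have fol : ∀ {n n' : ℕ} {T T' : Tri} {i j k l : Ix}, Ts[n]? = some T → Ts[n']? = some T' →
      LkS (fun c => Free (Ts.map sigA) (plc Ts c).1 (plc Ts c).2) (fun c => κ (colour c))
        (fun k => ∃ d, d % 2 = 0 ∧ κ d = k) T i j T' k l →
      MayFollow (Ts.map sigA) κ n (ni i) (ni j) n' (ni k) (ni l) := by
    intro n n' T T' i j k l hn hn' hl
    obtain ⟨t1, t2, f1, f2, e, he⟩ := hl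
    simp only [plc_eq hw hn] at f1
    simp only [plc_eq hw hn'] at f2
    refine ⟨fun k => t1 (ty_of_mod.1 k), fun k => t2 (ty_of_mod.1 k), ⟨f1, f2, _, _,
      (endCol_iff hn j).2 rfl, (endCol_iff hn' k).2 rfl, e⟩, ?_⟩
    have same : nmT T j = nmT T' k ↔ n = n' ∧ ni j = ni k := by
      constructor
      · intro h1
        have h2 := plc_eq hw hn j
        rw [h1, plc_eq hw hn' k] at h2
        simp only [Prod.mk.injEq] at h2
        exact ⟨h2.1.symm, h2.2.symm⟩
      · rintro ⟨rfl, h1⟩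
        rw [hn] at hn'
        obtain rfl := Option.some_injective _ hn'
        rw [ni_inj h1]
    rcases he with ⟨h1, h2⟩ | ⟨h1, ⟨⟨d, h2, h3⟩, h4⟩, h5⟩
    · left
      exact ⟨fun h3 => h1 (same.2 h3), (up_eq t1.symm t2).1 h2⟩
    · right
      refine ⟨same.1 h1, ⟨⟨_, d, (endCol_iff hn j).2 rfl, h2, h3⟩, fun h6 => h4 ⟨mon hn h6.1,
        ty_b.2 h6.2⟩⟩, fun h6 => h5 ((up_eq t1.symm t2).2 h6)⟩
  refine ⟨hl, ?_, ?_, ?_, ?_, ?_⟩
  · intro c c'
    by_cases h1 : (plc Ts c).1 = (plc Ts c').1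
    · rw [if_pos h1, if_pos h1.symm, h.symm, h1]
    · rw [if_neg h1, if_neg (Ne.symm h1)]
  · intro T hT hi i j l1
    obtain ⟨n, hn⟩ := pos hT
    simp only [val hn]
    rcases h.one n _ _ (fol hn hn l1) with h1 | h1
    · exact absurd (lgt hn h1) hi
    · exact h1
  · intro T hT T' hT' i j k l l1 l2
    obtain ⟨n, hn⟩ := pos hT
    obtain ⟨n', hn'⟩ := pos hT'
    simp only [val hn, val hn']
    rcases h.two n _ _ n' _ _ (fol hn hn' l1) (fol hn' hn l2) with ⟨h1, h2, h3⟩ | ⟨h1, h2⟩ | h1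
    · refine Or.inl ⟨ty_of_mod.1 h1, ty_of_mod.1 h2, ?_⟩
      rcases h3 with h3 | h3
      · exact Or.inl ((nms hn hn').2 h3)
      · right
        intro a b hab
        simp only [plc_eq hw hn, plc_eq hw hn']
        exact h3 _ _ _ _ (ty_of_mod.2 hab) ((endCol_iff hn a).2 rfl) ((endCol_iff hn' b).2 rfl)
    · exact Or.inr (Or.inl ⟨(nms hn hn').2 h1, lgt hn h2⟩)
    · exact Or.inr (Or.inr h1)
  · intro T hT T' hT' T'' hT'' i j k l u v l1 l2 l3
    obtain ⟨n, hn⟩ := pos hT
    obtain ⟨n', hn'⟩ := pos hT'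
    obtain ⟨n'', hn''⟩ := pos hT''
    simp only [val hn, val hn', val hn'']
    rcases h.three n _ _ n' _ _ n'' _ _ (fol hn hn' l1) (fol hn' hn'' l2)
      (fol hn'' hn l3) with ⟨h1, h2, h3⟩ | h1
    · exact Or.inl ⟨(nms hn hn').2 h1, (nms hn' hn'').2 h2, lgt hn h3⟩
    · exact Or.inr h1
  · refine le_trans (b := ∑ p ∈ Finset.range Ts.length,
        ((corners.map fun c => x p c.1 c.2).sum - freeCorners (Ts.map sigA) p)) ?_
        (le_trans (le_of_eq ?_) h.sum)
    · refine sum_range_le Ts _ fun n T hn => ?_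
      classical
      have e1 : cs (fun c c' => if (plc Ts c).1 = (plc Ts c').1 then
          x (plc Ts c).1 (plc Ts c).2 (plc Ts c').2 else 0) T =
          (corners.map fun c => x n c.1 c.2).sum := by
        unfold cs
        simp only [val hn]
        rfl
      have e2 : freeCorners (Ts.map sigA) n =
          fcS (fun c => Free (Ts.map sigA) (plc Ts c).1 (plc Ts c).2) T := by
        have e4 : corners = crn.map fun c => (ni c.1, ni c.2) := rfl
        unfold freeCorners fcS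
        rw [e4]
        generalize crn = l
        induction l with
        | nil => rfl
        | cons a l ih =>
          rw [List.map_cons, List.filter_cons, List.map_cons, List.sum_cons, ← ih]
          simp only [plc_eq hw hn]
          by_cases h1 : Free (Ts.map sigA) n (ni a.1) ∧ Free (Ts.map sigA) n (ni a.2)
          · simp only [h1, and_self, decide_true, if_true, List.length_cons]
            omega
          · simp only [h1, decide_false, Bool.false_eq_true, if_false]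
            omega
      rw [e1, e2]
    · rw [List.length_map]

theorem cmp_of (hw : WF (passes (D ++ TC Ts))) (hc : ∀ c, Names Ts c → colour (m c) = colour c)
    (hev : ∀ c, Names Ts c → m c = c → colour c % 2 = 0) :
    Cmp (fun c => Free (Ts.map sigA) (plc Ts c).1 (plc Ts c).2) (fun c => κ (colour c))
      (fun k => ∃ d, d % 2 = 0 ∧ κ d = k) (Names Ts) m := by
  refine ⟨fun c h1 hf h2 => ?_, fun c h1 _ => by rw [hc c h1], fun c h1 h2 =>
    ⟨_, hev c h1 h2, rfl⟩⟩
  obtain ⟨n, T, i, hn, e⟩ := names_at h1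
  obtain ⟨n', T', j, hn', e'⟩ := names_at h2
  subst e
  simp only [plc_eq hw hn] at hf
  obtain ⟨k, g1, g2, g3⟩ := hf
  have g4 := (endCol_iff hn i).1 g1
  obtain ⟨rfl, g5⟩ := g3 n' (ni j) ((endCol_iff hn' j).2 (by rw [← e', hc _ h1]; exact g4))
  rw [hn] at hn'
  obtain rfl := Option.some_injective _ hn'
  rw [ni_inj g5] at e'
  have := hev _ h1 e'
  omega

end conv

/-- the reduction of movies whose triple points have charges -/
theorem movie_of_charges {hd : Bool} {D : Code} {R : List Trp} {κ : ℕ → ℕ} {x : ℕ → ℕ → ℕ → ℕ}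
    (h : AMovie hd Z D R) (hR : Charges R κ x) (hZ : ∀ p ∈ passes D, ¬Z (colour p.crossing))
    (hn : (D.map Prod.snd).Nodup) : Movie true false D [] := by
  obtain ⟨Ts, h1, h2⟩ := amovie_invL RD.reid RN.ren h
  rw [del_eq hZ] at h1
  obtain ⟨m, hM, hC, hN⟩ := h1.inv
  subst h2
  have hcol : ∀ c, Names Ts c → colour (m c) = colour c ∧ (m c = c → colour c % 2 = 0) := by
    intro c hc
    obtain ⟨p, hp, rfl⟩ := names_pass hc
    have := hC p (by rw [passes_append']; exact List.mem_append_right _ hp)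
    refine ⟨this.1, fun h => ?_⟩
    by_contra h5
    exact this.2 h5 h
  exact movie_zeroS (amovie_classical h) hn h1.wf (fun T hT => (h1.ok T hT).1) hM hN
    (chS_zf (chs_of h1.wf (fun T hT => (h1.ok T hT).2) hR)
      (cmp_of h1.wf (fun c hc => (hcol c hc).1) fun c hc => (hcol c hc).2))

end Pool.Agent.V11206
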