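import Pool.Agent.V11206.CvF

/-! Examples of charges. -/

set_option autoImplicit false

namespace Pool.Agent.V11206

theorem mono_const (R : List Trp) (p : ℕ) : Mono R (fun _ => 0) p :=
  ⟨fun _ _ _ _ _ _ => Or.inr (Or.inr rfl), fun _ c h => Or.inr ⟨c, 0, h, rfl, rfl⟩⟩

/-- the next corner after an end of another double curve than that of the top and bottom sheets -/
theorem link_mid {R : List Trp} {p i j q k l : ℕ}
    (h : MayFollow R (fun _ => 0) p i j q k l) (hj : j % 3 ≠ 1 ∨ k % 3 ≠ 1) :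
    Upper (j % 3) (i % 3) ↔ Upper (k % 3) (l % 3) := by
  obtain ⟨-, -, -, h1 | ⟨⟨-, h3⟩, ⟨-, h2⟩, -⟩⟩ := h
  · exact h1.2
  · subst h3
    exact absurd ⟨mono_const R p, by tauto⟩ h2

theorem mid_flip {s t : ℕ} (hs : s < 3) (ht : t < 3) (h : s ≠ t) (h1 : ¬(s = 1 ∨ t = 1)) :
    (Upper s t ↔ ¬Upper t s) := by
  unfold Upper
  interval_cases s <;> interval_cases t <;> simp_all

theorem mid_eq {s t u v : ℕ} (hs : s < 3) (ht : t < 3) (hu : u < 3) (hv : v < 3) (h : s ≠ t)
    (h' : u ≠ v) (h1 : ¬(s = 1 ∨ t = 1)) (e1 : Upper t s ↔ Upper u v)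
    (e2 : Upper v u ↔ Upper s t) : t = u ∧ s = v := by
  unfold Upper at e1 e2
  interval_cases s <;> interval_cases t <;> interval_cases u <;> interval_cases v <;> simp_all

theorem sum_filter {α : Type} (l : List α) (P : α → Prop) [DecidablePred P] :
    (l.map fun c => if P c then 1 else 0).sum = (l.filter fun c => decide (P c)).length := by
  induction l with
  | nil => rfl
  | cons a l ih =>
    rw [List.map_cons, List.sum_cons, List.filter_cons, ih]
    by_cases h : P a
    · simp only [h, decide_true, if_true, List.length_cons]; omega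
    · simp only [h, decide_false, Bool.false_eq_true, if_false]; omega

open Classical in
/-- Charges exist if at each triple point the number of the corners in the top and bottom sheets no
end of which is free is at most the number of the corners both ends of which are free (up to three
corners in all). -/
theorem charges_of_loose {R : List Trp} (h : Loose R) : Charges R (fun _ => 0)
    (fun p i j => if (i % 3 = 1 ∨ j % 3 = 1) ∧ ¬Free R p i ∧ ¬Free R p j then 1 else 0) := by
  have lt : ∀ n : ℕ, n % 3 < 3 := fun n => Nat.mod_lt _ (by norm_num)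
  have val : ∀ {p i j q k l r m n}, MayFollow R (fun _ => 0) r m n p i j →
      MayFollow R (fun _ => 0) p i j q k l → (i % 3 = 1 ∨ j % 3 = 1) →
      (if (i % 3 = 1 ∨ j % 3 = 1) ∧ ¬Free R p i ∧ ¬Free R p j then 1 else 0) = 1 := by
    intro p i j q k l r m n h1 h2 h3
    rw [if_pos ⟨h3, h1.2.2.1.2.1, h2.2.2.1.1⟩]
  refine ⟨fun p i j => if_congr (by tauto) rfl rfl, fun p i j _ => Or.inl (Or.inr (mono_const R p)),
    ?_, ?_, ?_⟩
  · intro p i j q k l h1 h2
    by_cases a : i % 3 = 1 ∨ j % 3 = 1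
    · by_cases b : k % 3 = 1 ∨ l % 3 = 1
      · right; right
        rw [val h2 h1 a, val h1 h2 b]
      · left
        obtain ⟨h3, h4⟩ := mid_eq (lt k) (lt l) (lt i) (lt j) h1.2.1 h1.1 b
          (link_mid h2 (by tauto)) (link_mid h1 (by tauto))
        exact ⟨h4.symm, h3.symm, Or.inr fun _ _ _ _ _ _ _ => Or.inr (Or.inr rfl)⟩
    · left
      obtain ⟨h3, h4⟩ := mid_eq (lt i) (lt j) (lt k) (lt l) h1.1 h1.2.1 a
        (link_mid h1 (by tauto)) (link_mid h2 (by tauto))
      exact ⟨h3, h4, Or.inr fun _ _ _ _ _ _ _ => Or.inr (Or.inr rfl)⟩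
  · intro p i j q k l r m n h1 h2 h3
    right
    by_cases a : i % 3 = 1 ∨ j % 3 = 1
    · rw [val h3 h1 a]; omega
    by_cases b : k % 3 = 1 ∨ l % 3 = 1
    · rw [val h1 h2 b]; omega
    by_cases c : m % 3 = 1 ∨ n % 3 = 1
    · rw [val h2 h3 c]; omega
    exfalso
    have e1 := link_mid h1 (by tauto)
    have e2 := link_mid h2 (by tauto)
    have e3 := link_mid h3 (by tauto)
    have f1 := mid_flip (lt i) (lt j) h1.1 a
    have f2 := mid_flip (lt k) (lt l) h1.2.1 b
    have f3 := mid_flip (lt m) (lt n) h2.2.1 c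
    tauto
  · refine le_trans (le_of_eq (Finset.sum_congr rfl fun p _ => ?_)) h
    rw [sum_filter corners fun c => (c.1 % 3 = 1 ∨ c.2 % 3 = 1) ∧ ¬Free R p c.1 ∧ ¬Free R p c.2]
    rfl

/-! ### charges of double arcs -/

theorem follows_of {R : List Trp} {p i j q k l : ℕ} (h : MayFollow R (fun c => c) p i j q k l) :
    Follows R p i j q k l := by
  obtain ⟨t1, t2, ⟨-, -, c, d, h1, h2, h3⟩, h4⟩ := h
  simp only at h3
  subst h3
  refine ⟨t1, t2, c, h1, h2, ?_⟩
  rcases h4 with h4 | ⟨h4, ⟨⟨c', d', h5, h6, h7⟩, -⟩, h8⟩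
  · exact Or.inl h4
  · refine Or.inr ⟨h4, ?_, h8⟩
    obtain ⟨e, k1, k2⟩ := h1
    obtain ⟨e', k3, k4⟩ := h5
    rw [k1] at k3
    obtain rfl := Option.some_injective _ k3
    rw [k2] at k4
    obtain rfl := Option.some_injective _ k4
    simp only at h7
    omega

theorem linked_of {R : List Trp} {p i q j : ℕ} (h : Joinable R (fun c => c) p i q j)
    (hq : q ≠ p) : Linked R p := by
  obtain ⟨-, -, c, d, h1, h2, h3⟩ := h
  simp only at h3
  subst h3
  exact ⟨i, c, q, j, h1, h2, hq⟩

/-- the charges of `CornerCharges` -/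
theorem charges_of_charge {R : List Trp} {x : ℕ → ℕ → ℕ → ℕ} (h : Charge R x) :
    Charges R (fun c => c) x := by
  have lig : ∀ {p}, ¬Linked R p → Light R (fun c => c) p := fun hp =>
    Or.inl fun ⟨i, q, j, h1, h2⟩ => hp (linked_of h2 h1)
  refine ⟨h.symm, fun p i j h1 => ?_, fun p i j q k l h1 h2 => ?_,
    fun p i j q k l r m n h1 h2 h3 => ?_, h.sum⟩
  · by_cases hp : Linked R p
    · exact Or.inr (h.one p i j hp (follows_of h1))
    · exact Or.inl (lig hp)
  · by_cases hp : Linked R p
    · exact Or.inr (Or.inr (h.two p i j q k l hp (follows_of h1) (follows_of h2)))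
    · refine Or.inr (Or.inl ⟨?_, lig hp⟩)
      by_contra hq
      exact hp (linked_of h1.2.2.1 (Ne.symm hq))
  · by_cases hp : Linked R p
    · exact Or.inr (h.three p i j q k l r m n hp (follows_of h1) (follows_of h2) (follows_of h3))
    · have e1 : p = q := by
        by_contra hq
        exact hp (linked_of h1.2.2.1 (Ne.symm hq))
      subst e1
      refine Or.inl ⟨rfl, ?_, lig hp⟩
      by_contra hq
      exact hp (linked_of h2.2.2.1 (Ne.symm hq))

end Pool.Agent.V11206
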