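import Pool.Agent.V11206.Sym

/-! Reductions of the boundary at cyclically adjacent passages. -/

set_option autoImplicit false

namespace Pool.Agent.V11206

open Pool.Agent.Y468.SR
open Pool.Agent.Y874.TP hiding InvM InvC CM CReid CStep SMovie Inv3
open Pool.Agent.Y874.TP2

set_option linter.unusedSimpArgs false
set_option linter.unusedVariables false

variable {P : List Tri → (ℕ → ℕ) → Prop}

theorem red_cyc {D : Code} {Ts : List Tri} {m : ℕ → ℕ} (hD : Classical D)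
    (hn : (D.map Prod.snd).Nodup) (hw : WF (passes (D ++ TC Ts))) (hm : InvM (D ++ TC Ts) m)
    {C : List Pass × ℕ} (hC : C ∈ D) {x y : List Pass} (e : C.1 = x ++ y)
    (k : ∀ R : Code, Classical ((y ++ x, C.2) :: R) → (((y ++ x, C.2) :: R).map Prod.snd).Nodup →
      WF (passes ((y ++ x, C.2) :: R ++ TC Ts)) → InvM ((y ++ x, C.2) :: R ++ TC Ts) m →
      RedP P ((y ++ x, C.2) :: R) Ts) : RedP P D Ts := by
  obtain ⟨w, b⟩ := C
  simp only at e k
  subst e
  obtain ⟨D₁, D₂, rfl⟩ := List.append_of_mem hC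
  have hperm : (D₁ ++ (x ++ y, b) :: D₂).Perm ((x ++ y, b) :: (D₁ ++ D₂)) := List.perm_middle
  have c1 := classical_perm hperm hD
  have c2 : Classical ((y ++ x, b) :: (D₁ ++ D₂)) := classical_rotate c1
  have m1 : InvM ((x ++ y, b) :: (D₁ ++ D₂) ++ TC Ts) m :=
    Pool.Agent.Y874.TP2.invM_perm (hperm.append_right _) hm
  have m2 : InvM ((y ++ x, b) :: (D₁ ++ D₂) ++ TC Ts) m := by
    simpa using Pool.Agent.Y874.TP2.invM_rotate (R := D₁ ++ D₂ ++ TC Ts) (x := x) (y := y)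
      (by simpa using m1)
  have hperm2 : (passes ((x ++ y, b) :: (D₁ ++ D₂))).Perm
      (passes ((y ++ x, b) :: (D₁ ++ D₂))) := by
    rw [passes_cons, passes_cons]
    exact List.Perm.append_right _ List.perm_append_comm
  have w2 : WF (passes ((y ++ x, b) :: (D₁ ++ D₂) ++ TC Ts)) := by
    rw [passes_append'] at hw ⊢
    exact WF.perm (List.Perm.append_right _ ((passes_perm hperm).trans hperm2)) hw
  have l1 : (((y ++ x, b) :: (D₁ ++ D₂)).map Prod.snd).Nodup := by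
    have := (hperm.map Prod.snd).nodup hn
    simpa using this
  obtain ⟨D', Ts', r1, r2, r3, r4, r5⟩ := k _ c2 l1 w2 m2
  refine ⟨D', Ts', ?_, r2, r3, r4, Movie.head hD c1 (Step.perm _ _ hperm) (Movie.head c1 c2
    (Step.rotate x y b (D₁ ++ D₂)) r5)⟩
  rw [(passes_perm hperm).length_eq, hperm2.length_eq]
  exact r1

theorem canc_cyc (hcl : Cls0 P) {D : Code} {Ts : List Tri} {m : ℕ → ℕ} (hD : Classical D)
    (hn : (D.map Prod.snd).Nodup) (hw : WF (passes (D ++ TC Ts))) (hok : ∀ T ∈ Ts, T.Ok ∧ T.Col)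
    (hm : InvM (D ++ TC Ts) m) (hP : P Ts m) {C : List Pass × ℕ} (hC : C ∈ D) {p q : Pass}
    (h : CAdj C.1 p q) (hc : Canc m p q) : RedP P D Ts := by
  have lin : ∀ {D : Code} (hD : Classical D) (hn : (D.map Prod.snd).Nodup)
      (hw : WF (passes (D ++ TC Ts))) (hm : InvM (D ++ TC Ts) m) {C : List Pass × ℕ} (hC : C ∈ D)
      {a c : List Pass}, C.1 = a ++ p :: q :: c → RedP P D Ts := by
    intro D hD hn hw hm C hC a c h
    rcases hc with ⟨k1, k2, k3⟩ | ⟨k1, k2, k3⟩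
    · exact caseA hD hn hw hok hm hP hC h k1 k2 k3
    · exact caseB hcl hD hn hw hok hm hP hC h k1 k2 k3
  rcases h with ⟨u, v, h⟩ | ⟨u, h⟩
  · exact lin hD hn hw hm hC h
  · refine red_cyc hD hn hw hm hC (x := q :: u) (y := [p]) (by rw [h]; simp) ?_
    intro R c2 l1 w2 m2
    exact lin c2 l1 w2 m2 List.mem_cons_self (a := []) (c := u) (by simp)

theorem remT_cyc (hcl : Cls0 P) {D : Code} {Ts : List Tri} {m : ℕ → ℕ} (hD : Classical D)
    (hn : (D.map Prod.snd).Nodup) (hw : WF (passes (D ++ TC Ts))) (hok : ∀ T ∈ Ts, T.Ok ∧ T.Col)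
    (hm : InvM (D ++ TC Ts) m) (hP : P Ts m) {C : List Pass × ℕ} (hC : C ∈ D) {p r : Pass}
    (h : CAdj C.1 p r) {T : Tri} (hT : T ∈ Ts) (hN : Nx T (part m r) (part m p)) :
    RedP P D Ts := by
  have lin : ∀ {D : Code} (hD : Classical D) (hn : (D.map Prod.snd).Nodup)
      (hw : WF (passes (D ++ TC Ts))) (hm : InvM (D ++ TC Ts) m) {C : List Pass × ℕ} (hC : C ∈ D)
      {a c : List Pass}, C.1 = a ++ p :: r :: c → RedP P D Ts := by
    intro D hD hn hw hm C hC a c hpr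
    have hp : p ∈ passes D := mem_passes.2 ⟨C, hC, by simp [hpr]⟩
    have hr : r ∈ passes D := mem_passes.2 ⟨C, hC, by simp [hpr]⟩
    obtain ⟨W, hW, hcyc⟩ := hN
    have hcyc' : ∀ (r p : Pass) (W : List Pass), CAdj W r p → r ∈ W ∧ p ∈ W := by
      rintro r p W (⟨u, v, rfl⟩ | ⟨u, rfl⟩) <;> simp
    obtain ⟨m1, m2⟩ := hcyc' _ _ _ hcyc
    have hin : ∀ x ∈ W, x ∈ passes (TC Ts) := by
      intro x hx
      simp only [List.mem_cons, List.not_mem_nil, or_false] at hW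
      rcases hW with rfl | rfl | rfl
      · exact mem_passes.2 ⟨(T.wi, T.li), List.mem_flatMap.2 ⟨T, hT, by simp [Tri.code]⟩, hx⟩
      · exact mem_passes.2 ⟨(T.wj, T.lj), List.mem_flatMap.2 ⟨T, hT, by simp [Tri.code]⟩, hx⟩
      · exact mem_passes.2 ⟨(T.wk, T.lk), List.mem_flatMap.2 ⟨T, hT, by simp [Tri.code]⟩, hx⟩
    have hmem : ∀ p : Pass, p ∈ passes D → part m p ∈ W →
        (part m p).crossing = m p.crossing ∧ (part m p).isOver = p.isOver := by
      intro p hp hpq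
      unfold part at hpq ⊢
      split_ifs at hpq ⊢ with hm
      · exfalso
        exact sep hD.1 hw (hD.1.1 p hp) (hin _ hpq) rfl
      · exact ⟨rfl, rfl⟩
    obtain ⟨c1, c2⟩ := hmem p hp m2
    obtain ⟨c3, c4⟩ := hmem r hr m1
    exact remT' hcl hD hn hw hok hm hP hC hpr hT hW hcyc c1 c2 c3 c4
  rcases h with ⟨u, v, h⟩ | ⟨u, h⟩
  · exact lin hD hn hw hm hC h
  · refine red_cyc hD hn hw hm hC (x := r :: u) (y := [p]) (by rw [h]; simp) ?_
    intro R c2 l1 w2 m2
    exact lin c2 l1 w2 m2 List.mem_cons_self (a := []) (c := u) (by simp)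

end Pool.Agent.V11206
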