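import Pool.Agent.V11206.Chi
import Pool.Agent.V11206.Conf

/-! Numbering of the passages of the triple points. -/

set_option autoImplicit false

namespace Pool.Agent.V11206

open Pool.Agent.Y468.SR
open Pool.Agent.Y874.TP hiding InvM InvC CM CReid CStep SMovie Inv3
open Pool.Agent.Y874.TP2
open Pool.Agent.Y761.TP2 (uniq side part_mem)

set_option linter.unusedSimpArgs false
set_option linter.unusedVariables false

/-- some triple point -/
def dflt : Tri := ⟨0, 0, 0, 0, 0, 0, true, true, true, true, true, true, true, true, true, 0, 0, 0⟩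

/-- the triple point with the given number -/
def tr (Ts : List Tri) (i : ℕ) : Tri := Ts.getD i dflt

/-- the names of a triple point -/
def ix6 (x : ℕ) : Ix := [Ix.a1, .a2, .b1, .b2, .c1, .c2].getD x .a1

/-- the number of a passage -/
def sl (i : Ix) (l : Bool) : ℕ :=
  (match i with | .a1 => 0 | .a2 => 2 | .b1 => 4 | .b2 => 6 | .c1 => 8 | .c2 => 10) +
    (if l then 0 else 1)

/-- the crossing with the given number -/
def nmz (Ts : List Tri) (h : ℕ) : ℕ := nmT (tr Ts (h / 6)) (ix6 (h % 6))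

/-- the passage with the given number -/
def pz (Ts : List Tri) (d : ℕ) : Pass := ps (tr Ts (d / 12)) (ix6 (d % 12 / 2)) (d % 2 == 0)

theorem sl_fact (i : Ix) (l : Bool) : sl i l < 12 ∧ ix6 (sl i l / 2) = i ∧ (sl i l % 2 == 0) = l := by
  cases i <;> cases l <;> decide

theorem nxs_fact (e : Bool) (i : Ix) (l : Bool) : CF.nxs e (sl i l) =
    sl (nxt true true true e e e i l).1 (nxt true true true e e e i l).2 := by
  cases e <;> cases i <;> cases l <;> rfl

theorem pz_sl (Ts : List Tri) (j : ℕ) (i : Ix) (l : Bool) :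
    pz Ts (12 * j + sl i l) = ps (tr Ts j) i l := by
  obtain ⟨h1, h2, h3⟩ := sl_fact i l
  unfold pz
  have e1 : (12 * j + sl i l) / 12 = j := by omega
  have e2 : (12 * j + sl i l) % 12 = sl i l := by omega
  have e3 : (12 * j + sl i l) % 2 = sl i l % 2 := by omega
  rw [e1, e2, e3, h2, h3]

theorem pz_cross (Ts : List Tri) (d : ℕ) : (pz Ts d).crossing = nmz Ts (d / 2) := by
  unfold pz nmz ps
  simp only
  have e1 : d / 2 / 6 = d / 12 := by omega
  have e2 : d / 2 % 6 = d % 12 / 2 := by omega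
  rw [e1, e2]

theorem pz_over (Ts : List Tri) (d : ℕ) : (pz Ts d).isOver = (d % 2 == 0) := rfl

theorem tr_mem {Ts : List Tri} {T : Tri} (h : T ∈ Ts) : ∃ j < Ts.length, tr Ts j = T := by
  obtain ⟨j, hj, e⟩ := List.getElem_of_mem h
  exact ⟨j, hj, by unfold tr; rw [List.getD_eq_getElem _ _ hj]; exact e⟩

theorem mem_tr {Ts : List Tri} {j : ℕ} (h : j < Ts.length) : tr Ts j ∈ Ts := by
  unfold tr; rw [List.getD_eq_getElem _ _ h]; exact List.getElem_mem h

theorem code_ps {T : Tri} {q : Pass} (h : q ∈ passes T.code) : ∃ i l, q = ps T i l := by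
  rw [mem_code] at h
  rcases h with rfl | rfl | rfl | rfl | rfl | rfl | rfl | rfl | rfl | rfl | rfl | rfl
  · exact ⟨.a1, T.ta, rfl⟩
  · exact ⟨.a1, !T.ta, rfl⟩
  · exact ⟨.a2, T.ta, rfl⟩
  · exact ⟨.a2, !T.ta, rfl⟩
  · exact ⟨.b1, T.tb, rfl⟩
  · exact ⟨.b1, !T.tb, rfl⟩
  · exact ⟨.b2, T.tb, rfl⟩
  · exact ⟨.b2, !T.tb, rfl⟩
  · exact ⟨.c1, T.tc, rfl⟩
  · exact ⟨.c1, !T.tc, rfl⟩
  · exact ⟨.c2, T.tc, rfl⟩
  · exact ⟨.c2, !T.tc, rfl⟩

theorem mem_TC {Ts : List Tri} {q : Pass} : q ∈ passes (TC Ts) ↔ ∃ T ∈ Ts, q ∈ passes T.code := by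
  rw [mem_passes]
  constructor
  · rintro ⟨C, hC, hq⟩
    obtain ⟨T, hT, hC⟩ := List.mem_flatMap.1 hC
    exact ⟨T, hT, mem_passes.2 ⟨C, hC, hq⟩⟩
  · rintro ⟨T, hT, hq⟩
    obtain ⟨C, hC, hq⟩ := mem_passes.1 hq
    exact ⟨C, List.mem_flatMap.2 ⟨T, hT, hC⟩, hq⟩

theorem pz_mem {Ts : List Tri} {d : ℕ} (h : d < 12 * Ts.length) : pz Ts d ∈ passes (TC Ts) :=
  mem_TC.2 ⟨tr Ts (d / 12), mem_tr (by omega), ps_mem _ _ _⟩

theorem mem_pz {Ts : List Tri} {q : Pass} (h : q ∈ passes (TC Ts)) :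
    ∃ d < 12 * Ts.length, pz Ts d = q := by
  obtain ⟨T, hT, hq⟩ := mem_TC.1 h
  obtain ⟨i, l, rfl⟩ := code_ps hq
  obtain ⟨j, hj, rfl⟩ := tr_mem hT
  have := (sl_fact i l).1
  exact ⟨12 * j + sl i l, by omega, pz_sl Ts j i l⟩

theorem len_TC (Ts : List Tri) : (passes (TC Ts)).length = 12 * Ts.length := by
  induction Ts with
  | nil => rfl
  | cons T Ts ih =>
    rw [tc_cons, passes_append', List.length_append, code_length, ih, List.length_cons]
    omega

/-- the passages are numbered -/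
theorem pz_perm {Ts : List Tri} (h : (passes (TC Ts)).Nodup) :
    (passes (TC Ts)).Perm ((List.range (12 * Ts.length)).map (pz Ts)) := by
  refine List.Subperm.perm_of_length_le (List.subperm_of_subset h fun q hq => ?_) ?_
  · obtain ⟨d, hd, e⟩ := mem_pz hq
    exact List.mem_map.2 ⟨d, List.mem_range.2 hd, e⟩
  · rw [List.length_map, List.length_range, len_TC]

theorem pz_inj {Ts : List Tri} (h : (passes (TC Ts)).Nodup) {d d' : ℕ} (hd : d < 12 * Ts.length)
    (hd' : d' < 12 * Ts.length) (e : pz Ts d = pz Ts d') : d = d' :=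
  List.inj_on_of_nodup_map ((pz_perm h).nodup_iff.1 h) (List.mem_range.2 hd)
    (List.mem_range.2 hd') e

/-- the data -/
structure Stp (D : Code) (Ts : List Tri) (t : ℕ) (m : ℕ → ℕ) : Prop where
  cl : Classical D
  nd : (D.map Prod.snd).Nodup
  sg : ∀ j < Ts.length, (tr Ts j).ei = decide (j < t)
  tK : t ≤ Ts.length
  K3 : Ts.length ≤ 3
  sf : Sf D Ts m
  ir : Irr D Ts m

variable {D : Code} {Ts : List Tri} {t : ℕ} {m : ℕ → ℕ}

theorem Stp.nodup (h : Stp D Ts t m) : (passes (TC Ts)).Nodup := by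
  have := WF.nodup h.sf.wf
  rw [passes_append'] at this
  exact (List.nodup_append.1 this).2.1

theorem Stp.uq (h : Stp D Ts t m) {p q : Pass} (hp : p ∈ passes (D ++ TC Ts))
    (hq : q ∈ passes (D ++ TC Ts)) (hc : p.crossing = q.crossing) (ho : p.isOver = q.isOver) :
    p = q := uniq h.sf.wf hp hq hc ho

theorem memT {q : Pass} (h : q ∈ passes (TC Ts)) : q ∈ passes (D ++ TC Ts) := by
  rw [passes_append']; exact List.mem_append_right _ h

theorem memD {q : Pass} (h : q ∈ passes D) : q ∈ passes (D ++ TC Ts) := by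
  rw [passes_append']; exact List.mem_append_left _ h

theorem Stp.dj (h : Stp D Ts t m) {q : Pass} (h1 : q ∈ passes D) (h2 : q ∈ passes (TC Ts)) :
    False := sep h.cl.1 h.sf.wf h1 h2 rfl

theorem Stp.djc (h : Stp D Ts t m) {p q : Pass} (h1 : p ∈ passes D) (h2 : q ∈ passes (TC Ts)) :
    q.crossing ≠ p.crossing := sep h.cl.1 h.sf.wf h1 h2

theorem Stp.nm_inj (h : Stp D Ts t m) {g g' : ℕ} (hg : g < 6 * Ts.length)
    (hg' : g' < 6 * Ts.length) (e : nmz Ts g = nmz Ts g') : g = g' := by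
  have h1 : pz Ts (2 * g) = pz Ts (2 * g') := by
    refine h.uq (memT (pz_mem (by omega))) (memT (pz_mem (by omega))) ?_ ?_
    · rw [pz_cross, pz_cross, Nat.mul_div_cancel_left _ (by norm_num),
        Nat.mul_div_cancel_left _ (by norm_num), e]
    · rw [pz_over, pz_over, Nat.mul_mod_right, Nat.mul_mod_right]
  have := pz_inj h.nodup (by omega) (by omega) h1
  omega

/-- the next passage -/
theorem Stp.nx (h : Stp D Ts t m) {T : Tri} (hT : T ∈ Ts) {d : ℕ} (hd : d < 12 * Ts.length)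
    {q : Pass} (hN : Nx T (pz Ts d) q) : q = pz Ts (CF.nx t d) := by
  obtain ⟨i, l, e1, e2⟩ := nx_nxt hN
  obtain ⟨j, hj, rfl⟩ := tr_mem hT
  obtain ⟨s1, s2, s3⟩ := sl_fact i l
  rw [← pz_sl] at e1 e2
  have e3 := pz_inj h.nodup hd (by omega) e1
  have hc := h.sf.can _ (mem_tr hj)
  have he := h.sg j hj
  have e4 : CF.nx t d = 12 * j + CF.nxs (decide (j < t)) (sl i l) := by
    unfold CF.nx
    have f1 : d / 12 = j := by omega
    have f2 : d % 12 = sl i l := by omega
    rw [f1, f2]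
  have e5 : nT (tr Ts j) i l = nxt true true true (decide (j < t)) (decide (j < t))
      (decide (j < t)) i l := by
    unfold nT
    rw [hc.ta, hc.tb, hc.tc, hc.ej, hc.ek, he]
  rw [e2, e4, nxs_fact, e5]

open Classical in
/-- the matching of the names -/
noncomputable def cz (Ts : List Tri) (m : ℕ → ℕ) (h : ℕ) : ℕ :=
  if H : ∃ g, g < 6 * Ts.length ∧ m (nmz Ts h) = nmz Ts g then H.choose else 63

theorem cz_rng (h : ℕ) : cz Ts m h = 63 ∨ cz Ts m h < 6 * Ts.length := by
  unfold cz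
  split_ifs with H
  · exact Or.inr H.choose_spec.1
  · exact Or.inl rfl

theorem Stp.cz_iff (h : Stp D Ts t m) {x g : ℕ} (hg : g < 6 * Ts.length) :
    cz Ts m x = g ↔ m (nmz Ts x) = nmz Ts g := by
  have hK := h.K3
  unfold cz
  constructor
  · intro e
    split_ifs at e with H
    · rw [← e]; exact H.choose_spec.2
    · omega
  · intro e
    have H : ∃ g, g < 6 * Ts.length ∧ m (nmz Ts x) = nmz Ts g := ⟨g, hg, e⟩
    rw [dif_pos H]
    exact h.nm_inj H.choose_spec.1 hg (H.choose_spec.2.symm.trans e)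

theorem Stp.inv1 (h : Stp D Ts t m) {x : ℕ} (hx : x < 6 * Ts.length) :
    m (m (nmz Ts x)) = nmz Ts x := by
  have h1 := matching_invol h.sf.inv.1 (p := pz Ts (2 * x)) (memT (pz_mem (by omega)))
  rw [pz_cross, Nat.mul_div_cancel_left _ (by norm_num)] at h1
  exact h1

theorem Stp.cz_inv (h : Stp D Ts t m) {x : ℕ} (hx : x < 6 * Ts.length)
    (hc : cz Ts m x < 6 * Ts.length) : cz Ts m (cz Ts m x) = x := by
  rw [h.cz_iff hx]
  have h1 := (h.cz_iff hc).1 rfl
  rw [← h1]
  exact h.inv1 hx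

theorem Stp.part_mem' (h : Stp D Ts t m) {p : Pass} (hp : p ∈ passes (D ++ TC Ts)) :
    part m p ∈ passes (D ++ TC Ts) := part_mem h.sf.wf h.sf.inv.1 hp

/-- the partner of a passage of the triple points -/
theorem Stp.mt (h : Stp D Ts t m) {d : ℕ} (hd : d < 12 * Ts.length) (hl : ¬CF.Lf (cz Ts m) d) :
    CF.mt (cz Ts m) d < 12 * Ts.length ∧ part m (pz Ts d) = pz Ts (CF.mt (cz Ts m) d) := by
  have hc : cz Ts m (d / 2) < 6 * Ts.length := (cz_rng (d / 2)).resolve_left hl
  have hm := (h.cz_iff hc).1 rfl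
  have hlt : CF.mt (cz Ts m) d < 12 * Ts.length := by
    unfold CF.mt; split_ifs <;> omega
  refine ⟨hlt, h.uq (h.part_mem' (memT (pz_mem hd))) (memT (pz_mem hlt)) ?_ ?_⟩
  · rw [part_cross, pz_cross, pz_cross, hm]
    congr 1
    unfold CF.mt; split_ifs with h1 <;> omega
  · rw [pz_over]
    rcases part_over (m := m) (x := pz Ts d) with ⟨h1, h2⟩ | ⟨h1, h2⟩
    · rw [h2, pz_over]
      rw [pz_cross, hm] at h1
      unfold CF.mt
      rw [if_neg (fun e => h1 (by rw [e]))]
      congr 1; omega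
    · rw [h2, pz_over]
      rw [pz_cross, hm] at h1
      have e := h.nm_inj hc (by omega) h1
      unfold CF.mt
      rw [if_pos e]
      rcases Nat.mod_two_eq_zero_or_one d with h3 | h3
      · have : (2 * (d / 2) + (1 - d % 2)) % 2 = 1 := by omega
        rw [this, h3]; rfl
      · have : (2 * (d / 2) + (1 - d % 2)) % 2 = 0 := by omega
        rw [this, h3]; rfl

/-- the passages joined with the boundary -/
theorem Stp.lf (h : Stp D Ts t m) {d : ℕ} (hd : d < 12 * Ts.length) :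
    CF.Lf (cz Ts m) d ↔ part m (pz Ts d) ∈ passes D := by
  constructor
  · intro hl
    have hmem := h.part_mem' (memT (D := D) (pz_mem hd))
    rw [passes_append'] at hmem
    rcases List.mem_append.1 hmem with h1 | h1
    · exact h1
    · exfalso
      obtain ⟨d', hd', e⟩ := mem_pz h1
      have h2 := congrArg Pass.crossing e
      rw [part_cross, pz_cross, pz_cross] at h2
      have h3 : cz Ts m (d / 2) = d' / 2 := (h.cz_iff (by omega)).2 h2.symm
      have hK := h.K3
      have : cz Ts m (d / 2) = 63 := hl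
      omega
  · intro h1
    by_contra hl
    obtain ⟨h2, h3⟩ := h.mt hd hl
    rw [h3] at h1
    exact h.dj h1 (pz_mem h2)

theorem Stp.nonlf (h : Stp D Ts t m) {d : ℕ} (hd : d < 12 * Ts.length)
    (h1 : part m (pz Ts d) ∈ passes (TC Ts)) : ¬CF.Lf (cz Ts m) d := fun hl =>
  h.dj ((h.lf hd).1 hl) h1

end Pool.Agent.V11206
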