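import Pool.Agent.V11206.Null
import Pool.Agent.Y968.TP.OutA

/-! Elimination of unattached pairs of crossings. -/

set_option autoImplicit false

namespace Pool.Agent.V11206

open Pool.Agent.Y468.SR
open Pool.Agent.Y874.TP (colour NullV Tri TC Cyc passes_append')
open Pool.Agent.Y874.TP2 (part InvM CM)
open Pool.Agent.Y968.TP (Occ matching_iff)

/-! ### names -/

/-- the matching after the elimination of `y1`, `y2` -/
def mm (m : ℕ → ℕ) (y1 y2 : ℕ) (c : ℕ) : ℕ :=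
  if m c = y1 then (if m y2 = y2 then c else m y2)
  else if m c = y2 then (if m y1 = y1 then c else m y1) else m c

open Classical in
/-- the label of `y1` -/
noncomputable def w1 {G : Type} [Group G] (m : ℕ → ℕ) (y1 y2 : ℕ) (f : ℕ → G) : G :=
  if m y1 ≠ y1 ∧ m y1 ≠ y2 then (f (m y1))⁻¹ else if m y2 ≠ y1 ∧ m y2 ≠ y2 then f (m y2) else 1

/-- the labels extended to `y1`, `y2` -/
noncomputable def ex {G : Type} [Group G] (m : ℕ → ℕ) (y1 y2 : ℕ) (f : ℕ → G) (c : ℕ) : G :=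
  if c = y1 then w1 m y1 y2 f else if c = y2 then (w1 m y1 y2 f)⁻¹ else f c

/-- the situation -/
structure Nm (m : ℕ → ℕ) (y1 y2 : ℕ) (N : ℕ → Prop) : Prop where
  ne : y1 ≠ y2
  n1 : ∀ c, N c → c ≠ y1 ∧ c ≠ y2
  mem : ∀ c, (N c ∨ c = y1 ∨ c = y2) → (N (m c) ∨ m c = y1 ∨ m c = y2)
  inv : ∀ c, (N c ∨ c = y1 ∨ c = y2) → m (m c) = c

section
variable {m : ℕ → ℕ} {y1 y2 : ℕ} {N : ℕ → Prop} (h : Nm m y1 y2 N)
include h

theorem Nm.m1 : m (m y1) = y1 := h.inv y1 (by simp)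
theorem Nm.m2 : m (m y2) = y2 := h.inv y2 (by simp)

omit h in
theorem mm_eq' {c : ℕ} (h1 : m c ≠ y1) (h2 : m c ≠ y2) : mm m y1 y2 c = m c := by
  unfold mm; rw [if_neg h1, if_neg h2]

theorem Nm.z1 (h1 : m y1 ≠ y1) (h2 : m y1 ≠ y2) : N (m y1) := by
  rcases h.mem y1 (by simp) with h3 | h3 | h3
  · exact h3
  · exact absurd h3 h1
  · exact absurd h3 h2

theorem Nm.z2 (h1 : m y2 ≠ y1) (h2 : m y2 ≠ y2) : N (m y2) := by
  rcases h.mem y2 (by simp) with h3 | h3 | h3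
  · exact h3
  · exact absurd h3 h1
  · exact absurd h3 h2

/-- the cases -/
theorem Nm.cases {c : ℕ} (hc : N c) :
    (m c = y1 ∧ m y1 = c ∧ m y2 = y2 ∧ mm m y1 y2 c = c) ∨
    (m c = y1 ∧ m y1 = c ∧ m y2 ≠ y1 ∧ m y2 ≠ y2 ∧ mm m y1 y2 c = m y2 ∧ m y2 ≠ c) ∨
    (m c = y2 ∧ m y2 = c ∧ m y1 = y1 ∧ mm m y1 y2 c = c) ∨
    (m c = y2 ∧ m y2 = c ∧ m y1 ≠ y1 ∧ m y1 ≠ y2 ∧ mm m y1 y2 c = m y1 ∧ m y1 ≠ c) ∨
    (m c ≠ y1 ∧ m c ≠ y2 ∧ mm m y1 y2 c = m c ∧ N (m c)) := by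
  obtain ⟨c1, c2⟩ := h.n1 c hc
  have hi := h.inv c (by simp [hc])
  by_cases h1 : m c = y1
  · have h2 : m y1 = c := by rw [← h1]; exact hi
    by_cases h3 : m y2 = y2
    · left
      exact ⟨h1, h2, h3, by unfold mm; rw [if_pos h1, if_pos h3]⟩
    · right; left
      refine ⟨h1, h2, fun h4 => ?_, h3, by unfold mm; rw [if_pos h1, if_neg h3], fun h4 => ?_⟩
      · have := h.m2
        rw [h4, h2] at this
        exact c2 this
      · have := h.m2
        rw [h4, h1] at this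
        exact h.ne this
  · by_cases h1' : m c = y2
    · have h2 : m y2 = c := by rw [← h1']; exact hi
      by_cases h3 : m y1 = y1
      · right; right; left
        exact ⟨h1', h2, h3, by unfold mm; rw [if_neg h1, if_pos h1', if_pos h3]⟩
      · right; right; right; left
        refine ⟨h1', h2, h3, fun h4 => ?_, by unfold mm; rw [if_neg h1, if_pos h1', if_neg h3],
          fun h4 => ?_⟩
        · have := h.m1
          rw [h4, h2] at this
          exact c1 this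
        · have := h.m1
          rw [h4, h1'] at this
          exact h.ne this.symm
    · right; right; right; right
      refine ⟨h1, h1', mm_eq' h1 h1', ?_⟩
      rcases h.mem c (by simp [hc]) with h3 | h3 | h3
      · exact h3
      · exact absurd h3 h1
      · exact absurd h3 h1'

variable {G : Type} [Group G] {f : ℕ → G}

theorem Nm.ex_of {c : ℕ} (hc : N c) : ex m y1 y2 f c = f c := by
  unfold ex
  rw [if_neg (h.n1 c hc).1, if_neg (h.n1 c hc).2]

omit h in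
theorem ex1' : ex m y1 y2 f y1 = w1 m y1 y2 f := by unfold ex; rw [if_pos rfl]

theorem Nm.ex2 : ex m y1 y2 f y2 = (w1 m y1 y2 f)⁻¹ := by
  unfold ex; rw [if_neg h.ne.symm, if_pos rfl]

theorem Nm.ex_ne (hf : ∀ d, N d → mm m y1 y2 d ≠ d → f (mm m y1 y2 d) = (f d)⁻¹) {c : ℕ}
    (hc : N c ∨ c = y1 ∨ c = y2) (hne : m c ≠ c) : ex m y1 y2 f (m c) = (ex m y1 y2 f c)⁻¹ := by
  rcases hc with hc | rfl | rfl
  · rw [h.ex_of hc]
    rcases h.cases hc with ⟨k1, k2, k3, k4⟩ | ⟨k1, k2, k3, k4, k5, k6⟩ | ⟨k1, k2, k3, k4⟩ |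
      ⟨k1, k2, k3, k4, k5, k6⟩ | ⟨k1, k2, k3, k4⟩
    · obtain ⟨c1, c2⟩ := h.n1 c hc
      rw [k1, ex1']
      unfold w1
      rw [if_pos (by rw [k2]; exact ⟨c1, c2⟩), k2]
    · obtain ⟨c1, c2⟩ := h.n1 c hc
      rw [k1, ex1']
      unfold w1
      rw [if_pos (by rw [k2]; exact ⟨c1, c2⟩), k2]
    · rw [k1, h.ex2]
      unfold w1
      rw [if_neg (fun h' => h'.1 k3)]
      obtain ⟨c1, c2⟩ := h.n1 c hc
      rw [if_pos (by rw [k2]; exact ⟨c1, c2⟩), k2]
    · rw [k1, h.ex2]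
      unfold w1
      rw [if_pos ⟨k3, k4⟩]
      have := hf c hc (by rw [k5]; exact k6)
      rw [k5] at this
      rw [this]
      simp
    · rw [h.ex_of k4, ← k3]
      refine hf c hc ?_
      rw [k3]; exact hne
  · rw [ex1']
    by_cases h1 : m c = y2
    · rw [h1, h.ex2]
    · rw [h.ex_of (h.z1 hne h1)]
      unfold w1
      rw [if_pos ⟨hne, h1⟩, inv_inv]
  · rw [h.ex2, inv_inv]
    by_cases h1 : m c = y1
    · rw [h1, ex1']
    · have hz := h.z2 h1 hne
      rw [h.ex_of hz]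
      unfold w1
      by_cases h2 : m y1 ≠ y1 ∧ m y1 ≠ c
      · rw [if_pos h2]
        have h3 := h.z1 h2.1 h2.2
        rcases h.cases h3 with ⟨k1, k2, k3, k4⟩ | ⟨k1, k2, k3, k4, k5, k6⟩ | ⟨k1, k2, k3, k4⟩ |
          ⟨k1, k2, k3, k4, k5, k6⟩ | ⟨k1, k2, k3, k4⟩
        · exact absurd k3 hne
        · have := hf _ h3 (by rw [k5]; exact k6)
          rw [k5] at this
          exact this
        · exact absurd k3 h2.1
        · exact absurd (h.m1.symm.trans k1) h.ne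
        · exact absurd h.m1 k1
      · rw [if_neg h2, if_pos ⟨h1, hne⟩]

theorem Nm.ex_eq {g : ℕ → G} (hf : ∀ d, N d → mm m y1 y2 d = d → g d = (f d)⁻¹) {c : ℕ}
    (hc : N c ∨ c = y1 ∨ c = y2) (he : m c = c) : ex m y1 y2 g c = (ex m y1 y2 f c)⁻¹ := by
  rcases hc with hc | rfl | rfl
  · rw [h.ex_of hc, h.ex_of hc]
    obtain ⟨c1, c2⟩ := h.n1 c hc
    refine hf c hc ?_
    rw [mm_eq' (by rw [he]; exact c1) (by rw [he]; exact c2), he]
  · rw [ex1', ex1']
    unfold w1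
    have e1 : ¬(m c ≠ c ∧ m c ≠ y2) := fun h' => h'.1 he
    simp only [if_neg e1]
    by_cases h1 : m y2 ≠ c ∧ m y2 ≠ y2
    · simp only [if_pos h1]
      have hz := h.z2 h1.1 h1.2
      refine hf _ hz ?_
      unfold mm
      rw [h.m2, if_neg h.ne.symm, if_pos rfl, if_pos he]
    · simp only [if_neg h1, inv_one]
  · rw [h.ex2, h.ex2, inv_inj]
    unfold w1
    by_cases h1 : m y1 ≠ y1 ∧ m y1 ≠ c
    · simp only [if_pos h1]
      have hz := h.z1 h1.1 h1.2
      rw [inv_inj]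
      refine hf _ hz ?_
      unfold mm
      rw [h.m1, if_pos rfl, if_pos he]
    · have e2 : ¬(m c ≠ y1 ∧ m c ≠ c) := fun h' => h'.2 he
      simp only [if_neg h1, if_neg e2, inv_one]

end

/-! ### passages -/

/-- passages of two unattached crossings of opposite signs -/
def ph (x : ℕ × ℕ × Bool) : List Pass :=
  [⟨x.1, true, x.2.2⟩, ⟨x.1, false, x.2.2⟩, ⟨x.2.1, true, !x.2.2⟩, ⟨x.2.1, false, !x.2.2⟩]

/-- passages of the unattached crossings -/
def PH (L : List (ℕ × ℕ × Bool)) : List Pass := L.flatMap ph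

/-- the constraints -/
def Con {G : Type} [Group G] (L : List (ℕ × ℕ × Bool)) (f : ℕ → G) : Prop :=
  ∀ x ∈ L, f x.2.1 = (f x.1)⁻¹

/-- the invariant of a diagram with unattached pairs of crossings -/
structure InvX (E : Code) (L : List (ℕ × ℕ × Bool)) (m : ℕ → ℕ) : Prop where
  mat : Matching (passes E ++ PH L) m
  cm : CM (passes E ++ PH L) m
  col : ∀ x ∈ L, colour x.1 = colour x.2.1
  nul : ∀ (G : Type) [Group G] (o u : ℕ → G), Valid (passes E ++ PH L) m o u → Con L o → Con L u →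
    ∀ b, CN (bv (vals o u E) b)

theorem occ_append {P Q : List Pass} {c : ℕ} {s : Bool} : Occ (P ++ Q) c s ↔ Occ P c s ∨ Occ Q c s := by
  unfold Occ
  simp only [List.mem_append, or_and_right, exists_or]

theorem occ_ph {x : ℕ × ℕ × Bool} {c : ℕ} {s : Bool} :
    Occ (ph x) c s ↔ (c = x.1 ∧ s = x.2.2) ∨ (c = x.2.1 ∧ s = !x.2.2) := by
  unfold Occ ph
  simp only [List.mem_cons, List.not_mem_nil, or_false]
  constructor
  · rintro ⟨q, rfl | rfl | rfl | rfl, h1, h2⟩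
    · exact Or.inl ⟨h1.symm, h2.symm⟩
    · exact Or.inl ⟨h1.symm, h2.symm⟩
    · exact Or.inr ⟨h1.symm, h2.symm⟩
    · exact Or.inr ⟨h1.symm, h2.symm⟩
  · rintro (⟨rfl, rfl⟩ | ⟨rfl, rfl⟩)
    · exact ⟨_, Or.inl rfl, rfl, rfl⟩
    · exact ⟨_, Or.inr (Or.inr (Or.inl rfl)), rfl, rfl⟩

theorem mem_PH {L : List (ℕ × ℕ × Bool)} {x : ℕ × ℕ × Bool} (hx : x ∈ L) {q : Pass} (hq : q ∈ ph x) :
    q ∈ PH L := List.mem_flatMap.2 ⟨x, hx, hq⟩

theorem elim_one {E : Code} {x : ℕ × ℕ × Bool} {L : List (ℕ × ℕ × Bool)} {m : ℕ → ℕ}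
    (hw : WF (passes E ++ PH (x :: L))) (h : InvX E (x :: L) m) :
    WF (passes E ++ PH L) ∧ ∃ m', InvX E L m' := by
  obtain ⟨y1, y2, s0⟩ := x
  obtain ⟨P, hP⟩ : ∃ P, P = passes E ++ PH L := ⟨_, rfl⟩
  have hperm : (passes E ++ PH ((y1, y2, s0) :: L)).Perm (ph (y1, y2, s0) ++ P) := by
    rw [hP]
    unfold PH
    rw [List.flatMap_cons, ← List.append_assoc, ← List.append_assoc]
    exact List.Perm.append_right _ List.perm_append_comm
  have hw1 : WF (ph (y1, y2, s0) ++ P) := WF.perm hperm hw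
  have hphm : ∀ q ∈ ph (y1, y2, s0), q.mate ∈ ph (y1, y2, s0) := by
    intro q hq
    simp only [ph, List.mem_cons, List.not_mem_nil, or_false] at hq ⊢
    rcases hq with rfl | rfl | rfl | rfl <;> simp [Pass.mate]
  have hw2 : WF P := hw1.remove hphm
  have hocc : ∀ c s, Occ (passes E ++ PH ((y1, y2, s0) :: L)) c s ↔
      Occ P c s ∨ (c = y1 ∧ s = s0) ∨ (c = y2 ∧ s = !s0) := by
    intro c s
    rw [Pool.Agent.Y968.TP.occ_perm hperm, occ_append, occ_ph]
    tauto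
  have hne : y1 ≠ y2 := by
    intro he
    have h1 := hw1.2
    simp only [ph, List.cons_append, List.map_cons, List.nodup_cons, List.mem_cons, he] at h1
    simp at h1
  have hN1 : ∀ c s, Occ P c s → c ≠ y1 ∧ c ≠ y2 := by
    rintro c s ⟨q, hq, rfl, -⟩
    refine ⟨?_, ?_⟩
    · exact hw1.ne_crossing (p := ⟨y1, true, s0⟩) (by simp [ph]) (by simp [ph, Pass.mate]) hq
    · exact hw1.ne_crossing (p := ⟨y2, true, !s0⟩) (by simp [ph]) (by simp [ph, Pass.mate]) hq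
  have hM := matching_iff.1 h.mat
  simp only [hocc] at hM
  obtain ⟨N, hNd⟩ : ∃ N : ℕ → Prop, N = fun c => ∃ s, Occ P c s := ⟨_, rfl⟩
  have hNm : Nm m y1 y2 N := by
    refine ⟨hne, ?_, ?_, ?_⟩
    · rw [hNd]; rintro c ⟨s, hc⟩; exact hN1 c s hc
    · intro c hc
      rw [hNd] at hc ⊢
      have : ∃ s, Occ P c s ∨ (c = y1 ∧ s = s0) ∨ (c = y2 ∧ s = !s0) := by
        rcases hc with ⟨s, hc⟩ | hc | hc
        · exact ⟨s, Or.inl hc⟩
        · exact ⟨s0, Or.inr (Or.inl ⟨hc, rfl⟩)⟩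
        · exact ⟨!s0, Or.inr (Or.inr ⟨hc, rfl⟩)⟩
      obtain ⟨s, hs⟩ := this
      obtain ⟨s', h1, -⟩ := hM c s hs
      rcases h1 with h1 | ⟨h1, -⟩ | ⟨h1, -⟩
      · exact Or.inl ⟨s', h1⟩
      · exact Or.inr (Or.inl h1)
      · exact Or.inr (Or.inr h1)
    · intro c hc
      rw [hNd] at hc
      have : ∃ s, Occ P c s ∨ (c = y1 ∧ s = s0) ∨ (c = y2 ∧ s = !s0) := by
        rcases hc with ⟨s, hc⟩ | hc | hc
        · exact ⟨s, Or.inl hc⟩
        · exact ⟨s0, Or.inr (Or.inl ⟨hc, rfl⟩)⟩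
        · exact ⟨!s0, Or.inr (Or.inr ⟨hc, rfl⟩)⟩
      obtain ⟨s, hs⟩ := this
      obtain ⟨s', -, h1, -⟩ := hM c s hs
      exact h1
  -- signs of the neighbours
  have hs1 : m y1 ≠ y1 → m y1 ≠ y2 → Occ P (m y1) (!s0) := by
    intro h1 h2
    obtain ⟨s', h3, -, h4⟩ := hM y1 s0 (Or.inr (Or.inl ⟨rfl, rfl⟩))
    rw [← h4 h1]
    rcases h3 with h3 | ⟨h3, -⟩ | ⟨h3, -⟩
    · exact h3
    · exact absurd h3 h1
    · exact absurd h3 h2
  have hs2 : m y2 ≠ y1 → m y2 ≠ y2 → Occ P (m y2) s0 := by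
    intro h1 h2
    obtain ⟨s', h3, -, h4⟩ := hM y2 (!s0) (Or.inr (Or.inr ⟨rfl, rfl⟩))
    have h5 := h4 h2
    rw [Bool.not_not] at h5
    rw [← h5]
    rcases h3 with h3 | ⟨h3, -⟩ | ⟨h3, -⟩
    · exact h3
    · exact absurd h3 h1
    · exact absurd h3 h2
  have huniq : ∀ {c s s'}, Occ P c s → Occ P c s' → s = s' := fun h1 h2 =>
    Pool.Agent.Y968.TP.occ_unique hw2 h1 h2
  have hmat : Matching P (mm m y1 y2) := by
    rw [matching_iff]
    intro c s hc
    have hNc : N c := by rw [hNd]; exact ⟨s, hc⟩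
    obtain ⟨s', h1, h2, h3⟩ := hM c s (Or.inl hc)
    rcases hNm.cases hNc with ⟨k1, k2, k3, k4⟩ | ⟨k1, k2, k3, k4, k5, k6⟩ | ⟨k1, k2, k3, k4⟩ |
      ⟨k1, k2, k3, k4, k5, k6⟩ | ⟨k1, k2, k3, k4⟩
    · rw [k4]
      exact ⟨s, hc, k4, fun h => absurd rfl h⟩
    · rw [k5]
      have e1 : m y1 ≠ y1 := by rw [k2]; exact (hN1 c s hc).1
      have e2 : m y1 ≠ y2 := by rw [k2]; exact (hN1 c s hc).2
      have e3 := hs1 e1 e2
      rw [k2] at e3
      refine ⟨s0, hs2 k3 k4, ?_, fun _ => ?_⟩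
      · unfold mm
        rw [hNm.m2, if_neg hne.symm, if_pos rfl, if_neg e1, k2]
      · rw [huniq hc e3, Bool.not_not]
    · rw [k4]
      exact ⟨s, hc, k4, fun h => absurd rfl h⟩
    · rw [k5]
      have e1 : m y2 ≠ y1 := by rw [k2]; exact (hN1 c s hc).1
      have e2 : m y2 ≠ y2 := by rw [k2]; exact (hN1 c s hc).2
      have e3 := hs2 e1 e2
      rw [k2] at e3
      refine ⟨!s0, hs1 k3 k4, ?_, fun _ => ?_⟩
      · unfold mm
        rw [hNm.m1, if_pos rfl, if_neg e2, k2]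
      · rw [huniq hc e3]
    · rw [k3]
      refine ⟨s', ?_, ?_, h3⟩
      · rcases h1 with h1 | ⟨h1, -⟩ | ⟨h1, -⟩
        · exact h1
        · exact absurd h1 k1
        · exact absurd h1 k2
      · have hi := hNm.inv c (Or.inl hNc)
        rw [mm_eq' (by rw [hi]; exact (hN1 c s hc).1) (by rw [hi]; exact (hN1 c s hc).2), hi]
  refine ⟨by rw [← hP]; exact hw2, mm m y1 y2, by rw [← hP]; exact hmat, ?_,
    fun x hx => h.col x (by simp [hx]), ?_⟩
  · rw [← hP]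
    intro p hp
    have hc : Occ P p.crossing p.isPos := ⟨p, hp, rfl, rfl⟩
    have hNc : N p.crossing := by rw [hNd]; exact ⟨_, hc⟩
    have hcmp := h.cm p (hperm.symm.subset (List.mem_append_right _ hp))
    have hy1 := h.cm ⟨y1, true, s0⟩ (hperm.symm.subset (List.mem_append_left _ (by simp [ph])))
    have hy2 := h.cm ⟨y2, true, !s0⟩ (hperm.symm.subset (List.mem_append_left _ (by simp [ph])))
    have hy := h.col (y1, y2, s0) (by simp)
    simp only at hy1 hy2 hy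
    rcases hNm.cases hNc with ⟨k1, k2, k3, k4⟩ | ⟨k1, k2, k3, k4, k5, k6⟩ | ⟨k1, k2, k3, k4⟩ |
      ⟨k1, k2, k3, k4, k5, k6⟩ | ⟨k1, k2, k3, k4⟩
    · rw [k4]
      refine ⟨rfl, fun h1 => ?_⟩
      rw [k1] at hcmp
      rw [← hcmp.1, hy] at h1
      exact absurd k3 (hy2.2 h1)
    · rw [k5]
      rw [k1] at hcmp
      exact ⟨by rw [hy2.1, ← hy, hcmp.1], fun _ => k6⟩
    · rw [k4]
      refine ⟨rfl, fun h1 => ?_⟩
      rw [k1] at hcmp
      rw [← hcmp.1, ← hy] at h1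
      exact absurd k3 (hy1.2 h1)
    · rw [k5]
      rw [k1] at hcmp
      exact ⟨by rw [hy1.1, hy, hcmp.1], fun _ => k6⟩
    · rw [k3]; exact hcmp
  · intro G _ o u hv hco hcu b
    rw [← hP] at hv
    have hNp : ∀ q ∈ P, N q.crossing := fun q hq => by rw [hNd]; exact ⟨q.isPos, q, hq, rfl, rfl⟩
    have hNq : ∀ c, N c → ∃ q ∈ P, q.crossing = c := by
      intro c hc; rw [hNd] at hc; obtain ⟨s, q, hq, h1, -⟩ := hc; exact ⟨q, hq, h1⟩
    have hval : Valid (passes E ++ PH ((y1, y2, s0) :: L)) m (ex m y1 y2 o) (ex m y1 y2 u) := by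
      intro p hp
      have hc : N p.crossing ∨ p.crossing = y1 ∨ p.crossing = y2 := by
        rcases List.mem_append.1 (hperm.subset hp) with h1 | h1
        · right
          simp only [ph, List.mem_cons, List.not_mem_nil, or_false] at h1
          rcases h1 with rfl | rfl | rfl | rfl <;> simp
        · exact Or.inl (hNp p h1)
      refine ⟨fun h1 => hNm.ex_eq (fun d hd h2 => ?_) hc h1,
        fun h1 => ⟨hNm.ex_ne (fun d hd h2 => ?_) hc h1, hNm.ex_ne (fun d hd h2 => ?_) hc h1⟩⟩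
      · obtain ⟨q, hq, rfl⟩ := hNq d hd
        exact (hv q hq).1 h2
      · obtain ⟨q, hq, rfl⟩ := hNq d hd
        exact ((hv q hq).2 h2).1
      · obtain ⟨q, hq, rfl⟩ := hNq d hd
        exact ((hv q hq).2 h2).2
    have hmemL : ∀ x ∈ L, N x.1 ∧ N x.2.1 := by
      intro x hx
      have h1 : ∀ q ∈ ph x, q ∈ P := fun q hq => by
        rw [hP]; exact List.mem_append_right _ (mem_PH hx hq)
      exact ⟨hNp ⟨x.1, true, x.2.2⟩ (h1 _ (by simp [ph])),
        hNp ⟨x.2.1, true, !x.2.2⟩ (h1 _ (by simp [ph]))⟩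
    have hcon : ∀ f : ℕ → G, Con L f → Con ((y1, y2, s0) :: L) (ex m y1 y2 f) := by
      intro f hf x hx
      rcases List.mem_cons.1 hx with rfl | hx
      · simp only
        rw [ex1', hNm.ex2]
      · obtain ⟨h1, h2⟩ := hmemL x hx
        rw [hNm.ex_of h1, hNm.ex_of h2]
        exact hf x hx
    have h1 := h.nul G _ _ hval (hcon o hco) (hcon u hcu) b
    have e : vals (ex m y1 y2 o) (ex m y1 y2 u) E = vals o u E := by
      unfold vals
      refine List.map_congr_left fun C hC => ?_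
      simp only [Prod.mk.injEq, and_true]
      unfold wval
      congr 1
      refine List.map_congr_left fun q hq => ?_
      have hq' : N q.crossing := hNp q (by
        rw [hP]; exact List.mem_append_left _ (mem_passes.2 ⟨C, hC, hq⟩))
      unfold val
      rw [hNm.ex_of hq', hNm.ex_of hq']
    rw [e] at h1
    exact h1

theorem elim {E : Code} {L : List (ℕ × ℕ × Bool)} {m : ℕ → ℕ}
    (hw : WF (passes E ++ PH L)) (h : InvX E L m) : WF (passes E) ∧ ∃ m', InvM E m' := by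
  induction L generalizing m with
  | nil =>
    have e : passes E ++ PH [] = passes E := by simp [PH]
    refine ⟨by rw [← e]; exact hw, m, by rw [← e]; exact h.mat, by rw [← e]; exact h.cm, ?_⟩
    intro G _ o u hv
    exact h.nul G o u (by rw [e]; exact hv) (fun x hx => absurd hx (by simp))
      (fun x hx => absurd hx (by simp))
  | cons x L ih =>
    obtain ⟨h1, m', h2⟩ := elim_one hw h
    exact ih h1 h2

end Pool.Agent.V11206
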