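import Pool.Agent.V11206.Elim

/-! Elimination of unattached pairs of crossings; the new matching is described. -/

set_option autoImplicit false

namespace Pool.Agent.V11206

open Pool.Agent.Y468.SR
open Pool.Agent.Y874.TP (colour NullV Tri TC Cyc passes_append')
open Pool.Agent.Y874.TP2 (part InvM CM)
open Pool.Agent.Y968.TP (Occ matching_iff)

/-- the new matching `m'` arises from `m` by joining ends at the crossings in `Y` -/
def Tr (Y N : ℕ → Prop) (m m' : ℕ → ℕ) : Prop :=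
  ∀ c, N c → m' c = m c ∨ (Y (m c) ∧ (m' c = c ∨ ∃ y, Y y ∧ m' c = m y))

theorem elim_mm {E : Code} {x : ℕ × ℕ × Bool} {L : List (ℕ × ℕ × Bool)} {m : ℕ → ℕ}
    (hw : WF (passes E ++ PH (x :: L))) (h : InvX E (x :: L) m) :
    WF (passes E ++ PH L) ∧ InvX E L (mm m x.1 x.2.1) ∧ Tr (fun c => c = x.1 ∨ c = x.2.1)
      (fun c => ∃ q ∈ passes E ++ PH L, q.crossing = c) m (mm m x.1 x.2.1) := by
  obtain ⟨y1, y2, s0⟩ := x
  obtain ⟨P, hP⟩ : ∃ P, P = passes E ++ PH L := ⟨_, rfl⟩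
  have hperm : (passes E ++ PH ((y1, y2, s0) :: L)).Perm (ph (y1, y2, s0) ++ P) := by
    rw [hP]
    unfold PH
    rw [List.flatMap_cons, ← List.append_assoc, ← List.append_assoc]
    exact List.Perm.append_right _ List.perm_append_comm
  have hw1 : WF (ph (y1, y2, s0) ++ P) := WF.perm hperm hw
  have hphm : ∀ q ∈ ph (y1, y2, s0), q.mate ∈ ph (y1, y2, s0) := by
    intro q hq
    simp only [ph, List.mem_cons, List.not_mem_nil, or_false] at hq ⊢
    rcases hq with rfl | rfl | rfl | rfl <;> simp [Pass.mate]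
  have hw2 : WF P := hw1.remove hphm
  have hocc : ∀ c s, Occ (passes E ++ PH ((y1, y2, s0) :: L)) c s ↔
      Occ P c s ∨ (c = y1 ∧ s = s0) ∨ (c = y2 ∧ s = !s0) := by
    intro c s
    rw [Pool.Agent.Y968.TP.occ_perm hperm, occ_append, occ_ph]
    tauto
  have hne : y1 ≠ y2 := by
    intro he
    have h1 := hw1.2
    simp only [ph, List.cons_append, List.map_cons, List.nodup_cons, List.mem_cons, he] at h1
    simp at h1
  have hN1 : ∀ c s, Occ P c s → c ≠ y1 ∧ c ≠ y2 := by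
    rintro c s ⟨q, hq, rfl, -⟩
    refine ⟨?_, ?_⟩
    · exact hw1.ne_crossing (p := ⟨y1, true, s0⟩) (by simp [ph]) (by simp [ph, Pass.mate]) hq
    · exact hw1.ne_crossing (p := ⟨y2, true, !s0⟩) (by simp [ph]) (by simp [ph, Pass.mate]) hq
  have hM := matching_iff.1 h.mat
  simp only [hocc] at hM
  obtain ⟨N, hNd⟩ : ∃ N : ℕ → Prop, N = fun c => ∃ s, Occ P c s := ⟨_, rfl⟩
  have hNm : Nm m y1 y2 N := by
    refine ⟨hne, ?_, ?_, ?_⟩
    · rw [hNd]; rintro c ⟨s, hc⟩; exact hN1 c s hc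
    · intro c hc
      rw [hNd] at hc ⊢
      have : ∃ s, Occ P c s ∨ (c = y1 ∧ s = s0) ∨ (c = y2 ∧ s = !s0) := by
        rcases hc with ⟨s, hc⟩ | hc | hc
        · exact ⟨s, Or.inl hc⟩
        · exact ⟨s0, Or.inr (Or.inl ⟨hc, rfl⟩)⟩
        · exact ⟨!s0, Or.inr (Or.inr ⟨hc, rfl⟩)⟩
      obtain ⟨s, hs⟩ := this
      obtain ⟨s', h1, -⟩ := hM c s hs
      rcases h1 with h1 | ⟨h1, -⟩ | ⟨h1, -⟩
      · exact Or.inl ⟨s', h1⟩
      · exact Or.inr (Or.inl h1)
      · exact Or.inr (Or.inr h1)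
    · intro c hc
      rw [hNd] at hc
      have : ∃ s, Occ P c s ∨ (c = y1 ∧ s = s0) ∨ (c = y2 ∧ s = !s0) := by
        rcases hc with ⟨s, hc⟩ | hc | hc
        · exact ⟨s, Or.inl hc⟩
        · exact ⟨s0, Or.inr (Or.inl ⟨hc, rfl⟩)⟩
        · exact ⟨!s0, Or.inr (Or.inr ⟨hc, rfl⟩)⟩
      obtain ⟨s, hs⟩ := this
      obtain ⟨s', -, h1, -⟩ := hM c s hs
      exact h1
  -- signs of the neighbours
  have hs1 : m y1 ≠ y1 → m y1 ≠ y2 → Occ P (m y1) (!s0) := by
    intro h1 h2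
    obtain ⟨s', h3, -, h4⟩ := hM y1 s0 (Or.inr (Or.inl ⟨rfl, rfl⟩))
    rw [← h4 h1]
    rcases h3 with h3 | ⟨h3, -⟩ | ⟨h3, -⟩
    · exact h3
    · exact absurd h3 h1
    · exact absurd h3 h2
  have hs2 : m y2 ≠ y1 → m y2 ≠ y2 → Occ P (m y2) s0 := by
    intro h1 h2
    obtain ⟨s', h3, -, h4⟩ := hM y2 (!s0) (Or.inr (Or.inr ⟨rfl, rfl⟩))
    have h5 := h4 h2
    rw [Bool.not_not] at h5
    rw [← h5]
    rcases h3 with h3 | ⟨h3, -⟩ | ⟨h3, -⟩
    · exact h3
    · exact absurd h3 h1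
    · exact absurd h3 h2
  have huniq : ∀ {c s s'}, Occ P c s → Occ P c s' → s = s' := fun h1 h2 =>
    Pool.Agent.Y968.TP.occ_unique hw2 h1 h2
  have hmat : Matching P (mm m y1 y2) := by
    rw [matching_iff]
    intro c s hc
    have hNc : N c := by rw [hNd]; exact ⟨s, hc⟩
    obtain ⟨s', h1, h2, h3⟩ := hM c s (Or.inl hc)
    rcases hNm.cases hNc with ⟨k1, k2, k3, k4⟩ | ⟨k1, k2, k3, k4, k5, k6⟩ | ⟨k1, k2, k3, k4⟩ |
      ⟨k1, k2, k3, k4, k5, k6⟩ | ⟨k1, k2, k3, k4⟩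
    · rw [k4]
      exact ⟨s, hc, k4, fun h => absurd rfl h⟩
    · rw [k5]
      have e1 : m y1 ≠ y1 := by rw [k2]; exact (hN1 c s hc).1
      have e2 : m y1 ≠ y2 := by rw [k2]; exact (hN1 c s hc).2
      have e3 := hs1 e1 e2
      rw [k2] at e3
      refine ⟨s0, hs2 k3 k4, ?_, fun _ => ?_⟩
      · unfold mm
        rw [hNm.m2, if_neg hne.symm, if_pos rfl, if_neg e1, k2]
      · rw [huniq hc e3, Bool.not_not]
    · rw [k4]
      exact ⟨s, hc, k4, fun h => absurd rfl h⟩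
    · rw [k5]
      have e1 : m y2 ≠ y1 := by rw [k2]; exact (hN1 c s hc).1
      have e2 : m y2 ≠ y2 := by rw [k2]; exact (hN1 c s hc).2
      have e3 := hs2 e1 e2
      rw [k2] at e3
      refine ⟨!s0, hs1 k3 k4, ?_, fun _ => ?_⟩
      · unfold mm
        rw [hNm.m1, if_pos rfl, if_neg e2, k2]
      · rw [huniq hc e3]
    · rw [k3]
      refine ⟨s', ?_, ?_, h3⟩
      · rcases h1 with h1 | ⟨h1, -⟩ | ⟨h1, -⟩
        · exact h1
        · exact absurd h1 k1
        · exact absurd h1 k2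
      · have hi := hNm.inv c (Or.inl hNc)
        rw [mm_eq' (by rw [hi]; exact (hN1 c s hc).1) (by rw [hi]; exact (hN1 c s hc).2), hi]
  have htr : Tr (fun c => c = y1 ∨ c = y2) (fun c => ∃ q ∈ P, q.crossing = c) m
      (mm m y1 y2) := by
    intro c hc
    have hNc : N c := by
      obtain ⟨q, hq, rfl⟩ := hc
      rw [hNd]; exact ⟨q.isPos, q, hq, rfl, rfl⟩
    rcases hNm.cases hNc with ⟨k1, k2, k3, k4⟩ | ⟨k1, k2, k3, k4, k5, k6⟩ | ⟨k1, k2, k3, k4⟩ |
      ⟨k1, k2, k3, k4, k5, k6⟩ | ⟨k1, k2, k3, k4⟩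
    · exact Or.inr ⟨Or.inl k1, Or.inl k4⟩
    · exact Or.inr ⟨Or.inl k1, Or.inr ⟨y2, Or.inr rfl, k5⟩⟩
    · exact Or.inr ⟨Or.inr k1, Or.inl k4⟩
    · exact Or.inr ⟨Or.inr k1, Or.inr ⟨y1, Or.inl rfl, k5⟩⟩
    · exact Or.inl k3
  refine ⟨by rw [← hP]; exact hw2, ⟨by rw [← hP]; exact hmat, ?_,
    fun x hx => h.col x (by simp [hx]), ?_⟩, by simp only; rw [← hP]; exact htr⟩
  · rw [← hP]
    intro p hp
    have hc : Occ P p.crossing p.isPos := ⟨p, hp, rfl, rfl⟩
    have hNc : N p.crossing := by rw [hNd]; exact ⟨_, hc⟩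
    have hcmp := h.cm p (hperm.symm.subset (List.mem_append_right _ hp))
    have hy1 := h.cm ⟨y1, true, s0⟩ (hperm.symm.subset (List.mem_append_left _ (by simp [ph])))
    have hy2 := h.cm ⟨y2, true, !s0⟩ (hperm.symm.subset (List.mem_append_left _ (by simp [ph])))
    have hy := h.col (y1, y2, s0) (by simp)
    simp only at hy1 hy2 hy
    rcases hNm.cases hNc with ⟨k1, k2, k3, k4⟩ | ⟨k1, k2, k3, k4, k5, k6⟩ | ⟨k1, k2, k3, k4⟩ |
      ⟨k1, k2, k3, k4, k5, k6⟩ | ⟨k1, k2, k3, k4⟩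
    · rw [k4]
      refine ⟨rfl, fun h1 => ?_⟩
      rw [k1] at hcmp
      rw [← hcmp.1, hy] at h1
      exact absurd k3 (hy2.2 h1)
    · rw [k5]
      rw [k1] at hcmp
      exact ⟨by rw [hy2.1, ← hy, hcmp.1], fun _ => k6⟩
    · rw [k4]
      refine ⟨rfl, fun h1 => ?_⟩
      rw [k1] at hcmp
      rw [← hcmp.1, ← hy] at h1
      exact absurd k3 (hy1.2 h1)
    · rw [k5]
      rw [k1] at hcmp
      exact ⟨by rw [hy1.1, hy, hcmp.1], fun _ => k6⟩
    · rw [k3]; exact hcmp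
  · intro G _ o u hv hco hcu b
    rw [← hP] at hv
    have hNp : ∀ q ∈ P, N q.crossing := fun q hq => by rw [hNd]; exact ⟨q.isPos, q, hq, rfl, rfl⟩
    have hNq : ∀ c, N c → ∃ q ∈ P, q.crossing = c := by
      intro c hc; rw [hNd] at hc; obtain ⟨s, q, hq, h1, -⟩ := hc; exact ⟨q, hq, h1⟩
    have hval : Valid (passes E ++ PH ((y1, y2, s0) :: L)) m (ex m y1 y2 o) (ex m y1 y2 u) := by
      intro p hp
      have hc : N p.crossing ∨ p.crossing = y1 ∨ p.crossing = y2 := by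
        rcases List.mem_append.1 (hperm.subset hp) with h1 | h1
        · right
          simp only [ph, List.mem_cons, List.not_mem_nil, or_false] at h1
          rcases h1 with rfl | rfl | rfl | rfl <;> simp
        · exact Or.inl (hNp p h1)
      refine ⟨fun h1 => hNm.ex_eq (fun d hd h2 => ?_) hc h1,
        fun h1 => ⟨hNm.ex_ne (fun d hd h2 => ?_) hc h1, hNm.ex_ne (fun d hd h2 => ?_) hc h1⟩⟩
      · obtain ⟨q, hq, rfl⟩ := hNq d hd
        exact (hv q hq).1 h2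
      · obtain ⟨q, hq, rfl⟩ := hNq d hd
        exact ((hv q hq).2 h2).1
      · obtain ⟨q, hq, rfl⟩ := hNq d hd
        exact ((hv q hq).2 h2).2
    have hmemL : ∀ x ∈ L, N x.1 ∧ N x.2.1 := by
      intro x hx
      have h1 : ∀ q ∈ ph x, q ∈ P := fun q hq => by
        rw [hP]; exact List.mem_append_right _ (mem_PH hx hq)
      exact ⟨hNp ⟨x.1, true, x.2.2⟩ (h1 _ (by simp [ph])),
        hNp ⟨x.2.1, true, !x.2.2⟩ (h1 _ (by simp [ph]))⟩
    have hcon : ∀ f : ℕ → G, Con L f → Con ((y1, y2, s0) :: L) (ex m y1 y2 f) := by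
      intro f hf x hx
      rcases List.mem_cons.1 hx with rfl | hx
      · simp only
        rw [ex1', hNm.ex2]
      · obtain ⟨h1, h2⟩ := hmemL x hx
        rw [hNm.ex_of h1, hNm.ex_of h2]
        exact hf x hx
    have h1 := h.nul G _ _ hval (hcon o hco) (hcon u hcu) b
    have e : vals (ex m y1 y2 o) (ex m y1 y2 u) E = vals o u E := by
      unfold vals
      refine List.map_congr_left fun C hC => ?_
      simp only [Prod.mk.injEq, and_true]
      unfold wval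
      congr 1
      refine List.map_congr_left fun q hq => ?_
      have hq' : N q.crossing := hNp q (by
        rw [hP]; exact List.mem_append_left _ (mem_passes.2 ⟨C, hC, hq⟩))
      unfold val
      rw [hNm.ex_of hq', hNm.ex_of hq']
    rw [e] at h1
    exact h1


/-- the names of the unattached crossings -/
def NL (L : List (ℕ × ℕ × Bool)) (c : ℕ) : Prop := ∃ x ∈ L, c = x.1 ∨ c = x.2.1

theorem elim' {E : Code} {L : List (ℕ × ℕ × Bool)} {m : ℕ → ℕ}
    (hw : WF (passes E ++ PH L)) (h : InvX E L m) : WF (passes E) ∧ ∃ m', InvM E m' ∧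
      Tr (NL L) (fun c => ∃ q ∈ passes E, q.crossing = c) m m' := by
  induction L generalizing m with
  | nil =>
    have e : passes E ++ PH [] = passes E := by simp [PH]
    refine ⟨by rw [← e]; exact hw, m, ⟨by rw [← e]; exact h.mat, by rw [← e]; exact h.cm, ?_⟩,
      fun c _ => Or.inl rfl⟩
    intro G _ o u hv
    exact h.nul G o u (by rw [e]; exact hv) (fun x hx => absurd hx (by simp))
      (fun x hx => absurd hx (by simp))
  | cons x L ih =>
    obtain ⟨h1, h2, h3⟩ := elim_mm hw h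
    obtain ⟨k1, m', k2, k3⟩ := ih h1 h2
    refine ⟨k1, m', k2, fun c hc => ?_⟩
    obtain ⟨q, hq, hqc⟩ := hc
    have hm' : ∀ y, NL L y → m' c ≠ y := by
      rintro y ⟨x', hx', hy⟩ he
      -- the new matching stays in `E`
      obtain ⟨q', hq', e1, -⟩ := k2.1 q hq
      rw [hqc, he] at e1
      have hw2 : WF (PH L ++ passes E) := WF.perm List.perm_append_comm h1
      have hmem : ∀ l, (⟨x'.1, l, x'.2.2⟩ : Pass) ∈ PH L ∧ (⟨x'.2.1, l, !x'.2.2⟩ : Pass) ∈ PH L := by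
        intro l
        constructor
        · refine mem_PH hx' ?_
          cases l <;> simp [ph]
        · refine mem_PH hx' ?_
          cases l <;> simp [ph]
      rcases hy with hy | hy
      · exact hw2.ne_crossing (hmem true).1 (hmem false).1 hq' (e1.trans hy)
      · exact hw2.ne_crossing (hmem true).2 (hmem false).2 hq' (e1.trans hy)
    have t1 := k3 c ⟨q, hq, hqc⟩
    have t2 := h3 c ⟨q, List.mem_append_left _ hq, hqc⟩
    have inL : ∀ y, NL L y → ∃ q ∈ passes E ++ PH L, q.crossing = y := by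
      rintro y ⟨x', hx', hy⟩
      rcases hy with rfl | rfl
      · exact ⟨⟨x'.1, true, x'.2.2⟩, List.mem_append_right _ (mem_PH hx' (by simp [ph])), rfl⟩
      · exact ⟨⟨x'.2.1, true, !x'.2.2⟩, List.mem_append_right _ (mem_PH hx' (by simp [ph])), rfl⟩
    have up1 : ∀ y, (y = x.1 ∨ y = x.2.1) → NL (x :: L) y := fun y hy => ⟨x, by simp, hy⟩
    have up2 : ∀ y, NL L y → NL (x :: L) y := by
      rintro y ⟨x', hx', hy⟩
      exact ⟨x', by simp [hx'], hy⟩
    rcases t1 with t1 | ⟨t1, t3 | ⟨y, t3, t4⟩⟩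
    · rw [t1]
      rcases t2 with t2 | ⟨t2, t5 | ⟨y, t5, t6⟩⟩
      · exact Or.inl t2
      · exact Or.inr ⟨up1 _ t2, Or.inl t5⟩
      · exact Or.inr ⟨up1 _ t2, Or.inr ⟨y, up1 _ t5, t6⟩⟩
    · right
      refine ⟨?_, Or.inl t3⟩
      rcases t2 with t2 | ⟨t2, -⟩
      · rw [← t2]; exact up2 _ t1
      · exact up1 _ t2
    · right
      refine ⟨?_, ?_⟩
      · rcases t2 with t2 | ⟨t2, -⟩
        · rw [← t2]; exact up2 _ t1
        · exact up1 _ t2
      · rcases h3 y (inL y t3) with t5 | ⟨t5, t6 | ⟨y', t6, t7⟩⟩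
        · exact Or.inr ⟨y, up2 _ t3, t4.trans t5⟩
        · exact absurd (t4.trans t6) (hm' y t3)
        · exact Or.inr ⟨y', up1 _ t6, t4.trans t7⟩

end Pool.Agent.V11206
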