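import Pool.Agent.V11206.Face

/-! Words over matched letters: the Euler characteristic. -/

set_option autoImplicit false

namespace Pool.Agent.V11206

variable {α : Type}

/-- a path of corners; the corner starting at `p` has weight `ω p` -/
inductive PT (μ : α → α) (Co : α → α → Prop) (ω : α → ℕ) : ℕ → α → α → Prop
  | one {p q : α} (h : Co p q) : PT μ Co ω (ω p) p q
  | comp {w w' : ℕ} {p y s : α} (h : PT μ Co ω w p y) (h' : PT μ Co ω w' (μ y) s) :
      PT μ Co ω (w + w') p s

variable {μ : α → α} {Co : α → α → Prop} {ω : α → ℕ}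

/-- a word with paths of corners between its letters -/
inductive PW (μ : α → α) (Co : α → α → Prop) (ω : α → ℕ) : ℕ → List α → Prop
  | single (p : α) : PW μ Co ω 0 [p]
  | cons {w w' : ℕ} {p q : α} {l : List α} (h : PT μ Co ω w p q)
      (h' : PW μ Co ω w' (q :: l)) : PW μ Co ω (w + w') (p :: q :: l)

theorem PW.split {u v : List α} {d : α} {w : ℕ} (h : PW μ Co ω w (u ++ d :: v)) :
    ∃ w₁ w₂, w₁ + w₂ = w ∧ PW μ Co ω w₁ (u ++ [d]) ∧ PW μ Co ω w₂ (d :: v) := by
  induction u generalizing w with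
  | nil => exact ⟨0, w, by simp, .single d, h⟩
  | cons a u ih =>
    cases u with
    | nil =>
      cases h with
      | cons h h' => exact ⟨_, _, rfl, by simpa using PW.cons h (.single d), h'⟩
    | cons b u =>
      cases h with
      | cons h h' =>
        obtain ⟨w₁, w₂, e, k1, k2⟩ := ih h'
        exact ⟨_ + w₁, w₂, by omega, PW.cons h k1, k2⟩

theorem PW.join {u v : List α} {d : α} {w₁ w₂ : ℕ} (h1 : PW μ Co ω w₁ (u ++ [d]))
    (h2 : PW μ Co ω w₂ (d :: v)) : PW μ Co ω (w₁ + w₂) (u ++ d :: v) := by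
  induction u generalizing w₁ with
  | nil =>
    cases h1 with
    | single => simpa using h2
  | cons a u ih =>
    cases u with
    | nil =>
      cases h1 with
      | cons h h' =>
        cases h' with
        | single => simpa using PW.cons h h2
    | cons b u =>
      cases h1 with
      | @cons w w' _ _ _ h h' =>
        have := PW.cons h (ih h')
        rwa [← Nat.add_assoc] at this

theorem PW.snoc {u : List α} {d r : α} {w k : ℕ} (h : PW μ Co ω w (u ++ [d]))
    (hd : ∀ e w₀, PT μ Co ω w₀ e d → PT μ Co ω (w₀ + k) e r) :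
    ∃ w', w' ≤ w + k ∧ PW μ Co ω w' (u ++ [r]) := by
  rcases List.eq_nil_or_concat u with rfl | ⟨u, e, rfl⟩
  · exact ⟨0, by omega, .single r⟩
  · simp only [List.concat_eq_append, List.append_assoc, List.singleton_append] at h ⊢
    obtain ⟨w₁, w₂, rfl, k1, k2⟩ := h.split
    cases k2 with
    | @cons w₃ w₄ _ _ _ g g' =>
      cases g' with
      | single => exact ⟨w₁ + (w₃ + k + 0), by omega, k1.join (.cons (hd _ _ g) (.single r))⟩

theorem PW.hd {v : List α} {d r : α} {w k : ℕ} (h : PW μ Co ω w (d :: v))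
    (hd : ∀ f w₀, PT μ Co ω w₀ d f → PT μ Co ω (k + w₀) r f) :
    ∃ w', w' ≤ w + k ∧ PW μ Co ω w' (r :: v) := by
  cases h with
  | single => exact ⟨0, by omega, .single r⟩
  | cons h h' => exact ⟨_, le_of_eq (by omega), .cons (hd _ _ h) h'⟩

/-- a cyclic word with paths of corners between its letters -/
def PC (μ : α → α) (Co : α → α → Prop) (ω : α → ℕ) (w : ℕ) (l : List α) : Prop :=
  ∃ a v, l = a :: v ∧ PW μ Co ω w (a :: (v ++ [a]))

theorem PC.rot {u v : List α} {w : ℕ} (h : PC μ Co ω w (u ++ v)) : PC μ Co ω w (v ++ u) := by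
  rcases u with _ | ⟨a, u⟩
  · simpa using h
  rcases v with _ | ⟨b, v⟩
  · simpa using h
  obtain ⟨a', v', e, h⟩ := h
  simp only [List.cons_append, List.cons.injEq] at e
  obtain ⟨rfl, rfl⟩ := e
  have h1 : PW μ Co ω w ((a :: u) ++ b :: (v ++ [a])) := by
    have e : (a :: u) ++ b :: (v ++ [a]) = a :: (u ++ b :: v ++ [a]) := by simp
    rw [e]; exact h
  obtain ⟨w₁, w₂, rfl, k1, k2⟩ := h1.split
  refine ⟨b, v ++ a :: u, by simp, ?_⟩
  have k3 : PW μ Co ω w₂ ((b :: v) ++ [a]) := by simpa using k2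
  have k4 : PW μ Co ω w₁ (a :: (u ++ [b])) := by simpa using k1
  have k5 := k3.join k4
  rw [Nat.add_comm] at k5
  have e : b :: (v ++ a :: u ++ [b]) = b :: v ++ a :: (u ++ [b]) := by simp
  rw [e]; exact k5

theorem PC.subst {v : List α} {x r1 r2 r3 d : α} {w : ℕ} (h : PC μ Co ω w (d :: v))
    (hd : μ d = x) (hx : μ x = d) (c0 : Co x r1) (c1 : Co r1 r2) (c2 : Co r2 r3) (c3 : Co r3 x) :
    ∃ w', w' ≤ w + (ω x + ω r1 + ω r2 + ω r3) ∧ PC μ Co ω w' (r1 :: r2 :: r3 :: v) := by
  obtain ⟨a, v', e, h⟩ := h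
  simp only [List.cons.injEq] at e
  obtain ⟨rfl, rfl⟩ := e
  obtain ⟨w₁, e1, k1⟩ := h.hd (r := r3) (k := ω r3) fun f w₀ hf =>
    PT.comp (PT.one c3) (by rw [hx]; exact hf)
  have k2 : PW μ Co ω w₁ ((r3 :: v) ++ [d]) := by simpa using k1
  obtain ⟨w₂, e2, k3⟩ := k2.snoc (r := r1) (k := ω x) fun e w₀ he =>
    PT.comp he (by rw [hd]; exact PT.one c0)
  have k4 : PW μ Co ω (ω r1 + (ω r2 + w₂)) (r1 :: (r2 :: r3 :: v ++ [r1])) :=
    PW.cons (PT.one c1) (PW.cons (PT.one c2) (by simpa using k3))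
  exact ⟨_, by omega, r1, r2 :: r3 :: v, rfl, k4⟩

theorem PC.cancel {v : List α} {p c : α} {w : ℕ} (h : PC μ Co ω w (p :: μ p :: c :: v))
    (h4 : ∀ w, PT μ Co ω w p (μ p) → 4 ≤ w) : ∃ w', w' + 4 ≤ w ∧ PC μ Co ω w' (c :: v) := by
  obtain ⟨a, v', e, h⟩ := h
  simp only [List.cons.injEq] at e
  obtain ⟨rfl, rfl⟩ := e
  simp only [List.cons_append] at h
  cases h with
  | @cons w₀ w₃ _ _ _ g g' =>
    cases g' with
    | @cons w₄ w₅ _ _ _ j j' =>
      have k2 : PW μ Co ω w₅ ((c :: v) ++ [p]) := by simpa using j'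
      obtain ⟨w₂, e2, k3⟩ := k2.snoc (r := c) (k := w₄) fun e w₀ he => PT.comp he j
      have := h4 _ g
      exact ⟨w₂, by omega, c, v, rfl, by simpa using k3⟩

theorem PC.two {p : α} {w : ℕ} (h : PC μ Co ω w [p, μ p]) (hp : μ (μ p) = p)
    (h4 : ∀ p w, PT μ Co ω w p (μ p) → 4 ≤ w) : 8 ≤ w := by
  obtain ⟨a, v', e, h⟩ := h
  simp only [List.cons.injEq] at e
  obtain ⟨rfl, rfl⟩ := e
  simp only [List.cons_append, List.nil_append] at h
  cases h with
  | @cons w₀ w₃ _ _ _ g g' =>
    cases g' with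
    | @cons w₄ w₅ _ _ _ j j' =>
      have h1 := h4 _ _ g
      have h2 := h4 (μ p) w₄ (by rw [hp]; exact j)
      omega

/-- the values of the words are trivial -/
def Nl (μ : α → α) (S : List α) (W : List α) (R : List (List α)) : Prop :=
  ∀ (G : Type) [Group G] (f : α → G), (∀ p ∈ S, f (μ p) = (f p)⁻¹) →
    (∀ V ∈ R, (V.map f).prod = 1) → (W.map f).prod = 1

theorem Nl.rot {S u v : List α} {R : List (List α)} (h : Nl μ S (u ++ v) R) : Nl μ S (v ++ u) R := by
  intro G _ f hf hR
  have h1 := h G f hf hR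
  rw [List.map_append, List.prod_append] at h1 ⊢
  rw [mul_eq_one_iff_eq_inv] at h1
  rw [h1, mul_inv_cancel]

/-- a word with four corners -/
def Four (Co : α → α → Prop) (W : List α) : Prop :=
  ∃ x0 x1 x2 x3, W = [x0, x1, x2, x3] ∧ Co x0 x1 ∧ Co x1 x2 ∧ Co x2 x3 ∧ Co x3 x0

/-- a system of words -/
structure Sys (μ : α → α) (Co : α → α → Prop) (ω : α → ℕ) (S : List α) (L R : List (List α)) :
    Prop where
  nd : (L.flatten ++ R.flatten).Nodup
  sub : ∀ p ∈ L.flatten ++ R.flatten, p ∈ S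
  four : ∀ W ∈ R, Four Co W
  n1 : ∀ W ∈ L, Nl μ S W R
  n2 : ∀ R₁ W R₂, R = R₁ ++ W :: R₂ → Nl μ S W (L ++ (R₁ ++ R₂))

theorem nl_perm {S W : List α} {R R' : List (List α)} (h : ∀ V ∈ R, V ∈ R') (hn : Nl μ S W R) :
    Nl μ S W R' := fun G _ f hf hR => hn G f hf fun V hV => hR V (h V hV)

/-- the word is rotated -/
theorem Sys.rot {S u v : List α} {L R : List (List α)} (h : Sys μ Co ω S ((u ++ v) :: L) R) :
    Sys μ Co ω S ((v ++ u) :: L) R := by
  have hp : ((v ++ u) :: L).flatten.Perm ((u ++ v) :: L).flatten := by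
    simp only [List.flatten_cons]
    exact List.Perm.append_right _ List.perm_append_comm
  refine ⟨?_, ?_, h.four, ?_, ?_⟩
  · exact (hp.append_right _).nodup_iff.2 h.nd
  · exact fun p hpp => h.sub p ((hp.append_right _).mem_iff.1 hpp)
  · intro W hW
    rcases List.mem_cons.1 hW with rfl | hW
    · exact (h.n1 (u ++ v) (by simp)).rot
    · exact h.n1 W (by simp [hW])
  · intro R₁ W R₂ e G _ f hf hR
    refine h.n2 R₁ W R₂ e G f hf fun V hV => ?_
    simp only [List.cons_append, List.mem_cons] at hV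
    rcases hV with rfl | hV
    · have h1 := hR (v ++ u) (by simp)
      rw [List.map_append, List.prod_append] at h1 ⊢
      rw [mul_eq_one_iff_eq_inv] at h1
      rw [h1, mul_inv_cancel]
    · exact hR V (by simp only [List.cons_append, List.mem_cons]; exact Or.inr hV)


theorem rotF {W : List α} {x : α} (hx : x ∈ W) (hW : Four Co W) : ∃ r1 r2 r3,
    W.Perm [x, r1, r2, r3] ∧ Co x r1 ∧ Co r1 r2 ∧ Co r2 r3 ∧ Co r3 x ∧
    (W.map ω).sum = ω x + ω r1 + ω r2 + ω r3 ∧
    ∀ (G : Type) [Group G] (f : α → G), f x * f r1 * f r2 * f r3 = 1 → (W.map f).prod = 1 := by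
  obtain ⟨x0, x1, x2, x3, rfl, a0, a1, a2, a3⟩ := hW
  have key : ∀ {G : Type} [Group G] {a b c d : G}, a * b * c * d = 1 → b * c * d * a = 1 := by
    intro G _ a b c d h
    have : b * c * d * a = a⁻¹ * (a * b * c * d) * a := by group
    rw [this, h]; simp
  have pr : ∀ {G : Type} [Group G] (f : α → G),
      (([x0, x1, x2, x3] : List α).map f).prod = f x0 * f x1 * f x2 * f x3 := by
    intro G _ f
    simp [mul_assoc]
  have sm : (([x0, x1, x2, x3] : List α).map ω).sum = ω x0 + ω x1 + ω x2 + ω x3 := by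
    simp; omega
  obtain ⟨r1, r2, r3, h⟩ := rot4 hx
  refine ⟨r1, r2, r3, ?_⟩
  rcases h with ⟨rfl, rfl, rfl, rfl⟩ | ⟨rfl, rfl, rfl, rfl⟩ | ⟨rfl, rfl, rfl, rfl⟩ |
    ⟨rfl, rfl, rfl, rfl⟩
  · exact ⟨.refl _, a0, a1, a2, a3, sm, fun G _ f h => by rw [pr]; exact h⟩
  · exact ⟨(List.perm_append_comm (l₁ := [r3]) (l₂ := [x, r1, r2])), a1, a2, a3, a0, by omega,
      fun G _ f h => by rw [pr]; exact key (key (key h))⟩
  · exact ⟨(List.perm_append_comm (l₁ := [r2, r3]) (l₂ := [x, r1])), a2, a3, a0, a1, by omega,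
      fun G _ f h => by rw [pr]; exact key (key h)⟩
  · exact ⟨(List.perm_append_comm (l₁ := [r1, r2, r3]) (l₂ := [x])), a3, a0, a1, a2, by omega,
      fun G _ f h => by rw [pr]; exact key h⟩

theorem pc_four {W : List α} (hW : Four Co W) : PC μ Co ω (W.map ω).sum W := by
  obtain ⟨x0, x1, x2, x3, rfl, a0, a1, a2, a3⟩ := hW
  have h : PW μ Co ω (ω x0 + (ω x1 + (ω x2 + (ω x3 + 0)))) (x0 :: ([x1, x2, x3] ++ [x0])) :=
    .cons (.one a0) (.cons (.one a1) (.cons (.one a2) (.cons (.one a3) (.single x0))))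
  refine ⟨x0, [x1, x2, x3], rfl, ?_⟩
  have e : (([x0, x1, x2, x3] : List α).map ω).sum = ω x0 + (ω x1 + (ω x2 + (ω x3 + 0))) := by simp
  rw [e]; exact h

theorem ext_val {S : List α} (hinv : ∀ p ∈ S, μ p ∈ S ∧ μ (μ p) = p ∧ μ p ≠ p) {d : α}
    (hd : d ∈ S) {G : Type} [Group G] (f : α → G) (hf : ∀ p ∈ S, f (μ p) = (f p)⁻¹) (g : G) :
    ∃ f' : α → G, (∀ p ∈ S, f' (μ p) = (f' p)⁻¹) ∧ (∀ y, y ≠ d → y ≠ μ d → f' y = f y) ∧
      f' d = g ∧ f' (μ d) = g⁻¹ := by
  classical
  obtain ⟨hxS, hxd, hxne⟩ := hinv d hd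
  have fo : ∀ y, y ≠ d → y ≠ μ d →
      (fun y => if y = d then g else if y = μ d then g⁻¹ else f y) y = f y := fun y h1 h2 => by
    simp [h1, h2]
  refine ⟨fun y => if y = d then g else if y = μ d then g⁻¹ else f y, ?_, fo, by simp, by simp [hxne]⟩
  intro p hp
  by_cases h2 : p = d
  · subst h2; simp [hxne]
  · by_cases h3 : p = μ d
    · subst h3
      simp only [hxd, if_true, if_neg hxne, inv_inv]
    · rw [fo p h2 h3, fo (μ p) ?_ ?_, hf p hp]
      · intro h4; exact h3 (by rw [← h4, (hinv p hp).2.1])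
      · intro h4; exact h2 (by rw [← (hinv p hp).2.1, h4, hxd])

theorem prod_congr' {G : Type} [Group G] {f f' : α → G} {W : List α} (h : ∀ y ∈ W, f' y = f y) :
    (W.map f').prod = (W.map f).prod := by
  congr 1
  exact List.map_congr_left h

/-- a letter and its partner are adjacent in a trivial word -/
theorem adj_of_nl {S l : List α} {R : List (List α)}
    (hinv : ∀ p ∈ S, μ p ∈ S ∧ μ (μ p) = p ∧ μ p ≠ p) (hnd : (l ++ R.flatten).Nodup)
    (hS : ∀ p ∈ l ++ R.flatten, p ∈ S) (hne : l ≠ []) (hA : ∀ d ∈ l, μ d ∉ R.flatten)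
    (hnull : Nl μ S l R) : ∃ u p v, l = u ++ p :: μ p :: v := by
  classical
  set rep : α → Prop := fun y => S.idxOf y < S.idxOf (μ y) with hrep
  have hrep1 : ∀ y ∈ S, ¬rep y → rep (μ y) := by
    intro y hy h
    obtain ⟨h1, h2, h3⟩ := hinv y hy
    simp only [hrep, h2, not_lt] at h ⊢
    refine lt_of_le_of_ne h fun h4 => h3 ?_
    exact (List.idxOf_inj h1).1 h4
  have hrep2 : ∀ y ∈ S, rep y → ¬rep (μ y) := by
    intro y hy h
    obtain ⟨h1, h2, h3⟩ := hinv y hy
    simp only [hrep, h2, not_lt] at h ⊢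
    exact le_of_lt h
  have hkey : FreeGroup.mk (l.map (fl μ rep)) = 1 := by
    have h1 := hnull (FreeGroup α)
      (fun y => if y ∈ l ∨ μ y ∈ l then FreeGroup.mk [fl μ rep y] else 1) ?_ ?_
    · rw [mk_prod, List.map_map, ← h1]
      congr 1
      refine List.map_congr_left fun y hy => ?_
      simp [hy]
    · intro p hp
      obtain ⟨h1, h2, h3⟩ := hinv p hp
      simp only [h2]
      by_cases h4 : p ∈ l ∨ μ p ∈ l
      · rw [if_pos h4, if_pos (Or.symm h4)]
        unfold fl
        by_cases h5 : rep p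
        · have h6 := hrep2 p hp h5
          rw [if_pos h5, if_neg h6, h2]
          rfl
        · have h6 := hrep1 p hp h5
          rw [if_neg h5, if_pos h6]
          rfl
      · rw [if_neg h4, if_neg (fun h => h4 (Or.symm h))]
        simp
    · intro W hW
      refine List.prod_eq_one fun g hg => ?_
      obtain ⟨y, hy, rfl⟩ := List.mem_map.1 hg
      have hyR : y ∈ R.flatten := List.mem_flatten.2 ⟨W, hW, hy⟩
      rw [if_neg]
      rintro (h1 | h1)
      · exact (List.nodup_append.1 hnd).2.2 y h1 y hyR rfl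
      · refine hA (μ y) h1 ?_
        rw [(hinv y (hS y (by simp only [List.mem_append]; exact Or.inr hyR))).2.1]
        exact hyR
  obtain ⟨u', v', a, b, e, ha, hb⟩ := exists_adj hkey (by simpa using hne)
  obtain ⟨u, t, rfl, rfl, e2⟩ := List.map_eq_append_iff.1 e
  obtain ⟨p, t', rfl, rfl, e3⟩ := List.map_eq_cons_iff.1 e2
  obtain ⟨q, v, rfl, rfl, rfl⟩ := List.map_eq_cons_iff.1 e3
  have hpS : p ∈ S := hS p (by simp)
  have hqS : q ∈ S := hS q (by simp)
  have hq : q = μ p := by
    unfold fl at ha hb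
    split_ifs at ha hb with h1 h2 h2
    · exact absurd rfl hb
    · have ha : p = μ q := ha
      rw [ha, (hinv q hqS).2.1]
    · exact ha.symm
    · exact absurd rfl hb
  subst hq
  exact ⟨u, p, v, rfl⟩

/-- the first word absorbs a word -/
theorem Sys.absorb {S v : List α} {B R₁ R₂ : List (List α)} {W : List α} {d r1 r2 r3 : α}
    (hinv : ∀ p ∈ S, μ p ∈ S ∧ μ (μ p) = p ∧ μ p ≠ p)
    (h : Sys μ Co ω S ((d :: v) :: B) (R₁ ++ W :: R₂)) (hp : W.Perm [μ d, r1, r2, r3])
    (hpr : ∀ (G : Type) [Group G] (f : α → G), f (μ d) * f r1 * f r2 * f r3 = 1 →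
      (W.map f).prod = 1) : Sys μ Co ω S ((r1 :: r2 :: r3 :: v) :: B) (R₁ ++ R₂) := by
  classical
  have hperm : (((d :: v) :: B).flatten ++ (R₁ ++ W :: R₂).flatten).Perm
      (d :: μ d :: (((r1 :: r2 :: r3 :: v) :: B).flatten ++ (R₁ ++ R₂).flatten)) := by
    have h1 : (((d :: v) :: B).flatten ++ (R₁ ++ W :: R₂).flatten).Perm
        (((d :: v) :: B).flatten ++ (R₁.flatten ++ ([μ d, r1, r2, r3] ++ R₂.flatten))) := by
      simp only [List.flatten_append, List.flatten_cons]
      exact ((hp.append_right _).append_left _).append_left _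
    refine h1.trans ?_
    rw [List.perm_iff_count]
    intro a
    simp only [List.flatten_append, List.flatten_cons, List.count_append, List.count_cons,
      List.count_nil]
    omega
  have hnd := hperm.nodup_iff.1 h.nd
  have hdS : d ∈ S := h.sub d (by simp)
  obtain ⟨hxS, hxd, hxne⟩ := hinv d hdS
  rw [List.nodup_cons, List.nodup_cons] at hnd
  obtain ⟨nd1, nd2, nd3⟩ := hnd
  -- words that do not contain `d` or its partner
  have hfree : ∀ V : List α, (∀ y ∈ V, y ∈ (((r1 :: r2 :: r3 :: v) :: B).flatten ++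
      (R₁ ++ R₂).flatten)) → ∀ y ∈ V, y ≠ d ∧ y ≠ μ d := by
    intro V hV y hy
    refine ⟨?_, ?_⟩
    · intro e; exact nd1 (List.mem_cons_of_mem _ (by rw [← e]; exact hV y hy))
    · intro e; exact nd2 (by rw [← e]; exact hV y hy)
  have hmL : ∀ V ∈ ((r1 :: r2 :: r3 :: v) :: B), ∀ y ∈ V,
      y ∈ (((r1 :: r2 :: r3 :: v) :: B).flatten ++ (R₁ ++ R₂).flatten) := fun V hV y hy =>
    List.mem_append_left _ (List.mem_flatten.2 ⟨V, hV, hy⟩)
  have hmR : ∀ V ∈ (R₁ ++ R₂), ∀ y ∈ V,
      y ∈ (((r1 :: r2 :: r3 :: v) :: B).flatten ++ (R₁ ++ R₂).flatten) := fun V hV y hy =>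
    List.mem_append_right _ (List.mem_flatten.2 ⟨V, hV, hy⟩)
  have fr := hfree (r1 :: r2 :: r3 :: v) (hmL _ (by simp))
  -- extension of a valuation
  have hext : ∀ (G : Type) [Group G] (f : α → G), (∀ p ∈ S, f (μ p) = (f p)⁻¹) →
      ∃ f' : α → G, (∀ p ∈ S, f' (μ p) = (f' p)⁻¹) ∧
      (W.map f').prod = 1 ∧ ((d :: v).map f').prod = ((r1 :: r2 :: r3 :: v).map f).prod ∧
      ∀ V : List α, (∀ y ∈ V, y ∈ (((r1 :: r2 :: r3 :: v) :: B).flatten ++
        (R₁ ++ R₂).flatten)) → (V.map f').prod = (V.map f).prod := by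
    intro G _ f hf
    obtain ⟨f', e1, e2, e3, e4⟩ := ext_val hinv hdS f hf (f r1 * f r2 * f r3)
    refine ⟨f', e1, ?_, ?_, ?_⟩
    · refine hpr G f' ?_
      rw [e4, e2 r1 (fr r1 (by simp)).1 (fr r1 (by simp)).2,
        e2 r2 (fr r2 (by simp)).1 (fr r2 (by simp)).2,
        e2 r3 (fr r3 (by simp)).1 (fr r3 (by simp)).2]
      group
    · have hv : v.map f' = v.map f := List.map_congr_left fun y hy =>
        e2 y (fr y (by simp [hy])).1 (fr y (by simp [hy])).2
      rw [List.map_cons, List.prod_cons, e3, hv]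
      simp only [List.map_cons, List.prod_cons, mul_assoc]
    · intro V hV
      exact prod_congr' fun y hy => e2 y (hfree V hV y hy).1 (hfree V hV y hy).2
  refine ⟨nd3, ?_, ?_, ?_, ?_⟩
  · intro p hpp
    exact h.sub p (hperm.mem_iff.2 (by simp only [List.mem_cons]; exact Or.inr (Or.inr hpp)))
  · intro V hV
    refine h.four V ?_
    simp only [List.mem_append, List.mem_cons] at hV ⊢
    tauto
  · intro V hV G _ f hf hR
    obtain ⟨f', e1, e2, e3, e4⟩ := hext G f hf
    have hR' : ∀ V ∈ R₁ ++ W :: R₂, (V.map f').prod = 1 := by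
      intro V hV
      have hc : V ∈ R₁ ++ R₂ ∨ V = W := by
        simp only [List.mem_append, List.mem_cons] at hV ⊢
        tauto
      rcases hc with hc | rfl
      · rw [e4 V (hmR V hc)]; exact hR V hc
      · exact e2
    rcases List.mem_cons.1 hV with rfl | hVB
    · rw [← e3]
      exact h.n1 (d :: v) (by simp) G f' e1 hR'
    · rw [← e4 V (hmL V (by simp [hVB]))]
      exact h.n1 V (by simp [hVB]) G f' e1 hR'
  · intro R₁' V R₂' eR G _ f hf hR
    obtain ⟨f', e1, e2, e3, e4⟩ := hext G f hf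
    have hVm : V ∈ R₁ ++ R₂ := by rw [eR]; simp
    rw [← e4 V (hmR V hVm)]
    -- the position of `V` in the old list
    have hpos : ∃ A C, R₁ ++ W :: R₂ = A ++ V :: C ∧ ∀ X ∈ A ++ C, X ∈ R₁' ++ R₂' ∨ X = W := by
      rcases List.append_eq_append_iff.1 eR with ⟨a, h1, h2⟩ | ⟨a, h1, h2⟩
      · exact ⟨R₁ ++ W :: a, R₂', by rw [h2]; simp, by
          intro X hX
          rw [h1]
          simp only [List.mem_append, List.mem_cons] at hX ⊢
          tauto⟩
      · rcases a with _ | ⟨b, a⟩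
        · simp only [List.nil_append, List.append_nil] at h1 h2
          exact ⟨R₁ ++ [W], R₂', by rw [← h2]; simp, by
            intro X hX
            rw [← h1]
            simp only [List.mem_append, List.mem_cons, List.not_mem_nil, or_false] at hX ⊢
            tauto⟩
        · simp only [List.cons_append, List.cons.injEq] at h2
          obtain ⟨rfl, rfl⟩ := h2
          exact ⟨R₁', a ++ W :: R₂, by rw [h1]; simp, by
            intro X hX
            simp only [List.mem_append, List.mem_cons] at hX ⊢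
            tauto⟩
    obtain ⟨A, C, hAC, hX⟩ := hpos
    refine h.n2 A V C hAC G f' e1 fun X hXm => ?_
    rcases List.mem_append.1 hXm with hXL | hXR
    · rcases List.mem_cons.1 hXL with rfl | hXB
      · rw [e3]; exact hR _ (by simp)
      · rw [e4 X (hmL X (by simp [hXB]))]
        exact hR X (by simp [hXB])
    · rcases hX X hXR with h5 | rfl
      · have h6 : X ∈ R₁ ++ R₂ := by
          rw [eR]
          simp only [List.mem_append, List.mem_cons] at h5 ⊢
          tauto
        rw [e4 X (hmR X h6)]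
        exact hR X (List.mem_append_right _ h5)
      · exact e2

/-- a pair is cancelled -/
theorem Sys.cancel {S v : List α} {B R : List (List α)} {p : α}
    (h : Sys μ Co ω S ((p :: μ p :: v) :: B) R) : Sys μ Co ω S (v :: B) R := by
  have hpS : p ∈ S := h.sub p (by simp)
  have hperm : (((p :: μ p :: v) :: B).flatten ++ R.flatten).Perm
      (p :: μ p :: ((v :: B).flatten ++ R.flatten)) := by
    simp
  have hnd := hperm.nodup_iff.1 h.nd
  have hpr : ∀ (G : Type) [Group G] (f : α → G), (∀ p ∈ S, f (μ p) = (f p)⁻¹) →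
      ((p :: μ p :: v).map f).prod = (v.map f).prod := by
    intro G _ f hf
    rw [List.map_cons, List.map_cons, List.prod_cons, List.prod_cons, hf p hpS]
    group
  refine ⟨((List.nodup_cons.1 (List.nodup_cons.1 hnd).2)).2, ?_, h.four, ?_, ?_⟩
  · intro y hy
    exact h.sub y (hperm.mem_iff.2 (by simp only [List.mem_cons]; exact Or.inr (Or.inr hy)))
  · intro V hV
    rcases List.mem_cons.1 hV with rfl | hVB
    · intro G _ f hf hR
      rw [← hpr G f hf]
      exact h.n1 _ (by simp) G f hf hR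
    · exact h.n1 V (by simp [hVB])
  · intro R₁ W R₂ e G _ f hf hR
    refine h.n2 R₁ W R₂ e G f hf fun V hV => ?_
    simp only [List.cons_append, List.mem_cons] at hV
    rcases hV with rfl | hV
    · rw [hpr G f hf]; exact hR v (by simp)
    · exact hR V (by simp only [List.cons_append, List.mem_cons]; exact Or.inr hV)

/-- the empty word is removed -/
theorem Sys.nil {S : List α} {B R : List (List α)} (h : Sys μ Co ω S ([] :: B) R) :
    Sys μ Co ω S B R := by
  refine ⟨by simpa using h.nd, by simpa using h.sub, h.four, fun W hW => h.n1 W (by simp [hW]), ?_⟩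
  intro R₁ W R₂ e G _ f hf hR
  refine h.n2 R₁ W R₂ e G f hf fun V hV => ?_
  simp only [List.cons_append, List.mem_cons] at hV
  rcases hV with rfl | hV
  · rfl
  · exact hR V hV

/-- a word is chosen -/
theorem Sys.pick {S : List α} {W : List α} {R : List (List α)} (h : Sys μ Co ω S [] (W :: R)) :
    Sys μ Co ω S [W] R := by
  refine ⟨by simpa using h.nd, by simpa using h.sub, fun V hV => h.four V (by simp [hV]), ?_, ?_⟩
  · intro V hV
    simp only [List.mem_cons, List.not_mem_nil, or_false] at hV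
    subst hV
    have := h.n2 [] V R rfl
    simpa using this
  · intro R₁ V R₂ e G _ f hf hR
    refine h.n2 (W :: R₁) V R₂ (by rw [e]; rfl) G f hf fun X hX => ?_
    exact hR X (by simpa using hX)

theorem euler_core {S : List α} (hinv : ∀ p ∈ S, μ p ∈ S ∧ μ (μ p) = p ∧ μ p ≠ p)
    (h4 : ∀ p w, PT μ Co ω w p (μ p) → 4 ≤ w) (n : ℕ) :
    ∀ (k : ℕ) (l : List α) (B R : List (List α)) (w : ℕ), R.length + B.length = n →
      l.length = k → l ≠ [] → Sys μ Co ω S (l :: B) R →
      (∀ b ∈ B, b ≠ [] ∧ PC μ Co ω (2 * b.length) b) → PC μ Co ω w l →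
      2 * l.length + 4 * R.length + 4 + 4 * B.length ≤ w + (R.flatten.map ω).sum := by
  induction n using Nat.strong_induction_on with
  | _ n ihn =>
  intro k
  induction k using Nat.strong_induction_on with
  | _ k ihk =>
  intro l B R w hn hk hne hsys hB hw
  by_cases hA : ∃ d ∈ l, μ d ∈ R.flatten
  · obtain ⟨d, hd, hx⟩ := hA
    obtain ⟨W, hWR, hxW⟩ := List.mem_flatten.1 hx
    obtain ⟨u, v, rfl⟩ := List.append_of_mem hd
    have hs1 := hsys.rot
    simp only [List.cons_append] at hs1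
    have hw1 := hw.rot
    simp only [List.cons_append] at hw1
    obtain ⟨r1, r2, r3, g1, g2, g3, g4, g5, g6, g7⟩ := rotF (ω := ω) hxW (hsys.four W hWR)
    obtain ⟨R₁, R₂, rfl⟩ := List.append_of_mem hWR
    have hdS : d ∈ S := hs1.sub d (by simp)
    have hs2 := hs1.absorb hinv g1 g7
    obtain ⟨w', e1, hw2⟩ := hw1.subst rfl (hinv d hdS).2.1 g2 g3 g4 g5
    have h2 := ihn ((R₁ ++ R₂).length + B.length) (by
      simp only [List.length_append, List.length_cons] at hn ⊢
      omega) _ (r1 :: r2 :: r3 :: (v ++ u)) B (R₁ ++ R₂) w' rfl rfl (by simp) hs2 hB hw2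
    simp only [List.flatten_append, List.flatten_cons, List.map_append, List.sum_append,
      List.length_append, List.length_cons] at h2 ⊢
    omega
  · push Not at hA
    have hndl : (l ++ R.flatten).Nodup := by
      refine List.Nodup.sublist ?_ hsys.nd
      simp only [List.flatten_cons]
      exact List.Sublist.append (List.sublist_append_left _ _) (List.Sublist.refl _)
    have hSl : ∀ p ∈ l ++ R.flatten, p ∈ S := by
      intro p hp
      refine hsys.sub p ?_
      simp only [List.flatten_cons, List.mem_append] at hp ⊢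
      tauto
    obtain ⟨u, p, v, rfl⟩ := adj_of_nl hinv hndl hSl hne hA (hsys.n1 l (by simp))
    have hs1 := hsys.rot
    simp only [List.cons_append] at hs1
    have hw1 := hw.rot
    simp only [List.cons_append] at hw1
    have hpS : p ∈ S := hs1.sub p (by simp)
    have hs2 := hs1.cancel
    have hlen : (u ++ p :: μ p :: v).length = (v ++ u).length + 2 := by
      simp only [List.length_append, List.length_cons]; omega
    rw [hlen]
    rcases hvu : v ++ u with _ | ⟨c, t⟩
    · rw [hvu] at hs2 hw1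
      have h8 := hw1.two (hinv p hpS).2.1 h4
      have hs3 := hs2.nil
      simp only [List.length_nil]
      rcases B with _ | ⟨b, B⟩
      · rcases R with _ | ⟨W, R⟩
        · simp; omega
        · have h1 := ihn R.length (by simp only [List.length_cons, List.length_nil] at hn; omega) _
            W [] R _ rfl rfl (by
              obtain ⟨x0, x1, x2, x3, rfl, -⟩ := hs3.four W (by simp)
              simp) hs3.pick (by simp) (pc_four (hs3.four W (by simp)))
          obtain ⟨x0, x1, x2, x3, rfl, -⟩ := hs3.four W (by simp)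
          simp only [List.flatten_cons, List.map_append, List.sum_append, List.length_cons,
            List.length_nil] at h1 ⊢
          omega
      · obtain ⟨b1, b2⟩ := hB b (by simp)
        have h1 := ihn (R.length + B.length) (by simp only [List.length_cons] at hn; omega) _
          b B R _ rfl rfl b1 hs3 (fun b' hb' => hB b' (by simp [hb'])) b2
        simp only [List.length_cons]
        omega
    · rw [hvu] at hs2 hw1
      obtain ⟨w', e1, hw2⟩ := hw1.cancel (h4 p)
      have h1 := ihk (c :: t).length (by rw [← hk, hlen, hvu]; simp) (c :: t) B R w' hn rfl (by simp)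
        hs2 hB hw2
      omega

/-- EULER: words with four corners, and further words all of whose corners have weight two -/
theorem euler_D {S : List α} (hinv : ∀ p ∈ S, μ p ∈ S ∧ μ (μ p) = p ∧ μ p ≠ p)
    (h4 : ∀ p w, PT μ Co ω w p (μ p) → 4 ≤ w) {B R : List (List α)} (hs : Sys μ Co ω S B R)
    (hB : ∀ b ∈ B, b ≠ [] ∧ PC μ Co ω (2 * b.length) b) :
    4 * R.length + 4 * B.length ≤ (R.flatten.map ω).sum ∧
      (B = [] → R ≠ [] → 4 * R.length + 8 ≤ (R.flatten.map ω).sum) := by
  rcases B with _ | ⟨b, B⟩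
  · rcases R with _ | ⟨W, R⟩
    · simp
    · have h1 := euler_core hinv h4 _ _ W [] R _ rfl rfl (by
        obtain ⟨x0, x1, x2, x3, rfl, -⟩ := hs.four W (by simp)
        simp) hs.pick (by simp) (pc_four (hs.four W (by simp)))
      obtain ⟨x0, x1, x2, x3, rfl, -⟩ := hs.four W (by simp)
      simp only [List.flatten_cons, List.map_append, List.sum_append, List.length_cons,
        List.length_nil] at h1 ⊢
      exact ⟨by omega, fun _ _ => by omega⟩
  · obtain ⟨b1, b2⟩ := hB b (by simp)
    have h1 := euler_core hinv h4 _ _ b B R _ rfl rfl b1 hs (fun b' hb' => hB b' (by simp [hb'])) b2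
    refine ⟨?_, fun h => absurd h (by simp)⟩
    simp only [List.length_cons]
    omega

end Pool.Agent.V11206
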