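import Mathlib

/-! Words over matched letters: a closed face of small weight. -/

set_option autoImplicit false

namespace Pool.Agent.V11206

variable {α : Type}

/-- linear adjacency in a word -/
def Adj (W : List α) (p q : α) : Prop := ∃ u v, W = u ++ p :: q :: v

/-- cyclic adjacency in a word -/
def CAdj (W : List α) (p q : α) : Prop := (∃ u v, W = u ++ p :: q :: v) ∨ ∃ u, W = q :: (u ++ [p])

/-- A path of corners from `p` to `s` with total weight: the corners of the words in `B` have weight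
`2 * N`, the corner `(p, q)` of a word in `Q` has weight `ω p q`. -/
inductive GP (μ : α → α) (B Q : List (List α)) (ω : α → α → ℕ) (N : ℕ) : ℕ → α → α → Prop
  | gap {W : List α} {p q : α} (hW : W ∈ B) (h : Adj W p q) : GP μ B Q ω N (2 * N) p q
  | cor {W : List α} {p q : α} (hW : W ∈ Q) (h : CAdj W p q) : GP μ B Q ω N (ω p q) p q
  | comp {w w' : ℕ} {p y s : α} (h : GP μ B Q ω N w p y) (h' : GP μ B Q ω N w' (μ y) s) :
      GP μ B Q ω N (w + w') p s

variable {μ : α → α} {B Q : List (List α)} {ω : α → α → ℕ} {N : ℕ}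

/-- a word with paths of corners between its letters -/
inductive GW (μ : α → α) (B Q : List (List α)) (ω : α → α → ℕ) (N : ℕ) : ℕ → List α → Prop
  | single (p : α) : GW μ B Q ω N 0 [p]
  | cons {w w' : ℕ} {p q : α} {l : List α} (h : GP μ B Q ω N w p q)
      (h' : GW μ B Q ω N w' (q :: l)) : GW μ B Q ω N (w + w') (p :: q :: l)

theorem GW.split {u v : List α} {d : α} {w : ℕ} (h : GW μ B Q ω N w (u ++ d :: v)) :
    ∃ w₁ w₂, w₁ + w₂ = w ∧ GW μ B Q ω N w₁ (u ++ [d]) ∧ GW μ B Q ω N w₂ (d :: v) := by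
  induction u generalizing w with
  | nil => exact ⟨0, w, by simp, .single d, h⟩
  | cons a u ih =>
    cases u with
    | nil =>
      cases h with
      | cons h h' => exact ⟨_, _, rfl, by simpa using GW.cons h (.single d), h'⟩
    | cons b u =>
      cases h with
      | cons h h' =>
        obtain ⟨w₁, w₂, e, k1, k2⟩ := ih h'
        exact ⟨_ + w₁, w₂, by omega, GW.cons h k1, k2⟩

theorem GW.join {u v : List α} {d : α} {w₁ w₂ : ℕ} (h1 : GW μ B Q ω N w₁ (u ++ [d]))
    (h2 : GW μ B Q ω N w₂ (d :: v)) : GW μ B Q ω N (w₁ + w₂) (u ++ d :: v) := by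
  induction u generalizing w₁ with
  | nil =>
    cases h1 with
    | single => simpa using h2
  | cons a u ih =>
    cases u with
    | nil =>
      cases h1 with
      | cons h h' =>
        cases h' with
        | single => simpa using GW.cons h h2
    | cons b u =>
      cases h1 with
      | @cons w w' _ _ _ h h' =>
        have := GW.cons h (ih h')
        rwa [← Nat.add_assoc] at this

theorem GW.snoc {u : List α} {d r : α} {w k : ℕ} (h : GW μ B Q ω N w (u ++ [d]))
    (hd : ∀ e w₀, GP μ B Q ω N w₀ e d → GP μ B Q ω N (w₀ + k) e r) :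
    ∃ w', w' ≤ w + k ∧ GW μ B Q ω N w' (u ++ [r]) := by
  rcases List.eq_nil_or_concat u with rfl | ⟨u, e, rfl⟩
  · exact ⟨0, by omega, .single r⟩
  · simp only [List.concat_eq_append, List.append_assoc, List.singleton_append] at h ⊢
    obtain ⟨w₁, w₂, rfl, k1, k2⟩ := h.split
    cases k2 with
    | @cons w₃ w₄ _ _ _ g g' =>
      cases g' with
      | single => exact ⟨w₁ + (w₃ + k + 0), by omega, k1.join (.cons (hd _ _ g) (.single r))⟩

theorem GW.hd {v : List α} {d r : α} {w k : ℕ} (h : GW μ B Q ω N w (d :: v))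
    (hd : ∀ f w₀, GP μ B Q ω N w₀ d f → GP μ B Q ω N (k + w₀) r f) :
    ∃ w', w' ≤ w + k ∧ GW μ B Q ω N w' (r :: v) := by
  cases h with
  | single => exact ⟨0, by omega, .single r⟩
  | cons h h' => exact ⟨_, le_of_eq (by omega), .cons (hd _ _ h) h'⟩

/-- substitution of a circle -/
theorem GW.subst {u v : List α} {x r1 r2 r3 d : α} {w : ℕ} (h : GW μ B Q ω N w (u ++ d :: v))
    {W : List α} (hW : W ∈ Q) (hd : μ d = x) (hx : μ x = d) (c0 : CAdj W x r1) (c1 : CAdj W r1 r2)
    (c2 : CAdj W r2 r3) (c3 : CAdj W r3 x) :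
    ∃ w', w' ≤ w + (ω x r1 + ω r1 r2 + ω r2 r3 + ω r3 x) ∧
      GW μ B Q ω N w' (u ++ r1 :: r2 :: r3 :: v) := by
  obtain ⟨w₁, w₂, rfl, k1, k2⟩ := h.split
  obtain ⟨w₃, e3, k3⟩ := k1.snoc (r := r1) (k := ω x r1) fun e w₀ he => by
    exact GP.comp he (by rw [hd]; exact GP.cor hW c0)
  obtain ⟨w₄, e4, k4⟩ := k2.hd (r := r3) (k := ω r3 x) fun f w₀ he => by
    exact GP.comp (GP.cor hW c3) (by rw [hx]; exact he)
  refine ⟨_, ?_, k3.join (.cons (.cor hW c1) (.cons (.cor hW c2) k4))⟩
  omega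

/-- cancellation of a pair -/
theorem GW.cancel {u v : List α} {p : α} {w : ℕ} (h : GW μ B Q ω N w (u ++ p :: μ p :: v)) :
    (∃ w₀, w₀ ≤ w ∧ GP μ B Q ω N w₀ p (μ p) ∧
      (u ++ v ≠ [] → ∃ w', w' + w₀ ≤ w ∧ GW μ B Q ω N w' (u ++ v))) := by
  obtain ⟨w₁, w₂, rfl, k1, k2⟩ := h.split
  cases k2 with
  | @cons w₀ w₃ _ _ _ h h' =>
    refine ⟨w₀, by omega, h, fun hne => ?_⟩
    rcases List.eq_nil_or_concat u with rfl | ⟨u, e, rfl⟩
    · cases h' with
      | single => simp at hne
      | @cons w₄ w₅ _ _ _ g g' => exact ⟨w₅, by omega, g'⟩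
    · simp only [List.concat_eq_append, List.append_assoc, List.singleton_append] at k1 ⊢
      obtain ⟨w₆, w₇, rfl, k3, k4⟩ := k1.split
      cases h' with
      | single => exact ⟨w₆, by omega, k3⟩
      | @cons w₄ w₅ _ f _ g g' =>
        cases k4 with
        | @cons w₈ w₉ _ _ _ j j' =>
          refine ⟨_, ?_, k3.join (.cons (.comp j g) g')⟩
          omega

/-! ### free groups -/

section free

variable [DecidableEq α]

open Classical in
/-- labels in a free group -/
noncomputable def fl (μ : α → α) (rep : α → Prop) (y : α) : α × Bool :=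
  if rep y then (y, true) else (μ y, false)

omit [DecidableEq α] in
theorem mk_prod (L : List (α × Bool)) :
    FreeGroup.mk L = (L.map fun x => FreeGroup.mk [x]).prod := by
  induction L with
  | nil => rfl
  | cons a L ih =>
    rw [List.map_cons, List.prod_cons, ← ih, FreeGroup.mul_mk]
    rfl

theorem exists_adj {L : List (α × Bool)} (h : FreeGroup.mk L = 1) (hne : L ≠ []) :
    ∃ u v a b, L = u ++ a :: b :: v ∧ a.1 = b.1 ∧ a.2 ≠ b.2 := by
  have h1 : ¬FreeGroup.IsReduced L := by
    intro hr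
    have h2 : FreeGroup.Red.Step L L → False := fun h => hr.not_step h
    have h3 : (FreeGroup.mk L).toWord = L := by
      rw [FreeGroup.toWord_mk]
      exact hr.reduce_eq
    rw [h] at h3
    simp at h3
    exact hne h3
  rw [FreeGroup.isReduced_iff_not_step] at h1
  push Not at h1
  obtain ⟨L₂, h2⟩ := h1
  cases h2 with
  | @not L₁ L₂ x b => exact ⟨L₁, L₂, (x, b), (x, !b), rfl, rfl, by cases b <;> simp⟩

end free

/-- cyclic order of a word of length four starting from a given letter -/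
theorem rot4 {x0 x1 x2 x3 x : α} (h : x ∈ [x0, x1, x2, x3]) : ∃ r1 r2 r3,
    (x = x0 ∧ r1 = x1 ∧ r2 = x2 ∧ r3 = x3) ∨ (x = x1 ∧ r1 = x2 ∧ r2 = x3 ∧ r3 = x0) ∨
    (x = x2 ∧ r1 = x3 ∧ r2 = x0 ∧ r3 = x1) ∨ (x = x3 ∧ r1 = x0 ∧ r2 = x1 ∧ r3 = x2) := by
  simp only [List.mem_cons, List.not_mem_nil, or_false] at h
  rcases h with rfl | rfl | rfl | rfl
  · exact ⟨x1, x2, x3, by simp⟩
  · exact ⟨x2, x3, x0, by simp⟩
  · exact ⟨x3, x0, x1, by simp⟩
  · exact ⟨x0, x1, x2, by simp⟩

/-- the rotated circle -/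
structure Rot (ω : α → α → ℕ) (N : ℕ) (W : List α) (x r1 r2 r3 : α) : Prop where
  perm : W.Perm [x, r1, r2, r3]
  c0 : CAdj W x r1
  c1 : CAdj W r1 r2
  c2 : CAdj W r2 r3
  c3 : CAdj W r3 x
  wt : ω x r1 + ω r1 r2 + ω r2 r3 + ω r3 x ≤ 4 * N
  prod : ∀ (G : Type) [Group G] (f : α → G), f x * f r1 * f r2 * f r3 = 1 →
    (W.map f).prod = 1

theorem exists_rot {x0 x1 x2 x3 x : α} (h : x ∈ [x0, x1, x2, x3])
    (hw : ω x0 x1 + ω x1 x2 + ω x2 x3 + ω x3 x0 ≤ 4 * N) :
    ∃ r1 r2 r3, Rot ω N [x0, x1, x2, x3] x r1 r2 r3 := by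
  have a0 : CAdj [x0, x1, x2, x3] x0 x1 := .inl ⟨[], [x2, x3], rfl⟩
  have a1 : CAdj [x0, x1, x2, x3] x1 x2 := .inl ⟨[x0], [x3], rfl⟩
  have a2 : CAdj [x0, x1, x2, x3] x2 x3 := .inl ⟨[x0, x1], [], rfl⟩
  have a3 : CAdj [x0, x1, x2, x3] x3 x0 := .inr ⟨[x1, x2], rfl⟩
  have key : ∀ {G : Type} [Group G] {a b c d : G}, a * b * c * d = 1 → b * c * d * a = 1 := by
    intro G _ a b c d h
    have : b * c * d * a = a⁻¹ * (a * b * c * d) * a := by group
    rw [this, h]; simp
  have pr : ∀ {G : Type} [Group G] (f : α → G),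
      (([x0, x1, x2, x3] : List α).map f).prod = f x0 * f x1 * f x2 * f x3 := by
    intro G _ f
    simp [mul_assoc]
  obtain ⟨r1, r2, r3, h⟩ := rot4 h
  refine ⟨r1, r2, r3, ?_⟩
  rcases h with ⟨rfl, rfl, rfl, rfl⟩ | ⟨rfl, rfl, rfl, rfl⟩ | ⟨rfl, rfl, rfl, rfl⟩ |
    ⟨rfl, rfl, rfl, rfl⟩
  · exact ⟨.refl _, a0, a1, a2, a3, hw, fun G _ f h => by rw [pr]; exact h⟩
  · exact ⟨(List.perm_append_comm (l₁ := [r3]) (l₂ := [x, r1, r2])), a1, a2, a3, a0, by omega,
      fun G _ f h => by rw [pr]; exact key (key (key h))⟩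
  · exact ⟨(List.perm_append_comm (l₁ := [r2, r3]) (l₂ := [x, r1])), a2, a3, a0, a1, by omega,
      fun G _ f h => by rw [pr]; exact key (key h)⟩
  · exact ⟨(List.perm_append_comm (l₁ := [r1, r2, r3]) (l₂ := [x])), a3, a0, a1, a2, by omega,
      fun G _ f h => by rw [pr]; exact key h⟩

theorem core [DecidableEq α] (hN : 0 < N) {S : List α}
    (hinv : ∀ p ∈ S, μ p ∈ S ∧ μ (μ p) = p ∧ μ p ≠ p)
    (hQ : ∀ W ∈ Q, ∃ x0 x1 x2 x3, W = [x0, x1, x2, x3] ∧
      ω x0 x1 + ω x1 x2 + ω x2 x3 + ω x3 x0 ≤ 4 * N) (n : ℕ) :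
    ∀ (k : ℕ) (l : List α) (R : List (List α)) (w : ℕ), R.length = n → l.length = k → l ≠ [] →
      (l ++ R.flatten).Nodup → (∀ p ∈ l ++ R.flatten, p ∈ S) → (∀ W ∈ R, W ∈ Q) →
      (∀ (G : Type) [Group G] (f : α → G), (∀ p ∈ S, f (μ p) = (f p)⁻¹) →
        (∀ W ∈ R, (W.map f).prod = 1) → (l.map f).prod = 1) →
      GW μ B Q ω N w l → w + 2 * N ≤ 2 * N * l.length →
      ∃ p w, w < 4 * N ∧ GP μ B Q ω N w p (μ p) := by
  induction n using Nat.strong_induction_on with
  | _ n ihn =>
  intro k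
  induction k using Nat.strong_induction_on with
  | _ k ihk =>
  intro l R w hRn hlk hne hnd hS hR hnull hgw hle
  by_cases hA : ∃ d ∈ l, μ d ∈ R.flatten
  · obtain ⟨d, hd, hx⟩ := hA
    obtain ⟨W, hWR, hxW⟩ := List.mem_flatten.1 hx
    obtain ⟨x0, x1, x2, x3, rfl, hw⟩ := hQ W (hR W hWR)
    obtain ⟨r1, r2, r3, hr⟩ := exists_rot (N := N) hxW hw
    obtain ⟨R₁, R₂, rfl⟩ := List.append_of_mem hWR
    obtain ⟨u, v, rfl⟩ := List.append_of_mem hd
    obtain ⟨hxS, hxd, hxne⟩ := hinv d (hS d (by simp))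
    obtain ⟨w', e1, g1⟩ := hgw.subst (hR _ hWR) rfl hxd hr.c0 hr.c1 hr.c2 hr.c3
    have hperm : ((u ++ d :: v) ++ (R₁ ++ [x0, x1, x2, x3] :: R₂).flatten).Perm
        (d :: μ d :: ((u ++ r1 :: r2 :: r3 :: v) ++ (R₁ ++ R₂).flatten)) := by
      have h1 : ((u ++ d :: v) ++ (R₁ ++ [x0, x1, x2, x3] :: R₂).flatten).Perm
          ((u ++ d :: v) ++ (R₁.flatten ++ ([μ d, r1, r2, r3] ++ R₂.flatten))) := by
        simp only [List.flatten_append, List.flatten_cons]
        exact ((hr.perm.append_right _).append_left _).append_left _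
      refine h1.trans ?_
      rw [List.perm_iff_count]
      intro a
      simp only [List.flatten_append, List.count_append, List.count_cons, List.count_nil]
      omega
    have hnd' := hperm.nodup_iff.1 hnd
    have hS' : ∀ p ∈ (u ++ r1 :: r2 :: r3 :: v) ++ (R₁ ++ R₂).flatten, p ∈ S := fun p hp =>
      hS p (hperm.mem_iff.2 (by simp only [List.mem_cons]; exact Or.inr (Or.inr hp)))
    rw [List.nodup_cons, List.nodup_cons] at hnd'
    obtain ⟨nd1, nd2, nd3⟩ := hnd'
    refine ihn (R₁ ++ R₂).length (by rw [← hRn]; simp) _ (u ++ r1 :: r2 :: r3 :: v) (R₁ ++ R₂) w'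
      rfl rfl (by simp) nd3 hS' (fun W hW => hR W (by
        rcases List.mem_append.1 hW with h | h
        · simp [h]
        · simp [h])) ?_ g1 ?_
    · intro G _ f hf hfR
      set g : G := f r1 * f r2 * f r3 with hg
      set f' : α → G := fun y => if y = d then g else if y = μ d then g⁻¹ else f y with hf'
      have fd : f' d = g := by simp [hf']
      have fx : f' (μ d) = g⁻¹ := by simp [hf', hxne]
      have fo : ∀ y, y ≠ d → y ≠ μ d → f' y = f y := fun y h1 h2 => by simp [hf', h1, h2]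
      have fin : ∀ y ∈ (u ++ r1 :: r2 :: r3 :: v) ++ (R₁ ++ R₂).flatten, f' y = f y := by
        intro y hy
        refine fo y ?_ ?_
        · rintro rfl; exact nd1 (List.mem_cons_of_mem _ hy)
        · rintro rfl; exact nd2 hy
      have h1 : ∀ p ∈ S, f' (μ p) = (f' p)⁻¹ := by
        intro p hp
        by_cases h2 : p = d
        · rw [h2, fx, fd]
        · by_cases h3 : p = μ d
          · rw [h3, hxd, fd, fx, inv_inv]
          · rw [fo p h2 h3, fo (μ p) ?_ ?_, hf p hp]
            · intro h4; exact h3 (by rw [← h4, (hinv p hp).2.1])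
            · intro h4; exact h2 (by rw [← (hinv p hp).2.1, h4, hxd])
      have h2 : ∀ W ∈ R₁ ++ [x0, x1, x2, x3] :: R₂, (W.map f').prod = 1 := by
        intro W hW
        have hc : W ∈ R₁ ++ R₂ ∨ W = [x0, x1, x2, x3] := by
          simp only [List.mem_append, List.mem_cons] at hW ⊢
          tauto
        rcases hc with hc | rfl
        · rw [← hfR W hc]
          congr 1
          refine List.map_congr_left fun y hy => fin y ?_
          exact List.mem_append_right _ (List.mem_flatten.2 ⟨W, hc, hy⟩)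
        · refine hr.prod G f' ?_
          rw [fx, fin r1 (by simp), fin r2 (by simp), fin r3 (by simp), hg]
          group
      have h3 := hnull G f' h1 h2
      rw [List.map_append, List.map_cons, List.prod_append, List.prod_cons, fd] at h3
      have hu : u.map f' = u.map f := List.map_congr_left fun y hy => fin y (by simp [hy])
      have hv : v.map f' = v.map f := List.map_congr_left fun y hy => fin y (by simp [hy])
      rw [hu, hv] at h3
      rw [List.map_append, List.map_cons, List.map_cons, List.map_cons, List.prod_append,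
        List.prod_cons, List.prod_cons, List.prod_cons, ← h3, hg]
      simp only [mul_assoc]
    · have := hr.wt
      simp only [List.length_append, List.length_cons] at hle ⊢
      have e2 : 2 * N * (u.length + (v.length + 1 + 1 + 1)) =
        2 * N * (u.length + (v.length + 1)) + 4 * N := by ring
      omega
  · push Not at hA
    -- a free group
    set rep : α → Prop := fun y => S.idxOf y < S.idxOf (μ y) with hrep
    have hrep1 : ∀ y ∈ S, ¬rep y → rep (μ y) := by
      intro y hy h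
      obtain ⟨h1, h2, h3⟩ := hinv y hy
      simp only [hrep, h2, not_lt] at h ⊢
      refine lt_of_le_of_ne h fun h4 => h3 ?_
      exact (List.idxOf_inj h1).1 h4
    have hrep2 : ∀ y ∈ S, rep y → ¬rep (μ y) := by
      intro y hy h
      obtain ⟨h1, h2, h3⟩ := hinv y hy
      simp only [hrep, h2, not_lt] at h ⊢
      exact le_of_lt h
    have hkey : FreeGroup.mk (l.map (fl μ rep)) = 1 := by
      classical
      have h1 := hnull (FreeGroup α)
        (fun y => if y ∈ l ∨ μ y ∈ l then FreeGroup.mk [fl μ rep y] else 1) ?_ ?_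
      · rw [mk_prod, List.map_map, ← h1]
        congr 1
        refine List.map_congr_left fun y hy => ?_
        simp [hy]
      · intro p hp
        obtain ⟨h1, h2, h3⟩ := hinv p hp
        simp only [h2]
        by_cases h4 : p ∈ l ∨ μ p ∈ l
        · rw [if_pos h4, if_pos (Or.symm h4)]
          unfold fl
          by_cases h5 : rep p
          · have h6 := hrep2 p hp h5
            rw [if_pos h5, if_neg h6, h2]
            rfl
          · have h6 := hrep1 p hp h5
            rw [if_neg h5, if_pos h6]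
            rfl
        · rw [if_neg h4, if_neg (fun h => h4 (Or.symm h))]
          simp
      · intro W hW
        refine List.prod_eq_one fun g hg => ?_
        obtain ⟨y, hy, rfl⟩ := List.mem_map.1 hg
        have hyR : y ∈ R.flatten := List.mem_flatten.2 ⟨W, hW, hy⟩
        rw [if_neg]
        rintro (h1 | h1)
        · exact (List.nodup_append.1 hnd).2.2 y h1 y hyR rfl
        · refine hA (μ y) h1 ?_
          rw [(hinv y (hS y (by simp only [List.mem_append]; exact Or.inr hyR))).2.1]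
          exact hyR
    obtain ⟨u', v', a, b, e, ha, hb⟩ := exists_adj hkey (by simpa using hne)
    obtain ⟨u, t, rfl, rfl, e2⟩ := List.map_eq_append_iff.1 e
    obtain ⟨p, t', rfl, rfl, e3⟩ := List.map_eq_cons_iff.1 e2
    obtain ⟨q, v, rfl, rfl, rfl⟩ := List.map_eq_cons_iff.1 e3
    have hpS : p ∈ S := hS p (by simp)
    have hqS : q ∈ S := hS q (by simp)
    have hq : q = μ p := by
      unfold fl at ha hb
      split_ifs at ha hb with h1 h2 h2
      · exact absurd rfl hb
      · have ha : p = μ q := ha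
        rw [ha, (hinv q hqS).2.1]
      · exact ha.symm
      · exact absurd rfl hb
    subst hq
    obtain ⟨w₀, e4, g1, g2⟩ := hgw.cancel
    by_cases hw : w₀ < 4 * N
    · exact ⟨p, w₀, hw, g1⟩
    · have hlen : (u ++ p :: μ p :: v).length = (u ++ v).length + 2 := by
        simp only [List.length_append, List.length_cons]; omega
      have hne' : u ++ v ≠ [] := by
        intro h
        rw [hlen, h] at hle
        simp only [List.length_nil] at hle
        omega
      obtain ⟨w', e5, g3⟩ := g2 hne'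
      have hperm : ((u ++ p :: μ p :: v) ++ R.flatten).Perm (p :: μ p :: ((u ++ v) ++ R.flatten)) := by
        rw [List.perm_iff_count]
        intro a
        simp only [List.count_append, List.count_cons]
        omega
      refine ihk (u ++ v).length (by rw [← hlk, hlen]; omega) (u ++ v) R w' hRn rfl hne' ?_ ?_ hR ?_
        g3 ?_
      · exact ((List.nodup_cons.1 (List.nodup_cons.1 (hperm.nodup_iff.1 hnd)).2)).2
      · intro y hy
        exact hS y (hperm.mem_iff.2 (by simp only [List.mem_cons]; exact Or.inr (Or.inr hy)))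
      · intro G _ f hf hfR
        have h1 := hnull G f hf hfR
        rw [List.map_append, List.map_cons, List.map_cons, List.prod_append, List.prod_cons,
          List.prod_cons, hf p hpS] at h1
        rw [List.map_append, List.prod_append, ← h1]
        group
      · rw [hlen] at hle
        have : 2 * N * ((u ++ v).length + 2) = 2 * N * (u ++ v).length + 4 * N := by ring
        omega

/-- JUNCTION: if the words of `Q` have length four and their corners have total weight at most `4 * N`,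
and the words of `B` are products of conjugates of words of `Q` if matched letters are identified,
then a closed face has weight less than `4 * N`. -/
theorem small_face (hN : 0 < N) (hnd : (B.flatten ++ Q.flatten).Nodup)
    (hinv : ∀ p ∈ B.flatten ++ Q.flatten, μ p ∈ B.flatten ++ Q.flatten ∧ μ (μ p) = p ∧ μ p ≠ p)
    (hQ : ∀ W ∈ Q, ∃ x0 x1 x2 x3, W = [x0, x1, x2, x3] ∧
      ω x0 x1 + ω x1 x2 + ω x2 x3 + ω x3 x0 ≤ 4 * N)
    (hnull : ∀ (G : Type) [Group G] (f : α → G),
      (∀ p ∈ B.flatten ++ Q.flatten, f (μ p) = (f p)⁻¹) →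
      (∀ W ∈ Q, (W.map f).prod = 1) → ∀ W ∈ B, (W.map f).prod = 1)
    (hB : ∃ W ∈ B, W ≠ []) : ∃ p w, w < 4 * N ∧ GP μ B Q ω N w p (μ p) := by
  classical
  obtain ⟨W, hW, hne⟩ := hB
  have hgw : ∀ l u : List α, l ≠ [] → W = u ++ l →
      ∃ w, w + 2 * N ≤ 2 * N * l.length ∧ GW μ B Q ω N w l := by
    intro l
    induction l with
    | nil => intro u h; exact absurd rfl h
    | cons a l ih =>
      intro u _ e
      rcases l with _ | ⟨b, l⟩
      · exact ⟨0, by simp, .single a⟩
      · obtain ⟨w, h1, h2⟩ := ih (u ++ [a]) (by simp) (by rw [e]; simp)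
        refine ⟨2 * N + w, ?_, .cons (.gap hW ⟨u, l, e⟩) h2⟩
        have e2 : 2 * N * (a :: b :: l).length = 2 * N * (b :: l).length + 2 * N := by
          simp only [List.length_cons]; ring
        omega
  obtain ⟨w, h1, h2⟩ := hgw W [] hne rfl
  have hsub : ∀ p ∈ W ++ Q.flatten, p ∈ B.flatten ++ Q.flatten := by
    intro p hp
    rcases List.mem_append.1 hp with h | h
    · exact List.mem_append_left _ (List.mem_flatten.2 ⟨W, hW, h⟩)
    · exact List.mem_append_right _ h
  refine core (B := B) hN hinv hQ Q.length _ W Q w rfl rfl hne ?_ hsub (fun W h => h) ?_ h2 h1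
  · refine List.Nodup.sublist ?_ hnd
    exact (List.sublist_flatten_of_mem hW).append (List.Sublist.refl _)
  · intro G _ f hf hfQ
    exact hnull G f hf hfQ W hW

/-! ### Faces of weight at most three -/

section three

variable {μ : α → α} {B Q : List (List α)}

theorem gp_pos {w : ℕ} {p s : α} (h : GP μ B Q (fun _ _ => 1) 1 w p s) : 0 < w := by
  induction h with
  | gap => omega
  | cor => omega
  | comp => omega

theorem gp_one {w : ℕ} {p s : α} (h : GP μ B Q (fun _ _ => 1) 1 w p s) (hw : w ≤ 1) :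
    ∃ W ∈ Q, CAdj W p s := by
  cases h with
  | gap => omega
  | cor hW h => exact ⟨_, hW, h⟩
  | comp h h' => have := gp_pos h; have := gp_pos h'; omega

theorem gp_two {w : ℕ} {p s : α} (h : GP μ B Q (fun _ _ => 1) 1 w p s) (hw : w ≤ 2) :
    (∃ W ∈ Q, CAdj W p s) ∨ (∃ W ∈ B, Adj W p s) ∨
      ∃ y, (∃ W ∈ Q, CAdj W p y) ∧ ∃ W ∈ Q, CAdj W (μ y) s := by
  cases h with
  | gap hW h => exact Or.inr (Or.inl ⟨_, hW, h⟩)
  | cor hW h => exact Or.inl ⟨_, hW, h⟩
  | comp h h' =>
    have := gp_pos h; have := gp_pos h'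
    exact Or.inr (Or.inr ⟨_, gp_one h (by omega), gp_one h' (by omega)⟩)

theorem gp_three {w : ℕ} {p s : α} (h : GP μ B Q (fun _ _ => 1) 1 w p s) (hw : w ≤ 3) :
    (∃ W ∈ Q, CAdj W p s) ∨ (∃ W ∈ B, Adj W p s) ∨
      (∃ y, (∃ W ∈ Q, CAdj W p y) ∧ ∃ W ∈ Q, CAdj W (μ y) s) ∨
      (∃ y, (∃ W ∈ B, Adj W p y) ∧ ∃ W ∈ Q, CAdj W (μ y) s) ∨
      (∃ y, (∃ W ∈ Q, CAdj W p y) ∧ ∃ W ∈ B, Adj W (μ y) s) ∨
      ∃ y z, (∃ W ∈ Q, CAdj W p y) ∧ (∃ W ∈ Q, CAdj W (μ y) z) ∧ ∃ W ∈ Q, CAdj W (μ z) s := by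
  cases h with
  | gap hW h => exact Or.inr (Or.inl ⟨_, hW, h⟩)
  | cor hW h => exact Or.inl ⟨_, hW, h⟩
  | @comp w w' _ y _ h h' =>
    have h1 := gp_pos h; have h2 := gp_pos h'
    rcases Nat.lt_or_ge 1 w with h3 | h3
    · have k2 := gp_one h' (by omega)
      rcases gp_two h (by omega) with k1 | k1 | ⟨z, k1, k3⟩
      · exact Or.inr (Or.inr (Or.inl ⟨y, k1, k2⟩))
      · exact Or.inr (Or.inr (Or.inr (Or.inl ⟨y, k1, k2⟩)))
      · exact Or.inr (Or.inr (Or.inr (Or.inr (Or.inr ⟨z, y, k1, k3, k2⟩))))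
    · have k1 := gp_one h (by omega)
      rcases gp_two h' (by omega) with k2 | k2 | ⟨z, k2, k3⟩
      · exact Or.inr (Or.inr (Or.inl ⟨y, k1, k2⟩))
      · exact Or.inr (Or.inr (Or.inr (Or.inr (Or.inl ⟨y, k1, k2⟩))))
      · exact Or.inr (Or.inr (Or.inr (Or.inr (Or.inr ⟨y, z, k1, k2, k3⟩))))

end three

end Pool.Agent.V11206
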