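import Pool.Agent.V11206.NoIrr
import Pool.Agent.V11206.Zero
import Pool.Agent.V11206.TLift

/-! Movies with at most three triple points. -/

set_option autoImplicit false

namespace Pool.Agent.V11206

open Pool.Agent.Y468.SR
open Pool.Agent.Y874.TP hiding InvM InvC CM CReid CStep SMovie Inv3 S_REID S_REN S_THREE
open Pool.Agent.Y874.TP2
open Pool.Agent.Y874.TP2.T3 Pool.Agent.Y874.TP2.T4

theorem movie_zero' {P : List Tri → (ℕ → ℕ) → Prop}
    (hmov : ∀ (D : Code) (Ts : List Tri), Classical D → (D.map Prod.snd).Nodup → InvP P D Ts →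
      Movie true false D []) {D : Code} {Ts : List Tri}
    {m : ℕ → ℕ} (hD : Classical D) (hn : (D.map Prod.snd).Nodup)
    (hw : WF (passes (D ++ TC Ts))) (hok : ∀ T ∈ Ts, T.Ok) (hM : Matching (passes (D ++ TC Ts)) m)
    (hN : NullV (D ++ TC Ts) m) (hP : P (Ts.map (Tri.rename zf)) (fun c => zf (m (zg c)))) :
    Movie true false D [] := by
  have e : renamed zf (D ++ TC Ts) = renamed zf D ++ TC (Ts.map (Tri.rename zf)) := by
    rw [renamed_append, TC_rename]
  have hw' : WF (passes (renamed zf D ++ TC (Ts.map (Tri.rename zf)))) := by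
    rw [← e, passes_renamed]
    exact hw.ren (fun p _ q _ he => zf_inj he)
  have hI : InvM (renamed zf D ++ TC (Ts.map (Tri.rename zf))) (fun c => zf (m (zg c))) := by
    rw [← e]
    exact invM_zf hM hN
  have hn' : ((renamed zf D).map Prod.snd).Nodup := by
    have : (renamed zf D).map Prod.snd = D.map Prod.snd := by
      rw [renamed_def, List.map_map]; rfl
    rw [this]; exact hn
  refine Movie.head hD (classical_zf hD) (Step.rename zf D fun p _ q _ he => zf_inj he)
    (hmov _ _ (classical_zf hD) hn' ⟨hw', ?_, _, hI, hP⟩)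
  intro T' hT'
  obtain ⟨T, hT, rfl⟩ := List.mem_map.1 hT'
  refine ⟨hok T hT, ?_⟩
  unfold Tri.Col Tri.rename
  simp only [colour_zf, and_self]

variable {Z : ℕ → Prop}

/-- the reduction of movies with at most three triple points -/
theorem movie_of_tmovie3 {hd : Bool} {D : Code} {R : List (ℕ × ℕ × ℕ)} (h : TMovie hd Z D R)
    (hR : R.length ≤ 3) (hZ : ∀ p ∈ passes D, ¬Z (colour p.crossing))
    (hn : (D.map Prod.snd).Nodup) : Movie true false D [] := by
  obtain ⟨Ts, h1, h2⟩ := tmovie_inv RD.reid RN.ren TH.three h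
  rw [del_eq hZ] at h1
  obtain ⟨m, hm⟩ := h1.inv
  have hlen : Ts.length = R.length := by
    have := congrArg List.length h2
    simpa using this
  refine movie_zero' (P := PN 3) (fun D Ts c1 c2 c3 => movie_of_few noIrr3 _ _ D Ts rfl rfl c1 c2 c3)
    (tmovie_classical h) hn h1.wf (fun T hT => (h1.ok T hT).1) hm.1 hm.2.2 ⟨?_, ?_⟩
  · rw [List.length_map]; omega
  · intro T' hT' c hc
    obtain ⟨T, hT, rfl⟩ := List.mem_map.1 hT'
    obtain ⟨c₀, -, rfl⟩ := nam_zf.1 hc
    exact colour_zf c₀

end Pool.Agent.V11206
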