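import Pool.Agent.Y874.TP2.Defs

/-!
# Movies with a list of the triple points

Every crossing belongs to a double curve of the projection, named by its colour. The double curves
are divided into two kinds, by the set `Z` of colours. There are no conditions on triple points at
which at least two of the three double curves have colours in `Z`.
-/

set_option autoImplicit false

namespace Pool.Agent.V11206

open Pool.Agent.Y468.SR
open Pool.Agent.Y874.TP (colour TriAt)
open Pool.Agent.Y874.TP2 (CStep)

/-- `TMovie handles Z D R`: the classical link `D` bounds disjoint connected surfaces, one for each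
label, by a movie ending with the empty diagram, in which births are allowed. For each triple point
of the projection (move of type III), either at least two of the three double curves through this
point have colours in `Z`, or the three double curves have colours outside `Z`; `R` is the list of
the triples of colours at the triple points of the second kind (first the colour of the crossing of
the top and middle strands, then top and bottom, then middle and bottom). If `handles = false`, the
surfaces are planar. If `handles = true`, a component may be cut into two components of the boundary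
of the same piece of surface, one of which passes only through crossings with colours in `Z`. -/
inductive TMovie (handles : Bool) (Z : ℕ → Prop) : Code → List (ℕ × ℕ × ℕ) → Prop
  | nil : TMovie handles Z [] []
  | step {D D' : Code} {R : List (ℕ × ℕ × ℕ)} (h : Classical D) (hs : CStep D D')
      (hm : TMovie handles Z D' R) : TMovie handles Z D R
  | three {D D' : Code} {R : List (ℕ × ℕ × ℕ)} (h : Classical D) (A B C E : List (Pass ⊕ ℕ))
      (X Y W t m b : Pass × Pass) (x y z : ℕ) (hT : TriAt x y z t m b)
      (hP : List.Perm [X, Y, W] [t, m, b])
      (hD : enc D = A ++ two X.1 X.2 ++ B ++ two Y.1 Y.2 ++ C ++ two W.1 W.2 ++ E)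
      (hD' : enc D' = A ++ two X.2 X.1 ++ B ++ two Y.2 Y.1 ++ C ++ two W.2 W.1 ++ E)
      (hZ : ¬Z (colour x) ∧ ¬Z (colour y) ∧ ¬Z (colour z))
      (hm : TMovie handles Z D' R) : TMovie handles Z D ((colour x, colour y, colour z) :: R)
  | inner {D D' : Code} {R : List (ℕ × ℕ × ℕ)} (h : Classical D) (A B C E : List (Pass ⊕ ℕ))
      (X Y W t m b : Pass × Pass) (x y z : ℕ) (hT : TriAt x y z t m b)
      (hP : List.Perm [X, Y, W] [t, m, b])
      (hD : enc D = A ++ two X.1 X.2 ++ B ++ two Y.1 Y.2 ++ C ++ two W.1 W.2 ++ E)
      (hD' : enc D' = A ++ two X.2 X.1 ++ B ++ two Y.2 Y.1 ++ C ++ two W.2 W.1 ++ E)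
      (hZ : Z (colour x) ∧ Z (colour y) ∨ Z (colour x) ∧ Z (colour z) ∨ Z (colour y) ∧ Z (colour z))
      (hm : TMovie handles Z D' R) : TMovie handles Z D R
  | handle {S : Code} {R : List (ℕ × ℕ × ℕ)} (x y : List Pass) (b : ℕ) (hh : handles = true)
      (h : Classical ((x ++ y, b) :: S)) (hy : ∀ p ∈ y, Z (colour p.crossing))
      (hm : TMovie handles Z ((x, b) :: (y, b) :: S) R) : TMovie handles Z ((x ++ y, b) :: S) R

/-- the curve in the surface formed by the upper (`o = true`) or lower points of the double curve
with colour `k`; these two curves are one if `k` is even (branch points are allowed on double curves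
with even colours only) -/
def lf (k : ℕ) (o : Bool) : ℕ × Bool := (k, o || k % 2 == 0)

/-- the pairs of curves of the preimage crossing one another at a triple point; the three double
curves through this point have the colours `e.1` (top and middle sheet), `e.2.1` (top and bottom
sheet) and `e.2.2` (middle and bottom sheet) -/
def cuts (e : ℕ × ℕ × ℕ) : List (Sym2 (ℕ × Bool)) :=
  [s(lf e.1 true, lf e.2.1 true), s(lf e.1 false, lf e.2.2 true), s(lf e.2.1 false, lf e.2.2 false)]

/-- Conditions on the double curves at the triple points: two curves never interchange their roles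
in the top sheet or in the bottom sheet, two triple points with two common double curves (at the
same places) have the third one in common, and in the surface no curve of the preimage crosses
itself and no three curves cross one another. -/
structure Good (R : List (ℕ × ℕ × ℕ)) : Prop where
  top : ∀ e ∈ R, ∀ e' ∈ R, ¬(e.1 = e'.2.1 ∧ e.2.1 = e'.1)
  bot : ∀ e ∈ R, ∀ e' ∈ R, ¬(e.2.1 = e'.2.2 ∧ e.2.2 = e'.2.1)
  third : ∀ e ∈ R, ∀ e' ∈ R, (e.1 = e'.1 ∧ e.2.1 = e'.2.1) ∨ (e.1 = e'.1 ∧ e.2.2 = e'.2.2) ∨
    (e.2.1 = e'.2.1 ∧ e.2.2 = e'.2.2) → e = e'
  tri : ∀ x y z, s(x, y) ∈ R.flatMap cuts → s(y, z) ∈ R.flatMap cuts → s(x, z) ∉ R.flatMap cuts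

end Pool.Agent.V11206
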