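import Pool.Agent.V11206.Role
import Pool.Agent.V11206.TDefs

/-! Systems of triple points in which the double curves never interchange their roles. -/

set_option autoImplicit false

namespace Pool.Agent.V11206

open Pool.Agent.Y468.SR
open Pool.Agent.Y874.TP hiding InvM InvC CM CReid CStep SMovie Inv3
open Pool.Agent.Y874.TP2

set_option linter.unusedSimpArgs false

/-- the colour with the given role -/
def fn (e : ℕ × ℕ × ℕ) (s : ℕ) : ℕ := if s = 0 then e.1 else if s = 1 then e.2.1 else e.2.2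

theorem lf_cut {e : ℕ × ℕ × ℕ} {s t : ℕ} (hs : s < 3) (ht : t < 3) (h : s ≠ t) :
    s(lf (fn e s) (lev s t), lf (fn e t) (lev t s)) ∈ cuts e := by
  unfold cuts fn lev
  interval_cases s <;> interval_cases t <;> first | exact absurd rfl h | simp

theorem kap_lf (x : Pass) : kap x = lf (colour x.crossing) x.isOver := rfl

theorem kap_part {D : Code} {m : ℕ → ℕ} (h : InvM D m) {x : Pass} (hx : x ∈ passes D) :
    kap (part m x) = kap x := by
  have h1 := part_colour h hx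
  rcases part_over (m := m) (x := x) with ⟨h2, h3⟩ | ⟨h2, h3⟩
  · rw [kap_lf, kap_lf, h1, h3]
  · have h4 : colour x.crossing % 2 = 0 := by
      by_contra h5
      exact (h.2.1 x hx).2 h5 h2
    rw [kap_lf, kap_lf, h1, lf, lf, h4]
    simp

theorem cor_cut {e : ℕ × ℕ × ℕ} {T : Tri} (h : Rol (fn e) T) {x y : Pass} (hx : Nx T x y) :
    s(kap x, kap y) ∈ cuts e := by
  obtain ⟨s, t, h1, h2, h3, h4, h5, h6, h7⟩ := cor_lev h hx
  rw [kap_lf, kap_lf, h4, h5, h6, h7]
  exact lf_cut h1 h2 h3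

/-- colours of a triple point -/
theorem Good.ne {R : List (ℕ × ℕ × ℕ)} (h : Good R) {e : ℕ × ℕ × ℕ} (he : e ∈ R) :
    e.1 ≠ e.2.1 ∧ e.2.1 ≠ e.2.2 ∧ (e.1 = e.2.2 → e.1 % 2 = 1) := by
  refine ⟨fun k => h.top e he e he ⟨k, k.symm⟩, fun k => h.bot e he e he ⟨k, k.symm⟩, fun k => ?_⟩
  by_contra h1
  have h2 : e.1 % 2 = 0 := by omega
  have h3 : s(lf e.1 false, lf e.2.2 true) ∈ R.flatMap cuts :=
    List.mem_flatMap.2 ⟨e, he, by simp [cuts]⟩
  have h4 : lf e.2.2 true = lf e.1 false := by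
    rw [← k, lf, lf, h2]
    simp
  rw [h4] at h3
  exact h.tri _ _ _ h3 h3 h3

theorem code_mate {T : Tri} {x : Pass} (h : x ∈ passes T.code) : x.mate ∈ passes T.code := by
  rw [mem_code] at h ⊢
  rcases h with rfl | rfl | rfl | rfl | rfl | rfl | rfl | rfl | rfl | rfl | rfl | rfl <;> simp

theorem same_tri {D : Code} {Ts : List Tri} (hw : WF (passes (D ++ TC Ts))) {T₁ T₂ : Tri}
    (h₁ : T₁ ∈ Ts) (h₂ : T₂ ∈ Ts) {x : Pass} (hx₁ : x ∈ passes T₁.code) (hx₂ : x ∈ passes T₂.code) :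
    T₁ = T₂ := by
  by_contra hne
  obtain ⟨l₁, l₂, rfl⟩ := List.append_of_mem h₁
  have hT₂' : T₂ ∈ l₁ ++ l₂ := by
    simp only [List.mem_append, List.mem_cons] at h₂ ⊢
    rcases h₂ with h | h | h
    · exact Or.inl h
    · exact absurd h.symm hne
    · exact Or.inr h
  have perm1 : (D ++ TC (l₁ ++ T₁ :: l₂)).Perm (T₁.code ++ (D ++ TC (l₁ ++ l₂))) := by
    have e : (TC (l₁ ++ T₁ :: l₂)).Perm (T₁.code ++ TC (l₁ ++ l₂)) := by
      simp only [TC, List.flatMap_append, List.flatMap_cons]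
      rw [← List.append_assoc, ← List.append_assoc]
      exact List.Perm.append_right _ List.perm_append_comm
    refine (List.Perm.append_left _ e).trans ?_
    rw [← List.append_assoc, ← List.append_assoc]
    exact List.Perm.append_right _ List.perm_append_comm
  have hnd := WF.nodup (WF.perm (passes_perm perm1) hw)
  rw [passes_append'] at hnd
  exact (List.nodup_append.1 hnd).2.2 x hx₁ x (mem_all hT₂' hx₂) rfl

theorem cyc_word4 {e : Bool} {p₁ p₂ q₁ q₂ x y : Pass} (h : Cyc x y (word4 e p₁ p₂ q₁ q₂)) :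
    ((x = p₁ ∨ x = p₂) ∧ (y = q₁ ∨ y = q₂)) ∨ ((x = q₁ ∨ x = q₂) ∧ (y = p₁ ∨ y = p₂)) := by
  unfold word4 at h
  split_ifs at h <;> rcases Tri.cyc4 h with ⟨rfl, rfl⟩ | ⟨rfl, rfl⟩ | ⟨rfl, rfl⟩ | ⟨rfl, rfl⟩ <;> simp

/-- the two corners of a plain bigon belong to different triple points -/
theorem bigon_ne' {e : ℕ × ℕ × ℕ} {R : List (ℕ × ℕ × ℕ)} (hR : Good R) (he : e ∈ R) {T : Tri}
    (h : Rol (fn e) T) {m : ℕ → ℕ} {p y : Pass} (h1 : Nx T p y) (h2 : Nx T (part m y) (part m p))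
    (hp : m p.crossing ≠ p.crossing) (hy : m y.crossing ≠ y.crossing)
    (cy : colour (m y.crossing) = colour y.crossing) :
    False := by
  obtain ⟨T', hei, rfl, rfl, hs⟩ := nf h1
  have h' := hs.rol h
  have h2' := hs.nx h2
  obtain ⟨n1, n2, n3⟩ := hR.ne he
  have hab : T'.ta = T'.tb → colour T'.a₁ ≠ colour T'.b₁ := by
    intro k
    rw [h'.a, h'.b, ra, rb, k]
    cases T'.tb <;> cases T'.tc <;> simp [fn] <;> first | exact n1 | exact n1.symm | exact n2 | exact n2.symm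
  rw [part_of_ne hp, part_of_ne hy] at h2'
  simp only [Tri.pa₁, Tri.pb₁] at hp hy cy h2'
  obtain ⟨W, hW, hc⟩ := h2'
  have hc' : Cyc (⟨m T'.a₁, T'.ta, !!T'.sa⟩ : Pass) ⟨m T'.b₁, T'.tb, !!T'.sb⟩ W := hc
  have ok1 := h'.ok.1
  have cb : colour T'.b₂ = colour T'.b₁ := h'.col.2.1
  simp only [List.mem_cons, List.not_mem_nil, or_false] at hW
  rcases hW with rfl | rfl | rfl
  · unfold Tri.wi word4 at hc'
    rw [if_pos hei] at hc'
    rcases Tri.cyc4 hc' with ⟨e1, e2⟩ | ⟨e1, e2⟩ | ⟨e1, e2⟩ | ⟨e1, e2⟩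
    · have k1 := congrArg Pass.crossing e1
      have k2 := congrArg Pass.isOver e1
      simp only [Tri.pb₂, Tri.pb₁, Tri.pa₁, Tri.pa₂] at k1 k2
      exact hab k2 (by rw [← cy, k1]; exact cb)
    · exact hp (congrArg Pass.crossing e2)
    · have k1 := congrArg Pass.crossing e1
      have k2 := congrArg Pass.isOver e1
      simp only [Tri.pb₂, Tri.pb₁, Tri.pa₁, Tri.pa₂] at k1 k2
      exact hab k2 (by rw [← cy, k1])
    · exact hy (congrArg Pass.crossing e1)
  · rcases cyc_word4 hc' with ⟨k1, k2⟩ | ⟨k1, k2⟩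
    · have k3 : T'.ta = !T'.ta := by
        rcases k1 with k1 | k1
        · exact congrArg Pass.isOver k1
        · exact congrArg Pass.isOver k1
      cases h5 : T'.ta <;> simp [h5] at k3
    · have k3 : T'.ta = T'.tc := by
        rcases k1 with k1 | k1
        · exact congrArg Pass.isOver k1
        · exact congrArg Pass.isOver k1
      have k4 : T'.tb = !T'.ta := by
        rcases k2 with k2 | k2
        · exact congrArg Pass.isOver k2
        · exact congrArg Pass.isOver k2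
      revert ok1 k3 k4
      cases T'.ta <;> cases T'.tb <;> cases T'.tc <;> simp
  · rcases cyc_word4 hc' with ⟨k1, k2⟩ | ⟨k1, k2⟩
    · have k3 : T'.ta = !T'.tb := by
        rcases k1 with k1 | k1
        · exact congrArg Pass.isOver k1
        · exact congrArg Pass.isOver k1
      have k4 : T'.tb = !T'.tc := by
        rcases k2 with k2 | k2
        · exact congrArg Pass.isOver k2
        · exact congrArg Pass.isOver k2
      revert ok1 k3 k4
      cases T'.ta <;> cases T'.tb <;> cases T'.tc <;> simp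
    · have k3 : T'.tb = !T'.tb := by
        rcases k2 with k2 | k2
        · exact congrArg Pass.isOver k2
        · exact congrArg Pass.isOver k2
      cases h5 : T'.tb <;> simp [h5] at k3

/-- two triple points joined by a plain bigon annihilate -/
theorem bigon_annih' {e₁ e₂ : ℕ × ℕ × ℕ} {R : List (ℕ × ℕ × ℕ)} (hR : Good R) (he₁ : e₁ ∈ R)
    (he₂ : e₂ ∈ R) {D O : Code} {T₁ T₂ : Tri} {m : ℕ → ℕ} (h₁ : Rol (fn e₁) T₁)
    (h₂ : Rol (fn e₂) T₂) (hw : WF (passes (D ++ (T₁.code ++ (T₂.code ++ O)))))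
    (hm : InvM (D ++ (T₁.code ++ (T₂.code ++ O))) m) {p y : Pass} (hpy : Nx T₁ p y)
    (hyp : Nx T₂ (part m y) (part m p)) (hp : m p.crossing ≠ p.crossing)
    (hy : m y.crossing ≠ y.crossing) : WF (passes (D ++ O)) ∧ ∃ m', InvM (D ++ O) m' := by
  obtain ⟨T, he, rfl, rfl, hs⟩ := nf hpy
  have hT := hs.rol h₁
  obtain ⟨T', he', e1, e2, hs'⟩ := nf hyp
  have hs'' := hs'.tjk
  have hT'' := hs''.rol h₂
  -- replace the codes
  have m1 : InvM (D ++ (T.code ++ (T₂.code ++ O))) m := Pool.Agent.Y874.TP2.invM_ceq hs.ceq hm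
  have w1 : WF (passes (D ++ (T.code ++ (T₂.code ++ O)))) := wf_ceq hs.ceq hw
  have hass : ∀ E : Code, D ++ (T.code ++ (E ++ O)) = (D ++ T.code) ++ (E ++ O) := by
    intro E; simp
  rw [part_of_ne hp] at e1
  rw [part_of_ne hy] at e2
  simp only [Tri.pa₁, Tri.pb₁] at hp hy e1 e2
  simp only [Pass.mk.injEq] at e1 e2
  obtain ⟨b1, b2, b3⟩ := e1
  obtain ⟨a1, a2, a3⟩ := e2
  -- heights
  have ta : T'.tjk.ta = T.ta := a2.symm
  have tb : T'.tjk.tb = T.tb := b2.symm
  have hmemT : ∀ q, q ∈ passes T.code → q ∈ passes (D ++ (T.code ++ (T₂.code ++ O))) := by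
    intro q hq; simp only [passes_append', List.mem_append]; exact Or.inr (Or.inl hq)
  have ca : colour T'.tjk.a₁ = colour T.a₁ := by
    have := (m1.2.1 T.pa₁ (hmemT _ (by rw [mem_code]; simp))).1
    simp only [Tri.pa₁] at this
    rw [a1] at this
    exact this
  have cb : colour T'.tjk.b₁ = colour T.b₁ := by
    have := (m1.2.1 T.pb₁ (hmemT _ (by rw [mem_code]; simp))).1
    simp only [Tri.pb₁] at this
    rw [b1] at this
    exact this
  have tc : T'.tjk.tc = T.tc := by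
    have o1 := hT.ok.1
    have o2 := hT''.ok.1
    have ca' := ca
    have cb' := cb
    rw [hT''.a, hT.a] at ca'
    rw [hT''.b, hT.b] at cb'
    unfold ra at ca'
    unfold rb at cb'
    rw [ta] at o2 cb'
    rw [tb] at o2 ca'
    by_contra hne
    have g1 := hR.top e₁ he₁ e₂ he₂
    have g2 := hR.bot e₁ he₁ e₂ he₂
    revert o1 o2 ca' cb' hne
    cases T'.tjk.tc <;> cases T.tc <;> cases T.ta <;> cases T.tb <;> simp [fn] <;> intro i1 i2
    all_goals first | exact g1 ⟨i1.symm, i2.symm⟩ | exact g1 ⟨i2.symm, i1.symm⟩ | exact g2 ⟨i1.symm, i2.symm⟩ | exact g2 ⟨i2.symm, i1.symm⟩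
  have era : ra T'.tjk = ra T := by unfold ra; rw [tb, tc]
  have erb : rb T'.tjk = rb T := by unfold rb; rw [ta, tc]
  have erc : rc T'.tjk = rc T := by unfold rc; rw [ta, tb]
  obtain ⟨l1, l2, l3, l4, l5, l6, -, -⟩ := lev_tab hT.ok
  have hee : e₁ = e₂ := by
    have ca' := ca
    have cb' := cb
    rw [hT''.a, hT.a, era] at ca'
    rw [hT''.b, hT.b, erb] at cb'
    refine hR.third e₁ he₁ e₂ he₂ ?_
    revert l1 l2 l4 ca' cb'
    generalize ra T = s
    generalize rb T = t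
    intro l1 l2 l4 ca' cb'
    interval_cases s <;> interval_cases t <;> simp [fn] at l4 ca' cb' ⊢ <;> tauto
  subst hee
  have sa : T'.tjk.sa = !T.sa := by
    have h1 : (!!T.sa) = !T'.sb := a3
    have h2 : T'.tjk.sa = T'.sb := rfl
    rw [h2]
    exact (Bool.not_inj h1).symm
  have sb : T'.tjk.sb = !T.sb := by
    have h1 : (!!T.sb) = !T'.sa := b3
    have h2 : T'.tjk.sb = T'.sa := rfl
    rw [h2]
    exact (Bool.not_inj h1).symm
  have ei : T'.tjk.ei = !T.ei := by
    have h2 : T'.tjk.ei = !T'.ei := rfl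
    rw [h2, he, he']
  have fin : ∀ T₃ : Tri, Sy T₂ T₃ → Mir T T₃ → T₃.a₁ = T'.tjk.a₁ → T₃.b₁ = T'.tjk.b₁ →
      WF (passes (D ++ O)) ∧ ∃ m', InvM (D ++ O) m' := by
    intro T₃ g1 g2 g3 g4
    have hT₃ := g1.rol h₂
    have m2 : InvM (D ++ (T.code ++ (T₃.code ++ O))) m := by
      rw [hass] at m1 ⊢
      exact Pool.Agent.Y874.TP2.invM_ceq g1.ceq m1
    have w2 : WF (passes (D ++ (T.code ++ (T₃.code ++ O)))) := by
      rw [hass] at w1 ⊢
      exact wf_ceq g1.ceq w1
    refine annih g2 w2 m2 (a1.trans g3.symm) (b1.trans g4.symm) ?_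
    have e1 : ra T₃ = ra T := by unfold ra; rw [g2.tb, g2.tc]
    have e2 : rb T₃ = rb T := by unfold rb; rw [g2.ta, g2.tc]
    have e3 : rc T₃ = rc T := by unfold rc; rw [g2.ta, g2.tb]
    intro x hx
    simp only [pairs, List.mem_cons, List.not_mem_nil, or_false] at hx
    rcases hx with rfl | rfl | rfl | rfl | rfl | rfl
    · simp only; rw [hT.a, hT₃.a, e1]
    · simp only; rw [hT.col.1, hT₃.col.1, hT.a, hT₃.a, e1]
    · simp only; rw [hT.b, hT₃.b, e2]
    · simp only; rw [hT.col.2.1, hT₃.col.2.1, hT.b, hT₃.b, e2]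
    · simp only; rw [hT.c, hT₃.c, e3]
    · simp only; rw [hT.col.2.2, hT₃.col.2.2, hT.c, hT₃.c, e3]
  obtain ⟨-, o1, o2⟩ := hT.ok
  obtain ⟨-, o3, o4⟩ := hT''.ok
  simp only [ta, tb, tc, sa, sb, ei] at o3 o4
  rcases tab_mir _ _ _ _ _ _ _ _ _ _ _ _ o1 o2 o3 o4 with ⟨k1, k2, k3⟩ | ⟨k1, k2, k3⟩
  · exact fin T'.tjk hs'' ⟨ta, tb, tc, sa, sb, k1, ei, k2, k3⟩ rfl rfl
  · refine fin _ hs''.swapC ⟨ta, tb, tc, sa, sb, ?_, ei, ?_, ?_⟩ rfl rfl
    · simp only; rw [k1]
    · simp only; rw [k2]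
    · simp only; rw [k3]

/-- no bigon passes through a branch point -/
theorem bigon_branch {e : ℕ × ℕ × ℕ} {R : List (ℕ × ℕ × ℕ)} (hR : Good R) (he : e ∈ R)
    {T : Tri} (h : Rol (fn e) T) {x y x' y' : Pass} (h1 : Nx T x y ∨ Nx T y x)
    (h2 : Nx T x' y' ∨ Nx T y' x')
    (hx : x' = x.mate) (c1 : colour x.crossing % 2 = 0) (c2 : colour y'.crossing = colour y.crossing)
    (c3 : colour y.crossing % 2 ≠ 0 → y'.isOver = y.isOver) : False := by
  have key : ∀ {x y : Pass}, (Nx T x y ∨ Nx T y x) → ∃ s t, s < 3 ∧ t < 3 ∧ s ≠ t ∧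
      colour x.crossing = fn e s ∧ colour y.crossing = fn e t ∧
      x.isOver = lev s t ∧ y.isOver = lev t s := by
    rintro x y (k | k)
    · exact cor_lev h k
    · obtain ⟨s, t, k1, k2, k3, k4, k5, k6, k7⟩ := cor_lev h k
      exact ⟨t, s, k2, k1, k3.symm, k5, k4, k7, k6⟩
  obtain ⟨n1, n2, n3⟩ := hR.ne he
  obtain ⟨s, t, k1, k2, k3, k4, k5, k6, k7⟩ := key h1
  obtain ⟨s', t', j1, j2, j3, j4, j5, j6, j7⟩ := key h2
  subst hx
  simp only [Pass.mate] at j4 j6
  rw [j4] at k4 c1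
  rw [k5] at c2 c3
  rw [j5] at c2
  rw [j7, k7] at c3
  rw [k6] at j6
  clear k5 j5 k7 j7 key h1 h2 k6 j4
  revert n1 n2 n3 k4 c1 c2 c3 j6
  interval_cases s <;> interval_cases t <;> first | exact absurd rfl k3 | skip
  all_goals interval_cases s' <;> interval_cases t' <;> first | exact absurd rfl j3 | skip
  all_goals simp only [fn, lev]
  all_goals simp
  all_goals intros
  all_goals omega

/-- the class of the systems of triple points -/
def GP3 (R : List (ℕ × ℕ × ℕ)) (Ts : List Tri) (_ : ℕ → ℕ) : Prop :=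
  ∀ T ∈ Ts, ∃ e ∈ R, Rol (fn e) T

theorem good_small {R : List (ℕ × ℕ × ℕ)} (hR : Good R) {D : Code} {Ts : List Tri} {m : ℕ → ℕ}
    (hw : WF (passes (D ++ TC Ts)))
    (hm : InvM (D ++ TC Ts) m) (hP : GP3 R Ts m) (hs : Small (TC Ts) m) :
    ∃ Ts', Ts'.length < Ts.length ∧ InvP (GP3 R) D Ts' := by
  have info : ∀ x y, Cor (TC Ts) x y → s(kap x, kap y) ∈ R.flatMap cuts ∧
      x ∈ passes (D ++ TC Ts) ∧ y ∈ passes (D ++ TC Ts) := by
    intro x y h
    obtain ⟨T, hT, h⟩ := cor_TC h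
    obtain ⟨e, he, h'⟩ := hP T hT
    obtain ⟨h8, h9⟩ := nx_mem h
    exact ⟨List.mem_flatMap.2 ⟨e, he, cor_cut h' h⟩, mem_all hT h8, mem_all hT h9⟩
  rcases hs with ⟨p, h1⟩ | ⟨p, y, h1, h2⟩ | ⟨p, y, z, h1, h2, h3⟩
  · exfalso
    obtain ⟨k1, k2, k3⟩ := info _ _ h1
    rw [kap_part hm k2] at k1
    exact hR.tri _ _ _ k1 k1 k1
  · obtain ⟨-, k8, k9⟩ := info _ _ h1
    obtain ⟨T₁, hT₁, n1⟩ := cor_TC h1
    obtain ⟨T₂, hT₂, n2⟩ := cor_TC h2
    obtain ⟨e₁, he₁, r₁⟩ := hP T₁ hT₁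
    obtain ⟨e₂, he₂, r₂⟩ := hP T₂ hT₂
    have even : ∀ {x : Pass}, x ∈ passes (D ++ TC Ts) → m x.crossing = x.crossing →
        colour x.crossing % 2 = 0 := by
      intro x hx h
      by_contra h5
      exact (hm.2.1 x hx).2 h5 h
    have pm : ∀ {x : Pass}, m x.crossing = x.crossing → part m x = x.mate := by
      intro x h
      unfold part
      rw [if_pos h]
    have ov : ∀ {x : Pass}, x ∈ passes (D ++ TC Ts) → colour x.crossing % 2 ≠ 0 →
        (part m x).isOver = x.isOver := by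
      intro x hx h
      rcases part_over (m := m) (x := x) with ⟨-, g⟩ | ⟨g, -⟩
      · exact g
      · exact absurd g ((hm.2.1 x hx).2 h)
    have hp : m p.crossing ≠ p.crossing := by
      intro h
      have e3 := pm h
      have hT : T₁ = T₂ := by
        refine same_tri hw hT₁ hT₂ (x := p.mate) (code_mate (nx_mem n1).1) ?_
        rw [← e3]
        exact (nx_mem n2).2
      subst hT
      exact bigon_branch hR he₁ r₁ (Or.inl n1) (Or.inr n2) e3 (even k8 h) (part_colour hm k9)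
        (ov k9)
    have hy : m y.crossing ≠ y.crossing := by
      intro h
      have e3 := pm h
      have hT : T₁ = T₂ := by
        refine same_tri hw hT₁ hT₂ (x := y.mate) (code_mate (nx_mem n1).2) ?_
        rw [← e3]
        exact (nx_mem n2).1
      subst hT
      exact bigon_branch hR he₁ r₁ (Or.inr n1) (Or.inl n2) e3 (even k9 h) (part_colour hm k8)
        (ov k8)
    have hne : T₂ ≠ T₁ := by
      rintro rfl
      exact bigon_ne' hR he₁ r₁ n1 n2 hp hy (hm.2.1 y k9).1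
    obtain ⟨l₁, l₂, rfl⟩ := List.append_of_mem hT₁
    have hT₂' : T₂ ∈ l₁ ++ l₂ := by
      simp only [List.mem_append, List.mem_cons] at hT₂ ⊢
      tauto
    obtain ⟨k₁, k₂, ek⟩ := List.append_of_mem hT₂'
    have perm1 : (D ++ TC (l₁ ++ T₁ :: l₂)).Perm (D ++ (T₁.code ++ TC (l₁ ++ l₂))) := by
      refine List.Perm.append_left _ ?_
      simp only [TC, List.flatMap_append, List.flatMap_cons]
      rw [← List.append_assoc, ← List.append_assoc]
      exact List.Perm.append_right _ List.perm_append_comm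
    have perm2 : (D ++ (T₁.code ++ TC (l₁ ++ l₂))).Perm
        (D ++ (T₁.code ++ (T₂.code ++ TC (k₁ ++ k₂)))) := by
      rw [ek]
      refine List.Perm.append_left _ (List.Perm.append_left _ ?_)
      simp only [TC, List.flatMap_append, List.flatMap_cons]
      rw [← List.append_assoc, ← List.append_assoc]
      exact List.Perm.append_right _ List.perm_append_comm
    have hperm := perm1.trans perm2
    have hm' := Pool.Agent.Y874.TP2.invM_perm hperm hm
    have hw' := WF.perm (passes_perm hperm) hw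
    obtain ⟨g1, m', g2⟩ := bigon_annih' hR he₁ he₂ r₁ r₂ hw' hm' n1 n2 hp hy
    have hsub : ∀ T ∈ k₁ ++ k₂, T ∈ l₁ ++ T₁ :: l₂ := by
      intro T hT
      have : T ∈ l₁ ++ l₂ := by
        rw [ek]
        simp only [List.mem_append, List.mem_cons] at hT ⊢
        tauto
      simp only [List.mem_append, List.mem_cons] at this ⊢
      tauto
    refine ⟨k₁ ++ k₂, ?_, g1, fun T hT => ?_, m', g2, fun T hT => hP T (hsub T hT)⟩
    · have := congrArg List.length ek
      simp only [List.length_append, List.length_cons] at this ⊢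
      omega
    · obtain ⟨e, -, h⟩ := hP T (hsub T hT)
      exact ⟨h.ok, h.col⟩
  · exfalso
    obtain ⟨k1, k2, k3⟩ := info _ _ h1
    obtain ⟨j1, j2, j3⟩ := info _ _ h2
    obtain ⟨i1, i2, i3⟩ := info _ _ h3
    rw [kap_part hm k3] at j1
    rw [kap_part hm j3, kap_part hm k2] at i1
    rw [Sym2.eq_swap] at i1
    exact hR.tri _ _ _ k1 j1 i1

theorem good_cls {R : List (ℕ × ℕ × ℕ)} (hR : Good R) : Cls (GP3 R) where
  same := by
    intro Ts' Ts m h hP
    induction h with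
    | nil => intro T hT; exact absurd hT (by simp)
    | @cons T' T Ts' Ts h _ ih =>
      obtain ⟨i, j, k, rfl⟩ := h
      intro T₁ hT₁
      rcases List.mem_cons.1 hT₁ with rfl | hT₁
      · obtain ⟨e, he, h⟩ := hP T (by simp)
        exact ⟨e, he, rol_relabel h⟩
      · exact ih (fun T hT => hP T (by simp [hT])) T₁ hT₁
  del := by
    intro l₁ T l₂ m m' hP _ T₁ hT₁
    refine hP T₁ ?_
    simp only [List.mem_append, List.mem_cons] at hT₁ ⊢
    tauto
  small := fun D Ts m _ hw _ hm hP hs => good_small hR hw hm hP hs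

end Pool.Agent.V11206
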