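import Pool.Agent.V11206.Dart

/-! The joins of an irreducible system. -/

set_option autoImplicit false

namespace Pool.Agent.V11206

open Pool.Agent.Y468.SR
open Pool.Agent.Y874.TP hiding InvM InvC CM CReid CStep SMovie Inv3
open Pool.Agent.Y874.TP2
open Pool.Agent.Y761.TP2 (uniq side part_mem)

set_option linter.unusedSimpArgs false
set_option linter.unusedVariables false

variable {D : Code} {Ts : List Tri} {t : ℕ} {m : ℕ → ℕ}

theorem Stp.sit (h : Stp D Ts t m) {T : Tri} (hT : T ∈ Ts) :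
    ∃ l₁ l₂, Ts = l₁ ++ T :: l₂ ∧ Sit D (TC (l₁ ++ l₂)) T m ∧ ¬Res D (TC (l₁ ++ l₂)) T m := by
  obtain ⟨l₁, l₂, e⟩ := List.append_of_mem hT
  exact ⟨l₁, l₂, e, sit_of h.sf e, h.ir.res l₁ T l₂ e⟩

theorem nmz_eq (Ts : List Tri) (j : ℕ) {x : ℕ} (hx : x < 6) :
    nmz Ts (6 * j + x) = nmT (tr Ts j) (ix6 x) := by
  unfold nmz
  rw [show (6 * j + x) / 6 = j by omega, show (6 * j + x) % 6 = x by omega]

theorem Stp.br (h : Stp D Ts t m) {x : ℕ} (hx : x < 6 * Ts.length) (hc : cz Ts m x = x) :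
    CF.ty x = 1 := by
  have h1 := (h.cz_iff hx).1 hc
  obtain ⟨l₁, l₂, e, hs, hr⟩ := h.sit (mem_tr (show x / 6 < Ts.length by omega))
  have hcan := h.sf.can _ (mem_tr (show x / 6 < Ts.length by omega))
  by_contra hty
  have h2 : Mt (tr Ts (x / 6)) m (ix6 (x % 6)) (ix6 (x % 6)) := h1
  refine hr (ra_ix hs h2 ?_)
  rw [hcan.ta, hcan.tb, hcan.tc]
  have key : ∀ y < 6, y / 2 ≠ 1 → raOK true true true (ix6 y) = true := by decide
  exact key _ (Nat.mod_lt _ (by norm_num)) hty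

/-- two passages of one triple point following one another are not joined -/
theorem Stp.nomono (h : Stp D Ts t m) {d : ℕ} (hd : d < 12 * Ts.length)
    (hl : ¬CF.Lf (cz Ts m) d) : CF.mt (cz Ts m) d ≠ CF.nx t d := by
  intro e
  have hj : d / 12 < Ts.length := by omega
  obtain ⟨l₁, l₂, e1, hs, hr⟩ := h.sit (mem_tr hj)
  obtain ⟨h1, h2⟩ := h.mt hd hl
  rw [e] at h2
  refine hr (mono_red hs (x := pz Ts d) ?_)
  have h3 : Nx (tr Ts (d / 12)) (pz Ts d)
      (ps (tr Ts (d / 12)) (nT (tr Ts (d / 12)) (ix6 (d % 12 / 2)) (d % 2 == 0)).1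
        (nT (tr Ts (d / 12)) (ix6 (d % 12 / 2)) (d % 2 == 0)).2) := nxt_nx _ _ _
  have h4 := h.nx (mem_tr hj) hd h3
  rw [h4, ← h2] at h3
  exact h3

theorem code_four {Ts : List Tri} : ∀ C ∈ TC Ts, C.1.length = 4 := by
  intro C hC
  obtain ⟨x0, x1, x2, x3, h⟩ := four_TC hC
  rw [h]; rfl

theorem Stp.par (h : Stp D Ts t m) {T : Tri} (hT : T ∈ Ts) :
    m T.a₁ ≠ T.a₂ ∧ m T.b₁ ≠ T.b₂ ∧ m T.c₁ ≠ T.c₂ := by
  obtain ⟨l₁, l₂, e, hs, -⟩ := h.sit hT
  exact parity_all h.nd hs.wf hs.inv code_four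

/-- joined crossings have opposite signs -/
theorem Stp.sgn (h : Stp D Ts t m) {x : ℕ} (hx : x < 6 * Ts.length)
    (hc : cz Ts m x < 6 * Ts.length) (hne : cz Ts m x ≠ x) : cz Ts m x % 2 ≠ x % 2 := by
  have hK := h.K3
  have hd : 2 * x < 12 * Ts.length := by omega
  have e2 : 2 * x / 2 = x := by omega
  have hl : ¬CF.Lf (cz Ts m) (2 * x) := by
    unfold CF.Lf
    rw [e2]; omega
  obtain ⟨h1, h2⟩ := h.mt hd hl
  have hmt : CF.mt (cz Ts m) (2 * x) = 2 * cz Ts m x := by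
    unfold CF.mt
    rw [e2, if_neg hne]; omega
  rw [hmt] at h1 h2
  have h3 := congrArg Pass.isPos h2
  have h4 : m (pz Ts (2 * x)).crossing ≠ (pz Ts (2 * x)).crossing := by
    rw [pz_cross, e2]
    intro h5
    exact hne ((h.cz_iff hx).2 h5)
  unfold part at h3
  rw [if_neg h4] at h3
  have pos : ∀ g < 6 * Ts.length, (pz Ts (2 * g)).isPos = (g % 2 == 0) := by
    intro g hg
    have hcan := h.sf.can _ (mem_tr (show g / 6 < Ts.length by omega))
    unfold pz ps
    simp only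
    have e1 : 2 * g / 12 = g / 6 := by omega
    have e3 : 2 * g % 12 / 2 = g % 6 := by omega
    rw [e1, e3, hcan.sa, hcan.sb, hcan.sc]
    have e4 : g % 2 = g % 6 % 2 := by omega
    rw [e4]
    have h6 : g % 6 < 6 := Nat.mod_lt _ (by norm_num)
    interval_cases g % 6 <;> rfl
  rw [pos _ hc] at h3
  simp only [pos _ hx] at h3
  intro h5
  rw [h5] at h3
  cases h6 : (x % 2 == 0) <;> rw [h6] at h3 <;> simp at h3

/-- the check for `mono_fact` -/
def monoB (t h g : ℕ) : Bool :=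
  !(h / 6 == g / 6 && h % 2 != g % 2 && CF.ty h != CF.ty g && (CF.ty h == 1 || CF.ty g == 1)) ||
    (CF.nx t (2 * h) == 2 * g || CF.nx t (2 * h + 1) == 2 * g + 1 || CF.nx t (2 * g) == 2 * h ||
      CF.nx t (2 * g + 1) == 2 * h + 1)

theorem monoB_all : ∀ t < 4, ∀ h < 18, ∀ g < 18, monoB t h g = true := by decide +kernel

theorem mono_fact (t : ℕ) (ht : t < 4) (h : ℕ) (hh : h < 18) (g : ℕ) (hg : g < 18)
    (h1 : h / 6 = g / 6) (h2 : h % 2 ≠ g % 2) (h3 : CF.ty h ≠ CF.ty g)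
    (h4 : CF.ty h = 1 ∨ CF.ty g = 1) :
    (CF.nx t (2 * h) = 2 * g ∨ CF.nx t (2 * h + 1) = 2 * g + 1 ∨ CF.nx t (2 * g) = 2 * h ∨
      CF.nx t (2 * g + 1) = 2 * h + 1) := by
  have := monoB_all t ht h hh g hg
  unfold monoB at this
  simp only [Bool.or_eq_true, Bool.not_eq_true', Bool.and_eq_false_iff, beq_iff_eq,
    bne_eq_false_iff_eq, beq_eq_false_iff_ne, Bool.or_eq_false_iff] at this
  rcases this with this | this
  · exfalso
    rcases this with ((h5 | h5) | h5) | h5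
    · exact h5 h1
    · exact h2 h5
    · exact h3 h5
    · rcases h4 with h4 | h4
      · exact h5.1 h4
      · exact h5.2 h4
  · tauto

theorem Stp.okk (h : Stp D Ts t m) {x : ℕ} (hx : x < 6 * Ts.length)
    (hc : cz Ts m x < 6 * Ts.length) (hne : cz Ts m x ≠ x) : CF.al x (cz Ts m x) = true := by
  have hK := h.K3
  have hs := h.sgn hx hc hne
  by_contra hal
  unfold CF.al at hal
  simp only [Bool.and_eq_true, bne_iff_ne, ne_eq, Bool.or_eq_true, not_and, not_or, not_not] at hal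
  obtain ⟨h1, h2⟩ := hal fun e => hs e.symm
  have hj : x / 6 < Ts.length := by omega
  have hin := h.cz_inv hx hc
  have hm := (h.cz_iff hc).1 rfl
  by_cases hty : CF.ty x = CF.ty (cz Ts m x)
  · -- the two ends of one double arc
    obtain ⟨p1, p2, p3⟩ := h.par (mem_tr hj)
    have key : ∀ y z : ℕ, y / 6 < Ts.length → y / 6 = z / 6 → CF.ty y = CF.ty z → y % 2 = 0 →
        z % 2 = 1 → m (nmz Ts y) = nmz Ts z → False := by
      intro y z hy h3 h4 h5 h6 h7
      obtain ⟨p1, p2, p3⟩ := h.par (mem_tr hy)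
      unfold nmz at h7
      rw [← h3] at h7
      have h8 : z % 6 = y % 6 + 1 := by unfold CF.ty at h4; omega
      rw [h8] at h7
      have h9 : y % 6 = 0 ∨ y % 6 = 2 ∨ y % 6 = 4 := by omega
      rcases h9 with h9 | h9 | h9 <;> rw [h9] at h7
      · exact p1 h7
      · exact p2 h7
      · exact p3 h7
    rcases Nat.mod_two_eq_zero_or_one x with h3 | h3
    · exact key x (cz Ts m x) hj h1 hty h3 (by omega) hm
    · refine key (cz Ts m x) x (by omega) h1.symm hty.symm (by omega) h3 ?_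
      rw [← hm]; exact h.inv1 hx
  · have hty1 : CF.ty x = 1 ∨ CF.ty (cz Ts m x) = 1 := by
      by_contra hcon
      rw [not_or] at hcon
      exact hcon.2 (h2 ⟨hty, hcon.1⟩)
    have hmt : ∀ y, cz Ts m y ≠ y → ∀ r < 2, CF.mt (cz Ts m) (2 * y + r) = 2 * cz Ts m y + r := by
      intro y hy r hr
      unfold CF.mt
      rw [show (2 * y + r) / 2 = y by omega, if_neg hy, show (2 * y + r) % 2 = r by omega]
    have hlf : ∀ y, cz Ts m y < 6 * Ts.length → ∀ r < 2, ¬CF.Lf (cz Ts m) (2 * y + r) := by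
      intro y hy r hr
      unfold CF.Lf
      rw [show (2 * y + r) / 2 = y by omega]; omega
    have hc2 : cz Ts m (cz Ts m x) < 6 * Ts.length := by rw [hin]; exact hx
    have hne2 : cz Ts m (cz Ts m x) ≠ cz Ts m x := by rw [hin]; exact hne.symm
    rcases mono_fact t (by have := h.tK; omega) x (by omega) (cz Ts m x) (by omega) h1
      (fun e => hs e.symm) hty hty1 with h3 | h3 | h3 | h3
    · exact h.nomono (d := 2 * x + 0) (by omega) (hlf x hc 0 (by omega))
        (by rw [hmt x hne 0 (by omega)]; exact h3.symm)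
    · exact h.nomono (d := 2 * x + 1) (by omega) (hlf x hc 1 (by omega))
        (by rw [hmt x hne 1 (by omega)]; exact h3.symm)
    · exact h.nomono (d := 2 * cz Ts m x + 0) (by omega) (hlf _ hc2 0 (by omega))
        (by rw [hmt _ hne2 0 (by omega), hin]; exact h3.symm)
    · exact h.nomono (d := 2 * cz Ts m x + 1) (by omega) (hlf _ hc2 1 (by omega))
        (by rw [hmt _ hne2 1 (by omega), hin]; exact h3.symm)

/-! ### annihilating pairs -/

theorem Mir.swapA {T T' : Tri} (h : Mir T T') : Mir T.swapA T'.swapA where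
  ta := h.ta
  tb := h.tb
  tc := h.tc
  sa := by show (!T'.sa) = !(!T.sa); rw [h.sa]
  sb := h.sb
  sc := h.sc
  ei := by show (!T'.ei) = !(!T.ei); rw [h.ei]
  ej := by show (!T'.ej) = !(!T.ej); rw [h.ej]
  ek := h.ek

theorem Mir.swapB {T T' : Tri} (h : Mir T T') : Mir T.swapB T'.swapB where
  ta := h.ta
  tb := h.tb
  tc := h.tc
  sa := h.sa
  sb := by show (!T'.sb) = !(!T.sb); rw [h.sb]
  sc := h.sc
  ei := by show (!T'.ei) = !(!T.ei); rw [h.ei]
  ej := h.ej
  ek := by show (!T'.ek) = !(!T.ek); rw [h.ek]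

theorem Mir.tij {T T' : Tri} (h : Mir T T') : Mir T.tij T'.tij where
  ta := by show (!T'.ta) = !T.ta; rw [h.ta]
  tb := h.tc
  tc := h.tb
  sa := h.sa
  sb := h.sc
  sc := h.sb
  ei := h.ej
  ej := h.ei
  ek := by show (!T'.ek) = !(!T.ek); rw [h.ek]

theorem Mir.tjk {T T' : Tri} (h : Mir T T') : Mir T.tjk T'.tjk where
  ta := h.tb
  tb := h.ta
  tc := by show (!T'.tc) = !T.tc; rw [h.tc]
  sa := h.sb
  sb := h.sa
  sc := h.sc
  ei := by show (!T'.ei) = !(!T.ei); rw [h.ei]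
  ej := h.ek
  ek := h.ej

/-- two joins between a pair of opposite triple points -/
theorem Irr.ann' (h : Irr D Ts m) {l : List Tri} {T T' : Tri} (hp : Ts.Perm (T :: T' :: l))
    {T₁ T₁' : Tri} (s1 : Sy T T₁) (s2 : Sy T' T₁') (hm : Mir T₁ T₁')
    (ha : m T₁.a₁ = T₁'.a₁ ∨ m T₁.a₂ = T₁'.a₂) (hb : m T₁.b₁ = T₁'.b₁ ∨ m T₁.b₂ = T₁'.b₂) :
    False := by
  rcases ha with ha | ha <;> rcases hb with hb | hb
  · exact h.ann l T T' hp _ _ s1 s2 hm ha hb
  · exact h.ann l T T' hp _ _ s1.swapB s2.swapB hm.swapB ha hb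
  · exact h.ann l T T' hp _ _ s1.swapA s2.swapA hm.swapA ha hb
  · exact h.ann l T T' hp _ _ s1.swapA.swapB s2.swapA.swapB hm.swapA.swapB ha hb

/-- the names of type `u` are joined -/
def Jn (m : ℕ → ℕ) (T T' : Tri) (u : ℕ) : Prop :=
  m (nmT T (ix6 (2 * u))) = nmT T' (ix6 (2 * u)) ∨
    m (nmT T (ix6 (2 * u + 1))) = nmT T' (ix6 (2 * u + 1))

theorem Irr.ann'' (h : Irr D Ts m) {l : List Tri} {T T' : Tri} (hp : Ts.Perm (T :: T' :: l))
    {T₁ T₁' : Tri} (s1 : Sy T T₁) (s2 : Sy T' T₁') (hm : Mir T₁ T₁') {u v : ℕ} (hu : u < 3)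
    (hv : v < 3) (huv : u ≠ v) (ju : Jn m T₁ T₁' u) (jv : Jn m T₁ T₁' v) : False := by
  have hab : Jn m T₁ T₁' 0 → Jn m T₁ T₁' 1 → False := fun j0 j1 => h.ann' hp s1 s2 hm j0 j1
  have hac : Jn m T₁ T₁' 0 → Jn m T₁ T₁' 2 → False := fun j0 j2 =>
    h.ann' hp s1.tij s2.tij hm.tij j0 j2
  have hbc : Jn m T₁ T₁' 1 → Jn m T₁ T₁' 2 → False := fun j1 j2 =>
    h.ann' hp s1.tjk.tij s2.tjk.tij hm.tjk.tij j1 j2
  interval_cases u <;> interval_cases v
  · exact huv rfl
  · exact hab ju jv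
  · exact hac ju jv
  · exact hab jv ju
  · exact huv rfl
  · exact hbc ju jv
  · exact hac jv ju
  · exact hbc jv ju
  · exact huv rfl

/-- the description of the second triple point with all pairs exchanged -/
def opp (T : Tri) : Tri :=
  { T.swapA.swapB with c₁ := T.swapA.swapB.c₂, c₂ := T.swapA.swapB.c₁, sc := !T.swapA.swapB.sc, ej := !T.swapA.swapB.ej, ek := !T.swapA.swapB.ek }

theorem sy_opp (T : Tri) : Sy T (opp T) := (Sy.refl.swapA.swapB).swapC

theorem mir_opp {T T' : Tri} (h : Can T) (h' : Can T') (he : T'.ei = !T.ei) : Mir T (opp T') where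
  ta := by show T'.ta = T.ta; rw [h.ta, h'.ta]
  tb := by show T'.tb = T.tb; rw [h.tb, h'.tb]
  tc := by show T'.tc = T.tc; rw [h.tc, h'.tc]
  sa := by show (!T'.sa) = !T.sa; rw [h.sa, h'.sa]
  sb := by show (!T'.sb) = !T.sb; rw [h.sb, h'.sb]
  sc := by show (!T'.sc) = !T.sc; rw [h.sc, h'.sc]
  ei := by show (!(!T'.ei)) = !T.ei; rw [he]; simp
  ej := by show (!(!T'.ej)) = !T.ej; rw [h'.ej, h.ej, he]; simp
  ek := by show (!(!T'.ek)) = !T.ek; rw [h'.ek, h.ek, he]; simp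

theorem nm_opp (T : Tri) : ∀ u < 3, nmT (opp T) (ix6 (2 * u)) = nmT T (ix6 (2 * u + 1)) ∧
    nmT (opp T) (ix6 (2 * u + 1)) = nmT T (ix6 (2 * u)) := by
  intro u hu
  interval_cases u <;> exact ⟨rfl, rfl⟩

theorem perm_two {Ts : List Tri} {i j : ℕ} (hi : i < Ts.length) (hj : j < Ts.length)
    (hne : i ≠ j) : ∃ l, Ts.Perm (tr Ts i :: tr Ts j :: l) := by
  have h1 : Ts = Ts.take i ++ tr Ts i :: Ts.drop (i + 1) := by
    unfold tr
    rw [List.getD_eq_getElem _ _ hi]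
    rw [← List.drop_eq_getElem_cons hi, List.take_append_drop]
  have h2 : Ts.Perm (tr Ts i :: (Ts.take i ++ Ts.drop (i + 1))) := by
    conv_lhs => rw [h1]
    exact List.perm_middle
  have h3 : tr Ts j ∈ Ts.take i ++ Ts.drop (i + 1) := by
    rcases Nat.lt_or_gt_of_ne hne with h | h
    · refine List.mem_append_right _ ?_
      unfold tr
      rw [List.getD_eq_getElem _ _ hj]
      refine List.mem_iff_getElem.2 ⟨j - (i + 1), by rw [List.length_drop]; omega, ?_⟩
      rw [List.getElem_drop]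
      congr 1; omega
    · refine List.mem_append_left _ ?_
      unfold tr
      rw [List.getD_eq_getElem _ _ hj]
      refine List.mem_iff_getElem.2 ⟨j, by rw [List.length_take]; omega, ?_⟩
      rw [List.getElem_take]
  obtain ⟨a, b, e⟩ := List.append_of_mem h3
  refine ⟨a ++ b, h2.trans (List.Perm.cons _ ?_)⟩
  rw [e]; exact List.perm_middle

theorem Stp.rcc (h : Stp D Ts t m) : ∀ x g, x < 6 * Ts.length → g < 6 * Ts.length →
    cz Ts m x < 6 * Ts.length → cz Ts m g < 6 * Ts.length → x / 6 = g / 6 →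
    cz Ts m x / 6 = cz Ts m g / 6 → decide (x / 6 < t) ≠ decide (cz Ts m x / 6 < t) →
    CF.ty (cz Ts m x) = CF.ty x → CF.ty (cz Ts m g) = CF.ty g → CF.ty x = CF.ty g := by
  intro x g hx hg hcx hcg h1 h2 h3 h4 h5
  by_contra hne
  have hi : x / 6 < Ts.length := by omega
  have hj : cz Ts m x / 6 < Ts.length := by omega
  have hij : x / 6 ≠ cz Ts m x / 6 := fun e => h3 (by rw [← e])
  obtain ⟨l, hp⟩ := perm_two hi hj hij
  have ei := h.sg _ hi
  have ej := h.sg _ hj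
  have he : (tr Ts (cz Ts m x / 6)).ei = !(tr Ts (x / 6)).ei := by
    rw [ei, ej]
    revert h3
    cases decide (x / 6 < t) <;> cases decide (cz Ts m x / 6 < t) <;> simp
  have hmir := mir_opp (h.sf.can _ (mem_tr hi)) (h.sf.can _ (mem_tr hj)) he
  have hJ : ∀ y, y < 6 * Ts.length → cz Ts m y < 6 * Ts.length → y / 6 = x / 6 →
      cz Ts m y / 6 = cz Ts m x / 6 → CF.ty (cz Ts m y) = CF.ty y →
      Jn m (tr Ts (x / 6)) (opp (tr Ts (cz Ts m x / 6))) (CF.ty y) := by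
    intro y hy hcy e1 e2 e3
    have hs := h.sgn hy hcy (by
      intro e
      rw [e] at e2
      exact hij (e1.symm.trans e2))
    have hm := (h.cz_iff hcy).1 rfl
    unfold nmz at hm
    rw [e1, e2] at hm
    have hty : CF.ty y < 3 := by unfold CF.ty; omega
    obtain ⟨o1, o2⟩ := nm_opp (tr Ts (cz Ts m x / 6)) _ hty
    unfold Jn
    rw [o1, o2]
    rcases Nat.mod_two_eq_zero_or_one y with h6 | h6
    · left
      have f1 : y % 6 = 2 * CF.ty y := by unfold CF.ty; omega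
      have f2 : cz Ts m y % 6 = 2 * CF.ty y + 1 := by rw [← e3]; unfold CF.ty; omega
      rw [f1, f2] at hm
      exact hm
    · right
      have f1 : y % 6 = 2 * CF.ty y + 1 := by unfold CF.ty; omega
      have f2 : cz Ts m y % 6 = 2 * CF.ty y := by rw [← e3]; unfold CF.ty; omega
      rw [f1, f2] at hm
      exact hm
  exact h.ir.ann'' hp Sy.refl (sy_opp _) hmir (by unfold CF.ty; omega) (by unfold CF.ty; omega) hne
    (hJ x hx hcx rfl rfl h4) (hJ g hg hcg h1.symm h2.symm h5)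

end Pool.Agent.V11206
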