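import Pool.Agent.V11206.TriElim

/-! Reductions of one triple point. -/

set_option autoImplicit false

namespace Pool.Agent.V11206

open Pool.Agent.Y468.SR
open Pool.Agent.Y874.TP (colour NullV Tri TC Cyc passes_append' word4 mem_code exists_bound wf_ceq)
open Pool.Agent.Y874.TP2 (part InvM CM)
open Pool.Agent.Y968.TP (Occ matching_iff VV val_VV VV_mk)

section
variable {G : Type} [Group G]

theorem v4_comm (e : Bool) (p q : G) : v4 e p q p⁻¹ q⁻¹ = 1 := by
  cases e <;> simp [v4]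

theorem v4_one₁ (e : Bool) (q : G) : v4 e 1 1 q q⁻¹ = 1 := by
  cases e <;> simp [v4]

theorem v4_one₂ (e : Bool) (q : G) : v4 e q q⁻¹ 1 1 = 1 := by
  cases e <;> simp [v4]

theorem v4_one (e : Bool) : v4 e (1 : G) 1 1 1 = 1 := by
  cases e <;> simp [v4]

end

/-- the six names are different -/
theorem six_ne {T : Tri} {P : List Pass} (hw : WF (passes T.code ++ P)) :
    [T.a₁, T.a₂, T.b₁, T.b₂, T.c₁, T.c₂].Nodup := by
  have h1 : ((passes T.code).map fun p => (p.crossing, p.isOver)).Nodup := by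
    have := hw.2
    rw [List.map_append] at this
    exact (List.nodup_append.1 this).1
  have h2 : ([(T.a₁, true), (T.a₂, true), (T.b₁, true), (T.b₂, true), (T.c₁, true),
      (T.c₂, true)]).Subperm ((passes T.code).map fun p => (p.crossing, p.isOver)) := by
    have h3 : ((passes T.code).map fun p => (p.crossing, p.isOver)).Perm
        [(T.a₁, true), (T.a₂, true), (T.b₁, true), (T.b₂, true), (T.c₁, true), (T.c₂, true),
          (T.a₁, false), (T.a₂, false), (T.b₁, false), (T.b₂, false), (T.c₁, false),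
          (T.c₂, false)] := by
      rw [List.perm_iff_count]
      intro x
      simp only [Tri.code, passes_cons, passes_nil, List.append_nil, List.map_append,
        List.count_append, Tri.wi, Tri.wj, Tri.wk, word4, Tri.pa₁, Tri.pa₂, Tri.pb₁, Tri.pb₂,
        Tri.pc₁, Tri.pc₂, Pass.mate]
      cases T.ei <;> cases T.ej <;> cases T.ek <;> cases T.ta <;> cases T.tb <;> cases T.tc <;>
        simp only [Bool.false_eq_true, if_true, if_false, List.map_cons, List.map_nil,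
          List.count_cons, List.count_nil, Bool.not_true, Bool.not_false] <;> omega
    refine List.Sublist.subperm ?_ |>.trans h3.symm.subperm
    exact List.sublist_append_left _ _
  have h4 : ([(T.a₁, true), (T.a₂, true), (T.b₁, true), (T.b₂, true), (T.c₁, true),
      (T.c₂, true)]).Nodup := by
    obtain ⟨l, hl, hs⟩ := h2
    exact hl.nodup_iff.1 (h1.sublist hs)
  exact List.Nodup.of_map (fun c => (c, true)) h4

theorem code_perm0 (D O : Code) (T : Tri) :
    (passes (D ++ (T.code ++ O))).Perm (passes T.code ++ passes (D ++ O)) := by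
  simp only [passes_append']
  rw [List.perm_iff_count]
  intro a
  simp only [List.count_append]
  omega

/-- two new names -/
theorem two_fresh (P : List Pass) : ∃ d₀ d₁ : ℕ, d₀ ≠ d₁ ∧ (∀ p ∈ P, p.crossing ≠ d₀ ∧ p.crossing ≠ d₁) ∧
    colour d₀ = 0 ∧ colour d₁ = 0 := by
  obtain ⟨K, hK⟩ := exists_bound P
  refine ⟨Nat.pair 0 (K + 0), Nat.pair 0 (K + 1), ?_, ?_, ?_, ?_⟩
  · intro h
    have := (Nat.pair_eq_pair.1 h).2
    omega
  · intro p hp
    have := hK p hp
    constructor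
    · intro he
      rw [he, Nat.unpair_pair] at this
      simp only at this
      omega
    · intro he
      rw [he, Nat.unpair_pair] at this
      simp only at this
      omega
  · rw [colour, Nat.unpair_pair]
  · rw [colour, Nat.unpair_pair]

/-- the situation of a reduction -/
structure Sit (D O : Code) (T : Tri) (m : ℕ → ℕ) : Prop where
  wf : WF (passes (D ++ (T.code ++ O)))
  inv : InvM (D ++ (T.code ++ O)) m
  ok : T.Ok
  zero : ∀ c, Nam T c → colour c = 0

/-- the result of a reduction -/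
def Res (D O : Code) (T : Tri) (m : ℕ → ℕ) : Prop :=
  WF (passes (D ++ O)) ∧ ∃ m', InvM (D ++ O) m' ∧
    Tr (Nam T) (fun c => ∃ q ∈ passes (D ++ O), q.crossing = c) m m'

theorem nam_sy {T T' : Tri} (h : Sy T T') (c : ℕ) : Nam T' c ↔ Nam T c := by
  induction h with
  | refl => exact Iff.rfl
  | swapA _ ih => rw [← ih]; unfold Nam Tri.swapA; simp only; tauto
  | swapB _ ih => rw [← ih]; unfold Nam Tri.swapB; simp only; tauto
  | tij _ ih => rw [← ih]; unfold Nam Tri.tij; simp only; tauto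
  | tjk _ ih => rw [← ih]; unfold Nam Tri.tjk; simp only; tauto

theorem Sit.sy {D O : Code} {T T' : Tri} {m : ℕ → ℕ} (hs : Sy T T') (h : Sit D O T m) :
    Sit D O T' m where
  wf := wf_ceq hs.ceq h.wf
  inv := Pool.Agent.Y874.TP2.invM_ceq hs.ceq h.inv
  ok := hs.ok h.ok
  zero := fun c hc => h.zero c ((nam_sy hs c).1 hc)

theorem Res.sy {D O : Code} {T T' : Tri} {m : ℕ → ℕ} (hs : Sy T T') (h : Res D O T' m) :
    Res D O T m := by
  obtain ⟨h1, m', h2, h3⟩ := h
  refine ⟨h1, m', h2, fun c hc => ?_⟩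
  rcases h3 c hc with h4 | ⟨h4, h5⟩
  · exact Or.inl h4
  · refine Or.inr ⟨(nam_sy hs _).1 h4, ?_⟩
    rcases h5 with h5 | ⟨y, h5, h6⟩
    · exact Or.inl h5
    · exact Or.inr ⟨y, (nam_sy hs _).1 h5, h6⟩

theorem code_mem (T : Tri) (q : Pass) : q ∈ passes T.code ↔
    (q.crossing = T.a₁ ∧ q.isPos = !T.sa) ∨ (q.crossing = T.a₂ ∧ q.isPos = T.sa) ∨
    (q.crossing = T.b₁ ∧ q.isPos = !T.sb) ∨ (q.crossing = T.b₂ ∧ q.isPos = T.sb) ∨
    (q.crossing = T.c₁ ∧ q.isPos = !T.sc) ∨ (q.crossing = T.c₂ ∧ q.isPos = T.sc) := by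
  rw [mem_code]
  obtain ⟨c, e, σ⟩ := q
  unfold Tri.pa₁ Tri.pa₂ Tri.pb₁ Tri.pb₂ Tri.pc₁ Tri.pc₂
  simp only [Pass.mk.injEq, Pass.mate]
  cases e <;> cases T.ta <;> cases T.tb <;> cases T.tc <;> simp

theorem ph_mem (x : ℕ × ℕ × Bool) (q : Pass) : q ∈ ph x ↔
    (q.crossing = x.1 ∧ q.isPos = x.2.2) ∨ (q.crossing = x.2.1 ∧ q.isPos = !x.2.2) := by
  obtain ⟨c, e, σ⟩ := q
  unfold ph
  cases e <;> simp

theorem shA (a1 d0 a2 d1 b1 c1 b2 c2 : Prop) : ((a1 ∨ d0) ∨ (a2 ∨ d1) ∨ (b1 ∨ c1) ∨ (b2 ∨ c2)) ↔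
    ((a1 ∨ a2 ∨ b1 ∨ b2 ∨ c1 ∨ c2) ∨ d0 ∨ d1) := by
  constructor
  · rintro ((h | h) | (h | h) | (h | h) | (h | h)) <;> simp [h]
  · rintro ((h | h | h | h | h | h) | h | h) <;> simp [h]

theorem shB (a1 b1 a2 b2 c1 d0 c2 d1 : Prop) : ((a1 ∨ b1) ∨ (a2 ∨ b2) ∨ (c1 ∨ d0) ∨ (c2 ∨ d1)) ↔
    ((a1 ∨ a2 ∨ b1 ∨ b2 ∨ c1 ∨ c2) ∨ d0 ∨ d1) := by
  constructor
  · rintro ((h | h) | (h | h) | (h | h) | (h | h)) <;> simp [h]
  · rintro ((h | h | h | h | h | h) | h | h) <;> simp [h]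

theorem shD (a1 a2 b1 b2 c1 c2 d0 d1 : Prop) : ((a1 ∨ a2) ∨ (b1 ∨ b2) ∨ (c1 ∨ c2) ∨ (d0 ∨ d1)) ↔
    ((a1 ∨ a2 ∨ b1 ∨ b2 ∨ c1 ∨ c2) ∨ d0 ∨ d1) := by
  constructor
  · rintro ((h | h) | (h | h) | (h | h) | (h | h)) <;> simp [h]
  · rintro ((h | h | h | h | h | h) | h | h) <;> simp [h]

/-- RA: a branch point is pushed through the third sheet -/
theorem ra_red {D O : Code} {T : Tri} {m : ℕ → ℕ} (h : Sit D O T m) (ha : m T.a₁ = T.a₁)
    (ht : T.tb = T.tc) : Res D O T m := by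
  -- we may assume that the signs fit
  suffices key : ∀ T : Tri, Sit D O T m → m T.a₁ = T.a₁ → T.tb = T.tc → T.ej = (!T.ei) →
      T.sc = (!T.sb) → Res D O T m by
    obtain ⟨o1, o2, o3⟩ := h.ok
    by_cases hj : T.ej = !T.ei
    · refine key T h ha ht hj ?_
      revert o2 o3
      rw [← ht, hj]
      cases T.ta <;> cases T.tb <;> cases T.sa <;> cases T.sb <;> cases T.sc <;> cases T.ei <;>
        cases T.ek <;> simp
    · have hs : Sy T _ := Sy.swapC (T' := T) Sy.refl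
      refine Res.sy hs (key _ (h.sy hs) ha ht ?_ ?_)
      · revert hj
        cases T.ei <;> cases T.ej <;> simp
      · revert o2 o3 hj
        simp only
        rw [← ht]
        cases T.ta <;> cases T.tb <;> cases T.sa <;> cases T.sb <;> cases T.sc <;> cases T.ei <;>
          cases T.ej <;> cases T.ek <;> simp
  clear h ha ht T
  intro T h ha ht hj hsc
  obtain ⟨d₀, d₁, hd, hf, c0, c1⟩ := two_fresh (passes (D ++ (T.code ++ O)))
  have hnod := six_ne (WF.perm (code_perm0 D O T) h.wf)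
  simp only [List.nodup_cons, List.mem_cons, List.not_mem_nil, or_false, not_or, List.nodup_nil,
    and_true, not_false_eq_true] at hnod
  obtain ⟨⟨n12, n13, n14, n15, n16⟩, ⟨n23, n24, n25, n26⟩, ⟨n34, n35, n36⟩, ⟨n45, n46⟩, n56⟩ := hnod
  have z : ∀ c, Nam T c → colour c = 0 := h.zero
  have za₁ := z T.a₁ (by unfold Nam; simp)
  have za₂ := z T.a₂ (by unfold Nam; simp)
  have zb₁ := z T.b₁ (by unfold Nam; simp)
  have zb₂ := z T.b₂ (by unfold Nam; simp)
  have zc₁ := z T.c₁ (by unfold Nam; simp)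
  have zc₂ := z T.c₂ (by unfold Nam; simp)
  refine tri_elim (L := [(T.a₁, d₀, !T.sa), (T.a₂, d₁, T.sa), (T.b₁, T.c₁, !T.sb), (T.b₂, T.c₂, T.sb)])
    (s₀ := T.sa) (s₁ := !T.sa) h.wf h.inv hd hf ?_ rfl ?_ (by rw [c0, c1]; simp) ?_
  · intro q
    rw [code_mem]
    simp only [PH, List.flatMap_cons, List.flatMap_nil, List.append_nil, List.mem_append, ph_mem,
      hsc, Bool.not_not]
    exact shA _ _ _ _ _ _ _ _
  · intro x hx
    simp only [List.mem_cons, List.not_mem_nil, or_false] at hx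
    rcases hx with rfl | rfl | rfl | rfl <;> simp only [za₁, za₂, zb₁, zb₂, zc₁, zc₂, c0, c1]
  · intro G _ V hV v0 v1
    have hA : ∀ l, V d₁ l = (V T.a₂ l)⁻¹ := hV (T.a₂, d₁, T.sa) (by simp)
    have hB : ∀ l, V T.c₁ l = (V T.b₁ l)⁻¹ := hV (T.b₁, T.c₁, !T.sb) (by simp)
    have hC : ∀ l, V T.c₂ l = (V T.b₂ l)⁻¹ := hV (T.b₂, T.c₂, T.sb) (by simp)
    have hA2 : ∀ l, V T.a₂ (!l) = (V T.a₂ l)⁻¹ := by
      intro l
      have := v1
      rw [hA, hA, inv_inv] at this
      cases l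
      · simp only [Bool.not_false]; rw [← this]
      · simp only [Bool.not_true]; rw [← inv_inv (V T.a₂ false), this]
    set X : G := sol T.ei (V T.a₂ T.ta) (V T.b₁ T.tb) (V T.b₂ T.tb) with hX
    refine ⟨fun c l => if c = T.a₁ then (if l = T.ta then X else X⁻¹) else V c l,
      fun c => c = T.a₁, ?_, ?_, ?_, ?_, ?_, ?_, ?_, ?_⟩
    · rintro c rfl; unfold Nam; simp
    · intro c l hc; exact if_neg hc
    · rintro c rfl; exact ha
    · rintro c rfl _
      simp only [if_true]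
      cases T.ta <;> simp
    · rintro c l rfl hne
      exact absurd ha hne
    · simp only [if_true, if_neg (Ne.symm n12), if_neg (Ne.symm n13), if_neg (Ne.symm n14)]
      exact v4_sol _ _ _ _
    · have : (!T.ta) ≠ T.ta := by cases T.ta <;> simp
      simp only [if_true, if_neg this, if_neg (Ne.symm n12), if_neg (Ne.symm n15),
        if_neg (Ne.symm n16), hA2, hB, hC, ← ht, hj]
      exact v4_inv (v4_sol _ _ _ _)
    · simp only [if_neg (Ne.symm n13), if_neg (Ne.symm n14), if_neg (Ne.symm n15),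
        if_neg (Ne.symm n16), hB, hC, ← ht]
      exact v4_comm _ _ _

/-- RB: a triple point at a monogon -/
theorem rb_red {D O : Code} {T : Tri} {m : ℕ → ℕ} (h : Sit D O T m) (ha : m T.a₁ = T.b₁)
    (ht : T.ta = T.tb) (hsb : T.sb = !T.sa) : Res D O T m := by
  have hk : T.ek = !T.ej := by
    obtain ⟨o1, o2, o3⟩ := h.ok
    revert o2 o3
    rw [hsb, ← ht]
    cases T.ta <;> cases T.tc <;> cases T.sa <;> cases T.sc <;> cases T.ei <;> cases T.ej <;>
      cases T.ek <;> simp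
  obtain ⟨d₀, d₁, hd, hf, c0, c1⟩ := two_fresh (passes (D ++ (T.code ++ O)))
  have hnod := six_ne (WF.perm (code_perm0 D O T) h.wf)
  simp only [List.nodup_cons, List.mem_cons, List.not_mem_nil, or_false, not_or, List.nodup_nil,
    and_true, not_false_eq_true] at hnod
  obtain ⟨⟨n12, n13, n14, n15, n16⟩, ⟨n23, n24, n25, n26⟩, ⟨n34, n35, n36⟩, ⟨n45, n46⟩, n56⟩ := hnod
  have z : ∀ c, Nam T c → colour c = 0 := h.zero
  have za₁ := z T.a₁ (by unfold Nam; simp)
  have za₂ := z T.a₂ (by unfold Nam; simp)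
  have zb₁ := z T.b₁ (by unfold Nam; simp)
  have zb₂ := z T.b₂ (by unfold Nam; simp)
  have zc₁ := z T.c₁ (by unfold Nam; simp)
  have zc₂ := z T.c₂ (by unfold Nam; simp)
  have hb : m T.b₁ = T.a₁ := by
    rw [← ha]
    refine matching_invol h.inv.1 (p := T.pa₁) ?_
    exact (code_perm0 D O T).symm.subset (List.mem_append_left _ (by rw [mem_code]; simp))
  refine tri_elim (L := [(T.a₁, T.b₁, !T.sa), (T.a₂, T.b₂, T.sa), (T.c₁, d₀, !T.sc), (T.c₂, d₁, T.sc)])
    (s₀ := T.sc) (s₁ := !T.sc) h.wf h.inv hd hf ?_ rfl ?_ (by rw [c0, c1]; simp) ?_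
  · intro q
    rw [code_mem]
    simp only [PH, List.flatMap_cons, List.flatMap_nil, List.append_nil, List.mem_append, ph_mem,
      hsb, Bool.not_not]
    exact shB _ _ _ _ _ _ _ _
  · intro x hx
    simp only [List.mem_cons, List.not_mem_nil, or_false] at hx
    rcases hx with rfl | rfl | rfl | rfl <;> simp only [za₁, za₂, zb₁, zb₂, zc₁, zc₂, c0, c1]
  · intro G _ V hV v0 v1
    have hA : ∀ l, V T.b₂ l = (V T.a₂ l)⁻¹ := hV (T.a₂, T.b₂, T.sa) (by simp)
    have hB : ∀ l, V d₀ l = (V T.c₁ l)⁻¹ := hV (T.c₁, d₀, !T.sc) (by simp)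
    have hC : ∀ l, V d₁ l = (V T.c₂ l)⁻¹ := hV (T.c₂, d₁, T.sc) (by simp)
    have hc₁ : ∀ l, V T.c₁ (!l) = (V T.c₁ l)⁻¹ := by
      intro l
      have := v0
      rw [hB, hB, inv_inv] at this
      cases l
      · simp only [Bool.not_false]; rw [← this]
      · simp only [Bool.not_true]; rw [← inv_inv (V T.c₁ false), this]
    have hc₂ : ∀ l, V T.c₂ (!l) = (V T.c₂ l)⁻¹ := by
      intro l
      have := v1
      rw [hC, hC, inv_inv] at this
      cases l
      · simp only [Bool.not_false]; rw [← this]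
      · simp only [Bool.not_true]; rw [← inv_inv (V T.c₂ false), this]
    set Y : G := sol T.ej (V T.a₂ (!T.ta)) (V T.c₁ T.tc) (V T.c₂ T.tc) with hY
    have hnt : (!T.ta) ≠ T.ta := by cases T.ta <;> simp
    refine ⟨fun c l => if c = T.a₁ then (if l = T.ta then 1 else Y) else
      if c = T.b₁ then (if l = T.ta then 1 else Y⁻¹) else V c l,
      fun c => c = T.a₁ ∨ c = T.b₁, ?_, ?_, ?_, ?_, ?_, ?_, ?_, ?_⟩
    · rintro c (rfl | rfl) <;> unfold Nam <;> simp
    · intro c l hc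
      simp only [not_or] at hc
      simp only [if_neg hc.1, if_neg hc.2]
    · rintro c (rfl | rfl)
      · exact Or.inr ha
      · exact Or.inl hb
    · rintro c (rfl | rfl) he
      · exact absurd (ha.symm.trans he).symm n13
      · exact absurd (hb.symm.trans he) n13
    · rintro c l (rfl | rfl) _
      · simp only [ha, if_true, if_neg (Ne.symm n13)]
        split_ifs <;> simp
      · simp only [hb, if_true, if_neg (Ne.symm n13)]
        split_ifs <;> simp
    · simp only [if_true, if_neg (Ne.symm n12), if_neg (Ne.symm n13), if_neg (Ne.symm n14),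
        if_neg n23, if_neg (Ne.symm n34), hA, ← ht]
      have := v4_comm T.ei (1 : G) (V T.a₂ T.ta)
      rwa [inv_one] at this
    · simp only [if_true, if_neg hnt, if_neg (Ne.symm n12), if_neg (Ne.symm n15),
        if_neg (Ne.symm n16), if_neg n23, if_neg (Ne.symm n35), if_neg (Ne.symm n36)]
      exact v4_sol _ _ _ _
    · simp only [if_true, if_neg hnt, if_neg (Ne.symm n13), if_neg (Ne.symm n14),
        if_neg (Ne.symm n15), if_neg (Ne.symm n16), if_neg (Ne.symm n34), if_neg (Ne.symm n35),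
        if_neg (Ne.symm n36), hA, hc₁, hc₂, ← ht, hk]
      exact v4_inv (v4_sol _ _ _ _)

/-- RD: the ends of two double curves are joined with one another -/
theorem rd_red {D O : Code} {T : Tri} {m : ℕ → ℕ} (h : Sit D O T m)
    (hS : ∀ c, (c = T.a₁ ∨ c = T.a₂ ∨ c = T.c₁ ∨ c = T.c₂) →
      (m c = T.a₁ ∨ m c = T.a₂ ∨ m c = T.c₁ ∨ m c = T.c₂)) : Res D O T m := by
  obtain ⟨d₀, d₁, hd, hf, c0, c1⟩ := two_fresh (passes (D ++ (T.code ++ O)))
  have hnod := six_ne (WF.perm (code_perm0 D O T) h.wf)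
  simp only [List.nodup_cons, List.mem_cons, List.not_mem_nil, or_false, not_or, List.nodup_nil,
    and_true, not_false_eq_true] at hnod
  obtain ⟨⟨n12, n13, n14, n15, n16⟩, ⟨n23, n24, n25, n26⟩, ⟨n34, n35, n36⟩, ⟨n45, n46⟩, n56⟩ := hnod
  have z : ∀ c, Nam T c → colour c = 0 := h.zero
  have za₁ := z T.a₁ (by unfold Nam; simp)
  have za₂ := z T.a₂ (by unfold Nam; simp)
  have zb₁ := z T.b₁ (by unfold Nam; simp)
  have zb₂ := z T.b₂ (by unfold Nam; simp)
  have zc₁ := z T.c₁ (by unfold Nam; simp)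
  have zc₂ := z T.c₂ (by unfold Nam; simp)
  refine tri_elim (L := [(T.a₁, T.a₂, !T.sa), (T.b₁, T.b₂, !T.sb), (T.c₁, T.c₂, !T.sc), (d₀, d₁, true)])
    (s₀ := true) (s₁ := false) h.wf h.inv hd hf ?_ rfl ?_ (by rw [c0, c1]; simp) ?_
  · intro q
    rw [code_mem]
    simp only [PH, List.flatMap_cons, List.flatMap_nil, List.append_nil, List.mem_append, ph_mem,
      Bool.not_not, Bool.not_true]
    exact shD _ _ _ _ _ _ _ _
  · intro x hx
    simp only [List.mem_cons, List.not_mem_nil, or_false] at hx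
    rcases hx with rfl | rfl | rfl | rfl <;> simp only [za₁, za₂, zb₁, zb₂, zc₁, zc₂, c0, c1]
  · intro G _ V hV v0 v1
    have hB : ∀ l, V T.b₂ l = (V T.b₁ l)⁻¹ := hV (T.b₁, T.b₂, !T.sb) (by simp)
    refine ⟨fun c l => if c = T.a₁ ∨ c = T.a₂ ∨ c = T.c₁ ∨ c = T.c₂ then 1 else V c l,
      fun c => c = T.a₁ ∨ c = T.a₂ ∨ c = T.c₁ ∨ c = T.c₂, ?_, ?_, hS, ?_, ?_, ?_, ?_, ?_⟩
    · rintro c (rfl | rfl | rfl | rfl) <;> unfold Nam <;> simp
    · intro c l hc
      exact if_neg hc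
    · intro c hc _
      simp only [if_pos hc, inv_one]
    · intro c l hc _
      simp only [if_pos hc, if_pos (hS c hc), inv_one]
    · have e1 : ¬(T.b₁ = T.a₁ ∨ T.b₁ = T.a₂ ∨ T.b₁ = T.c₁ ∨ T.b₁ = T.c₂) := by
        simp [Ne.symm n13, Ne.symm n23, n35, n36]
      have e2 : ¬(T.b₂ = T.a₁ ∨ T.b₂ = T.a₂ ∨ T.b₂ = T.c₁ ∨ T.b₂ = T.c₂) := by
        simp [Ne.symm n14, Ne.symm n24, n45, n46]
      simp only [if_neg e1, if_neg e2, true_or, or_true, if_true, hB]
      exact v4_one₁ _ _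
    · simp only [true_or, or_true, if_true]
      exact v4_one _
    · have e1 : ¬(T.b₁ = T.a₁ ∨ T.b₁ = T.a₂ ∨ T.b₁ = T.c₁ ∨ T.b₁ = T.c₂) := by
        simp [Ne.symm n13, Ne.symm n23, n35, n36]
      have e2 : ¬(T.b₂ = T.a₁ ∨ T.b₂ = T.a₂ ∨ T.b₂ = T.c₁ ∨ T.b₂ = T.c₂) := by
        simp [Ne.symm n14, Ne.symm n24, n45, n46]
      simp only [if_neg e1, if_neg e2, true_or, or_true, if_true, hB]
      exact v4_one₂ _ _

end Pool.Agent.V11206
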