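import Pool.Agent.V11206.Base

/-! No configurations of one or two triple points. -/

set_option autoImplicit false
set_option maxRecDepth 1000000

namespace Pool.Agent.V11206.CF.S12

def s10 : Sta := (0x3f, 0x0, 0x0, 0x0, 0x24514124714324b24024924214a246148244,
  0x1c31412422c0204286, 0x14)

def c10 : CS := (1, [0x108002])

theorem q10 : chk 1 0 [] 20 s10 c10 = true := by decide +kernel

theorem r10 : rootOk 1 0 s10 = true := by decide +kernel

theorem no10 (c : ℕ → ℕ) : ¬Cfg 1 0 c :=
  no_cfg (fun _ _ _ h => absurd h (by simp)) r10 q10 c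

def s11 : Sta := (0x3f, 0x0, 0x0, 0x0, 0x24714324514124924224b24014824414a246,
  0x1411c32c0242286204, 0x14)

def c11 : CS := (1, [0x108002])

theorem q11 : chk 1 1 [] 20 s11 c11 = true := by decide +kernel

theorem r11 : rootOk 1 1 s11 = true := by decide +kernel

theorem no11 (c : ℕ → ℕ) : ¬Cfg 1 1 c :=
  no_cfg (fun _ _ _ h => absurd h (by simp)) r11 q11 c

def s20 : Sta := (0xfff, 0x0, 0x0, 0x0,
  0x25114d25314f25724c25524e15625215425024514124714324b24024924214a246148244,
  0x4cf44d54e5cc5105921c31412422c0204286, 0x28)

def c20 : CS := (1, [0x40100063185092a061090eb0a063081672a826000200200130c0a0180840d22,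
  0x4a309480384a5085643a02009420385471842418c63285041942122c0428021,
  0x42518404591013010818fca628c611a4211840148421280633046418448618461,
  0x8c232907e54046300d23480000900050c2008254518ca3])

theorem q20 : chk 2 0 [] 20 s20 c20 = true := by decide +kernel

theorem r20 : rootOk 2 0 s20 = true := by decide +kernel

theorem no20 (c : ℕ → ℕ) : ¬Cfg 2 0 c :=
  no_cfg (fun _ _ _ h => absurd h (by simp)) r20 q20 c

def s21 : Sta := (0xfff, 0x0, 0x0, 0x0,
  0x25114d25314f25724c25524e15625215425024714324514124924224b24014824414a246,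
  0x4cf44d54e5cc5105921411c32c0242286204, 0x28)

def c21 : CS := (1, [0x42330c8318ca048c2109561000013846102c0318c2401c611842520c2140122,
  0x4210956001003384600000700cc30848b0802039cc120c811906518564380c1,
  0x128ca400c201996400c005112318421098a5])

theorem q21 : chk 2 1 [] 20 s21 c21 = true := by decide +kernel

theorem r21 : rootOk 2 1 s21 = true := by decide +kernel

theorem no21 (c : ℕ → ℕ) : ¬Cfg 2 1 c :=
  no_cfg (fun _ _ _ h => absurd h (by simp)) r21 q21 c

def s22 : Sta := (0xfff, 0x0, 0x0, 0x0,
  0x25314f25114d25524e25724c15425015625224714324514124924224b24014824414a246,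
  0x44d4cf5cc54e5925101411c32c0242286204, 0x28)

def c22 : CS := (1, [0x40100063185092a061090eb0a063081672a826000200200130c0a0180840d22,
  0x4a309480384a5085643a02009420385471842418c63285041942122c0428021,
  0x42518404591013010818fca628c611a4211840148421280633046418448618461,
  0x8c232907e54046300d23480000900050c2008254518ca3])

theorem q22 : chk 2 2 [] 20 s22 c22 = true := by decide +kernel

theorem r22 : rootOk 2 2 s22 = true := by decide +kernel

theorem no22 (c : ℕ → ℕ) : ¬Cfg 2 2 c :=
  no_cfg (fun _ _ _ h => absurd h (by simp)) r22 q22 c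

end Pool.Agent.V11206.CF.S12
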