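import Pool.Agent.V11206.Eul
import Pool.Agent.V11206.S12
import Pool.Agent.V11206.S30
import Pool.Agent.V11206.S31
import Pool.Agent.V11206.S32
import Pool.Agent.V11206.S33

/-! There are no irreducible systems of at most three triple points. -/

set_option autoImplicit false

namespace Pool.Agent.V11206

open Pool.Agent.Y468.SR
open Pool.Agent.Y874.TP hiding InvM InvC CM CReid CStep SMovie Inv3
open Pool.Agent.Y874.TP2

theorem no_cfg3 {K t : ℕ} {c : ℕ → ℕ} (h : CF.Cfg K t c) : False := by
  have hK := h.K3
  have ht := h.tK
  rcases K with _ | _ | _ | _ | K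
  · have := h.e1 [] (fun d hd => absurd hd (by omega))
    simp [CF.gaps] at this
  · rcases t with _ | _ | t
    · exact CF.S12.no10 c h
    · exact CF.S12.no11 c h
    · omega
  · rcases t with _ | _ | _ | t
    · exact CF.S12.no20 c h
    · exact CF.S12.no21 c h
    · exact CF.S12.no22 c h
    · omega
  · rcases t with _ | _ | _ | _ | t
    · exact CF.S30.no c h
    · exact CF.S31.no c h
    · exact CF.S32.no c h
    · exact CF.S33.no c h
    · omega
  · omega

theorem noIrr3 : NoIrr 3 := by
  intro D Ts₁ Ts₂ m hD hn hne hK h1 h2 hs hi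
  have h : Stp D (Ts₁ ++ Ts₂) Ts₁.length m := by
    refine ⟨hD, hn, ?_, ?_, ?_, hs, hi⟩
    · intro j hj
      unfold tr
      rw [List.getD_eq_getElem _ _ hj]
      by_cases hjt : j < Ts₁.length
      · rw [List.getElem_append_left hjt, decide_eq_true hjt]
        exact h1 _ (List.getElem_mem _)
      · rw [List.getElem_append_right (by omega), decide_eq_false hjt]
        exact h2 _ (List.getElem_mem _)
    · rw [List.length_append]; omega
    · rw [List.length_append]; omega
  exact no_cfg3 (h.cfg hne)

end Pool.Agent.V11206
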