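import Pool.Agent.V11206.Snd

/-! Soundness of the search: the nodes. -/

set_option autoImplicit false

namespace Pool.Agent.V11206.CF

set_option linter.unusedVariables false
set_option linter.unusedSimpArgs false

variable {K t : ℕ} {c : ℕ → ℕ} {As Ae : ℕ → Prop}

theorem mul2 (h : ℕ) : Nat.mul 2 h = 2 * h := rfl

theorem fr_eq {β : Type} (n : ℕ) (k : ℕ → β) : fr n k = k n := rfl

theorem mul2s (h : ℕ) : Nat.succ (Nat.mul 2 h) = 2 * h + 1 := rfl

theorem rl_up1 {UD CM h v : ℕ} {LF RC F ST W : ℕ} (hK : K ≤ 3) (R : Rl K t c UD LF CM RC F ST W)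
    (hh : UD.testBit h = true) (hc : c h = v) (hv : v < 64) (hv2 : v = h ∨ 6 * K ≤ v) :
    (∀ x, (Nat.xor UD (Nat.shiftLeft 1 h)).testBit x = true → x < 6 * K) ∧
    (∀ x < 6 * K, (Nat.xor UD (Nat.shiftLeft 1 h)).testBit x = false → c x < 6 * K →
      (Nat.xor UD (Nat.shiftLeft 1 h)).testBit (c x) = false) ∧
    (∀ x < 6 * K, (Nat.xor UD (Nat.shiftLeft 1 h)).testBit x = false →
      g6 (Nat.lor CM (Nat.shiftLeft v (Nat.mul 6 h))) x = c x) ∧
    (∀ x, (Nat.xor UD (Nat.shiftLeft 1 h)).testBit x = true →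
      g6 (Nat.lor CM (Nat.shiftLeft v (Nat.mul 6 h))) x = 0) := by
  have hh6 := R.ud h hh
  refine ⟨?_, ?_, ?_, ?_⟩
  · intro x hx
    rw [xor_bit hh] at hx
    simp only [Bool.and_eq_true] at hx
    exact R.ud x hx.1
  · intro x hx h1 h2
    rw [xor_bit hh] at h1 ⊢
    by_cases e : x = h
    · subst e
      rcases hv2 with e | e
      · rw [hc, e]; simp
      · omega
    · simp only [ne_eq, e, not_false_eq_true, decide_true, Bool.and_true] at h1
      rw [R.dec x hx h1 h2]; rfl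
  · intro x hx h1
    rw [xor_bit hh] at h1
    rw [g6_or _ _ _ _ hv]
    by_cases e : x = h
    · subst e
      rw [if_pos rfl, R.cmu x hh, hc, Nat.zero_or]
    · rw [if_neg e]
      simp only [ne_eq, e, not_false_eq_true, decide_true, Bool.and_true] at h1
      exact R.cm x hx h1
  · intro x hx
    rw [xor_bit hh] at hx
    rw [g6_or _ _ _ _ hv]
    simp only [Bool.and_eq_true, decide_eq_true_eq] at hx
    rw [if_neg hx.2]
    exact R.cmu x hx.1

theorem lef_sound {thr h x0 x1 UD LF CM RC F ST W : ℕ} {ih : Kt} {cs : CS} (hC : Cfg K t c)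
    (hthr : thr = 12 * K + 4) (hih : Ih K t c ih) (R : Rl K t c UD LF CM RC F ST W)
    (hh : UD.testBit h = true) (hc : c h = 63) (e0 : x0 = 2 * h) (e1 : x1 = 2 * h + 1)
    (hk : lef thr x0 x1 h (Nat.xor UD (Nat.shiftLeft 1 h)) LF CM RC F ST W ih cs ≠ none) :
    False := by
  have hh6 := R.ud h hh
  have hK := hC.K3
  unfold lef at hk
  rw [fr_eq] at hk
  have hl0 : Lf c x0 := by
    unfold Lf
    rw [show x0 / 2 = h by omega]; exact hc
  have hl1 : Lf c x1 := by
    unfold Lf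
    rw [show x1 / 2 = h by omega]; exact hc
  obtain ⟨F1, W1, hk1, M1⟩ := lfC_sound hC hthr hk rfl R.md (by omega) hl0
  beta_reduce at hk1
  rw [fr_eq] at hk1
  obtain ⟨F2, W2, hk2, M2⟩ := lfC_sound hC hthr hk1 rfl M1 (by omega) hl1
  beta_reduce at hk2
  have hac : ac K c UD = ac K c (Nat.xor UD (Nat.shiftLeft 1 h)) := by
    funext s
    unfold ac
    rw [xor_bit hh]
    refine propext (and_congr_right fun hs => ?_)
    by_cases e : s / 2 = h
    · have : Lf c s := by unfold Lf; rw [e]; exact hc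
      simp [this]
    · simp [e]
  rw [hac] at M2
  obtain ⟨r1, r2, r3, r4⟩ := rl_up1 hK R hh hc (by omega) (Or.inr (by omega))
  exact hih _ _ _ _ _ _ _ _ hk2 ⟨r1, r2, r3, r4, R.rc, M2⟩

theorem brn_sound {thr h x0 x1 UD LF CM RC F ST W : ℕ} {ih : Kt} {cs : CS} (hC : Cfg K t c)
    (hthr : thr = 12 * K + 4) (hih : Ih K t c ih) (R : Rl K t c UD LF CM RC F ST W)
    (hh : UD.testBit h = true) (hc : c h = h) (e0 : x0 = 2 * h) (e1 : x1 = 2 * h + 1)
    (hk : brn thr x0 x1 h (Nat.xor UD (Nat.shiftLeft 1 h)) LF CM RC F ST W ih cs ≠ none) :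
    False := by
  have hh6 := R.ud h hh
  have hK := hC.K3
  have hty := hC.br h hh6 hc
  unfold brn at hk
  have hb : ∀ h < 18, ty h = 1 → Nat.beq (Nat.land (Nat.mod h 6) 6) 2 = true := by decide
  rw [hb h (by omega) hty] at hk
  have d0 : x0 / 2 = h := by omega
  have d1 : x1 / 2 = h := by omega
  have hl0 : ¬Lf c x0 := by
    unfold Lf
    rw [d0, hc]; omega
  have hl1 : ¬Lf c x1 := by
    unfold Lf
    rw [d1, hc]; omega
  have m0 : mt c x0 = x1 := by
    unfold mt; rw [d0, if_pos hc]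
    omega
  have m1 : mt c x1 = x0 := by
    unfold mt; rw [d1, if_pos hc]
    omega
  have a0 : ac K c UD x0 := ⟨by omega, Or.inl (by rw [d0]; exact hh)⟩
  have a1 : ac K c UD x1 := ⟨by omega, Or.inl (by rw [d1]; exact hh)⟩
  have hne : x1 ≠ x0 := by omega
  obtain ⟨F1, ST1, W1, hk1, M1⟩ := hjC_sound hC hthr hk R.md a0 hl0 m0
  beta_reduce at hk1
  obtain ⟨F2, ST2, W2, hk2, M2⟩ := hjC_sound hC hthr hk1 M1 ⟨a1, hne⟩ hl1 m1
  beta_reduce at hk2
  have hac : ac K c (Nat.xor UD (Nat.shiftLeft 1 h)) = fun s =>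
      (ac K c UD s ∧ s ≠ x1) ∧ s ≠ x0 := by
    funext s
    unfold ac
    rw [xor_bit hh]
    refine propext ?_
    constructor
    · rintro ⟨s1, s2⟩
      have : s / 2 ≠ h := by
        intro e
        rcases s2 with s2 | s2
        · simp [e] at s2
        · unfold Lf at s2; rw [e, hc] at s2; omega
      simp [this] at s2
      refine ⟨⟨⟨s1, s2⟩, ?_⟩, ?_⟩
      · rintro rfl; exact this d1
      · rintro rfl; exact this d0
    · rintro ⟨⟨⟨s1, s2⟩, s3⟩, s4⟩
      have : s / 2 ≠ h := by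
        intro e
        omega
      refine ⟨s1, ?_⟩
      simp [this]; exact s2
  have hac2 : ac K c (Nat.xor UD (Nat.shiftLeft 1 h)) = fun s =>
      (ac K c UD s ∧ s ≠ x0) ∧ s ≠ x1 := by
    rw [hac]; funext s; exact propext ⟨fun a => ⟨⟨a.1.1, a.2⟩, a.1.2⟩, fun a => ⟨⟨a.1.1, a.2⟩, a.1.2⟩⟩
  obtain ⟨r1, r2, r3, r4⟩ := rl_up1 hK R hh hc (by omega) (Or.inl rfl)
  rw [← hac, ← hac2] at M2
  exact hih _ _ _ _ _ _ _ _ hk2 ⟨r1, r2, r3, r4, R.rc, M2⟩

theorem prt2_sound {thr h g x0 x1 UD LF CM RC F ST W : ℕ} {ih : Kt} {cs : CS} (hC : Cfg K t c)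
    (hthr : thr = 12 * K + 4) (hih : Ih K t c ih) (R : Rl K t c UD LF CM RC F ST W)
    (hh : UD.testBit h = true) (hc : c h = g) (hg : g ≠ h) (hg6 : g < 6 * K) {RC' : ℕ}
    (hRC : ∀ k, RC'.testBit k = true → RC.testBit k = true ∨ (h / 6 + g / 6 = k / 3 + 1 ∧
      ty h = k % 3 ∧ ty g = k % 3 ∧ decide (h / 6 < t) ≠ decide (g / 6 < t)))
    (e0 : x0 = 2 * h) (e1 : x1 = 2 * h + 1)
    (hk : prt2 thr x0 x1 h (Nat.xor UD (Nat.shiftLeft 1 h)) LF CM
      F ST W ih g cs RC' ≠ none) : False := by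
  have hh6 := R.ud h hh
  have hK := hC.K3
  have hcg : c g = h := by rw [← hc]; exact hC.inv h hh6 (by omega)
  have hug : UD.testBit g = true := by
    by_contra hu
    have h1 := R.dec g hg6 (by simpa using hu) (by omega)
    rw [hcg, hh] at h1
    exact absurd h1 (by simp)
  unfold prt2 at hk
  rw [fr_eq, fr_eq, fr_eq, fr_eq] at hk
  unfold mt1 at hk
  obtain ⟨y0, f0⟩ : ∃ y0, y0 = Nat.mul 2 g := ⟨_, rfl⟩
  rw [← f0] at hk
  obtain ⟨y1, f1⟩ : ∃ y1, y1 = Nat.succ y0 := ⟨_, rfl⟩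
  rw [← f1] at hk
  rw [mul2] at f0
  rw [Nat.succ_eq_add_one] at f1
  have d0 : x0 / 2 = h := by omega
  have d1 : x1 / 2 = h := by omega
  have c0 : y0 / 2 = g := by omega
  have c1 : y1 / 2 = g := by omega
  have hl0 : ¬Lf c x0 := by unfold Lf; rw [d0, hc]; omega
  have hl1 : ¬Lf c x1 := by unfold Lf; rw [d1, hc]; omega
  have kl0 : ¬Lf c y0 := by unfold Lf; rw [c0, hcg]; omega
  have kl1 : ¬Lf c y1 := by unfold Lf; rw [c1, hcg]; omega
  have m0 : mt c x0 = y0 := by
    unfold mt; rw [d0, if_neg (by rw [hc]; exact hg), hc]; omega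
  have m1 : mt c x1 = y1 := by
    unfold mt; rw [d1, if_neg (by rw [hc]; exact hg), hc]; omega
  have n0 : mt c y0 = x0 := by
    unfold mt; rw [c0, if_neg (by rw [hcg]; exact hg.symm), hcg]; omega
  have n1 : mt c y1 = x1 := by
    unfold mt; rw [c1, if_neg (by rw [hcg]; exact hg.symm), hcg]; omega
  have a0 : ac K c UD x0 := ⟨by omega, Or.inl (by rw [d0]; exact hh)⟩
  have a1 : ac K c UD x1 := ⟨by omega, Or.inl (by rw [d1]; exact hh)⟩
  have b0 : ac K c UD y0 := ⟨by omega, Or.inl (by rw [c0]; exact hug)⟩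
  have b1 : ac K c UD y1 := ⟨by omega, Or.inl (by rw [c1]; exact hug)⟩
  have z1 : x1 ≠ x0 := by omega
  have z2 : y1 ≠ y0 := by omega
  have z3 : y0 ≠ x0 := by omega
  have z4 : y1 ≠ x0 := by omega
  have z5 : x1 ≠ y0 := by omega
  have z6 : y1 ≠ x1 := by omega
  obtain ⟨F1, ST1, W1, hk1, M1⟩ := hjC_sound hC hthr hk R.md a0 hl0 m0
  unfold mt2 at hk1
  obtain ⟨F2, ST2, W2, hk2, M2⟩ := hjC_sound hC hthr hk1 M1 ⟨b0, z3⟩ kl0 n0
  unfold mt3 at hk2
  obtain ⟨F3, ST3, W3, hk3, M3⟩ := hjC_sound hC hthr hk2 M2 ⟨⟨a1, z1⟩, z5⟩ hl1 m1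
  unfold mt4 at hk3
  obtain ⟨F4, ST4, W4, hk4, M4⟩ := hjC_sound hC hthr hk3 M3 ⟨⟨⟨b1, z4⟩, z2⟩, z6⟩ kl1 n1
  beta_reduce at hk4
  have hub : ∀ x, (Nat.xor (Nat.xor UD (Nat.shiftLeft 1 h)) (Nat.shiftLeft 1 g)).testBit x =
      (UD.testBit x && decide (x ≠ h) && decide (x ≠ g)) := by
    intro x
    rw [xor_bit (by rw [xor_bit hh, hug]; simp [hg]), xor_bit hh]
  have hac : ∀ s, ac K c (Nat.xor (Nat.xor UD (Nat.shiftLeft 1 h)) (Nat.shiftLeft 1 g)) s ↔
      ac K c UD s ∧ s / 2 ≠ h ∧ s / 2 ≠ g := by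
    intro s
    unfold ac
    rw [hub]
    constructor
    · rintro ⟨s1, s2⟩
      have e1 : s / 2 ≠ h := by
        intro e
        rcases s2 with s2 | s2
        · simp [e] at s2
        · unfold Lf at s2; rw [e, hc] at s2; omega
      have e2 : s / 2 ≠ g := by
        intro e
        rcases s2 with s2 | s2
        · simp [e] at s2
        · unfold Lf at s2; rw [e, hcg] at s2; omega
      simp [e1, e2] at s2
      exact ⟨⟨s1, s2⟩, e1, e2⟩
    · rintro ⟨⟨s1, s2⟩, s3, s4⟩
      refine ⟨s1, ?_⟩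
      simp [s3, s4]; exact s2
  have hiff : ∀ s, (s / 2 ≠ h ∧ s / 2 ≠ g) ↔ (s ≠ x0 ∧ s ≠ x1 ∧ s ≠ y0 ∧ s ≠ y1) := by
    intro s; omega
  have hA1 : (fun s => (((ac K c UD s ∧ s ≠ y0) ∧ s ≠ x0) ∧ s ≠ y1) ∧ s ≠ x1) =
      ac K c (Nat.xor (Nat.xor UD (Nat.shiftLeft 1 h)) (Nat.shiftLeft 1 g)) := by
    funext s
    refine propext ?_
    rw [hac, hiff]
    exact ⟨fun a => ⟨a.1.1.1.1, a.1.1.2, a.2, a.1.1.1.2, a.1.2⟩,
      fun a => ⟨⟨⟨⟨a.1, a.2.2.2.1⟩, a.2.1⟩, a.2.2.2.2⟩, a.2.2.1⟩⟩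
  have hA2 : (fun s => (((ac K c UD s ∧ s ≠ x0) ∧ s ≠ y0) ∧ s ≠ x1) ∧ s ≠ y1) =
      ac K c (Nat.xor (Nat.xor UD (Nat.shiftLeft 1 h)) (Nat.shiftLeft 1 g)) := by
    funext s
    refine propext ?_
    rw [hac, hiff]
    exact ⟨fun a => ⟨a.1.1.1.1, a.1.1.1.2, a.1.2, a.1.1.2, a.2⟩,
      fun a => ⟨⟨⟨⟨a.1, a.2.1⟩, a.2.2.2.1⟩, a.2.2.1⟩, a.2.2.2.2⟩⟩
  rw [hA1, hA2] at M4
  have hcm : ∀ x, g6 (Nat.lor CM (Nat.lor (Nat.shiftLeft g (Nat.mul 6 h))
      (Nat.shiftLeft h (Nat.mul 6 g)))) x = if x = g then g6 CM g ||| h else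
        if x = h then g6 CM h ||| g else g6 CM x := by
    intro x
    have e : Nat.lor CM (Nat.lor (Nat.shiftLeft g (Nat.mul 6 h)) (Nat.shiftLeft h (Nat.mul 6 g))) =
        Nat.lor (Nat.lor CM (Nat.shiftLeft g (Nat.mul 6 h))) (Nat.shiftLeft h (Nat.mul 6 g)) :=
      (Nat.or_assoc _ _ _).symm
    rw [e, g6_or _ _ _ _ (by omega)]
    by_cases e1 : x = g
    · rw [if_pos e1, if_pos e1, g6_or _ _ _ _ (by omega), if_neg hg]
    · rw [if_neg e1, if_neg e1, g6_or _ _ _ _ (by omega)]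
  refine hih _ _ _ _ _ _ _ _ hk4 ⟨?_, ?_, ?_, ?_, ?_, M4⟩
  · intro x hx
    rw [hub] at hx
    simp only [Bool.and_eq_true] at hx
    exact R.ud x hx.1.1
  · intro x hx h1 h2
    rw [hub] at h1 ⊢
    by_cases e : x = h
    · subst e; simp [hc]
    by_cases e' : x = g
    · subst e'; simp [hcg]
    · simp only [ne_eq, e, e', not_false_eq_true, decide_true, Bool.and_true] at h1
      rw [R.dec x hx h1 h2]; rfl
  · intro x hx h1
    rw [hub] at h1
    rw [hcm]
    by_cases e' : x = g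
    · subst e'
      rw [if_pos rfl, R.cmu x hug, hcg, Nat.zero_or]
    by_cases e : x = h
    · subst e
      rw [if_neg e', if_pos rfl, R.cmu x hh, hc, Nat.zero_or]
    · rw [if_neg e', if_neg e]
      simp only [ne_eq, e, e', not_false_eq_true, decide_true, Bool.and_true] at h1
      exact R.cm x hx h1
  · intro x hx
    rw [hub] at hx
    rw [hcm]
    simp only [Bool.and_eq_true, decide_eq_true_eq] at hx
    rw [if_neg hx.2, if_neg hx.1.2]
    exact R.cmu x hx.1.1
  · intro k hk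
    rcases hRC k hk with h1 | ⟨h1, h2, h3, h4⟩
    · exact R.rc k h1
    · exact ⟨h, hh6, by omega, by rw [hc]; exact h1, h2, by rw [hc]; exact h3,
        by rw [hc]; exact h4⟩

theorem rc_conf {RC k : ℕ} (hC : Cfg K t c) {h : ℕ}
    (R : ∀ k, RC.testBit k = true → ∃ h < 6 * K, c h < 6 * K ∧ h / 6 + c h / 6 = k / 3 + 1 ∧
      ty h = k % 3 ∧ ty (c h) = k % 3 ∧ decide (h / 6 < t) ≠ decide (c h / 6 < t))
    (hh : h < 6 * K) (hc : c h < 6 * K) (h1 : h / 6 + c h / 6 = k / 3 + 1)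
    (h2 : ty h = ty (c h)) (h3 : decide (h / 6 < t) ≠ decide (c h / 6 < t))
    (hk : RC.testBit k = true) : ty h = k % 3 := by
  obtain ⟨g, g1, g2, g3, g4, g5, g6⟩ := R k hk
  have hK := hC.K3
  have n1 : h / 6 ≠ c h / 6 := fun e => h3 (by rw [e])
  have n2 : g / 6 ≠ c g / 6 := fun e => g6 (by rw [e])
  by_cases e : h / 6 = g / 6
  · rw [← g4]
    exact hC.rc h g hh g1 hc g2 e (by omega) h3 h2.symm (by rw [g4, g5])
  · have e1 : h / 6 = c g / 6 := by omega
    have e2 : c h / 6 = g / 6 := by omega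
    have i := hC.inv g g1 g2
    rw [← g5]
    exact hC.rc h (c g) hh g2 hc (by rw [i]; exact g1) e1 (by rw [i]; exact e2) h3 h2.symm
      (by rw [i, g4, g5])

theorem prt_sound {thr h g x0 x1 UD LF CM RC F ST W : ℕ} {ih : Kt} {cs : CS} (hC : Cfg K t c)
    (hthr : thr = 12 * K + 4) (hih : Ih K t c ih) (R : Rl K t c UD LF CM RC F ST W)
    (hh : UD.testBit h = true) (hc : c h = g) (hg : g ≠ h) (hg6 : g < 6 * K)
    (e0 : x0 = 2 * h) (e1 : x1 = 2 * h + 1)
    (hk : prt t thr x0 x1 h (Nat.xor UD (Nat.shiftLeft 1 h)) LF CM RC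
      F ST W ih g cs ≠ none) : False := by
  have hh6 := R.ud h hh
  have hK := hC.K3
  unfold prt at hk
  have hf := rct_fact t (by have := hC.tK; omega) h (by omega) g (by omega)
  generalize Nat.land (Nat.shiftRight (RCT t) (Nat.mul 4 (Nat.add (Nat.mul 32 h) g))) 15 = v at *
  unfold prt1 at hk
  rcases hf with rfl | ⟨rfl, f2, f3⟩
  · exact prt2_sound hC hthr hih R hh hc hg hg6 (fun k hk => Or.inl hk) e0 e1 hk
  · have n1 : h / 6 ≠ g / 6 := fun e => f3 (by rw [e])
    have hv : Nat.beq (3 * (h / 6 + g / 6 - 1) + ty h + 1) 0 = false := by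
      rw [Bool.eq_false_iff]; intro h0; have := Nat.eq_of_beq_eq_true h0; omega
    rw [hv] at hk
    have hty : ty h < 3 := by unfold ty; omega
    obtain ⟨q, hq⟩ : ∃ q, q = 3 * (h / 6 + g / 6 - 1) + ty h := ⟨_, rfl⟩
    have hv1 : Nat.sub (3 * (h / 6 + g / 6 - 1) + ty h + 1) 1 = q := by rw [hq]; rfl
    rw [hv1] at hk
    have q1 : q / 3 = h / 6 + g / 6 - 1 := by omega
    have q2 : q % 3 = ty h := by omega
    have q9 : q < 9 := by omega
    by_cases hb : Nat.beq (Nat.land RC (Nat.land (Nat.shiftRight FBT (Nat.mul 9 q)) 511)) 0 = true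
    · rw [hb] at hk
      refine prt2_sound hC hthr hih R hh hc hg hg6 ?_ e0 e1 hk
      intro k hk'
      change (RC ||| Nat.shiftLeft 1 q).testBit k = true at hk'
      rw [Nat.testBit_or, one_bit] at hk'
      by_cases hkq : k = q
      · right
        subst hkq
        exact ⟨by omega, q2.symm, by rw [← f2]; exact q2.symm, f3⟩
      · left
        simpa [hkq] using hk'
    · have hb' : Nat.beq (Nat.land RC (Nat.land (Nat.shiftRight FBT (Nat.mul 9 q)) 511)) 0 =
          false := by rw [Bool.eq_false_iff]; exact hb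
      have hne : (RC &&& (Nat.land (Nat.shiftRight FBT (Nat.mul 9 q)) 511)) ≠ 0 := by
        intro h0
        have : Nat.land RC (Nat.land (Nat.shiftRight FBT (Nat.mul 9 q)) 511) = 0 := h0
        rw [this] at hb'
        exact absurd hb' (by simp)
      obtain ⟨j, hj⟩ := Nat.exists_testBit_of_ne_zero hne
      rw [Nat.testBit_and, Bool.and_eq_true] at hj
      have hj9 : j < 9 := by
        by_contra hj9
        have h5 : (Nat.land (Nat.shiftRight FBT (Nat.mul 9 q)) 511).testBit j = false := by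
          rw [Nat.testBit_lt_two_pow]
          calc Nat.land (Nat.shiftRight FBT (Nat.mul 9 q)) 511 ≤ 511 := Nat.and_le_right
            _ < 2 ^ 9 := by norm_num
            _ ≤ 2 ^ j := Nat.pow_le_pow_right (by norm_num) (by omega)
        rw [h5] at hj
        exact absurd hj.2 (by simp)
      obtain ⟨j1, j2⟩ := fbt_fact q q9 j hj9 hj.2
      have := rc_conf (k := j) hC R.rc hh6 (by omega) (by rw [hc]; omega) (by rw [hc]; exact f2)
        (by rw [hc]; exact f3) hj.1
      omega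

theorem nod_sound {thr h UD LF CM RC F ST W : ℕ} {ih : Kt} {cs : CS} (hC : Cfg K t c)
    (hthr : thr = 12 * K + 4) (hih : Ih K t c ih) (R : Rl K t c UD LF CM RC F ST W)
    (hk : nod t thr ih UD LF CM RC F ST W h cs ≠ none) : False := by
  unfold nod at hk
  have hK := hC.K3
  cases hb : Nat.beq (Nat.land (Nat.shiftRight UD h) 1) 1 with
  | false => rw [hb] at hk; exact hk rfl
  | true =>
    rw [hb] at hk
    have hh : UD.testBit h = true := by
      have := Nat.eq_of_beq_eq_true hb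
      rw [bit_land] at this
      revert this
      cases UD.testBit h <;> simp
    have hh6 := R.ud h hh
    change (fr (Nat.xor UD (Nat.shiftLeft 1 h)) fun UD' =>
      fr (Nat.mul 2 h) fun x0 => fr (Nat.succ x0) fun x1 =>
      (Option.rec none (fun cs =>
        Option.rec none (fun cs =>
          lpC (prt t thr x0 x1 h UD' LF CM RC F ST W ih) 18
            (Nat.land (Nat.land (Nat.shiftRight ALM (Nat.mul 32 h)) 262143) UD') cs)
         (brn thr x0 x1 h UD' LF CM RC F ST W ih cs))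
        (lef thr x0 x1 h UD' LF CM RC F ST W ih cs) : Option CS)) ≠ none at hk
    rw [fr_eq, fr_eq, fr_eq] at hk
    obtain ⟨x0, f0⟩ : ∃ x0, x0 = Nat.mul 2 h := ⟨_, rfl⟩
    rw [← f0] at hk
    obtain ⟨x1, f1⟩ : ∃ x1, x1 = Nat.succ x0 := ⟨_, rfl⟩
    rw [← f1] at hk
    rw [mul2] at f0
    rw [Nat.succ_eq_add_one] at f1
    have f1' : x1 = 2 * h + 1 := by omega
    cases hl : lef thr x0 x1 h (Nat.xor UD (Nat.shiftLeft 1 h)) LF CM RC F ST W ih cs with
    | none => rw [hl] at hk; exact hk rfl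
    | some cs₁ =>
      rw [hl] at hk
      change (Option.rec none (fun cs =>
          lpC (prt t thr x0 x1 h (Nat.xor UD (Nat.shiftLeft 1 h)) LF CM RC F ST W ih) 18
            (Nat.land (Nat.land (Nat.shiftRight ALM (Nat.mul 32 h)) 262143)
              (Nat.xor UD (Nat.shiftLeft 1 h))) cs)
         (brn thr x0 x1 h (Nat.xor UD (Nat.shiftLeft 1 h)) LF CM RC F ST W ih cs₁) :
          Option CS) ≠ none at hk
      cases hbr : brn thr x0 x1 h (Nat.xor UD (Nat.shiftLeft 1 h)) LF CM RC F ST W ih cs₁ with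
      | none => rw [hbr] at hk; exact hk rfl
      | some cs₂ =>
        rw [hbr] at hk
        change lpC (prt t thr x0 x1 h (Nat.xor UD (Nat.shiftLeft 1 h)) LF CM RC F ST W ih) 18
            (Nat.land (Nat.land (Nat.shiftRight ALM (Nat.mul 32 h)) 262143)
              (Nat.xor UD (Nat.shiftLeft 1 h))) cs₂ ≠ none at hk
        rcases hC.rng h hh6 with hc | hc
        · exact lef_sound hC hthr hih R hh hc f0 f1' (by rw [hl]; simp)
        · by_cases hch : c h = h
          · exact brn_sound hC hthr hih R hh hch f0 f1' (by rw [hbr]; simp)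
          · have hal := hC.ok h hh6 hc hch
            have hug : UD.testBit (c h) = true := by
              by_contra hu
              have h1 := R.dec (c h) hc (by simpa using hu) (by rw [hC.inv h hh6 hc]; exact hh6)
              rw [hC.inv h hh6 hc, hh] at h1
              exact absurd h1 (by simp)
            obtain ⟨cs₃, h3⟩ := lpC_sound 18 _ _ (c h) hk (by
              have h4 := alm_fact h (by omega) (c h) (by omega) hal
              change ((Nat.land (Nat.shiftRight ALM (Nat.mul 32 h)) 262143) &&&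
                (Nat.xor UD (Nat.shiftLeft 1 h))).testBit (c h) = true
              rw [Nat.testBit_and, h4, xor_bit hh, hug]
              simp [hch])
            exact prt_sound hC hthr hih R hh rfl hch hc f0 f1' h3

theorem rdC_sound {bits : ℕ} {cs : CS} {k : ℕ → CS → Option CS} (h : rdC bits cs k ≠ none) :
    ∃ v cs', k v cs' ≠ none := by
  obtain ⟨a, b⟩ := cs
  unfold rdC at h
  cases hb : Nat.beq a 1 with
  | false =>
    simp only [hb] at h
    rw [fr_eq, fr_eq] at h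
    exact ⟨_, _, h⟩
  | true =>
    simp only [hb] at h
    cases b with
    | nil => exact absurd rfl h
    | cons c rest =>
      simp only at h
      rw [fr_eq] at h
      exact ⟨_, _, h⟩

theorem wd_fact : ∀ t < 4, ∀ d < 36, wd (nx t d) = wd d := by decide +kernel

theorem fin_sound {thr LF CM RC F ST W u : ℕ} (hC : Cfg K t c) (hthr : thr = 12 * K + 4)
    (R : Rl K t c 0 LF CM RC F ST W) (h : finC K thr CM W u = true) : False := by
  unfold finC at h
  simp only [Bool.and_eq_true, List.any_eq_true, List.all_eq_true, List.mem_range,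
    Bool.or_eq_true, Bool.not_eq_true', Bool.not_eq_eq_eq_not, Bool.not_true] at h
  obtain ⟨⟨⟨d, hd, hu⟩, hW⟩, hall⟩ := h
  have hW' := Nat.le_of_ble_eq_true hW
  obtain ⟨Hd, hI, hS⟩ := R.md
  have hK := hC.K3
  have hcm : ∀ h < 6 * K, g6 CM h = c h := fun h hh => R.cm h hh (by simp)
  have := iv_fin hC hI (U := fun d => u.testBit (wd d) = true) ⟨d, hd, hu⟩ (by
    intro x hx hxu
    have h2 := hall x hx
    rw [hxu] at h2
    simp only [Bool.true_eq_false, false_or] at h2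
    have h3 := hcm (x / 2) (by omega)
    rw [h3] at h2
    refine ⟨?_, ?_, ?_⟩
    · unfold Lf
      intro h4
      rw [h4] at h2
      exact absurd h2.1 (by simp)
    · have : mt c x = mt (fun h => g6 CM h) x := by
        unfold mt
        simp only [h3]
      rw [this]; exact h2.2
    · rw [wd_fact t (by have := hC.tK; omega) x (by omega)]; exact hxu)
  omega

theorem srC_sound {thr : ℕ} {A : List Sta} (hC : Cfg K t c) (hthr : thr = 12 * K + 4)
    (hA : ∀ a ∈ A, ¬Rl K t c a.1 a.2.1 a.2.2.1 a.2.2.2.1 a.2.2.2.2.1 a.2.2.2.2.2.1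
      a.2.2.2.2.2.2) (fuel : ℕ) : Ih K t c (srC K t thr A fuel) := by
  induction fuel with
  | zero =>
    intro UD LF CM RC F ST W cs h R
    change (Bool.rec none (some cs) (A.any (isSt UD LF CM RC F ST W)) : Option CS) ≠ none at h
    cases hb : A.any (isSt UD LF CM RC F ST W) with
    | false => rw [hb] at h; exact h rfl
    | true =>
      obtain ⟨a, ha, h2⟩ := List.any_eq_true.1 hb
      unfold isSt at h2
      simp only [Bool.and_eq_true] at h2
      obtain ⟨⟨⟨⟨⟨⟨h3, h4⟩, h5⟩, h6⟩, h7⟩, h8⟩, h9⟩ := h2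
      have i := hA a ha
      rw [Nat.eq_of_beq_eq_true h3, Nat.eq_of_beq_eq_true h4, Nat.eq_of_beq_eq_true h5,
        Nat.eq_of_beq_eq_true h6, Nat.eq_of_beq_eq_true h7, Nat.eq_of_beq_eq_true h8,
        Nat.eq_of_beq_eq_true h9] at i
      exact i R
  | succ n ih =>
    intro UD LF CM RC F ST W cs h R
    change (Bool.rec
      (rdC 5 cs (nod t thr (srC K t thr A n) UD LF CM RC F ST W))
      (rdC 9 cs fun u cs => Bool.rec none (some cs) (finC K thr CM W u))
      (Nat.beq UD 0) : Option CS) ≠ none at h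
    cases hb : Nat.beq UD 0 with
    | false =>
      rw [hb] at h
      obtain ⟨v, cs', h2⟩ := rdC_sound h
      exact nod_sound hC hthr ih R h2
    | true =>
      rw [hb] at h
      obtain ⟨v, cs', h2⟩ := rdC_sound h
      have := Nat.eq_of_beq_eq_true hb
      subst this
      refine fin_sound (u := v) hC hthr R ?_
      by_contra hf
      have hf' : finC K thr CM W v = false := by simpa using hf
      rw [hf'] at h2
      exact h2 rfl

end Pool.Agent.V11206.CF
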