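import Pool.Agent.V11206.Face
import Pool.Agent.Y761.TP2.Flow
import Pool.Agent.Y874.TP.Reduce
import Pool.Agent.Y874.TP2.Basic

/-! The planarity condition in terms of labels of passages, and the junction lemma for diagrams. -/

set_option autoImplicit false

namespace Pool.Agent.V11206

open Pool.Agent.Y468.SR
open Pool.Agent.Y874.TP (colour NullV Tri TC Cyc passes_append')
open Pool.Agent.Y874.TP2 (part InvM CM)
open Pool.Agent.Y761.TP2 (uniq side part_mem)

section labels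
variable {G : Type} [Group G]

/-- the labels given by a function on the passages -/
noncomputable def lbl (P : List Pass) (F : Pass → G) (h : Bool) (c : ℕ) : G := by
  classical
  exact if H : ∃ p ∈ P, p.crossing = c ∧ p.isOver = h then F H.choose else 1

theorem lbl_eq {P : List Pass} (hw : WF P) (F : Pass → G) {p : Pass} (hp : p ∈ P) {h : Bool}
    {c : ℕ} (h1 : p.isOver = h) (h2 : p.crossing = c) : lbl P F h c = F p := by
  subst h1 h2
  unfold lbl
  have H : ∃ q ∈ P, q.crossing = p.crossing ∧ q.isOver = p.isOver := ⟨p, hp, rfl, rfl⟩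
  rw [dif_pos H]
  congr 1
  exact uniq hw H.choose_spec.1 hp H.choose_spec.2.1 H.choose_spec.2.2

theorem valid_lbl {P : List Pass} (hw : WF P) {m : ℕ → ℕ} (hm : Matching P m) {F : Pass → G}
    (hF : ∀ p ∈ P, F (part m p) = (F p)⁻¹) :
    Valid P m (lbl P F true) (lbl P F false) := by
  intro p hp
  obtain ⟨p1, hp1, c1, o1, s1⟩ := side hw hp true
  obtain ⟨p2, hp2, c2, o2, s2⟩ := side hw hp false
  constructor
  · intro h
    have e : part m p1 = p1.mate := by
      unfold part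
      rw [if_pos (by rw [c1]; exact h)]
    have h1 := hF p1 hp1
    rw [e] at h1
    have hmate : p1.mate.isOver = false := by
      show (!p1.isOver) = false
      rw [o1]; rfl
    rw [lbl_eq hw _ hp1 o1 c1, lbl_eq hw _ (hw.1 p1 hp1) hmate c1]
    exact h1
  · intro h
    constructor
    · have e : part m p1 = ⟨m p.crossing, true, !p1.isPos⟩ := by
        unfold part
        rw [if_neg (by rw [c1]; exact h), c1, o1]
      have h1 := hF p1 hp1
      rw [lbl_eq hw _ hp1 o1 c1, lbl_eq hw _ (part_mem hw hm hp1) (by rw [e]) (by rw [e])]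
      exact h1
    · have e : part m p2 = ⟨m p.crossing, false, !p2.isPos⟩ := by
        unfold part
        rw [if_neg (by rw [c2]; exact h), c2, o2]
      have h1 := hF p2 hp2
      rw [lbl_eq hw _ hp2 o2 c2, lbl_eq hw _ (part_mem hw hm hp2) (by rw [e]) (by rw [e])]
      exact h1

theorem val_lbl {P : List Pass} (hw : WF P) (F : Pass → G) {p : Pass} (hp : p ∈ P) :
    val (lbl P F true) (lbl P F false) p = F p := by
  unfold val
  split_ifs with h
  · exact lbl_eq hw F hp h rfl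
  · exact lbl_eq hw F hp (by simpa using h) rfl

theorem wval_lbl {P : List Pass} (hw : WF P) (F : Pass → G) (W : List Pass)
    (hW : ∀ p ∈ W, p ∈ P) : wval (lbl P F true) (lbl P F false) W = (W.map F).prod := by
  unfold wval
  congr 1
  exact List.map_congr_left fun p hp => val_lbl hw F (hW p hp)

end labels

theorem pnull {D Q : Code} {m : ℕ → ℕ} (hnd : (D.map Prod.snd).Nodup) (hwf : WF (passes (D ++ Q)))
    (hm : Matching (passes (D ++ Q)) m) (hN : NullV (D ++ Q) m) (G : Type) [Group G] (F : Pass → G)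
    (hF : ∀ p ∈ passes (D ++ Q), F (part m p) = (F p)⁻¹)
    (hQ : ∀ C ∈ Q, (C.1.map F).prod = 1) : ∀ C ∈ D, (C.1.map F).prod = 1 := by
  intro C hC
  have hw : ∀ C ∈ D ++ Q, wval (lbl (passes (D ++ Q)) F true) (lbl (passes (D ++ Q)) F false) C.1 =
      (C.1.map F).prod := fun C hC => wval_lbl hwf F C.1 fun p hp => mem_passes.2 ⟨C, hC, hp⟩
  have h := hN G _ _ (valid_lbl hwf hm hF) C.2
  rw [vals_append, bv_append, bv_vals_singleton hnd hC, List.singleton_append] at h
  rw [← hw C (by simp [hC])]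
  refine Pool.Agent.Y874.TP.cn_ones (fun y hy => ?_) h
  simp only [bv, vals, List.mem_map, List.mem_filter] at hy
  obtain ⟨x, ⟨⟨C', hC', rfl⟩, -⟩, rfl⟩ := hy
  rw [hw C' (by simp [hC'])]
  exact hQ C' hC'

theorem part_part {P : List Pass} {m : ℕ → ℕ} (hm : Matching P m) {p : Pass} (hp : p ∈ P) :
    part m (part m p) = p := by
  by_cases h : m p.crossing = p.crossing
  · have e : part m p = p.mate := by unfold part; rw [if_pos h]
    rw [e]
    unfold part
    rw [if_pos (by exact h)]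
    simp
  · have e : part m p = ⟨m p.crossing, p.isOver, !p.isPos⟩ := by unfold part; rw [if_neg h]
    rw [e]
    unfold part
    have h2 : m (m p.crossing) = p.crossing := matching_invol hm hp
    rw [if_neg (by simp only; rw [h2]; exact fun h' => h h'.symm)]
    simp only [h2, Bool.not_not]

theorem part_ne {m : ℕ → ℕ} {p : Pass} : part m p ≠ p := by
  intro h
  unfold part at h
  split_ifs at h with h1
  · have := congrArg Pass.isOver h
    simp [Pass.mate] at this
  · exact h1 (congrArg Pass.crossing h)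

/-- `(p, q)` is a corner of one of the circles -/
def Cor (Q : Code) (p q : Pass) : Prop := ∃ C ∈ Q, CAdj C.1 p q

theorem flatten_fst (D : Code) : (D.map Prod.fst).flatten = passes D := by
  unfold passes
  rw [List.flatMap_def]

theorem junc_gp {D Q : Code} {m : ℕ → ℕ} {N : ℕ} {ω : Pass → Pass → ℕ} (hN : 0 < N)
    (hnd : (D.map Prod.snd).Nodup) (hwf : WF (passes (D ++ Q)))
    (hm : Matching (passes (D ++ Q)) m) (hv : NullV (D ++ Q) m)
    (h4 : ∀ C ∈ Q, ∃ x0 x1 x2 x3, C.1 = [x0, x1, x2, x3] ∧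
      ω x0 x1 + ω x1 x2 + ω x2 x3 + ω x3 x0 ≤ 4 * N) (hne : passes D ≠ []) :
    ∃ p w, w < 4 * N ∧ GP (part m) (D.map Prod.fst) (Q.map Prod.fst) ω N w p (part m p) := by
  have e : (D.map Prod.fst).flatten ++ (Q.map Prod.fst).flatten = passes (D ++ Q) := by
    rw [flatten_fst, flatten_fst, passes_append']
  refine small_face hN ?_ ?_ ?_ ?_ ?_
  · rw [e]; exact WF.nodup hwf
  · intro p hp
    rw [e] at hp ⊢
    exact ⟨part_mem hwf hm hp, part_part hm hp, part_ne⟩
  · intro W hW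
    obtain ⟨C, hC, rfl⟩ := List.mem_map.1 hW
    exact h4 C hC
  · intro G _ F hF hQ W hW
    rw [e] at hF
    obtain ⟨C, hC, rfl⟩ := List.mem_map.1 hW
    exact pnull hnd hwf hm hv G F hF (fun C' hC' => hQ C'.1 (List.mem_map_of_mem hC')) C hC
  · obtain ⟨p, hp⟩ := List.exists_mem_of_ne_nil _ hne
    obtain ⟨C, hC, hp⟩ := mem_passes.1 hp
    exact ⟨C.1, List.mem_map_of_mem hC, List.ne_nil_of_mem hp⟩

/-- small faces among the circles -/
def Small (Q : Code) (m : ℕ → ℕ) : Prop :=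
  (∃ p, Cor Q p (part m p)) ∨ (∃ p y, Cor Q p y ∧ Cor Q (part m y) (part m p)) ∨
    ∃ p y z, Cor Q p y ∧ Cor Q (part m y) z ∧ Cor Q (part m z) (part m p)

theorem canc_part {m : ℕ → ℕ} {p : Pass} : Canc m p (part m p) := by
  unfold part
  split_ifs with h
  · exact Or.inl ⟨h, rfl, rfl⟩
  · exact Or.inr ⟨h, rfl, rfl⟩

theorem junc3 {D Q : Code} {m : ℕ → ℕ} (hnd : (D.map Prod.snd).Nodup)
    (hwf : WF (passes (D ++ Q))) (hm : Matching (passes (D ++ Q)) m) (hv : NullV (D ++ Q) m)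
    (h4 : ∀ C ∈ Q, ∃ x0 x1 x2 x3, C.1 = [x0, x1, x2, x3]) (hne : passes D ≠ []) :
    (∃ C ∈ D, ∃ a c p r, C.1 = a ++ p :: r :: c ∧
      (Canc m p r ∨ Cor Q (part m r) (part m p))) ∨ Small Q m := by
  obtain ⟨p, w, hw, h⟩ := junc_gp (N := 1) (ω := fun _ _ => 1) (by norm_num) hnd hwf hm hv
    (fun C hC => by obtain ⟨x0, x1, x2, x3, e⟩ := h4 C hC; exact ⟨x0, x1, x2, x3, e, by norm_num⟩)
    hne
  have hB : ∀ {x y : Pass}, (∃ W ∈ D.map Prod.fst, Adj W x y) →
      ∃ C ∈ D, ∃ a c, C.1 = a ++ x :: y :: c := by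
    rintro x y ⟨W, hW, u, v, e⟩
    obtain ⟨C, hC, rfl⟩ := List.mem_map.1 hW
    exact ⟨C, hC, u, v, e⟩
  have hQ : ∀ {x y : Pass}, (∃ W ∈ Q.map Prod.fst, CAdj W x y) → Cor Q x y := by
    rintro x y ⟨W, hW, h⟩
    obtain ⟨C, hC, rfl⟩ := List.mem_map.1 hW
    exact ⟨C, hC, h⟩
  have hmemD : ∀ {x : Pass} {C : List Pass × ℕ}, C ∈ D → x ∈ C.1 → x ∈ passes (D ++ Q) := by
    intro x C hC hx
    rw [passes_append']
    exact List.mem_append_left _ (mem_passes.2 ⟨C, hC, hx⟩)
  rcases gp_three h (by omega) with h | h | ⟨y, h1, h2⟩ | ⟨y, h1, h2⟩ | ⟨y, h1, h2⟩ | ⟨y, z, h1, h2, h3⟩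
  · exact Or.inr (Or.inl ⟨p, hQ h⟩)
  · obtain ⟨C, hC, a, c, e⟩ := hB h
    exact Or.inl ⟨C, hC, a, c, p, part m p, e, Or.inl canc_part⟩
  · exact Or.inr (Or.inr (Or.inl ⟨p, y, hQ h1, hQ h2⟩))
  · obtain ⟨C, hC, a, c, e⟩ := hB h1
    exact Or.inl ⟨C, hC, a, c, p, y, e, Or.inr (hQ h2)⟩
  · obtain ⟨C, hC, a, c, e⟩ := hB h2
    refine Or.inl ⟨C, hC, a, c, _, _, e, Or.inr ?_⟩
    obtain ⟨C', hC', h4'⟩ := hQ h1
    have hy : y ∈ passes (D ++ Q) := by
      rw [passes_append']
      refine List.mem_append_right _ (mem_passes.2 ⟨C', hC', ?_⟩)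
      rcases h4' with ⟨u, v, e⟩ | ⟨u, e⟩ <;> rw [e] <;> simp
    have hp : p ∈ passes (D ++ Q) := by
      rw [passes_append']
      refine List.mem_append_right _ (mem_passes.2 ⟨C', hC', ?_⟩)
      rcases h4' with ⟨u, v, e⟩ | ⟨u, e⟩ <;> rw [e] <;> simp
    rw [part_part hm hy, part_part hm hp]
    exact ⟨C', hC', h4'⟩
  · exact Or.inr (Or.inr (Or.inr ⟨p, y, z, hQ h1, hQ h2, hQ h3⟩))

end Pool.Agent.V11206
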