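import Pool.Agent.V11206.Null
import Pool.Agent.Y874.TP2.Final

/-! The reduction, for a class of systems of triple points. -/

set_option autoImplicit false

namespace Pool.Agent.V11206

open Pool.Agent.Y468.SR
open Pool.Agent.Y874.TP hiding InvM InvC CM CReid CStep SMovie Inv3
open Pool.Agent.Y874.TP2
open Pool.Agent.Y968.TP (Occ matching_iff)

set_option linter.unusedSimpArgs false
set_option linter.unusedVariables false

/-- crossings are removed from a diagram -/
theorem invM_remove {E E' : Code} {m : ℕ → ℕ} {K : List Pass} (hperm : (passes E).Perm (K ++ passes E'))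
    (hw : WF (passes E)) (hK : ∀ p ∈ K, p.mate ∈ K ∧ ∃ q ∈ K, q.crossing = m p.crossing)
    (hv : ∀ (G : Type) [Group G] (o u : ℕ → G), (∀ p ∈ K, val o u p = 1) → vals o u E = vals o u E')
    (h : InvM E m) : InvM E' m := by
  obtain ⟨hM, hC, hN⟩ := h
  have hw' : WF (K ++ passes E') := WF.perm hperm hw
  have hne : ∀ p ∈ K, ∀ q ∈ passes E', q.crossing ≠ p.crossing := fun p hp q hq =>
    hw'.ne_crossing hp (hK p hp).1 hq
  have hE : ∀ p ∈ passes E', p ∈ passes E := fun p hp =>
    hperm.symm.subset (List.mem_append_right _ hp)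
  have hmm : ∀ p ∈ passes E', ∀ q ∈ K, m p.crossing ≠ q.crossing := by
    intro p hp q hq he
    obtain ⟨q', hq', h1⟩ := (hK q hq).2
    have h2 := matching_invol hM (hE p hp)
    rw [he, ← h1] at h2
    exact hne q' hq' p hp h2.symm
  refine ⟨fun p hp => ?_, fun p hp => hC p (hE p hp), fun G _ o u hval b => ?_⟩
  · obtain ⟨q, hq, h1, h2, h3⟩ := hM p (hE p hp)
    refine ⟨q, ?_, h1, h2, h3⟩
    rcases List.mem_append.1 (hperm.subset hq) with h4 | h4
    · exact absurd h1.symm (hmm p hp q h4)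
    · exact h4
  · classical
    set k : ℕ → Prop := fun c => ∃ p ∈ K, p.crossing = c with hk
    have hval' : Valid (passes E) m (fun c => if k c then (1 : G) else o c)
        (fun c => if k c then (1 : G) else u c) := by
      intro p hp
      rcases List.mem_append.1 (hperm.subset hp) with h4 | h4
      · have k1 : k p.crossing := ⟨p, h4, rfl⟩
        obtain ⟨q, hq, h5⟩ := (hK p h4).2
        have k2 : k (m p.crossing) := ⟨q, hq, h5⟩
        simp only [if_pos k1, if_pos k2, inv_one, implies_true, and_self]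
      · have k1 : ¬k p.crossing := by
          rintro ⟨q, hq, h5⟩
          exact hne q hq p h4 h5.symm
        have k2 : ¬k (m p.crossing) := by
          rintro ⟨q, hq, h5⟩
          exact hmm p h4 q hq h5.symm
        simp only [if_neg k1, if_neg k2]
        exact hval p h4
    have h1 := hN G _ _ hval' b
    rw [hv G _ _ (fun p hp => ?_)] at h1
    · have e : vals (fun c => if k c then (1 : G) else o c) (fun c => if k c then (1 : G) else u c) E' =
          vals o u E' := by
        unfold vals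
        refine List.map_congr_left fun C hC => ?_
        simp only [Prod.mk.injEq, and_true]
        refine wval_congr fun r hr => ?_
        have k1 : ¬k r.crossing := by
          rintro ⟨q, hq, h5⟩
          exact hne q hq r (mem_passes.2 ⟨C, hC, hr⟩) h5.symm
        simp only [val, if_neg k1]
      rw [e] at h1
      exact h1
    · have k1 : k p.crossing := ⟨p, hp, rfl⟩
      simp only [val, if_pos k1, ite_self]

theorem sub4_other {p₁ p₂ p₃ p₄ q₁ q₂ q₃ q₄ c : ℕ} (h1 : c ≠ p₁) (h2 : c ≠ p₂) (h3 : c ≠ p₃)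
    (h4 : c ≠ p₄) : Pool.Agent.Y968.TP.sub4 p₁ p₂ p₃ p₄ q₁ q₂ q₃ q₄ c = c := by
  unfold Pool.Agent.Y968.TP.sub4
  rw [if_neg h1, if_neg h2, if_neg h3, if_neg h4]

/-- a triple point is pushed through the boundary -/
theorem out_track {D O : Code} {T : Tri} {m : ℕ → ℕ} {p r : Pass} {C : List Pass × ℕ}
    {a c : List Pass} {na nb : ℕ} (hOk : T.Ok) (hCol : T.Col) (hei : T.ei = true)
    (hD : WF (passes D)) (hW : WF (passes (D ++ (T.code ++ O))))
    (hI : InvM (D ++ (T.code ++ O)) m) (hC : C ∈ D) (hsplit : C.1 = a ++ p :: r :: c)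
    (hma : m p.crossing = T.a₁) (hpo : p.isOver = T.ta) (hmb : m r.crossing = T.b₁)
    (hro : r.isOver = T.tb) (hne : na ≠ nb)
    (hnew : ∀ q ∈ passes (D ++ (T.code ++ O)), q.crossing ≠ na ∧ q.crossing ≠ nb)
    (hca : colour na = colour T.c₁) (hcb : colour nb = colour T.c₁) :
    WF (passes (out p r T.tc na nb D ++ O)) ∧ ∃ m', InvM (out p r T.tc na nb D ++ O) m' ∧
      ∀ p ∈ passes O, ∀ q ∈ passes O, m' p.crossing = q.crossing ↔ m p.crossing = q.crossing := by
  obtain ⟨hM, hCM, hN⟩ := hI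
  have hp : p ∈ passes D := mem_passes.2 ⟨C, hC, by simp [hsplit]⟩
  have hr : r ∈ passes D := mem_passes.2 ⟨C, hC, by simp [hsplit]⟩
  obtain ⟨l2, h⟩ := Pool.Agent.Y968.TP.exists_cfg hOk hei hD hW hM hp hr hma hpo hmb hro hne hnew
  refine ⟨h.wf', _, ⟨h.tr.matching hM, OT.tr_cm h.tr hM hCM
    (fun d s _ _ => OT.cfg_col h hCol hca hcb hCM d), ?_⟩, ?_⟩
  · intro G _ o u hv b
    have h1 := hN G _ _ (h.valid hv) b
    rw [vals_append, vals_append, bv_append, bv_append, h.valsO, h.valsD hC hsplit] at h1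
    rw [vals_append, bv_append]
    refine Pool.Agent.Y968.TP.cn_ones ?_ h1
    intro g hg
    simp only [Tri.code, vals, List.map_cons, List.map_nil, h.wi, h.wj, h.wk, bv, List.mem_map,
      List.mem_filter, List.mem_cons, List.not_mem_nil, or_false] at hg
    obtain ⟨⟨g', b'⟩, ⟨h2, -⟩, rfl⟩ := hg
    rcases h2 with h2 | h2 | h2 <;> exact congrArg Prod.fst h2
  · intro x hx y hy
    obtain ⟨x1, x2, x3, x4, x5, x6, x7, x8⟩ := h.dox x (List.mem_append_right _ hx)
    obtain ⟨x9, x10⟩ := h.ox x hx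
    obtain ⟨y1, y2, y3, y4, y5, y6, y7, y8⟩ := h.dox y (List.mem_append_right _ hy)
    obtain ⟨y9, y10⟩ := h.ox y hy
    rw [sub4_other x9 x10 x7 x8]
    constructor
    · intro he
      unfold Pool.Agent.Y968.TP.sub4 at he
      split_ifs at he with k1 k2 k3 k4
      · exact absurd he.symm y9
      · exact absurd he.symm y10
      · exact absurd he.symm y7
      · exact absurd he.symm y8
      · exact he
    · intro he
      rw [he, sub4_other y2 y4 y5 y6]

/-- the invariant -/
structure InvP (P : List Tri → (ℕ → ℕ) → Prop) (D : Code) (Ts : List Tri) : Prop where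
  wf : WF (passes (D ++ TC Ts))
  ok : ∀ T ∈ Ts, T.Ok ∧ T.Col
  inv : ∃ m, InvM (D ++ TC Ts) m ∧ P Ts m

/-- closure properties of the class -/
structure Cls0 (P : List Tri → (ℕ → ℕ) → Prop) : Prop where
  same : ∀ Ts' Ts m, List.Forall₂ SameTri Ts' Ts → P Ts m → P Ts' m
  del : ∀ l₁ T l₂ m m', P (l₁ ++ T :: l₂) m → (∀ p ∈ passes (TC (l₁ ++ l₂)),
    ∀ q ∈ passes (TC (l₁ ++ l₂)), m' p.crossing = q.crossing ↔ m p.crossing = q.crossing) →
    P (l₁ ++ l₂) m'

/-- the closure properties of the class -/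
structure Cls (P : List Tri → (ℕ → ℕ) → Prop) : Prop extends Cls0 P where
  small : ∀ (D : Code) Ts m, WF (passes D) → WF (passes (D ++ TC Ts)) → (∀ T ∈ Ts, T.Ok ∧ T.Col) →
    InvM (D ++ TC Ts) m → P Ts m → Small (TC Ts) m → ∃ Ts', Ts'.length < Ts.length ∧ InvP P D Ts'

/-- The result of one step of the reduction. -/
def RedP (P : List Tri → (ℕ → ℕ) → Prop) (D : Code) (Ts : List Tri) : Prop :=
  ∃ D' Ts', (Ts'.length < Ts.length ∨
      (Ts'.length = Ts.length ∧ (passes D').length < (passes D).length)) ∧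
    Classical D' ∧ (D'.map Prod.snd).Nodup ∧ InvP P D' Ts' ∧ Movie true false D D'

variable {P : List Tri → (ℕ → ℕ) → Prop}

theorem caseA {D : Code} {Ts : List Tri} (hD : Classical D)
    (hn : (D.map Prod.snd).Nodup) (hw : WF (passes (D ++ TC Ts))) (hok : ∀ T ∈ Ts, T.Ok ∧ T.Col)
    {m : ℕ → ℕ} (hm : InvM (D ++ TC Ts) m) (hP : P Ts m) {C : List Pass × ℕ} (hC : C ∈ D)
    {a c : List Pass} {p q : Pass} (h : C.1 = a ++ p :: q :: c) (h0 : m p.crossing = p.crossing)
    (h1 : q.crossing = p.crossing) (h2 : q.isOver = !p.isOver) : RedP P D Ts := by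
  have hp : p ∈ passes D := mem_passes.2 ⟨C, hC, by simp [h]⟩
  have hq : q ∈ passes D := mem_passes.2 ⟨C, hC, by simp [h]⟩
  have hqp : q = p.mate := by
    rcases hD.1.eq_mate hp hq h1 with rfl | rfl
    · simp at h2
    · rfl
  subst hqp
  obtain ⟨D', A, B, e1, e2, e3⟩ := exists_remove hC h
  have hperm : (passes D).Perm ([p, p.mate] ++ passes D') := by
    rw [← pl_enc, ← pl_enc, e1, e2]
    simp only [pl_append, pl_two, List.append_assoc]
    rw [← List.append_assoc, ← List.append_assoc]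
    exact List.Perm.append_right _ List.perm_append_comm
  have hW : WF ([p, p.mate] ++ passes D') := WF.perm hperm hD.1
  have hW' : WF (passes D') := hW.remove (by simp)
  have hD' : Classical D' := by
    refine ⟨hW', planar_iff.2 ?_⟩
    rw [e2]
    refine planarE_one (p := p) (fun r hr => ?_) ?_
    · rw [← e2, pl_enc] at hr
      exact hW.ne_crossing (by simp) (by simp) hr
    · rw [← e1]; exact planar_iff.1 hD.2
  have hR : Reid true (enc D) (enc D') := by
    rw [e1, e2]; exact Reid.one A B p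
  have hperm2 : (passes (D ++ TC Ts)).Perm ([p, p.mate] ++ passes (D' ++ TC Ts)) := by
    rw [passes_append', passes_append', ← List.append_assoc]
    exact List.Perm.append_right _ hperm
  have hI : InvM (D' ++ TC Ts) m := by
    refine invM_remove hperm2 hw ?_ ?_ hm
    · intro x hx
      simp only [List.mem_cons, List.not_mem_nil, or_false] at hx
      rcases hx with rfl | rfl
      · exact ⟨by simp, x, by simp, h0.symm⟩
      · exact ⟨by simp, p, by simp, h0.symm⟩
    · intro G _ o u hv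
      rw [vals_append, vals_append]
      congr 1
      have e : ∀ D : Code, vals o u D = ev o u (enc D) 1 := fun D => (ev_enc o u D).symm
      rw [e, e, e1, e2]
      refine ev_insert o u A B p p.mate ?_ 1
      rw [hv p (by simp), hv p.mate (by simp), one_mul]
  have hWe : WF (passes (D' ++ TC Ts)) := by
    exact WF.remove (k := [p, p.mate]) (WF.perm hperm2 hw) (by simp)
  refine ⟨D', Ts, Or.inr ⟨rfl, ?_⟩, hD', by rw [e3]; exact hn,
    ⟨hWe, hok, m, hI, hP⟩,
    Movie.head hD hD' (Step.reid D D' hR) Relation.ReflTransGen.refl⟩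
  rw [hperm.length_eq]; simp

theorem creid_after' {p q : Pass} {y z : List Pass} {R : Code} {b₁ b₂ : ℕ}
    (hD₄ : Classical ((p :: q :: z, b₁) :: (y, b₂) :: R)) (hpq : p.crossing ≠ q.crossing)
    (h2 : q.isOver = p.isOver) (hs : q.isPos = !p.isPos) {C₃ : List Pass × ℕ}
    (hC₃ : C₃ ∈ ((z, b₁) :: (y, b₂) :: R)) {a₃ c₃ : List Pass}
    (h₃ : C₃.1 = a₃ ++ p.mate :: q.mate :: c₃) :
    ∃ D' A B, Classical D' ∧
      D'.map Prod.snd = ((p :: q :: z, b₁) :: (y, b₂) :: R).map Prod.snd ∧
      (passes ((p :: q :: z, b₁) :: (y, b₂) :: R)).Perm ([p, q, p.mate, q.mate] ++ passes D') ∧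
      enc ((p :: q :: z, b₁) :: (y, b₂) :: R) = [] ++ two p q ++ A ++ two p.mate q.mate ++ B ∧
      enc D' = [] ++ A ++ B := by
  obtain ⟨D', A, B, f1, f2, f3⟩ := exists_remove hC₃ h₃
  have g1 : enc ((p :: q :: z, b₁) :: (y, b₂) :: R) =
      [] ++ two p q ++ A ++ two p.mate q.mate ++ B := by
    have : enc ((p :: q :: z, b₁) :: (y, b₂) :: R) = two p q ++ enc ((z, b₁) :: (y, b₂) :: R) := by
      simp [two]
    rw [this, f1]; simp
  have g2 : enc D' = [] ++ A ++ B := by rw [f2]; simp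
  have hperm₅ : (passes ((p :: q :: z, b₁) :: (y, b₂) :: R)).Perm
      ([p, q, p.mate, q.mate] ++ passes D') := by
    rw [← pl_enc, ← pl_enc, g1, g2]
    simp only [pl_append, pl_two, List.append_assoc, pl_nil, List.nil_append, List.cons_append]
    refine List.Perm.cons _ (List.Perm.cons _ ?_)
    have : (pl A ++ (p.mate :: (q.mate :: pl B))).Perm (p.mate :: (pl A ++ (q.mate :: pl B))) :=
      List.perm_middle
    exact this.trans (List.Perm.cons _ List.perm_middle)
  have hW₅ : WF ([p, q, p.mate, q.mate] ++ passes D') := WF.perm hperm₅ hD₄.1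
  have hW₆ : WF (passes D') := hW₅.remove (by simp)
  have hD' : Classical D' := by
    refine ⟨hW₆, planar_iff.2 ?_⟩
    rw [g2]
    refine planarE_two (p := p) (q := q) (fun r hr => ?_) hpq h2.symm hs ?_
    · rw [← g2, pl_enc] at hr
      exact ⟨hW₅.ne_crossing (by simp) (by simp) hr, hW₅.ne_crossing (by simp) (by simp) hr⟩
    · rw [← g1]; exact planar_iff.1 hD₄.2
  refine ⟨D', A, B, hD', ?_, hperm₅, g1, g2⟩
  rw [f3]; simp

theorem caseB' (hcl : Cls0 P) {p q : Pass} {v : List Pass} {b : ℕ} {R : Code}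
    {Ts : List Tri} (hD : Classical ((p :: v, b) :: R))
    (hn : (((p :: v, b) :: R).map Prod.snd).Nodup) (hw : WF (passes ((p :: v, b) :: R ++ TC Ts)))
    (hok : ∀ T ∈ Ts, T.Ok ∧ T.Col)
    {m : ℕ → ℕ} (hm : InvM ((p :: v, b) :: R ++ TC Ts) m) (hP : P Ts m)
    {C : List Pass × ℕ} (hC : C ∈ ((p :: v, b) :: R)) {a c : List Pass}
    (h : C.1 = a ++ p.mate :: q.mate :: c) (h0 : m p.crossing ≠ p.crossing)
    (h1 : q.crossing = m p.crossing) (h2 : q.isOver = p.isOver) :
    RedP P ((p :: v, b) :: R) Ts := by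
  have hp : p ∈ passes ((p :: v, b) :: R) := by simp
  have hq' : q.mate ∈ passes ((p :: v, b) :: R) := mem_passes.2 ⟨C, hC, by simp [h]⟩
  have hq : q ∈ passes ((p :: v, b) :: R) := by simpa using hD.1.1 _ hq'
  have hin : ∀ r ∈ passes ((p :: v, b) :: R), r ∈ passes ((p :: v, b) :: R ++ TC Ts) := by
    intro r hr; rw [passes_append']; exact List.mem_append_left _ hr
  have hpq : p.crossing ≠ q.crossing := by rw [h1]; exact Ne.symm h0
  have hmq : m q.crossing = p.crossing := by rw [h1]; exact matching_invol hm.1 (hin p hp)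
  have hs : q.isPos = !p.isPos := by
    obtain ⟨q₀, g1, g2, g3, g4⟩ := hm.1 p (hin p hp)
    rw [WellFormed.sign_eq (D := (p :: v, b) :: R ++ TC Ts) hw g1 (hin q hq) (by rw [g2, h1])]
    exact g4 (by rw [g2]; exact h0)
  have e1 : p.mate ≠ p := by intro h; simpa using congrArg Pass.isOver h
  have e2 : q.mate ≠ q := by intro h; simpa using congrArg Pass.isOver h
  have e3 : p.mate ≠ q := fun h => hpq (congrArg Pass.crossing h : p.mate.crossing = q.crossing)
  have e4 : q.mate ≠ p := fun h =>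
    hpq (congrArg Pass.crossing h : q.mate.crossing = p.crossing).symm
  have e5 : p ≠ q := fun h => hpq (congrArg Pass.crossing h)
  have hnd := WF.nodup hD.1
  have hpv : p ∉ v := by
    rw [passes_cons, List.cons_append, List.nodup_cons] at hnd
    exact fun h => hnd.1 (by simp [h])
  have hRb : ∀ C ∈ R, C.2 ≠ b := by
    intro C hC he
    rw [List.map_cons, List.nodup_cons] at hn
    exact hn.1 (List.mem_map.2 ⟨C, hC, he⟩)
  -- the passages of one type at the two crossings belong to the same component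
  have hqv : q ∈ v := by
    by_contra hqv
    have hv1 : Valid (passes ((p :: v, b) :: R ++ TC Ts)) m (fun _ => (1 : Multiplicative ℤ))
        (fun _ => 1) := fun r _ => by simp
    have := hm.2.2 _ _ _ (valid_tw hv1 hm.1 h1.symm hmq hpq (Multiplicative.ofAdd 1) p.isOver) b
    rw [vals_append, bv_append] at this
    simp only [vals, List.map_cons] at this
    rw [bv_cons, if_pos rfl] at this
    have hb1 := bv_vals_nil (o := tw p.crossing q.crossing (Multiplicative.ofAdd (1 : ℤ)) p.isOver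
      fun _ => 1) (u := tw p.crossing q.crossing (Multiplicative.ofAdd (1 : ℤ)) (!p.isOver)
      fun _ => 1) hRb
    unfold vals at hb1
    rw [hb1, List.cons_append, List.nil_append] at this
    have h4 : ∀ w : List Pass, wval (fun _ => (1 : Multiplicative ℤ)) (fun _ => 1) w = 1 := by
      intro w
      induction w with
      | nil => rfl
      | cons r v ih => rw [wval_cons, ih]; simp [val]
    have h5 := Pool.Agent.Y874.TP.cn_ones (fun y hy => ?_) this
    · simp only [wval_cons] at h5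
      have h3 : wval (tw p.crossing q.crossing (Multiplicative.ofAdd (1 : ℤ)) p.isOver fun _ => 1)
          (tw p.crossing q.crossing (Multiplicative.ofAdd (1 : ℤ)) (!p.isOver) fun _ => 1) v =
          wval (fun _ => 1) (fun _ => 1) v := by
        refine wval_congr fun r hr => ?_
        rw [val_tw]
        split_ifs with k1 k2 k3
        · exact absurd (hD.1.eq_of (by simp [hr]) hp k2 k1 ▸ hr) hpv
        · exact absurd (hD.1.eq_of (by simp [hr]) hq k3 (k1.trans h2.symm) ▸ hr) hqv
        · rfl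
        · rfl
      rw [h3, h4, val_tw, if_pos rfl, if_pos rfl, mul_one] at h5
      have := congrArg Multiplicative.toAdd h5
      simp at this
    · simp only [bv, List.mem_map, List.mem_filter] at hy
      obtain ⟨x, ⟨⟨C', hC', rfl⟩, -⟩, rfl⟩ := hy
      simp only
      refine Eq.trans (wval_congr (o' := fun _ => 1) (u' := fun _ => 1) fun r hr => ?_) (h4 C'.1)
      have hr' : r ∈ passes (TC Ts) := mem_passes.2 ⟨C', hC', hr⟩
      have k4 := sep hD.1 hw hp hr'
      have k5 := sep hD.1 hw hq hr'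
      rw [val_tw, if_neg k4, if_neg k5, ite_self]
  obtain ⟨y, z, rfl⟩ := List.append_of_mem hqv
  obtain ⟨b', hb'⟩ := Infinite.exists_notMem_finset
    (((p :: (y ++ q :: z), b) :: R ++ TC Ts).map Prod.snd).toFinset
  have hb'' : b' ≠ b ∧ ∀ C ∈ R ++ TC Ts, C.2 ≠ b' := by
    simp only [List.cons_append, List.map_cons, List.mem_toFinset, List.mem_cons, not_or,
      List.mem_map, not_exists, not_and] at hb'
    exact ⟨hb'.1, hb'.2⟩
  have hb' : b' ≠ b ∧ ∀ C ∈ R, C.2 ≠ b' := ⟨hb''.1, fun C hC => hb''.2 C (by simp [hC])⟩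
  -- the factor
  have hfac : ∃ C₃ ∈ ((z, b) :: (y, b') :: R), ∃ a₃ c₃, C₃.1 = a₃ ++ p.mate :: q.mate :: c₃ := by
    rcases List.mem_cons.1 hC with rfl | hC
    · rcases a with _ | ⟨s, a⟩
      · simp only [List.nil_append, List.cons.injEq] at h
        exact absurd h.1.symm e1
      · simp only [List.cons_append, List.cons.injEq] at h
        rcases fac_mid h.2 e3.symm e2.symm with ⟨a', c', h⟩ | ⟨a', c', h⟩
        · exact ⟨(y, b'), by simp, a', c', h⟩
        · exact ⟨(z, b), by simp, a', c', h⟩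
    · exact ⟨C, by simp [hC], a, c, h⟩
  obtain ⟨C₃, hC₃, a₃, c₃, h₃⟩ := hfac
  obtain ⟨hperm₄, hD₄, hmov⟩ := cut_movie hD hpq h2 hs hb' (b₁ := b) (b₂ := b')
    (Or.inl ⟨rfl, rfl⟩) hC₃ h₃
  obtain ⟨D', A, B, hD', f3, hperm₅, g1, g2⟩ := creid_after' hD₄ hpq h2 hs hC₃ h₃
  obtain ⟨S', s1, s2, s3⟩ := CT.cut p q y z b b' (R ++ TC Ts) m hw hm h0 h1 h2 hb'.1.symm hb''.2
  obtain ⟨Ts', rfl, s4⟩ := split_labels R S' s1 s2 hRb
  obtain ⟨t1, t2, t3, t4⟩ := Pool.Agent.Y874.TP2.same_facts s4
  have hW₄ : WF (passes ((p :: q :: z, b) :: (y, b') :: R ++ TC Ts')) := by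
    have := hw
    rw [passes_append'] at this ⊢
    rw [t3]
    exact WF.perm (List.Perm.append_right _ hperm₄) this
  have hperm₆ : (passes ((p :: q :: z, b) :: (y, b') :: R ++ TC Ts')).Perm
      ([p, q, p.mate, q.mate] ++ passes (D' ++ TC Ts')) := by
    rw [passes_append', passes_append', ← List.append_assoc]
    exact List.Perm.append_right _ hperm₅
  have hI : InvM (D' ++ TC Ts') m := by
    refine invM_remove hperm₆ hW₄ ?_ ?_ s3
    · intro x hx
      simp only [List.mem_cons, List.not_mem_nil, or_false] at hx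
      rcases hx with rfl | rfl | rfl | rfl
      · exact ⟨by simp, q, by simp, h1⟩
      · exact ⟨by simp, p, by simp, hmq.symm⟩
      · exact ⟨by simp, q, by simp, h1⟩
      · exact ⟨by simp, p, by simp, hmq.symm⟩
    · intro G _ o u hv
      rw [vals_append, vals_append]
      congr 1
      have e : ∀ D : Code, vals o u D = ev o u (enc D) 1 := fun D => (ev_enc o u D).symm
      rw [e, e, g1, g2, ev_insert o u ([] ++ two p q ++ A) B p.mate q.mate (by
        rw [hv p.mate (by simp), hv q.mate (by simp), one_mul]) 1]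
      have e6 : ([] : List (Pass ⊕ ℕ)) ++ two p q ++ A ++ B = [] ++ two p q ++ (A ++ B) := by simp
      rw [e6, ev_insert o u [] (A ++ B) p q (by
        rw [hv p (by simp), hv q (by simp), one_mul]) 1]
      simp
  have hW₅ : WF (passes (D' ++ TC Ts')) := by
    exact WF.remove (k := [p, q, p.mate, q.mate]) (WF.perm hperm₆ hW₄) (by simp)
  have hRe : Reid true (enc ((p :: q :: z, b) :: (y, b') :: R)) (enc D') := by
    rw [g1, g2]
    exact Reid.twoSame [] A B p q hpq h2.symm hs
  refine ⟨D', Ts', Or.inr ⟨t1, ?_⟩, hD', ?_, ⟨hW₅, t4 hok, m, hI, hcl.same _ _ _ s4 hP⟩,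
    (movie_mono hmov).trans (Movie.head hD₄ hD' (Step.reid _ D' hRe)
      Relation.ReflTransGen.refl)⟩
  · rw [hperm₄.length_eq, hperm₅.length_eq]; simp; omega
  · rw [f3]
    simp only [List.map_cons, List.nodup_cons, List.mem_cons, not_or] at hn ⊢
    refine ⟨⟨hb'.1.symm, hn.1⟩, fun h => ?_, hn.2⟩
    obtain ⟨C, hC, h⟩ := List.mem_map.1 h
    exact hb'.2 C hC h

theorem caseB (hcl : Cls0 P) {D : Code} {Ts : List Tri} (hD : Classical D)
    (hn : (D.map Prod.snd).Nodup) (hw : WF (passes (D ++ TC Ts))) (hok : ∀ T ∈ Ts, T.Ok ∧ T.Col)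
    {m : ℕ → ℕ} (hm : InvM (D ++ TC Ts) m) (hP : P Ts m)
    {C : List Pass × ℕ} (hC : C ∈ D)
    {a c : List Pass} {p q : Pass} (h : C.1 = a ++ p :: q :: c) (h0 : m p.crossing ≠ p.crossing)
    (h1 : q.crossing = m p.crossing) (h2 : q.isOver = p.isOver) : RedP P D Ts := by
  have hp : p ∈ passes D := mem_passes.2 ⟨C, hC, by simp [h]⟩
  have hpq : p.crossing ≠ q.crossing := by rw [h1]; exact Ne.symm h0
  obtain ⟨⟨w, b⟩, hC', hpC'⟩ := mem_passes.1 (hD.1.1 p hp)
  obtain ⟨D₁, D₂, rfl⟩ := List.append_of_mem hC'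
  obtain ⟨x, v, rfl⟩ := List.append_of_mem hpC'
  have hperm : (D₁ ++ (x ++ p.mate :: v, b) :: D₂).Perm ((x ++ p.mate :: v, b) :: (D₁ ++ D₂)) :=
    List.perm_middle
  have c1 := classical_perm hperm hD
  have c2 : Classical ((p.mate :: v ++ x, b) :: (D₁ ++ D₂)) := classical_rotate c1
  have m1 : InvM ((x ++ p.mate :: v, b) :: (D₁ ++ D₂) ++ TC Ts) m :=
    Pool.Agent.Y874.TP2.invM_perm (hperm.append_right _) hm
  have m2 : InvM ((p.mate :: v ++ x, b) :: (D₁ ++ D₂) ++ TC Ts) m := by
    simpa using Pool.Agent.Y874.TP2.invM_rotate (R := D₁ ++ D₂ ++ TC Ts) (x := x) (y := p.mate :: v)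
      (by simpa using m1)
  have hperm2 : (passes ((x ++ p.mate :: v, b) :: (D₁ ++ D₂))).Perm
      (passes ((p.mate :: v ++ x, b) :: (D₁ ++ D₂))) := by
    rw [passes_cons, passes_cons]
    exact List.Perm.append_right _ List.perm_append_comm
  have w2 : WF (passes ((p.mate :: v ++ x, b) :: (D₁ ++ D₂) ++ TC Ts)) := by
    rw [passes_append'] at hw ⊢
    exact WF.perm (List.Perm.append_right _ ((passes_perm hperm).trans hperm2)) hw
  have l1 : (((p.mate :: (v ++ x), b) :: (D₁ ++ D₂)).map Prod.snd).Nodup := by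
    have := (hperm.map Prod.snd).nodup hn
    simpa using this
  have hfac : ∃ C' ∈ ((p.mate :: (v ++ x), b) :: (D₁ ++ D₂)), ∃ a' c',
      C'.1 = a' ++ p :: q :: c' := by
    rcases List.mem_cons.1 (hperm.subset hC) with rfl | hC
    · have k1 : p.mate ≠ p := by intro h; simpa using congrArg Pass.isOver h
      have k2 : p.mate ≠ q := fun h => hpq (congrArg Pass.crossing h : p.mate.crossing = q.crossing)
      rcases fac_mid h k1 k2 with ⟨a', c', h⟩ | ⟨a', c', h⟩
      · exact ⟨_, List.mem_cons_self, p.mate :: v ++ a', c', by simp [h]⟩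
      · exact ⟨_, List.mem_cons_self, p.mate :: a', c' ++ x, by simp [h]⟩
    · exact ⟨C, List.mem_cons_of_mem _ hC, a, c, h⟩
  obtain ⟨C', hC', a', c', h'⟩ := hfac
  obtain ⟨D', Ts', r1, r2, r3, r4, r5⟩ := caseB' hcl (p := p.mate) (q := q.mate) c2 l1 w2 hok m2 hP
    hC' (a := a') (c := c') (by simpa using h') h0 h1 (by simp [h2])
  refine ⟨D', Ts', ?_, r2, r3, r4, Movie.head hD c1 (Step.perm _ _ hperm) (Movie.head c1 c2
    (Step.rotate x (p.mate :: v) b (D₁ ++ D₂)) r5)⟩
  rw [(passes_perm hperm).length_eq, hperm2.length_eq]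
  exact r1

theorem remT' (hcl : Cls0 P) {D : Code}
    {Ts : List Tri} (hD : Classical D) (hn : (D.map Prod.snd).Nodup)
    (hw : WF (passes (D ++ TC Ts))) (hok₀ : ∀ T ∈ Ts, T.Ok ∧ T.Col) {m : ℕ → ℕ}
    (hm : InvM (D ++ TC Ts) m) (hP : P Ts m) {C : List Pass × ℕ} (hC : C ∈ D) {a c : List Pass}
    {p r : Pass} (h : C.1 = a ++ p :: r :: c) {T : Tri} (hT : T ∈ Ts) {W : List Pass}
    (hW : W ∈ [T.wi, T.wj, T.wk]) {p' r' : Pass} (hcyc : Cyc r' p' W)
    (e1 : p'.crossing = m p.crossing) (e2 : p'.isOver = p.isOver)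
    (e3 : r'.crossing = m r.crossing) (e4 : r'.isOver = r.isOver) : RedP P D Ts := by
  obtain ⟨T', g1, rfl, rfl, g4⟩ := Pool.Agent.Y874.TP2.normal hW hcyc
  obtain ⟨l₁, l₂, rfl⟩ := List.append_of_mem hT
  obtain ⟨hok, hco⟩ := hok₀ T hT
  have hperm : (D ++ TC (l₁ ++ T :: l₂)).Perm (D ++ (T.code ++ TC (l₁ ++ l₂))) := by
    refine List.Perm.append_left _ ?_
    simp only [TC, List.flatMap_append, List.flatMap_cons]
    rw [← List.append_assoc, ← List.append_assoc]
    exact List.Perm.append_right _ List.perm_append_comm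
  have hm' : InvM (D ++ (T'.code ++ TC (l₁ ++ l₂))) m :=
    Pool.Agent.Y874.TP2.invM_ceq g4.ceq (Pool.Agent.Y874.TP2.invM_perm hperm hm)
  have hW' : WF (passes (D ++ (T'.code ++ TC (l₁ ++ l₂)))) :=
    wf_ceq g4.ceq (WF.perm (passes_perm hperm) hw)
  have hok' := g4.ok hok
  have hco' := g4.col hco
  have hcn : T'.a₁ ≠ T'.b₁ := by
    intro h
    have h1 := hW'.2
    have h2 : (passes T'.code).Nodup := by
      have := WF.nodup hW'
      rw [passes_append', passes_append'] at this
      exact (List.nodup_append.1 (List.nodup_append.1 this).2.1).1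
    have h3 : ∀ P Q : Pass, P ∈ passes (D ++ (T'.code ++ TC (l₁ ++ l₂))) →
        Q ∈ passes (D ++ (T'.code ++ TC (l₁ ++ l₂))) → P.crossing = Q.crossing →
        P.isOver = Q.isOver → P = Q := fun P Q hP hQ hc ho =>
      List.inj_on_of_nodup_map h1 hP hQ (by simp [hc, ho])
    have hmem : ∀ P ∈ passes T'.code, P ∈ passes (D ++ (T'.code ++ TC (l₁ ++ l₂))) := by
      intro P hP
      rw [passes_append', passes_append']; simp [hP]
    by_cases ho : T'.ta = T'.tb
    · have e := h3 T'.pa₁ T'.pb₁ (hmem _ (by rw [mem_code]; simp)) (hmem _ (by rw [mem_code]; simp))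
        h ho
      rw [Tri.code, passes_cons] at h2
      have h4 := (List.nodup_append.1 h2).1
      unfold Tri.wi word4 at h4
      rw [if_pos g1, e] at h4
      simp at h4
    · have e := h3 T'.pa₁.mate T'.pb₁ (hmem _ (by rw [mem_code]; simp))
        (hmem _ (by rw [mem_code]; simp)) h (by
          change (!T'.ta) = T'.tb
          cases h5 : T'.ta <;> cases h6 : T'.tb <;> simp_all)
      rw [Tri.code, passes_cons, passes_cons] at h2
      refine (List.nodup_append.1 h2).2.2 T'.pb₁ ?_ T'.pa₁.mate ?_ e.symm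
      · unfold Tri.wi word4; rw [if_pos g1]; simp
      · unfold Tri.wj word4; split_ifs <;> simp
  obtain ⟨K, hK⟩ := exists_bound (passes (D ++ (T'.code ++ TC (l₁ ++ l₂))))
  have hfr : ∀ k, ∀ q ∈ passes (D ++ (T'.code ++ TC (l₁ ++ l₂))),
      q.crossing ≠ Nat.pair (colour T'.c₁) (K + k) := by
    intro k p hp he
    have := hK p hp
    rw [he, Nat.unpair_pair] at this
    simp only at this
    omega
  have hcol : ∀ k, colour (Nat.pair (colour T'.c₁) (K + k)) = colour T'.c₁ := fun k => by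
    rw [colour, Nat.unpair_pair]
  have hne : Nat.pair (colour T'.c₁) (K + 0) ≠ Nat.pair (colour T'.c₁) (K + 1) := by
    intro h
    have := (Nat.pair_eq_pair.1 h).2
    omega
  have hpr : p.crossing ≠ r.crossing := by
    intro he
    have : T'.a₁ = T'.b₁ := by
      have h1 : T'.a₁ = m p.crossing := e1
      have h2 : T'.b₁ = m r.crossing := e3
      rw [h1, h2, he]
    exact hcn this
  have htc : T'.tc = r.isOver ∨ p.isOver = r.isOver := by
    rw [← e4, ← e2]
    exact hok'.1
  set na := Nat.pair (colour T'.c₁) (K + 0) with hna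
  set nb := Nat.pair (colour T'.c₁) (K + 1) with hnb
  obtain ⟨o1, m', o2, o3⟩ := out_track hok' hco' g1 hD.1 hW' hm' hC h
    e1.symm e2.symm e3.symm e4.symm hne (fun q hq => ⟨hfr 0 q hq, hfr 1 q hq⟩) (hcol 0) (hcol 1)
  have hfrD : ∀ q ∈ passes D, q.crossing ≠ na ∧ q.crossing ≠ nb := by
    intro q hq
    have : q ∈ passes (D ++ (T'.code ++ TC (l₁ ++ l₂))) := by
      rw [passes_append']; exact List.mem_append_left _ hq
    exact ⟨hfr 0 q this, hfr 1 q this⟩
  have k1 := Pool.Agent.Y333.TP.mid_planar D p r T'.tc C a c na nb hD hC h hpr hne hfrD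
  have k2 := Pool.Agent.Y514.TP.out_planar D p r T'.tc C a c na nb hD hC h hpr hne hfrD
  obtain ⟨k3, k4⟩ := Pool.Agent.Y210.TP.move D p r T'.tc C a c na nb hD.1 hC h hpr htc hne hfrD
  refine ⟨out p r T'.tc na nb D, l₁ ++ l₂, Or.inl ?_, k2, ?_, ⟨o1, ?_, m', o2, ?_⟩,
    Movie.head hD k1 (Step.reidInv _ _ k3) (Movie.head k1 k2 (Step.reid _ _ k4)
      Relation.ReflTransGen.refl)⟩
  · simp only [List.length_append, List.length_cons]; omega
  · have : (out p r T'.tc na nb D).map Prod.snd = D.map Prod.snd := by simp [out]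
    rw [this]; exact hn
  · intro T₁ hT₁
    refine hok₀ T₁ ?_
    rcases List.mem_append.1 hT₁ with h | h
    · simp [h]
    · simp [h]
  · exact hcl.del l₁ T l₂ m m' hP o3

/-- the circles have four corners -/
theorem four_TC {Ts : List Tri} {C : List Pass × ℕ} (hC : C ∈ TC Ts) :
    ∃ x0 x1 x2 x3, C.1 = [x0, x1, x2, x3] := by
  obtain ⟨T, -, hC⟩ := List.mem_flatMap.1 hC
  simp only [Tri.code, List.mem_cons, List.not_mem_nil, or_false] at hC
  have key : ∀ (e : Bool) (p₁ p₂ q₁ q₂ : Pass), ∃ x0 x1 x2 x3,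
      word4 e p₁ p₂ q₁ q₂ = [x0, x1, x2, x3] := by
    intro e p₁ p₂ q₁ q₂
    cases e
    · exact ⟨_, _, _, _, rfl⟩
    · exact ⟨_, _, _, _, rfl⟩
  rcases hC with rfl | rfl | rfl
  · exact key _ _ _ _ _
  · exact key _ _ _ _ _
  · exact key _ _ _ _ _

theorem reduceP (hcl : Cls P) {D : Code} {Ts : List Tri} (hD : Classical D)
    (hn : (D.map Prod.snd).Nodup) (h3 : InvP P D Ts) (h : passes D ≠ []) : RedP P D Ts := by
  obtain ⟨m, hm, hP⟩ := h3.inv
  rcases junc3 hn h3.wf hm.1 hm.2.2 (fun C hC => four_TC hC) h with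
    ⟨C, hC, a, c, p, r, hpr, hcase⟩ | hs
  · have hp : p ∈ passes D := mem_passes.2 ⟨C, hC, by simp [hpr]⟩
    have hr : r ∈ passes D := mem_passes.2 ⟨C, hC, by simp [hpr]⟩
    rcases hcase with (⟨k1, k2, k3⟩ | ⟨k1, k2, k3⟩) | ⟨Cq, hCq, hcyc⟩
    · exact caseA hD hn h3.wf h3.ok hm hP hC hpr k1 k2 k3
    · exact caseB hcl.toCls0 hD hn h3.wf h3.ok hm hP hC hpr k1 k2 k3
    · obtain ⟨T, hT, hCT⟩ := List.mem_flatMap.1 hCq
      have hmem : ∀ p : Pass, p ∈ passes D → part m p ∈ Cq.1 →
          (part m p).crossing = m p.crossing ∧ (part m p).isOver = p.isOver := by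
        intro p hp hpq
        unfold part at hpq ⊢
        split_ifs at hpq ⊢ with hm
        · exfalso
          have h1 : p.mate ∈ passes (TC Ts) := mem_passes.2 ⟨Cq, hCq, hpq⟩
          exact sep hD.1 h3.wf (hD.1.1 p hp) h1 rfl
        · exact ⟨rfl, rfl⟩
      have hcyc' : ∀ (r p : Pass) (W : List Pass), CAdj W r p → r ∈ W ∧ p ∈ W := by
        rintro r p W (⟨u, v, rfl⟩ | ⟨u, rfl⟩) <;> simp
      obtain ⟨m1, m2⟩ := hcyc' _ _ _ hcyc
      obtain ⟨c1, c2⟩ := hmem p hp m2
      obtain ⟨c3, c4⟩ := hmem r hr m1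
      have hW : Cq.1 ∈ [T.wi, T.wj, T.wk] := by
        simp only [Tri.code, List.mem_cons, List.not_mem_nil, or_false] at hCT
        rcases hCT with rfl | rfl | rfl <;> simp
      exact remT' hcl.toCls0 hD hn h3.wf h3.ok hm hP hC hpr hT hW hcyc c1 c2 c3 c4
  · obtain ⟨Ts', h1, h2⟩ := hcl.small D Ts m hD.1 h3.wf h3.ok hm hP hs
    exact ⟨D, Ts', Or.inl h1, hD, hn, h2, Relation.ReflTransGen.refl⟩

theorem movie_of_invP (hcl : Cls P) (n : ℕ) : ∀ (l : ℕ) (D : Code)
    (Ts : List Tri), Ts.length = n → (passes D).length = l → Classical D →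
    (D.map Prod.snd).Nodup → InvP P D Ts → Movie true false D [] := by
  induction n using Nat.strong_induction_on with
  | _ n ihn =>
    intro l
    induction l using Nat.strong_induction_on with
    | _ l ihl =>
      intro D Ts h1 h2 hD hn h3
      by_cases h : passes D = []
      · exact movie_mono (deaths hn h)
      · obtain ⟨D', Ts', r1, r2, r3, r4, r5⟩ := reduceP hcl hD hn h3 h
        refine r5.trans ?_
        rcases r1 with r1 | ⟨r1, r1'⟩
        · exact ihn Ts'.length (by omega) _ D' Ts' rfl rfl r2 r3 r4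
        · exact ihl (passes D').length (by omega) D' Ts' (by omega) rfl r2 r3 r4

end Pool.Agent.V11206
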