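import Pool.Agent.V11206.Srch

/-! Soundness of the search. -/

set_option autoImplicit false

namespace Pool.Agent.V11206.CF

set_option linter.unusedVariables false
set_option linter.unusedSimpArgs false

/-! ### bit fields -/

theorem g12_eq (S x : ℕ) : g12 S x = (S >>> (12 * x)) &&& (2 ^ 12 - 1) := rfl

theorem g6_eq (S x : ℕ) : g6 S x = (S >>> (6 * x)) &&& (2 ^ 6 - 1) := rfl

theorem fld_xor (w F δ p x : ℕ) (hδ : δ < 2 ^ w) :
    ((F ^^^ (δ <<< (w * p))) >>> (w * x)) &&& (2 ^ w - 1) =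
      if x = p then ((F >>> (w * p)) &&& (2 ^ w - 1)) ^^^ δ
      else ((F >>> (w * x)) &&& (2 ^ w - 1)) := by
  apply Nat.eq_of_testBit_eq
  intro i
  by_cases hi : i < w
  · by_cases hx : x = p
    · subst hx
      simp [Nat.testBit_and, Nat.testBit_two_pow_sub_one, Nat.testBit_shiftRight,
        Nat.testBit_xor, Nat.testBit_shiftLeft, hi]
    · rw [if_neg hx]
      simp only [Nat.testBit_and, Nat.testBit_two_pow_sub_one, Nat.testBit_shiftRight,
        Nat.testBit_xor, Nat.testBit_shiftLeft, hi, decide_true, Bool.and_true]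
      rcases Nat.lt_or_gt_of_ne hx with h | h
      · have h1 : w * (x + 1) ≤ w * p := Nat.mul_le_mul_left w h
        rw [Nat.mul_add] at h1
        have h2 : ¬(w * x + i ≥ w * p) := by omega
        simp [h2]
      · have h1 : w * (p + 1) ≤ w * x := Nat.mul_le_mul_left w h
        rw [Nat.mul_add] at h1
        have h3 : δ < 2 ^ (w * x + i - w * p) :=
          lt_of_lt_of_le hδ (Nat.pow_le_pow_right (by norm_num) (by omega))
        rw [Nat.testBit_lt_two_pow h3]
        simp
  · have h1 : ∀ z, (z &&& (2 ^ w - 1)).testBit i = false := by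
      intro z; simp [Nat.testBit_and, Nat.testBit_two_pow_sub_one, hi]
    rw [h1]
    split
    · rw [Nat.testBit_xor, h1]
      have : δ < 2 ^ i := lt_of_lt_of_le hδ (Nat.pow_le_pow_right (by norm_num) (by omega))
      rw [Nat.testBit_lt_two_pow this]; rfl
    · rw [h1]

theorem g12_lt (S x : ℕ) : g12 S x < 4096 := by
  rw [g12_eq]; exact lt_of_le_of_lt Nat.and_le_right (by norm_num)

theorem g6_lt (S x : ℕ) : g6 S x < 64 := by
  rw [g6_eq]; exact lt_of_le_of_lt Nat.and_le_right (by norm_num)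

theorem g12_xor (F δ p x : ℕ) (hδ : δ < 4096) :
    g12 (Nat.xor F (Nat.shiftLeft δ (Nat.mul 12 p))) x =
      if x = p then (g12 F p) ^^^ δ else g12 F x :=
  fld_xor 12 F δ p x hδ

theorem g6_xor (F δ p x : ℕ) (hδ : δ < 64) :
    g6 (Nat.xor F (Nat.shiftLeft δ (Nat.mul 6 p))) x =
      if x = p then (g6 F p) ^^^ δ else g6 F x :=
  fld_xor 6 F δ p x hδ

def enF (F s : ℕ) : ℕ := Nat.land (g12 F s) 63
def glF (F s : ℕ) : ℕ := Nat.land (g12 F s) 192 / 64
def pvF (F s : ℕ) : ℕ := Nat.shiftRight (g12 F s) 8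

theorem new_fld : ∀ e < 64, ∀ np < 5, ∀ g ∈ [2, 3], e + (64 * g + 256 * np) < 4096 ∧
    Nat.land (e + (64 * g + 256 * np)) 63 = e ∧ Nat.land (e + (64 * g + 256 * np)) 192 / 64 = g ∧
    Nat.shiftRight (e + (64 * g + 256 * np)) 8 = np := by decide +kernel

theorem up_F (F p e g np : ℕ) (he : e < 64) (hg : g = 2 ∨ g = 3) (hnp : np < 5) :
    let F' := Nat.xor F (Nat.shiftLeft (Nat.xor (g12 F p) (Nat.add e (Nat.add (64 * g)
      (Nat.mul 256 np)))) (Nat.mul 12 p))
    enF F' = Function.update (enF F) p e ∧ glF F' = Function.update (glF F) p g ∧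
      pvF F' = Function.update (pvF F) p np := by
  intro F'
  obtain ⟨h1, h2, h3, h4⟩ := new_fld e he np hnp g (by rcases hg with rfl | rfl <;> simp)
  have hδ : Nat.xor (g12 F p) (Nat.add e (Nat.add (64 * g) (Nat.mul 256 np))) < 4096 :=
    Nat.xor_lt_two_pow (n := 12) (g12_lt F p) h1
  have key : ∀ x, g12 F' x = if x = p then e + (64 * g + 256 * np) else g12 F x := by
    intro x
    rw [g12_xor F _ p x hδ]
    split
    · show g12 F p ^^^ (g12 F p ^^^ (e + (64 * g + 256 * np))) = _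
      rw [← Nat.xor_assoc, Nat.xor_self, Nat.zero_xor]
    · rfl
  refine ⟨?_, ?_, ?_⟩ <;> funext x <;> by_cases hx : x = p
  · subst hx; rw [Function.update_self]; unfold enF; rw [key, if_pos rfl]; exact h2
  · rw [Function.update_of_ne hx]; unfold enF; rw [key, if_neg hx]
  · subst hx; rw [Function.update_self]; unfold glF; rw [key, if_pos rfl]; exact h3
  · rw [Function.update_of_ne hx]; unfold glF; rw [key, if_neg hx]
  · subst hx; rw [Function.update_self]; unfold pvF; rw [key, if_pos rfl]; exact h4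
  · rw [Function.update_of_ne hx]; unfold pvF; rw [key, if_neg hx]

theorem up_ST (ST p y e : ℕ) (hp : p < 64) (hy : y < 64) (he : g6 ST e = y) :
    g6 (Nat.xor ST (Nat.shiftLeft (Nat.xor p y) (Nat.mul 6 e))) =
      Function.update (g6 ST) e p := by
  funext x
  have hδ : Nat.xor p y < 64 := Nat.xor_lt_two_pow (n := 6) hp hy
  rw [g6_xor ST _ e x hδ]
  by_cases hx : x = e
  · subst hx
    rw [Function.update_self, if_pos rfl, he]
    show y ^^^ (p ^^^ y) = p
    rw [Nat.xor_comm p y, ← Nat.xor_assoc, Nat.xor_self, Nat.zero_xor]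
  · rw [Function.update_of_ne hx, if_neg hx]

theorem pt2_fact : ∀ p < 36, ∀ e < 36,
    2 + Nat.land (Nat.shiftRight PT2 (Nat.mul 2 (Nat.add (Nat.mul 64 p) e))) 3 =
      ptv false false 2 p e := by decide +kernel

theorem pt3_fact : ∀ p < 36, ∀ e < 36,
    2 + Nat.land (Nat.shiftRight PT3 (Nat.mul 2 (Nat.add (Nat.mul 64 p) e))) 3 =
      ptv false false 3 p e := by decide +kernel

theorem bit_land (A a : ℕ) : Nat.land (Nat.shiftRight A a) 1 = (A.testBit a).toNat := by
  show (A >>> a) &&& 1 = _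
  rw [Nat.and_one_is_mod, Nat.testBit_eq_decide_div_mod_eq, Nat.shiftRight_eq_div_pow]
  rcases Nat.mod_two_eq_zero_or_one (A / 2 ^ a) with h | h <;> simp [h]

theorem bit_lor (LF p e : ℕ) :
    Nat.beq (Nat.land (Nat.lor (Nat.shiftRight LF p) (Nat.shiftRight LF e)) 1) 0 =
      !(LF.testBit p || LF.testBit e) := by
  have h : Nat.land (Nat.lor (Nat.shiftRight LF p) (Nat.shiftRight LF e)) 1 =
      (LF.testBit p || LF.testBit e).toNat := by
    show ((LF >>> p) ||| (LF >>> e)) &&& 1 = _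
    apply Nat.eq_of_testBit_eq
    intro i
    rcases Nat.eq_zero_or_pos i with rfl | hi
    · simp [Nat.testBit_and, Nat.testBit_or, Nat.testBit_shiftRight]
      cases LF.testBit p <;> cases LF.testBit e <;> simp
    · have h1 : (1 : ℕ).testBit i = false := by
        rw [Nat.testBit_lt_two_pow]
        calc 1 < 2 ^ 1 := by norm_num
          _ ≤ 2 ^ i := Nat.pow_le_pow_right (by norm_num) hi
      rw [Nat.testBit_and, h1, Bool.and_false]
      cases (LF.testBit p || LF.testBit e) <;> simp [h1]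
  rw [h]
  cases (LF.testBit p || LF.testBit e) <;> rfl

theorem pt_two {LF p e : ℕ} (hp : p < 36) (he : e < 36) :
    pt LF p e PT2 = ptv (LF.testBit p) (LF.testBit e) 2 p e := by
  unfold pt
  rw [bit_lor]
  cases hh : (LF.testBit p || LF.testBit e) with
  | true => rw [ptv_leaf hh (by norm_num)]; rfl
  | false =>
    have h1 : LF.testBit p = false := by revert hh; cases LF.testBit p <;> simp
    have h2 : LF.testBit e = false := by revert hh; cases LF.testBit e <;> simp
    rw [h1, h2]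
    exact pt2_fact p hp e he

theorem pt_three {LF p e : ℕ} (hp : p < 36) (he : e < 36) :
    pt LF p e PT3 = ptv (LF.testBit p) (LF.testBit e) 3 p e := by
  unfold pt
  rw [bit_lor]
  cases hh : (LF.testBit p || LF.testBit e) with
  | true => rw [ptv_leaf hh (by norm_num)]; rfl
  | false =>
    have h1 : LF.testBit p = false := by revert hh; cases LF.testBit p <;> simp
    have h2 : LF.testBit e = false := by revert hh; cases LF.testBit e <;> simp
    rw [h1, h2]
    exact pt3_fact p hp e he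

theorem ptv_lt {a b : Bool} {g s e : ℕ} : ptv a b g s e < 5 := by
  unfold ptv
  split_ifs <;> omega

/-! ### states -/

/-- the numbers describe a state -/
def Md (K t : ℕ) (c : ℕ → ℕ) (As Ae : ℕ → Prop) (LF F ST W : ℕ) : Prop :=
  ∃ Hd, IV K t c As Ae (fun d => LF.testBit d) (enF F) (g6 ST) (glF F) (pvF F) Hd ∧
    4 * Hd.length + sm K As (pvF F) ≤ W

variable {K t : ℕ} {c : ℕ → ℕ} {As Ae : ℕ → Prop}

theorem Md.thr {LF F ST W : ℕ} (hC : Cfg K t c) (h : Md K t c As Ae LF F ST W) :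
    12 * K + 4 ≤ W := by
  obtain ⟨Hd, h1, h2⟩ := h
  exact (iv_thr hC h1).trans h2

theorem gl_sum (v : ℕ) : (Nat.land v 192 / 64) * 64 = Nat.land v 192 := by
  have h : (v &&& 192) % 2 ^ 6 = 0 := by rw [Nat.and_mod_two_pow]; simp
  have h2 : Nat.land v 192 % 64 = 0 := h
  omega

theorem hj45_sound {thr F ST : ℕ} {cs : CS} {k : ℕ → ℕ → ℕ → Option CS} {p y e g np W' : ℕ}
    (hk : hj45 thr F ST cs k p y e (g12 F p) (64 * g) np W' ≠ none) (hthr : thr ≤ W') :
    k (Nat.xor F (Nat.shiftLeft (Nat.xor (g12 F p) (Nat.add e (Nat.add (64 * g) (Nat.mul 256 np))))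
      (Nat.mul 12 p))) (Nat.xor ST (Nat.shiftLeft (Nat.xor p y) (Nat.mul 6 e))) W' ≠ none := by
  unfold hj45 at hk
  have : Nat.ble (Nat.succ W') thr = false := by
    rw [Bool.eq_false_iff]; intro h; have := Nat.le_of_ble_eq_true h; omega
  rw [this] at hk
  exact hk

theorem hjC_sound {thr x y LF F ST W : ℕ} {cs : CS} {k : ℕ → ℕ → ℕ → Option CS}
    (hC : Cfg K t c) (hthr : thr = 12 * K + 4) (hk : hjC thr x y LF F ST W cs k ≠ none)
    (M : Md K t c As Ae LF F ST W) (hx : Ae x) (hl : ¬Lf c x) (hm : mt c x = y) :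
    ∃ F' ST' W', k F' ST' W' ≠ none ∧
      Md K t c (fun s => As s ∧ s ≠ y) (fun e => Ae e ∧ e ≠ x) LF F' ST' W' := by
  subst hm
  obtain ⟨Hd, h, hW⟩ := M
  obtain ⟨hx1, hp, ep⟩ := h.s2 x hx
  obtain ⟨hc1, hc2, hc3, hc4, hc5⟩ := clo_eq hC hx1 hl
  have hy := (h.aa x hx1 hl).1 hx
  have hK := hC.K3
  have q1 := sm_del (K := K) (pv := pvF F) hc2 hy
  unfold hjC hj1 at hk
  by_cases he : g6 ST x = mt c x
  · obtain ⟨h4, h5⟩ := iv_close hC h hx hl he
    refine ⟨F, ST, W, ?_, _, h5, ?_⟩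
    · rw [he, Nat.beq_refl] at hk
      exact hk
    · rw [List.length_cons]
      omega
  · have hb : Nat.beq (g6 ST x) (mt c x) = false := by
      rw [Bool.eq_false_iff]; intro h; exact he (Nat.eq_of_beq_eq_true h)
    rw [hb] at hk
    have h5 := iv_join hC h hx hl he
    have hpl := (h.s1 _ hp).1
    obtain ⟨-, y2, y3⟩ := h.s1 _ hy
    have hel := (h.s2 _ y2).1
    have q2 := sm_upd (K := K) (As := fun s => As s ∧ s ≠ mt c x) (pv := pvF F) (p := g6 ST x)
      (v := ptv (LF.testBit (g6 ST x)) (LF.testBit (enF F (mt c x)))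
        (if glF F (g6 ST x) = 1 ∧ glF F (mt c x) = 1 then 2 else 3) (g6 ST x) (enF F (mt c x)))
      hpl ⟨hp, he⟩
    have q3 := ptv_mono hC h hx hl
    have q4 := iv_thr hC h5
    have hbe : Nat.beq (Nat.add (Nat.land (g12 F (g6 ST x)) 192) (Nat.land (g12 F (mt c x)) 192))
        128 = decide (glF F (g6 ST x) = 1 ∧ glF F (mt c x) = 1) := by
      have e1 := gl_sum (g12 F (g6 ST x))
      have e2 := gl_sum (g12 F (mt c x))
      have g1 := (h.pt _ hp).gg
      have g2 := (h.pt _ hy).gg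
      show (Nat.beq (Nat.land (g12 F (g6 ST x)) 192 + Nat.land (g12 F (mt c x)) 192) 128) = _
      rw [← e1, ← e2]
      show (Nat.beq (glF F (g6 ST x) * 64 + glF F (mt c x) * 64) 128) = _
      rcases g1 with g1 | g1 | g1 <;> rcases g2 with g2 | g2 | g2 <;> rw [g1, g2] <;> rfl
    have main : ∀ (g np : ℕ), g = (if glF F (g6 ST x) = 1 ∧ glF F (mt c x) = 1 then 2 else 3) →
        np = ptv (LF.testBit (g6 ST x)) (LF.testBit (enF F (mt c x))) g (g6 ST x)
          (enF F (mt c x)) →
        hj4 thr F ST W cs k (g6 ST x) (mt c x) (Nat.land (g12 F (mt c x)) 63) (g12 F (g6 ST x))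
          (g12 F (mt c x)) (64 * g) np ≠ none →
        ∃ F' ST' W', k F' ST' W' ≠ none ∧
          Md K t c (fun s => As s ∧ s ≠ mt c x) (fun e => Ae e ∧ e ≠ x) LF F' ST' W' := by
      intro g np hg hnp hk
      have hg' : g = 2 ∨ g = 3 := by rw [hg]; split_ifs <;> simp
      rw [← hg] at h5 q2 q3 q4
      rw [← hnp] at h5 q2 q3 q4
      have h6 : Md K t c (fun s => As s ∧ s ≠ mt c x) (fun e => Ae e ∧ e ≠ x) LF
          (Nat.xor F (Nat.shiftLeft (Nat.xor (g12 F (g6 ST x)) (Nat.add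
            (Nat.land (g12 F (mt c x)) 63) (Nat.add (64 * g) (Nat.mul 256 np))))
            (Nat.mul 12 (g6 ST x))))
          (Nat.xor ST (Nat.shiftLeft (Nat.xor (g6 ST x) (mt c x))
            (Nat.mul 6 (Nat.land (g12 F (mt c x)) 63))))
          (Nat.sub (Nat.sub (Nat.add W np) (Nat.shiftRight (g12 F (g6 ST x)) 8))
            (Nat.shiftRight (g12 F (mt c x)) 8)) := by
        have hnp5 : np < 5 := by rw [hnp]; exact ptv_lt
        obtain ⟨u1, u2, u3⟩ := up_F F (g6 ST x) (enF F (mt c x)) g np (by omega) hg' hnp5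
        have u4 := up_ST ST (g6 ST x) (mt c x) (enF F (mt c x)) (by omega) (by omega) y3
        refine ⟨Hd, ?_, ?_⟩
        · have e1 : Nat.land (g12 F (mt c x)) 63 = enF F (mt c x) := rfl
          rw [e1, u1, u2, u3, u4]
          exact h5
        · have e1 : Nat.land (g12 F (mt c x)) 63 = enF F (mt c x) := rfl
          rw [e1, u3]
          have e2 : Nat.shiftRight (g12 F (g6 ST x)) 8 = pvF F (g6 ST x) := rfl
          have e3 : Nat.shiftRight (g12 F (mt c x)) 8 = pvF F (mt c x) := rfl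
          rw [e2, e3]
          show _ ≤ W + np - pvF F (g6 ST x) - pvF F (mt c x)
          omega
      refine ⟨_, _, _, hj45_sound hk ?_, h6⟩
      rw [hthr]; exact h6.thr hC
    unfold hj2 hj3 at hk
    dsimp only at hk
    rw [hbe] at hk
    have hl1 : g6 ST x < 36 := by omega
    have hl2 : enF F (mt c x) < 36 := by omega
    by_cases hgl : glF F (g6 ST x) = 1 ∧ glF F (mt c x) = 1
    · rw [decide_eq_true hgl] at hk
      exact main 2 (pt LF (g6 ST x) (enF F (mt c x)) PT2) (by rw [if_pos hgl])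
        (pt_two hl1 hl2) hk
    · rw [decide_eq_false hgl] at hk
      exact main 3 (pt LF (g6 ST x) (enF F (mt c x)) PT3) (by rw [if_neg hgl])
        (pt_three hl1 hl2) hk

/-! ### corners on the boundary -/

theorem ptv_anti {a b a' b' : Bool} {g s e : ℕ} (ha : a' = true → a = true)
    (hb : b' = true → b = true) : ptv a b g s e ≤ ptv a' b' g s e := by
  unfold ptv
  cases a <;> cases b <;> cases a' <;> cases b' <;> simp at ha hb ⊢ <;> split_ifs <;> omega

theorem lf_fld (v np : ℕ) (hv : v < 4096) (hnp : np < 3) :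
    let δ := Nat.shiftLeft (Nat.xor (Nat.shiftRight v 8) np) 8
    δ < 4096 ∧ Nat.land (v ^^^ δ) 63 = Nat.land v 63 ∧ Nat.land (v ^^^ δ) 192 = Nat.land v 192 ∧
      Nat.shiftRight (v ^^^ δ) 8 = np := by
  intro δ
  have h1 : v >>> 8 < 2 ^ 4 := by rw [Nat.shiftRight_eq_div_pow]; omega
  have hδ : δ = ((v >>> 8) ^^^ np) <<< 8 := rfl
  have h2 : (v >>> 8) ^^^ np < 2 ^ 4 := Nat.xor_lt_two_pow h1 (by omega)
  refine ⟨?_, ?_, ?_, ?_⟩
  · rw [hδ, Nat.shiftLeft_eq]; omega
  · show (v ^^^ δ) &&& 63 = v &&& 63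
    rw [hδ]
    apply Nat.eq_of_testBit_eq
    intro i
    simp only [Nat.testBit_and, Nat.testBit_xor, Nat.testBit_shiftLeft]
    by_cases hi : i < 6
    · have : ¬i ≥ 8 := by omega
      simp [this]
    · have : (63 : ℕ).testBit i = false := by
        rw [show (63 : ℕ) = 2 ^ 6 - 1 from rfl, Nat.testBit_two_pow_sub_one]; simp; omega
      simp [this]
  · show (v ^^^ δ) &&& 192 = v &&& 192
    rw [hδ]
    apply Nat.eq_of_testBit_eq
    intro i
    simp only [Nat.testBit_and, Nat.testBit_xor, Nat.testBit_shiftLeft]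
    by_cases hi : i < 8
    · have : ¬i ≥ 8 := by omega
      simp [this]
    · have : (192 : ℕ).testBit i = false := by
        rw [Nat.testBit_lt_two_pow]
        calc 192 < 2 ^ 8 := by norm_num
          _ ≤ 2 ^ i := Nat.pow_le_pow_right (by norm_num) (by omega)
      simp [this]
  · show (v ^^^ δ) >>> 8 = np
    rw [hδ]
    apply Nat.eq_of_testBit_eq
    intro i
    simp only [Nat.testBit_shiftRight, Nat.testBit_xor, Nat.testBit_shiftLeft]
    have : 8 + i ≥ 8 := by omega
    simp only [this, decide_true, Bool.true_and, Nat.add_sub_cancel_left]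
    cases v.testBit (8 + i) <;> cases np.testBit i <;> rfl

theorem up_L (F p np : ℕ) (hnp : np < 3) :
    let F' := Nat.xor F (Nat.shiftLeft (Nat.xor (Nat.shiftRight (g12 F p) 8) np)
      (Nat.add (Nat.mul 12 p) 8))
    enF F' = enF F ∧ (∀ x, Nat.land (g12 F' x) 192 = Nat.land (g12 F x) 192) ∧
      pvF F' = Function.update (pvF F) p np := by
  intro F'
  obtain ⟨h1, h2, h3, h4⟩ := lf_fld (g12 F p) np (g12_lt F p) hnp
  have hF : F' = Nat.xor F (Nat.shiftLeft (Nat.shiftLeft (Nat.xor (Nat.shiftRight (g12 F p) 8) np) 8)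
      (Nat.mul 12 p)) := by
    show F ^^^ (((g12 F p) >>> 8 ^^^ np) <<< (12 * p + 8)) =
      F ^^^ ((((g12 F p) >>> 8 ^^^ np) <<< 8) <<< (12 * p))
    rw [← Nat.shiftLeft_add, Nat.add_comm]
  have key : ∀ x, g12 F' x = if x = p then (g12 F p) ^^^
      (Nat.shiftLeft (Nat.xor (Nat.shiftRight (g12 F p) 8) np) 8) else g12 F x := by
    intro x
    rw [hF, g12_xor F _ p x h1]
  refine ⟨?_, ?_, ?_⟩
  · funext x
    by_cases hx : x = p
    · subst hx; unfold enF; rw [key, if_pos rfl]; exact h2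
    · unfold enF; rw [key, if_neg hx]
  · intro x
    by_cases hx : x = p
    · subst hx; rw [key, if_pos rfl]; exact h3
    · rw [key, if_neg hx]
  · funext x
    by_cases hx : x = p
    · subst hx; rw [Function.update_self]; unfold pvF; rw [key, if_pos rfl]; exact h4
    · rw [Function.update_of_ne hx]; unfold pvF; rw [key, if_neg hx]

theorem lf_bit (LF x : ℕ) : (fun d => (Nat.lor LF (Nat.shiftLeft 1 x)).testBit d) =
    Function.update (fun d => LF.testBit d) x true := by
  funext d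
  show (LF ||| (1 <<< x)).testBit d = _
  rw [Nat.testBit_or, Nat.testBit_shiftLeft]
  by_cases h : d = x
  · subst h; rw [Function.update_self]; simp
  · rw [Function.update_of_ne h]
    have : (decide (d ≥ x) && (1 : ℕ).testBit (d - x)) = false := by
      by_cases h2 : d ≥ x
      · have : (1 : ℕ).testBit (d - x) = false := by
          rw [Nat.testBit_lt_two_pow]
          calc 1 < 2 ^ 1 := by norm_num
            _ ≤ 2 ^ (d - x) := Nat.pow_le_pow_right (by norm_num) (by omega)
        simp [this]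
      · simp [h2]
    rw [this, Bool.or_false]

/-- the value of a path with one end on the boundary -/
def lv (LF e v : ℕ) : ℕ :=
  Bool.rec 2 (Nat.sub 1 (Nat.land (Nat.shiftRight LF e) 1)) (Nat.beq (Nat.land v 192) 64)

theorem lv_eq (LF e v : ℕ) : lv LF e v = if Nat.land v 192 / 64 = 1 then
    (if LF.testBit e then 0 else 1) else 2 := by
  unfold lv
  rw [bit_land]
  have h := gl_sum v
  by_cases h1 : Nat.land v 192 / 64 = 1
  · have h2 : Nat.land v 192 = 64 := by omega
    rw [if_pos h1, h2]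
    cases LF.testBit e <;> rfl
  · have h2 : Nat.beq (Nat.land v 192) 64 = false := by
      rw [Bool.eq_false_iff]; intro h3
      have := Nat.eq_of_beq_eq_true h3
      rw [this] at h1
      exact h1 rfl
    rw [if_neg h1, h2]

theorem lv_ptv (LF e v s : ℕ) : lv LF e v = ptv true (LF.testBit e) (Nat.land v 192 / 64) s e := by
  rw [lv_eq]
  unfold ptv
  cases LF.testBit e <;> simp

theorem lv_ptv' (LF e v s : ℕ) : lv LF s v = ptv (LF.testBit s) true (Nat.land v 192 / 64) s e := by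
  rw [lv_eq]
  unfold ptv
  cases LF.testBit s <;> simp

theorem lv_lt (LF e v : ℕ) : lv LF e v < 3 := by
  rw [lv_eq]; split_ifs <;> omega

theorem lfC_sound {thr x LF LF' F ST W : ℕ} {cs : CS} {k : ℕ → ℕ → Option CS}
    (hC : Cfg K t c) (hthr : thr = 12 * K + 4) (hk : lfC thr x LF' F ST W cs k ≠ none)
    (hLF : LF' = Nat.lor LF (Nat.shiftLeft 1 x))
    (M : Md K t c As Ae LF F ST W) (hx : x < 12 * K) (hl : Lf c x) :
    ∃ F' W', k F' W' ≠ none ∧ Md K t c As Ae LF' F' ST W' := by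
  obtain ⟨Hd, h, hW⟩ := M
  have hb := lf_bit LF x
  rw [← hLF] at hb
  have h5 := iv_leaf hC h hx hl
  rw [← hb] at h5
  have hbx : LF'.testBit x = true := by
    have := congrFun hb x
    rw [Function.update_self] at this
    exact this
  obtain ⟨a1, a2⟩ := h.la x hx hl
  obtain ⟨-, hp, ep⟩ := h.s2 x a1
  have hpl := (h.s1 _ hp).1
  -- first step
  obtain ⟨u1, u2, u3⟩ := up_L F x (lv LF' (enF F x) (g12 F x)) (lv_lt _ _ _)
  set F₁ := Nat.xor F (Nat.shiftLeft (Nat.xor (Nat.shiftRight (g12 F x) 8)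
    (lv LF' (enF F x) (g12 F x))) (Nat.add (Nat.mul 12 x) 8)) with hF₁
  obtain ⟨w1, w2, w3⟩ := up_L F₁ (g6 ST x) (lv LF' (g6 ST x) (g12 F₁ (g6 ST x))) (lv_lt _ _ _)
  set F₂ := Nat.xor F₁ (Nat.shiftLeft (Nat.xor (Nat.shiftRight (g12 F₁ (g6 ST x)) 8)
    (lv LF' (g6 ST x) (g12 F₁ (g6 ST x)))) (Nat.add (Nat.mul 12 (g6 ST x)) 8)) with hF₂
  have e1 : enF F₂ = enF F := by rw [w1, u1]
  have e2 : glF F₂ = glF F := by
    funext z; unfold glF; rw [w2, u2]
  have v1 : lv LF' (enF F x) (g12 F x) =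
      ptv true (LF'.testBit (enF F x)) (glF F x) x (enF F x) := lv_ptv _ _ _ _
  have v2 : lv LF' (g6 ST x) (g12 F₁ (g6 ST x)) =
      ptv (LF'.testBit (g6 ST x)) true (glF F (g6 ST x)) (g6 ST x) x := by
    rw [lv_ptv' LF' x _ (g6 ST x), u2]; rfl
  have e3 : pvF F₂ = Function.update (Function.update (pvF F) x
      (ptv true (LF'.testBit (enF F x)) (glF F x) x (enF F x))) (g6 ST x)
      (ptv (LF'.testBit (g6 ST x)) true (glF F (g6 ST x)) (g6 ST x) x) := by
    rw [w3, u3, v1, v2]
  have s1 := sm_upd (K := K) (As := As) (pv := pvF F) (p := x)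
    (v := ptv true (LF'.testBit (enF F x)) (glF F x) x (enF F x)) hx a2
  have s2 := sm_upd (K := K) (As := As) (pv := Function.update (pvF F) x
      (ptv true (LF'.testBit (enF F x)) (glF F x) x (enF F x))) (p := g6 ST x)
    (v := ptv (LF'.testBit (g6 ST x)) true (glF F (g6 ST x)) (g6 ST x) x) hpl hp
  have hmono : ptv (LF'.testBit (g6 ST x)) true (glF F (g6 ST x)) (g6 ST x) x ≤
      Function.update (pvF F) x (ptv true (LF'.testBit (enF F x)) (glF F x) x (enF F x))
        (g6 ST x) := by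
    by_cases hpx : g6 ST x = x
    · rw [hpx, Function.update_self]
      rw [hpx] at ep
      rw [ep, hbx]
    · rw [Function.update_of_ne hpx]
      have := h.pvv _ hp
      rw [ep] at this
      rw [this]
      refine ptv_anti (fun h7 => ?_) fun _ => rfl
      have := congrFun hb (g6 ST x)
      rw [Function.update_of_ne hpx] at this
      rw [this]; exact h7
  have hMd : Md K t c As Ae LF' F₂ ST (4 * Hd.length + sm K As (pvF F₂)) := by
    refine ⟨Hd, ?_, le_rfl⟩
    rw [e1, e2, e3]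
    exact h5
  have q4 := hMd.thr hC
  rw [e3] at q4
  have hthr1 : thr ≤ Nat.sub (Nat.add W (lv LF' (enF F x) (g12 F x))) (Nat.shiftRight (g12 F x) 8) := by
    show thr ≤ W + lv LF' (enF F x) (g12 F x) - pvF F x
    rw [v1]; omega
  have hW2 : 4 * Hd.length + sm K As (pvF F₂) ≤ Nat.sub (Nat.add (Nat.sub (Nat.add W
      (lv LF' (enF F x) (g12 F x))) (Nat.shiftRight (g12 F x) 8))
      (lv LF' (g6 ST x) (g12 F₁ (g6 ST x)))) (Nat.shiftRight (g12 F₁ (g6 ST x)) 8) := by
    show _ ≤ W + lv LF' (enF F x) (g12 F x) - pvF F x + lv LF' (g6 ST x) (g12 F₁ (g6 ST x)) -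
      pvF F₁ (g6 ST x)
    rw [v1, v2, e3, u3, v1]; omega
  unfold lfC lf1 fr at hk
  have hb1 : Nat.ble (Nat.succ (Nat.sub (Nat.add W (lv LF' (enF F x) (g12 F x)))
      (Nat.shiftRight (g12 F x) 8))) thr = false := by
    rw [Bool.eq_false_iff]; intro h; have := Nat.le_of_ble_eq_true h; omega
  have hk1 : lf2 thr x LF' ST cs k F₁ (Nat.sub (Nat.add W (lv LF' (enF F x) (g12 F x)))
      (Nat.shiftRight (g12 F x) 8)) ≠ none := by
    change (Bool.rec (lf2 thr x LF' ST cs k F₁ (Nat.sub (Nat.add W (lv LF' (enF F x) (g12 F x)))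
      (Nat.shiftRight (g12 F x) 8))) (some cs) (Nat.ble (Nat.succ (Nat.sub (Nat.add W
      (lv LF' (enF F x) (g12 F x))) (Nat.shiftRight (g12 F x) 8))) thr) : Option CS) ≠ none at hk
    rw [hb1] at hk
    exact hk
  unfold lf2 lf3 fr at hk1
  refine ⟨F₂, _, ?_, ⟨Hd, ?_, hW2⟩⟩
  · have hb2 : Nat.ble (Nat.succ (Nat.sub (Nat.add (Nat.sub (Nat.add W
        (lv LF' (enF F x) (g12 F x))) (Nat.shiftRight (g12 F x) 8))
        (lv LF' (g6 ST x) (g12 F₁ (g6 ST x)))) (Nat.shiftRight (g12 F₁ (g6 ST x)) 8))) thr =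
        false := by
      rw [Bool.eq_false_iff]; intro h; have := Nat.le_of_ble_eq_true h
      rw [e3] at hW2
      omega
    change (Bool.rec (k F₂ _) (some cs) (Nat.ble (Nat.succ (Nat.sub (Nat.add (Nat.sub (Nat.add W
        (lv LF' (enF F x) (g12 F x))) (Nat.shiftRight (g12 F x) 8))
        (lv LF' (g6 ST x) (g12 F₁ (g6 ST x)))) (Nat.shiftRight (g12 F₁ (g6 ST x)) 8))) thr) :
        Option CS) ≠ none at hk1
    rw [hb2] at hk1
    exact hk1
  · rw [e1, e2, e3]
    exact h5

/-! ### nodes of the search -/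

theorem fld_or (w F δ p x : ℕ) (hδ : δ < 2 ^ w) :
    ((F ||| (δ <<< (w * p))) >>> (w * x)) &&& (2 ^ w - 1) =
      if x = p then ((F >>> (w * p)) &&& (2 ^ w - 1)) ||| δ
      else ((F >>> (w * x)) &&& (2 ^ w - 1)) := by
  apply Nat.eq_of_testBit_eq
  intro i
  by_cases hi : i < w
  · by_cases hx : x = p
    · subst hx
      simp [Nat.testBit_and, Nat.testBit_two_pow_sub_one, Nat.testBit_shiftRight,
        Nat.testBit_or, Nat.testBit_shiftLeft, hi]
    · rw [if_neg hx]
      simp only [Nat.testBit_and, Nat.testBit_two_pow_sub_one, Nat.testBit_shiftRight,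
        Nat.testBit_or, Nat.testBit_shiftLeft, hi, decide_true, Bool.and_true]
      rcases Nat.lt_or_gt_of_ne hx with h | h
      · have h1 : w * (x + 1) ≤ w * p := Nat.mul_le_mul_left w h
        rw [Nat.mul_add] at h1
        have h2 : ¬(w * x + i ≥ w * p) := by omega
        simp [h2]
      · have h1 : w * (p + 1) ≤ w * x := Nat.mul_le_mul_left w h
        rw [Nat.mul_add] at h1
        have h3 : δ < 2 ^ (w * x + i - w * p) :=
          lt_of_lt_of_le hδ (Nat.pow_le_pow_right (by norm_num) (by omega))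
        rw [Nat.testBit_lt_two_pow h3]
        simp
  · have h1 : ∀ z, (z &&& (2 ^ w - 1)).testBit i = false := by
      intro z; simp [Nat.testBit_and, Nat.testBit_two_pow_sub_one, hi]
    rw [h1]
    split
    · rw [Nat.testBit_or, h1]
      have : δ < 2 ^ i := lt_of_lt_of_le hδ (Nat.pow_le_pow_right (by norm_num) (by omega))
      rw [Nat.testBit_lt_two_pow this]; rfl
    · rw [h1]

theorem g6_or (F δ p x : ℕ) (hδ : δ < 64) :
    g6 (Nat.lor F (Nat.shiftLeft δ (Nat.mul 6 p))) x =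
      if x = p then (g6 F p) ||| δ else g6 F x :=
  fld_or 6 F δ p x hδ

theorem one_bit (h x : ℕ) : (Nat.shiftLeft 1 h).testBit x = decide (x = h) := by
  show (1 <<< h).testBit x = _
  rw [Nat.testBit_shiftLeft]
  by_cases e : x = h
  · subst e; simp
  · by_cases h2 : x ≥ h
    · have : (1 : ℕ).testBit (x - h) = false := by
        rw [Nat.testBit_lt_two_pow]
        calc 1 < 2 ^ 1 := by norm_num
          _ ≤ 2 ^ (x - h) := Nat.pow_le_pow_right (by norm_num) (by omega)
      simp [this, e]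
    · simp [h2, e]

theorem xor_bit {UD h : ℕ} (hh : UD.testBit h = true) (x : ℕ) :
    (Nat.xor UD (Nat.shiftLeft 1 h)).testBit x = (UD.testBit x && decide (x ≠ h)) := by
  show (UD ^^^ Nat.shiftLeft 1 h).testBit x = _
  rw [Nat.testBit_xor, one_bit]
  by_cases e : x = h
  · subst e; simp [hh]
  · simp [e]

theorem alm_fact : ∀ h < 18, ∀ g < 18, al h g = true →
    (Nat.land (Nat.shiftRight ALM (Nat.mul 32 h)) 262143).testBit g = true := by decide +kernel

theorem rct_fact : ∀ t < 4, ∀ h < 18, ∀ g < 18,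
    Nat.land (Nat.shiftRight (RCT t) (Nat.mul 4 (Nat.add (Nat.mul 32 h) g))) 15 = 0 ∨
    (Nat.land (Nat.shiftRight (RCT t) (Nat.mul 4 (Nat.add (Nat.mul 32 h) g))) 15 =
      3 * (h / 6 + g / 6 - 1) + ty h + 1 ∧ ty h = ty g ∧
      decide (h / 6 < t) ≠ decide (g / 6 < t)) := by decide +kernel

theorem fbt_fact : ∀ k < 9, ∀ j < 9,
    (Nat.land (Nat.shiftRight FBT (Nat.mul 9 k)) 511).testBit j = true → j / 3 = k / 3 ∧ j ≠ k := by
  decide +kernel

theorem lpC_sound {f : ℕ → CS → Option CS} (n : ℕ) : ∀ (mask : ℕ) (cs : CS) (g : ℕ),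
    lpC f n mask cs ≠ none → mask.testBit g = true → ∃ cs', f g cs' ≠ none := by
  induction n with
  | zero => intro mask cs g h; exact absurd rfl h
  | succ n ih =>
    intro mask cs g h hg
    have hm : Nat.beq mask 0 = false := by
      rw [Bool.eq_false_iff]; intro h0
      rw [Nat.eq_of_beq_eq_true h0] at hg
      simp at hg
    have hm0 : mask ≠ 0 := by
      intro h0; rw [h0] at hg; simp at hg
    change (Bool.rec (Option.rec none (fun cs' => lpC f n (Nat.xor mask
      (Nat.shiftLeft 1 (Nat.log2 mask))) cs') (f (Nat.log2 mask) cs)) (some cs)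
      (Nat.beq mask 0) : Option CS) ≠ none at h
    rw [hm] at h
    change (Option.rec none (fun cs' => lpC f n (Nat.xor mask
      (Nat.shiftLeft 1 (Nat.log2 mask))) cs') (f (Nat.log2 mask) cs) : Option CS) ≠ none at h
    cases hf : f (Nat.log2 mask) cs with
    | none => rw [hf] at h; exact absurd rfl h
    | some cs' =>
      rw [hf] at h
      by_cases e : g = Nat.log2 mask
      · exact ⟨cs, by rw [e, hf]; simp⟩
      · refine ih _ cs' g h ?_
        have hb : mask.testBit (Nat.log2 mask) = true := Nat.testBit_log2 hm0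
        rw [xor_bit hb]
        simp [hg, e]

/-- the active corners -/
def ac (K : ℕ) (c : ℕ → ℕ) (UD : ℕ) (s : ℕ) : Prop :=
  s < 12 * K ∧ (UD.testBit (s / 2) = true ∨ Lf c s)

/-- the numbers describe a part of the configuration -/
structure Rl (K t : ℕ) (c : ℕ → ℕ) (UD LF CM RC F ST W : ℕ) : Prop where
  ud : ∀ h, UD.testBit h = true → h < 6 * K
  dec : ∀ h < 6 * K, UD.testBit h = false → c h < 6 * K → UD.testBit (c h) = false
  cm : ∀ h < 6 * K, UD.testBit h = false → g6 CM h = c h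
  cmu : ∀ h, UD.testBit h = true → g6 CM h = 0
  rc : ∀ k, RC.testBit k = true → ∃ h < 6 * K, c h < 6 * K ∧ h / 6 + c h / 6 = k / 3 + 1 ∧
    ty h = k % 3 ∧ ty (c h) = k % 3 ∧ decide (h / 6 < t) ≠ decide (c h / 6 < t)
  md : Md K t c (ac K c UD) (ac K c UD) LF F ST W

/-- refutation of a continuation -/
def Ih (K t : ℕ) (c : ℕ → ℕ) (ih : Kt) : Prop := ∀ UD LF CM RC F ST W cs,
  ih UD LF CM RC F ST W cs ≠ none → Rl K t c UD LF CM RC F ST W → False

end Pool.Agent.V11206.CF
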