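import Pool.Agent.V11206.Conf

/-! The search for configurations. -/

set_option autoImplicit false

namespace Pool.Agent.V11206.CF

set_option linter.unusedVariables false

/-- the certificate: a number and the rest -/
abbrev CS := ℕ × List ℕ

/-- values of the paths of two corners -/
def PT2 : ℕ := 0x1111191919191919190000000000000044444644464644464600000000000000111191919191919191000000000000004444644464644464640000000000000011211119191919191900000000000000448444464646464646000000000000001112119191919191910000000000000044484464646464646400000000000000191111191911191911000000000000004644444646464646460000000000000091111191911191911100000000000000644444646464646464000000000000001919191111191919190000000000000044464644444644464600000000000000919191111191919191000000000000004464644444644464640000000000000019191911211119191900000000000000464646448444464646000000000000009191911112119191910000000000000064646444484464646400000000000000191911191111191911000000000000004646464644444646460000000000000091911191111191911100000000000000646464644444646464000000000000001919191919191111190000000000000044464644464644444600000000000000919191919191111191000000000000004464644464644444640000000000000019191919191911211100000000000000464646464646448444000000000000009191919191911112110000000000000064646464646444484400000000000000191911191911191111000000000000004646464646464644440000000000000091911191911191111100000000000000646464646464644444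
/-- values of the longer paths -/
def PT3 : ℕ := 0x1111191919191919190000000000000044444646464646464600000000000000111191919191919191000000000000004444646464646464640000000000000011211119191919191900000000000000448444464646464646000000000000001112119191919191910000000000000044484464646464646400000000000000191111191919191919000000000000004644444646464646460000000000000091111191919191919100000000000000644444646464646464000000000000001919191111191919190000000000000046464644444646464600000000000000919191111191919191000000000000006464644444646464640000000000000019191911211119191900000000000000464646448444464646000000000000009191911112119191910000000000000064646444484464646400000000000000191919191111191919000000000000004646464644444646460000000000000091919191111191919100000000000000646464644444646464000000000000001919191919191111190000000000000046464646464644444600000000000000919191919191111191000000000000006464646464644444640000000000000019191919191911211100000000000000464646464646448444000000000000009191919191911112110000000000000064646464646444484400000000000000191919191919191111000000000000004646464646464644440000000000000091919191919191111100000000000000646464646464644444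
/-- which names may be joined -/
def ALM : ℕ := 0x155500002aaa0000055500000aaa0001055500020aaa000150550002a0aa000150150002a02a000154150002a82a000155410002aa82000155400002aa80000155500002aaa0
/-- joins of opposite triple points -/
def RCT (t : ℕ) : ℕ := [0x0, 0x6600000000000000000000000000000066000000000000000000000000000000005500000000000000000000000000000055000000000000000000000000000000004400000000000000000000000000000044000000000000000000000000003300000000000000000000000000000033000000000000000000000000000000002200000000000000000000000000000022000000000000000000000000000000001100000000000000000000000000000011000000000000006600003300000000000000000000000066000033000000000000000000000000005500002200000000000000000000000055000022000000000000000000000000004400001100000000000000000000000044000011000000, 0x9900006600000000000000000000000099000066000000000000000000000000008800005500000000000000000000000088000055000000000000000000000000007700004400000000000000000000000077000044000000000000009900000000000000000000000000000099000000000000000000000000000000008800000000000000000000000000000088000000000000000000000000000000007700000000000000000000000000000077000000000000000000000000006600000000000000000000000000000066000000000000000000000000000000005500000000000000000000000000000055000000000000000000000000000000004400000000000000000000000000000044000000000000,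 0x0].getD t 0
/-- the conflicting joins -/
def FBT : ℕ := 0xc0a060030281800c0a06

noncomputable section

def fr {β : Type} (n : ℕ) (k : ℕ → β) : β := k n

def g6 (S x : ℕ) : ℕ := Nat.land (Nat.shiftRight S (Nat.mul 6 x)) 63
def g12 (S x : ℕ) : ℕ := Nat.land (Nat.shiftRight S (Nat.mul 12 x)) 4095

def hj5 (F ST p y e v1 c np : ℕ) (k : ℕ → ℕ → ℕ → Option CS) (W : ℕ) : Option CS :=
  k (Nat.xor F (Nat.shiftLeft (Nat.xor v1 (Nat.add e (Nat.add c (Nat.mul 256 np)))) (Nat.mul 12 p)))
  (Nat.xor ST (Nat.shiftLeft (Nat.xor p y) (Nat.mul 6 e))) W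

def hj45 (thr F ST : ℕ) (cs : CS) (k : ℕ → ℕ → ℕ → Option CS) (p y e v1 c np W' : ℕ) : Option CS :=
  Bool.rec (hj5 F ST p y e v1 c np k W') (some cs) (Nat.ble (Nat.succ W') thr)

def hj4 (thr F ST W : ℕ) (cs : CS) (k : ℕ → ℕ → ℕ → Option CS) (p y e v1 v2 c np : ℕ) : Option CS :=
  hj45 thr F ST cs k p y e v1 c np
    (Nat.sub (Nat.sub (Nat.add W np) (Nat.shiftRight v1 8)) (Nat.shiftRight v2 8))

def pt (LF p e T : ℕ) : ℕ :=
  Bool.rec 2 (Nat.add 2 (Nat.land (Nat.shiftRight T (Nat.mul 2 (Nat.add (Nat.mul 64 p) e))) 3))
    (Nat.beq (Nat.land (Nat.lor (Nat.shiftRight LF p) (Nat.shiftRight LF e)) 1) 0)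

def hj3 (thr LF F ST W : ℕ) (cs : CS) (k : ℕ → ℕ → ℕ → Option CS) (p y v1 v2 e : ℕ) : Option CS :=
  Bool.rec (hj4 thr F ST W cs k p y e v1 v2 192 (pt LF p e PT3))
    (hj4 thr F ST W cs k p y e v1 v2 128 (pt LF p e PT2))
    (Nat.beq (Nat.add (Nat.land v1 192) (Nat.land v2 192)) 128)

def hj2 (thr LF F ST W : ℕ) (cs : CS) (k : ℕ → ℕ → ℕ → Option CS) (p y v1 v2 : ℕ) : Option CS :=
  hj3 thr LF F ST W cs k p y v1 v2 (Nat.land v2 63)

def hj1 (thr LF F ST W : ℕ) (cs : CS) (k : ℕ → ℕ → ℕ → Option CS) (y p : ℕ) : Option CS :=
  Bool.rec (hj2 thr LF F ST W cs k p y (g12 F p) (g12 F y)) (k F ST W) (Nat.beq p y)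

/-- join the end `x` with the start `y` -/
def hjC (thr x y LF F ST W : ℕ) (cs : CS) (k : ℕ → ℕ → ℕ → Option CS) : Option CS :=
  hj1 thr LF F ST W cs k y (g6 ST x)

def lf3 (thr LF F p W' : ℕ) (cs : CS) (k : ℕ → ℕ → Option CS) (v' np' : ℕ) : Option CS :=
  fr (Nat.sub (Nat.add W' np') (Nat.shiftRight v' 8)) fun W'' =>
  Bool.rec (fr (Nat.xor F (Nat.shiftLeft (Nat.xor (Nat.shiftRight v' 8) np')
    (Nat.add (Nat.mul 12 p) 8))) fun F'' => k F'' W'') (some cs) (Nat.ble (Nat.succ W'') thr)

def lf2 (thr x LF ST : ℕ) (cs : CS) (k : ℕ → ℕ → Option CS) (F W' : ℕ) : Option CS :=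
  fr (g6 ST x) fun p =>
  fr (g12 F p) fun v' =>
  fr (Bool.rec 2 (Nat.sub 1 (Nat.land (Nat.shiftRight LF p) 1)) (Nat.beq (Nat.land v' 192) 64))
    (lf3 thr LF F p W' cs k v')

def lf1 (thr x LF F ST W : ℕ) (cs : CS) (k : ℕ → ℕ → Option CS) (v np : ℕ) : Option CS :=
  fr (Nat.sub (Nat.add W np) (Nat.shiftRight v 8)) fun W' =>
  Bool.rec (fr (Nat.xor F (Nat.shiftLeft (Nat.xor (Nat.shiftRight v 8) np)
    (Nat.add (Nat.mul 12 x) 8))) fun F' =>
    lf2 thr x LF ST cs k F' W') (some cs) (Nat.ble (Nat.succ W') thr)

/-- the corner `x` is joined with the boundary -/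
def lfC (thr x LF F ST W : ℕ) (cs : CS) (k : ℕ → ℕ → Option CS) : Option CS :=
  fr (g12 F x) fun v =>
  fr (Bool.rec 2 (Nat.sub 1 (Nat.land (Nat.shiftRight LF (Nat.land v 63)) 1))
    (Nat.beq (Nat.land v 192) 64)) (lf1 thr x LF F ST W cs k v)

/-- loop over the members of a set -/
def lpC (f : ℕ → CS → Option CS) (n : ℕ) : ℕ → CS → Option CS :=
  Nat.rec (fun _ _ => none) (fun _ ih mask cs =>
    Bool.rec
      (fr (Nat.log2 mask) fun g =>
        Option.rec none (fun cs' => fr (Nat.xor mask (Nat.shiftLeft 1 g)) fun m' => ih m' cs')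
          (f g cs)) (some cs) (Nat.beq mask 0)) n

/-- read from the certificate -/
def rdC (bits : ℕ) (cs : CS) (k : ℕ → CS → Option CS) : Option CS :=
  Prod.rec (fun a b => Bool.rec
    (fr (Nat.land a (Nat.sub (Nat.shiftLeft 1 bits) 1)) fun v =>
      fr (Nat.shiftRight a bits) fun c' => k v (c', b))
    (List.rec none (fun c rest _ => fr (Nat.land c (Nat.sub (Nat.shiftLeft 1 bits) 1)) fun v =>
      k v (Nat.shiftRight c bits, rest)) b)
    (Nat.beq a 1)) cs

/-- the word of a corner -/
def wd (d : ℕ) : ℕ := 3 * (d / 12) + [0, 1, 0, 1, 0, 2, 0, 2, 1, 2, 1, 2].getD (d % 12) 0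

/-- a closed set of words without leaves -/
def finC (K thr CM W u : ℕ) : Bool :=
  (List.range (12 * K)).any (fun d => u.testBit (wd d)) && Nat.ble (W + 1) (thr + 8) &&
    (List.range (12 * K)).all (fun d => !(u.testBit (wd d)) ||
      (!(g6 CM (d / 2) == 63) && u.testBit (wd (mt (fun h => g6 CM h) d))))

def mt4 (thr x1 y1 LF : ℕ) (cs : CS) (k : ℕ → ℕ → ℕ → Option CS) (F ST W : ℕ) : Option CS :=
  hjC thr y1 x1 LF F ST W cs k
def mt3 (thr x1 y1 LF : ℕ) (cs : CS) (k : ℕ → ℕ → ℕ → Option CS) (F ST W : ℕ) : Option CS :=
  hjC thr x1 y1 LF F ST W cs (mt4 thr x1 y1 LF cs k)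
def mt2 (thr x0 y0 x1 y1 LF : ℕ) (cs : CS) (k : ℕ → ℕ → ℕ → Option CS) (F ST W : ℕ) : Option CS :=
  hjC thr y0 x0 LF F ST W cs (mt3 thr x1 y1 LF cs k)
def mt1 (thr x0 y0 x1 y1 LF : ℕ) (cs : CS) (k : ℕ → ℕ → ℕ → Option CS) (F ST W : ℕ) : Option CS :=
  hjC thr x0 y0 LF F ST W cs (mt2 thr x0 y0 x1 y1 LF cs k)

/-- the continuation -/
abbrev Kt := (UD LF CM RC F ST W : ℕ) → CS → Option CS

def prt2 (thr x0 x1 h UD' LF CM F ST W : ℕ) (ih : Kt) (g : ℕ) (cs : CS) (RC : ℕ) : Option CS :=
  fr (Nat.xor UD' (Nat.shiftLeft 1 g)) fun UD'' =>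
  fr (Nat.mul 2 g) fun y0 => fr (Nat.succ y0) fun y1 =>
  fr (Nat.lor CM (Nat.lor (Nat.shiftLeft g (Nat.mul 6 h)) (Nat.shiftLeft h (Nat.mul 6 g)))) fun CM' =>
  mt1 thr x0 y0 x1 y1 LF cs (fun F ST W => ih UD'' LF CM' RC F ST W cs) F ST W

def prt1 (thr x0 x1 h UD' LF CM RC F ST W : ℕ) (ih : Kt) (g : ℕ) (cs : CS) (v : ℕ) : Option CS :=
  Bool.rec
    (Bool.rec (some cs)
      (prt2 thr x0 x1 h UD' LF CM F ST W ih g cs (Nat.lor RC (Nat.shiftLeft 1 (Nat.sub v 1))))
      (Nat.beq (Nat.land RC (Nat.land (Nat.shiftRight FBT (Nat.mul 9 (Nat.sub v 1))) 511)) 0))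
    (prt2 thr x0 x1 h UD' LF CM F ST W ih g cs RC) (Nat.beq v 0)

/-- join `h` with `g` -/
def prt (t thr x0 x1 h UD' LF CM RC F ST W : ℕ) (ih : Kt) (g : ℕ) (cs : CS) : Option CS :=
  prt1 thr x0 x1 h UD' LF CM RC F ST W ih g cs
    (Nat.land (Nat.shiftRight (RCT t) (Nat.mul 4 (Nat.add (Nat.mul 32 h) g))) 15)

/-- join `h` with itself -/
def brn (thr x0 x1 h UD' LF CM RC F ST W : ℕ) (ih : Kt) (cs : CS) : Option CS :=
  Bool.rec (some cs) (hjC thr x0 x1 LF F ST W cs fun F ST W => hjC thr x1 x0 LF F ST W cs
    fun F ST W => ih UD' LF (Nat.lor CM (Nat.shiftLeft h (Nat.mul 6 h))) RC F ST W cs)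
    (Nat.beq (Nat.land (Nat.mod h 6) 6) 2)

/-- join `h` with the boundary -/
def lef (thr x0 x1 h UD' LF CM RC F ST W : ℕ) (ih : Kt) (cs : CS) : Option CS :=
  fr (Nat.lor LF (Nat.shiftLeft 1 x0)) fun LF' =>
  lfC thr x0 LF' F ST W cs fun F W => fr (Nat.lor LF' (Nat.shiftLeft 1 x1)) fun LF'' =>
    lfC thr x1 LF'' F ST W cs fun F W =>
    ih UD' LF'' (Nat.lor CM (Nat.shiftLeft 63 (Nat.mul 6 h))) RC F ST W cs

def nod (t thr : ℕ) (ih : Kt) (UD LF CM RC F ST W h : ℕ) (cs : CS) : Option CS :=
  Bool.rec none
    (fr (Nat.xor UD (Nat.shiftLeft 1 h)) fun UD' =>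
      fr (Nat.mul 2 h) fun x0 => fr (Nat.succ x0) fun x1 =>
      Option.rec none (fun cs =>
        Option.rec none (fun cs =>
          lpC (prt t thr x0 x1 h UD' LF CM RC F ST W ih) 18
            (Nat.land (Nat.land (Nat.shiftRight ALM (Nat.mul 32 h)) 262143) UD') cs)
         (brn thr x0 x1 h UD' LF CM RC F ST W ih cs))
        (lef thr x0 x1 h UD' LF CM RC F ST W ih cs))
    (Nat.beq (Nat.land (Nat.shiftRight UD h) 1) 1)

/-- the states which are treated elsewhere -/
abbrev Sta := ℕ × ℕ × ℕ × ℕ × ℕ × ℕ × ℕ

def isSt (UD LF CM RC F ST W : ℕ) (a : Sta) : Bool :=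
  Nat.beq a.1 UD && Nat.beq a.2.1 LF && Nat.beq a.2.2.1 CM && Nat.beq a.2.2.2.1 RC &&
    Nat.beq a.2.2.2.2.1 F && Nat.beq a.2.2.2.2.2.1 ST && Nat.beq a.2.2.2.2.2.2 W

/-- the search -/
def srC (K t thr : ℕ) (A : List Sta) (fuel : ℕ) : Kt :=
  Nat.rec (fun UD LF CM RC F ST W cs =>
      Bool.rec none (some cs) (A.any (isSt UD LF CM RC F ST W)))
    (fun _ ih UD LF CM RC F ST W cs =>
    Bool.rec
      (rdC 5 cs (nod t thr ih UD LF CM RC F ST W))
      (rdC 9 cs fun u cs => Bool.rec none (some cs) (finC K thr CM W u))
      (Nat.beq UD 0)) fuel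

def ok (o : Option CS) : Bool := o.isSome

end

end Pool.Agent.V11206.CF
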