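import Pool.Agent.V11206.Red

/-! Symmetries of the circles of a triple point. -/

set_option autoImplicit false

namespace Pool.Agent.V11206

open Pool.Agent.Y468.SR
open Pool.Agent.Y874.TP hiding InvM InvC CM CReid CStep SMovie Inv3
open Pool.Agent.Y874.TP2

/-- descriptions of the same circles -/
inductive Sy (T : Tri) : Tri → Prop
  | refl : Sy T T
  | swapA {T' : Tri} (h : Sy T T') : Sy T T'.swapA
  | swapB {T' : Tri} (h : Sy T T') : Sy T T'.swapB
  | tij {T' : Tri} (h : Sy T T') : Sy T T'.tij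
  | tjk {T' : Tri} (h : Sy T T') : Sy T T'.tjk

theorem Sy.trans {T T' T'' : Tri} (h : Sy T T') (h' : Sy T' T'') : Sy T T'' := by
  induction h' with
  | refl => exact h
  | swapA _ ih => exact ih.swapA
  | swapB _ ih => exact ih.swapB
  | tij _ ih => exact ih.tij
  | tjk _ ih => exact ih.tjk

theorem Sy.ok {T T' : Tri} (h : Sy T T') : T.Ok → T'.Ok := by
  induction h with
  | refl => exact id
  | swapA _ ih => exact fun k => (Tri.tr_swapA _).ok (ih k)
  | swapB _ ih => exact fun k => (Tri.tr_swapB _).ok (ih k)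
  | tij _ ih => exact fun k => (Tri.tr_tij _).ok (ih k)
  | tjk _ ih => exact fun k => (Tri.tr_tjk _).ok (ih k)

theorem Sy.col {T T' : Tri} (h : Sy T T') : T.Col → T'.Col := by
  induction h with
  | refl => exact id
  | swapA _ ih => exact fun k => (Tri.tr_swapA _).col (ih k)
  | swapB _ ih => exact fun k => (Tri.tr_swapB _).col (ih k)
  | tij _ ih => exact fun k => (Tri.tr_tij _).col (ih k)
  | tjk _ ih => exact fun k => (Tri.tr_tjk _).col (ih k)

theorem Sy.ceq {T T' : Tri} (h : Sy T T') : CEq T.code T'.code := by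
  induction h with
  | refl => exact CEq.refl _
  | swapA _ ih => exact ih.trans (Tri.tr_swapA _).ceq
  | swapB _ ih => exact ih.trans (Tri.tr_swapB _).ceq
  | tij _ ih => exact ih.trans (Tri.tr_tij _).ceq
  | tjk _ ih => exact ih.trans (Tri.tr_tjk _).ceq

/-- exchange of `c₁` and `c₂` -/
theorem Sy.swapC {T T' : Tri} (h : Sy T T') :
    Sy T { T' with c₁ := T'.c₂, c₂ := T'.c₁, sc := !T'.sc, ej := !T'.ej, ek := !T'.ek } := by
  have h1 := h.tij.swapB.tij
  have e : T'.tij.swapB.tij =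
      { T' with c₁ := T'.c₂, c₂ := T'.c₁, sc := !T'.sc, ej := !T'.ej, ek := !T'.ek } := by
    simp [Tri.tij, Tri.swapB]
  rw [e] at h1
  exact h1

/-- the corners of the circles -/
def Nx (T : Tri) (x y : Pass) : Prop := ∃ W ∈ [T.wi, T.wj, T.wk], CAdj W x y

theorem cadj_rot {α : Type} {u v : List α} {x y : α} (h : CAdj (u ++ v) x y) : CAdj (v ++ u) x y := by
  rcases h with ⟨s, t, h⟩ | ⟨w, h⟩
  · rcases List.append_eq_append_iff.1 h with ⟨a, h1, h2⟩ | ⟨a, h1, h2⟩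
    · -- s = u ++ a, v = a ++ x :: y :: t
      left
      exact ⟨a, t ++ u, by rw [h2]; simp⟩
    · -- u = s ++ a, x :: y :: t = a ++ v
      rcases a with _ | ⟨a₁, _ | ⟨a₂, a⟩⟩
      · left
        simp only [List.nil_append] at h2
        exact ⟨[], t ++ u, by rw [← h2]; simp⟩
      · simp only [List.cons_append, List.nil_append, List.cons.injEq] at h2
        obtain ⟨rfl, rfl⟩ := h2
        right
        exact ⟨t ++ s, by rw [h1]; simp⟩
      · simp only [List.cons_append, List.cons.injEq] at h2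
        obtain ⟨rfl, rfl, rfl⟩ := h2
        left
        exact ⟨v ++ s, a, by rw [h1]; simp⟩
  · rcases u with _ | ⟨u₁, u⟩
    · right
      exact ⟨w, by rw [List.nil_append] at h; rw [h]; simp⟩
    · rcases List.eq_nil_or_concat v with rfl | ⟨v, v₁, rfl⟩
      · right
        exact ⟨w, by rw [List.append_nil] at h; rw [h]; simp⟩
      · simp only [List.concat_eq_append, List.cons_append, List.cons.injEq] at h
        obtain ⟨rfl, h⟩ := h
        rw [← List.append_assoc] at h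
        have h2 := List.append_inj' h rfl
        simp only [List.cons.injEq, and_true] at h2
        obtain ⟨-, rfl⟩ := h2
        left
        exact ⟨v, u, by simp⟩

theorem cadj_rotW {w w' : List Pass} (h : RotW w w') {x y : Pass} (k : CAdj w x y) : CAdj w' x y := by
  obtain ⟨u, v, rfl, rfl⟩ := h
  exact cadj_rot k

theorem nx_of {T T' : Tri} (h1 : RotW T.wi T'.wi) (h2 : RotW T.wj T'.wj) (h3 : RotW T.wk T'.wk)
    {x y : Pass} (h : Nx T x y) : Nx T' x y := by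
  obtain ⟨W, hW, h⟩ := h
  simp only [List.mem_cons, List.not_mem_nil, or_false] at hW
  rcases hW with rfl | rfl | rfl
  · exact ⟨_, by simp, cadj_rotW h1 h⟩
  · exact ⟨_, List.mem_cons_of_mem _ (by simp), cadj_rotW h2 h⟩
  · exact ⟨_, List.mem_cons_of_mem _ (List.mem_cons_of_mem _ (by simp)), cadj_rotW h3 h⟩

theorem Sy.nx {T T' : Tri} (h : Sy T T') {x y : Pass} : Nx T x y → Nx T' x y := by
  induction h with
  | refl => exact id
  | @swapA T' _ ih =>
    intro k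
    have h1 : T'.swapA.pa₁ = T'.pa₂ := by simp [Tri.pa₁, Tri.pa₂, Tri.swapA]
    have h2 : T'.swapA.pa₂ = T'.pa₁ := by simp [Tri.pa₁, Tri.pa₂, Tri.swapA]
    refine nx_of (T := T') (T' := T'.swapA) ?_ ?_ (RotW.refl T'.wk) (ih k)
    · simp only [Tri.wi, h1, h2]; exact word4_swap₁ _ _ _ _ _
    · simp only [Tri.wj, h1, h2]; exact word4_swap₁ _ _ _ _ _
  | @swapB T' _ ih =>
    intro k
    have h1 : T'.swapB.pb₁ = T'.pb₂ := by simp [Tri.pb₁, Tri.pb₂, Tri.swapB]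
    have h2 : T'.swapB.pb₂ = T'.pb₁ := by simp [Tri.pb₁, Tri.pb₂, Tri.swapB]
    refine nx_of (T := T') (T' := T'.swapB) ?_ (RotW.refl T'.wj) ?_ (ih k)
    · simp only [Tri.wi, h1, h2]; exact word4_swap₂ _ _ _ _ _
    · simp only [Tri.wk, h1, h2]; exact word4_swap₁ _ _ _ _ _
  | @tij T' _ ih =>
    intro k
    obtain ⟨W, hW, k⟩ := ih k
    have h1 : T'.tij.wi = T'.wj := rfl
    have h2 : T'.tij.wj = T'.wi := by
      simp [Tri.wi, Tri.wj, Tri.tij, Tri.pa₁, Tri.pa₂, Tri.pb₁, Tri.pb₂, Tri.pc₁, Tri.pc₂, Pass.mate]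
    have h3 : T'.tij.wk = T'.wk := word4_swap₃ _ _ _ _ _
    refine ⟨W, ?_, k⟩
    rw [h1, h2, h3]
    simp only [List.mem_cons, List.not_mem_nil, or_false] at hW ⊢
    tauto
  | @tjk T' _ ih =>
    intro k
    obtain ⟨W, hW, k⟩ := ih k
    have h1 : T'.tjk.wi = T'.wi := word4_swap₃ _ _ _ _ _
    have h2 : T'.tjk.wj = T'.wk := rfl
    have h3 : T'.tjk.wk = T'.wj := by
      simp [Tri.wk, Tri.wj, Tri.tjk, Tri.pa₁, Tri.pa₂, Tri.pb₁, Tri.pb₂, Tri.pc₁, Tri.pc₂, Pass.mate]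
    refine ⟨W, ?_, k⟩
    rw [h1, h2, h3]
    simp only [List.mem_cons, List.not_mem_nil, or_false] at hW ⊢
    tauto

theorem nf_i {T₀ T : Tri} (h₀ : Sy T₀ T) {r p : Pass} (h : CAdj T.wi r p) :
    ∃ T' : Tri, T'.ei = true ∧ p = T'.pa₁ ∧ r = T'.pb₁ ∧ Sy T₀ T' := by
  have h : Cyc r p T.wi := h
  unfold Tri.wi word4 at h
  split_ifs at h with he
  · rcases Tri.cyc4 h with ⟨rfl, rfl⟩ | ⟨rfl, rfl⟩ | ⟨rfl, rfl⟩ | ⟨rfl, rfl⟩
    · exact ⟨T.swapA.swapB, by simp [Tri.swapA, Tri.swapB, he],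
        by simp [Tri.swapA, Tri.swapB, Tri.pa₁, Tri.pa₂],
        by simp [Tri.swapA, Tri.swapB, Tri.pb₁, Tri.pb₂], h₀.swapA.swapB⟩
    · exact ⟨T.tjk.swapB, by simp [Tri.tjk, Tri.swapB, he],
        by simp [Tri.tjk, Tri.swapB, Tri.pa₁, Tri.pb₁],
        by simp [Tri.tjk, Tri.swapB, Tri.pb₁, Tri.pa₂], h₀.tjk.swapB⟩
    · exact ⟨T, he, rfl, rfl, h₀⟩
    · exact ⟨T.tjk.swapA, by simp [Tri.tjk, Tri.swapA, he],
        by simp [Tri.tjk, Tri.swapA, Tri.pa₁, Tri.pb₂],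
        by simp [Tri.tjk, Tri.swapA, Tri.pb₁, Tri.pa₁], h₀.tjk.swapA⟩
  · have he : T.ei = false := by simpa using he
    rcases Tri.cyc4 h with ⟨rfl, rfl⟩ | ⟨rfl, rfl⟩ | ⟨rfl, rfl⟩ | ⟨rfl, rfl⟩
    · exact ⟨T.tjk.swapA.swapB, by simp [Tri.tjk, Tri.swapA, Tri.swapB, he],
        by simp [Tri.tjk, Tri.swapA, Tri.swapB, Tri.pa₁, Tri.pb₂],
        by simp [Tri.tjk, Tri.swapA, Tri.swapB, Tri.pb₁, Tri.pa₂], h₀.tjk.swapA.swapB⟩
    · exact ⟨T.swapB, by simp [Tri.swapB, he], by simp [Tri.swapB, Tri.pa₁],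
        by simp [Tri.swapB, Tri.pb₁, Tri.pb₂], h₀.swapB⟩
    · exact ⟨T.tjk, by simp [Tri.tjk, he], by simp [Tri.tjk, Tri.pa₁, Tri.pb₁],
        by simp [Tri.tjk, Tri.pb₁, Tri.pa₁], h₀.tjk⟩
    · exact ⟨T.swapA, by simp [Tri.swapA, he], by simp [Tri.swapA, Tri.pa₁, Tri.pa₂],
        by simp [Tri.swapA, Tri.pb₁], h₀.swapA⟩

/-- every corner can be described as the corner between `b₁` and `a₁` -/
theorem nf {T : Tri} {r p : Pass} (h : Nx T r p) :
    ∃ T' : Tri, T'.ei = true ∧ p = T'.pa₁ ∧ r = T'.pb₁ ∧ Sy T T' := by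
  obtain ⟨W, hW, h⟩ := h
  simp only [List.mem_cons, List.not_mem_nil, or_false] at hW
  rcases hW with rfl | rfl | rfl
  · exact nf_i Sy.refl h
  · exact nf_i (T := T.tij) (Sy.tij Sy.refl) h
  · exact nf_i (T := T.tjk.tij) (Sy.tij (Sy.tjk Sy.refl)) h

theorem cor_TC {Ts : List Tri} {x y : Pass} (h : Cor (TC Ts) x y) : ∃ T ∈ Ts, Nx T x y := by
  obtain ⟨C, hC, h⟩ := h
  obtain ⟨T, hT, hC⟩ := List.mem_flatMap.1 hC
  refine ⟨T, hT, C.1, ?_, h⟩
  simp only [Tri.code, List.mem_cons, List.not_mem_nil, or_false] at hC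
  rcases hC with rfl | rfl | rfl <;> simp

end Pool.Agent.V11206
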