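import Pool.Agent.V11206.Elim2
import Pool.Agent.V11206.Annih
import Pool.Agent.V11206.Gen

/-! Elimination of one triple point. -/

set_option autoImplicit false

namespace Pool.Agent.V11206

open Pool.Agent.Y468.SR
open Pool.Agent.Y874.TP (colour NullV Tri TC Cyc passes_append' word4 mem_code)
open Pool.Agent.Y874.TP2 (part InvM CM)
open Pool.Agent.Y968.TP (Occ matching_iff VV val_VV VV_mk)

/-- the names of the crossings at the corners of a triple point -/
def Nam (T : Tri) (c : ℕ) : Prop := c = T.a₁ ∨ c = T.a₂ ∨ c = T.b₁ ∨ c = T.b₂ ∨ c = T.c₁ ∨ c = T.c₂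

theorem nam_of {T : Tri} {p : Pass} (h : p ∈ passes T.code) : Nam T p.crossing := by
  rw [mem_code] at h
  unfold Nam
  rcases h with rfl | rfl | rfl | rfl | rfl | rfl | rfl | rfl | rfl | rfl | rfl | rfl <;>
    simp [Tri.pa₁, Tri.pa₂, Tri.pb₁, Tri.pb₂, Tri.pc₁, Tri.pc₂, Pass.mate]

theorem nam_pass {T : Tri} {c : ℕ} (h : Nam T c) : ∃ p ∈ passes T.code, p.crossing = c := by
  unfold Nam at h
  rcases h with rfl | rfl | rfl | rfl | rfl | rfl
  · exact ⟨T.pa₁, by rw [mem_code]; simp, rfl⟩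
  · exact ⟨T.pa₂, by rw [mem_code]; simp, rfl⟩
  · exact ⟨T.pb₁, by rw [mem_code]; simp, rfl⟩
  · exact ⟨T.pb₂, by rw [mem_code]; simp, rfl⟩
  · exact ⟨T.pc₁, by rw [mem_code]; simp, rfl⟩
  · exact ⟨T.pc₂, by rw [mem_code]; simp, rfl⟩

/-- the solution of the equations for the circles -/
structure Sol {G : Type} [Group G] (T : Tri) (m : ℕ → ℕ) (V W : ℕ → Bool → G) (S : ℕ → Prop) :
    Prop where
  nam : ∀ c, S c → Nam T c
  out : ∀ c l, ¬S c → W c l = V c l
  clo : ∀ c, S c → S (m c)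
  slf : ∀ c, S c → m c = c → W c false = (W c true)⁻¹
  mat : ∀ c l, S c → m c ≠ c → W (m c) l = (W c l)⁻¹
  wi : v4 T.ei (W T.a₁ T.ta) (W T.a₂ T.ta) (W T.b₁ T.tb) (W T.b₂ T.tb) = 1
  wj : v4 T.ej (W T.a₁ (!T.ta)) (W T.a₂ (!T.ta)) (W T.c₁ T.tc) (W T.c₂ T.tc) = 1
  wk : v4 T.ek (W T.b₁ (!T.tb)) (W T.b₂ (!T.tb)) (W T.c₁ (!T.tc)) (W T.c₂ (!T.tc)) = 1

theorem tri_elim {D O : Code} {T : Tri} {m : ℕ → ℕ} {L : List (ℕ × ℕ × Bool)} {d₀ d₁ : ℕ}
    {s₀ s₁ : Bool} (hw : WF (passes (D ++ (T.code ++ O)))) (hI : InvM (D ++ (T.code ++ O)) m)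
    (hd : d₀ ≠ d₁) (hf : ∀ p ∈ passes (D ++ (T.code ++ O)), p.crossing ≠ d₀ ∧ p.crossing ≠ d₁)
    (hL : ∀ q, q ∈ PH L ↔ q ∈ passes T.code ∨ (q.crossing = d₀ ∧ q.isPos = s₀) ∨
      (q.crossing = d₁ ∧ q.isPos = s₁))
    (hlen : L.length = 4) (hcol : ∀ x ∈ L, colour x.1 = colour x.2.1)
    (hev : colour d₀ % 2 = 0 ∧ colour d₁ % 2 = 0)
    (hsol : ∀ (G : Type) [Group G] (V : ℕ → Bool → G), (∀ x ∈ L, ∀ l, V x.2.1 l = (V x.1 l)⁻¹) →
      V d₀ false = (V d₀ true)⁻¹ → V d₁ false = (V d₁ true)⁻¹ → ∃ W S, Sol T m V W S) :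
    WF (passes (D ++ O)) ∧ ∃ m', InvM (D ++ O) m' ∧
      Tr (Nam T) (fun c => ∃ q ∈ passes (D ++ O), q.crossing = c) m m' := by
  obtain ⟨hM, hC, hN⟩ := hI
  set m₁ : ℕ → ℕ := fun c => if c = d₀ ∨ c = d₁ then c else m c with hm₁
  have e0 : passes (D ++ (T.code ++ O)) = passes D ++ (passes T.code ++ passes O) := by
    simp only [passes_append']
  have hperm0 : (passes (D ++ (T.code ++ O))).Perm (passes T.code ++ passes (D ++ O)) := by
    rw [e0, passes_append', List.perm_iff_count]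
    intro a
    simp only [List.count_append]
    omega
  have hDO : ∀ q ∈ passes (D ++ O), q ∈ passes (D ++ (T.code ++ O)) := fun q hq =>
    hperm0.symm.subset (List.mem_append_right _ hq)
  have hT : ∀ q ∈ passes T.code, q ∈ passes (D ++ (T.code ++ O)) := fun q hq =>
    hperm0.symm.subset (List.mem_append_left _ hq)
  have hnd0 : (passes T.code ++ passes (D ++ O)).Nodup := hperm0.nodup_iff.1 (WF.nodup hw)
  -- the passages of the dummies
  set DP : List Pass := [⟨d₀, true, s₀⟩, ⟨d₀, false, s₀⟩, ⟨d₁, true, s₁⟩, ⟨d₁, false, s₁⟩] with hDP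
  have memDP : ∀ q, q ∈ DP ↔ (q.crossing = d₀ ∧ q.isPos = s₀) ∨ (q.crossing = d₁ ∧ q.isPos = s₁) := by
    rintro ⟨c, e, σ⟩
    rw [hDP]
    cases e <;> simp
  have hperm : (passes T.code ++ DP).Perm (PH L) := by
    refine List.Subperm.perm_of_length_le (List.subperm_of_subset ?_ fun q hq => ?_) ?_
    · rw [List.nodup_append]
      refine ⟨(List.nodup_append.1 hnd0).1, ?_, ?_⟩
      · rw [hDP]; simp [hd]
      · intro q hq q' hq' he
        subst he
        rcases (memDP q).1 hq' with ⟨h, -⟩ | ⟨h, -⟩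
        · exact (hf q (hT q hq)).1 h
        · exact (hf q (hT q hq)).2 h
    · rw [hL]
      rcases List.mem_append.1 hq with h | h
      · exact Or.inl h
      · exact Or.inr ((memDP q).1 h)
    · rw [List.length_append, code_length]
      have : ∀ L : List (ℕ × ℕ × Bool), (PH L).length = 4 * L.length := by
        intro L
        induction L with
        | nil => rfl
        | cons x L ih =>
          unfold PH at ih ⊢
          rw [List.flatMap_cons, List.length_append, ih]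
          simp [ph]; omega
      rw [this, hlen, hDP]
      rfl
  have hwDP : WF DP := by
    refine ⟨fun p hp => ?_, ?_⟩
    · rw [memDP] at hp ⊢
      exact hp
    · rw [hDP]
      simp [hd]
  have hw2 : WF (passes (D ++ (T.code ++ O)) ++ DP) := by
    refine WF.append hw hwDP fun p hp q hq he => ?_
    rcases (memDP q).1 hq with ⟨h, -⟩ | ⟨h, -⟩
    · exact (hf p hp).1 (he.trans h)
    · exact (hf p hp).2 (he.trans h)
  have hperm2 : (passes (D ++ (T.code ++ O)) ++ DP).Perm (passes (D ++ O) ++ PH L) := by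
    refine List.Perm.trans (List.Perm.append_right _ hperm0) ?_
    refine List.Perm.trans ?_ (List.Perm.append_left _ hperm)
    rw [List.perm_iff_count]
    intro a
    simp only [List.count_append]
    omega
  have hw' : WF (passes (D ++ O) ++ PH L) := WF.perm hperm2 hw2
  have hm₁o : ∀ p ∈ passes (D ++ (T.code ++ O)), m₁ p.crossing = m p.crossing := by
    intro p hp
    obtain ⟨h1, h2⟩ := hf p hp
    rw [hm₁]
    simp only
    rw [if_neg (by tauto)]
  have hm₁0 : m₁ d₀ = d₀ := by rw [hm₁]; simp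
  have hm₁1 : m₁ d₁ = d₁ := by rw [hm₁]; simp
  have hmem : ∀ r, r ∈ passes (D ++ O) ++ PH L ↔ r ∈ passes (D ++ (T.code ++ O)) ∨ r ∈ DP :=
    fun r => by rw [← hperm2.mem_iff, List.mem_append]
  have hX : InvX (D ++ O) L m₁ := by
    refine ⟨?_, ?_, hcol, ?_⟩
    · intro p hp
      rcases (hmem p).1 hp with hp | hp
      · obtain ⟨q, hq, h1, h2, h3⟩ := hM p hp
        refine ⟨q, (hmem q).2 (Or.inl hq), ?_, ?_, h3⟩
        · rw [hm₁o p hp]; exact h1
        · rw [hm₁o q hq]; exact h2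
      · refine ⟨p, (hmem p).2 (Or.inr hp), ?_, ?_, fun h => absurd rfl h⟩ <;>
          rcases (memDP p).1 hp with ⟨h, -⟩ | ⟨h, -⟩ <;> rw [h] <;> simp [hm₁0, hm₁1]
    · intro p hp
      rcases (hmem p).1 hp with hp | hp
      · rw [hm₁o p hp]; exact hC p hp
      · rcases (memDP p).1 hp with ⟨h, -⟩ | ⟨h, -⟩
        · rw [h, hm₁0]
          exact ⟨rfl, fun h => absurd hev.1 h⟩
        · rw [h, hm₁1]
          exact ⟨rfl, fun h => absurd hev.2 h⟩
    intro G _ o u hv hco hcu b
    obtain ⟨W, S, hS⟩ := hsol G (VV o u) (fun x hx l => by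
        simp only [VV]
        cases l
        · exact hcu x hx
        · exact hco x hx) (by
        have := (hv ⟨d₀, true, s₀⟩ ((hmem _).2 (Or.inr ((memDP _).2 (Or.inl ⟨rfl, rfl⟩))))).1 hm₁0
        simpa [VV] using this) (by
        have := (hv ⟨d₁, true, s₁⟩ ((hmem _).2 (Or.inr ((memDP _).2 (Or.inr ⟨rfl, rfl⟩))))).1 hm₁1
        simpa [VV] using this)
    have hnoS : ∀ q ∈ passes (D ++ O), ¬S q.crossing := by
      intro q hq hs
      obtain ⟨p, hp, he⟩ := nam_pass (hS.nam _ hs)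
      have hw3 : WF (passes T.code ++ passes (D ++ O)) := WF.perm hperm0 hw
      exact hw3.ne_crossing hp (code_mate hp) hq he.symm
    have hval : Valid (passes (D ++ (T.code ++ O))) m (fun c => W c true) (fun c => W c false) := by
      intro p hp
      by_cases k1 : S p.crossing
      · exact ⟨fun h => hS.slf _ k1 h, fun h => ⟨hS.mat _ _ k1 h, hS.mat _ _ k1 h⟩⟩
      · have k2 : ¬S (m p.crossing) := fun h => k1 (by
          have := hS.clo _ h
          rwa [matching_invol hM hp] at this)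
        obtain ⟨v1, v2⟩ := hv p ((hmem p).2 (Or.inl hp))
        rw [hm₁o p hp] at v1 v2
        simp only [hS.out _ _ k1, hS.out _ _ k2]
        simpa [VV] using And.intro v1 v2
    have h1 := hN G _ _ hval b
    have hE : ∀ C ∈ D ++ O, wval (fun c => W c true) (fun c => W c false) C.1 = wval o u C.1 := by
      intro C hC
      unfold wval
      congr 1
      refine List.map_congr_left fun q hq => ?_
      have k := hnoS q (mem_passes.2 ⟨C, hC, hq⟩)
      rw [val_VV, VV_mk, hS.out _ _ k, val_VV]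
    have hvD : vals (fun c => W c true) (fun c => W c false) D = vals o u D := by
      unfold vals
      exact List.map_congr_left fun C hC => by rw [hE C (by simp [hC])]
    have hvO : vals (fun c => W c true) (fun c => W c false) O = vals o u O := by
      unfold vals
      exact List.map_congr_left fun C hC => by rw [hE C (by simp [hC])]
    have wT : wval (fun c => W c true) (fun c => W c false) T.wi = 1 ∧
        wval (fun c => W c true) (fun c => W c false) T.wj = 1 ∧
        wval (fun c => W c true) (fun c => W c false) T.wk = 1 := by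
      unfold Tri.wi Tri.wj Tri.wk
      simp only [wval_word4, val_VV, VV_mk, Tri.pa₁, Tri.pa₂, Tri.pb₁, Tri.pb₂, Tri.pc₁, Tri.pc₂,
        Pass.mate]
      exact ⟨hS.wi, hS.wj, hS.wk⟩
    have ones : ∀ g ∈ bv (vals (fun c => W c true) (fun c => W c false) T.code) b, g = 1 := by
      obtain ⟨t1, t2, t3⟩ := wT
      intro g hg
      simp only [Tri.code, vals, List.map_cons, List.map_nil, t1, t2, t3, bv, List.mem_map,
        List.mem_filter, List.mem_cons, List.not_mem_nil, or_false] at hg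
      obtain ⟨⟨g', b'⟩, ⟨h2, -⟩, rfl⟩ := hg
      rcases h2 with h2 | h2 | h2 <;> exact congrArg Prod.fst h2
    rw [vals_append, vals_append, bv_append, bv_append, hvD, hvO] at h1
    rw [vals_append, bv_append]
    exact Pool.Agent.Y968.TP.cn_ones ones h1
  obtain ⟨k1, m', k2, k3⟩ := elim' hw' hX
  refine ⟨k1, m', k2, fun c hc => ?_⟩
  obtain ⟨q, hq, rfl⟩ := hc
  have h1 := k3 q.crossing ⟨q, hq, rfl⟩
  rw [hm₁o q (hDO q hq)] at h1
  have hNL : ∀ y, NL L y → Nam T y ∨ y = d₀ ∨ y = d₁ := by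
    rintro y ⟨x, hx, hy⟩
    have : ∃ q ∈ PH L, q.crossing = y := by
      rcases hy with rfl | rfl
      · exact ⟨⟨x.1, true, x.2.2⟩, mem_PH hx (by simp [ph]), rfl⟩
      · exact ⟨⟨x.2.1, true, !x.2.2⟩, mem_PH hx (by simp [ph]), rfl⟩
    obtain ⟨q, hq, rfl⟩ := this
    rcases (hL q).1 hq with h | ⟨h, -⟩ | ⟨h, -⟩
    · exact Or.inl (nam_of h)
    · exact Or.inr (Or.inl h)
    · exact Or.inr (Or.inr h)
  have hmq : m q.crossing ≠ d₀ ∧ m q.crossing ≠ d₁ := by
    obtain ⟨q', hq', e1, -⟩ := hM q (hDO q hq)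
    rw [← e1]
    exact hf q' hq'
  have hmq' : m' q.crossing ≠ d₀ ∧ m' q.crossing ≠ d₁ := by
    obtain ⟨q', hq', e1, -⟩ := k2.1 q hq
    rw [← e1]
    exact hf q' (hDO q' hq')
  rcases h1 with h1 | ⟨h1, h2⟩
  · exact Or.inl h1
  · right
    refine ⟨?_, ?_⟩
    · rcases hNL _ h1 with h3 | h3 | h3
      · exact h3
      · exact absurd h3 hmq.1
      · exact absurd h3 hmq.2
    · rcases h2 with h2 | ⟨y, h2, h4⟩
      · exact Or.inl h2
      · right
        rcases hNL _ h2 with h3 | h3 | h3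
        · refine ⟨y, h3, ?_⟩
          obtain ⟨p, hp, rfl⟩ := nam_pass h3
          rw [h4, hm₁o p (hT p hp)]
        · exact absurd (h4.trans (by rw [h3, hm₁0])) hmq'.1
        · exact absurd (h4.trans (by rw [h3, hm₁1])) hmq'.2

end Pool.Agent.V11206
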